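import Mathlib

set_option autoImplicit false

noncomputable section

namespace Pool.Agent.Work.MP_e97a4d_nt.Picard

open Complex Metric Set Filter
open scoped Topology

/-- A nowhere vanishing entire function has an entire logarithm. -/
theorem exists_log (f : ℂ → ℂ) (hf : Differentiable ℂ f) (h0 : ∀ z, f z ≠ 0) :
    ∃ g : ℂ → ℂ, Differentiable ℂ g ∧ ∀ z, f z = exp (g z) := by
  have hd : Differentiable ℂ (deriv f) := by
    intro z
    exact (hf.analyticAt z).deriv.differentiableAt
  have hq : Differentiable ℂ (fun z => deriv f z / f z) := fun z =>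
    (hd z).div (hf z) (h0 z)
  obtain ⟨G, hG0, hG⟩ := (hq.isExactOn_univ).with_val_at 0 (log (f 0))
  refine ⟨G, fun z => (hG z (mem_univ z)).differentiableAt, ?_⟩
  have hder : ∀ z, HasDerivAt (fun z => f z * exp (-G z)) 0 z := by
    intro z
    have h1 := (hf z).hasDerivAt
    have h2 := (hG z (mem_univ z))
    have h3 := h1.mul (h2.neg.cexp)
    refine h3.congr_deriv ?_
    have h4 := h0 z
    field_simp
    ring
  have hconst : ∀ z, f z * exp (-G z) = f 0 * exp (-G 0) := by
    intro z
    exact is_const_of_deriv_eq_zero (fun z => (hder z).differentiableAt)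
      (fun z => (hder z).deriv) z 0
  intro z
  have h1 := hconst z
  rw [hG0, exp_neg (log (f 0)), exp_log (h0 0), mul_inv_cancel₀ (h0 0), exp_neg] at h1
  have h2 := exp_ne_zero (G z)
  field_simp at h1
  exact h1

/-- An entire function omitting `1` and `-1` is the cosine of `π` times an entire function. -/
theorem exists_cos (f : ℂ → ℂ) (hf : Differentiable ℂ f) (h1 : ∀ z, f z ≠ 1)
    (h2 : ∀ z, f z ≠ -1) :
    ∃ g : ℂ → ℂ, Differentiable ℂ g ∧ ∀ z, f z = cos (Real.pi * g z) := by
  have hne : ∀ z, f z ^ 2 - 1 ≠ 0 := by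
    intro z h
    have : (f z - 1) * (f z + 1) = 0 := by linear_combination h
    rcases mul_eq_zero.1 this with h | h
    · exact h1 z (sub_eq_zero.1 h)
    · exact h2 z (eq_neg_of_add_eq_zero_left h)
  obtain ⟨L, hL, hLe⟩ := exists_log (fun z => f z ^ 2 - 1) ((hf.pow 2).sub_const 1) hne
  let s : ℂ → ℂ := fun z => exp (L z / 2)
  have hs : Differentiable ℂ s := (hL.div_const 2).cexp
  have hs2 : ∀ z, s z ^ 2 = f z ^ 2 - 1 := by
    intro z
    rw [hLe z, ← exp_nat_mul]
    congr 1
    push_cast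
    ring
  have hprod : ∀ z, (f z + s z) * (f z - s z) = 1 := by
    intro z
    linear_combination -(hs2 z)
  obtain ⟨M, hM, hMe⟩ := exists_log (fun z => f z + s z) (hf.add hs) (fun z h => by
    have := hprod z
    rw [h, zero_mul] at this
    exact zero_ne_one this)
  have hpi : (Real.pi : ℂ) ≠ 0 := ofReal_ne_zero.2 Real.pi_ne_zero
  refine ⟨fun z => M z / (Real.pi * I), hM.div_const _, ?_⟩
  intro z
  have h3 : (Real.pi : ℂ) * (M z / (Real.pi * I)) = -(M z * I) := by
    have hI : I ≠ 0 := I_ne_zero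
    field_simp
    rw [I_sq]
    ring
  rw [h3, cos_neg, cos, mul_assoc, I_mul_I, mul_neg, mul_one, neg_mul, mul_assoc, I_mul_I, mul_neg,
    mul_one, neg_neg]
  have h4 : exp (M z) = f z + s z := (hMe z).symm
  have h5 : exp (-M z) = f z - s z := by
    rw [exp_neg, h4]
    exact inv_eq_of_mul_eq_one_right (hprod z)
  rw [h4, h5]
  ring

/-- A weak form of Bloch's theorem. -/
theorem exists_ball_subset_range (f : ℂ → ℂ) (hf : Differentiable ℂ f) (h0 : deriv f 0 ≠ 0)
    (r : ℝ) (hr : 0 < r) : ∃ w : ℂ, ball w (r * ‖deriv f 0‖ / 64) ⊆ range f := by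
  have hd : Differentiable ℂ (deriv f) := fun z => (hf.analyticAt z).deriv.differentiableAt
  have hcont : Continuous fun z : ℂ => (r - ‖z‖) * ‖deriv f z‖ :=
    (continuous_const.sub continuous_norm).mul hd.continuous.norm
  obtain ⟨a, ha, hmax⟩ := (isCompact_closedBall (0 : ℂ) r).exists_isMaxOn
    ⟨0, mem_closedBall_self hr.le⟩ hcont.continuousOn
  have hM0 : r * ‖deriv f 0‖ ≤ (r - ‖a‖) * ‖deriv f a‖ := by
    have := hmax (mem_closedBall_self hr.le : (0 : ℂ) ∈ closedBall 0 r)
    simpa using this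
  have hpos : 0 < r * ‖deriv f 0‖ := mul_pos hr (norm_pos_iff.2 h0)
  have har : 0 < r - ‖a‖ := by
    by_contra h
    push Not at h
    have := mul_nonpos_of_nonpos_of_nonneg h (norm_nonneg (deriv f a))
    linarith
  have hda : 0 < ‖deriv f a‖ := by
    by_contra h
    push Not at h
    have h' : ‖deriv f a‖ = 0 := le_antisymm h (norm_nonneg _)
    rw [h', mul_zero] at hM0
    linarith
  set t : ℝ := (r - ‖a‖) / 2 with ht
  have htpos : 0 < t := by positivity
  set K : ℝ := ‖deriv f a‖ with hK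
  have hbound : ∀ z ∈ ball a t, ‖deriv f z‖ ≤ 2 * K := by
    intro z hz
    rw [mem_ball, dist_eq_norm] at hz
    have hz1 : ‖z‖ ≤ ‖a‖ + t := by
      calc ‖z‖ = ‖a + (z - a)‖ := by ring_nf
        _ ≤ ‖a‖ + ‖z - a‖ := norm_add_le _ _
        _ ≤ ‖a‖ + t := by linarith
    have hz2 : t ≤ r - ‖z‖ := by linarith
    have hzr : z ∈ closedBall (0 : ℂ) r := by
      rw [mem_closedBall, dist_zero_right]; linarith
    have h1 := hmax hzr
    simp only [mem_ofPred_eq] at h1
    have h2 : t * ‖deriv f z‖ ≤ t * (2 * K) := by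
      calc t * ‖deriv f z‖ ≤ (r - ‖z‖) * ‖deriv f z‖ :=
            mul_le_mul_of_nonneg_right hz2 (norm_nonneg _)
        _ ≤ (r - ‖a‖) * ‖deriv f a‖ := h1
        _ = t * (2 * K) := by rw [ht, hK]; ring
    exact le_of_mul_le_mul_left h2 htpos
  have hmaps : MapsTo (deriv f) (ball a t) (closedBall (deriv f a) (4 * K)) := by
    intro z hz
    rw [mem_closedBall, dist_eq_norm]
    calc ‖deriv f z - deriv f a‖ ≤ ‖deriv f z‖ + ‖deriv f a‖ := norm_sub_le _ _
      _ ≤ 2 * K + K := by linarith [hbound z hz]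
      _ ≤ 4 * K := by linarith
  have hlip : ∀ z ∈ ball a t, ‖deriv f z - deriv f a‖ ≤ 4 * K / t * ‖z - a‖ := by
    intro z hz
    have := dist_le_div_mul_dist_of_mapsTo_ball hd.differentiableOn hmaps hz
    rwa [dist_eq_norm, dist_eq_norm] at this
  set s : ℝ := t / 8 with hs
  have hspos : 0 < s := by positivity
  have hsub : closedBall a s ⊆ ball a t := closedBall_subset_ball (by rw [hs]; linarith)
  let g : ℂ → ℂ := fun z => f z - deriv f a * z
  have hg : ∀ z, HasDerivAt g (deriv f z - deriv f a) z := by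
    intro z
    have h1 := (hf z).hasDerivAt
    have h2 := (hasDerivAt_id z).const_mul (deriv f a)
    simp only [mul_one] at h2
    exact h1.sub h2
  have hgb : ∀ z ∈ closedBall a s, ‖g z - g a‖ ≤ 4 * K / t * s * ‖z - a‖ := by
    intro z hz
    refine (convex_closedBall a s).norm_image_sub_le_of_norm_hasDerivWithin_le
      (fun x hx => (hg x).hasDerivWithinAt) ?_ (mem_closedBall_self hspos.le) hz
    intro x hx
    refine (hlip x (hsub hx)).trans ?_
    rw [mem_closedBall, dist_eq_norm] at hx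
    exact mul_le_mul_of_nonneg_left hx (by positivity)
  have hlow : ∀ z ∈ sphere a s, K * t / 16 ≤ ‖f z - f a‖ := by
    intro z hz
    have hz' : ‖z - a‖ = s := by rw [← dist_eq_norm]; exact hz
    have h1 := hgb z (sphere_subset_closedBall hz)
    have h2 : f z - f a = deriv f a * (z - a) + (g z - g a) := by
      simp only [g]; ring
    have h3 : ‖deriv f a * (z - a)‖ ≤ ‖f z - f a‖ + ‖g z - g a‖ := by
      have : deriv f a * (z - a) = (f z - f a) - (g z - g a) := by rw [h2]; ring
      rw [this]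
      exact norm_sub_le _ _
    rw [norm_mul, hz', ← hK] at h3
    rw [hz'] at h1
    have h4 : 4 * K / t * s * s = K * t / 16 := by
      rw [hs]
      field_simp
      ring
    have h5 : K * s = K * t / 8 := by rw [hs]; ring
    linarith
  have hfreq : ∃ᶠ z in 𝓝 a, f z ≠ f a := by
    intro hcon
    have h1 : f =ᶠ[𝓝 a] fun _ => f a := by
      filter_upwards [hcon] with z hz
      simpa using hz
    have h2 := h1.deriv_eq
    rw [deriv_const] at h2
    rw [hK, h2, norm_zero] at hda
    exact lt_irrefl _ hda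
  refine ⟨f a, ?_⟩
  have h1 := DiffContOnCl.ball_subset_image_closedBall (hf.diffContOnCl (s := ball a s)) hspos hlow
    hfreq
  refine (ball_subset_ball ?_).trans (h1.trans (image_subset_range _ _))
  have h2 : (r - ‖a‖) * ‖deriv f a‖ = 2 * t * K := by rw [ht, hK]; ring
  rw [h2] at hM0
  linarith

/-- A nonconstant entire function takes all values in discs of arbitrarily large radius. -/
theorem exists_large_ball (f : ℂ → ℂ) (hf : Differentiable ℂ f) (hne : ∃ z, deriv f z ≠ 0)
    (R : ℝ) : ∃ w : ℂ, ball w R ⊆ range f := by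
  obtain ⟨b, hb⟩ := hne
  let g : ℂ → ℂ := fun z => f (z + b)
  have hg : Differentiable ℂ g := hf.comp (differentiable_id.add_const b)
  have hgd : deriv g 0 = deriv f b := by
    have : deriv g 0 = deriv f (0 + b) := deriv_comp_add_const f b 0
    rw [this, zero_add]
  have hpos : 0 < ‖deriv g 0‖ := by rw [hgd]; exact norm_pos_iff.2 hb
  obtain ⟨w, hw⟩ := exists_ball_subset_range g hg (norm_pos_iff.1 hpos)
    ((64 * (|R| + 1)) / ‖deriv g 0‖) (by positivity)
  refine ⟨w, (ball_subset_ball ?_).trans (hw.trans ?_)⟩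
  · rw [div_mul_cancel₀ _ hpos.ne']
    have := le_abs_self R
    linarith
  · rintro _ ⟨z, rfl⟩
    exact ⟨z + b, rfl⟩

theorem cosh_pi_half : 2 ≤ Real.cosh (Real.pi / 2) := by
  have h1 : Real.exp (3 / 2) ≤ Real.exp (Real.pi / 2) :=
    Real.exp_le_exp.2 (by linarith [Real.pi_gt_three])
  have h2 : Real.exp (3 / 2) = Real.exp 1 * Real.exp (1 / 2) := by
    rw [← Real.exp_add]; norm_num
  have h3 := Real.exp_one_gt_d9
  have h4 := Real.quadratic_le_exp_of_nonneg (x := 1 / 2) (by norm_num)
  have h5 : 4 ≤ Real.exp 1 * Real.exp (1 / 2) := by nlinarith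
  have h6 := Real.exp_pos (-(Real.pi / 2))
  rw [Real.cosh_eq]
  linarith

theorem exists_cosh_int (v : ℝ) : ∃ y : ℝ, |y - v| ≤ 1 / 2 ∧ ∃ n : ℤ, Real.cosh (Real.pi * y) = n := by
  wlog hv : 0 ≤ v generalizing v
  · obtain ⟨y, hy, n, hn⟩ := this (-v) (by linarith)
    refine ⟨-y, ?_, n, ?_⟩
    · rw [← abs_neg]
      have : -(-y - v) = y - -v := by ring
      rw [this]; exact hy
    · rw [mul_neg, Real.cosh_neg]; exact hn
  · have hcont : ContinuousOn (fun y => Real.cosh (Real.pi * y)) (Set.Icc v (v + 1 / 2)) :=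
      (Real.continuous_cosh.comp (continuous_const.mul continuous_id)).continuousOn
    have hgap : Real.cosh (Real.pi * v) + 1 ≤ Real.cosh (Real.pi * (v + 1 / 2)) := by
      have h1 : Real.pi * (v + 1 / 2) = Real.pi * v + Real.pi / 2 := by ring
      rw [h1, Real.cosh_add]
      have h2 : 0 ≤ Real.sinh (Real.pi * v) := Real.sinh_nonneg_iff.2 (by positivity)
      have h3 : 0 ≤ Real.sinh (Real.pi / 2) := Real.sinh_nonneg_iff.2 (by positivity)
      have h4 := Real.one_le_cosh (Real.pi * v)
      have h5 := cosh_pi_half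
      nlinarith [mul_nonneg h2 h3]
    let n : ℤ := ⌈Real.cosh (Real.pi * v)⌉
    have hn1 : Real.cosh (Real.pi * v) ≤ n := Int.le_ceil _
    have hn2 : (n : ℝ) ≤ Real.cosh (Real.pi * (v + 1 / 2)) := by
      have := Int.ceil_lt_add_one (Real.cosh (Real.pi * v))
      have h3 : (n : ℝ) < Real.cosh (Real.pi * v) + 1 := this
      linarith
    obtain ⟨y, hy, hyn⟩ := intermediate_value_Icc (by linarith : v ≤ v + 1 / 2) hcont ⟨hn1, hn2⟩
    refine ⟨y, ?_, n, hyn⟩
    rw [abs_le]
    constructor <;> linarith [hy.1, hy.2]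

/-- **Little Picard theorem**: an entire function omitting `1` and `-1` is constant. -/
theorem little_picard (f : ℂ → ℂ) (hf : Differentiable ℂ f) (h1 : ∀ z, f z ≠ 1)
    (h2 : ∀ z, f z ≠ -1) (z w : ℂ) : f z = f w := by
  obtain ⟨F, hF, hfF⟩ := exists_cos f hf h1 h2
  have hint : ∀ z (n : ℤ), F z ≠ n := by
    intro z n hn
    have h3 := hfF z
    rw [hn] at h3
    have h4 : cos (Real.pi * (n : ℂ)) = 1 ∨ cos (Real.pi * (n : ℂ)) = -1 := by
      have h5 : (Real.pi : ℂ) * (n : ℂ) = n * Real.pi := mul_comm _ _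
      rw [h5]
      rcases Int.even_or_odd n with he | ho
      · left
        obtain ⟨k, rfl⟩ := he
        have : ((k + k : ℤ) : ℂ) * Real.pi = k * (2 * Real.pi) := by push_cast; ring
        rw [this]
        exact cos_int_mul_two_pi k
      · right
        obtain ⟨k, rfl⟩ := ho
        have : ((2 * k + 1 : ℤ) : ℂ) * Real.pi = k * (2 * Real.pi) + Real.pi := by push_cast; ring
        rw [this]
        exact cos_int_mul_two_pi_add_pi k
    rcases h4 with h4 | h4
    · exact h1 z (h3.trans h4)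
    · exact h2 z (h3.trans h4)
  obtain ⟨G, hG, hFG⟩ := exists_cos F hF (fun z => by simpa using hint z 1)
    (fun z => by simpa using hint z (-1))
  have hGc : ∀ z, deriv G z = 0 := by
    by_contra hcon
    push Not at hcon
    obtain ⟨c, hc⟩ := exists_large_ball G hG hcon 1
    obtain ⟨y, hy, n, hn⟩ := exists_cosh_int c.im
    let m : ℤ := round c.re
    have hm : |c.re - m| ≤ 1 / 2 := abs_sub_round c.re
    have hmem : ((m : ℂ) + y * I) ∈ ball c 1 := by
      rw [mem_ball, dist_eq_norm]
      have h3 : ‖(m : ℂ) + y * I - c‖ ^ 2 = (m - c.re) ^ 2 + (y - c.im) ^ 2 := by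
        rw [← normSq_eq_norm_sq, normSq_apply]
        simp
        ring
      have h4 : (m - c.re) ^ 2 ≤ 1 / 4 := by
        have := sq_le_sq' (by linarith [(abs_le.1 hm).2] : -(1 / 2 : ℝ) ≤ m - c.re)
          (by linarith [(abs_le.1 hm).1])
        linarith
      have h5 : (y - c.im) ^ 2 ≤ 1 / 4 := by
        have := sq_le_sq' (abs_le.1 hy).1 (abs_le.1 hy).2
        linarith
      have h6 : ‖(m : ℂ) + y * I - c‖ ^ 2 < 1 ^ 2 := by rw [h3]; linarith
      exact lt_of_pow_lt_pow_left₀ 2 zero_le_one h6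
    obtain ⟨z, hz⟩ := hc hmem
    have h3 := hFG z
    rw [hz] at h3
    have h4 : (Real.pi : ℂ) * ((m : ℂ) + y * I) = (m : ℂ) * Real.pi + (Real.pi * y : ℝ) * I := by
      push_cast; ring
    rw [h4, cos_add, cos_mul_I, ← ofReal_cosh, hn, sin_int_mul_pi, zero_mul, sub_zero] at h3
    have h5 : ∃ k : ℤ, cos ((m : ℂ) * Real.pi) = k := by
      rcases Int.even_or_odd m with he | ho
      · refine ⟨1, ?_⟩
        obtain ⟨k, hk⟩ := he
        rw [hk]
        have : ((k + k : ℤ) : ℂ) * Real.pi = k * (2 * Real.pi) := by push_cast; ring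
        rw [this, Int.cast_one]
        exact cos_int_mul_two_pi k
      · refine ⟨-1, ?_⟩
        obtain ⟨k, hk⟩ := ho
        rw [hk]
        have : ((2 * k + 1 : ℤ) : ℂ) * Real.pi = k * (2 * Real.pi) + Real.pi := by push_cast; ring
        rw [this, Int.cast_neg, Int.cast_one]
        exact cos_int_mul_two_pi_add_pi k
    obtain ⟨k, hk⟩ := h5
    rw [hk] at h3
    apply hint z (k * n)
    rw [h3]
    push_cast
    rfl
  have hGconst : ∀ z w, G z = G w := is_const_of_deriv_eq_zero hG hGc
  have hFconst : ∀ z w, F z = F w := fun z w => by rw [hFG z, hFG w, hGconst z w]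
  rw [hfF z, hfF w, hFconst z w]

end Pool.Agent.Work.MP_e97a4d_nt.Picard
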