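import Mathlib

/-!
Definitions for the Bombieri-Lang-Vojta equivalence (problem MP_e97a4d_nt).

`F₀` is a number field, `σ : F₀ →+* ℂ` the fixed complex embedding, `π : V ⟶ Spec (𝓞 F₀)` a scheme
over the ring of integers and `i : V' ⟶ V` a closed immersion.
-/

set_option autoImplicit false

noncomputable section

namespace Pool.Agent.Work.MP_e97a4d_nt

open AlgebraicGeometry CategoryTheory IsDedekindDomain NumberField

/-- The ring `O_S` of `S`-integers of the number field `F`, for a finite set `S` of finite places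
(the archimedean places are always allowed). -/
abbrev SInt (F : Type) [Field F] [NumberField F] (S : Finset (HeightOneSpectrum (𝓞 F))) : Type :=
  (S : Set (HeightOneSpectrum (𝓞 F))).integer F

/-- The structure homomorphism `O_{F₀} → O_S` for an extension `F` of `F₀`. -/
def structHom (F₀ : Type) [Field F₀] (F : Type) [Field F] [NumberField F] [Algebra F₀ F]
    (S : Finset (HeightOneSpectrum (𝓞 F))) : 𝓞 F₀ →+* SInt F S :=
  (algebraMap (𝓞 F) (SInt F S)).comp (RingOfIntegers.mapRingHom (algebraMap F₀ F))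

variable {F₀ : Type} [Field F₀] {V V' : Scheme.{0}}

/-- The set `V(O_S)` of `O_{F₀}`-morphisms `Spec O_S ⟶ V`. -/
def integralPoints (π : V ⟶ Spec (CommRingCat.of (𝓞 F₀)))
    (F : Type) [Field F] [NumberField F] [Algebra F₀ F]
    (S : Finset (HeightOneSpectrum (𝓞 F))) : Set (Spec (CommRingCat.of (SInt F S)) ⟶ V) :=
  {x | x ≫ π = Spec.map (CommRingCat.ofHom (structHom F₀ F S))}

/-- `f : ℂ → V(ℂ)` is a holomorphic map to the complex analytic space of `V` (with respect to the
embedding `σ`): every `f z` is a complex point of `V` lying over `σ`, and around every `z` the map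
`f` takes values in an affine open `Spec A` of `V` in which all regular functions `a : A` pull back
to holomorphic functions. -/
structure IsHolomorphicMap (σ : F₀ →+* ℂ) (π : V ⟶ Spec (CommRingCat.of (𝓞 F₀)))
    (f : ℂ → (Spec (CommRingCat.of ℂ) ⟶ V)) : Prop where
  structural : ∀ z : ℂ, f z ≫ π = Spec.map (CommRingCat.ofHom (σ.comp (algebraMap (𝓞 F₀) F₀)))
  holo : ∀ z : ℂ, ∃ (A : CommRingCat.{0}) (j : Spec A ⟶ V) (g : ℂ → (A →+* ℂ)) (D : Set ℂ),
    IsOpenImmersion j ∧ IsOpen D ∧ z ∈ D ∧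
      (∀ w ∈ D, f w = Spec.map (CommRingCat.ofHom (g w)) ≫ j) ∧
      ∀ a : A, DifferentiableOn ℂ (fun w => g w a) D

/-- Entire curves in `V(ℂ)`: non-constant holomorphic maps `ℂ → V(ℂ)`. -/
def IsEntireCurve (σ : F₀ →+* ℂ) (π : V ⟶ Spec (CommRingCat.of (𝓞 F₀)))
    (f : ℂ → (Spec (CommRingCat.of ℂ) ⟶ V)) : Prop :=
  IsHolomorphicMap σ π f ∧ ∃ z w : ℂ, f z ≠ f w

/-- Condition (i): the image of every entire curve in `V(ℂ)` lies in `V'(ℂ)`. -/
def CondI (σ : F₀ →+* ℂ) (π : V ⟶ Spec (CommRingCat.of (𝓞 F₀))) (i : V' ⟶ V) : Prop :=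
  ∀ f : ℂ → (Spec (CommRingCat.of ℂ) ⟶ V), IsEntireCurve σ π f →
    ∀ z : ℂ, ∃ p : Spec (CommRingCat.of ℂ) ⟶ V', p ≫ i = f z

/-- Condition (ii): for all finite extensions `F` of `F₀` and all finite sets `S` of places,
only finitely many `S`-integral points of `V` do not factor through `V'`. -/
def CondII (π : V ⟶ Spec (CommRingCat.of (𝓞 F₀))) (i : V' ⟶ V) : Prop :=
  ∀ (F : Type) [Field F] [NumberField F] [Algebra F₀ F] (S : Finset (HeightOneSpectrum (𝓞 F))),
    {x ∈ integralPoints π F S | ¬ ∃ y : Spec (CommRingCat.of (SInt F S)) ⟶ V', y ≫ i = x}.Finite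

/-- The Bombieri-Lang-Vojta equivalence for `(V, V')`. -/
def BLV (σ : F₀ →+* ℂ) (π : V ⟶ Spec (CommRingCat.of (𝓞 F₀))) (i : V' ⟶ V) : Prop :=
  CondI σ π i ↔ CondII π i

end Pool.Agent.Work.MP_e97a4d_nt
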