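import Mathlib
import Pool.Agent.Work.MP_e97a4d_nt.Defs

set_option autoImplicit false

noncomputable section

/-!
The ring of `S`-integers is a localization of the ring of integers, hence a Dedekind domain.
-/

namespace Pool.Agent.Work.MP_e97a4d_nt.Vp

open IsDedekindDomain NumberField nonZeroDivisors

variable (F : Type) [Field F] [NumberField F] (S : Finset (HeightOneSpectrum (𝓞 F)))

theorem exists_generator : ∃ a : 𝓞 F, a ≠ 0 ∧ (∀ v ∈ S, v.valuation F (a : F) < 1) ∧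
    ∀ v ∉ S, v.valuation F (a : F) = 1 := by
  classical
  let I : Ideal (𝓞 F) := ∏ v ∈ S, v.asIdeal
  have hI : I ≠ ⊥ := by
    rw [← Ideal.zero_eq_bot]
    exact Finset.prod_ne_zero_iff.2 (fun v _ => v.ne_bot)
  let I' : (Ideal (𝓞 F))⁰ := ⟨I, mem_nonZeroDivisors_iff_ne_zero.2 hI⟩
  let h := Fintype.card (ClassGroup (𝓞 F))
  have hh : 0 < h := Fintype.card_pos
  have h1 : ClassGroup.mk0 (I' ^ h) = 1 := by
    rw [map_pow]; exact pow_card_eq_one
  rw [ClassGroup.mk0_eq_one_iff] at h1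
  obtain ⟨a, ha⟩ := h1
  have ha' : I ^ h = Ideal.span {a} := by
    have : ((I' ^ h : (Ideal (𝓞 F))⁰) : Ideal (𝓞 F)) = I ^ h := rfl
    rw [← this]; exact ha
  have ha0 : a ≠ 0 := by
    rintro rfl
    rw [Ideal.span_singleton_eq_bot.2 rfl] at ha'
    exact hI (pow_eq_zero_iff hh.ne' |>.1 ha')
  refine ⟨a, ha0, fun v hv => ?_, fun v hv => ?_⟩
  · rw [show ((a : F)) = algebraMap (𝓞 F) F a from rfl, HeightOneSpectrum.valuation_lt_one_iff_dvd,
      ← ha']
    exact dvd_pow (Finset.dvd_prod_of_mem _ hv) hh.ne'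
  · by_contra hne
    have h2 : v.valuation F (algebraMap (𝓞 F) F a) < 1 :=
      lt_of_le_of_ne (v.valuation_le_one a) hne
    rw [HeightOneSpectrum.valuation_lt_one_iff_dvd, ← ha'] at h2
    have h3 : v.asIdeal ∣ I := v.prime.dvd_of_dvd_pow h2
    obtain ⟨w, hw, hvw⟩ := (Prime.dvd_finsetProd_iff v.prime _).1 h3
    have h4 : w.asIdeal ≤ v.asIdeal := Ideal.le_of_dvd hvw
    have h5 : w.asIdeal = v.asIdeal := w.isMaximal.eq_of_le v.isPrime.ne_top h4
    have h6 : w = v := HeightOneSpectrum.ext h5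
    exact hv (h6 ▸ hw)

theorem exists_pow_mul_le (a x : F) (hlt : ∀ v ∈ S, v.valuation F a < 1) :
    ∃ n : ℕ, ∀ v ∈ S, v.valuation F (a ^ n * x) ≤ 1 := by
  classical
  have h1 : ∀ v ∈ S, ∃ n : ℕ, ∀ m, n ≤ m → v.valuation F (a ^ m * x) ≤ 1 := by
    intro v hv
    by_cases ha : a = 0
    · refine ⟨1, fun m hm => ?_⟩
      rw [ha, zero_pow (by omega), zero_mul, map_zero]
      exact zero_le_one
    have hva : v.valuation F a ≠ 0 := (Valuation.ne_zero_iff _).2 ha
    have h2 : 1 < (v.valuation F a)⁻¹ := (one_lt_inv₀ (zero_lt_iff.2 hva)).2 (hlt v hv)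
    obtain ⟨n, hn⟩ := MulArchimedean.arch (v.valuation F x) h2
    refine ⟨n, fun m hm => ?_⟩
    rw [map_mul, map_pow]
    have h3 : v.valuation F x ≤ ((v.valuation F a)⁻¹) ^ m :=
      hn.trans (pow_le_pow_right₀ h2.le hm)
    calc (v.valuation F a) ^ m * v.valuation F x
        ≤ (v.valuation F a) ^ m * ((v.valuation F a)⁻¹) ^ m := by gcongr
      _ = 1 := by rw [← mul_pow, mul_inv_cancel₀ hva, one_pow]
  choose! n hn using h1
  exact ⟨S.sup n, fun v hv => hn v hv _ (Finset.le_sup hv)⟩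

theorem exists_away : ∃ a : 𝓞 F, a ≠ 0 ∧ IsLocalization.Away a (SInt F S) := by
  obtain ⟨a, ha0, hS, hnS⟩ := exists_generator F S
  have haF : (a : F) ≠ 0 := by
    intro h
    exact ha0 (by exact_mod_cast h)
  refine ⟨a, ha0, ?_⟩
  have hinv : ((a : F)⁻¹) ∈ (S : Set (HeightOneSpectrum (𝓞 F))).integer F := by
    intro v hv
    rw [map_inv₀, hnS v hv, inv_one]
  have halg : ∀ r : 𝓞 F, ((algebraMap (𝓞 F) (SInt F S) r : SInt F S) : F) = algebraMap (𝓞 F) F r :=
    fun _ => rfl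
  refine IsLocalization.Away.mk a ?_ ?_ ?_
  · refine IsUnit.of_mul_eq_one ⟨(a : F)⁻¹, hinv⟩ (Subtype.ext ?_)
    change algebraMap (𝓞 F) F a * (a : F)⁻¹ = 1
    exact mul_inv_cancel₀ haF
  · intro x
    obtain ⟨n, hn⟩ := exists_pow_mul_le F S (a : F) (x : F) hS
    have h1 : ∀ v : HeightOneSpectrum (𝓞 F), v.valuation F ((a : F) ^ n * (x : F)) ≤ 1 := by
      intro v
      by_cases hv : v ∈ S
      · exact hn v hv
      · rw [map_mul, map_pow, hnS v hv, one_pow, one_mul]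
        exact x.2 v hv
    obtain ⟨r, hr⟩ := HeightOneSpectrum.mem_integers_of_valuation_le_one F _ h1
    refine ⟨n, r, Subtype.ext ?_⟩
    change (x : F) * ((algebraMap (𝓞 F) (SInt F S) a ^ n : SInt F S) : F) = algebraMap (𝓞 F) F r
    rw [hr]
    have h2 : ((algebraMap (𝓞 F) (SInt F S) a ^ n : SInt F S) : F) = (a : F) ^ n := rfl
    rw [h2, mul_comm]
  · intro x y hxy
    refine ⟨0, ?_⟩
    have h1 : algebraMap (𝓞 F) F x = algebraMap (𝓞 F) F y :=
      congrArg (fun t : SInt F S => (t : F)) hxy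
    rw [FaithfulSMul.algebraMap_injective (𝓞 F) F h1]

instance : IsDedekindDomain (SInt F S) := by
  obtain ⟨a, ha0, ha⟩ := exists_away F S
  exact IsLocalization.isDedekindDomain (𝓞 F) (M := Submonoid.powers a)
    (powers_le_nonZeroDivisors_of_noZeroDivisors ha0) (SInt F S)

/-- A closed subset of the spectrum of a Dedekind domain that misses the generic point is finite. -/
theorem finite_of_isClosed {R : Type} [CommRing R] [IsDedekindDomain R]
    (Z : Set (PrimeSpectrum R)) (hZ : IsClosed Z) (hb : (⊥ : PrimeSpectrum R) ∉ Z) : Z.Finite := by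
  obtain ⟨I, rfl⟩ := (PrimeSpectrum.isClosed_iff_zeroLocus_ideal Z).1 hZ
  have hI : I ≠ ⊥ := by
    rintro rfl
    apply hb
    rw [PrimeSpectrum.mem_zeroLocus]
    exact fun x hx => by
      have : x = 0 := by simpa using hx
      rw [this]; exact zero_mem _
  have h1 := I.finite_minimalPrimes_of_isNoetherianRing R
  refine Set.Finite.of_finite_image (f := PrimeSpectrum.asIdeal) (h1.subset ?_)
    (fun x _ y _ h => PrimeSpectrum.ext h)
  rintro _ ⟨x, hx, rfl⟩
  rw [PrimeSpectrum.mem_zeroLocus] at hx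
  refine ⟨⟨x.2, hx⟩, ?_⟩
  rintro q ⟨hq, hIq⟩ hqx
  have hq0 : q ≠ ⊥ := fun h => hI (le_bot_iff.1 (h ▸ hIq))
  have hmax : q.IsMaximal := hq.isMaximal hq0
  exact (hmax.eq_of_le x.2.ne_top hqx).ge

theorem isClosed_singleton_of_ne {R : Type} [CommRing R] [IsDedekindDomain R]
    (x : PrimeSpectrum R) (hx : x ≠ ⊥) : IsClosed ({x} : Set (PrimeSpectrum R)) := by
  rw [PrimeSpectrum.isClosed_singleton_iff_isMaximal]
  exact x.2.isMaximal (fun h => hx (PrimeSpectrum.ext h))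

end Pool.Agent.Work.MP_e97a4d_nt.Vp
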