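import Mathlib

set_option autoImplicit false

noncomputable section

/-!
Gluing finitely many open subschemes `W i` of a scheme `V` along a common open subscheme `U`.
-/

namespace Pool.Agent.Work.MP_e97a4d_nt.GlueW

open AlgebraicGeometry CategoryTheory Limits

variable {V : Scheme.{0}} (U : V.Opens) {ι : Type} (W : ι → V.Opens) (hW : ∀ i, U ≤ W i)

/-- The diagram `U ⟶ W i`. -/
def diag : WidePushoutShape ι ⥤ Scheme.{0} :=
  WidePushoutShape.wideSpan (U.toScheme) (fun i => (W i).toScheme) (fun i => V.homOfLE (hW i))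

instance diag_open {i j : WidePushoutShape ι} (f : i ⟶ j) :
    IsOpenImmersion ((diag U W hW).map f) := by
  have f' : WidePushoutShape.Hom i j := f
  have hf : f = f' := Subsingleton.elim _ _
  rw [hf]
  cases f' with
  | id =>
    have h : (diag U W hW).map (𝟙 i) = 𝟙 _ := CategoryTheory.Functor.map_id _ _
    change IsOpenImmersion ((diag U W hW).map (𝟙 i))
    rw [h]; infer_instance
  | init j =>
    change IsOpenImmersion (V.homOfLE (hW j))
    infer_instance

/-- The glued scheme. -/
def G : Scheme.{0} := colimit (diag U W hW)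

/-- The chart `W i ⟶ G`. -/
def c (i : ι) : (W i).toScheme ⟶ G U W hW := colimit.ι (diag U W hW) (some i)

instance (i : ι) : IsOpenImmersion (c U W hW i) :=
  inferInstanceAs (IsOpenImmersion (colimit.ι (diag U W hW) (some i)))

/-- The chart on `U`. -/
def c₀ : U.toScheme ⟶ G U W hW := colimit.ι (diag U W hW) none

instance : IsOpenImmersion (c₀ U W hW) :=
  inferInstanceAs (IsOpenImmersion (colimit.ι (diag U W hW) none))

theorem homOfLE_c (i : ι) : V.homOfLE (hW i) ≫ c U W hW i = c₀ U W hW :=
  colimit.w (diag U W hW) (WidePushoutShape.Hom.init i)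

/-- The projection `G ⟶ V`. -/
def p : G U W hW ⟶ V :=
  colimit.desc (diag U W hW) (WidePushoutShape.mkCocone (F := diag U W hW) (X := V)
    (U.ι) (fun i => (W i).ι) (fun i => by
      change V.homOfLE (hW i) ≫ (W i).ι = U.ι
      simp))

@[simp]
theorem c_p (i : ι) : c U W hW i ≫ p U W hW = (W i).ι :=
  colimit.ι_desc _ _

@[simp]
theorem c₀_p : c₀ U W hW ≫ p U W hW = U.ι :=
  colimit.ι_desc _ _

theorem c_surj [Nonempty ι] (g : G U W hW) : ∃ (i : ι) (x : (W i).toScheme), c U W hW i x = g := by
  obtain ⟨j, x, hx⟩ := Scheme.IsLocallyDirected.ι_jointly_surjective (diag U W hW) g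
  cases j with
  | none =>
    obtain ⟨i⟩ := ‹Nonempty ι›
    let x' : U.toScheme := x
    refine ⟨i, V.homOfLE (hW i) x', ?_⟩
    have h1 : c₀ U W hW x' = g := hx
    rw [← h1, ← homOfLE_c U W hW i]
    rfl
  | some i => exact ⟨i, x, hx⟩

theorem c_eq {i j : ι} (hij : i ≠ j) {x : (W i).toScheme} {y : (W j).toScheme}
    (h : c U W hW i x = c U W hW j y) : (W i).ι x ∈ U := by
  obtain ⟨k, fi, fj, z, hz, hz'⟩ := (Scheme.IsLocallyDirected.ι_eq_ι_iff (diag U W hW)).1 h
  cases k with
  | none => 
    have : fi = WidePushoutShape.Hom.init i := Subsingleton.elim _ _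
    subst this
    let z' : U.toScheme := z
    have h1 : V.homOfLE (hW i) z' = x := hz
    rw [← h1, ← Scheme.Hom.comp_apply, Scheme.homOfLE_ι]
    exact z'.2
  | some k => 
    exfalso
    have fi' : WidePushoutShape.Hom (some k) (some i) := fi
    have fj' : WidePushoutShape.Hom (some k) (some j) := fj
    cases fi'
    cases fj'
    exact hij rfl

end Pool.Agent.Work.MP_e97a4d_nt.GlueW
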