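import Mathlib

set_option autoImplicit false
set_option linter.unusedSectionVars false

noncomputable section

namespace Pool.Agent.Work.MP_e97a4d_nt

open scoped BigOperators
open Finset

section Leibniz

variable {C R : Type*} [CommRing C] [CommRing R] [Algebra C R]

theorem pow_apply_mul (f g h : Module.End C R)
    (hfg : ∀ a b, h (a * b) = f a * b + a * g b) (n : ℕ) (a b : R) :
    (h ^ n) (a * b) =
      ∑ ij ∈ antidiagonal n, n.choose ij.1 • ((f ^ ij.1) a * (g ^ ij.2) b) := by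
  induction n with
  | zero => simp
  | succ n ih =>
    rw [sum_antidiagonal_choose_succ_nsmul (M := R) (fun i j => (f ^ i) a * (g ^ j) b) n,
      pow_succ', Module.End.mul_apply, ih, map_sum]
    simp only [map_nsmul, hfg, nsmul_add, sum_add_distrib]
    rw [add_comm]
    congr 1
    · refine Finset.sum_congr rfl fun ij _ => ?_
      rw [pow_succ', Module.End.mul_apply]
    · refine Finset.sum_congr rfl fun ij hij => ?_
      rw [pow_succ', Module.End.mul_apply,
        n.choose_symm_of_eq_add (mem_antidiagonal.1 hij).symm]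

end Leibniz

section Weights

variable {C R : Type*} [Field C] [CommRing R] [Algebra C R] (Δ : Derivation C R R)

/-- the generalised eigenspaces of a derivation -/
abbrev wt (μ : C) : Submodule C R := Module.End.maxGenEigenspace (Δ : R →ₗ[C] R) μ

theorem mem_wt_iff (μ : C) (r : R) :
    r ∈ wt Δ μ ↔ ∃ k : ℕ, (((Δ : R →ₗ[C] R) - μ • (1 : Module.End C R)) ^ k) r = 0 :=
  Module.End.mem_maxGenEigenspace _ _ _

theorem pow_eq_zero_of_le' {f : Module.End C R} {k m : ℕ} (h : k ≤ m) {r : R}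
    (hr : (f ^ k) r = 0) : (f ^ m) r = 0 := by
  obtain ⟨j, rfl⟩ := Nat.exists_eq_add_of_le h
  rw [add_comm, pow_add, Module.End.mul_apply, hr, map_zero]

theorem one_mem_wt : (1 : R) ∈ wt Δ 0 := by
  rw [mem_wt_iff]
  exact ⟨1, by simp⟩

theorem mul_mem_wt {μ ν : C} {a b : R} (ha : a ∈ wt Δ μ) (hb : b ∈ wt Δ ν) :
    a * b ∈ wt Δ (μ + ν) := by
  rw [mem_wt_iff] at ha hb ⊢
  obtain ⟨k, hk⟩ := ha
  obtain ⟨m, hm⟩ := hb
  refine ⟨k + m, ?_⟩
  rw [pow_apply_mul ((Δ : R →ₗ[C] R) - μ • (1 : Module.End C R))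
    ((Δ : R →ₗ[C] R) - ν • (1 : Module.End C R))]
  · refine Finset.sum_eq_zero fun ij hij => ?_
    rw [HasAntidiagonal.mem_antidiagonal] at hij
    by_cases h : k ≤ ij.1
    · rw [pow_eq_zero_of_le' h hk]; simp
    · have : m ≤ ij.2 := by omega
      rw [pow_eq_zero_of_le' this hm]; simp
  · intro x y
    simp only [LinearMap.sub_apply, LinearMap.add_apply, LinearMap.smul_apply,
      Module.End.one_apply, Derivation.coeFn_coe, Derivation.leibniz, smul_eq_mul, add_smul,
      sub_mul, mul_sub, Algebra.smul_mul_assoc, Algebra.mul_smul_comm]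
    ring

instance wt_graded : SetLike.GradedMonoid (wt Δ) where
  one_mem := one_mem_wt Δ
  mul_mem _ _ _ _ ha hb := mul_mem_wt Δ ha hb

/-- local finiteness -/
def LocFin : Prop :=
  ∀ r : R, ∃ W : Submodule C R, FiniteDimensional C W ∧ r ∈ W ∧ ∀ w ∈ W, Δ w ∈ W

variable {Δ}

theorem iSup_wt_eq_top [IsAlgClosed C] (h : LocFin Δ) : ⨆ μ, wt Δ μ = ⊤ := by
  rw [eq_top_iff]
  intro r _
  obtain ⟨W, hfin, hr, hW⟩ := h r
  have key := Module.End.iSup_maxGenEigenspace_eq_top ((Δ : R →ₗ[C] R).restrict hW)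
  have hr' : (⟨r, hr⟩ : W) ∈ ⨆ μ, Module.End.maxGenEigenspace ((Δ : R →ₗ[C] R).restrict hW) μ := by
    rw [key]; trivial
  have hle : (⨆ μ, Module.End.maxGenEigenspace ((Δ : R →ₗ[C] R).restrict hW) μ).map W.subtype ≤
      ⨆ μ, wt Δ μ := by
    rw [Submodule.map_iSup]
    refine iSup_mono fun μ => ?_
    rintro _ ⟨⟨w, hw⟩, hw', rfl⟩
    simp only [SetLike.mem_coe] at hw'
    rw [Module.End.mem_maxGenEigenspace] at hw'
    obtain ⟨k, hk⟩ := hw'
    rw [mem_wt_iff]
    refine ⟨k, ?_⟩
    have : ∀ (n : ℕ) (w : W), (((((Δ : R →ₗ[C] R).restrict hW - μ • (1 : Module.End C W)) ^ n) w : W) : R) =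
        (((Δ : R →ₗ[C] R) - μ • (1 : Module.End C R)) ^ n) (w : R) := by
      intro n
      induction n with
      | zero => intro w; simp
      | succ n ih =>
        intro w
        rw [pow_succ, Module.End.mul_apply, ih, pow_succ, Module.End.mul_apply]
        congr 1
    have h2 := this k ⟨w, hw⟩
    rw [hk] at h2
    exact h2.symm
  exact hle ⟨⟨r, hr⟩, hr', rfl⟩

theorem wt_isInternal [IsAlgClosed C] [DecidableEq C] (h : LocFin Δ) :
    DirectSum.IsInternal (wt Δ) := by
  have : Module.IsTorsionFree C R := inferInstance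
  exact (DirectSum.isInternal_submodule_iff_iSupIndep_and_iSup_eq_top _).2
    ⟨Module.End.independent_maxGenEigenspace _, iSup_wt_eq_top h⟩

end Weights


section LiftRange

theorem exists_lift_of_range {A X Y : Type*} [CommRing A] [CommRing X] [CommRing Y]
    (ι : X →+* Y) (hι : Function.Injective ι) (θ : A →+* Y) (h : ∀ a, θ a ∈ ι.range) :
    ∃ ψ : A →+* X, ι.comp ψ = θ := by
  refine ⟨((RingEquiv.ofBijective ι.rangeRestrict
    ⟨fun a b hab => hι (congrArg Subtype.val hab), ι.rangeRestrict_surjective⟩).symm.toRingHom).comp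
      (θ.codRestrict ι.range h), ?_⟩
  ext a
  have := (RingEquiv.ofBijective ι.rangeRestrict
    ⟨fun a b hab => hι (congrArg Subtype.val hab), ι.rangeRestrict_surjective⟩).apply_symm_apply
      ((θ.codRestrict ι.range h) a)
  exact congrArg Subtype.val this

end LiftRange

section WeightHom

variable {C R : Type*} [Field C] [CommRing R] [Algebra C R] {Δ : Derivation C R R}
  [IsAlgClosed C] {L : Type*} [CommRing L] {M : Type*} [AddCommMonoid M]

open Classical in
/-- the grading by weights -/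
@[reducible] def wtRing (h : LocFin Δ) : GradedRing (wt Δ) :=
  { wt_graded Δ, (wt_isInternal h).chooseDecomposition with }

open Classical in
/-- the homomorphism `r ↦ ∑ j(r_μ) t^{χ(μ)}` -/
def weightHom (h : LocFin Δ) (j : R →+* L) (χ : C →+ M) : R →+* AddMonoidAlgebra L M :=
  letI := wtRing h
  (DirectSum.toSemiring
    (fun μ => ((AddMonoidAlgebra.singleAddHom (χ μ)).comp j.toAddMonoidHom).comp
      (wt Δ μ).subtype.toAddMonoidHom)
    (by simp [GradedMonoid.GOne.one, AddMonoidAlgebra.one_def])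
    (fun {μ ν} a b => by
      simp [GradedMonoid.GMul.mul, AddMonoidAlgebra.single_mul_single])).comp
    (DirectSum.decomposeRingEquiv (wt Δ)).toRingHom

open Classical in
theorem weightHom_of_mem (h : LocFin Δ) (j : R →+* L) (χ : C →+ M) {μ : C} {r : R}
    (hr : r ∈ wt Δ μ) : weightHom h j χ r = AddMonoidAlgebra.single (χ μ) (j r) := by
  unfold weightHom
  let := wtRing h
  simp only [RingHom.comp_apply]
  have : (DirectSum.decomposeRingEquiv (wt Δ)).toRingHom r =
      DirectSum.of (fun i => (wt Δ i)) μ ⟨r, hr⟩ := by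
    exact DirectSum.decompose_of_mem (wt Δ) hr
  rw [this, DirectSum.toSemiring_of]
  rfl

open Classical in
/-- every element is a finite sum of weight vectors -/
theorem exists_weight_decomp (h : LocFin Δ) (r : R) :
    ∃ (s : Finset C) (c : C → R), (∀ μ, c μ ∈ wt Δ μ) ∧ (∀ μ ∈ s, c μ ≠ 0) ∧
      r = ∑ μ ∈ s, c μ := by
  let := wtRing h
  refine ⟨DFinsupp.support (DirectSum.decompose (wt Δ) r), fun μ => DirectSum.decompose (wt Δ) r μ,
    fun μ => (DirectSum.decompose (wt Δ) r μ).2, fun μ hμ => ?_, ?_⟩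
  · rw [DFinsupp.mem_support_iff] at hμ
    intro h0
    exact hμ (Subtype.ext h0)
  · exact (DirectSum.sum_support_decompose (wt Δ) r).symm

end WeightHom

section CaseA

variable {C R : Type*} [Field C] [CharZero C] [CommRing R] [Algebra C R] {Δ : Derivation C R R}
  [IsAlgClosed C] {L : Type*} [CommRing L]

theorem algebraMap_mem_wt_zero (c : C) : algebraMap C R c ∈ wt Δ 0 := by
  rw [mem_wt_iff]
  exact ⟨1, by simp⟩

/-- weight zero elements form a subring -/
def wtZeroSubring (Δ : Derivation C R R) : Subring R where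
  carrier := wt Δ 0
  mul_mem' {a b} ha hb := by
    have := mul_mem_wt Δ ha hb
    simpa using this
  one_mem' := one_mem_wt Δ
  add_mem' {a b} ha hb := (wt Δ 0).add_mem ha hb
  zero_mem' := (wt Δ 0).zero_mem
  neg_mem' {a} ha := (wt Δ 0).neg_mem ha

theorem caseA (h : LocFin Δ) (j : R →+* L) (hj : Function.Injective j)
    {B A : Type*} [CommRing B] [CommRing A] [Algebra B A] [hfg : Algebra.FiniteType B A]
    (φ : A →+* R) (hB : ∀ b : B, φ (algebraMap B A b) ∈ Set.range (algebraMap C R))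
    (hA : ∃ a₀, φ a₀ ∉ wt Δ 0) :
    ∃ ψ : A →+* LaurentPolynomial L,
      (∀ b : B, ψ (algebraMap B A b) = LaurentPolynomial.C (j (φ (algebraMap B A b)))) ∧
      (∃ a, ∀ l, ψ a ≠ LaurentPolynomial.C l) ∧ (∀ q, j (φ q) ≠ 0 → ψ q ≠ 0) := by
  classical
  obtain ⟨G, hG⟩ := hfg.out
  -- a generator of nonzero weight
  obtain ⟨g₀, hg₀G, hg₀⟩ : ∃ g ∈ G, φ g ∉ wt Δ 0 := by
    by_contra hcon
    push Not at hcon
    obtain ⟨a₀, ha₀⟩ := hA
    apply ha₀
    have : a₀ ∈ Algebra.adjoin B (G : Set A) := by rw [hG]; trivial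
    show φ a₀ ∈ wtZeroSubring Δ
    clear ha₀
    induction this using Algebra.adjoin_induction with
    | mem x hx => exact hcon x hx
    | algebraMap b =>
      obtain ⟨c, hc⟩ := hB b
      rw [← hc]
      exact algebraMap_mem_wt_zero c
    | add x y _ _ hx hy => rw [map_add]; exact Subring.add_mem _ hx hy
    | mul x y _ _ hx hy => rw [map_mul]; exact Subring.mul_mem _ hx hy
  -- weight decompositions
  choose s c hc hc0 hsum using fun r : R => exists_weight_decomp h r
  let Λ : Finset C := insert 0 (G.biUnion fun g => s (φ g))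
  -- a functional which is injective on Λ
  let ι := {p : Λ × Λ // p.1 ≠ p.2}
  obtain ⟨χ₀, hχ₀⟩ := Module.exists_dual_forall_apply_ne_zero (K := ℚ)
    (fun p : ι => ((p.1.1 : C) - (p.1.2 : C))) (by
      rintro ⟨⟨a, b⟩, hab⟩
      simp only [ne_eq, sub_eq_zero]
      intro h
      exact hab (Subtype.ext h))
  have hinj₀ : ∀ a ∈ Λ, ∀ b ∈ Λ, χ₀ a = χ₀ b → a = b := by
    intro a ha b hb hab
    by_contra hne
    have := hχ₀ ⟨(⟨a, ha⟩, ⟨b, hb⟩), fun h => hne (congrArg Subtype.val h)⟩
    simp only [map_sub, ne_eq, sub_eq_zero] at this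
    exact this hab
  -- clear denominators
  let N : ℕ := ∏ a ∈ Λ, (χ₀ a).den
  have hN : N ≠ 0 := Finset.prod_ne_zero_iff.2 fun a _ => (χ₀ a).den_ne_zero
  have hint : ∀ a ∈ Λ, ∃ z : ℤ, (z : ℚ) = N * χ₀ a := by
    intro a ha
    obtain ⟨m, hm⟩ : (χ₀ a).den ∣ N := Finset.dvd_prod_of_mem _ ha
    refine ⟨m * (χ₀ a).num, ?_⟩
    rw [hm]
    push_cast
    have := Rat.mul_den_eq_num (χ₀ a)
    rw [← this]; ring
  let χ : C →+ ℚ := (N • χ₀.toAddMonoidHom)
  have hχ : ∀ a, χ a = N * χ₀ a := by intro a; simp [χ]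
  have hinj : ∀ a ∈ Λ, ∀ b ∈ Λ, χ a = χ b → a = b := by
    intro a ha b hb hab
    rw [hχ, hχ] at hab
    exact hinj₀ a ha b hb (mul_left_cancel₀ (by exact_mod_cast hN) hab)
  let T : R →+* AddMonoidAlgebra L ℚ := weightHom h j χ
  let ιZ : AddMonoidAlgebra L ℤ →+* AddMonoidAlgebra L ℚ :=
    AddMonoidAlgebra.mapDomainRingHom L (Int.castAddHom ℚ)
  have hιZ : Function.Injective ιZ :=
    AddMonoidAlgebra.mapDomain_injective (fun a b hab => by simpa using hab)
  have hTg : ∀ r, T r = ∑ μ ∈ s r, AddMonoidAlgebra.single (χ μ) (j (c r μ)) := by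
    intro r
    conv_lhs => rw [hsum r]
    rw [map_sum]
    exact Finset.sum_congr rfl fun μ _ => weightHom_of_mem h j χ (hc r μ)
  have hrange : ∀ a : A, (T.comp φ) a ∈ ιZ.range := by
    intro a
    have : a ∈ Algebra.adjoin B (G : Set A) := by rw [hG]; trivial
    induction this using Algebra.adjoin_induction with
    | mem g hg =>
      rw [RingHom.comp_apply, hTg]
      refine Subring.sum_mem _ fun μ hμ => ?_
      obtain ⟨z, hz⟩ := hint μ (Finset.mem_insert_of_mem (Finset.mem_biUnion.2 ⟨g, hg, hμ⟩))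
      refine ⟨AddMonoidAlgebra.single z (j (c (φ g) μ)), ?_⟩
      show AddMonoidAlgebra.mapDomain _ _ = _
      rw [AddMonoidAlgebra.mapDomain_single, hχ, ← hz]
      rfl
    | algebraMap b =>
      obtain ⟨k, hk⟩ := hB b
      rw [RingHom.comp_apply, ← hk]
      rw [weightHom_of_mem h j χ (algebraMap_mem_wt_zero k)]
      refine ⟨AddMonoidAlgebra.single 0 (j (algebraMap C R k)), ?_⟩
      show AddMonoidAlgebra.mapDomain _ _ = _
      rw [AddMonoidAlgebra.mapDomain_single]
      simp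
    | add x y _ _ hx hy => rw [map_add]; exact Subring.add_mem _ hx hy
    | mul x y _ _ hx hy => rw [map_mul]; exact Subring.mul_mem _ hx hy
  obtain ⟨ψ, hψ⟩ := exists_lift_of_range ιZ hιZ (T.comp φ) hrange
  have hψ' : ∀ a, ιZ (ψ a) = T (φ a) := fun a => RingHom.congr_fun hψ a
  refine ⟨ψ, ?_, ?_, ?_⟩
  · intro b
    apply hιZ
    rw [hψ']
    obtain ⟨k, hk⟩ := hB b
    rw [← hk, weightHom_of_mem h j χ (algebraMap_mem_wt_zero k)]
    show _ = AddMonoidAlgebra.mapDomain _ (AddMonoidAlgebra.single 0 _)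
    rw [AddMonoidAlgebra.mapDomain_single]
    simp
  · refine ⟨g₀, fun l hl => ?_⟩
    -- some weight μ ≠ 0 occurs
    obtain ⟨μ, hμ, hμ0⟩ : ∃ μ ∈ s (φ g₀), μ ≠ 0 := by
      by_contra hcon
      push Not at hcon
      apply hg₀
      rw [hsum (φ g₀)]
      refine Submodule.sum_mem _ fun μ hμ => ?_
      have h0 := hcon μ hμ
      have := hc (φ g₀) μ
      rw [h0] at this
      rw [h0]
      exact this
    have hμΛ : μ ∈ Λ := Finset.mem_insert_of_mem (Finset.mem_biUnion.2 ⟨g₀, hg₀G, hμ⟩)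
    have h1 : (ιZ (ψ g₀)).coeff (χ μ) = j (c (φ g₀) μ) := by
      rw [hψ', hTg]
      rw [AddMonoidAlgebra.coeff_sum, Finset.sum_apply']
      rw [Finset.sum_eq_single μ]
      · simp
      · intro ν hν hne
        rw [AddMonoidAlgebra.coeff_single, Finsupp.single_apply, if_neg]
        intro h
        exact hne (hinj ν (Finset.mem_insert_of_mem (Finset.mem_biUnion.2 ⟨g₀, hg₀G, hν⟩)) μ hμΛ h)
      · intro h; exact absurd hμ h
    have h2 : (ιZ (ψ g₀)).coeff (χ μ) = 0 := by
      rw [hl]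
      show (AddMonoidAlgebra.mapDomain _ (AddMonoidAlgebra.single 0 l)).coeff _ = 0
      rw [AddMonoidAlgebra.mapDomain_single, AddMonoidAlgebra.coeff_single, Finsupp.single_apply,
        if_neg]
      intro h
      apply hμ0
      apply hinj μ hμΛ 0 (Finset.mem_insert_self _ _)
      rw [← h]; simp
    rw [h1] at h2
    exact hc0 (φ g₀) μ hμ (hj (by rw [h2, map_zero]))
  · intro q hq h0
    apply hq
    have h1 : T (φ q) = 0 := by rw [← hψ', h0, map_zero]
    -- augmentation
    have h2 : ∀ r, (AddMonoidAlgebra.lift L L ℚ (1 : Multiplicative ℚ →* L)) (T r) = j r := by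
      intro r
      rw [hTg, map_sum]
      conv_rhs => rw [hsum r, map_sum]
      refine Finset.sum_congr rfl fun μ _ => ?_
      simp [AddMonoidAlgebra.lift_single]
    rw [← h2, h1, map_zero]

end CaseA

section CaseB

variable {C R : Type*} [Field C] [CharZero C] [CommRing R] [Algebra C R] (Δ : Derivation C R R)
  {L : Type*} [CommRing L]

/-- the exponential `r ↦ ∑ Δ^k(r) s^k / k!` -/
def expSeries (j : R →+* L) : R →+* PowerSeries L where
  toFun r := PowerSeries.mk fun k => j ((((Nat.factorial k : ℕ) : C)⁻¹) • (((Δ : R →ₗ[C] R) ^ k) r))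
  map_one' := by
    ext k
    rw [PowerSeries.coeff_mk, PowerSeries.coeff_one]
    rcases Nat.eq_zero_or_pos k with hk | hk
    · subst hk; simp
    · obtain ⟨m, rfl⟩ := Nat.exists_eq_succ_of_ne_zero hk.ne'
      rw [if_neg (by omega), Nat.succ_eq_add_one, pow_succ, Module.End.mul_apply,
        Derivation.coeFn_coe, Derivation.map_one_eq_zero, map_zero, smul_zero, map_zero]
  map_zero' := by ext k; simp
  map_add' a b := by ext k; simp
  map_mul' a b := by
    ext n
    rw [PowerSeries.coeff_mk, PowerSeries.coeff_mul,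
      pow_apply_mul (Δ : R →ₗ[C] R) (Δ : R →ₗ[C] R) (Δ : R →ₗ[C] R) (fun x y => by
        simp only [Derivation.coeFn_coe, Derivation.leibniz, smul_eq_mul]; ring), Finset.smul_sum,
      map_sum]
    refine Finset.sum_congr rfl fun ij hij => ?_
    rw [HasAntidiagonal.mem_antidiagonal] at hij
    rw [PowerSeries.coeff_mk, PowerSeries.coeff_mk, ← map_mul]
    congr 1
    rw [smul_mul_smul_comm, ← Nat.cast_smul_eq_nsmul C, smul_smul]
    congr 1
    have h := Nat.add_choose_mul_factorial_mul_factorial ij.2 ij.1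
    rw [add_comm ij.2 ij.1, hij] at h
    have h1 : ((Nat.factorial ij.1 : ℕ) : C) ≠ 0 := by exact_mod_cast Nat.factorial_ne_zero _
    have h2 : ((Nat.factorial ij.2 : ℕ) : C) ≠ 0 := by exact_mod_cast Nat.factorial_ne_zero _
    have h3 : ((Nat.factorial n : ℕ) : C) ≠ 0 := by exact_mod_cast Nat.factorial_ne_zero _
    have h4 : ((n.choose ij.1 : ℕ) : C) * (Nat.factorial ij.2 : ℕ) * (Nat.factorial ij.1 : ℕ) =
      (Nat.factorial n : ℕ) := by exact_mod_cast h
    field_simp
    rw [← h4]; ring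

theorem coeff_expSeries (j : R →+* L) (r : R) (k : ℕ) :
    PowerSeries.coeff k (expSeries Δ j r) =
      j ((((Nat.factorial k : ℕ) : C)⁻¹) • (((Δ : R →ₗ[C] R) ^ k) r)) := by
  change PowerSeries.coeff k (PowerSeries.mk
    fun k => j ((((Nat.factorial k : ℕ) : C)⁻¹) • (((Δ : R →ₗ[C] R) ^ k) r))) = _
  rw [PowerSeries.coeff_mk]

theorem caseB (j : R →+* L) (hj : Function.Injective j)
    {B A : Type*} [CommRing B] [CommRing A] [Algebra B A]
    (φ : A →+* R) (hB : ∀ b : B, φ (algebraMap B A b) ∈ Set.range (algebraMap C R))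
    (hA : ∀ a, φ a ∈ wt Δ 0) (hA' : ∃ a₀, Δ (φ a₀) ≠ 0) :
    ∃ ψ : A →+* LaurentPolynomial L,
      (∀ b : B, ψ (algebraMap B A b) = LaurentPolynomial.C (j (φ (algebraMap B A b)))) ∧
      (∃ a, ∀ l, ψ a ≠ LaurentPolynomial.C l) ∧ (∀ q, j (φ q) ≠ 0 → ψ q ≠ 0) := by
  have hrange : ∀ a, ((expSeries Δ j).comp φ) a ∈ (Polynomial.coeToPowerSeries.ringHom (R := L)).range := by
    intro a
    obtain ⟨k, hk⟩ := (mem_wt_iff Δ 0 (φ a)).1 (hA a)
    rw [zero_smul, sub_zero] at hk
    refine ⟨PowerSeries.trunc k (expSeries Δ j (φ a)), ?_⟩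
    ext m
    rw [Polynomial.coeToPowerSeries.ringHom_apply, Polynomial.coeff_coe, PowerSeries.coeff_trunc]
    split_ifs with hm
    · rfl
    · rw [RingHom.comp_apply, coeff_expSeries, pow_eq_zero_of_le' (not_lt.1 hm) hk]
      simp
  obtain ⟨ψ₀, hψ₀⟩ := exists_lift_of_range (Polynomial.coeToPowerSeries.ringHom (R := L))
    (Polynomial.coe_injective L) _ hrange
  have hψ : ∀ a k, (ψ₀ a).coeff k = j ((((Nat.factorial k : ℕ) : C)⁻¹) • (((Δ : R →ₗ[C] R) ^ k) (φ a))) := by
    intro a k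
    have := RingHom.congr_fun hψ₀ a
    rw [RingHom.comp_apply, RingHom.comp_apply, Polynomial.coeToPowerSeries.ringHom_apply] at this
    rw [← Polynomial.coeff_coe, this, coeff_expSeries]
  refine ⟨(Polynomial.toLaurent (R := L)).comp ψ₀, ?_, ?_, ?_⟩
  · intro b
    rw [RingHom.comp_apply, ← Polynomial.toLaurent_C]
    congr 1
    ext k
    rw [hψ, Polynomial.coeff_C]
    rcases Nat.eq_zero_or_pos k with hk | hk
    · subst hk; simp
    · obtain ⟨m, rfl⟩ := Nat.exists_eq_succ_of_ne_zero hk.ne'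
      obtain ⟨c, hc⟩ := hB b
      rw [if_neg (by omega), Nat.succ_eq_add_one, pow_succ, Module.End.mul_apply,
        Derivation.coeFn_coe, ← hc, Derivation.map_algebraMap, map_zero, smul_zero, map_zero]
  · obtain ⟨a₀, ha₀⟩ := hA'
    refine ⟨a₀, fun l hl => ha₀ (hj ?_)⟩
    rw [RingHom.comp_apply, ← Polynomial.toLaurent_C] at hl
    have h1 := Polynomial.toLaurent_injective hl
    have h2 := hψ a₀ 1
    rw [h1, Polynomial.coeff_C] at h2
    simp at h2
    rw [map_zero, h2]
  · intro q hq h0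
    apply hq
    rw [RingHom.comp_apply] at h0
    have h1 : ψ₀ q = 0 := Polynomial.toLaurent_injective (by rw [h0, map_zero])
    have h2 := hψ q 0
    rw [h1] at h2
    simp at h2
    exact h2.symm

end CaseB

section Combined

variable {C R : Type*} [Field C] [CharZero C] [CommRing R] [Algebra C R] {Δ : Derivation C R R}
  [IsAlgClosed C] {L : Type*} [CommRing L]

/-- A locally finite derivation that does not kill the image of `A` produces a non-constant
one-parameter family. -/
theorem exists_laurent_of_locFin (h : LocFin Δ) (j : R →+* L) (hj : Function.Injective j)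
    {B A : Type*} [CommRing B] [CommRing A] [Algebra B A] [hfg : Algebra.FiniteType B A]
    (φ : A →+* R) (hB : ∀ b : B, φ (algebraMap B A b) ∈ Set.range (algebraMap C R))
    (hA' : ∃ a₀, Δ (φ a₀) ≠ 0) :
    ∃ ψ : A →+* LaurentPolynomial L,
      (∀ b : B, ψ (algebraMap B A b) = LaurentPolynomial.C (j (φ (algebraMap B A b)))) ∧
      (∃ a, ∀ l, ψ a ≠ LaurentPolynomial.C l) ∧ (∀ q, j (φ q) ≠ 0 → ψ q ≠ 0) := by
  by_cases hA : ∀ a, φ a ∈ wt Δ 0
  · exact caseB Δ j hj φ hB hA hA'
  · push Not at hA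
    exact caseA h j hj φ hB hA

end Combined

end Pool.Agent.Work.MP_e97a4d_nt
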