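import Mathlib
import Pool.Agent.Work.MP_e97a4d_nt.Defs
import Pool.Agent.Work.MP_e97a4d_nt.Weights

set_option autoImplicit false
set_option linter.unusedSectionVars false

noncomputable section

namespace Pool.Agent.Work.MP_e97a4d_nt

open IsDedekindDomain NumberField

/-- `2` as a unit of a field of characteristic zero -/
abbrev twoU (F : Type*) [Field F] [CharZero F] : Fˣ := Units.mk0 (2 : F) two_ne_zero

theorem laurent_finite_roots {F : Type*} [Field F] [CharZero F] (f : LaurentPolynomial F)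
    (hf : f ≠ 0) :
    {m : ℕ | LaurentPolynomial.eval₂ (RingHom.id F) (twoU F ^ m) f = 0}.Finite := by
  obtain ⟨n, f', hf'⟩ := LaurentPolynomial.exists_T_pow f
  have hf'0 : f' ≠ 0 := by
    rintro rfl
    rw [map_zero] at hf'
    have : f * LaurentPolynomial.T (n : ℤ) * LaurentPolynomial.T (-(n : ℤ)) = 0 := by
      rw [← hf', zero_mul]
    rw [LaurentPolynomial.mul_T_assoc] at this
    simp at this
    exact hf this
  have hfin : (f'.rootSet F).Finite := Polynomial.rootSet_finite f' F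
  refine Set.Finite.subset (hfin.preimage (f := fun m : ℕ => ((2 : F) ^ m)) ?_) ?_
  · intro a _ b _ hab
    have h1 : (((2 : ℕ) ^ a : ℕ) : F) = (((2 : ℕ) ^ b : ℕ) : F) := by
      push_cast; exact hab
    exact Nat.pow_right_injective le_rfl (Nat.cast_injective h1)
  · intro m hm
    simp only [Set.mem_ofPred_eq] at hm
    simp only [Set.mem_preimage]
    rw [Polynomial.mem_rootSet]
    refine ⟨hf'0, ?_⟩
    have h1 : LaurentPolynomial.eval₂ (RingHom.id F) (twoU F ^ m) (Polynomial.toLaurent f') = 0 := by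
      rw [hf', map_mul, hm, zero_mul]
    rw [LaurentPolynomial.eval₂_toLaurent] at h1
    rw [Polynomial.aeval_def]
    simpa using h1

/-- coefficientwise map injective -/
theorem mapRingHom_injective' {R S : Type*} [CommRing R] [CommRing S] (f : R →+* S)
    (hf : Function.Injective f) :
    Function.Injective (AddMonoidAlgebra.mapRingHom ℤ f) := by
  intro a b hab
  ext n
  apply hf
  rw [← AddMonoidAlgebra.coeff_mapRingHom, ← AddMonoidAlgebra.coeff_mapRingHom, hab]

theorem mem_range_map_of_coeff {R S : Type*} [CommRing R] [CommRing S] (f : R →+* S)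
    (p : LaurentPolynomial S) (h : ∀ n, p.coeff n ∈ f.range) :
    p ∈ (AddMonoidAlgebra.mapRingHom ℤ f).range := by
  classical
  have : p = ∑ n ∈ p.coeff.support, AddMonoidAlgebra.single n (p.coeff n) := by
    ext m
    rw [AddMonoidAlgebra.coeff_sum, Finset.sum_apply']
    by_cases hm : m ∈ p.coeff.support
    · rw [Finset.sum_eq_single m]
      · rw [AddMonoidAlgebra.coeff_single, Finsupp.single_eq_same]
      · intro b _ hb
        rw [AddMonoidAlgebra.coeff_single, Finsupp.single_apply, if_neg hb]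
      · intro h'; exact absurd hm h'
    · rw [Finset.sum_eq_zero]
      · simpa using hm
      · intro b hb
        rw [AddMonoidAlgebra.coeff_single, Finsupp.single_apply, if_neg]
        rintro rfl; exact hm hb
  rw [this]
  refine Subring.sum_mem _ fun n _ => ?_
  obtain ⟨r, hr⟩ := h n
  refine ⟨AddMonoidAlgebra.single n r, ?_⟩
  ext m
  rw [AddMonoidAlgebra.coeff_mapRingHom]
  simp only [AddMonoidAlgebra.coeff_single, Finsupp.single_apply]
  split_ifs
  · exact hr
  · simp


variable (F₀ : Type) [Field F₀] [NumberField F₀]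

theorem algebraMap_mem_SInt (F : Type) [Field F] [NumberField F]
    (S : Finset (HeightOneSpectrum (𝓞 F))) (x : 𝓞 F) :
    (x : F) ∈ (S : Set (HeightOneSpectrum (𝓞 F))).integer F :=
  Subalgebra.algebraMap_mem _ x

theorem exists_finset_SInt (F : Type) [Field F] [NumberField F] (T : Finset F) :
    ∃ S : Finset (HeightOneSpectrum (𝓞 F)), ∀ x ∈ T,
      x ∈ (S : Set (HeightOneSpectrum (𝓞 F))).integer F := by
  classical
  refine ⟨T.biUnion fun x => (HeightOneSpectrum.Support.finite (𝓞 F) x).toFinset, ?_⟩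
  intro x hx v hv
  by_contra hlt
  apply hv
  simp only [Finset.coe_biUnion, Set.mem_iUnion]
  refine ⟨x, hx, ?_⟩
  simp only [Set.Finite.coe_toFinset]
  exact not_le.1 hlt

/-- Reduction to a number field. -/
theorem exists_numberField_laurent {L : Type} [Field L] [Algebra F₀ L] {A : Type} [CommRing A]
    [Algebra (𝓞 F₀) A] [hfg : Algebra.FiniteType (𝓞 F₀) A] (ψ : A →+* LaurentPolynomial L)
    (hψ : ∀ b : 𝓞 F₀, ψ (algebraMap _ _ b) = LaurentPolynomial.C (algebraMap F₀ L b))
    (a₀ : A) (hnc : ∀ l, ψ a₀ ≠ LaurentPolynomial.C l) (q : A) (hq : ψ q ≠ 0) :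
    ∃ (F : Type) (_ : Field F) (_ : NumberField F) (_ : Algebra F₀ F)
      (ψ' : A →+* LaurentPolynomial F),
      (∀ b : 𝓞 F₀, ψ' (algebraMap _ _ b) = LaurentPolynomial.C (algebraMap F₀ F b)) ∧
      (∀ l, ψ' a₀ ≠ LaurentPolynomial.C l) ∧ ψ' q ≠ 0 := by
  classical
  obtain ⟨G, hG⟩ := hfg.out
  let T : Finset L := G.biUnion fun g => (ψ g).coeff.support.image fun n => (ψ g).coeff n
  let B₀ : Subalgebra F₀ L := Algebra.adjoin F₀ (T : Set L)
  have hB₀ : Algebra.FiniteType F₀ B₀ := (Subalgebra.fg_iff_finiteType _).1 ⟨T, rfl⟩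
  let ι : LaurentPolynomial B₀ →+* LaurentPolynomial L :=
    AddMonoidAlgebra.mapRingHom ℤ (B₀.val : B₀ →+* L)
  have hι : Function.Injective ι := mapRingHom_injective' _ (fun a b h => Subtype.ext h)
  have hrange : ∀ a, ψ a ∈ ι.range := by
    intro a
    have : a ∈ Algebra.adjoin (𝓞 F₀) (G : Set A) := by rw [hG]; trivial
    induction this using Algebra.adjoin_induction with
    | mem g hg =>
      refine mem_range_map_of_coeff _ _ fun n => ?_
      by_cases hn : n ∈ (ψ g).coeff.support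
      · refine ⟨⟨(ψ g).coeff n, Algebra.subset_adjoin ?_⟩, rfl⟩
        exact Finset.mem_coe.2 (Finset.mem_biUnion.2 ⟨g, hg, Finset.mem_image.2 ⟨n, hn, rfl⟩⟩)
      · refine ⟨0, ?_⟩
        rw [map_zero]
        simpa using (Finsupp.notMem_support_iff.1 hn).symm
    | algebraMap b =>
      rw [hψ]
      refine ⟨LaurentPolynomial.C (algebraMap F₀ B₀ b), ?_⟩
      ext n
      rw [AddMonoidAlgebra.coeff_mapRingHom]
      simp only [LaurentPolynomial.C_apply]
      split_ifs
      · rfl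
      · simp
    | add x y _ _ hx hy => rw [map_add]; exact Subring.add_mem _ hx hy
    | mul x y _ _ hx hy => rw [map_mul]; exact Subring.mul_mem _ hx hy
  obtain ⟨ψ₁, hψ₁⟩ := exists_lift_of_range ι hι ψ hrange
  have hψ₁' : ∀ a n, (((ψ₁ a).coeff n : B₀) : L) = (ψ a).coeff n := by
    intro a n
    have := RingHom.congr_fun hψ₁ a
    rw [RingHom.comp_apply] at this
    rw [← this]
    exact (AddMonoidAlgebra.coeff_mapRingHom (M := ℤ) (B₀.val : B₀ →+* L) (ψ₁ a) n).symm
  -- nonzero coefficients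
  obtain ⟨k, hk0, hk⟩ : ∃ k : ℤ, k ≠ 0 ∧ (ψ₁ a₀).coeff k ≠ 0 := by
    by_contra hcon
    push Not at hcon
    apply hnc ((ψ a₀).coeff 0)
    ext n
    rw [LaurentPolynomial.C_apply]
    split_ifs with hn
    · rw [hn]
    · rw [← hψ₁', hcon n hn]; rfl
  obtain ⟨m, hm⟩ : ∃ m : ℤ, (ψ₁ q).coeff m ≠ 0 := by
    by_contra hcon
    push Not at hcon
    apply hq
    ext n
    rw [← hψ₁', hcon n]; rfl
  have hb : (ψ₁ a₀).coeff k * (ψ₁ q).coeff m ≠ 0 := mul_ne_zero hk hm
  -- maximal ideal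
  have hjac : IsJacobsonRing B₀ := isJacobsonRing_of_finiteType (A := F₀)
  obtain ⟨𝔪, h𝔪, hb𝔪⟩ : ∃ 𝔪 : Ideal B₀, 𝔪.IsMaximal ∧
      (ψ₁ a₀).coeff k * (ψ₁ q).coeff m ∉ 𝔪 := by
    by_contra hcon
    push Not at hcon
    apply hb
    have h1 : (ψ₁ a₀).coeff k * (ψ₁ q).coeff m ∈ (⊥ : Ideal B₀).jacobson := by
      rw [Ideal.jacobson, Ideal.mem_sInf]
      intro J hJ
      exact hcon J hJ.2
    rw [← Ideal.radical_eq_jacobson] at h1
    obtain ⟨n, hn⟩ := h1
    have hn0 : n ≠ 0 := by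
      rintro rfl
      rw [pow_zero] at hn
      exact one_ne_zero ((Ideal.mem_bot).1 hn)
    exact (pow_eq_zero_iff hn0).1 ((Ideal.mem_bot).1 hn)
  let instF : Field (B₀ ⧸ 𝔪) := Ideal.Quotient.field 𝔪
  have hfin : Module.Finite F₀ (B₀ ⧸ 𝔪) :=
    finite_of_finite_type_of_isJacobsonRing F₀ (B₀ ⧸ 𝔪)
  have hnf : NumberField (B₀ ⧸ 𝔪) := NumberField.of_module_finite F₀ (B₀ ⧸ 𝔪)
  let ψ₂ : A →+* LaurentPolynomial (B₀ ⧸ 𝔪) :=
    (AddMonoidAlgebra.mapRingHom ℤ (Ideal.Quotient.mk 𝔪)).comp ψ₁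
  have hψ₂ : ∀ a n, (ψ₂ a).coeff n = Ideal.Quotient.mk 𝔪 ((ψ₁ a).coeff n) := by
    intro a n
    exact AddMonoidAlgebra.coeff_mapRingHom _ _ _
  refine ⟨B₀ ⧸ 𝔪, instF, hnf, inferInstance, ψ₂, ?_, ?_, ?_⟩
  · intro b
    ext n
    rw [hψ₂, LaurentPolynomial.C_apply]
    have h1 : (ψ₁ (algebraMap _ _ b)).coeff n = if n = 0 then algebraMap F₀ B₀ b else 0 := by
      apply Subtype.ext
      rw [hψ₁', hψ, LaurentPolynomial.C_apply]
      split_ifs <;> rfl
    rw [h1]
    split_ifs
    · rfl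
    · rw [map_zero]
  · intro l hl
    have h1 := hψ₂ a₀ k
    rw [hl, LaurentPolynomial.C_apply, if_neg hk0] at h1
    exact hb𝔪 (Ideal.mul_mem_right _ _ (Ideal.Quotient.eq_zero_iff_mem.1 h1.symm))
  · intro h0
    have h1 := hψ₂ q m
    rw [h0] at h1
    exact hb𝔪 (Ideal.mul_mem_left _ _ (Ideal.Quotient.eq_zero_iff_mem.1 h1.symm))

/-- `2` as a unit of `O_S` as soon as `1/2` is `S`-integral. -/
def twoS (F : Type) [Field F] [NumberField F] (S : Finset (HeightOneSpectrum (𝓞 F)))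
    (h : (2 : F)⁻¹ ∈ (S : Set (HeightOneSpectrum (𝓞 F))).integer F) : (SInt F S)ˣ where
  val := 2
  inv := ⟨2⁻¹, h⟩
  val_inv := Subtype.ext (mul_inv_cancel₀ (two_ne_zero (α := F)))
  inv_val := Subtype.ext (inv_mul_cancel₀ (two_ne_zero (α := F)))

theorem coe_eval₂_twoS (F : Type) [Field F] [NumberField F]
    (S : Finset (HeightOneSpectrum (𝓞 F)))
    (h : (2 : F)⁻¹ ∈ (S : Set (HeightOneSpectrum (𝓞 F))).integer F) (m : ℕ)
    (p : LaurentPolynomial (SInt F S)) :
    ((LaurentPolynomial.eval₂ (RingHom.id _) (twoS F S h ^ m) p : SInt F S) : F) =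
      LaurentPolynomial.eval₂ (RingHom.id F) (twoU F ^ m)
        (AddMonoidAlgebra.mapRingHom ℤ (algebraMap (SInt F S) F) p) := by
  have hu : Units.map (algebraMap (SInt F S) F).toMonoidHom (twoS F S h) = twoU F := by
    apply Units.ext; rfl
  induction p using LaurentPolynomial.induction_on' with
  | add p q hp hq => 
    rw [map_add, map_add, map_add, ← hp, ← hq]; rfl
  | C_mul_T n a =>
    have h1 : AddMonoidAlgebra.mapRingHom ℤ (algebraMap (SInt F S) F)
        (LaurentPolynomial.C a * LaurentPolynomial.T n) =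
        LaurentPolynomial.C (algebraMap (SInt F S) F a) * LaurentPolynomial.T n := by
      rw [← LaurentPolynomial.single_eq_C_mul_T, ← LaurentPolynomial.single_eq_C_mul_T]
      ext k
      rw [AddMonoidAlgebra.coeff_mapRingHom]
      simp only [AddMonoidAlgebra.coeff_single, Finsupp.single_apply]
      split_ifs
      · rfl
      · simp
    rw [h1, LaurentPolynomial.eval₂_C_mul_T, LaurentPolynomial.eval₂_C_mul_T, ← hu, ← map_pow,
      ← map_zpow]
    rfl

theorem exists_infinite_points (F : Type) [Field F] [NumberField F] [Algebra F₀ F]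
    {A : Type} [CommRing A] [Algebra (𝓞 F₀) A] [hfg : Algebra.FiniteType (𝓞 F₀) A]
    (ψ : A →+* LaurentPolynomial F)
    (hψ : ∀ b : 𝓞 F₀, ψ (algebraMap _ _ b) = LaurentPolynomial.C (algebraMap F₀ F b))
    (a₀ : A) (hnc : ∀ l, ψ a₀ ≠ LaurentPolynomial.C l) (q : A) (hq : ψ q ≠ 0) :
    ∃ S : Finset (HeightOneSpectrum (𝓞 F)),
      {x : A →+* SInt F S | x.comp (algebraMap (𝓞 F₀) A) = structHom F₀ F S ∧ x q ≠ 0}.Infinite := by
  classical
  obtain ⟨G, hG⟩ := hfg.out
  let T : Finset F := insert (2 : F)⁻¹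
    (G.biUnion fun g => (ψ g).coeff.support.image fun n => (ψ g).coeff n)
  obtain ⟨S, hS⟩ := exists_finset_SInt F T
  have h2 : (2 : F)⁻¹ ∈ (S : Set (HeightOneSpectrum (𝓞 F))).integer F :=
    hS _ (Finset.mem_insert_self _ _)
  refine ⟨S, ?_⟩
  let ι : LaurentPolynomial (SInt F S) →+* LaurentPolynomial F :=
    AddMonoidAlgebra.mapRingHom ℤ (algebraMap (SInt F S) F)
  have hι : Function.Injective ι := mapRingHom_injective' _ (fun a b h => Subtype.ext h)
  have hCalg : ∀ b : 𝓞 F₀, ι (LaurentPolynomial.C (structHom F₀ F S b)) =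
      LaurentPolynomial.C (algebraMap F₀ F b) := by
    intro b
    ext n
    rw [AddMonoidAlgebra.coeff_mapRingHom]
    simp only [LaurentPolynomial.C_apply]
    split_ifs
    · rfl
    · simp
  have hrange : ∀ a, ψ a ∈ ι.range := by
    intro a
    have : a ∈ Algebra.adjoin (𝓞 F₀) (G : Set A) := by rw [hG]; trivial
    induction this using Algebra.adjoin_induction with
    | mem g hg =>
      refine mem_range_map_of_coeff _ _ fun n => ?_
      by_cases hn : n ∈ (ψ g).coeff.support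
      · refine ⟨⟨(ψ g).coeff n, hS _ ?_⟩, rfl⟩
        exact Finset.mem_insert_of_mem
          (Finset.mem_biUnion.2 ⟨g, hg, Finset.mem_image.2 ⟨n, hn, rfl⟩⟩)
      · refine ⟨0, ?_⟩
        rw [map_zero]
        simpa using (Finsupp.notMem_support_iff.1 hn).symm
    | algebraMap b =>
      rw [hψ, ← hCalg]
      exact ⟨_, rfl⟩
    | add x y _ _ hx hy => rw [map_add]; exact Subring.add_mem _ hx hy
    | mul x y _ _ hx hy => rw [map_mul]; exact Subring.mul_mem _ hx hy
  obtain ⟨ψ₁, hψ₁⟩ := exists_lift_of_range ι hι ψ hrange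
  have hψ₁' : ∀ a, ι (ψ₁ a) = ψ a := fun a => RingHom.congr_fun hψ₁ a
  let x : ℕ → (A →+* SInt F S) := fun m =>
    (LaurentPolynomial.eval₂ (RingHom.id _) (twoS F S h2 ^ m)).comp ψ₁
  have hx : ∀ m a, ((x m a : SInt F S) : F) =
      LaurentPolynomial.eval₂ (RingHom.id F) (twoU F ^ m) (ψ a) := by
    intro m a
    rw [← hψ₁']
    exact coe_eval₂_twoS F S h2 m (ψ₁ a)
  have hxstr : ∀ m, (x m).comp (algebraMap (𝓞 F₀) A) = structHom F₀ F S := by
    intro m
    ext b
    rw [RingHom.comp_apply, hx, hψ, LaurentPolynomial.eval₂_C]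
    rfl
  have hqfin : {m : ℕ | x m q = 0}.Finite := by
    refine (laurent_finite_roots (ψ q) hq).subset ?_
    intro m hm
    simp only [Set.mem_ofPred_eq] at hm ⊢
    rw [← hx, hm]; rfl
  -- infinitely many distinct points
  have hfib : ∀ y : A →+* SInt F S, {m : ℕ | x m = y}.Finite := by
    intro y
    have h1 : ψ a₀ - LaurentPolynomial.C ((y a₀ : SInt F S) : F) ≠ 0 := by
      intro h
      exact hnc _ (sub_eq_zero.1 h)
    refine (laurent_finite_roots _ h1).subset ?_
    intro m hm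
    simp only [Set.mem_ofPred_eq] at hm ⊢
    rw [map_sub, ← hx, LaurentPolynomial.eval₂_C, hm]
    simp
  intro hfin
  have hcover : (Set.univ : Set ℕ) ⊆ {m : ℕ | x m q = 0} ∪
      ⋃ y ∈ {x : A →+* SInt F S | x.comp (algebraMap (𝓞 F₀) A) = structHom F₀ F S ∧ x q ≠ 0},
        {m : ℕ | x m = y} := by
    intro m _
    by_cases h : x m q = 0
    · exact Or.inl h
    · right
      simp only [Set.mem_iUnion]
      exact ⟨x m, ⟨hxstr m, h⟩, rfl⟩
  exact Set.infinite_univ ((hqfin.union (hfin.biUnion fun y _ => hfib y)).subset hcover)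

end Pool.Agent.Work.MP_e97a4d_nt
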