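import Mathlib
import Pool.Agent.Work.MP_e97a4d_nt.Defs
import Pool.Agent.Work.MP_e97a4d_nt.LaurentPoints

set_option autoImplicit false
set_option linter.unusedSectionVars false

noncomputable section

namespace Pool.Agent.Work.MP_e97a4d_nt

open AlgebraicGeometry CategoryTheory CategoryTheory.Limits IsDedekindDomain NumberField

theorem Spec_map_comp_inj {V : Scheme.{0}} {A : CommRingCat.{0}} (j : Spec A ⟶ V) [Mono j]
    {R : Type} [CommRing R] (φ ψ : A →+* R)
    (h : Spec.map (CommRingCat.ofHom φ) ≫ j = Spec.map (CommRingCat.ofHom ψ) ≫ j) : φ = ψ := by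
  rw [cancel_mono] at h
  have := Spec.map_injective h
  have h2 := congrArg CommRingCat.Hom.hom this
  simpa using h2

/-- On an affine chart a closed subscheme is given by an ideal. -/
theorem exists_ideal_chart {V V' : Scheme.{0}} (i : V' ⟶ V) [IsClosedImmersion i]
    {A : CommRingCat.{0}} (j : Spec A ⟶ V) :
    ∃ I : Ideal A, ∀ (R : Type) [CommRing R] (φ : A →+* R),
      (∃ p : Spec (CommRingCat.of R) ⟶ V', p ≫ i = Spec.map (CommRingCat.ofHom φ) ≫ j) ↔
        ∀ a ∈ I, φ a = 0 := by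
  have hcl : IsClosedImmersion (pullback.snd i j) := inferInstance
  obtain ⟨I, e, he⟩ := IsClosedImmersion.Spec_iff.1 hcl
  refine ⟨I, fun R _ φ => ⟨?_, ?_⟩⟩
  · rintro ⟨p, hp⟩
    let l := pullback.lift p (Spec.map (CommRingCat.ofHom φ)) hp
    have hl : l ≫ pullback.snd i j = Spec.map (CommRingCat.ofHom φ) := pullback.lift_snd _ _ _
    rw [he] at hl
    obtain ⟨θ, hθ⟩ := Spec.map_surjective (l ≫ e.hom)
    rw [← Category.assoc, ← hθ, ← Spec.map_comp] at hl
    have h2 := Spec.map_injective hl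
    intro a ha
    have h3 : φ a = θ.hom (Ideal.Quotient.mk I a) := by
      have := congrArg CommRingCat.Hom.hom h2
      have := RingHom.congr_fun this a
      simpa using this.symm
    rw [h3, Ideal.Quotient.eq_zero_iff_mem.2 ha, map_zero]
  · intro h
    let θ : (A ⧸ I) →+* R := Ideal.Quotient.lift I φ h
    refine ⟨Spec.map (CommRingCat.ofHom θ) ≫ e.inv ≫ pullback.fst i j, ?_⟩
    rw [Category.assoc, Category.assoc, pullback.condition, he, Category.assoc, Iso.inv_hom_id_assoc,
      ← Category.assoc, ← Spec.map_comp]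
    congr 1

/-- A non-constant one-parameter family on an affine chart that is not contained in `V'` produces
infinitely many integral points outside `V'`. -/
theorem not_condII_of_laurent {F₀ : Type} [Field F₀] [NumberField F₀] {V V' : Scheme.{0}}
    (π : V ⟶ Spec (CommRingCat.of (𝓞 F₀))) [LocallyOfFiniteType π] (i : V' ⟶ V)
    {A : CommRingCat.{0}} (j : Spec A ⟶ V) [IsOpenImmersion j]
    (α : 𝓞 F₀ →+* A) (hα : j ≫ π = Spec.map (CommRingCat.ofHom α))
    {L : Type} [Field L] [Algebra F₀ L] (ψ : A →+* LaurentPolynomial L)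
    (hψ : ∀ b : 𝓞 F₀, ψ (α b) = LaurentPolynomial.C (algebraMap F₀ L b))
    (a₀ : A) (hnc : ∀ l, ψ a₀ ≠ LaurentPolynomial.C l) (q : A) (hq : ψ q ≠ 0)
    (hqI : ∀ (R : Type) [CommRing R] (φ : A →+* R),
      (∃ p : Spec (CommRingCat.of R) ⟶ V', p ≫ i = Spec.map (CommRingCat.ofHom φ) ≫ j) →
        φ q = 0) : ¬ CondII π i := by
  intro h2
  let _ : Algebra (𝓞 F₀) A := α.toAlgebra
  have hft : LocallyOfFiniteType (Spec.map (CommRingCat.ofHom α)) := by
    rw [← hα]; infer_instance
  have hft' : α.FiniteType := by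
    rw [HasRingHomProperty.Spec_iff (P := @LocallyOfFiniteType)] at hft
    exact hft
  have : Algebra.FiniteType (𝓞 F₀) A := hft'
  obtain ⟨F, _, _, _, ψ', hψ', hnc', hq'⟩ :=
    exists_numberField_laurent F₀ ψ hψ a₀ hnc q hq
  obtain ⟨S, hS⟩ := exists_infinite_points F₀ F ψ' hψ' a₀ hnc' q hq'
  apply hS
  have hfin := h2 F S
  let θ : (A →+* SInt F S) → (Spec (CommRingCat.of (SInt F S)) ⟶ V) :=
    fun x => Spec.map (CommRingCat.ofHom x) ≫ j
  have hθ : Function.Injective θ := fun x y hxy => Spec_map_comp_inj j x y hxy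
  refine Set.Finite.subset (hfin.preimage hθ.injOn) ?_
  rintro x ⟨hx1, hx2⟩
  refine ⟨?_, ?_⟩
  · show (Spec.map (CommRingCat.ofHom x) ≫ j) ≫ π = _
    rw [Category.assoc, hα, ← Spec.map_comp, ← CommRingCat.ofHom_comp]
    congr 2
  · intro hy
    exact hx2 (hqI _ x hy)

end Pool.Agent.Work.MP_e97a4d_nt
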