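import Mathlib
import Pool.Agent.Work.MP_e97a4d_nt.Charts

set_option autoImplicit false
set_option linter.unusedSectionVars false

noncomputable section

namespace Pool.Agent.Work.MP_e97a4d_nt

open scoped BigOperators Topology
open AlgebraicGeometry CategoryTheory CategoryTheory.Limits IsDedekindDomain NumberField

/-- A holomorphic map `ℂ → V(ℂ)` that maps a nonempty open set into `V'` maps `ℂ` into `V'`. -/
theorem factors_of_open {F₀ : Type} [Field F₀] (σ : F₀ →+* ℂ) {V V' : Scheme.{0}}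
    (π : V ⟶ Spec (CommRingCat.of (𝓞 F₀))) (i : V' ⟶ V) [IsClosedImmersion i]
    (f : ℂ → (Spec (CommRingCat.of ℂ) ⟶ V)) (hf : IsHolomorphicMap σ π f)
    (Ω : Set ℂ) (hΩ : IsOpen Ω) (hne : Ω.Nonempty)
    (hin : ∀ z ∈ Ω, ∃ p : Spec (CommRingCat.of ℂ) ⟶ V', p ≫ i = f z) (z : ℂ) :
    ∃ p : Spec (CommRingCat.of ℂ) ⟶ V', p ≫ i = f z := by
  set Z : Set ℂ := {z | ∃ p : Spec (CommRingCat.of ℂ) ⟶ V', p ≫ i = f z} with hZ
  have hclosed : IsClosed (interior Z) := by
    rw [← closure_subset_iff_isClosed]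
    intro z hz
    obtain ⟨A, j, g, D, _, hD, hzD, hfg, hhol⟩ := hf.holo z
    obtain ⟨r, hr, hball⟩ := Metric.isOpen_iff.1 hD z hzD
    obtain ⟨I, hI⟩ := exists_ideal_chart i j
    obtain ⟨w, hw, hwZ⟩ : ∃ w ∈ Metric.ball z r, w ∈ interior Z := by
      obtain ⟨w, hw1, hw2⟩ := mem_closure_iff.1 hz (Metric.ball z r) Metric.isOpen_ball
        (Metric.mem_ball_self hr)
      exact ⟨w, hw1, hw2⟩
    have hvan : ∀ a ∈ I, ∀ u ∈ Metric.ball z r, g u a = 0 := by
      intro a ha u hu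
      have h1 : (fun u => g u a) =ᶠ[𝓝 w] 0 := by
        filter_upwards [Metric.isOpen_ball.mem_nhds hw, isOpen_interior.mem_nhds hwZ] with v hv hvZ
        obtain ⟨p, hp⟩ := interior_subset hvZ
        rw [hfg v (hball hv)] at hp
        exact (hI ℂ (g v)).1 ⟨p, hp⟩ a ha
      have h2 : AnalyticOnNhd ℂ (fun u => g u a) (Metric.ball z r) :=
        ((hhol a).mono hball).analyticOnNhd Metric.isOpen_ball
      exact h2.eqOn_zero_of_preconnected_of_eventuallyEq_zero
        (convex_ball z r).isPreconnected hw h1 hu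
    rw [mem_interior]
    refine ⟨Metric.ball z r, ?_, Metric.isOpen_ball, Metric.mem_ball_self hr⟩
    intro u hu
    obtain ⟨p, hp⟩ := (hI ℂ (g u)).2 (fun a ha => hvan a ha u hu)
    exact ⟨p, by rw [hp, hfg u (hball hu)]⟩
  have hne' : (interior Z).Nonempty := by
    obtain ⟨w, hw⟩ := hne
    exact ⟨w, mem_interior.2 ⟨Ω, hin, hΩ, hw⟩⟩
  have huniv : interior Z = Set.univ := IsClopen.eq_univ ⟨hclosed, isOpen_interior⟩ hne'
  have h3 : z ∈ interior Z := by rw [huniv]; trivial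
  have h4 : z ∈ Z := interior_subset h3
  exact h4

end Pool.Agent.Work.MP_e97a4d_nt
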