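import Mathlib
import Pool.Agent.Work.MP_e97a4d_nt.Defs

/-!
Scheme-theoretic lemmas: when does a morphism from an affine scheme factor through a closed
immersion.
-/

namespace Pool.Agent.Work.MP_e97a4d_nt

open AlgebraicGeometry CategoryTheory Limits

universe u

/-- A closed immersion cuts out an ideal on every affine scheme over the target. -/
theorem exists_ideal_factors' {V V' : Scheme.{u}} (i : V' ⟶ V) [IsClosedImmersion i]
    {A : CommRingCat.{u}} (j : Spec A ⟶ V) :
    ∃ I : Ideal A, (∀ (R : CommRingCat.{u}) (φ : A ⟶ R),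
      (∃ p : Spec R ⟶ V', p ≫ i = Spec.map φ ≫ j) ↔ I ≤ RingHom.ker φ.hom) ∧
      ∀ x : PrimeSpectrum A, j x ∈ Set.range i ↔ I ≤ x.asIdeal := by
  have hc : IsClosedImmersion (pullback.snd i j) := inferInstance
  obtain ⟨I, e, he⟩ := IsClosedImmersion.Spec_iff.1 hc
  refine ⟨I, fun R φ => ⟨?_, ?_⟩, ?_⟩
  · rintro ⟨p, hp⟩
    have h1 : pullback.lift p (Spec.map φ) hp ≫ pullback.snd i j = Spec.map φ := pullback.lift_snd _ _ _
    rw [he, ← Category.assoc] at h1
    obtain ⟨ψ, hψ⟩ := Spec.map_surjective (pullback.lift p (Spec.map φ) hp ≫ e.hom)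
    rw [← hψ, ← Spec.map_comp] at h1
    have h2 := Spec.map_injective h1
    intro a ha
    rw [RingHom.mem_ker, ← h2]
    have : Ideal.Quotient.mk I a = 0 := Ideal.Quotient.eq_zero_iff_mem.2 ha
    simp [this]
  · intro h
    refine ⟨Spec.map (CommRingCat.ofHom (Ideal.Quotient.lift I φ.hom h)) ≫ e.inv ≫ pullback.fst i j, ?_⟩
    rw [Category.assoc, Category.assoc, pullback.condition]
    have h1 : e.inv ≫ pullback.snd i j = Spec.map (CommRingCat.ofHom (Ideal.Quotient.mk I)) := by
      rw [he, Iso.inv_hom_id_assoc]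
    rw [← Category.assoc e.inv, h1, ← Category.assoc, ← Spec.map_comp]
    congr 1
  · intro x
    have h1 : j x ∈ Set.range i ↔ x ∈ Set.range (pullback.snd i j) := by
      rw [Scheme.Pullback.range_snd]; rfl
    have h2 : Set.range (pullback.snd i j) =
        Set.range (Spec.map (CommRingCat.ofHom (Ideal.Quotient.mk I))) := by
      rw [he]
      ext y
      constructor
      · rintro ⟨z, rfl⟩
        exact ⟨e.hom z, by rw [Scheme.Hom.comp_apply]⟩
      · rintro ⟨z, rfl⟩
        refine ⟨e.inv z, ?_⟩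
        rw [← Scheme.Hom.comp_apply, Iso.inv_hom_id_assoc]
    rw [h1, h2]
    have h3 : Set.range (Spec.map (CommRingCat.ofHom (Ideal.Quotient.mk I))) =
        PrimeSpectrum.zeroLocus (I : Set A) := by
      have := range_comap_of_surjective (A ⧸ I) (Ideal.Quotient.mk I)
        Ideal.Quotient.mk_surjective
      rw [Ideal.mk_ker] at this
      exact this
    rw [h3]
    rfl

/-- A closed immersion cuts out an ideal on every affine scheme over the target. -/
theorem exists_ideal_factors {V V' : Scheme.{u}} (i : V' ⟶ V) [IsClosedImmersion i]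
    {A : CommRingCat.{u}} (j : Spec A ⟶ V) :
    ∃ I : Ideal A, ∀ (R : CommRingCat.{u}) (φ : A ⟶ R),
      (∃ p : Spec R ⟶ V', p ≫ i = Spec.map φ ≫ j) ↔ I ≤ RingHom.ker φ.hom := by
  obtain ⟨I, hI, -⟩ := exists_ideal_factors' i j
  exact ⟨I, hI⟩

/-- A point with values in a field factors through a closed subscheme as soon as its image lies in
the underlying closed set. -/
theorem factors_iff_mem_range {V V' : Scheme.{u}} (i : V' ⟶ V) [IsClosedImmersion i]
    {K : Type u} [Field K] (p : Spec (CommRingCat.of K) ⟶ V) :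
    (∃ p', p' ≫ i = p) ↔ p (⊥ : PrimeSpectrum K) ∈ Set.range i := by
  obtain ⟨I, hI, hI'⟩ := exists_ideal_factors' i p
  rw [hI']
  have h1 := hI _ (𝟙 (CommRingCat.of K))
  rw [Spec.map_id, Category.id_comp] at h1
  rw [h1]
  have h2 : RingHom.ker (CommRingCat.Hom.hom (𝟙 (CommRingCat.of K))) = ⊥ := by
    ext x; simp
  rw [h2]
  rfl

/-- A morphism from an integral affine scheme factors through a closed immersion if its
restriction along an injective ring homomorphism does. -/
theorem factors_of_injective {V V' : Scheme.{u}} (i : V' ⟶ V) [IsClosedImmersion i]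
    {R K : CommRingCat.{u}} (y : Spec R ⟶ V) (φ : R ⟶ K) (hφ : Function.Injective φ.hom)
    (h : ∃ p : Spec K ⟶ V', p ≫ i = Spec.map φ ≫ y) : ∃ p : Spec R ⟶ V', p ≫ i = y := by
  obtain ⟨I, hI⟩ := exists_ideal_factors i y
  have h1 := (hI K φ).1 h
  rw [(RingHom.injective_iff_ker_eq_bot _).1 hφ] at h1
  have h2 := (hI R (𝟙 R)).2 (h1.trans bot_le)
  simpa using h2

/-- Two morphisms from an affine scheme to a separated scheme agree exactly on a closed subscheme. -/
theorem exists_ideal_eq {V : Scheme.{u}} [V.IsSeparated] {R : CommRingCat.{u}} (x y : Spec R ⟶ V) :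
    ∃ J : Ideal R, ∀ (R' : CommRingCat.{u}) (φ : R ⟶ R'),
      Spec.map φ ≫ x = Spec.map φ ≫ y ↔ J ≤ RingHom.ker φ.hom := by
  obtain ⟨J, hJ⟩ := exists_ideal_factors (equalizer.ι x y) (𝟙 (Spec R))
  refine ⟨J, fun R' φ => ?_⟩
  rw [← hJ R' φ]
  constructor
  · intro h
    exact ⟨equalizer.lift (Spec.map φ) h, by simp⟩
  · rintro ⟨p, hp⟩
    rw [Category.comp_id] at hp
    rw [← hp, Category.assoc, Category.assoc, equalizer.condition]

theorem isSeparated_of_isSeparated {V : Scheme.{u}} {R : CommRingCat.{u}} (π : V ⟶ Spec R)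
    [IsSeparated π] : V.IsSeparated :=
  ⟨by rw [← terminal.comp_from π]; infer_instance⟩

end Pool.Agent.Work.MP_e97a4d_nt
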