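import Mathlib
import Pool.Agent.Work.MP_e97a4d_nt.Defs
import Pool.Agent.Work.MP_e97a4d_nt.SchemeLemmas
import Pool.Agent.Work.MP_e97a4d_nt.Charts
import Pool.Agent.Work.MP_e97a4d_nt.Identity

set_option autoImplicit false

noncomputable section

namespace Pool.Agent.Work.MP_e97a4d_nt.Vp

open AlgebraicGeometry CategoryTheory CategoryTheory.Limits IsDedekindDomain NumberField
open scoped Topology

/-- The point of `V` under a complex point. -/
abbrev pt {V : Scheme.{0}} (f : Spec (CommRingCat.of ℂ) ⟶ V) : V := f (⊥ : PrimeSpectrum ℂ)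

theorem range_eq {V : Scheme.{0}} (f : Spec (CommRingCat.of ℂ) ⟶ V) : Set.range f = {pt f} := by
  ext x
  constructor
  · rintro ⟨y, rfl⟩
    have : y = (⊥ : PrimeSpectrum ℂ) := Subsingleton.elim (α := PrimeSpectrum ℂ) _ _
    rw [this]; rfl
  · rintro rfl
    exact ⟨_, rfl⟩

/-- Refinement of charts and composition with morphisms. -/
theorem exists_chart_comp {V : Scheme.{0}} {B : CommRingCat.{0}} (q : Spec B ⟶ V)
    (g : ℂ → (B →+* ℂ)) (D : Set ℂ) (hD : IsOpen D) (z : ℂ) (hz : z ∈ D)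
    (hg : ∀ b : B, DifferentiableOn ℂ (fun z => g z b) D) (O : V.Opens)
    (hO : pt (Spec.map (CommRingCat.ofHom (g z)) ≫ q) ∈ O) :
    ∃ (A : CommRingCat.{0}) (j : Spec A ⟶ V) (g' : ℂ → (A →+* ℂ)) (D' : Set ℂ),
      IsOpenImmersion j ∧ IsOpen D' ∧ z ∈ D' ∧ D' ⊆ D ∧
      (∀ w ∈ D', Spec.map (CommRingCat.ofHom (g w)) ≫ q = Spec.map (CommRingCat.ofHom (g' w)) ≫ j) ∧
      (∀ a : A, DifferentiableOn ℂ (fun w => g' w a) D') ∧ Set.range j ⊆ O := by
  classical
  let p : PrimeSpectrum B := PrimeSpectrum.comap (g z) ⊥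
  have hp : q p ∈ O := hO
  obtain ⟨U, hU, hpU, hUO⟩ := exists_isAffineOpen_mem_and_subset (X := V) (x := q p) (U := O) hp
  have h1 : p ∈ (q ⁻¹ᵁ U : (Spec B).Opens) := hpU
  obtain ⟨_, ⟨b, rfl⟩, hpb, hbU⟩ := PrimeSpectrum.isTopologicalBasis_basic_opens.exists_subset_of_mem_open
    h1 (q ⁻¹ᵁ U).isOpen
  have hgb : g z b ≠ 0 := by
    intro h
    exact hpb (by
      show g z b ∈ (⊥ : Ideal ℂ)
      rw [h]; exact zero_mem _)
  let L := Localization.Away b
  let q' : Spec (CommRingCat.of L) ⟶ V := Spec.map (CommRingCat.ofHom (algebraMap B L)) ≫ q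
  have hq : Set.range q' ⊆ Set.range hU.fromSpec := by
    rintro _ ⟨y, rfl⟩
    rw [hU.range_fromSpec]
    have h2 : Spec.map (CommRingCat.ofHom (algebraMap B L)) y ∈
        (PrimeSpectrum.basicOpen b : Set (PrimeSpectrum B)) := by
      intro (h : algebraMap B L b ∈ y.asIdeal)
      exact y.2.ne_top (Ideal.eq_top_of_isUnit_mem _ h
        (IsLocalization.map_units L (⟨b, Submonoid.mem_powers b⟩ : Submonoid.powers b)))
    exact hbU h2
  obtain ⟨θ, hθ⟩ := Spec.map_surjective (IsOpenImmersion.lift hU.fromSpec q' hq)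
  have hθ' : Spec.map θ ≫ hU.fromSpec = q' := by
    rw [hθ, IsOpenImmersion.lift_fac]
  let D' : Set ℂ := D ∩ {w | g w b ≠ 0}
  have hDo : IsOpen D' := (hg b).continuousOn.isOpen_inter_preimage hD isOpen_ne
  let G : ∀ w, g w b ≠ 0 → (L →+* ℂ) := fun w hw =>
    IsLocalization.Away.lift b (g := g w) (isUnit_iff_ne_zero.2 hw)
  have hG : ∀ w hw, (G w hw).comp (algebraMap B L) = g w := fun w hw =>
    IsLocalization.Away.lift_comp _ _
  let g' : ℂ → (Γ(V, U) →+* ℂ) := fun w =>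
    if hw : g w b ≠ 0 then (G w hw).comp θ.hom else (G z hgb).comp θ.hom
  refine ⟨Γ(V, U), hU.fromSpec, g', D', inferInstance, hDo, ⟨hz, hgb⟩, Set.inter_subset_left,
    ?_, ?_, ?_⟩
  · intro w hw
    have hw := hw.2
    have h2 : g' w = (G w hw).comp θ.hom := dif_pos hw
    rw [h2]
    have h3 : Spec.map (CommRingCat.ofHom ((G w hw).comp θ.hom)) =
        Spec.map (CommRingCat.ofHom (G w hw)) ≫ Spec.map θ := by
      rw [← Spec.map_comp]; rfl
    rw [h3, Category.assoc, hθ', ← Category.assoc, ← Spec.map_comp, ← CommRingCat.ofHom_comp,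
      hG w hw]
  · intro a
    obtain ⟨⟨β, s⟩, hβ⟩ := IsLocalization.surj (Submonoid.powers b) (θ.hom a)
    obtain ⟨k, hk⟩ := s.2
    have h2 : ∀ w ∈ D', g' w a = g w β / (g w b) ^ k := by
      intro w hw
      have hw := hw.2
      have h3 : g' w = (G w hw).comp θ.hom := dif_pos hw
      have h4 := congrArg (G w hw) hβ
      rw [map_mul] at h4
      have h5 : ∀ x, G w hw (algebraMap B L x) = g w x := fun x =>
        congrArg (fun f : B →+* ℂ => f x) (hG w hw)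
      rw [h5, h5] at h4
      rw [h3, eq_div_iff (pow_ne_zero _ hw), ← h4, ← map_pow]
      simp only [RingHom.comp_apply]
      rw [← hk]
    refine DifferentiableOn.congr ?_ h2
    exact ((hg β).mono Set.inter_subset_left).div (((hg b).mono Set.inter_subset_left).pow k)
      (fun w hw => pow_ne_zero _ hw.2)
  · rw [hU.range_fromSpec]
    exact hUO

variable {F₀ : Type} [Field F₀] {σ : F₀ →+* ℂ}

/-- Charts of a holomorphic map inside a given open subset. -/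
theorem exists_chart_in {X : Scheme.{0}} {π : X ⟶ Spec (CommRingCat.of (𝓞 F₀))}
    {f : ℂ → (Spec (CommRingCat.of ℂ) ⟶ X)} (hf : IsHolomorphicMap σ π f) (z : ℂ)
    (O : X.Opens) (hO : pt (f z) ∈ O) :
    ∃ (A : CommRingCat.{0}) (j : Spec A ⟶ X) (g : ℂ → (A →+* ℂ)) (D : Set ℂ),
      IsOpenImmersion j ∧ IsOpen D ∧ z ∈ D ∧
      (∀ w ∈ D, f w = Spec.map (CommRingCat.ofHom (g w)) ≫ j) ∧
      (∀ a : A, DifferentiableOn ℂ (fun w => g w a) D) ∧ Set.range j ⊆ O := by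
  obtain ⟨A, j, g, D, hj, hD, hz, hfg, hhol⟩ := hf.holo z
  rw [hfg z hz] at hO
  obtain ⟨A', j', g', D', hj', hD', hz', hsub, h1, h2, h3⟩ :=
    exists_chart_comp j g D hD z hz hhol O hO
  exact ⟨A', j', g', D', hj', hD', hz', fun w hw => by rw [hfg w (hsub hw), h1 w hw], h2, h3⟩

theorem isOpen_mem {X : Scheme.{0}} {π : X ⟶ Spec (CommRingCat.of (𝓞 F₀))}
    {f : ℂ → (Spec (CommRingCat.of ℂ) ⟶ X)} (hf : IsHolomorphicMap σ π f) (O : X.Opens) :
    IsOpen {z | pt (f z) ∈ O} := by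
  rw [isOpen_iff_mem_nhds]
  intro z hz
  obtain ⟨A, j, g, D, hj, hD, hzD, hfg, hhol, hO⟩ := exists_chart_in hf z O hz
  filter_upwards [hD.mem_nhds hzD] with w hw
  rw [hfg w hw]
  exact hO ⟨_, rfl⟩

/-- Composition with a morphism of schemes. -/
theorem holo_comp {X Y : Scheme.{0}} {π : Y ⟶ Spec (CommRingCat.of (𝓞 F₀))}
    (q : X ⟶ Y) {f : ℂ → (Spec (CommRingCat.of ℂ) ⟶ X)} (hf : IsHolomorphicMap σ (q ≫ π) f) :
    IsHolomorphicMap σ π (fun z => f z ≫ q) where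
  structural z := by rw [Category.assoc]; exact hf.structural z
  holo z := by
    obtain ⟨A, j, g, D, hj, hD, hz, hfg, hhol⟩ := hf.holo z
    obtain ⟨A', j', g', D', hj', hD', hz', hsub, h1, h2, -⟩ :=
      exists_chart_comp (j ≫ q) g D hD z hz hhol ⊤ trivial
    refine ⟨A', j', g', D', hj', hD', hz', fun w hw => ?_, h2⟩
    rw [← h1 w hw, hfg w (hsub hw), Category.assoc]

/-- Points of intersection with a closed subscheme are isolated. -/
theorem eventually_not_mem {V V' : Scheme.{0}}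
    (π : V ⟶ Spec (CommRingCat.of (𝓞 F₀))) (i : V' ⟶ V) [IsClosedImmersion i]
    (f : ℂ → (Spec (CommRingCat.of ℂ) ⟶ V)) (hf : IsHolomorphicMap σ π f)
    (hne : ∃ z, ¬ ∃ p : Spec (CommRingCat.of ℂ) ⟶ V', p ≫ i = f z) (z : ℂ) :
    ∀ᶠ w in 𝓝[≠] z, ¬ ∃ p : Spec (CommRingCat.of ℂ) ⟶ V', p ≫ i = f w := by
  by_contra hcon
  have hcon' : ∃ᶠ w in 𝓝[≠] z, ∃ p : Spec (CommRingCat.of ℂ) ⟶ V', p ≫ i = f w := by
    rw [Filter.Frequently]; exact hcon
  obtain ⟨z₁, hz₁⟩ := hne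
  apply hz₁
  obtain ⟨A, j, g, D, _, hD, hzD, hfg, hhol⟩ := hf.holo z
  obtain ⟨r, hr, hball⟩ := Metric.isOpen_iff.1 hD z hzD
  obtain ⟨I, hI⟩ := exists_ideal_chart i j
  have hvan : ∀ a ∈ I, ∀ u ∈ Metric.ball z r, g u a = 0 := by
    intro a ha u hu
    have h2 : AnalyticOnNhd ℂ (fun u => g u a) (Metric.ball z r) :=
      ((hhol a).mono hball).analyticOnNhd Metric.isOpen_ball
    refine h2.eqOn_zero_of_preconnected_of_frequently_eq_zero
      (convex_ball z r).isPreconnected (Metric.mem_ball_self hr) ?_ hu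
    have h3 : ∀ᶠ w in 𝓝[≠] z, w ∈ Metric.ball z r :=
      nhdsWithin_le_nhds (Metric.ball_mem_nhds z hr)
    refine (hcon'.and_eventually h3).mono ?_
    rintro w ⟨⟨p, hp⟩, hw⟩
    rw [hfg w (hball hw)] at hp
    exact (hI ℂ (g w)).1 ⟨p, hp⟩ a ha
  refine factors_of_open σ π i f hf (Metric.ball z r) Metric.isOpen_ball
    ⟨z, Metric.mem_ball_self hr⟩ ?_ z₁
  intro u hu
  obtain ⟨p, hp⟩ := (hI ℂ (g u)).2 (fun a ha => hvan a ha u hu)
  exact ⟨p, by rw [hp, hfg u (hball hu)]⟩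

end Pool.Agent.Work.MP_e97a4d_nt.Vp
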