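import Mathlib
import Pool.Agent.Work.MP_e97a4d_nt.VpHolo
import Pool.Agent.Work.MP_e97a4d_nt.GlueW

set_option autoImplicit false

noncomputable section

namespace Pool.Agent.Work.MP_e97a4d_nt.Vp

open AlgebraicGeometry CategoryTheory CategoryTheory.Limits IsDedekindDomain NumberField
open scoped Topology

variable {F₀ : Type} [Field F₀] {σ : F₀ →+* ℂ}
variable {V : Scheme.{0}} (U : V.Opens) {ι : Type} (W : ι → V.Opens) (hW : ∀ i, U ≤ W i)

/-- The lift of a morphism with image in `W i` to the chart `W i`. -/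
def lft {T : Scheme.{0}} (O : V.Opens) (m : T ⟶ V) (h : Set.range m ⊆ O) : T ⟶ O.toScheme :=
  IsOpenImmersion.lift O.ι m (by rw [Scheme.Opens.range_ι]; exact h)

@[reassoc (attr := simp)]
theorem lft_ι {T : Scheme.{0}} (O : V.Opens) (m : T ⟶ V) (h : Set.range m ⊆ O) :
    lft O m h ≫ O.ι = m := IsOpenImmersion.lift_fac _ _ _

theorem lft_unique {T : Scheme.{0}} (O : V.Opens) (m : T ⟶ V) (h : Set.range m ⊆ O)
    (l : T ⟶ O.toScheme) (hl : l ≫ O.ι = m) : l = lft O m h := by
  rw [← cancel_mono O.ι, hl, lft_ι]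

theorem lft_c {T : Scheme.{0}} (m : T ⟶ V) (h : Set.range m ⊆ U) (i : ι)
    (hi : Set.range m ⊆ W i) :
    lft (W i) m hi ≫ GlueW.c U W hW i = lft U m h ≫ GlueW.c₀ U W hW := by
  rw [← GlueW.homOfLE_c U W hW i, ← Category.assoc]
  congr 1
  symm
  apply lft_unique
  rw [Category.assoc, Scheme.homOfLE_ι, lft_ι]

theorem range_sub {f : Spec (CommRingCat.of ℂ) ⟶ V} {O : V.Opens} (h : pt f ∈ O) :
    Set.range f ⊆ O := by
  rw [range_eq]; rintro _ rfl; exact h

/-- Lifting of entire curves to the glued scheme. -/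
theorem holo_lift {π : V ⟶ Spec (CommRingCat.of (𝓞 F₀))}
    {f : ℂ → (Spec (CommRingCat.of ℂ) ⟶ V)} (hf : IsHolomorphicMap σ π f)
    (idx : ℂ → ι) (hidx : ∀ z, pt (f z) ∈ W (idx z))
    (hiso : ∀ z, pt (f z) ∉ U → ∀ᶠ w in 𝓝[≠] z, pt (f w) ∈ U) :
    IsHolomorphicMap σ (GlueW.p U W hW ≫ π)
      (fun z => lft (W (idx z)) (f z) (range_sub (hidx z)) ≫ GlueW.c U W hW (idx z)) where
  structural z := by
    rw [Category.assoc, ← Category.assoc (GlueW.c U W hW (idx z)), GlueW.c_p, lft_ι_assoc]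
    exact hf.structural z
  holo z := by
    have key : ∀ᶠ w in 𝓝 z, ∃ h : pt (f w) ∈ W (idx z),
        lft (W (idx w)) (f w) (range_sub (hidx w)) ≫ GlueW.c U W hW (idx w) =
        lft (W (idx z)) (f w) (range_sub h) ≫ GlueW.c U W hW (idx z) := by
      have h1 : ∀ w, pt (f w) ∈ U → ∃ h : pt (f w) ∈ W (idx z),
          lft (W (idx w)) (f w) (range_sub (hidx w)) ≫ GlueW.c U W hW (idx w) =
          lft (W (idx z)) (f w) (range_sub h) ≫ GlueW.c U W hW (idx z) := by
        intro w hw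
        refine ⟨hW _ hw, ?_⟩
        rw [lft_c U W hW (f w) (range_sub hw), lft_c U W hW (f w) (range_sub hw)]
      by_cases hz : pt (f z) ∈ U
      · filter_upwards [(isOpen_mem hf U).mem_nhds hz] with w hw
        exact h1 w hw
      · have h2 := hiso z hz
        rw [eventually_nhdsWithin_iff] at h2
        filter_upwards [h2] with w hw
        by_cases hwz : w = z
        · subst hwz
          exact ⟨hidx w, rfl⟩
        · exact h1 w (hw hwz)
    obtain ⟨A, j, g, D, hj, hD, hzD, hfg, hhol, hjW⟩ := exists_chart_in hf z (W (idx z)) (hidx z)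
    obtain ⟨D', hD', hD'o, hzD'⟩ := mem_nhds_iff.1 key
    let j' : Spec A ⟶ (W (idx z)).toScheme := lft (W (idx z)) j hjW
    have hj' : IsOpenImmersion j' := by
      have h3 : IsOpenImmersion (j' ≫ (W (idx z)).ι) := by
        rw [lft_ι]; exact hj
      exact IsOpenImmersion.of_comp j' (W (idx z)).ι
    refine ⟨A, j' ≫ GlueW.c U W hW (idx z), g, D ∩ D', inferInstance, hD.inter hD'o,
      ⟨hzD, hzD'⟩, ?_, fun a => (hhol a).mono Set.inter_subset_left⟩
    rintro w ⟨hw, hw'⟩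
    obtain ⟨h, hh⟩ := hD' hw'
    rw [hh, ← Category.assoc]
    congr 1
    symm
    apply lft_unique
    rw [Category.assoc, lft_ι, hfg w hw]

/-- A holomorphic map into the glued scheme that avoids `U` stays in one chart. -/
theorem exists_chart_of_avoid [Nonempty ι] {π : V ⟶ Spec (CommRingCat.of (𝓞 F₀))}
    {h : ℂ → (Spec (CommRingCat.of ℂ) ⟶ GlueW.G U W hW)}
    (hh : IsHolomorphicMap σ (GlueW.p U W hW ≫ π) h)
    (hU : ∀ z, pt (h z ≫ GlueW.p U W hW) ∉ U) :
    ∃ i, ∀ z, ∃ m : Spec (CommRingCat.of ℂ) ⟶ (W i).toScheme, h z = m ≫ GlueW.c U W hW i := by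
  classical
  have h1 : ∀ z, ∃ i, pt (h z) ∈ (GlueW.c U W hW i).opensRange := by
    intro z
    obtain ⟨i, x, hx⟩ := GlueW.c_surj U W hW (pt (h z))
    exact ⟨i, x, hx⟩
  choose idx hidx using h1
  have huniq : ∀ z i, pt (h z) ∈ (GlueW.c U W hW i).opensRange → i = idx z := by
    intro z i hi
    by_contra hne
    obtain ⟨x, hx⟩ := hi
    obtain ⟨y, hy⟩ := hidx z
    have h2 := GlueW.c_eq U W hW hne (hx.trans hy.symm)
    apply hU z
    have h3 : pt (h z ≫ GlueW.p U W hW) = (W i).ι x := by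
      rw [← GlueW.c_p U W hW i, Scheme.Hom.comp_apply]
      have hx' : GlueW.c U W hW i x = pt (h z) := hx
      rw [hx']
      rfl
    rw [h3]; exact h2
  have hloc : IsLocallyConstant idx := by
    rw [IsLocallyConstant.iff_eventually_eq]
    intro z
    filter_upwards [(isOpen_mem hh (GlueW.c U W hW (idx z)).opensRange).mem_nhds (hidx z)] with w hw
    exact (huniq w _ hw).symm
  refine ⟨idx 0, fun z => ?_⟩
  have h2 : idx z = idx 0 := hloc.apply_eq_of_preconnectedSpace z 0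
  have h3 := hidx z
  rw [h2] at h3
  have h4 : Set.range (h z) ⊆ Set.range (GlueW.c U W hW (idx 0)) := by
    rw [range_eq]; rintro _ rfl; exact h3
  exact ⟨IsOpenImmersion.lift _ _ h4, (IsOpenImmersion.lift_fac _ _ _).symm⟩

/-- The open complement of a closed subscheme. -/
def compl {V V' : Scheme.{0}} (i : V' ⟶ V) [IsClosedImmersion i] : V.Opens :=
  ⟨(Set.range i)ᶜ, i.isClosedEmbedding.isClosed_range.isOpen_compl⟩

theorem mem_compl_iff {V V' : Scheme.{0}} (i : V' ⟶ V) [IsClosedImmersion i]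
    (f : Spec (CommRingCat.of ℂ) ⟶ V) :
    pt f ∈ compl i ↔ ¬ ∃ p : Spec (CommRingCat.of ℂ) ⟶ V', p ≫ i = f := by
  rw [factors_iff_mem_range]
  rfl

/-- `T` contains no entire curve. -/
def Tame1 (σ : F₀ →+* ℂ) (π : V ⟶ Spec (CommRingCat.of (𝓞 F₀))) (T : V.Opens) : Prop :=
  ∀ f : ℂ → (Spec (CommRingCat.of ℂ) ⟶ V), IsHolomorphicMap σ π f → (∀ z, pt (f z) ∈ T) →
    ∀ z w, f z = f w

theorem curve_iff [Nonempty ι] {V V' : Scheme.{0}} (π : V ⟶ Spec (CommRingCat.of (𝓞 F₀)))
    (i : V' ⟶ V) [IsClosedImmersion i] (T : ι → V.Opens) (hT : ∀ x : V, ∃ k, x ∈ T k)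
    (htame : ∀ k, Tame1 σ π (T k)) (hW : ∀ k, compl i ≤ compl i ⊔ T k) :
    CondI σ π i ↔ ∀ h : ℂ → (Spec (CommRingCat.of ℂ) ⟶ GlueW.G (compl i) (fun k => compl i ⊔ T k) hW),
      ¬ IsEntireCurve σ (GlueW.p (compl i) (fun k => compl i ⊔ T k) hW ≫ π) h := by
  set W : ι → V.Opens := fun k => compl i ⊔ T k with hWdef
  constructor
  · rintro hI h ⟨hh, z₀, w₀, hne⟩
    have hf : IsHolomorphicMap σ π (fun z => h z ≫ GlueW.p (compl i) W hW) := holo_comp _ hh
    have hchart : ∀ z, ∃ (k : ι) (m : Spec (CommRingCat.of ℂ) ⟶ (W k).toScheme),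
        h z = m ≫ GlueW.c (compl i) W hW k := by
      intro z
      obtain ⟨k, x, hx⟩ := GlueW.c_surj (compl i) W hW (pt (h z))
      have h4 : Set.range (h z) ⊆ Set.range (GlueW.c (compl i) W hW k) := by
        rw [range_eq]; rintro _ rfl; exact ⟨x, hx⟩
      exact ⟨k, IsOpenImmersion.lift _ _ h4, (IsOpenImmersion.lift_fac _ _ _).symm⟩
    have hU : ∃ z, pt (h z ≫ GlueW.p (compl i) W hW) ∈ compl i := by
      by_contra hcon
      push Not at hcon
      obtain ⟨k, hk⟩ := exists_chart_of_avoid (compl i) W hW hh hcon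
      choose m hm using hk
      have hmf : ∀ z, m z ≫ (W k).ι = h z ≫ GlueW.p (compl i) W hW := by
        intro z
        rw [hm z, Category.assoc, GlueW.c_p]
      have hmT : ∀ z, pt (h z ≫ GlueW.p (compl i) W hW) ∈ T k := by
        intro z
        have h1 : pt (h z ≫ GlueW.p (compl i) W hW) ∈ W k := by
          rw [← hmf z]
          exact (m z (⊥ : PrimeSpectrum ℂ)).2
        rcases h1 with h1 | h1
        · exact absurd h1 (hcon z)
        · exact h1
      have hconst := htame k _ hf hmT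
      apply hne
      rw [hm z₀, hm w₀]
      congr 1
      rw [← cancel_mono (W k).ι, hmf, hmf]
      exact hconst z₀ w₀
    obtain ⟨z₁, hz₁⟩ := hU
    have hnc : ∃ z w, h z ≫ GlueW.p (compl i) W hW ≠ h w ≫ GlueW.p (compl i) W hW := by
      by_contra hcon
      push Not at hcon
      apply hne
      have hall : ∀ z, h z = lft (compl i) (h z₁ ≫ GlueW.p (compl i) W hW) (range_sub hz₁) ≫
          GlueW.c₀ (compl i) W hW := by
        intro z
        obtain ⟨k, m, hm⟩ := hchart z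
        have h1 : m ≫ (W k).ι = h z₁ ≫ GlueW.p (compl i) W hW := by
          rw [← hcon z z₁, hm, Category.assoc, GlueW.c_p]
        have h2 : pt (h z₁ ≫ GlueW.p (compl i) W hW) ∈ W k := hW k hz₁
        rw [← lft_c (compl i) W hW (h z₁ ≫ GlueW.p (compl i) W hW) (range_sub hz₁) k (range_sub h2),
          ← lft_unique (W k) (h z₁ ≫ GlueW.p (compl i) W hW) (range_sub h2) m h1]
        exact hm
      rw [hall z₀, ← hall w₀]
    have h3 := hI _ ⟨hf, hnc⟩ z₁
    rw [mem_compl_iff] at hz₁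
    exact hz₁ h3
  · intro hG f hf z₁
    by_contra hz₁
    obtain ⟨hf, z₀, w₀, hne⟩ := hf
    have hcov : ∀ z, ∃ k, pt (f z) ∈ W k := by
      intro z
      obtain ⟨k, hk⟩ := hT (pt (f z))
      exact ⟨k, Or.inr hk⟩
    choose idx hidx using hcov
    have hiso : ∀ z, pt (f z) ∉ compl i → ∀ᶠ w in 𝓝[≠] z, pt (f w) ∈ compl i := by
      intro z _
      filter_upwards [eventually_not_mem π i f hf ⟨z₁, hz₁⟩ z] with w hw
      rw [mem_compl_iff]; exact hw
    apply hG _ ⟨holo_lift (compl i) W hW hf idx hidx hiso, z₀, w₀, ?_⟩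
    intro heq
    apply hne
    have h1 := congrArg (fun m => m ≫ GlueW.p (compl i) W hW) heq
    simpa using h1

end Pool.Agent.Work.MP_e97a4d_nt.Vp
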