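import Mathlib
import Pool.Agent.Work.MP_e97a4d_nt.VpCurve
import Pool.Agent.Work.MP_e97a4d_nt.SIntDed

set_option autoImplicit false

noncomputable section

namespace Pool.Agent.Work.MP_e97a4d_nt.Vp

open AlgebraicGeometry CategoryTheory CategoryTheory.Limits IsDedekindDomain NumberField
open scoped Topology

variable {V : Scheme.{0}} (U : V.Opens) {ι : Type} (W : ι → V.Opens) (hW : ∀ i, U ≤ W i)

/-- Existence of lifts to the glued scheme. -/
theorem exists_lift {X : Scheme.{0}} (x : X ⟶ V) (idx : X → ι) (hidx : ∀ v, x v ∈ W (idx v))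
    (hfin : {v | x v ∉ U}.Finite) (hcl : ∀ v, x v ∉ U → IsClosed ({v} : Set X)) :
    ∃ a : X ⟶ GlueW.G U W hW, a ≫ GlueW.p U W hW = x := by
  classical
  have hclosed : ∀ i, IsClosed {v | x v ∉ U ∧ idx v ≠ i} := by
    intro i
    have h1 : {v | x v ∉ U ∧ idx v ≠ i} = ⋃ v ∈ {v | x v ∉ U ∧ idx v ≠ i}, ({v} : Set X) :=
      (Set.biUnion_of_singleton _).symm
    rw [h1]
    exact (hfin.subset (fun v hv => hv.1)).isClosed_biUnion (fun v hv => hcl v hv.1)
  let O : ι → X.Opens := fun i =>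
    (x ⁻¹ᵁ (W i)) ⊓ ⟨{v | x v ∉ U ∧ idx v ≠ i}ᶜ, (hclosed i).isOpen_compl⟩
  have hO : TopologicalSpace.IsOpenCover O := by
    rw [TopologicalSpace.IsOpenCover, eq_top_iff]
    intro v _
    rw [TopologicalSpace.Opens.mem_iSup]
    exact ⟨idx v, hidx v, fun h => h.2 rfl⟩
  have hr : ∀ i, Set.range ((O i).ι ≫ x) ⊆ W i := by
    rintro i _ ⟨v, rfl⟩
    have := v.2.1
    rw [Scheme.Hom.comp_apply]
    exact this
  let m : ∀ i, (O i).toScheme ⟶ GlueW.G U W hW := fun i =>
    lft (W i) ((O i).ι ≫ x) (hr i) ≫ GlueW.c U W hW i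
  let 𝒰 : X.OpenCover := X.openCoverOfIsOpenCover O hO
  have hcompat : ∀ i j : ι, pullback.fst (O i).ι (O j).ι ≫ m i = pullback.snd (O i).ι (O j).ι ≫ m j := by
    intro i j
    by_cases hij : i = j
    · subst hij
      rw [fst_eq_snd_of_mono_eq]
    · have h1 : Set.range (pullback.fst (O i).ι (O j).ι ≫ (O i).ι ≫ x) ⊆ U := by
        rintro _ ⟨t, rfl⟩
        by_contra hU
        have hU' : x ((O i).ι (pullback.fst (O i).ι (O j).ι t)) ∉ U := by
          rw [Scheme.Hom.comp_apply, Scheme.Hom.comp_apply] at hU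
          exact hU
        have hi := (pullback.fst (O i).ι (O j).ι t).2.2
        have hj := (pullback.snd (O i).ι (O j).ι t).2.2
        have heq : (O i).ι (pullback.fst (O i).ι (O j).ι t) =
            (O j).ι (pullback.snd (O i).ι (O j).ι t) := by
          rw [← Scheme.Hom.comp_apply, ← Scheme.Hom.comp_apply, pullback.condition]
        have hi' : ¬ (x ((O i).ι (pullback.fst (O i).ι (O j).ι t)) ∉ U ∧
            idx ((O i).ι (pullback.fst (O i).ι (O j).ι t)) ≠ i) := hi
        have hj' : ¬ (x ((O j).ι (pullback.snd (O i).ι (O j).ι t)) ∉ U ∧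
            idx ((O j).ι (pullback.snd (O i).ι (O j).ι t)) ≠ j) := hj
        rw [← heq] at hj'
        apply hij
        by_contra hne
        apply hj'
        refine ⟨hU', fun h => ?_⟩
        apply hi'
        exact ⟨hU', fun h' => hne (h'.symm.trans h)⟩
      have h2 : ∀ k, Set.range (pullback.fst (O i).ι (O j).ι ≫ (O i).ι ≫ x) ⊆ W k :=
        fun k => h1.trans (hW k)
      have hi : pullback.fst (O i).ι (O j).ι ≫ m i =
          lft (W i) (pullback.fst (O i).ι (O j).ι ≫ (O i).ι ≫ x) (h2 i) ≫ GlueW.c U W hW i := by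
        show pullback.fst (O i).ι (O j).ι ≫ lft (W i) ((O i).ι ≫ x) (hr i) ≫ GlueW.c U W hW i = _
        rw [← Category.assoc]
        congr 1
        apply lft_unique
        rw [Category.assoc, lft_ι]
      have hj : pullback.snd (O i).ι (O j).ι ≫ m j =
          lft (W j) (pullback.fst (O i).ι (O j).ι ≫ (O i).ι ≫ x) (h2 j) ≫ GlueW.c U W hW j := by
        show pullback.snd (O i).ι (O j).ι ≫ lft (W j) ((O j).ι ≫ x) (hr j) ≫ GlueW.c U W hW j = _
        rw [← Category.assoc]
        congr 1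
        apply lft_unique
        rw [Category.assoc, lft_ι, ← Category.assoc, ← pullback.condition, Category.assoc]
      rw [hi, hj, lft_c U W hW _ h1, lft_c U W hW _ h1]
  refine ⟨𝒰.glueMorphisms m hcompat, ?_⟩
  have h4 : ∀ k : ι, (lft (W k) ((O k).ι ≫ x) (hr k) ≫ GlueW.c U W hW k) ≫ GlueW.p U W hW =
      (O k).ι ≫ x := by
    intro k
    rw [Category.assoc, GlueW.c_p, lft_ι]
  refine Scheme.Cover.hom_ext 𝒰 _ _ fun i => ?_
  have h3 := Scheme.Cover.ι_glueMorphisms 𝒰 m hcompat i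
  refine (Category.assoc _ _ _).symm.trans
    ((congrArg (fun t => t ≫ GlueW.p U W hW) h3).trans (h4 i))

/-- Uniqueness of lifts with given sheets. -/
theorem lifts_eq [Nonempty ι] {X : Scheme.{0}} (x : X ⟶ V) (a b : X ⟶ GlueW.G U W hW)
    (ha : a ≫ GlueW.p U W hW = x) (hb : b ≫ GlueW.p U W hW = x)
    (h : ∀ v, x v ∉ U → ∀ i, a v ∈ (GlueW.c U W hW i).opensRange →
      b v ∈ (GlueW.c U W hW i).opensRange) : a = b := by
  refine Scheme.hom_ext_of_forall a b fun v => ?_
  obtain ⟨i, y, hy⟩ := GlueW.c_surj U W hW (a v)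
  have ha' : a v ∈ (GlueW.c U W hW i).opensRange := ⟨y, hy⟩
  have hb' : b v ∈ (GlueW.c U W hW i).opensRange := by
    by_cases hv : x v ∈ U
    · obtain ⟨j, y', hy'⟩ := GlueW.c_surj U W hW (b v)
      have h1 : (W j).ι y' = x v := by
        rw [← hb, ← GlueW.c_p U W hW j, Scheme.Hom.comp_apply, Scheme.Hom.comp_apply, hy']
      let u : U.toScheme := ⟨x v, hv⟩
      have h2 : y' = V.homOfLE (hW j) u := by
        apply (W j).ι.isOpenEmbedding.injective
        rw [h1, ← Scheme.Hom.comp_apply, Scheme.homOfLE_ι]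
        rfl
      refine ⟨V.homOfLE (hW i) u, ?_⟩
      rw [← hy', h2, ← Scheme.Hom.comp_apply, ← Scheme.Hom.comp_apply, GlueW.homOfLE_c,
        GlueW.homOfLE_c]
    · exact h v hv i ha'
  refine ⟨(a ⁻¹ᵁ (GlueW.c U W hW i).opensRange) ⊓ (b ⁻¹ᵁ (GlueW.c U W hW i).opensRange),
    ⟨ha', hb'⟩, ?_⟩
  set N : X.Opens := (a ⁻¹ᵁ (GlueW.c U W hW i).opensRange) ⊓ (b ⁻¹ᵁ (GlueW.c U W hW i).opensRange)
  have hNa : Set.range (N.ι ≫ a) ⊆ Set.range (GlueW.c U W hW i) := by
    rintro _ ⟨t, rfl⟩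
    rw [Scheme.Hom.comp_apply]
    exact t.2.1
  have hNb : Set.range (N.ι ≫ b) ⊆ Set.range (GlueW.c U W hW i) := by
    rintro _ ⟨t, rfl⟩
    rw [Scheme.Hom.comp_apply]
    exact t.2.2
  rw [← IsOpenImmersion.lift_fac (GlueW.c U W hW i) (N.ι ≫ a) hNa,
    ← IsOpenImmersion.lift_fac (GlueW.c U W hW i) (N.ι ≫ b) hNb]
  congr 1
  rw [← cancel_mono (W i).ι, ← GlueW.c_p U W hW i, ← Category.assoc, ← Category.assoc,
    IsOpenImmersion.lift_fac, IsOpenImmersion.lift_fac, Category.assoc, Category.assoc, ha, hb]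

/-- Finiteness of the set of lifts. -/
theorem finite_lifts [Nonempty ι] [Finite ι] {X : Scheme.{0}} (x : X ⟶ V)
    (hfin : {v | x v ∉ U}.Finite) :
    {a : X ⟶ GlueW.G U W hW | a ≫ GlueW.p U W hW = x}.Finite := by
  classical
  have hex : ∀ (a : X ⟶ GlueW.G U W hW) (v : X), ∃ i, a v ∈ (GlueW.c U W hW i).opensRange := by
    intro a v
    obtain ⟨i, y, hy⟩ := GlueW.c_surj U W hW (a v)
    exact ⟨i, y, hy⟩
  choose idx hidx using hex
  have huniq : ∀ (a : X ⟶ GlueW.G U W hW), a ≫ GlueW.p U W hW = x → ∀ v, x v ∉ U → ∀ i,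
      a v ∈ (GlueW.c U W hW i).opensRange → i = idx a v := by
    intro a ha v hv i hi
    by_contra hne
    obtain ⟨y, hy⟩ := hi
    obtain ⟨y', hy'⟩ := hidx a v
    have h2 := GlueW.c_eq U W hW hne (hy.trans hy'.symm)
    apply hv
    have h3 : x v = (W i).ι y := by
      rw [← ha, ← GlueW.c_p U W hW i, Scheme.Hom.comp_apply, Scheme.Hom.comp_apply]
      congr 1
      exact hy.symm
    rw [h3]; exact h2
  have : Finite {v | x v ∉ U} := hfin
  let Φ : {a : X ⟶ GlueW.G U W hW | a ≫ GlueW.p U W hW = x} → ({v | x v ∉ U} → ι) :=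
    fun a v => idx a.1 v.1
  have hΦ : Function.Injective Φ := by
    rintro ⟨a, ha⟩ ⟨b, hb⟩ hab
    apply Subtype.ext
    refine lifts_eq U W hW x a b ha hb fun v hv i hi => ?_
    have h1 : idx a v = idx b v := congrFun hab ⟨v, hv⟩
    have h2 := huniq a ha v hv i hi
    rw [h2, h1]
    exact hidx b v
  have := Finite.of_injective Φ hΦ
  exact Set.toFinite _

/-- A morphism from a connected scheme that avoids `U` stays in one chart. -/
theorem exists_chart_of_avoid' [Nonempty ι] {X : Scheme.{0}} [PreconnectedSpace X] [Nonempty X]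
    (a : X ⟶ GlueW.G U W hW) (h : ∀ v, GlueW.p U W hW (a v) ∉ U) :
    ∃ (i : ι) (m : X ⟶ (W i).toScheme), a = m ≫ GlueW.c U W hW i := by
  classical
  have hex : ∀ v : X, ∃ i, a v ∈ (GlueW.c U W hW i).opensRange := by
    intro v
    obtain ⟨i, y, hy⟩ := GlueW.c_surj U W hW (a v)
    exact ⟨i, y, hy⟩
  choose idx hidx using hex
  have huniq : ∀ v i, a v ∈ (GlueW.c U W hW i).opensRange → i = idx v := by
    intro v i hi
    by_contra hne
    obtain ⟨y, hy⟩ := hi
    obtain ⟨y', hy'⟩ := hidx v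
    have h2 := GlueW.c_eq U W hW hne (hy.trans hy'.symm)
    apply h v
    have h3 : GlueW.p U W hW (a v) = (W i).ι y := by
      rw [← GlueW.c_p U W hW i, Scheme.Hom.comp_apply]
      congr 1
      exact hy.symm
    rw [h3]; exact h2
  have hloc : IsLocallyConstant idx := by
    rw [IsLocallyConstant.iff_eventually_eq]
    intro v
    filter_upwards [(a ⁻¹ᵁ (GlueW.c U W hW (idx v)).opensRange).isOpen.mem_nhds (hidx v)] with w hw
    exact (huniq w _ hw).symm
  obtain ⟨v₀⟩ := ‹Nonempty X›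
  have h4 : Set.range a ⊆ Set.range (GlueW.c U W hW (idx v₀)) := by
    rintro _ ⟨v, rfl⟩
    have h5 : idx v = idx v₀ := hloc.apply_eq_of_preconnectedSpace v v₀
    rw [← h5]
    exact hidx v
  exact ⟨idx v₀, IsOpenImmersion.lift _ _ h4, (IsOpenImmersion.lift_fac _ _ _).symm⟩

theorem factors_iff_generic {V V' : Scheme.{0}} (i : V' ⟶ V) [IsClosedImmersion i]
    {R : Type} [CommRing R] [IsDomain R] (x : Spec (CommRingCat.of R) ⟶ V) :
    (∃ y : Spec (CommRingCat.of R) ⟶ V', y ≫ i = x) ↔ x (⊥ : PrimeSpectrum R) ∈ Set.range i := by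
  constructor
  · rintro ⟨y, rfl⟩
    exact ⟨y (⊥ : PrimeSpectrum R), rfl⟩
  · intro h
    let φ : CommRingCat.of R ⟶ CommRingCat.of (FractionRing R) :=
      CommRingCat.ofHom (algebraMap R (FractionRing R))
    have hφ : Function.Injective φ.hom := IsFractionRing.injective R (FractionRing R)
    apply factors_of_injective i x φ hφ
    rw [factors_iff_mem_range]
    have h1 : (Spec.map φ ≫ x) (⊥ : PrimeSpectrum (FractionRing R)) = x (⊥ : PrimeSpectrum R) := by
      change x (Spec.map φ (⊥ : PrimeSpectrum (FractionRing R))) = _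
      congr 1
      apply PrimeSpectrum.ext
      change Ideal.comap φ.hom ⊥ = ⊥
      exact (RingHom.injective_iff_ker_eq_bot _).1 hφ
    rw [h1]; exact h

variable {F₀ : Type} [Field F₀]

/-- `T` contains only finitely many integral points. -/
def Tame2 (π : V ⟶ Spec (CommRingCat.of (𝓞 F₀))) (T : V.Opens) : Prop :=
  ∀ (F : Type) [Field F] [NumberField F] [Algebra F₀ F] (S : Finset (HeightOneSpectrum (𝓞 F))),
    {x ∈ integralPoints π F S | Set.range x ⊆ T}.Finite

theorem int_iff [Nonempty ι] [Finite ι] {V V' : Scheme.{0}} (π : V ⟶ Spec (CommRingCat.of (𝓞 F₀)))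
    (i : V' ⟶ V) [IsClosedImmersion i] (T : ι → V.Opens) (hT : ∀ x : V, ∃ k, x ∈ T k)
    (htame : ∀ k, Tame2 π (T k)) (hW : ∀ k, compl i ≤ compl i ⊔ T k) :
    CondII π i ↔ ∀ (F : Type) [Field F] [NumberField F] [Algebra F₀ F]
      (S : Finset (HeightOneSpectrum (𝓞 F))),
      (integralPoints (GlueW.p (compl i) (fun k => compl i ⊔ T k) hW ≫ π) F S).Finite := by
  classical
  set W : ι → V.Opens := fun k => compl i ⊔ T k with hWdef
  have hB : ∀ (F : Type) [Field F] [NumberField F] (S : Finset (HeightOneSpectrum (𝓞 F)))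
      (x : Spec (CommRingCat.of (SInt F S)) ⟶ V),
      (¬ ∃ y : Spec (CommRingCat.of (SInt F S)) ⟶ V', y ≫ i = x) →
      {v | x v ∉ compl i}.Finite ∧ ∀ v, x v ∉ compl i → IsClosed ({v} : Set (PrimeSpectrum (SInt F S))) := by
    intro F _ _ S x hx
    rw [factors_iff_generic] at hx
    have h1 : (⊥ : PrimeSpectrum (SInt F S)) ∉ {v | x v ∉ compl i} := fun h => h hx
    refine ⟨finite_of_isClosed _ ?_ h1, ?_⟩
    · exact ((compl i).isOpen.preimage x.continuous).isClosed_compl
    · intro v hv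
      apply isClosed_singleton_of_ne
      rintro rfl
      exact h1 hv
  constructor
  · intro hII F _ _ _ S
    have h1 := hII F S
    have h2 : (⋃ x ∈ {x ∈ integralPoints π F S |
        ¬ ∃ y : Spec (CommRingCat.of (SInt F S)) ⟶ V', y ≫ i = x},
        {a : Spec (CommRingCat.of (SInt F S)) ⟶ GlueW.G (compl i) W hW |
          a ≫ GlueW.p (compl i) W hW = x}).Finite := by
      refine h1.biUnion fun x hx => ?_
      exact finite_lifts (compl i) W hW x (hB F S x hx.2).1
    have h3 : (⋃ k : ι, {a : Spec (CommRingCat.of (SInt F S)) ⟶ GlueW.G (compl i) W hW |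
        ∃ (h : Set.range (a ≫ GlueW.p (compl i) W hW) ⊆ W k),
          a = lft (W k) (a ≫ GlueW.p (compl i) W hW) h ≫ GlueW.c (compl i) W hW k ∧
          a ≫ GlueW.p (compl i) W hW ∈ {x ∈ integralPoints π F S | Set.range x ⊆ T k}}).Finite := by
      refine Set.finite_iUnion fun k => ?_
      refine Set.Finite.of_finite_image (f := fun a => a ≫ GlueW.p (compl i) W hW)
        ((htame k F S).subset ?_) ?_
      · rintro _ ⟨a, ⟨_, _, ha⟩, rfl⟩
        exact ha
      · rintro a ⟨ha, ha', _⟩ b ⟨hb, hb', _⟩ hab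
        have hab' : a ≫ GlueW.p (compl i) W hW = b ≫ GlueW.p (compl i) W hW := hab
        rw [ha', hb']
        congr 1
        apply lft_unique
        rw [lft_ι, hab']
    refine (h2.union h3).subset ?_
    intro a ha
    by_cases hx : ∃ y : Spec (CommRingCat.of (SInt F S)) ⟶ V', y ≫ i = a ≫ GlueW.p (compl i) W hW
    · right
      have h4 : ∀ v, GlueW.p (compl i) W hW (a v) ∉ compl i := by
        intro v
        obtain ⟨y, hy⟩ := hx
        have h5 : GlueW.p (compl i) W hW (a v) = i (y v) := by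
          rw [← Scheme.Hom.comp_apply, ← Scheme.Hom.comp_apply, hy]
        rw [h5]
        exact fun h => h ⟨_, rfl⟩
      have : PreconnectedSpace (Spec (CommRingCat.of (SInt F S))) :=
        inferInstanceAs (PreconnectedSpace (PrimeSpectrum (SInt F S)))
      have : Nonempty (Spec (CommRingCat.of (SInt F S))) :=
        inferInstanceAs (Nonempty (PrimeSpectrum (SInt F S)))
      obtain ⟨k, m, hm⟩ := exists_chart_of_avoid' (compl i) W hW a h4
      have h6 : m ≫ (W k).ι = a ≫ GlueW.p (compl i) W hW := by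
        rw [hm, Category.assoc, GlueW.c_p]
      have h7 : Set.range (a ≫ GlueW.p (compl i) W hW) ⊆ W k := by
        rw [← h6]
        rintro _ ⟨v, rfl⟩
        rw [Scheme.Hom.comp_apply]
        exact (m v).2
      refine Set.mem_iUnion.2 ⟨k, h7, ?_, ?_, ?_⟩
      · rw [← lft_unique (W k) _ h7 m h6]
        exact hm
      · show (a ≫ GlueW.p (compl i) W hW) ≫ π = _
        rw [Category.assoc]; exact ha
      · rintro _ ⟨v, rfl⟩
        have h8 : (a ≫ GlueW.p (compl i) W hW) v ∈ W k := h7 ⟨v, rfl⟩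
        rcases h8 with h8 | h8
        · exact absurd h8 (h4 v)
        · exact h8
    · left
      refine Set.mem_biUnion (x := a ≫ GlueW.p (compl i) W hW) ⟨?_, hx⟩ rfl
      show (a ≫ GlueW.p (compl i) W hW) ≫ π = _
      rw [Category.assoc]; exact ha
  · intro hG F _ _ _ S
    refine ((hG F S).image (fun a => a ≫ GlueW.p (compl i) W hW)).subset ?_
    rintro x ⟨hx, hx'⟩
    obtain ⟨h1, h2⟩ := hB F S x hx'
    choose idx hidx using fun v => hT (x v)
    obtain ⟨a, ha⟩ := exists_lift (compl i) W hW x idx (fun v => Or.inr (hidx v)) h1 h2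
    refine ⟨a, ?_, ha⟩
    show a ≫ GlueW.p (compl i) W hW ≫ π = _
    rw [← Category.assoc, ha]
    exact hx

end Pool.Agent.Work.MP_e97a4d_nt.Vp
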