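import Mathlib
import Pool.Agent.Work.MP_e97a4d_nt.VpInt
import Pool.Agent.Work.MP_e97a4d_nt.Picard

set_option autoImplicit false

noncomputable section

namespace Pool.Agent.Work.MP_e97a4d_nt.Vp

open AlgebraicGeometry CategoryTheory CategoryTheory.Limits IsDedekindDomain NumberField
open scoped Topology

variable {F₀ : Type} [Field F₀] {σ : F₀ →+* ℂ}

theorem picard_two (u : ℂ → ℂ) (hu : Differentiable ℂ u) (α β : ℂ) (hαβ : α ≠ β)
    (h : ∀ z, u z ≠ α ∧ u z ≠ β) (z w : ℂ) : u z = u w := by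
  have hne : β - α ≠ 0 := sub_ne_zero.2 hαβ.symm
  have h1 := Picard.little_picard (fun z => (2 * u z - α - β) / (β - α)) (by fun_prop) ?_ ?_ z w
  · rw [div_left_inj' hne] at h1
    linear_combination h1 / 2
  · intro z hz
    rw [div_eq_one_iff_eq hne] at hz
    apply (h z).2
    linear_combination hz / 2
  · intro z hz
    rw [div_eq_iff hne] at hz
    apply (h z).1
    linear_combination hz / 2

theorem const_of_unit₁ (u : ℂ → ℂ) (hu : Differentiable ℂ u) (h : ∀ z, u z ^ 2 + u z ≠ 0)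
    (z w : ℂ) : u z = u w := by
  refine picard_two u hu 0 (-1) (by norm_num) (fun z => ⟨fun h0 => h z ?_, fun h0 => h z ?_⟩) z w
  · rw [h0]; ring
  · rw [h0]; ring

theorem const_of_unit₂ (u : ℂ → ℂ) (hu : Differentiable ℂ u) (h : ∀ z, u z ^ 2 + u z + 1 ≠ 0)
    (z w : ℂ) : u z = u w := by
  obtain ⟨α, hα⟩ : ∃ α : ℂ, α ^ 2 + α + 1 = 0 := by
    obtain ⟨s, hs⟩ := IsSquare.pow (n := 1) (IsAlgClosed.exists_pow_nat_eq (-3 : ℂ) (n := 2) two_pos |>.imp
      (fun s hs => (hs.symm.trans (pow_two s))) : IsSquare (-3 : ℂ))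
    refine ⟨(-1 + s) / 2, ?_⟩
    rw [pow_one] at hs
    linear_combination -hs / 4
  refine picard_two u hu α (-1 - α) ?_ (fun z => ⟨fun h0 => h z ?_, fun h0 => h z ?_⟩) z w
  · intro h0
    have h1 : α = -1 / 2 := by linear_combination h0 / 2
    rw [h1] at hα
    norm_num at hα
  · rw [h0]; exact hα
  · rw [h0]; linear_combination hα

/-- Coordinates of a holomorphic map into an affine open. -/
theorem exists_coords {V : Scheme.{0}} {π : V ⟶ Spec (CommRingCat.of (𝓞 F₀))}
    {f : ℂ → (Spec (CommRingCat.of ℂ) ⟶ V)} (hf : IsHolomorphicMap σ π f)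
    {A : CommRingCat.{0}} (j : Spec A ⟶ V) [IsOpenImmersion j]
    (hr : ∀ z, pt (f z) ∈ j.opensRange) :
    ∃ φ : ℂ → (A →+* ℂ), (∀ z, f z = Spec.map (CommRingCat.ofHom (φ z)) ≫ j) ∧
      ∀ a : A, Differentiable ℂ (fun z => φ z a) := by
  have h1 : ∀ z, ∃ φ : A →+* ℂ, f z = Spec.map (CommRingCat.ofHom φ) ≫ j := by
    intro z
    have h2 : Set.range (f z) ⊆ Set.range j := by
      rw [range_eq]; rintro _ rfl; exact hr z
    obtain ⟨θ, hθ⟩ := Spec.map_surjective (IsOpenImmersion.lift j (f z) h2)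
    refine ⟨θ.hom, ?_⟩
    rw [CommRingCat.ofHom_hom, hθ, IsOpenImmersion.lift_fac]
  choose φ hφ using h1
  refine ⟨φ, hφ, fun a z => ?_⟩
  obtain ⟨A', j', g, D, hj', hD, hz, hfg, hhol, hO⟩ := exists_chart_in hf z j.opensRange (hr z)
  have hO' : Set.range j' ⊆ Set.range j := hO
  obtain ⟨θ, hθ⟩ := Spec.map_surjective (IsOpenImmersion.lift j j' hO')
  have hθ' : Spec.map θ ≫ j = j' := by rw [hθ, IsOpenImmersion.lift_fac]
  have h3 : ∀ w ∈ D, φ w a = g w (θ.hom a) := by
    intro w hw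
    have h4 : φ w = (g w).comp θ.hom := by
      apply Spec_map_comp_inj j
      rw [← hφ w, hfg w hw, ← hθ', ← Category.assoc, ← Spec.map_comp]
      rfl
    rw [h4]; rfl
  have h5 : DifferentiableAt ℂ (fun w => g w (θ.hom a)) z :=
    (hhol (θ.hom a)).differentiableAt (hD.mem_nhds hz)
  refine h5.congr_of_eventuallyEq ?_
  filter_upwards [hD.mem_nhds hz] with w hw
  exact h3 w hw

/-- Finiteness of the values at which the two test polynomials are units. -/
def PolyFin (F₀ : Type) [Field F₀] : Prop :=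
  ∀ (F : Type) [Field F] [NumberField F] [Algebra F₀ F] (S : Finset (HeightOneSpectrum (𝓞 F))),
    {t : SInt F S | IsUnit (t ^ 2 + t)}.Finite ∧ {t : SInt F S | IsUnit (t ^ 2 + t + 1)}.Finite

theorem hom_ext_of_adjoin {R A B : Type} [CommRing R] [CommRing A] [CommRing B] (α : R →+* A)
    (s : Finset A) (hs : ∀ x : A, x ∈ @Algebra.adjoin R A _ _ α.toAlgebra (s : Set A))
    (φ ψ : A →+* B) (h : φ.comp α = ψ.comp α) (hs' : ∀ a ∈ s, φ a = ψ a) : φ = ψ := by
  let _ : Algebra R A := α.toAlgebra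
  ext x
  refine Algebra.adjoin_induction (p := fun x _ => φ x = ψ x) ?_ ?_ ?_ ?_ (hs x)
  · intro x hx; exact hs' x hx
  · intro r; exact RingHom.congr_fun h r
  · intro x y _ _ hx hy; rw [map_add, map_add, hx, hy]
  · intro x y _ _ hx hy; rw [map_mul, map_mul, hx, hy]

theorem exists_tame {V : Scheme.{0}} (π : V ⟶ Spec (CommRingCat.of (𝓞 F₀)))
    [LocallyOfFiniteType π] (hfin : PolyFin F₀) (v : V) :
    ∃ T : V.Opens, v ∈ T ∧ Tame1 σ π T ∧ Tame2 π T := by
  classical
  obtain ⟨U₀, hU₀, hv, -⟩ := exists_isAffineOpen_mem_and_subset (X := V) (x := v) (U := ⊤) trivial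
  set A := Γ(V, U₀) with hA
  let j : Spec A ⟶ V := hU₀.fromSpec
  have hvr : v ∈ Set.range j := by
    show v ∈ Set.range hU₀.fromSpec
    rw [hU₀.range_fromSpec]; exact hv
  obtain ⟨P₀, hP₀⟩ := hvr
  obtain ⟨α', hα'⟩ := Spec.map_surjective (j ≫ π)
  let α : 𝓞 F₀ →+* A := α'.hom
  have hα : j ≫ π = Spec.map (CommRingCat.ofHom α) := hα'.symm
  have hft : LocallyOfFiniteType (Spec.map (CommRingCat.ofHom α)) := by
    rw [← hα]; infer_instance
  have hft' : α.FiniteType := by
    rw [HasRingHomProperty.Spec_iff (P := @LocallyOfFiniteType)] at hft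
    exact hft
  let _ : Algebra (𝓞 F₀) A := α.toAlgebra
  have hft'' : Algebra.FiniteType (𝓞 F₀) A := hft'
  obtain ⟨s, hs⟩ := hft''.out
  have hs' : ∀ x : A, x ∈ Algebra.adjoin (𝓞 F₀) (s : Set A) := fun x => by rw [hs]; trivial
  let q : A → A := fun a => if a ^ 2 + a ∉ P₀.asIdeal then a ^ 2 + a else a ^ 2 + a + 1
  have hq : ∀ a, q a ∉ P₀.asIdeal := by
    intro a
    by_cases h : a ^ 2 + a ∈ P₀.asIdeal
    · have h1 : q a = a ^ 2 + a + 1 := if_neg (not_not.2 h)
      rw [h1]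
      intro h2
      apply P₀.2.ne_top
      rw [Ideal.eq_top_iff_one]
      have := P₀.asIdeal.sub_mem h2 h
      simpa using this
    · have h1 : q a = a ^ 2 + a := if_pos h
      rw [h1]; exact h
  let b : A := ∏ a ∈ s, q a
  have hb : b ∉ P₀.asIdeal := by
    intro h
    have hprime : P₀.asIdeal.IsPrime := P₀.2
    obtain ⟨a, -, ha⟩ := (Ideal.IsPrime.prod_mem_iff (p := P₀.asIdeal)).1 h
    exact hq a ha
  have hdvd : ∀ a ∈ s, q a ∣ b := fun a ha => Finset.dvd_prod_of_mem _ ha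
  let T : V.Opens := j ''ᵁ (PrimeSpectrum.basicOpen b)
  have hT : ∀ P : PrimeSpectrum A, j P ∈ T → b ∉ P.asIdeal := by
    rintro P ⟨P', hP', h⟩
    have h1 : P' = P := j.isOpenEmbedding.injective h
    rw [← h1]; exact hP'
  have hTj : (T : Set V) ⊆ Set.range j := by
    rintro _ ⟨P, _, rfl⟩; exact ⟨P, rfl⟩
  refine ⟨T, ⟨P₀, hb, hP₀⟩, ?_, ?_⟩
  · intro f hf hfT z w
    obtain ⟨φ, hφ, hdiff⟩ := exists_coords hf j (fun z => hTj (hfT z))
    have hφb : ∀ z, φ z b ≠ 0 := by
      intro z h0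
      have h1 : j (PrimeSpectrum.comap (φ z) ⊥) ∈ T := by
        have h2 := hfT z
        rw [hφ z] at h2
        exact h2
      apply hT _ h1
      change φ z b ∈ (⊥ : Ideal ℂ)
      rw [h0]; exact zero_mem _
    have hφq : ∀ a ∈ s, ∀ z, φ z (q a) ≠ 0 := by
      intro a ha z h0
      obtain ⟨c, hc⟩ := hdvd a ha
      apply hφb z
      rw [hc, map_mul, h0, zero_mul]
    have hconst : ∀ a ∈ s, φ z a = φ w a := by
      intro a ha
      by_cases h : a ^ 2 + a ∈ P₀.asIdeal
      · have h1 : q a = a ^ 2 + a + 1 := if_neg (not_not.2 h)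
        refine const_of_unit₂ (fun z => φ z a) (hdiff a) (fun z => ?_) z w
        have := hφq a ha z
        rw [h1] at this
        simpa using this
      · have h1 : q a = a ^ 2 + a := if_pos h
        refine const_of_unit₁ (fun z => φ z a) (hdiff a) (fun z => ?_) z w
        have := hφq a ha z
        rw [h1] at this
        simpa using this
    have hstr : ∀ z, (φ z).comp α = σ.comp (algebraMap (𝓞 F₀) F₀) := by
      intro z
      have h1 := hf.structural z
      rw [hφ z, Category.assoc, hα, ← Spec.map_comp] at h1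
      have h2 := congrArg CommRingCat.Hom.hom (Spec.map_injective h1)
      exact h2
    have h3 : φ z = φ w := hom_ext_of_adjoin α s hs' _ _ (by rw [hstr, hstr]) hconst
    rw [hφ z, hφ w, h3]
  · intro F _ _ _ S
    let E : Set (SInt F S) := {t | IsUnit (t ^ 2 + t)} ∪ {t | IsUnit (t ^ 2 + t + 1)}
    have hE : E.Finite := (hfin F S).1.union (hfin F S).2
    let H : Set (A →+* SInt F S) := {φ | φ.comp α = structHom F₀ F S ∧ ∀ a ∈ s, φ a ∈ E}
    have hH : H.Finite := by
      refine Set.Finite.of_finite_image (f := fun φ (a : s) => φ (a : A))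
        ((Set.Finite.pi' (fun _ : s => hE)).subset ?_) ?_
      · rintro _ ⟨φ, hφ, rfl⟩ a
        exact hφ.2 a a.2
      · rintro φ hφ ψ hψ h
        exact hom_ext_of_adjoin α s hs' _ _ (by rw [hφ.1, hψ.1]) (fun a ha => congrFun h ⟨a, ha⟩)
    refine (hH.image (fun φ => Spec.map (CommRingCat.ofHom φ) ≫ j)).subset ?_
    rintro x ⟨hx, hxT⟩
    obtain ⟨θ, hθ⟩ := Spec.map_surjective (IsOpenImmersion.lift j x (hxT.trans hTj))
    have hx' : x = Spec.map (CommRingCat.ofHom θ.hom) ≫ j := by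
      rw [CommRingCat.ofHom_hom, hθ, IsOpenImmersion.lift_fac]
    refine ⟨θ.hom, ⟨?_, ?_⟩, hx'.symm⟩
    · have h1 : x ≫ π = Spec.map (CommRingCat.ofHom (structHom F₀ F S)) := hx
      rw [hx', Category.assoc, hα, ← Spec.map_comp] at h1
      exact congrArg CommRingCat.Hom.hom (Spec.map_injective h1)
    · have hunit : IsUnit (θ.hom b) := by
        by_contra hnu
        obtain ⟨M, hM, hbM⟩ := exists_max_ideal_of_mem_nonunits hnu
        let P : PrimeSpectrum (SInt F S) := ⟨M, hM.isPrime⟩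
        have h1 : x P ∈ T := hxT ⟨P, rfl⟩
        rw [hx'] at h1
        exact hT (PrimeSpectrum.comap θ.hom P) h1 hbM
      intro a ha
      obtain ⟨c, hc⟩ := hdvd a ha
      rw [hc, map_mul] at hunit
      have hu := isUnit_of_mul_isUnit_left hunit
      by_cases h : a ^ 2 + a ∈ P₀.asIdeal
      · right
        have h1 : q a = a ^ 2 + a + 1 := if_neg (not_not.2 h)
        rw [h1] at hu
        simpa using hu
      · left
        have h1 : q a = a ^ 2 + a := if_pos h
        rw [h1] at hu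
        simpa using hu

end Pool.Agent.Work.MP_e97a4d_nt.Vp
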