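import Mathlib
import Pool.Agent.Work.MP_e97a4d_nt.VpTame

set_option autoImplicit false

noncomputable section

namespace Pool.Agent.Work.MP_e97a4d_nt.Vp

open AlgebraicGeometry CategoryTheory CategoryTheory.Limits IsDedekindDomain NumberField
open scoped Topology

variable {F₀ : Type} [Field F₀]

/-- The equivalence with empty exceptional set, for schemes of finite type. -/
def EmptyBLV (σ : F₀ →+* ℂ) : Prop :=
  ∀ (V : Scheme.{0}) (π : V ⟶ Spec (CommRingCat.of (𝓞 F₀))) [LocallyOfFiniteType π]
    [QuasiCompact π],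
    (∀ f : ℂ → (Spec (CommRingCat.of ℂ) ⟶ V), ¬ IsEntireCurve σ π f) ↔
    ∀ (F : Type) [Field F] [NumberField F] [Algebra F₀ F] (S : Finset (HeightOneSpectrum (𝓞 F))),
      (integralPoints π F S).Finite

/-- The test curve `q ≠ 0` in the affine line. -/
abbrev Loc (q : Polynomial (𝓞 F₀)) : Type := Localization.Away q

def locStr (q : Polynomial (𝓞 F₀)) : 𝓞 F₀ →+* Loc q :=
  (algebraMap (Polynomial (𝓞 F₀)) (Loc q)).comp Polynomial.C

theorem locStr_finiteType (q : Polynomial (𝓞 F₀)) : (locStr q).FiniteType := by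
  have h1 : (Polynomial.C : 𝓞 F₀ →+* Polynomial (𝓞 F₀)).FiniteType := by
    rw [← Polynomial.algebraMap_eq, RingHom.finiteType_algebraMap]
    infer_instance
  have h2 : (algebraMap (Polynomial (𝓞 F₀)) (Loc q)).FiniteType :=
    RingHom.finiteType_holdsForLocalizationAway _ q
  exact h2.comp h1

theorem loc_hom_ext (q : Polynomial (𝓞 F₀)) {B : Type} [CommRing B] (g g' : Loc q →+* B)
    (h1 : g.comp (locStr q) = g'.comp (locStr q))
    (h2 : g (algebraMap (Polynomial (𝓞 F₀)) _ Polynomial.X) =
      g' (algebraMap (Polynomial (𝓞 F₀)) _ Polynomial.X)) : g = g' := by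
  refine IsLocalization.ringHom_ext (Submonoid.powers q) (Polynomial.ringHom_ext ?_ h2)
  intro r
  exact RingHom.congr_fun h1 r

theorem loc_hom_eval (q : Polynomial (𝓞 F₀)) {B : Type} [CommRing B] (ρ : 𝓞 F₀ →+* B)
    (g : Loc q →+* B) (h1 : g.comp (locStr q) = ρ) :
    g (algebraMap (Polynomial (𝓞 F₀)) _ q) =
      q.eval₂ ρ (g (algebraMap (Polynomial (𝓞 F₀)) _ Polynomial.X)) := by
  have h : g.comp (algebraMap (Polynomial (𝓞 F₀)) (Loc q)) =
      Polynomial.eval₂RingHom ρ (g (algebraMap (Polynomial (𝓞 F₀)) _ Polynomial.X)) := by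
    apply Polynomial.ringHom_ext
    · intro r
      rw [Polynomial.coe_eval₂RingHom, Polynomial.eval₂_C, ← h1]
      rfl
    · rw [Polynomial.coe_eval₂RingHom, Polynomial.eval₂_X]
      rfl
  exact RingHom.congr_fun h q

theorem fin_of_empty (σ : F₀ →+* ℂ) (h : EmptyBLV σ) (q : Polynomial (𝓞 F₀))
    (hq : ∀ u : ℂ → ℂ, Differentiable ℂ u →
      (∀ z, q.eval₂ (σ.comp (algebraMap (𝓞 F₀) F₀)) (u z) ≠ 0) → ∀ z w, u z = u w)
    (F : Type) [Field F] [NumberField F] [Algebra F₀ F] (S : Finset (HeightOneSpectrum (𝓞 F))) :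
    {t : SInt F S | IsUnit (q.eval₂ (structHom F₀ F S) t)}.Finite := by
  let π : Spec (CommRingCat.of (Loc q)) ⟶ Spec (CommRingCat.of (𝓞 F₀)) :=
    Spec.map (CommRingCat.ofHom (locStr q))
  have hft : LocallyOfFiniteType π := by
    rw [HasRingHomProperty.Spec_iff (P := @LocallyOfFiniteType)]
    exact locStr_finiteType q
  have hno : ∀ f : ℂ → (Spec (CommRingCat.of ℂ) ⟶ Spec (CommRingCat.of (Loc q))),
      ¬ IsEntireCurve σ π f := by
    rintro f ⟨hf, z, w, hne⟩
    apply hne
    obtain ⟨φ, hφ, hdiff⟩ := exists_coords hf (𝟙 _) (fun z => ⟨pt (f z), rfl⟩)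
    have hstr : ∀ z, (φ z).comp (locStr q) = σ.comp (algebraMap (𝓞 F₀) F₀) := by
      intro z
      have h1 := hf.structural z
      rw [hφ z, Category.comp_id, ← Spec.map_comp] at h1
      exact congrArg CommRingCat.Hom.hom (Spec.map_injective h1)
    have h2 := hq (fun z => φ z (algebraMap (Polynomial (𝓞 F₀)) _ Polynomial.X)) (hdiff _) ?_ z w
    · have h3 : φ z = φ w := loc_hom_ext q _ _ (by rw [hstr, hstr]) h2
      rw [hφ z, hφ w, h3]
    · intro z
      rw [← loc_hom_eval q _ (φ z) (hstr z)]
      exact ((IsLocalization.Away.algebraMap_isUnit q).map (φ z)).ne_zero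
  have hfin := (h _ π).1 hno F S
  have hlift : ∀ t ∈ {t : SInt F S | IsUnit (q.eval₂ (structHom F₀ F S) t)},
      ∃ g : Loc q →+* SInt F S, g.comp (locStr q) = structHom F₀ F S ∧
        g (algebraMap (Polynomial (𝓞 F₀)) _ Polynomial.X) = t := by
    intro t ht
    have ht' : IsUnit ((Polynomial.eval₂RingHom (structHom F₀ F S) t) q) := ht
    refine ⟨IsLocalization.Away.lift q (g := Polynomial.eval₂RingHom (structHom F₀ F S) t) ht',
      ?_, ?_⟩
    · refine RingHom.ext fun r => ?_
      unfold locStr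
      rw [RingHom.comp_apply, RingHom.comp_apply, IsLocalization.Away.lift_eq,
        Polynomial.coe_eval₂RingHom, Polynomial.eval₂_C]
    · rw [IsLocalization.Away.lift_eq, Polynomial.coe_eval₂RingHom, Polynomial.eval₂_X]
  choose g hg hgX using hlift
  have hfin' : Finite (integralPoints π F S) := hfin.to_subtype
  let Φ : {t : SInt F S | IsUnit (q.eval₂ (structHom F₀ F S) t)} → integralPoints π F S :=
    fun t => ⟨Spec.map (CommRingCat.ofHom (g t.1 t.2)), by
      show Spec.map (CommRingCat.ofHom (g t.1 t.2)) ≫ Spec.map (CommRingCat.ofHom (locStr q)) = _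
      rw [← Spec.map_comp, ← CommRingCat.ofHom_comp, hg t.1 t.2]⟩
  have hΦ : Function.Injective Φ := by
    intro t t' heq
    have h0 : Spec.map (CommRingCat.ofHom (g t.1 t.2)) = Spec.map (CommRingCat.ofHom (g t'.1 t'.2)) :=
      congrArg Subtype.val heq
    have h1 : g t.1 t.2 = g t'.1 t'.2 := congrArg CommRingCat.Hom.hom (Spec.map_injective h0)
    apply Subtype.ext
    rw [← hgX t.1 t.2, ← hgX t'.1 t'.2, h1]
  have := Finite.of_injective Φ hΦ
  exact Set.toFinite _

theorem polyFin_of_empty (σ : F₀ →+* ℂ) (h : EmptyBLV σ) : PolyFin F₀ := by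
  intro F _ _ _ S
  constructor
  · have h1 := fin_of_empty σ h (Polynomial.X ^ 2 + Polynomial.X) ?_ F S
    · simpa [Polynomial.eval₂_add, Polynomial.eval₂_pow] using h1
    · intro u hu hne z w
      refine const_of_unit₁ u hu (fun z => ?_) z w
      simpa [Polynomial.eval₂_add, Polynomial.eval₂_pow] using hne z
  · have h1 := fin_of_empty σ h (Polynomial.X ^ 2 + Polynomial.X + 1) ?_ F S
    · simpa [Polynomial.eval₂_add, Polynomial.eval₂_pow] using h1
    · intro u hu hne z w
      refine const_of_unit₂ u hu (fun z => ?_) z w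
      simpa [Polynomial.eval₂_add, Polynomial.eval₂_pow] using hne z

theorem compactSpace_of [NumberField F₀] {V : Scheme.{0}} (π : V ⟶ Spec (CommRingCat.of (𝓞 F₀)))
    [LocallyOfFiniteType π] [QuasiCompact π] : IsNoetherian V := by
  have h1 : IsLocallyNoetherian V := LocallyOfFiniteType.isLocallyNoetherian π
  have h2 : CompactSpace V := QuasiCompact.compactSpace_of_compactSpace π
  exact { __ := h1, __ := h2 }

set_option backward.isDefEq.respectTransparency.types false in
/-- The glued scheme is of finite type. -/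
theorem glue_finiteType [NumberField F₀] {V : Scheme.{0}} (π : V ⟶ Spec (CommRingCat.of (𝓞 F₀)))
    [LocallyOfFiniteType π] [QuasiCompact π] (U : V.Opens) {ι : Type} [Finite ι] [Nonempty ι]
    (W : ι → V.Opens) (hW : ∀ i, U ≤ W i) :
    LocallyOfFiniteType (GlueW.p U W hW ≫ π) ∧ QuasiCompact (GlueW.p U W hW ≫ π) := by
  have hV := compactSpace_of π
  have hlft : LocallyOfFiniteType (GlueW.p U W hW ≫ π) := by
    refine IsZariskiLocalAtSource.of_openCover (P := @LocallyOfFiniteType)
      (Scheme.IsLocallyDirected.openCover (GlueW.diag U W hW)) fun k => ?_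
    cases k with
    | none =>
      show LocallyOfFiniteType (GlueW.c₀ U W hW ≫ GlueW.p U W hW ≫ π)
      rw [← Category.assoc, GlueW.c₀_p]
      infer_instance
    | some k =>
      show LocallyOfFiniteType (GlueW.c U W hW k ≫ GlueW.p U W hW ≫ π)
      rw [← Category.assoc, GlueW.c_p]
      infer_instance
  have hln : IsLocallyNoetherian (GlueW.G U W hW) :=
    LocallyOfFiniteType.isLocallyNoetherian (GlueW.p U W hW ≫ π)
  have hcomp : CompactSpace (GlueW.G U W hW) := by
    rw [← isCompact_univ_iff]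
    have h1 : (Set.univ : Set (GlueW.G U W hW)) = ⋃ i, Set.range (GlueW.c U W hW i) := by
      symm
      rw [Set.eq_univ_iff_forall]
      intro g
      obtain ⟨i, x, hx⟩ := GlueW.c_surj U W hW g
      exact Set.mem_iUnion.2 ⟨i, x, hx⟩
    rw [h1]
    refine isCompact_iUnion fun i => ?_
    have : CompactSpace (W i).toScheme :=
      isCompact_iff_compactSpace.1 (TopologicalSpace.NoetherianSpace.isCompact (W i : Set V))
    exact isCompact_range (GlueW.c U W hW i).continuous
  have hN : IsNoetherian (GlueW.G U W hW) := { __ := hln, __ := hcomp }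
  exact ⟨hlft, inferInstance⟩

theorem main [NumberField F₀] (σ : F₀ →+* ℂ) :
    (∀ (V V' : Scheme.{0}) (π : V ⟶ Spec (CommRingCat.of (𝓞 F₀))) [LocallyOfFiniteType π]
      [QuasiCompact π] (i : V' ⟶ V) [IsClosedImmersion i], CondI σ π i ↔ CondII π i) ↔
    EmptyBLV σ := by
  constructor
  · intro h V π _ _
    have h1 := h V ∅ π (Scheme.emptyTo V)
    have hE : ∀ {X : Scheme.{0}} [Nonempty X], (X ⟶ (∅ : Scheme.{0})) → False := by
      intro X hX f
      obtain ⟨x⟩ := hX
      exact (f x).elim
    have hI : CondI σ π (Scheme.emptyTo V) ↔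
        ∀ f : ℂ → (Spec (CommRingCat.of ℂ) ⟶ V), ¬ IsEntireCurve σ π f := by
      constructor
      · intro h f hf
        obtain ⟨p, -⟩ := h f hf 0
        have : Nonempty (Spec (CommRingCat.of ℂ)) := inferInstanceAs (Nonempty (PrimeSpectrum ℂ))
        exact hE p
      · intro h f hf
        exact absurd hf (h f)
    have hII : CondII π (Scheme.emptyTo V) ↔ ∀ (F : Type) [Field F] [NumberField F] [Algebra F₀ F]
        (S : Finset (HeightOneSpectrum (𝓞 F))), (integralPoints π F S).Finite := by
      refine forall_congr' fun F => forall_congr' fun _ => forall_congr' fun _ =>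
        forall_congr' fun _ => forall_congr' fun S => ?_
      have h2 : {x ∈ integralPoints π F S |
          ¬ ∃ y : Spec (CommRingCat.of (SInt F S)) ⟶ (∅ : Scheme.{0}), y ≫ Scheme.emptyTo V = x} =
          integralPoints π F S := by
        ext x
        refine ⟨fun h => h.1, fun h => ⟨h, ?_⟩⟩
        rintro ⟨y, -⟩
        have : Nonempty (Spec (CommRingCat.of (SInt F S))) :=
          inferInstanceAs (Nonempty (PrimeSpectrum (SInt F S)))
        exact hE y
      rw [h2]
    rw [← hI, ← hII]
    exact h1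
  · intro h V V' π _ _ i _
    classical
    have hfin := polyFin_of_empty σ h
    -- a finite tame cover
    have hcomp : CompactSpace V := QuasiCompact.compactSpace_of_compactSpace π
    choose T hvT hT1 hT2 using exists_tame (σ := σ) π hfin
    obtain ⟨t, ht⟩ := isCompact_univ.elim_finite_subcover (fun v => (T v : Set V))
      (fun v => (T v).isOpen) (fun v _ => Set.mem_iUnion.2 ⟨v, hvT v⟩)
    -- make the index type nonempty
    let ι : Type := Option t
    let T' : ι → V.Opens := fun o => o.elim ⊥ (fun v => T v)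
    have hT' : ∀ x : V, ∃ k, x ∈ T' k := by
      intro x
      obtain ⟨v, hv⟩ := Set.mem_iUnion.1 (ht (Set.mem_univ x))
      obtain ⟨hvt, hx⟩ := Set.mem_iUnion.1 hv
      exact ⟨some ⟨v, hvt⟩, hx⟩
    have h1 : ∀ k, Tame1 σ π (T' k) := by
      rintro (_ | v)
      · intro f _ hf z w
        exact (hf z).elim
      · exact hT1 v
    have h2 : ∀ k, Tame2 π (T' k) := by
      rintro (_ | v)
      · intro F _ _ _ S
        convert Set.finite_empty
        ext x
        simp only [Set.mem_ofPred_eq, Set.mem_empty_iff_false, iff_false]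
        rintro ⟨-, hx⟩
        exact (hx ⟨(⊥ : PrimeSpectrum (SInt F S)), rfl⟩).elim
      · exact hT2 v
    have hW : ∀ k, compl i ≤ compl i ⊔ T' k := fun k => le_sup_left
    rw [curve_iff π i T' hT' h1 hW, int_iff π i T' hT' h2 hW]
    obtain ⟨h3, h4⟩ := glue_finiteType π (compl i) (fun k => compl i ⊔ T' k) hW
    exact h _ (GlueW.p (compl i) (fun k => compl i ⊔ T' k) hW ≫ π)

end Pool.Agent.Work.MP_e97a4d_nt.Vp
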