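import Mathlib
import Pool.Agent.Work.MP_e97a4d_nt.VpTame
import Pool.Agent.Work.MP_e97a4d_nt.VpMain

set_option autoImplicit false

noncomputable section

namespace Pool.Agent.Work.MP_e97a4d_nt.Vp

open AlgebraicGeometry CategoryTheory CategoryTheory.Limits IsDedekindDomain NumberField
open scoped Topology

variable {F₀ : Type} [Field F₀]

/-- Finiteness for the unit equation. -/
def UFin : Prop :=
  ∀ (F : Type) [Field F] [NumberField F] (S : Finset (HeightOneSpectrum (𝓞 F))) (c : ℤ), c ≠ 0 →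
    {t : SInt F S | IsUnit t ∧ IsUnit (t + c)}.Finite

/-- The three test polynomials. -/
def tst {A : Type} [CommRing A] (e : Fin 3) (a : A) : A :=
  (((e : ℕ) + 1 : ℕ) * a + (if e = 0 then 0 else 1)) *
    (((e : ℕ) + 1 : ℕ) * a + (if e = 0 then 0 else 1) + (if e = 1 then 2 else 1))

theorem tst_map {A B : Type} [CommRing A] [CommRing B] (φ : A →+* B) (e : Fin 3) (a : A) :
    φ (tst e a) = tst e (φ a) := by
  have h2 : φ 2 = 2 := map_ofNat φ 2
  have h3 : φ 3 = 3 := map_ofNat φ 3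
  fin_cases e <;> simp [tst, h2, h3]

theorem exists_tst {A : Type} [CommRing A] (P : Ideal A) (hP : P ≠ ⊤) (a : A) :
    ∃ e, tst e a ∉ P := by
  by_contra h
  push Not at h
  apply hP
  rw [Ideal.eq_top_iff_one]
  have h0 := h 0
  have h1 := h 1
  have h2 := h 2
  have h3 : (1 : A) = tst 1 a - (2 * a ^ 2 + 4 * a + 1) * (tst 2 a - 9 * tst 0 a) := by
    simp [tst]; ring
  rw [h3]
  exact P.sub_mem h1 (P.mul_mem_left _ (P.sub_mem h2 (P.mul_mem_left _ h0)))

theorem const_of_tst (u : ℂ → ℂ) (hu : Differentiable ℂ u) (e : Fin 3) (h : ∀ z, tst e (u z) ≠ 0)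
    (z w : ℂ) : u z = u w := by
  fin_cases e
  · refine picard_two u hu 0 (-1) (by norm_num) (fun z => ⟨fun h0 => h z ?_, fun h0 => h z ?_⟩) z w
    · simp [tst, h0]
    · simp [tst, h0]
  · refine picard_two u hu (-1/2) (-3/2) (by norm_num)
      (fun z => ⟨fun h0 => h z ?_, fun h0 => h z ?_⟩) z w
    · simp [tst, h0]; norm_num
    · simp [tst, h0]; norm_num
  · refine picard_two u hu (-1/3) (-2/3) (by norm_num)
      (fun z => ⟨fun h0 => h z ?_, fun h0 => h z ?_⟩) z w
    · simp [tst, h0]; norm_num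
    · simp [tst, h0]; norm_num

theorem finite_tst (hU : UFin) (F : Type) [Field F] [NumberField F]
    (S : Finset (HeightOneSpectrum (𝓞 F))) (e : Fin 3) : {t : SInt F S | IsUnit (tst e t)}.Finite := by
  have key : ∀ (m : ℕ) (r : SInt F S) (c : ℤ), m ≠ 0 → c ≠ 0 →
      {t : SInt F S | IsUnit (((m : SInt F S) * t + r) * ((m : SInt F S) * t + r + c))}.Finite := by
    intro m r c hm hc
    refine Set.Finite.of_finite_image (f := fun t : SInt F S => (m : SInt F S) * t + r)
      ((hU F S c hc).subset ?_) ?_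
    · rintro _ ⟨t, ht, rfl⟩
      exact ⟨isUnit_of_mul_isUnit_left ht, isUnit_of_mul_isUnit_right ht⟩
    · intro t _ t' _ h
      have h1 : (m : SInt F S) * t = (m : SInt F S) * t' := add_right_cancel h
      have hm' : (m : SInt F S) ≠ 0 := Nat.cast_ne_zero.2 hm
      exact mul_left_cancel₀ hm' h1
  fin_cases e
  · simpa [tst] using key 1 0 1 one_ne_zero one_ne_zero
  · simpa [tst] using key 2 1 2 two_ne_zero two_ne_zero
  · simpa [tst] using key 3 1 1 three_ne_zero one_ne_zero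

theorem exists_tame2 {V : Scheme.{0}} (π : V ⟶ Spec (CommRingCat.of (𝓞 F₀)))
    [LocallyOfFiniteType π] (hU : UFin) (v : V) :
    ∃ T : V.Opens, v ∈ T ∧ (∀ σ : F₀ →+* ℂ, Tame1 σ π T) ∧ Tame2 π T := by
  classical
  obtain ⟨U₀, hU₀, hv, -⟩ := exists_isAffineOpen_mem_and_subset (X := V) (x := v) (U := ⊤) trivial
  set A := Γ(V, U₀) with hA
  let j : Spec A ⟶ V := hU₀.fromSpec
  have hvr : v ∈ Set.range j := by
    show v ∈ Set.range hU₀.fromSpec
    rw [hU₀.range_fromSpec]; exact hv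
  obtain ⟨P₀, hP₀⟩ := hvr
  obtain ⟨α', hα'⟩ := Spec.map_surjective (j ≫ π)
  let α : 𝓞 F₀ →+* A := α'.hom
  have hα : j ≫ π = Spec.map (CommRingCat.ofHom α) := hα'.symm
  have hft : LocallyOfFiniteType (Spec.map (CommRingCat.ofHom α)) := by
    rw [← hα]; infer_instance
  have hft' : α.FiniteType := by
    rw [HasRingHomProperty.Spec_iff (P := @LocallyOfFiniteType)] at hft
    exact hft
  let _ : Algebra (𝓞 F₀) A := α.toAlgebra
  have hft'' : Algebra.FiniteType (𝓞 F₀) A := hft'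
  obtain ⟨s, hs⟩ := hft''.out
  have hs' : ∀ x : A, x ∈ Algebra.adjoin (𝓞 F₀) (s : Set A) := fun x => by rw [hs]; trivial
  choose e he using fun a : A => exists_tst P₀.asIdeal P₀.2.ne_top a
  let q : A → A := fun a => tst (e a) a
  have hq : ∀ a, q a ∉ P₀.asIdeal := he
  let b : A := ∏ a ∈ s, q a
  have hb : b ∉ P₀.asIdeal := by
    intro h
    have hprime : P₀.asIdeal.IsPrime := P₀.2
    obtain ⟨a, -, ha⟩ := (Ideal.IsPrime.prod_mem_iff (p := P₀.asIdeal)).1 h
    exact hq a ha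
  have hdvd : ∀ a ∈ s, q a ∣ b := fun a ha => Finset.dvd_prod_of_mem _ ha
  let T : V.Opens := j ''ᵁ (PrimeSpectrum.basicOpen b)
  have hT : ∀ P : PrimeSpectrum A, j P ∈ T → b ∉ P.asIdeal := by
    rintro P ⟨P', hP', h⟩
    have h1 : P' = P := j.isOpenEmbedding.injective h
    rw [← h1]; exact hP'
  have hTj : (T : Set V) ⊆ Set.range j := by
    rintro _ ⟨P, _, rfl⟩; exact ⟨P, rfl⟩
  refine ⟨T, ⟨P₀, hb, hP₀⟩, ?_, ?_⟩
  · intro σ f hf hfT z w
    obtain ⟨φ, hφ, hdiff⟩ := exists_coords hf j (fun z => hTj (hfT z))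
    have hφb : ∀ z, φ z b ≠ 0 := by
      intro z h0
      have h1 : j (PrimeSpectrum.comap (φ z) ⊥) ∈ T := by
        have h2 := hfT z
        rw [hφ z] at h2
        exact h2
      apply hT _ h1
      change φ z b ∈ (⊥ : Ideal ℂ)
      rw [h0]; exact zero_mem _
    have hφq : ∀ a ∈ s, ∀ z, φ z (q a) ≠ 0 := by
      intro a ha z h0
      obtain ⟨c, hc⟩ := hdvd a ha
      apply hφb z
      rw [hc, map_mul, h0, zero_mul]
    have hconst : ∀ a ∈ s, φ z a = φ w a := by
      intro a ha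
      refine const_of_tst (fun z => φ z a) (hdiff a) (e a) (fun z => ?_) z w
      have h1 := hφq a ha z
      have h2 : φ z (q a) = tst (e a) (φ z a) := tst_map (φ z) (e a) a
      rw [h2] at h1
      exact h1
    have hstr : ∀ z, (φ z).comp α = σ.comp (algebraMap (𝓞 F₀) F₀) := by
      intro z
      have h1 := hf.structural z
      rw [hφ z, Category.assoc, hα, ← Spec.map_comp] at h1
      have h2 := congrArg CommRingCat.Hom.hom (Spec.map_injective h1)
      exact h2
    have h3 : φ z = φ w := hom_ext_of_adjoin α s hs' _ _ (by rw [hstr, hstr]) hconst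
    rw [hφ z, hφ w, h3]
  · intro F _ _ _ S
    let E : Set (SInt F S) := ⋃ k : Fin 3, {t | IsUnit (tst k t)}
    have hE : E.Finite := Set.finite_iUnion fun k => finite_tst hU F S k
    let H : Set (A →+* SInt F S) := {φ | φ.comp α = structHom F₀ F S ∧ ∀ a ∈ s, φ a ∈ E}
    have hH : H.Finite := by
      refine Set.Finite.of_finite_image (f := fun φ (a : s) => φ (a : A))
        ((Set.Finite.pi' (fun _ : s => hE)).subset ?_) ?_
      · rintro _ ⟨φ, hφ, rfl⟩ a
        exact hφ.2 a a.2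
      · rintro φ hφ ψ hψ h
        exact hom_ext_of_adjoin α s hs' _ _ (by rw [hφ.1, hψ.1]) (fun a ha => congrFun h ⟨a, ha⟩)
    refine (hH.image (fun φ => Spec.map (CommRingCat.ofHom φ) ≫ j)).subset ?_
    rintro x ⟨hx, hxT⟩
    obtain ⟨θ, hθ⟩ := Spec.map_surjective (IsOpenImmersion.lift j x (hxT.trans hTj))
    have hx' : x = Spec.map (CommRingCat.ofHom θ.hom) ≫ j := by
      rw [CommRingCat.ofHom_hom, hθ, IsOpenImmersion.lift_fac]
    refine ⟨θ.hom, ⟨?_, ?_⟩, hx'.symm⟩
    · have h1 : x ≫ π = Spec.map (CommRingCat.ofHom (structHom F₀ F S)) := hx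
      rw [hx', Category.assoc, hα, ← Spec.map_comp] at h1
      exact congrArg CommRingCat.Hom.hom (Spec.map_injective h1)
    · have hunit : IsUnit (θ.hom b) := by
        by_contra hnu
        obtain ⟨M, hM, hbM⟩ := exists_max_ideal_of_mem_nonunits hnu
        let P : PrimeSpectrum (SInt F S) := ⟨M, hM.isPrime⟩
        have h1 : x P ∈ T := hxT ⟨P, rfl⟩
        rw [hx'] at h1
        exact hT (PrimeSpectrum.comap θ.hom P) h1 hbM
      intro a ha
      obtain ⟨c, hc⟩ := hdvd a ha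
      rw [hc, map_mul] at hunit
      have hu := isUnit_of_mul_isUnit_left hunit
      have h2 : θ.hom (q a) = tst (e a) (θ.hom a) := tst_map θ.hom (e a) a
      rw [h2] at hu
      exact Set.mem_iUnion.2 ⟨e a, hu⟩


/-- Every pair `(V, V')` has a companion scheme with empty exceptional set. -/
theorem main2 [NumberField F₀] (hU : UFin) (V V' : Scheme.{0})
    (π : V ⟶ Spec (CommRingCat.of (𝓞 F₀))) [LocallyOfFiniteType π] [QuasiCompact π]
    (i : V' ⟶ V) [IsClosedImmersion i] :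
    ∃ (W : Scheme.{0}) (p : W ⟶ V), LocallyOfFiniteType (p ≫ π) ∧ QuasiCompact (p ≫ π) ∧
      (∀ σ : F₀ →+* ℂ, CondI σ π i ↔
        ∀ f : ℂ → (Spec (CommRingCat.of ℂ) ⟶ W), ¬ IsEntireCurve σ (p ≫ π) f) ∧
      (CondII π i ↔ ∀ (F : Type) [Field F] [NumberField F] [Algebra F₀ F]
        (S : Finset (HeightOneSpectrum (𝓞 F))), (integralPoints (p ≫ π) F S).Finite) := by
  classical
  have hcomp : CompactSpace V := QuasiCompact.compactSpace_of_compactSpace π
  choose T hvT hT1 hT2 using exists_tame2 π hU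
  obtain ⟨t, ht⟩ := isCompact_univ.elim_finite_subcover (fun v => (T v : Set V))
    (fun v => (T v).isOpen) (fun v _ => Set.mem_iUnion.2 ⟨v, hvT v⟩)
  let ι : Type := Option t
  let T' : ι → V.Opens := fun o => o.elim ⊥ (fun v => T v)
  have hT' : ∀ x : V, ∃ k, x ∈ T' k := by
    intro x
    obtain ⟨v, hv⟩ := Set.mem_iUnion.1 (ht (Set.mem_univ x))
    obtain ⟨hvt, hx⟩ := Set.mem_iUnion.1 hv
    exact ⟨some ⟨v, hvt⟩, hx⟩
  have h1 : ∀ (σ : F₀ →+* ℂ) k, Tame1 σ π (T' k) := by
    rintro σ (_ | v)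
    · intro f _ hf z w
      exact (hf z).elim
    · exact hT1 v σ
  have h2 : ∀ k, Tame2 π (T' k) := by
    rintro (_ | v)
    · intro F _ _ _ S
      convert Set.finite_empty
      ext x
      simp only [Set.mem_ofPred_eq, Set.mem_empty_iff_false, iff_false]
      rintro ⟨-, hx⟩
      exact (hx ⟨(⊥ : PrimeSpectrum (SInt F S)), rfl⟩).elim
    · exact hT2 v
  have hW : ∀ k, compl i ≤ compl i ⊔ T' k := fun k => le_sup_left
  obtain ⟨h3, h4⟩ := glue_finiteType π (compl i) (fun k => compl i ⊔ T' k) hW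
  exact ⟨GlueW.G (compl i) (fun k => compl i ⊔ T' k) hW,
    GlueW.p (compl i) (fun k => compl i ⊔ T' k) hW, h3, h4,
    fun σ => curve_iff π i T' hT' (h1 σ) hW, int_iff π i T' hT' h2 hW⟩

end Pool.Agent.Work.MP_e97a4d_nt.Vp
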