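import Mathlib
import Pool.Agent.Work.MP_e97a4d_nt.Defs

/-!
The restricted forms of the two conditions of the Bombieri-Lang-Vojta equivalence: exponential
polynomial entire curves, linear recurrences of integral points, and images of the multiplicative
group.
-/

set_option autoImplicit false

noncomputable section

namespace Pool.Agent.Work.MP_e97a4d_nt

open AlgebraicGeometry CategoryTheory IsDedekindDomain NumberField

/-- The algebra of exponential polynomials: the functions `ℂ → ℂ` obtained from constants, from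
`z ↦ z` and from `z ↦ exp (α z)` (`α` complex) by sums and products. -/
def expPoly : Subalgebra ℂ (ℂ → ℂ) :=
  Algebra.adjoin ℂ (insert (fun z => z) (Set.range fun (α : ℂ) (z : ℂ) => Complex.exp (α * z)))

variable {F₀ : Type} [Field F₀] {V V' : Scheme.{0}}

/-- Condition (i) for exponential polynomial curves. `A` is a finitely generated `O_{F₀}`-algebra
(structure map `ψ`), `j` is a morphism `Spec A ⟶ V` over `O_{F₀}`, and `g z` is a family of complex
points of `Spec A` (over `σ`) whose coordinates are exponential polynomials in `z`. If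
`z ↦ j (g z)` is not constant, then all its values are in `V'`. -/
def CondIexp (σ : F₀ →+* ℂ) (π : V ⟶ Spec (CommRingCat.of (𝓞 F₀))) (i : V' ⟶ V) : Prop :=
  ∀ (A : CommRingCat.{0}) (ψ : 𝓞 F₀ →+* A) (_ : ψ.FiniteType) (j : Spec A ⟶ V)
    (_ : j ≫ π = Spec.map (CommRingCat.ofHom ψ)) (g : ℂ → (A →+* ℂ)),
    (∀ z, (g z).comp ψ = σ.comp (algebraMap (𝓞 F₀) F₀)) →
    (∀ a : A, (fun z => g z a) ∈ expPoly) →
    (∃ z w, Spec.map (CommRingCat.ofHom (g z)) ≫ j ≠ Spec.map (CommRingCat.ofHom (g w)) ≫ j) →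
    ∀ z, ∃ p : Spec (CommRingCat.of ℂ) ⟶ V', p ≫ i = Spec.map (CommRingCat.ofHom (g z)) ≫ j

/-- Condition (ii) along linear recurrences. `A` is an `O_{F₀}`-algebra (structure map `ψ`) with
finitely many generators `t k`, `j` is a morphism `Spec A ⟶ V` over `O_{F₀}`, and `x k` are linear
recurrence sequences in a number field `F`. Only finitely many `S`-integral points of `V` outside `V'`
are, over `F`, of the form `j (P)` with `P` a point of `Spec A` whose coordinates `t k` are
`x k n` for some `n`. -/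
def CondIIrec (π : V ⟶ Spec (CommRingCat.of (𝓞 F₀))) (i : V' ⟶ V) : Prop :=
  ∀ (A : CommRingCat.{0}) (ψ : 𝓞 F₀ →+* A) (j : Spec A ⟶ V)
    (_ : j ≫ π = Spec.map (CommRingCat.ofHom ψ)) (ι : Type) (_ : Finite ι) (t : ι → A)
    (_ : Function.Surjective (MvPolynomial.eval₂Hom ψ t))
    (F : Type) [Field F] [NumberField F] [Algebra F₀ F] (S : Finset (HeightOneSpectrum (𝓞 F)))
    (x : ι → ℕ → F) (_ : ∀ k, ∃ E : LinearRecurrence F, E.IsSolution (x k)),
    {y ∈ integralPoints π F S |
      (∃ P : A →+* F, Spec.map (CommRingCat.ofHom (algebraMap (SInt F S) F)) ≫ y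
          = Spec.map (CommRingCat.ofHom P) ≫ j ∧ ∃ n, ∀ k, P (t k) = x k n) ∧
      ¬ ∃ z : Spec (CommRingCat.of (SInt F S)) ⟶ V', z ≫ i = y}.Finite

/-- The complex multiplicative group. -/
abbrev Gm : Scheme.{0} := Spec (CommRingCat.of (LaurentPolynomial ℂ))

/-- Its structure morphism. -/
abbrev GmStr : Gm ⟶ Spec (CommRingCat.of ℂ) :=
  Spec.map (CommRingCat.ofHom (LaurentPolynomial.C : ℂ →+* LaurentPolynomial ℂ))

/-- evaluation of Laurent polynomials at a unit -/
abbrev evL {L : Type*} [CommRing L] (u : Lˣ) : LaurentPolynomial L →+* L :=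
  LaurentPolynomial.eval₂ (RingHom.id L) u

/-- The complex points of the multiplicative group. -/
abbrev GmPt (u : ℂˣ) : Spec (CommRingCat.of ℂ) ⟶ Gm :=
  Spec.map (CommRingCat.ofHom (evL u))

/-- The morphism `Spec ℂ ⟶ Spec O_{F₀}` given by the embedding `σ`. -/
abbrev specσ (σ : F₀ →+* ℂ) :
    Spec (CommRingCat.of ℂ) ⟶ Spec (CommRingCat.of (𝓞 F₀)) :=
  Spec.map (CommRingCat.ofHom (σ.comp (algebraMap (𝓞 F₀) F₀)))

/-- The complex points of `V` (over `σ`) which lie on the image of a non-constant morphism from the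
multiplicative group `𝔾_m` to `V_ℂ`. -/
def gmPoints (σ : F₀ →+* ℂ) (π : V ⟶ Spec (CommRingCat.of (𝓞 F₀))) :
    Set (Spec (CommRingCat.of ℂ) ⟶ V) :=
  {p | ∃ c : Gm ⟶ V, c ≫ π = GmStr ≫ specσ σ ∧ (∃ u : ℂˣ, GmPt u ≫ c = p) ∧
      ∃ u v : ℂˣ, GmPt u ≫ c ≠ GmPt v ≫ c}

/-- All images of non-constant morphisms from the multiplicative group to `V_ℂ` lie in `V'`. -/
def CondGm (σ : F₀ →+* ℂ) (π : V ⟶ Spec (CommRingCat.of (𝓞 F₀))) (i : V' ⟶ V) : Prop :=
  ∀ p ∈ gmPoints σ π, ∃ p' : Spec (CommRingCat.of ℂ) ⟶ V', p' ≫ i = p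

end Pool.Agent.Work.MP_e97a4d_nt
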