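import Mathlib
import Pool.Agent.Work.MP_e97a4d_nt.Defs

/-!
Compositions of holomorphic families of points of an affine scheme with morphisms of schemes are
holomorphic.
-/

set_option autoImplicit false

namespace Pool.Agent.Work.MP_e97a4d_nt

open AlgebraicGeometry CategoryTheory IsDedekindDomain NumberField

/-- Holomorphic maps into an affine scheme compose with morphisms of schemes. -/
theorem exists_chart_of_comp {V : Scheme.{0}} {B : CommRingCat.{0}} (c : Spec B ⟶ V)
    (g : ℂ → (B →+* ℂ)) (hg : ∀ b : B, Differentiable ℂ (fun z => g z b)) (z : ℂ) :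
    ∃ (A : CommRingCat.{0}) (j : Spec A ⟶ V) (g' : ℂ → (A →+* ℂ)) (D : Set ℂ),
      IsOpenImmersion j ∧ IsOpen D ∧ z ∈ D ∧
      (∀ w ∈ D, Spec.map (CommRingCat.ofHom (g w)) ≫ c = Spec.map (CommRingCat.ofHom (g' w)) ≫ j) ∧
      ∀ a : A, DifferentiableOn ℂ (fun w => g' w a) D := by
  classical
  let p : PrimeSpectrum B := PrimeSpectrum.comap (g z) ⊥
  obtain ⟨U, hU, hpU, -⟩ := exists_isAffineOpen_mem_and_subset (X := V) (x := c p) (U := ⊤) trivial
  have h1 : p ∈ (c ⁻¹ᵁ U : (Spec B).Opens) := hpU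
  obtain ⟨_, ⟨b, rfl⟩, hpb, hbU⟩ := PrimeSpectrum.isTopologicalBasis_basic_opens.exists_subset_of_mem_open
    h1 (c ⁻¹ᵁ U).isOpen
  have hgb : g z b ≠ 0 := by
    intro h
    exact hpb (by
      show g z b ∈ (⊥ : Ideal ℂ)
      rw [h]; exact zero_mem _)
  let L := Localization.Away b
  let q : Spec (CommRingCat.of L) ⟶ V := Spec.map (CommRingCat.ofHom (algebraMap B L)) ≫ c
  have hq : Set.range q ⊆ Set.range hU.fromSpec := by
    rintro _ ⟨y, rfl⟩
    rw [hU.range_fromSpec]
    have h2 : Spec.map (CommRingCat.ofHom (algebraMap B L)) y ∈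
        (PrimeSpectrum.basicOpen b : Set (PrimeSpectrum B)) := by
      intro (h : algebraMap B L b ∈ y.asIdeal)
      exact y.2.ne_top (Ideal.eq_top_of_isUnit_mem _ h
        (IsLocalization.map_units L (⟨b, Submonoid.mem_powers b⟩ : Submonoid.powers b)))
    exact hbU h2
  obtain ⟨θ, hθ⟩ := Spec.map_surjective (IsOpenImmersion.lift hU.fromSpec q hq)
  have hθ' : Spec.map θ ≫ hU.fromSpec = q := by
    rw [hθ, IsOpenImmersion.lift_fac]
  let D : Set ℂ := {w | g w b ≠ 0}
  have hDo : IsOpen D := isOpen_ne.preimage (hg b).continuous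
  let G : ∀ w, g w b ≠ 0 → (L →+* ℂ) := fun w hw =>
    IsLocalization.Away.lift b (g := g w) (isUnit_iff_ne_zero.2 hw)
  have hG : ∀ w hw, (G w hw).comp (algebraMap B L) = g w := fun w hw =>
    IsLocalization.Away.lift_comp _ _
  let g' : ℂ → (Γ(V, U) →+* ℂ) := fun w =>
    if hw : g w b ≠ 0 then (G w hw).comp θ.hom else (G z hgb).comp θ.hom
  refine ⟨Γ(V, U), hU.fromSpec, g', D, inferInstance, hDo, hgb, ?_, ?_⟩
  · intro w hw
    have h2 : g' w = (G w hw).comp θ.hom := dif_pos hw
    rw [h2]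
    have h3 : Spec.map (CommRingCat.ofHom ((G w hw).comp θ.hom)) =
        Spec.map (CommRingCat.ofHom (G w hw)) ≫ Spec.map θ := by
      rw [← Spec.map_comp]; rfl
    rw [h3, Category.assoc, hθ', ← Category.assoc, ← Spec.map_comp, ← CommRingCat.ofHom_comp,
      hG w hw]
  · intro a
    obtain ⟨⟨β, s⟩, hβ⟩ := IsLocalization.surj (Submonoid.powers b) (θ.hom a)
    obtain ⟨k, hk⟩ := s.2
    have h2 : ∀ w ∈ D, g' w a = g w β / (g w b) ^ k := by
      intro w hw
      have h3 : g' w = (G w hw).comp θ.hom := dif_pos hw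
      have h4 := congrArg (G w hw) hβ
      rw [map_mul] at h4
      have h5 : ∀ x, G w hw (algebraMap B L x) = g w x := fun x =>
        congrArg (fun f : B →+* ℂ => f x) (hG w hw)
      rw [h5, h5] at h4
      rw [h3, eq_div_iff (pow_ne_zero _ hw), ← h4, ← map_pow]
      simp only [RingHom.comp_apply]
      rw [← hk]
    refine DifferentiableOn.congr ?_ h2
    exact ((hg β).differentiableOn).div ((hg b).differentiableOn.pow k)
      (fun w hw => pow_ne_zero _ hw)

end Pool.Agent.Work.MP_e97a4d_nt
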