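import Mathlib

/-!
Spreading out: a morphism from `Spec B` over `Spec R` to a scheme locally of finite presentation
over `R` factors through the spectrum of a finitely generated subalgebra of `B`.
-/

set_option autoImplicit false

namespace Pool.Agent.Work.MP_e97a4d_nt

open AlgebraicGeometry CategoryTheory Limits

universe u

variable (R B : Type u) [CommRing R] [CommRing B] [Algebra R B]

/-- The directed set of finitely generated subalgebras. -/
abbrev FGSub : Type u := {S : Subalgebra R B // S.FG}

instance : Nonempty (FGSub R B) := ⟨⟨⊥, Subalgebra.fg_bot⟩⟩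

instance : IsDirectedOrder (FGSub R B) :=
  ⟨fun S T => ⟨⟨S.1 ⊔ T.1, S.2.sup T.2⟩, le_sup_left (a := S.1), le_sup_right (a := S.1)⟩⟩

/-- The diagram of finitely generated subalgebras. -/
def fgDiagram : FGSub R B ⥤ CommRingCat.{u} where
  obj S := CommRingCat.of S.1
  map f := CommRingCat.ofHom (Subalgebra.inclusion f.le).toRingHom
  map_id S := by ext x; rfl
  map_comp f g := by ext x; rfl

/-- The cocone of inclusions. -/
def fgCocone : Cocone (fgDiagram R B) where
  pt := CommRingCat.of B
  ι := { app := fun S => CommRingCat.ofHom S.1.val.toRingHom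
         naturality := fun S T f => by ext x; rfl }

theorem nonempty_isColimit_fgCocone : Nonempty (IsColimit (fgCocone R B)) := by
  have h : IsColimit ((forget CommRingCat).mapCocone (fgCocone R B)) := by
    refine Types.FilteredColimit.isColimitOf' _ _ ?_ ?_
    · intro (b : B)
      exact ⟨⟨Algebra.adjoin R {b}, ⟨{b}, by simp⟩⟩, ⟨b, Algebra.self_mem_adjoin_singleton R b⟩, rfl⟩
    · intro S x y h
      exact ⟨S, 𝟙 S, by rw [Subtype.ext h]⟩
  have : ReflectsColimit (fgDiagram R B) (forget CommRingCat) :=
    reflectsColimit_of_reflectsIsomorphisms _ _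
  exact ⟨isColimitOfReflects (forget CommRingCat) h⟩

/-- **Spreading out.** -/
theorem exists_factor_fg {V : Scheme.{u}} (π : V ⟶ Spec (CommRingCat.of R))
    [LocallyOfFinitePresentation π] (c : Spec (CommRingCat.of B) ⟶ V)
    (hc : c ≫ π = Spec.map (CommRingCat.ofHom (algebraMap R B))) :
    ∃ (S : Subalgebra R B) (_ : S.FG) (c' : Spec (CommRingCat.of S) ⟶ V),
      Spec.map (CommRingCat.ofHom S.val.toRingHom) ≫ c' = c ∧
      c' ≫ π = Spec.map (CommRingCat.ofHom (algebraMap R S)) := by
  obtain ⟨h⟩ := nonempty_isColimit_fgCocone R B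
  let D : (FGSub R B)ᵒᵖ ⥤ Scheme.{u} := (fgDiagram R B).op ⋙ Scheme.Spec
  have hl : IsLimit (Scheme.Spec.mapCone (fgCocone R B).op) :=
    isLimitOfPreserves Scheme.Spec h.op
  let t : D ⟶ (Functor.const _).obj (Spec (CommRingCat.of R)) :=
    { app := fun S => Spec.map (CommRingCat.ofHom (algebraMap R S.unop.1))
      naturality := fun S T f => by
        show Spec.map (CommRingCat.ofHom (Subalgebra.inclusion f.unop.le).toRingHom) ≫
          Spec.map (CommRingCat.ofHom (algebraMap R T.unop.1)) =
          Spec.map (CommRingCat.ofHom (algebraMap R S.unop.1)) ≫ 𝟙 _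
        rw [Category.comp_id, ← Spec.map_comp, ← CommRingCat.ofHom_comp]
        rfl }
  have : IsCofiltered (FGSub R B)ᵒᵖ := inferInstance
  have hD : ∀ {i j : (FGSub R B)ᵒᵖ} (f : i ⟶ j), IsAffineHom (D.map f) := by
    intro i j f
    exact inferInstanceAs (IsAffineHom
      (Spec.map (CommRingCat.ofHom (Subalgebra.inclusion f.unop.le).toRingHom)))
  have hcomp : ∀ i, CompactSpace (D.obj i) := by
    intro i
    exact inferInstanceAs (CompactSpace (Spec (CommRingCat.of i.unop.1)))
  have hqs : ∀ i, QuasiSeparatedSpace (D.obj i) := by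
    intro i
    exact inferInstanceAs (QuasiSeparatedSpace (Spec (CommRingCat.of i.unop.1)))
  obtain ⟨S, g, hg, hg'⟩ := Scheme.exists_π_app_comp_eq_of_locallyOfFinitePresentation D t π
    (Scheme.Spec.mapCone (fgCocone R B).op) hl c (by
      ext S : 2
      show Spec.map (CommRingCat.ofHom S.unop.1.val.toRingHom) ≫
          Spec.map (CommRingCat.ofHom (algebraMap R S.unop.1)) = c ≫ π
      rw [hc, ← Spec.map_comp, ← CommRingCat.ofHom_comp]
      rfl)
  exact ⟨S.unop.1, S.unop.2, g, hg, hg'⟩

end Pool.Agent.Work.MP_e97a4d_nt
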