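import Mathlib
import Pool.Agent.Work.MP_e97a4d_nt.Defs
import Pool.Agent.Work.MP_e97a4d_nt.ExpDefs
import Pool.Agent.Work.MP_e97a4d_nt.LaurentPoints
import Pool.Agent.Work.MP_e97a4d_nt.SchemeLemmas
import Pool.Agent.Work.MP_e97a4d_nt.Spread
import Pool.Agent.Work.MP_e97a4d_nt.HoloComp

/-!
A non-constant morphism from the multiplicative group to `V`, not contained in `V'`, contradicts
both conditions.
-/

set_option autoImplicit false

namespace Pool.Agent.Work.MP_e97a4d_nt

open AlgebraicGeometry CategoryTheory IsDedekindDomain NumberField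

/-- the exponential as a unit -/
noncomputable def expU (z : ℂ) : ℂˣ := Units.mk0 (Complex.exp z) (Complex.exp_ne_zero z)

theorem differentiable_evL_expU (X : LaurentPolynomial ℂ) :
    Differentiable ℂ (fun z => evL (expU z) X) := by
  induction X using LaurentPolynomial.induction_on' with
  | add p q hp hq =>
    simp only [map_add]
    exact hp.add hq
  | C_mul_T n a =>
    simp only [evL, LaurentPolynomial.eval₂_C_mul_T]
    refine (differentiable_const _).mul ?_
    intro z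
    have h : (fun z : ℂ => (((expU z) ^ n : ℂˣ) : ℂ)) = fun z => Complex.exp (n * z) := by
      funext w
      rw [Complex.exp_int_mul]
      simp [expU]
    rw [h]
    fun_prop

variable {F₀ : Type} [Field F₀] {V V' : Scheme.{0}}

theorem not_condI_of_curve (σ : F₀ →+* ℂ) (π : V ⟶ Spec (CommRingCat.of (𝓞 F₀))) (i : V' ⟶ V)
    (c : Spec (CommRingCat.of (LaurentPolynomial ℂ)) ⟶ V)
    (hc : c ≫ π = Spec.map (CommRingCat.ofHom
      ((LaurentPolynomial.C : ℂ →+* _).comp (σ.comp (algebraMap (𝓞 F₀) F₀)))))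
    (u v : ℂˣ) (huv : Spec.map (CommRingCat.ofHom (evL u)) ≫ c ≠
      Spec.map (CommRingCat.ofHom (evL v)) ≫ c)
    (w : ℂˣ) (hw : ¬ ∃ p, p ≫ i = Spec.map (CommRingCat.ofHom (evL w)) ≫ c) :
    ¬ CondI σ π i := by
  intro h1
  have hexp : ∀ u : ℂˣ, expU (Complex.log u) = u := fun u =>
    Units.ext (Complex.exp_log u.ne_zero)
  let f : ℂ → (Spec (CommRingCat.of ℂ) ⟶ V) :=
    fun z => Spec.map (CommRingCat.ofHom (evL (expU z))) ≫ c
  have hf : IsEntireCurve σ π f := by
    refine ⟨⟨?_, ?_⟩, Complex.log u, Complex.log v, ?_⟩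
    · intro z
      show (Spec.map (CommRingCat.ofHom (evL (expU z))) ≫ c) ≫ π = _
      rw [Category.assoc, hc, ← Spec.map_comp, ← CommRingCat.ofHom_comp]
      congr 2
      ext r
      simp [evL]
    · intro z
      exact exists_chart_of_comp c _ differentiable_evL_expU z
    · show Spec.map (CommRingCat.ofHom (evL (expU _))) ≫ c ≠
        Spec.map (CommRingCat.ofHom (evL (expU _))) ≫ c
      rw [hexp, hexp]
      exact huv
  obtain ⟨p, hp⟩ := h1 f hf (Complex.log w)
  apply hw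
  refine ⟨p, ?_⟩
  rw [hp]
  show Spec.map (CommRingCat.ofHom (evL (expU _))) ≫ c = _
  rw [hexp]

section descent

variable (F₀)

/-- A homomorphism from a finitely generated algebra to the Laurent polynomials over a field is
defined over a finitely generated subalgebra. -/
theorem exists_coeff_algebra {L : Type} [Field L] [Algebra F₀ L] {A : Type} [CommRing A]
    [Algebra (𝓞 F₀) A] [hfg : Algebra.FiniteType (𝓞 F₀) A] (ψ : A →+* LaurentPolynomial L)
    (hψ : ∀ b : 𝓞 F₀, ψ (algebraMap _ _ b) = LaurentPolynomial.C (algebraMap F₀ L b)) :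
    ∃ (B₀ : Subalgebra F₀ L) (_ : Algebra.FiniteType F₀ B₀) (ψ₁ : A →+* LaurentPolynomial B₀),
      ∀ a, AddMonoidAlgebra.mapRingHom ℤ (B₀.val : B₀ →+* L) (ψ₁ a) = ψ a := by
  classical
  obtain ⟨G, hG⟩ := hfg.out
  let T : Finset L := G.biUnion fun g => (ψ g).coeff.support.image fun n => (ψ g).coeff n
  let B₀ : Subalgebra F₀ L := Algebra.adjoin F₀ (T : Set L)
  have hB₀ : Algebra.FiniteType F₀ B₀ := (Subalgebra.fg_iff_finiteType _).1 ⟨T, rfl⟩
  let ι : LaurentPolynomial B₀ →+* LaurentPolynomial L :=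
    AddMonoidAlgebra.mapRingHom ℤ (B₀.val : B₀ →+* L)
  have hι : Function.Injective ι := mapRingHom_injective' _ (fun a b h => Subtype.ext h)
  have hrange : ∀ a, ψ a ∈ ι.range := by
    intro a
    have : a ∈ Algebra.adjoin (𝓞 F₀) (G : Set A) := by rw [hG]; trivial
    induction this using Algebra.adjoin_induction with
    | mem g hg =>
      refine mem_range_map_of_coeff _ _ fun n => ?_
      by_cases hn : n ∈ (ψ g).coeff.support
      · refine ⟨⟨(ψ g).coeff n, Algebra.subset_adjoin ?_⟩, rfl⟩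
        exact Finset.mem_coe.2 (Finset.mem_biUnion.2 ⟨g, hg, Finset.mem_image.2 ⟨n, hn, rfl⟩⟩)
      · refine ⟨0, ?_⟩
        rw [map_zero]
        simpa using (Finsupp.notMem_support_iff.1 hn).symm
    | algebraMap b =>
      rw [hψ]
      refine ⟨LaurentPolynomial.C (algebraMap F₀ B₀ b), ?_⟩
      ext n
      rw [AddMonoidAlgebra.coeff_mapRingHom]
      simp only [LaurentPolynomial.C_apply]
      split_ifs
      · rfl
      · simp
    | add x y _ _ hx hy => rw [map_add]; exact Subring.add_mem _ hx hy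
    | mul x y _ _ hx hy => rw [map_mul]; exact Subring.mul_mem _ hx hy
  obtain ⟨ψ₁, hψ₁⟩ := exists_lift_of_range ι hι ψ hrange
  exact ⟨B₀, hB₀, ψ₁, fun a => RingHom.congr_fun hψ₁ a⟩

/-- Specialization to a number field. -/
theorem exists_specialization [NumberField F₀] (B₀ : Type) [CommRing B₀] [IsDomain B₀] [Algebra F₀ B₀]
    [Algebra.FiniteType F₀ B₀] (b : B₀) (hb : b ≠ 0) :
    ∃ (F : Type) (_ : Field F) (_ : NumberField F) (_ : Algebra F₀ F) (θ : B₀ →ₐ[F₀] F),
      θ b ≠ 0 := by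
  have hjac : IsJacobsonRing B₀ := isJacobsonRing_of_finiteType (A := F₀)
  obtain ⟨𝔪, h𝔪, hb𝔪⟩ : ∃ 𝔪 : Ideal B₀, 𝔪.IsMaximal ∧ b ∉ 𝔪 := by
    by_contra hcon
    push Not at hcon
    apply hb
    have h1 : b ∈ (⊥ : Ideal B₀).jacobson := by
      rw [Ideal.jacobson, Ideal.mem_sInf]
      intro J hJ
      exact hcon J hJ.2
    rw [← Ideal.radical_eq_jacobson] at h1
    obtain ⟨n, hn⟩ := h1
    have hn0 : n ≠ 0 := by
      rintro rfl
      rw [pow_zero] at hn
      exact one_ne_zero ((Ideal.mem_bot).1 hn)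
    exact (pow_eq_zero_iff hn0).1 ((Ideal.mem_bot).1 hn)
  let instF : Field (B₀ ⧸ 𝔪) := Ideal.Quotient.field 𝔪
  have hfin : Module.Finite F₀ (B₀ ⧸ 𝔪) :=
    finite_of_finite_type_of_isJacobsonRing F₀ (B₀ ⧸ 𝔪)
  have hnf : NumberField (B₀ ⧸ 𝔪) := NumberField.of_module_finite F₀ (B₀ ⧸ 𝔪)
  exact ⟨B₀ ⧸ 𝔪, instF, hnf, inferInstance, Ideal.Quotient.mkₐ F₀ 𝔪,
    fun h => hb𝔪 (Ideal.Quotient.eq_zero_iff_mem.1 h)⟩

/-- The points `T = 2 ^ m` of a one-parameter family over a number field are `S`-integral. -/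
theorem exists_points (F : Type) [Field F] [NumberField F] [Algebra F₀ F]
    {A : Type} [CommRing A] [Algebra (𝓞 F₀) A] [hfg : Algebra.FiniteType (𝓞 F₀) A]
    (ψ : A →+* LaurentPolynomial F)
    (hψ : ∀ b : 𝓞 F₀, ψ (algebraMap _ _ b) = LaurentPolynomial.C (algebraMap F₀ F b)) :
    ∃ (S : Finset (HeightOneSpectrum (𝓞 F))) (x : ℕ → (A →+* SInt F S)),
      (∀ m, (x m).comp (algebraMap (𝓞 F₀) A) = structHom F₀ F S) ∧
      ∀ m, (algebraMap (SInt F S) F).comp (x m) = (evL (twoU F ^ m)).comp ψ := by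
  classical
  obtain ⟨G, hG⟩ := hfg.out
  let T : Finset F := insert (2 : F)⁻¹
    (G.biUnion fun g => (ψ g).coeff.support.image fun n => (ψ g).coeff n)
  obtain ⟨S, hS⟩ := exists_finset_SInt F T
  have h2 : (2 : F)⁻¹ ∈ (S : Set (HeightOneSpectrum (𝓞 F))).integer F :=
    hS _ (Finset.mem_insert_self _ _)
  refine ⟨S, ?_⟩
  let ι : LaurentPolynomial (SInt F S) →+* LaurentPolynomial F :=
    AddMonoidAlgebra.mapRingHom ℤ (algebraMap (SInt F S) F)
  have hι : Function.Injective ι := mapRingHom_injective' _ (fun a b h => Subtype.ext h)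
  have hCalg : ∀ b : 𝓞 F₀, ι (LaurentPolynomial.C (structHom F₀ F S b)) =
      LaurentPolynomial.C (algebraMap F₀ F b) := by
    intro b
    ext n
    rw [AddMonoidAlgebra.coeff_mapRingHom]
    simp only [LaurentPolynomial.C_apply]
    split_ifs
    · rfl
    · simp
  have hrange : ∀ a, ψ a ∈ ι.range := by
    intro a
    have : a ∈ Algebra.adjoin (𝓞 F₀) (G : Set A) := by rw [hG]; trivial
    induction this using Algebra.adjoin_induction with
    | mem g hg =>
      refine mem_range_map_of_coeff _ _ fun n => ?_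
      by_cases hn : n ∈ (ψ g).coeff.support
      · refine ⟨⟨(ψ g).coeff n, hS _ ?_⟩, rfl⟩
        exact Finset.mem_insert_of_mem
          (Finset.mem_biUnion.2 ⟨g, hg, Finset.mem_image.2 ⟨n, hn, rfl⟩⟩)
      · refine ⟨0, ?_⟩
        rw [map_zero]
        simpa using (Finsupp.notMem_support_iff.1 hn).symm
    | algebraMap b =>
      rw [hψ, ← hCalg]
      exact ⟨_, rfl⟩
    | add x y _ _ hx hy => rw [map_add]; exact Subring.add_mem _ hx hy
    | mul x y _ _ hx hy => rw [map_mul]; exact Subring.mul_mem _ hx hy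
  obtain ⟨ψ₁, hψ₁⟩ := exists_lift_of_range ι hι ψ hrange
  have hψ₁' : ∀ a, ι (ψ₁ a) = ψ a := fun a => RingHom.congr_fun hψ₁ a
  let x : ℕ → (A →+* SInt F S) := fun m =>
    (LaurentPolynomial.eval₂ (RingHom.id _) (twoS F S h2 ^ m)).comp ψ₁
  have hx : ∀ m a, ((x m a : SInt F S) : F) =
      LaurentPolynomial.eval₂ (RingHom.id F) (twoU F ^ m) (ψ a) := by
    intro m a
    rw [← hψ₁']
    exact coe_eval₂_twoS F S h2 m (ψ₁ a)
  refine ⟨x, ?_, ?_⟩
  · intro m
    ext b
    rw [RingHom.comp_apply, hx, hψ, LaurentPolynomial.eval₂_C]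
    rfl
  · intro m
    ext a
    exact hx m a

end descent

theorem evL_map {R L : Type*} [CommRing R] [CommRing L] (f : R →+* L) (u : Rˣ)
    (X : LaurentPolynomial R) :
    evL (Units.map (f : R →* L) u) (AddMonoidAlgebra.mapRingHom ℤ f X) = f (evL u X) := by
  induction X using LaurentPolynomial.induction_on' with
  | add p q hp hq => rw [map_add, map_add, map_add, map_add, hp, hq]
  | C_mul_T n a =>
    have h1 : AddMonoidAlgebra.mapRingHom ℤ f
        (LaurentPolynomial.C a * LaurentPolynomial.T n) =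
        LaurentPolynomial.C (f a) * LaurentPolynomial.T n := by
      rw [← LaurentPolynomial.single_eq_C_mul_T, ← LaurentPolynomial.single_eq_C_mul_T]
      ext k
      rw [AddMonoidAlgebra.coeff_mapRingHom]
      simp only [AddMonoidAlgebra.coeff_single, Finsupp.single_apply]
      split_ifs
      · rfl
      · simp
    have h2 : ((Units.map (f : R →* L) u ^ n : Lˣ) : L) = f ((u ^ n : Rˣ) : R) := by
      rw [← map_zpow]; rfl
    rw [h1, evL, LaurentPolynomial.eval₂_C_mul_T, evL, LaurentPolynomial.eval₂_C_mul_T, h2,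
      map_mul]
    rfl

/-- If a Laurent polynomial over a field of characteristic zero lies in infinitely many kernels
of the evaluations at powers of two, it is zero. -/
theorem le_bot_of_infinite {F : Type*} [Field F] [CharZero F] (J : Ideal (LaurentPolynomial F))
    (M : Set ℕ) (hM : M.Infinite) (h : ∀ m ∈ M, J ≤ RingHom.ker (evL (twoU F ^ m))) : J ≤ ⊥ := by
  intro X hX
  by_contra hX0
  exact hM ((laurent_finite_roots X hX0).subset fun m hm => h m hm hX)

/-- A non-constant morphism from the multiplicative group to `V`, not contained in `V'`, gives an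
infinite family of `S`-integral points outside `V'`, the values at the powers of `2` of a family
over a number field. -/
theorem exists_family_of_curve [NumberField F₀] (π : V ⟶ Spec (CommRingCat.of (𝓞 F₀)))
    [IsSeparated π] [LocallyOfFiniteType π] (i : V' ⟶ V) [IsClosedImmersion i]
    {L : Type} [Field L] [Algebra F₀ L]
    (c : Spec (CommRingCat.of (LaurentPolynomial L)) ⟶ V)
    (hc : c ≫ π = Spec.map (CommRingCat.ofHom
      ((LaurentPolynomial.C : L →+* _).comp ((algebraMap F₀ L).comp (algebraMap (𝓞 F₀) F₀)))))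
    (u v : Lˣ) (huv : Spec.map (CommRingCat.ofHom (evL u)) ≫ c ≠
      Spec.map (CommRingCat.ofHom (evL v)) ≫ c)
    (w : Lˣ) (hw : ¬ ∃ p, p ≫ i = Spec.map (CommRingCat.ofHom (evL w)) ≫ c) :
    ∃ (B : Type) (_ : CommRing B) (_ : Algebra (𝓞 F₀) B) (_ : Algebra.FiniteType (𝓞 F₀) B)
      (c' : Spec (CommRingCat.of B) ⟶ V)
      (_ : c' ≫ π = Spec.map (CommRingCat.ofHom (algebraMap (𝓞 F₀) B)))
      (F : Type) (_ : Field F) (_ : NumberField F) (_ : Algebra F₀ F)
      (S : Finset (HeightOneSpectrum (𝓞 F))) (ψ₂ : B →+* LaurentPolynomial F)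
      (x : ℕ → (B →+* SInt F S)),
      (∀ m, Spec.map (CommRingCat.ofHom (x m)) ≫ c' ∈ integralPoints π F S) ∧
      (∀ m, (algebraMap (SInt F S) F).comp (x m) = (evL (twoU F ^ m)).comp ψ₂) ∧
      {y | ∃ m, y = Spec.map (CommRingCat.ofHom (x m)) ≫ c' ∧ ¬ ∃ p, p ≫ i = y}.Infinite := by
  classical
  have hcL : CharZero L := charZero_of_injective_algebraMap (algebraMap F₀ L).injective
  have hV : V.IsSeparated := isSeparated_of_isSeparated π
  let _ : Algebra (𝓞 F₀) (LaurentPolynomial L) :=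
    ((LaurentPolynomial.C : L →+* _).comp ((algebraMap F₀ L).comp (algebraMap (𝓞 F₀) F₀))).toAlgebra
  have hfp : LocallyOfFinitePresentation π :=
    LocallyOfFinitePresentation.iff_locallyOfFiniteType.2 inferInstance
  obtain ⟨B, hB, c', hc', hc'π⟩ := exists_factor_fg (𝓞 F₀) (LaurentPolynomial L) π c hc
  have hBfg : Algebra.FiniteType (𝓞 F₀) B := (Subalgebra.fg_iff_finiteType _).1 hB
  obtain ⟨B₀, hB₀, ψ₁, hψ₁⟩ := exists_coeff_algebra F₀ (B.val.toRingHom) (fun b => rfl)
  have hinj₁ : Function.Injective ψ₁ := by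
    intro a b hab
    apply Subtype.ext
    have h1 := hψ₁ a
    rw [hab, hψ₁ b] at h1
    exact h1.symm
  -- evaluation at units of the constants
  have hcomp : ∀ {R : Type} [CommRing R] (φ : B →+* R), Spec.map (CommRingCat.ofHom φ) ≫ c' ≫ π =
      Spec.map (CommRingCat.ofHom (φ.comp (algebraMap (𝓞 F₀) B))) := by
    intro R _ φ
    rw [hc'π, ← Spec.map_comp, ← CommRingCat.ofHom_comp]
  -- the two points over `L` given by `1` and by a power of two are different
  have hm : ∃ m : ℕ, Spec.map (CommRingCat.ofHom (evL (1 : Lˣ))) ≫ c ≠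
      Spec.map (CommRingCat.ofHom (evL (twoU L ^ m))) ≫ c := by
    by_contra hcon
    push Not at hcon
    let y : Spec (CommRingCat.of (LaurentPolynomial L)) ⟶ V :=
      Spec.map (CommRingCat.ofHom ((LaurentPolynomial.C : L →+* _).comp (evL (1 : Lˣ)))) ≫ c
    have hy : ∀ u : Lˣ, Spec.map (CommRingCat.ofHom (evL u)) ≫ y =
        Spec.map (CommRingCat.ofHom (evL (1 : Lˣ))) ≫ c := by
      intro u
      have h1 : (evL u).comp ((LaurentPolynomial.C : L →+* _).comp (evL (1 : Lˣ))) =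
          evL (1 : Lˣ) := by
        refine RingHom.ext fun X => ?_
        rw [RingHom.comp_apply, RingHom.comp_apply]
        generalize evL (1 : Lˣ) X = r
        simp [evL]
      rw [← Category.assoc, ← Spec.map_comp, ← CommRingCat.ofHom_comp, h1]
    obtain ⟨J, hJ⟩ := exists_ideal_eq c y
    have hJ0 : J ≤ ⊥ := by
      refine le_bot_of_infinite J Set.univ Set.infinite_univ fun m _ => ?_
      refine (hJ _ (CommRingCat.ofHom (evL (twoU L ^ m)))).1 ?_
      rw [hy, hcon m]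
    apply huv
    rw [(hJ _ (CommRingCat.ofHom (evL u))).2 (hJ0.trans bot_le),
      (hJ _ (CommRingCat.ofHom (evL v))).2 (hJ0.trans bot_le), hy, hy]
  obtain ⟨m₀, hm₀⟩ := hm
  -- the corresponding points over `B₀`
  let two₀ : B₀ˣ := Units.map (algebraMap F₀ B₀ : F₀ →* B₀) (twoU F₀)
  let x₁ : B₀ˣ → (Spec (CommRingCat.of B₀) ⟶ V) := fun u =>
    Spec.map (CommRingCat.ofHom ((evL u).comp ψ₁)) ≫ c'
  have hx₁ : ∀ u : B₀ˣ, Spec.map (CommRingCat.ofHom (B₀.val : B₀ →+* L)) ≫ x₁ u =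
      Spec.map (CommRingCat.ofHom (evL (Units.map ((B₀.val : B₀ →+* L) : B₀ →* L) u))) ≫ c := by
    intro u
    rw [← hc', ← Category.assoc, ← Category.assoc, ← Spec.map_comp, ← Spec.map_comp,
      ← CommRingCat.ofHom_comp, ← CommRingCat.ofHom_comp]
    congr 3
    ext b
    show (B₀.val : B₀ →+* L) (evL u (ψ₁ b)) = evL _ (b : LaurentPolynomial L)
    rw [← evL_map, hψ₁]
    rfl
  have h1L : Units.map ((B₀.val : B₀ →+* L) : B₀ →* L) 1 = 1 := map_one _
  have h2L : ∀ m, Units.map ((B₀.val : B₀ →+* L) : B₀ →* L) (two₀ ^ m) = twoU L ^ m := by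
    intro m
    rw [map_pow]
    congr 1
    apply Units.ext
    show (B₀.val : B₀ →+* L) (algebraMap F₀ B₀ (2 : F₀)) = (2 : L)
    rw [map_ofNat, map_ofNat]
  obtain ⟨J₁, hJ₁⟩ := exists_ideal_eq (x₁ 1) (x₁ (two₀ ^ m₀))
  obtain ⟨b, hbJ, hb⟩ : ∃ b ∈ J₁, b ≠ 0 := by
    by_contra hcon
    push Not at hcon
    have h1 : J₁ ≤ RingHom.ker (CommRingCat.ofHom (B₀.val : B₀ →+* L)).hom := by
      intro b hb
      rw [hcon b hb]
      exact zero_mem _
    have h2 := (hJ₁ _ (CommRingCat.ofHom (B₀.val : B₀ →+* L))).2 h1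
    rw [hx₁, hx₁, h1L, h2L] at h2
    exact hm₀ h2
  -- the ideal of `V'`
  obtain ⟨I, hI⟩ := exists_ideal_factors i c'
  obtain ⟨q, hqI, hq⟩ : ∃ q ∈ I, ψ₁ q ≠ 0 := by
    by_contra hcon
    push Not at hcon
    apply hw
    have h1 : I ≤ RingHom.ker (CommRingCat.ofHom ((evL w).comp B.val.toRingHom)).hom := by
      intro q hq
      have h2 := hcon q hq
      have h3 : q = 0 := hinj₁ (by rw [h2, map_zero])
      rw [h3]
      exact zero_mem _
    obtain ⟨p, hp⟩ := (hI _ _).2 h1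
    refine ⟨p, ?_⟩
    rw [hp, ← hc', ← Category.assoc, ← Spec.map_comp, ← CommRingCat.ofHom_comp]
  obtain ⟨k, hk⟩ : ∃ k : ℤ, (ψ₁ q).coeff k ≠ 0 := by
    by_contra hcon
    push Not at hcon
    apply hq
    ext n
    rw [hcon n]; rfl
  -- specialization
  obtain ⟨F, _, _, _, θ, hθ⟩ := exists_specialization F₀ B₀ (b * (ψ₁ q).coeff k) (mul_ne_zero hb hk)
  rw [map_mul] at hθ
  have hθb : θ b ≠ 0 := left_ne_zero_of_mul hθ
  have hθk : θ ((ψ₁ q).coeff k) ≠ 0 := right_ne_zero_of_mul hθ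
  let ψ₂ : B →+* LaurentPolynomial F := (AddMonoidAlgebra.mapRingHom ℤ (θ : B₀ →+* F)).comp ψ₁
  have hψ₂q : ψ₂ q ≠ 0 := by
    intro h
    apply hθk
    have h1 : (ψ₂ q).coeff k = θ ((ψ₁ q).coeff k) := AddMonoidAlgebra.coeff_mapRingHom _ _ _
    rw [← h1, h]; rfl
  have hψ₂c : ∀ r : 𝓞 F₀, ψ₂ (algebraMap _ _ r) = LaurentPolynomial.C (algebraMap F₀ F r) := by
    intro r
    ext n
    have h1 : (ψ₂ (algebraMap _ _ r)).coeff n = θ ((ψ₁ (algebraMap _ _ r)).coeff n) :=
      AddMonoidAlgebra.coeff_mapRingHom _ _ _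
    have h2 : (ψ₁ (algebraMap _ _ r)).coeff n = if n = 0 then algebraMap F₀ B₀ r else 0 := by
      apply Subtype.ext
      have h3 : (((ψ₁ (algebraMap _ _ r)).coeff n : B₀) : L) =
          (algebraMap (𝓞 F₀) (LaurentPolynomial L) r).coeff n := by
        have h4 := hψ₁ (algebraMap _ _ r)
        have h5 : (((ψ₁ (algebraMap _ _ r)).coeff n : B₀) : L) =
            (AddMonoidAlgebra.mapRingHom ℤ (B₀.val : B₀ →+* L) (ψ₁ (algebraMap _ _ r))).coeff n :=
          (AddMonoidAlgebra.coeff_mapRingHom (M := ℤ) (B₀.val : B₀ →+* L) _ n).symm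
        rw [h5, h4]
        rfl
      rw [h3]
      show (LaurentPolynomial.C (algebraMap F₀ L r)).coeff n = _
      rw [LaurentPolynomial.C_apply]
      split_ifs <;> rfl
    rw [h1, h2, LaurentPolynomial.C_apply]
    split_ifs
    · exact θ.commutes _
    · rw [map_zero]
  obtain ⟨S, x, hx1, hx2⟩ := exists_points F₀ F ψ₂ hψ₂c
  let y : ℕ → (Spec (CommRingCat.of (SInt F S)) ⟶ V) := fun m =>
    Spec.map (CommRingCat.ofHom (x m)) ≫ c'
  have hyint : ∀ m, y m ∈ integralPoints π F S := by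
    intro m
    show (Spec.map (CommRingCat.ofHom (x m)) ≫ c') ≫ π = _
    rw [Category.assoc, hcomp, hx1]
  -- the family over `F`
  let cF : Spec (CommRingCat.of (LaurentPolynomial F)) ⟶ V := Spec.map (CommRingCat.ofHom ψ₂) ≫ c'
  have hcFy : ∀ m, Spec.map (CommRingCat.ofHom (evL (twoU F ^ m))) ≫ cF =
      Spec.map (CommRingCat.ofHom (algebraMap (SInt F S) F)) ≫ y m := by
    intro m
    show Spec.map (CommRingCat.ofHom (evL (twoU F ^ m))) ≫ Spec.map (CommRingCat.ofHom ψ₂) ≫ c' =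
      Spec.map (CommRingCat.ofHom (algebraMap (SInt F S) F)) ≫
        Spec.map (CommRingCat.ofHom (x m)) ≫ c'
    rw [← Category.assoc, ← Category.assoc, ← Spec.map_comp, ← Spec.map_comp,
      ← CommRingCat.ofHom_comp, ← CommRingCat.ofHom_comp, hx2 m]
  have hcFθ : ∀ u : B₀ˣ, Spec.map (CommRingCat.ofHom (θ : B₀ →+* F)) ≫ x₁ u =
      Spec.map (CommRingCat.ofHom (evL (Units.map ((θ : B₀ →+* F) : B₀ →* F) u))) ≫ cF := by
    intro u
    show Spec.map (CommRingCat.ofHom (θ : B₀ →+* F)) ≫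
        Spec.map (CommRingCat.ofHom ((evL u).comp ψ₁)) ≫ c' =
      Spec.map (CommRingCat.ofHom (evL (Units.map ((θ : B₀ →+* F) : B₀ →* F) u))) ≫
        Spec.map (CommRingCat.ofHom ψ₂) ≫ c'
    rw [← Category.assoc, ← Category.assoc, ← Spec.map_comp, ← Spec.map_comp,
      ← CommRingCat.ofHom_comp, ← CommRingCat.ofHom_comp]
    congr 3
    ext b
    show (θ : B₀ →+* F) (evL u (ψ₁ b)) = evL _ (ψ₂ b)
    rw [← evL_map]
    rfl
  have h1F : Units.map ((θ : B₀ →+* F) : B₀ →* F) 1 = 1 := map_one _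
  have hA : {m | ∃ p, p ≫ i = y m}.Finite := by
    refine (laurent_finite_roots (ψ₂ q) hψ₂q).subset ?_
    intro m hm
    have h1 : I ≤ RingHom.ker (x m) := (hI _ (CommRingCat.ofHom (x m))).1 hm
    have h2 : x m q = 0 := h1 hqI
    have h3 := congrArg (fun f : B →+* F => f q) (hx2 m)
    simp only [RingHom.comp_apply] at h3
    rw [h2, map_zero] at h3
    exact h3.symm
  have hBfin : ∀ z : Spec (CommRingCat.of (SInt F S)) ⟶ V, {m | y m = z}.Finite := by
    intro z
    by_contra hinf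
    let pF : Spec (CommRingCat.of F) ⟶ V := Spec.map (CommRingCat.ofHom (algebraMap (SInt F S) F)) ≫ z
    let y₂ : Spec (CommRingCat.of (LaurentPolynomial F)) ⟶ V :=
      Spec.map (CommRingCat.ofHom (LaurentPolynomial.C : F →+* _)) ≫ pF
    have hy₂ : ∀ u : Fˣ, Spec.map (CommRingCat.ofHom (evL u)) ≫ y₂ = pF := by
      intro u
      show Spec.map (CommRingCat.ofHom (evL u)) ≫
        Spec.map (CommRingCat.ofHom (LaurentPolynomial.C : F →+* _)) ≫ pF = pF
      rw [← Category.assoc, ← Spec.map_comp, ← CommRingCat.ofHom_comp]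
      have h1 : (evL u).comp (LaurentPolynomial.C : F →+* _) = RingHom.id F := by
        ext r
        simp [evL]
      rw [h1, CommRingCat.ofHom_id, Spec.map_id, Category.id_comp]
    obtain ⟨J, hJ⟩ := exists_ideal_eq cF y₂
    have hJ0 : J ≤ ⊥ := by
      refine le_bot_of_infinite J {m | y m = z} hinf fun m hm => ?_
      refine (hJ _ (CommRingCat.ofHom (evL (twoU F ^ m)))).1 ?_
      rw [hy₂, hcFy, show y m = z from hm]
    have h1 : ∀ u : Fˣ, Spec.map (CommRingCat.ofHom (evL u)) ≫ cF = pF := by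
      intro u
      rw [(hJ _ (CommRingCat.ofHom (evL u))).2 (hJ0.trans bot_le), hy₂]
    have h2 : J₁ ≤ RingHom.ker (θ : B₀ →+* F) :=
      (hJ₁ _ (CommRingCat.ofHom (θ : B₀ →+* F))).1 (by rw [hcFθ, hcFθ, h1, h1])
    exact hθb (h2 hbJ)
  refine ⟨B, inferInstance, inferInstance, hBfg, c', hc'π, F, inferInstance, inferInstance,
    inferInstance, S, ψ₂, x, hyint, hx2, ?_⟩
  intro hfin
  have hcover : (Set.univ : Set ℕ) ⊆ {m | ∃ p, p ≫ i = y m} ∪
      ⋃ z ∈ {y | ∃ m, y = Spec.map (CommRingCat.ofHom (x m)) ≫ c' ∧ ¬ ∃ p, p ≫ i = y},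
        {m | y m = z} := by
    intro m _
    by_cases h : ∃ p, p ≫ i = y m
    · exact Or.inl h
    · right
      simp only [Set.mem_iUnion]
      exact ⟨y m, ⟨m, rfl, h⟩, rfl⟩
  exact Set.infinite_univ ((hA.union (hfin.biUnion fun z _ => hBfin z)).subset hcover)

theorem not_condII_of_curve [NumberField F₀] (π : V ⟶ Spec (CommRingCat.of (𝓞 F₀)))
    [IsSeparated π] [LocallyOfFiniteType π] (i : V' ⟶ V) [IsClosedImmersion i]
    {L : Type} [Field L] [Algebra F₀ L]
    (c : Spec (CommRingCat.of (LaurentPolynomial L)) ⟶ V)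
    (hc : c ≫ π = Spec.map (CommRingCat.ofHom
      ((LaurentPolynomial.C : L →+* _).comp ((algebraMap F₀ L).comp (algebraMap (𝓞 F₀) F₀)))))
    (u v : Lˣ) (huv : Spec.map (CommRingCat.ofHom (evL u)) ≫ c ≠
      Spec.map (CommRingCat.ofHom (evL v)) ≫ c)
    (w : Lˣ) (hw : ¬ ∃ p, p ≫ i = Spec.map (CommRingCat.ofHom (evL w)) ≫ c) :
    ¬ CondII π i := by
  obtain ⟨B, _, _, _, c', _, F, _, _, _, S, ψ₂, x, hx, -, hinf⟩ :=
    exists_family_of_curve π i c hc u v huv w hw
  intro hII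
  refine hinf ((hII F S).subset ?_)
  rintro _ ⟨m, rfl, hm⟩
  exact ⟨hx m, hm⟩

end Pool.Agent.Work.MP_e97a4d_nt
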