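import Mathlib

/-!
Hansel's argument for the Skolem-Mahler-Lech theorem, written for an arbitrary nonarchimedean
absolute value on a field of characteristic zero.
-/

open Finset Polynomial

namespace Pool.Agent.Work.MP_e97a4d_nt

section hansel
variable {K : Type*} [Field K]

/-- the shift operator on sequences -/
noncomputable def sh (K : Type*) [Field K] : Module.End K (ℕ → K) := LinearMap.funLeft K K Nat.succ

theorem sh_apply (w : ℕ → K) (n : ℕ) : sh K w n = w (n + 1) := rfl

theorem sh_pow_apply (w : ℕ → K) (k n : ℕ) : ((sh K) ^ k) w n = w (n + k) := by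
  induction k generalizing w n with
  | zero => simp
  | succ k ih =>
    rw [pow_succ, Module.End.mul_apply, ih, sh_apply]
    congr 1

theorem newton (w : ℕ → K) (n : ℕ) :
    w n = ∑ i ∈ range (n + 1), (n.choose i : K) * ((sh K - 1) ^ i) w 0 := by
  have h1 : w n = ((sh K) ^ n) w 0 := by rw [sh_pow_apply]; simp
  have h2 : (sh K) ^ n = ((sh K - 1) + 1) ^ n := by simp
  rw [h1, h2, (Commute.one_right _).add_pow]
  rw [LinearMap.sum_apply, Finset.sum_apply]
  apply Finset.sum_congr rfl
  intro i _
  simp only [one_pow, mul_one]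
  rw [mul_comm]
  have : ((sh K - 1) ^ i * (n.choose i : Module.End K (ℕ → K))) w =
      (n.choose i : K) • ((sh K - 1) ^ i) w := by
    rw [← Nat.cast_comm, Module.End.mul_apply]
    rw [Module.End.natCast_apply]
    rw [Nat.cast_smul_eq_nsmul]
  rw [this]
  simp [mul_comm]

variable (v : AbsoluteValue K ℝ)

theorem eval_natCast_le (hv : IsNonarchimedean v) {B : ℝ} (hB : 0 ≤ B) (Q : K[X])
    (hQ : ∀ j, v (Q.coeff j) ≤ B) (n : ℕ) : v (Q.eval (n : K)) ≤ B := by
  rw [Polynomial.eval_eq_sum_range]
  obtain ⟨i, _, hi⟩ := hv.finset_image_add (by simp) (fun x => v.nonneg x)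
    (fun i => Q.coeff i * (n : K) ^ i) (range (Q.natDegree + 1))
  refine hi.trans ?_
  simp only [map_mul, map_pow]
  calc v (Q.coeff i) * v (n : K) ^ i ≤ B * 1 := by
        apply mul_le_mul (hQ i) _ (by positivity) hB
        exact pow_le_one₀ (v.nonneg _) (IsNonarchimedean.apply_natCast_le_one hv)
    _ = B := mul_one B

theorem coeff_le_of_mul (hv : IsNonarchimedean v) {B : ℝ} (hB : 0 ≤ B) (Q : K[X]) (t m : ℕ)
    (hP : ∀ j, m + 1 ≤ j → v (((X - C (t : K)) * Q).coeff j) ≤ B) :
    ∀ j, m ≤ j → v (Q.coeff j) ≤ B := by
  -- downward induction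
  have key : ∀ k j, m ≤ j → Q.natDegree < j + k → v (Q.coeff j) ≤ B := by
    intro k
    induction k with
    | zero =>
      intro j _ hj
      rw [Polynomial.coeff_eq_zero_of_natDegree_lt (by omega)]
      simpa using hB
    | succ k ih =>
      intro j hj hjk
      have h1 := ih (j + 1) (by omega) (by omega)
      have h2 := hP (j + 1) (by omega)
      have h3 : ((X - C (t : K)) * Q).coeff (j + 1) = Q.coeff j - (t : K) * Q.coeff (j + 1) := by
        rw [sub_mul, Polynomial.coeff_sub, Polynomial.coeff_X_mul, Polynomial.coeff_C_mul]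
      have h4 : Q.coeff j = ((X - C (t : K)) * Q).coeff (j + 1) + (t : K) * Q.coeff (j + 1) := by
        rw [h3]; ring
      rw [h4]
      refine (hv _ _).trans (max_le h2 ?_)
      rw [map_mul]
      calc v (t : K) * v (Q.coeff (j + 1)) ≤ 1 * B := by
            apply mul_le_mul (IsNonarchimedean.apply_natCast_le_one hv) h1 (v.nonneg _) zero_le_one
        _ = B := one_mul B
  intro j hj
  exact key (Q.natDegree + 1) j hj (by omega)

theorem eval_le_of_roots [CharZero K] (hv : IsNonarchimedean v) {B : ℝ} (hB : 0 ≤ B) :
    ∀ (T : Finset ℕ) (P : K[X]), (∀ t ∈ T, P.eval (t : K) = 0) →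
      (∀ j, T.card ≤ j → v (P.coeff j) ≤ B) → ∀ n : ℕ, v (P.eval (n : K)) ≤ B := by
  classical
  intro T
  induction T using Finset.induction_on with
  | empty =>
    intro P _ hP n
    exact eval_natCast_le v hv hB P (fun j => hP j (by simp)) n
  | insert t T ht ih =>
    intro P hr hP n
    have h0 : P.IsRoot (t : K) := hr t (Finset.mem_insert_self _ _)
    obtain ⟨Q, rfl⟩ := Polynomial.dvd_iff_isRoot.2 h0
    rw [Finset.card_insert_of_notMem ht] at hP
    have hQ := coeff_le_of_mul v hv hB Q t T.card hP
    have hrQ : ∀ s ∈ T, Q.eval (s : K) = 0 := by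
      intro s hs
      have := hr s (Finset.mem_insert_of_mem hs)
      rw [Polynomial.eval_mul] at this
      rcases mul_eq_zero.1 this with h | h
      · exfalso
        simp only [Polynomial.eval_sub, Polynomial.eval_X, Polynomial.eval_C] at h
        have : (s : K) = (t : K) := by linear_combination h
        rw [Nat.cast_inj] at this
        rw [this] at hs
        exact ht hs
      · exact h
    have h2 := ih Q hrQ hQ n
    rw [Polynomial.eval_mul, map_mul]
    calc v ((X - C (t : K)).eval (n : K)) * v (Q.eval (n : K)) ≤ 1 * B := by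
          apply mul_le_mul _ h2 (v.nonneg _) zero_le_one
          simp only [Polynomial.eval_sub, Polynomial.eval_X, Polynomial.eval_C]
          have : ((n : K) - (t : K)) = (((n : ℤ) - (t : ℤ) : ℤ) : K) := by push_cast; ring
          rw [this]
          exact IsNonarchimedean.apply_intCast_le_one hv
      _ = B := one_mul B

/-- the differences at `0` decay like `ρ ^ i` -/
def Decay (ρ : ℝ) (w : ℕ → K) : Prop := ∃ C : ℝ, ∀ i, v (((sh K - 1) ^ i) w 0) ≤ C * ρ ^ i

theorem le_factorial (hv : IsNonarchimedean v) {p : ℕ} (hp : p.Prime) (hp0 : v (p : K) < 1) (i : ℕ) :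
    v (p : K) ^ i ≤ v ((i.factorial : ℕ) : K) := by
  have hunit : ∀ m : ℕ, p.Coprime m → v (m : K) = 1 := by
    intro m hm
    apply le_antisymm (IsNonarchimedean.apply_natCast_le_one hv)
    have h1 : (1 : K) = (p : K) * ((p.gcdA m : ℤ) : K) + (m : K) * ((p.gcdB m : ℤ) : K) := by
      have := Nat.gcd_eq_gcd_ab p m
      rw [Nat.Coprime.gcd_eq_one hm] at this
      exact_mod_cast congrArg (Int.cast : ℤ → K) this
    by_contra hlt
    push Not at hlt
    have h2 : v 1 < 1 := by
      conv_lhs => rw [h1]
      refine (hv _ _).trans_lt (max_lt ?_ ?_)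
      · rw [map_mul]
        calc _ ≤ v (p : K) * 1 := by
              apply mul_le_mul_of_nonneg_left (IsNonarchimedean.apply_intCast_le_one hv) (v.nonneg _)
          _ < 1 := by simpa using hp0
      · rw [map_mul]
        calc _ ≤ v (m : K) * 1 := by
              apply mul_le_mul_of_nonneg_left (IsNonarchimedean.apply_intCast_le_one hv) (v.nonneg _)
          _ < 1 := by simpa using hlt
    simp at h2
  have : Fact p.Prime := ⟨hp⟩
  have hfac : i.factorial ≠ 0 := Nat.factorial_ne_zero i
  obtain ⟨a, m, hndvd, heq⟩ := Nat.exists_eq_pow_mul_and_not_dvd hfac p hp.ne_one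
  have hval : padicValNat p i.factorial = a := by
    have hm0 : m ≠ 0 := by rintro rfl; exact hndvd (dvd_zero p)
    rw [heq, padicValNat.mul (pow_ne_zero _ hp.ne_zero) hm0, padicValNat.prime_pow,
      padicValNat.eq_zero_of_not_dvd hndvd, add_zero]
  have hle : a ≤ i := by
    have h1 := sub_one_mul_padicValNat_factorial (p := p) i
    rw [hval] at h1
    have h2 : 1 ≤ p - 1 := by have := hp.two_le; omega
    calc a ≤ (p - 1) * a := Nat.le_mul_of_pos_left a h2
      _ = i - (p.digits i).sum := h1
      _ ≤ i := Nat.sub_le _ _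
  have h3 : v ((i.factorial : ℕ) : K) = v (p : K) ^ a := by
    rw [heq]
    push_cast
    rw [map_mul, map_pow, hunit m ((Nat.Prime.coprime_iff_not_dvd hp).2 hndvd), mul_one]
  rw [h3]
  exact pow_le_pow_of_le_one (v.nonneg _) hp0.le hle

theorem coeff_descPochhammer_le (hv : IsNonarchimedean v) (i j : ℕ) :
    v ((descPochhammer K i).coeff j) ≤ 1 := by
  rw [← descPochhammer_map (Int.castRingHom K) i, Polynomial.coeff_map]
  exact IsNonarchimedean.apply_intCast_le_one hv

theorem hansel [CharZero K] (hv : IsNonarchimedean v) {p : ℕ} (hp : p.Prime) (hp1 : v (p : K) < 1)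
    {ρ : ℝ} (hρ0 : 0 ≤ ρ) (hρ : ρ ≤ v (p : K) ^ 2) (w : ℕ → K) (hw : Decay v ρ w)
    (hinf : {n | w n = 0}.Infinite) : w = 0 := by
  obtain ⟨C, hC⟩ := hw
  have hC0 : 0 ≤ C := by
    have := hC 0
    rw [pow_zero, pow_zero, mul_one] at this
    exact (v.nonneg _).trans this
  have hp0 : 0 < v (p : K) := v.pos (by exact_mod_cast hp.ne_zero)
  have key : ∀ t m : ℕ, v (w t) ≤ C * v (p : K) ^ m := by
    intro t m
    obtain ⟨T, hT, hTcard⟩ := hinf.exists_subset_card_eq m
    let n := max (T.sup id) t
    let d : ℕ → K := fun i => ((sh K - 1) ^ i) w 0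
    let P : K[X] := ∑ i ∈ range (n + 1), Polynomial.C (d i / (i.factorial : K)) * descPochhammer K i
    have hPeval : ∀ s : ℕ, s ≤ n → P.eval (s : K) = w s := by
      intro s hs
      rw [newton w s]
      have h1 : P.eval (s : K) = ∑ i ∈ range (n + 1), (s.choose i : K) * d i := by
        simp only [P, Polynomial.eval_finsetSum, Polynomial.eval_mul, Polynomial.eval_C]
        apply Finset.sum_congr rfl
        intro i _
        rw [descPochhammer_eval_eq_descFactorial, Nat.descFactorial_eq_factorial_mul_choose]
        have : (i.factorial : K) ≠ 0 := by exact_mod_cast Nat.factorial_ne_zero i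
        push_cast
        field_simp
      rw [h1]
      symm
      apply Finset.sum_subset
      · intro i hi
        rw [mem_range] at hi ⊢
        omega
      · intro i _ hi
        rw [mem_range, not_lt] at hi
        rw [Nat.choose_eq_zero_of_lt (by omega)]
        simp
    have hcoeff : ∀ j, v (P.coeff j) ≤ C * v (p : K) ^ j := by
      intro j
      have h1 : P.coeff j = ∑ i ∈ range (n + 1), (d i / (i.factorial : K)) * (descPochhammer K i).coeff j := by
        simp only [P, Polynomial.finsetSum_coeff, Polynomial.coeff_C_mul]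
      rw [h1]
      obtain ⟨i, _, hi⟩ := hv.finset_image_add (by simp) (fun x => v.nonneg x)
        (fun i => (d i / (i.factorial : K)) * (descPochhammer K i).coeff j) (range (n + 1))
      refine hi.trans ?_
      by_cases hji : i < j
      · have : (descPochhammer K i).coeff j = 0 := by
          apply Polynomial.coeff_eq_zero_of_natDegree_lt
          rw [descPochhammer_natDegree]
          exact hji
        rw [this, mul_zero, map_zero]
        positivity
      · push Not at hji
        rw [map_mul, map_div₀]
        have h2 := le_factorial v hv hp hp1 i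
        have h3 := coeff_descPochhammer_le v hv i j
        have h4 : v (d i) / v ((i.factorial : ℕ) : K) ≤ C * v (p : K) ^ i := by
          rw [div_le_iff₀ (lt_of_lt_of_le (pow_pos hp0 i) h2)]
          calc v (d i) ≤ C * ρ ^ i := hC i
            _ ≤ C * (v (p : K) ^ 2) ^ i := by
                apply mul_le_mul_of_nonneg_left _ hC0
                exact pow_le_pow_left₀ hρ0 hρ i
            _ = C * v (p : K) ^ i * v (p : K) ^ i := by ring
            _ ≤ C * v (p : K) ^ i * v ((i.factorial : ℕ) : K) := by
                apply mul_le_mul_of_nonneg_left h2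
                positivity
        calc v (d i) / v ((i.factorial : ℕ) : K) * v ((descPochhammer K i).coeff j)
            ≤ (C * v (p : K) ^ i) * 1 := by
              apply mul_le_mul h4 h3 (v.nonneg _)
              positivity
          _ = C * v (p : K) ^ i := mul_one _
          _ ≤ C * v (p : K) ^ j := by
              apply mul_le_mul_of_nonneg_left _ hC0
              exact pow_le_pow_of_le_one hp0.le hp1.le hji
    have h5 := eval_le_of_roots v hv (B := C * v (p : K) ^ m) (by positivity) T P
      (fun s hs => by
        rw [hPeval s]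
        · exact hT hs
        · exact le_trans (Finset.le_sup (f := id) hs) (le_max_left _ _))
      (fun j hj => by
        refine (hcoeff j).trans ?_
        apply mul_le_mul_of_nonneg_left _ hC0
        exact pow_le_pow_of_le_one hp0.le hp1.le (by omega)) t
    rwa [hPeval t (le_max_right _ _)] at h5
  funext t
  have hlim : Filter.Tendsto (fun m => C * v (p : K) ^ m) Filter.atTop (nhds (C * 0)) :=
    (tendsto_pow_atTop_nhds_zero_of_lt_one hp0.le hp1).const_mul C
  rw [mul_zero] at hlim
  have h6 : v (w t) ≤ 0 := ge_of_tendsto' hlim (fun m => key t m)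
  have h7 : v (w t) = 0 := le_antisymm h6 (v.nonneg _)
  simpa using h7

end hansel
end Pool.Agent.Work.MP_e97a4d_nt
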