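import Mathlib
import Pool.Agent.Work.MP_e97a4d_nt.Hansel

/-!
Exponential polynomials with bases in a multiplicative group, as sequences.
-/

open Finset Polynomial

namespace Pool.Agent.Work.MP_e97a4d_nt

section decay
variable {K : Type*} [Field K] (v : AbsoluteValue K ℝ)

theorem Decay.add (hv : IsNonarchimedean v) {ρ : ℝ} (hρ : 0 ≤ ρ) {w w' : ℕ → K} (h : Decay v ρ w)
    (h' : Decay v ρ w') : Decay v ρ (w + w') := by
  obtain ⟨C, hC⟩ := h
  obtain ⟨C', hC'⟩ := h'
  refine ⟨max C C', fun i => ?_⟩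
  rw [map_add, Pi.add_apply]
  refine (hv _ _).trans (max_le ?_ ?_)
  · exact (hC i).trans (mul_le_mul_of_nonneg_right (le_max_left _ _) (pow_nonneg hρ i))
  · exact (hC' i).trans (mul_le_mul_of_nonneg_right (le_max_right _ _) (pow_nonneg hρ i))

theorem Decay.zero {ρ : ℝ} : Decay v ρ (0 : ℕ → K) :=
  ⟨0, fun i => by simp⟩

theorem Decay.sum (hv : IsNonarchimedean v) {ρ : ℝ} (hρ : 0 ≤ ρ) {ι : Type*} (s : Finset ι)
    (w : ι → ℕ → K) (h : ∀ i ∈ s, Decay v ρ (w i)) : Decay v ρ (∑ i ∈ s, w i) := by
  classical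
  induction s using Finset.induction_on with
  | empty => simpa using Decay.zero v
  | insert a s ha ih =>
    rw [Finset.sum_insert ha]
    exact Decay.add v hv hρ (h a (mem_insert_self _ _)) (ih fun i hi => h i (mem_insert_of_mem hi))

/-- generalised eigenvectors of the shift with eigenvalue close to `1` decay -/
theorem decay_of_genEigen (hv : IsNonarchimedean v) {ρ : ℝ} (hρ : 0 < ρ) {β : K}
    (hβ : v (β - 1) ≤ ρ) {k : ℕ} {w : ℕ → K}
    (hw : ((sh K - algebraMap K (Module.End K (ℕ → K)) β) ^ k) w = 0) : Decay v ρ w := by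
  set N := sh K - algebraMap K (Module.End K (ℕ → K)) β with hN
  have hNj : ∀ j, k ≤ j → (N ^ j) w = 0 := by
    intro j hj
    obtain ⟨l, rfl⟩ := Nat.exists_eq_add_of_le hj
    rw [add_comm, pow_add, Module.End.mul_apply, hw, map_zero]
  have hsplit : sh K - 1 = N + algebraMap K (Module.End K (ℕ → K)) (β - 1) := by
    rw [hN, map_sub, map_one]; abel
  let C := ∑ j ∈ range k, v ((N ^ j) w 0) * (ρ⁻¹) ^ j
  have hC0 : 0 ≤ C := Finset.sum_nonneg fun j _ => by positivity
  refine ⟨C, fun i => ?_⟩
  have hcomm : Commute N (algebraMap K (Module.End K (ℕ → K)) (β - 1)) :=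
    (Algebra.commutes (β - 1) N).symm
  have h1 : ((sh K - 1) ^ i) w 0 = ∑ j ∈ range (i + 1), ((β - 1) ^ (i - j) * (i.choose j : K)) * (N ^ j) w 0 := by
    rw [hsplit, hcomm.add_pow, LinearMap.sum_apply, Finset.sum_apply]
    apply Finset.sum_congr rfl
    intro j _
    have h2 : N ^ j * algebraMap K (Module.End K (ℕ → K)) (β - 1) ^ (i - j) * ((i.choose j : ℕ) : Module.End K (ℕ → K))
        = algebraMap K (Module.End K (ℕ → K)) ((β - 1) ^ (i - j) * (i.choose j : K)) * N ^ j := by
      rw [Algebra.commutes, map_mul, map_pow, map_natCast, mul_assoc]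
    rw [h2, Module.End.mul_apply, Module.algebraMap_end_apply]
    rfl
  rw [h1]
  obtain ⟨j, hj, hle⟩ := hv.finset_image_add (by simp) (fun x => v.nonneg x)
    (fun j => ((β - 1) ^ (i - j) * (i.choose j : K)) * (N ^ j) w 0) (range (i + 1))
  have hj' := mem_range.1 (hj ⟨0, by simp⟩)
  refine hle.trans ?_
  by_cases hjk : k ≤ j
  · rw [hNj j hjk]
    simp only [Pi.zero_apply, mul_zero, map_zero]
    positivity
  · push Not at hjk
    rw [map_mul, map_mul, map_pow]
    have h3 : v (β - 1) ^ (i - j) * v ((i.choose j : ℕ) : K) ≤ ρ ^ (i - j) := by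
      calc _ ≤ ρ ^ (i - j) * 1 := by
            apply mul_le_mul (pow_le_pow_left₀ (v.nonneg _) hβ _)
              (IsNonarchimedean.apply_natCast_le_one hv) (v.nonneg _) (by positivity)
        _ = _ := mul_one _
    have h4 : ρ ^ (i - j) = ρ ^ i * (ρ⁻¹) ^ j := by
      rw [inv_pow, ← div_eq_mul_inv, eq_div_iff (by positivity), ← pow_add]
      congr 1
      omega
    calc _ ≤ ρ ^ (i - j) * v ((N ^ j) w 0) := mul_le_mul_of_nonneg_right h3 (v.nonneg _)
      _ = (v ((N ^ j) w 0) * (ρ⁻¹) ^ j) * ρ ^ i := by rw [h4]; ring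
      _ ≤ C * ρ ^ i := by
          apply mul_le_mul_of_nonneg_right _ (by positivity)
          exact Finset.single_le_sum (f := fun j => v ((N ^ j) w 0) * (ρ⁻¹) ^ j)
            (fun j _ => by positivity) (mem_range.2 hjk)

end decay

section genEigen
variable {K : Type*} [Field K]

/-- the operator `sh - β` acts on `f n * β ^ n` through the difference of `f` -/
theorem genEigen_apply (β : K) (f : ℕ → K) (k : ℕ) :
    ((sh K - algebraMap K (Module.End K (ℕ → K)) β) ^ k) (fun n => f n * β ^ n) =
      fun n => β ^ k * (((sh K - 1) ^ k) f n * β ^ n) := by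
  induction k generalizing f with
  | zero => simp
  | succ k ih =>
    have h1 : (sh K - algebraMap K (Module.End K (ℕ → K)) β) (fun n => f n * β ^ n) =
        fun n => (β * ((sh K - 1) f n)) * β ^ n := by
      funext n
      rw [LinearMap.sub_apply, Module.algebraMap_end_apply, LinearMap.sub_apply, Module.End.one_apply]
      simp only [Pi.sub_apply, sh_apply, Pi.smul_apply, smul_eq_mul]
      ring
    rw [pow_succ, Module.End.mul_apply, h1, ih]
    funext n
    have h2 : ((sh K - 1) ^ k) (fun n => β * ((sh K - 1) f n)) = β • ((sh K - 1) ^ (k + 1)) f := by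
      rw [pow_succ, Module.End.mul_apply, ← map_smul]
      rfl
    rw [h2]
    simp only [Pi.smul_apply, smul_eq_mul]
    ring

theorem sh_sub_one_pow_eval (g : K → K) (k : ℕ) :
    ((sh K - 1) ^ k) (fun n : ℕ => g (n : K)) = fun n : ℕ => (fwdDiff (1 : K))^[k] g (n : K) := by
  induction k generalizing g with
  | zero => simp
  | succ k ih =>
    have h1 : (sh K - 1) (fun n : ℕ => g (n : K)) = fun n : ℕ => (fwdDiff (1 : K) g) (n : K) := by
      funext n
      rw [LinearMap.sub_apply, Module.End.one_apply]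
      simp [sh_apply, fwdDiff]
    rw [pow_succ, Module.End.mul_apply, h1, ih, Function.iterate_succ_apply]

theorem genEigen_poly (β : K) (Q : K[X]) {k : ℕ} (hk : Q.natDegree < k) :
    ((sh K - algebraMap K (Module.End K (ℕ → K)) β) ^ k) (fun n : ℕ => Q.eval (n : K) * β ^ n) = 0 := by
  rw [genEigen_apply, sh_sub_one_pow_eval (fun x => Q.eval x)]
  funext n
  have := congrFun (Polynomial.fwdDiff_iter_eq_zero_of_degree_lt hk) (n : K)
  simp only [Pi.zero_apply] at this ⊢
  rw [this]
  simp

/-- sequences `n ↦ Q n * β ^ n` with distinct `β` are linearly independent -/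
theorem indep_exp {ι : Type*} [CharZero K] (s : Finset ι) (β : ι → K) (hβ0 : ∀ i ∈ s, β i ≠ 0)
    (hβ : Set.InjOn β s) (Q : ι → K[X])
    (h : ∀ n : ℕ, ∑ i ∈ s, (Q i).eval (n : K) * β i ^ n = 0) : ∀ i ∈ s, Q i = 0 := by
  classical
  intro i hi
  have hind := Module.End.independent_maxGenEigenspace (sh K)
  -- the vector of the family attached to `i`
  let u : ι → ℕ → K := fun i n => (Q i).eval (n : K) * β i ^ n
  have hu : ∀ i, u i ∈ (sh K).maxGenEigenspace (β i) := by
    intro i
    rw [Module.End.mem_maxGenEigenspace]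
    refine ⟨(Q i).natDegree + 1, ?_⟩
    have := genEigen_poly (β i) (Q i) (k := (Q i).natDegree + 1) (Nat.lt_succ_self _)
    rw [Module.algebraMap_end_eq_smul_id] at this
    exact this
  have hsum : ∑ i ∈ s, u i = 0 := by
    funext n
    rw [Finset.sum_apply]
    exact h n
  have hui : u i = 0 := by
    -- reindex by eigenvalues
    have hinj : Function.Injective (fun j : s => β j.1) := fun a b hab =>
      Subtype.ext (hβ a.2 b.2 hab)
    have h1 := (iSupIndep_iff_finsetSum_eq_zero_imp_eq_zero _).1 (hind.comp hinj) Finset.univ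
      (fun j => u j.1) (fun j _ => hu j.1) (by
        rw [Finset.sum_coe_sort s u]; exact hsum) ⟨i, hi⟩ (Finset.mem_univ _)
    exact h1
  have h2 : ∀ n : ℕ, (Q i).eval (n : K) = 0 := by
    intro n
    have := congrFun hui n
    simp only [u, Pi.zero_apply, mul_eq_zero] at this
    rcases this with h | h
    · exact h
    · exact absurd h (pow_ne_zero _ (hβ0 i hi))
  apply Polynomial.eq_zero_of_infinite_isRoot
  refine Set.infinite_of_injective_forall_mem (f := fun n : ℕ => (n : K)) Nat.cast_injective ?_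
  intro n
  exact h2 n

end genEigen
end Pool.Agent.Work.MP_e97a4d_nt
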