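import Mathlib
import Pool.Agent.Work.MP_e97a4d_nt.ExpDefs
import Pool.Agent.Work.MP_e97a4d_nt.ExpSeq
import Pool.Agent.Work.MP_e97a4d_nt.Weights

/-!
The algebra of exponential polynomials as a monoid algebra, and its specializations to Laurent
polynomials.
-/

set_option autoImplicit false

namespace Pool.Agent.Work.MP_e97a4d_nt

open Polynomial Finset

/-- Formal exponential polynomials: the basis element `(k, α)` stands for `z ^ k * exp (α z)`. -/
abbrev EE : Type := AddMonoidAlgebra ℂ (ℕ × ℂ)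

/-- The function attached to a formal exponential polynomial. -/
noncomputable def evE : EE →ₐ[ℂ] (ℂ → ℂ) :=
  AddMonoidAlgebra.lift ℂ (ℂ → ℂ) (ℕ × ℂ)
    { toFun := fun m z => z ^ (Multiplicative.toAdd m).1 *
        Complex.exp ((Multiplicative.toAdd m).2 * z)
      map_one' := by funext z; simp
      map_mul' := by
        intro a b
        funext z
        simp only [toAdd_mul, Prod.fst_add, Prod.snd_add, Pi.mul_apply, pow_add, add_mul,
          Complex.exp_add]
        ring }

theorem evE_single (m : ℕ × ℂ) (c : ℂ) (z : ℂ) :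
    evE (AddMonoidAlgebra.single m c) z = c * (z ^ m.1 * Complex.exp (m.2 * z)) := by
  simp [evE, AddMonoidAlgebra.lift_single]

theorem evE_apply (X : EE) (z : ℂ) :
    evE X z = ∑ m ∈ X.coeff.support, X.coeff m * (z ^ m.1 * Complex.exp (m.2 * z)) := by
  have h1 : X = ∑ m ∈ X.coeff.support, AddMonoidAlgebra.single m (X.coeff m) := by
    ext m
    rw [AddMonoidAlgebra.coeff_sum, Finset.sum_apply']
    simp only [AddMonoidAlgebra.coeff_single, Finsupp.single_apply]
    rw [Finset.sum_ite_eq' X.coeff.support m]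
    by_cases hm : m ∈ X.coeff.support
    · rw [if_pos hm]
    · rw [if_neg hm]
      exact Finsupp.notMem_support_iff.1 hm
  conv_lhs => rw [h1]
  rw [map_sum, Finset.sum_apply]
  exact Finset.sum_congr rfl fun m _ => evE_single _ _ _

theorem exists_scale (s : Finset ℂ) : ∃ ε : ℂ, ε ≠ 0 ∧
    Set.InjOn (fun α : ℂ => Complex.exp (α * ε)) s := by
  obtain ⟨R, hR⟩ := (s.image fun α => ‖α‖).exists_le
  have hpos : 0 < |R| + 1 := by positivity
  have hle : ∀ α ∈ s, ‖α * (((|R| + 1)⁻¹ : ℝ) : ℂ)‖ < 1 := by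
    intro α hα
    rw [norm_mul, Complex.norm_real, Real.norm_of_nonneg (by positivity), mul_inv_lt_iff₀ hpos,
      one_mul]
    have h1 := hR ‖α‖ (Finset.mem_image_of_mem _ hα)
    have h2 := le_abs_self R
    linarith
  refine ⟨(((|R| + 1)⁻¹ : ℝ) : ℂ), ?_, ?_⟩
  · rw [Ne, Complex.ofReal_eq_zero]
    positivity
  · intro α hα β hβ h
    obtain ⟨n, hn⟩ := Complex.exp_eq_exp_iff_exists_int.1 h
    have h1 : ‖(n : ℂ) * (2 * Real.pi * Complex.I)‖ < 2 := by
      have h2 : (n : ℂ) * (2 * Real.pi * Complex.I) =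
          α * (((|R| + 1)⁻¹ : ℝ) : ℂ) - β * (((|R| + 1)⁻¹ : ℝ) : ℂ) := by
        rw [hn]; ring
      rw [h2]
      have h3 := norm_sub_le (α * (((|R| + 1)⁻¹ : ℝ) : ℂ)) (β * (((|R| + 1)⁻¹ : ℝ) : ℂ))
      have h4 := hle α hα
      have h5 := hle β hβ
      linarith
    have hn0 : n = 0 := by
      by_contra hn0
      have h2 : (1 : ℝ) ≤ |(n : ℝ)| := by
        exact_mod_cast Int.one_le_abs hn0
      rw [norm_mul, norm_mul, norm_mul, Complex.norm_I, Complex.norm_real, Complex.norm_ofNat,
        Real.norm_of_nonneg Real.pi_pos.le, mul_one] at h1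
      have h3 : ‖(n : ℂ)‖ = |(n : ℝ)| := by
        rw [← Complex.ofReal_intCast, Complex.norm_real, Real.norm_eq_abs]
      rw [h3] at h1
      have h4 := Real.pi_gt_three
      nlinarith
    rw [hn0, Int.cast_zero, zero_mul, add_zero] at hn
    refine mul_right_cancel₀ ?_ hn
    rw [Ne, Complex.ofReal_eq_zero]
    positivity

theorem evE_injective : Function.Injective evE := by
  classical
  rw [injective_iff_map_eq_zero]
  intro X hX
  let s : Finset ℂ := X.coeff.support.image Prod.snd
  let P : ℂ → ℂ[X] := fun α => ∑ m ∈ X.coeff.support.filter (fun m => m.2 = α),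
    Polynomial.C (X.coeff m) * Polynomial.X ^ m.1
  obtain ⟨ε, hε, hinj⟩ := exists_scale s
  have h1 : ∀ z, ∑ α ∈ s, (P α).eval z * Complex.exp (α * z) = 0 := by
    intro z
    have h2 : evE X z = 0 := by rw [hX]; rfl
    rw [evE_apply] at h2
    rw [← h2, ← Finset.sum_fiberwise_of_maps_to (t := s) (g := Prod.snd)
      (fun m hm => Finset.mem_image_of_mem _ hm)]
    apply Finset.sum_congr rfl
    intro α _
    simp only [P, Polynomial.eval_finsetSum, Finset.sum_mul]
    apply Finset.sum_congr rfl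
    intro m hm
    rw [Finset.mem_filter] at hm
    simp [hm.2]
    ring
  have h2 : ∀ α ∈ s, (P α).comp (Polynomial.C ε * Polynomial.X) = 0 := by
    apply indep_exp s (fun α => Complex.exp (α * ε)) (fun _ _ => Complex.exp_ne_zero _) hinj
    intro n
    rw [← h1 (ε * n)]
    apply Finset.sum_congr rfl
    intro α _
    rw [← Complex.exp_nat_mul]
    simp only [Polynomial.eval_comp, Polynomial.eval_mul, Polynomial.eval_C, Polynomial.eval_X]
    congr 2
    ring
  have h3 : ∀ α ∈ s, P α = 0 := by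
    intro α hα
    have h4 := congrArg (fun q : ℂ[X] => q.comp (Polynomial.C ε⁻¹ * Polynomial.X)) (h2 α hα)
    simp only [Polynomial.comp_assoc, Polynomial.zero_comp] at h4
    have h5 : (Polynomial.C ε * Polynomial.X : ℂ[X]).comp (Polynomial.C ε⁻¹ * Polynomial.X) =
        Polynomial.X := by
      simp only [Polynomial.mul_comp, Polynomial.C_comp, Polynomial.X_comp]
      rw [← mul_assoc, ← Polynomial.C_mul, mul_inv_cancel₀ hε, Polynomial.C_1, one_mul]
    rwa [h5, Polynomial.comp_X] at h4
  ext m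
  by_contra hm
  have hm' : m ∈ X.coeff.support := Finsupp.mem_support_iff.2 hm
  have h4 := congrArg (fun q : ℂ[X] => q.coeff m.1) (h3 m.2 (Finset.mem_image_of_mem _ hm'))
  simp only [P, Polynomial.finsetSum_coeff, Polynomial.coeff_C_mul, Polynomial.coeff_X_pow,
    Polynomial.coeff_zero] at h4
  rw [Finset.sum_eq_single m] at h4
  · simp at h4
    exact hm h4
  · intro m' hm'' hne
    rw [Finset.mem_filter] at hm''
    rw [if_neg, mul_zero]
    intro h5
    exact hne (Prod.ext h5.symm hm''.2)
  · intro h5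
    exact absurd (Finset.mem_filter (p := fun m' : ℕ × ℂ => m'.2 = m.2) |>.2 ⟨hm', rfl⟩) h5

theorem expPoly_le_range : expPoly ≤ evE.range := by
  refine Algebra.adjoin_le ?_
  rintro _ (rfl | ⟨α, rfl⟩)
  · refine ⟨AddMonoidAlgebra.single (1, 0) 1, ?_⟩
    funext z
    show evE _ z = z
    rw [evE_single]
    simp
  · refine ⟨AddMonoidAlgebra.single (0, α) 1, ?_⟩
    funext z
    show evE _ z = _
    rw [evE_single]
    simp

end Pool.Agent.Work.MP_e97a4d_nt
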