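import Mathlib
import Pool.Agent.Work.MP_e97a4d_nt.ExpAlg

/-!
Specialization of exponential polynomials to Laurent polynomials.
-/

set_option autoImplicit false

namespace Pool.Agent.Work.MP_e97a4d_nt

open Finset

/-- exponents as elements of a rational vector space -/
def toW : ℕ × ℂ →+ ℚ × ℂ where
  toFun m := ((m.1 : ℚ), m.2)
  map_zero' := by simp
  map_add' a b := by simp

theorem toW_injective : Function.Injective toW := by
  intro a b h
  have h1 := congrArg Prod.fst h
  have h2 := congrArg Prod.snd h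
  exact Prod.ext (Nat.cast_injective h1) h2

/-- A generic integral weight on a finitely generated monoid of exponents. -/
theorem exists_int_hom (T S : Finset (ℕ × ℂ)) :
    ∃ φ : AddSubmonoid.closure (T : Set (ℕ × ℂ)) →+ ℤ,
      ∀ a b : AddSubmonoid.closure (T : Set (ℕ × ℂ)), a.1 ∈ S → b.1 ∈ S → φ a = φ b → a = b := by
  classical
  let v : {p : (S × S) // p.1 ≠ p.2} → ℚ × ℂ := fun p => toW p.1.1 - toW p.1.2
  obtain ⟨f, hf⟩ := Module.exists_dual_forall_apply_ne_zero (K := ℚ) v (by
    intro p h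
    apply p.2
    exact Subtype.ext (toW_injective (sub_eq_zero.1 h)))
  let D : ℕ := ∏ t ∈ T, (f (toW t)).den
  have hD : (D : ℚ) ≠ 0 := by
    have : D ≠ 0 := Finset.prod_ne_zero_iff.2 fun t _ => (f (toW t)).den_ne_zero
    exact_mod_cast this
  let N : AddSubmonoid (ℕ × ℂ) :=
    { carrier := {x | ∃ k : ℤ, (D : ℚ) * f (toW x) = k}
      zero_mem' := ⟨0, by simp⟩
      add_mem' := by
        rintro a b ⟨k, hk⟩ ⟨l, hl⟩
        exact ⟨k + l, by rw [map_add, map_add, mul_add, hk, hl]; push_cast; rfl⟩ }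
  have hTN : AddSubmonoid.closure (T : Set (ℕ × ℂ)) ≤ N := by
    rw [AddSubmonoid.closure_le]
    intro t ht
    obtain ⟨k, hk⟩ := Finset.dvd_prod_of_mem (fun t => (f (toW t)).den) ht
    refine ⟨k * (f (toW t)).num, ?_⟩
    have h1 : (f (toW t)) * ((f (toW t)).den : ℚ) = (f (toW t)).num := Rat.mul_den_eq_num _
    have h2 : (D : ℚ) = ((f (toW t)).den : ℚ) * k := by
      exact_mod_cast hk
    rw [h2]
    push_cast
    rw [← h1]
    ring
  choose φ hφ using fun x : AddSubmonoid.closure (T : Set (ℕ × ℂ)) => hTN x.2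
  refine ⟨{ toFun := φ, map_zero' := ?_, map_add' := ?_ }, ?_⟩
  · apply Int.cast_injective (α := ℚ)
    rw [← hφ]
    simp
  · intro a b
    apply Int.cast_injective (α := ℚ)
    push_cast
    rw [← hφ, ← hφ, ← hφ, AddSubmonoid.coe_add, map_add, map_add, mul_add]
  · intro a b ha hb hab
    by_contra hne
    have hne' : (⟨a.1, ha⟩ : S) ≠ ⟨b.1, hb⟩ := by
      intro h
      have h0 : a.1 = b.1 := congrArg (fun x : S => x.1) h
      exact hne (Subtype.ext h0)
    apply hf ⟨(⟨a.1, ha⟩, ⟨b.1, hb⟩), hne'⟩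
    have h1 : (D : ℚ) * f (toW a) = (D : ℚ) * f (toW b) := by
      rw [hφ a, hφ b]
      exact_mod_cast hab
    show f (toW a.1 - toW b.1) = 0
    rw [map_sub, mul_left_cancel₀ hD h1, sub_self]

/-- **Specialization to Laurent polynomials.** -/
theorem exists_specialization_exp {R A : Type} [CommRing R] [CommRing A] {n : ℕ}
    (ψ : R →+* A) (t : Fin n → A) (ht : Function.Surjective (MvPolynomial.eval₂Hom ψ t))
    (ρ : R →+* ℂ) (G : A →+* EE) (hG : ∀ r, G (ψ r) = algebraMap ℂ EE (ρ r)) (Φ : Finset A) :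
    ∃ G' : A →+* LaurentPolynomial ℂ, (∀ r, G' (ψ r) = LaurentPolynomial.C (ρ r)) ∧
      ∀ P ∈ Φ, ∀ Q ∈ Φ, ∀ c : ℂ, G' P = LaurentPolynomial.C c * G' Q →
        G P = algebraMap ℂ EE c * G Q := by
  classical
  let T : Finset (ℕ × ℂ) := Finset.univ.biUnion fun k => (G (t k)).coeff.support
  let N := AddSubmonoid.closure (T : Set (ℕ × ℂ))
  let incl : AddMonoidAlgebra ℂ N →+* EE := AddMonoidAlgebra.mapDomainRingHom ℂ N.subtype
  have hincl : Function.Injective incl := by
    have h1 : Function.Injective (AddMonoidAlgebra.mapDomain (R := ℂ) N.subtype) :=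
      AddMonoidAlgebra.mapDomain_injective Subtype.val_injective
    exact h1
  have hsingle : ∀ (m : N) (c : ℂ), incl (AddMonoidAlgebra.single m c) =
      AddMonoidAlgebra.single m.1 c := by
    intro m c
    exact AddMonoidAlgebra.mapDomain_single
  have hrange : ∀ a, G a ∈ incl.range := by
    intro a
    obtain ⟨X, rfl⟩ := ht a
    induction X using MvPolynomial.induction_on with
    | C r =>
      refine ⟨AddMonoidAlgebra.single 0 (ρ r), ?_⟩
      rw [hsingle]
      have h1 := hG r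
      simp only [MvPolynomial.coe_eval₂Hom, MvPolynomial.eval₂_C]
      rw [h1]
      rfl
    | add p q hp hq => rw [map_add, map_add]; exact Subring.add_mem _ hp hq
    | mul_X p k hp =>
      rw [map_mul, map_mul]
      refine Subring.mul_mem _ hp ?_
      simp only [MvPolynomial.coe_eval₂Hom, MvPolynomial.eval₂_X]
      have h1 : G (t k) = ∑ m ∈ (G (t k)).coeff.support,
          AddMonoidAlgebra.single m ((G (t k)).coeff m) := by
        ext m
        rw [AddMonoidAlgebra.coeff_sum, Finset.sum_apply']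
        simp only [AddMonoidAlgebra.coeff_single, Finsupp.single_apply]
        rw [Finset.sum_ite_eq' _ m]
        by_cases hm : m ∈ (G (t k)).coeff.support
        · rw [if_pos hm]
        · rw [if_neg hm]
          exact Finsupp.notMem_support_iff.1 hm
      rw [h1]
      refine Subring.sum_mem _ fun m hm => ?_
      have hmN : m ∈ N := AddSubmonoid.subset_closure
        (Finset.mem_coe.2 (Finset.mem_biUnion.2 ⟨k, Finset.mem_univ _, hm⟩))
      exact ⟨AddMonoidAlgebra.single ⟨m, hmN⟩ _, hsingle _ _⟩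
  obtain ⟨G₁, hG₁⟩ := exists_lift_of_range incl hincl G hrange
  have hG₁' : ∀ a, incl (G₁ a) = G a := fun a => RingHom.congr_fun hG₁ a
  let S : Finset (ℕ × ℂ) := Φ.biUnion fun a => (G₁ a).coeff.support.image Subtype.val
  obtain ⟨φ, hφ⟩ := exists_int_hom T S
  let sp : AddMonoidAlgebra ℂ N →+* LaurentPolynomial ℂ := AddMonoidAlgebra.mapDomainRingHom ℂ φ
  have hsp : ∀ a ∈ Φ, ∀ m : N, m.1 ∈ S → (sp (G₁ a)).coeff (φ m) = (G₁ a).coeff m := by
    intro a ha m hm
    have h1 : (sp (G₁ a)).coeff = Finsupp.mapDomain φ (G₁ a).coeff :=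
      AddMonoidAlgebra.coeff_mapDomain _ _
    rw [h1]
    refine Finsupp.mapDomain_apply' {m : N | m.1 ∈ S} _ ?_ ?_ hm
    · intro m' hm'
      exact Finset.mem_biUnion.2 ⟨a, ha, Finset.mem_image.2 ⟨m', hm', rfl⟩⟩
    · intro m₁ h₁ m₂ h₂ h
      exact hφ m₁ m₂ h₁ h₂ h
  refine ⟨sp.comp G₁, ?_, ?_⟩
  · intro r
    have h1 : G₁ (ψ r) = AddMonoidAlgebra.single 0 (ρ r) := by
      apply hincl
      rw [hG₁', hG, hsingle]
      rfl
    rw [RingHom.comp_apply, h1]
    have h2 : sp (AddMonoidAlgebra.single 0 (ρ r)) = AddMonoidAlgebra.single (φ 0) (ρ r) :=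
      AddMonoidAlgebra.mapDomain_single
    rw [h2, map_zero]
    rfl
  · intro P hP Q hQ c h
    have h1 : G₁ P = algebraMap ℂ (AddMonoidAlgebra ℂ N) c * G₁ Q := by
      ext m
      have h3 : (algebraMap ℂ (AddMonoidAlgebra ℂ N) c * G₁ Q).coeff m = c * (G₁ Q).coeff m := by
        rw [← Algebra.smul_def, AddMonoidAlgebra.coeff_smul]
        rfl
      rw [h3]
      by_cases hm : m.1 ∈ S
      · rw [← hsp P hP m hm, ← hsp Q hQ m hm]
        have h4 := congrArg (fun X : LaurentPolynomial ℂ => X.coeff (φ m)) h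
        simp only [RingHom.comp_apply] at h4
        have h5 : LaurentPolynomial.C c * sp (G₁ Q) = c • sp (G₁ Q) := by
          rw [Algebra.smul_def]; rfl
        rw [h4, h5, AddMonoidAlgebra.coeff_smul]
        rfl
      · have h5 : ∀ a ∈ Φ, (G₁ a).coeff m = 0 := by
          intro a ha
          by_contra hne
          apply hm
          exact Finset.mem_biUnion.2 ⟨a, ha, Finset.mem_image.2
            ⟨m, Finsupp.mem_support_iff.2 hne, rfl⟩⟩
        rw [h5 P hP, h5 Q hQ, mul_zero]
    rw [← hG₁', ← hG₁', h1, map_mul]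
    congr 1
    have h6 : algebraMap ℂ (AddMonoidAlgebra ℂ N) c = AddMonoidAlgebra.single 0 c := rfl
    rw [h6, hsingle]
    rfl

end Pool.Agent.Work.MP_e97a4d_nt
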