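import Mathlib
import Pool.Agent.Work.MP_e97a4d_nt.ExpSpec
import Pool.Agent.Work.MP_e97a4d_nt.CurveLemma

/-!
If all images of the multiplicative group lie in `V'` then so do all exponential polynomial curves.
-/

set_option autoImplicit false

namespace Pool.Agent.Work.MP_e97a4d_nt

open AlgebraicGeometry CategoryTheory IsDedekindDomain NumberField

/-- An affine open of the target around the image of a field valued point. -/
theorem exists_chart_data {V : Scheme.{0}} {B : CommRingCat.{0}} (c : Spec B ⟶ V)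
    {K : Type} [Field K] (g : B →+* K) :
    ∃ (U : V.Opens) (hU : IsAffineOpen U) (b : B)
      (θ : Γ(V, U) ⟶ CommRingCat.of (Localization.Away b)), g b ≠ 0 ∧
      Spec.map θ ≫ hU.fromSpec =
        Spec.map (CommRingCat.ofHom (algebraMap B (Localization.Away b))) ≫ c := by
  let p : PrimeSpectrum B := PrimeSpectrum.comap g ⊥
  obtain ⟨U, hU, hpU, -⟩ := exists_isAffineOpen_mem_and_subset (X := V) (x := c p) (U := ⊤) trivial
  have h1 : p ∈ (c ⁻¹ᵁ U : (Spec B).Opens) := hpU
  obtain ⟨_, ⟨b, rfl⟩, hpb, hbU⟩ := PrimeSpectrum.isTopologicalBasis_basic_opens.exists_subset_of_mem_open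
    h1 (c ⁻¹ᵁ U).isOpen
  have hgb : g b ≠ 0 := by
    intro h
    exact hpb (by
      show g b ∈ (⊥ : Ideal K)
      rw [h]; exact zero_mem _)
  have hq : Set.range (Spec.map (CommRingCat.ofHom (algebraMap B (Localization.Away b))) ≫ c) ⊆
      Set.range hU.fromSpec := by
    rintro _ ⟨y, rfl⟩
    rw [hU.range_fromSpec]
    have h2 : Spec.map (CommRingCat.ofHom (algebraMap B (Localization.Away b))) y ∈
        (PrimeSpectrum.basicOpen b : Set (PrimeSpectrum B)) := by
      intro (h : algebraMap B (Localization.Away b) b ∈ y.asIdeal)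
      exact y.2.ne_top (Ideal.eq_top_of_isUnit_mem _ h
        (IsLocalization.map_units (Localization.Away b)
          (⟨b, Submonoid.mem_powers b⟩ : Submonoid.powers b)))
    exact hbU h2
  obtain ⟨θ, hθ⟩ := Spec.map_surjective (IsOpenImmersion.lift hU.fromSpec _ hq)
  exact ⟨U, hU, b, θ, hgb, by rw [hθ, IsOpenImmersion.lift_fac]⟩

theorem Spec_map_comp_inj' {V : Scheme.{0}} {A : CommRingCat.{0}} (j : Spec A ⟶ V) [Mono j]
    {R : Type} [CommRing R] (φ ψ : A →+* R)
    (h : Spec.map (CommRingCat.ofHom φ) ≫ j = Spec.map (CommRingCat.ofHom ψ) ≫ j) : φ = ψ := by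
  rw [cancel_mono] at h
  exact congrArg CommRingCat.Hom.hom (Spec.map_injective h)

variable {F₀ : Type} [Field F₀] {V V' : Scheme.{0}}

theorem condIexp_of_condGm (σ : F₀ →+* ℂ)
    (π : V ⟶ Spec (CommRingCat.of (𝓞 F₀))) [IsSeparated π] (i : V' ⟶ V) [IsClosedImmersion i]
    (h : CondGm σ π i) : CondIexp σ π i := by
  classical
  intro A ψ hfin j hj g hgψ hgexp hnc z₂
  by_contra hz₂
  obtain ⟨z₀, z₁, hz⟩ := hnc
  have hV : V.IsSeparated := isSeparated_of_isSeparated π
  -- finite generation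
  obtain ⟨n, t, ht⟩ : ∃ (n : ℕ) (t : Fin n → A),
      Function.Surjective (MvPolynomial.eval₂Hom ψ t) := by
    let _ : Algebra (𝓞 F₀) A := ψ.toAlgebra
    have hfin' : Algebra.FiniteType (𝓞 F₀) A := hfin
    obtain ⟨n, f, hf⟩ := Algebra.FiniteType.iff_quotient_mvPolynomial''.1 hfin'
    refine ⟨n, fun k => f (MvPolynomial.X k), ?_⟩
    have h1 : (MvPolynomial.aeval (fun k : Fin n => f (MvPolynomial.X k)) :
        MvPolynomial (Fin n) (𝓞 F₀) →ₐ[𝓞 F₀] A) = f := by
      apply MvPolynomial.algHom_ext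
      intro k
      simp
    have h2 : Function.Surjective (MvPolynomial.aeval (fun k : Fin n => f (MvPolynomial.X k)) :
        MvPolynomial (Fin n) (𝓞 F₀) →ₐ[𝓞 F₀] A) := by rw [h1]; exact hf
    exact h2
  -- the homomorphism to formal exponential polynomials
  let ρ : 𝓞 F₀ →+* ℂ := σ.comp (algebraMap (𝓞 F₀) F₀)
  let evR : EE →+* (ℂ → ℂ) := evE
  have hevR : Function.Injective evR := evE_injective
  obtain ⟨G, hG⟩ := exists_lift_of_range evR hevR (RingHom.pi g) (fun a => by
    have h1 := expPoly_le_range (hgexp a)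
    obtain ⟨X, hX⟩ := h1
    exact ⟨X, hX⟩)
  have hGz : ∀ a z, evE (G a) z = g z a := by
    intro a z
    have h1 := RingHom.congr_fun hG a
    exact congrFun h1 z
  have hGψ : ∀ r, G (ψ r) = algebraMap ℂ EE (ρ r) := by
    intro r
    apply evE_injective
    funext z
    rw [hGz, AlgHom.commutes]
    exact congrArg (fun f : 𝓞 F₀ →+* ℂ => f r) (hgψ z)
  -- the ideal of `V'`
  obtain ⟨I, hI⟩ := exists_ideal_factors i j
  obtain ⟨r₂, hr₂I, hr₂⟩ : ∃ r ∈ I, g z₂ r ≠ 0 := by
    by_contra hcon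
    push Not at hcon
    exact hz₂ ((hI _ (CommRingCat.ofHom (g z₂))).2 hcon)
  -- a chart around the point of parameter `z₀`
  obtain ⟨U, hU, b, θ, hgb, hθ⟩ := exists_chart_data j (g z₀)
  -- extension of points to the localization
  have hext : ∀ (φ : A →+* ℂ), φ b ≠ 0 → ∃ φ' : Localization.Away b →+* ℂ,
      φ'.comp (algebraMap A (Localization.Away b)) = φ ∧
      Spec.map (CommRingCat.ofHom φ) ≫ j =
        Spec.map (CommRingCat.ofHom (φ'.comp θ.hom)) ≫ hU.fromSpec := by
    intro φ hφ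
    refine ⟨IsLocalization.Away.lift b (g := φ) (isUnit_iff_ne_zero.2 hφ),
      IsLocalization.Away.lift_comp _ _, ?_⟩
    have h3 : Spec.map (CommRingCat.ofHom ((IsLocalization.Away.lift b (g := φ)
        (isUnit_iff_ne_zero.2 hφ) : Localization.Away b →+* ℂ).comp θ.hom)) =
        Spec.map (CommRingCat.ofHom (IsLocalization.Away.lift b (g := φ)
          (isUnit_iff_ne_zero.2 hφ) : Localization.Away b →+* ℂ)) ≫ Spec.map θ := by
      rw [← Spec.map_comp]; rfl
    have h4 : (IsLocalization.Away.lift b (g := φ)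
          (isUnit_iff_ne_zero.2 hφ) : Localization.Away b →+* ℂ).comp
            (algebraMap A (Localization.Away b)) = φ := IsLocalization.Away.lift_comp _ _
    rw [h3, Category.assoc, hθ, ← Category.assoc, ← Spec.map_comp, ← CommRingCat.ofHom_comp, h4]
  -- numerators and denominators
  have hfrac : ∀ a' : Γ(V, U), ∃ P : A, ∃ k : ℕ, algebraMap A (Localization.Away b) P =
      θ.hom a' * algebraMap A (Localization.Away b) (b ^ (k + 1)) := by
    intro a'
    obtain ⟨⟨β, s⟩, hβ⟩ := IsLocalization.surj (Submonoid.powers b) (θ.hom a')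
    obtain ⟨k, hk⟩ := s.2
    refine ⟨β * b, k, ?_⟩
    simp only at hβ hk
    rw [map_mul, ← hβ, ← hk, pow_succ, map_mul, mul_assoc]
  choose P k hPk using hfrac
  -- some function on the chart is not constant along the curve
  have hclaim : ∃ a' : Γ(V, U), ∀ c : ℂ, G (P a') ≠ algebraMap ℂ EE c * G (b ^ (k a' + 1)) := by
    by_contra hcon
    push Not at hcon
    choose c hc using hcon
    have hval : ∀ z, g z b ≠ 0 → ∀ φ' : Localization.Away b →+* ℂ,
        φ'.comp (algebraMap A (Localization.Away b)) = g z → ∀ a', φ' (θ.hom a') = c a' := by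
      intro z hzb φ' hφ' a'
      have h1 := congrArg φ' (hPk a')
      rw [map_mul] at h1
      have h2 : ∀ x, φ' (algebraMap A (Localization.Away b) x) = g z x := fun x =>
        congrArg (fun f : A →+* ℂ => f x) hφ'
      rw [h2, h2] at h1
      have h3 := congrFun (congrArg evE (hc a')) z
      rw [map_mul, Pi.mul_apply, hGz, hGz, AlgHom.commutes] at h3
      have h4 : algebraMap ℂ (ℂ → ℂ) (c a') z = c a' := rfl
      rw [h4, h1] at h3
      exact mul_right_cancel₀ (by rw [map_pow]; exact pow_ne_zero _ hzb) h3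
    have hconst : ∀ z, g z b ≠ 0 → Spec.map (CommRingCat.ofHom (g z)) ≫ j =
        Spec.map (CommRingCat.ofHom (g z₀)) ≫ j := by
      intro z hzb
      obtain ⟨φ₁, h₁, h₁'⟩ := hext (g z) hzb
      obtain ⟨φ₀, h₀, h₀'⟩ := hext (g z₀) hgb
      rw [h₁', h₀']
      have h2 : φ₁.comp θ.hom = φ₀.comp θ.hom := by
        ext a'
        rw [RingHom.comp_apply, RingHom.comp_apply, hval z hzb φ₁ h₁, hval z₀ hgb φ₀ h₀]
      rw [h2]
    let x : Spec (CommRingCat.of EE) ⟶ V := Spec.map (CommRingCat.ofHom G) ≫ j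
    let y : Spec (CommRingCat.of EE) ⟶ V :=
      Spec.map (CommRingCat.ofHom (algebraMap ℂ EE)) ≫ Spec.map (CommRingCat.ofHom (g z₀)) ≫ j
    let δ : ℂ → (EE →+* ℂ) := fun z => (Pi.evalRingHom (fun _ => ℂ) z).comp evR
    have hδx : ∀ z, Spec.map (CommRingCat.ofHom (δ z)) ≫ x =
        Spec.map (CommRingCat.ofHom (g z)) ≫ j := by
      intro z
      show Spec.map (CommRingCat.ofHom (δ z)) ≫ Spec.map (CommRingCat.ofHom G) ≫ j = _
      rw [← Category.assoc, ← Spec.map_comp, ← CommRingCat.ofHom_comp]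
      congr 3
      ext a
      exact hGz a z
    have hδy : ∀ z, Spec.map (CommRingCat.ofHom (δ z)) ≫ y =
        Spec.map (CommRingCat.ofHom (g z₀)) ≫ j := by
      intro z
      show Spec.map (CommRingCat.ofHom (δ z)) ≫
        Spec.map (CommRingCat.ofHom (algebraMap ℂ EE)) ≫ _ = _
      rw [← Category.assoc, ← Spec.map_comp, ← CommRingCat.ofHom_comp]
      have h1 : (δ z).comp (algebraMap ℂ EE) = RingHom.id ℂ := by
        ext r
        show evE (algebraMap ℂ EE r) z = r
        rw [AlgHom.commutes]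
        rfl
      rw [h1, CommRingCat.ofHom_id, Spec.map_id, Category.id_comp]
    obtain ⟨J, hJ⟩ := exists_ideal_eq x y
    have hJ0 : J ≤ ⊥ := by
      intro X hX
      have h1 : evE (X * G b) = 0 := by
        funext z
        rw [map_mul, Pi.mul_apply, hGz]
        by_cases hzb : g z b = 0
        · rw [hzb, mul_zero]; rfl
        · have h2 : J ≤ RingHom.ker (δ z) := (hJ _ (CommRingCat.ofHom (δ z))).1 (by
            rw [hδx, hδy, hconst z hzb])
          have h3 : evE X z = 0 := h2 hX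
          rw [h3, zero_mul]; rfl
      have h2 : X * G b = 0 := evE_injective (by rw [h1, map_zero])
      rcases mul_eq_zero.1 h2 with h3 | h3
      · exact h3
      · exfalso
        apply hgb
        rw [← hGz, h3, map_zero]
        rfl
    apply hz
    have h1 := (hJ _ (CommRingCat.ofHom (δ z₁))).2 (hJ0.trans bot_le)
    rw [hδx, hδy] at h1
    exact h1.symm
  obtain ⟨a', ha'⟩ := hclaim
  -- specialization
  obtain ⟨G', hG'ψ, hG'⟩ := exists_specialization_exp ψ t ht ρ G hGψ
    {r₂, b, P a', b ^ (k a' + 1)}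
  have hG'0 : ∀ r ∈ ({r₂, b, P a', b ^ (k a' + 1)} : Finset A), ∀ z, g z r ≠ 0 → G' r ≠ 0 := by
    intro r hr z hz h0
    have h1 := hG' r hr r hr 0 (by rw [h0, mul_zero])
    rw [map_zero, zero_mul] at h1
    apply hz
    rw [← hGz, h1, map_zero]
    rfl
  have hr₂' : G' r₂ ≠ 0 := hG'0 r₂ (by simp) z₂ hr₂
  have hb' : G' b ≠ 0 := hG'0 b (by simp) z₀ hgb
  have hPQ : ∀ c : ℂ, G' (P a') ≠ LaurentPolynomial.C c * G' (b ^ (k a' + 1)) := by
    intro c hc
    exact ha' c (hG' _ (by simp) _ (by simp) c hc)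
  -- the curve
  let c : Gm ⟶ V := Spec.map (CommRingCat.ofHom G') ≫ j
  have hc : c ≫ π = GmStr ≫ specσ σ := by
    show (Spec.map (CommRingCat.ofHom G') ≫ j) ≫ π = _
    rw [Category.assoc, hj, ← Spec.map_comp, ← CommRingCat.ofHom_comp, ← Spec.map_comp,
      ← CommRingCat.ofHom_comp]
    congr 2
    refine RingHom.ext fun r => ?_
    exact hG'ψ r
  have hcu : ∀ u : ℂˣ, GmPt u ≫ c = Spec.map (CommRingCat.ofHom ((evL u).comp G')) ≫ j := by
    intro u
    show GmPt u ≫ Spec.map (CommRingCat.ofHom G') ≫ j = _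
    rw [← Category.assoc, ← Spec.map_comp, ← CommRingCat.ofHom_comp]
  obtain ⟨u₂, hu₂⟩ : ∃ u : ℂˣ, evL u (G' r₂) ≠ 0 := by
    by_contra hcon
    push Not at hcon
    exact Set.infinite_univ ((laurent_finite_roots (G' r₂) hr₂').subset fun m _ => hcon _)
  have hout : ¬ ∃ p, p ≫ i = GmPt u₂ ≫ c := by
    intro hp
    rw [hcu] at hp
    exact hu₂ ((hI _ (CommRingCat.ofHom ((evL u₂).comp G'))).1 hp hr₂I)
  have hnonconst : ∃ u v : ℂˣ, GmPt u ≫ c ≠ GmPt v ≫ c := by
    by_contra hcon
    push Not at hcon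
    have hMfin := laurent_finite_roots (G' b) hb'
    obtain ⟨m₀, hm₀⟩ : ∃ m : ℕ, evL (twoU ℂ ^ m) (G' b) ≠ 0 := by
      by_contra hcon'
      push Not at hcon'
      exact Set.infinite_univ (hMfin.subset fun m _ => hcon' m)
    obtain ⟨φ₀, h₀, h₀'⟩ := hext ((evL (twoU ℂ ^ m₀)).comp G') hm₀
    have h5 : ∀ m : ℕ, evL (twoU ℂ ^ m) (G' b) ≠ 0 →
        evL (twoU ℂ ^ m) (G' (P a') - LaurentPolynomial.C (φ₀ (θ.hom a')) *
          G' (b ^ (k a' + 1))) = 0 := by
      intro m hm
      obtain ⟨φ₁, h₁, h₁'⟩ := hext ((evL (twoU ℂ ^ m)).comp G') hm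
      have h2 : φ₁.comp θ.hom = φ₀.comp θ.hom := by
        have h3 := hcon (twoU ℂ ^ m) (twoU ℂ ^ m₀)
        rw [hcu, hcu, h₁', h₀'] at h3
        exact Spec_map_comp_inj' hU.fromSpec _ _ h3
      have h3 := congrArg φ₁ (hPk a')
      rw [map_mul] at h3
      have h4 : ∀ x, φ₁ (algebraMap A (Localization.Away b) x) = evL (twoU ℂ ^ m) (G' x) :=
        fun x => congrArg (fun f : A →+* ℂ => f x) h₁
      rw [h4, h4] at h3
      have h6 : φ₁ (θ.hom a') = φ₀ (θ.hom a') := congrArg (fun f : Γ(V, U) →+* ℂ => f a') h2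
      rw [map_sub, map_mul, h3, h6]
      simp [evL]
    apply hPQ (φ₀ (θ.hom a'))
    rw [← sub_eq_zero]
    by_contra hne
    have h7 := laurent_finite_roots _ hne
    refine Set.infinite_univ ((hMfin.union h7).subset fun m _ => ?_)
    by_cases hm : evL (twoU ℂ ^ m) (G' b) = 0
    · exact Or.inl hm
    · exact Or.inr (h5 m hm)
  exact hout (h _ ⟨c, hc, ⟨u₂, rfl⟩, hnonconst⟩)

end Pool.Agent.Work.MP_e97a4d_nt
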