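import Mathlib
import Pool.Agent.Work.MP_e97a4d_nt.ExpSeq

/-!
The Skolem-Mahler-Lech theorem for exponential polynomials with bases in a group of units close
to `1`, and the corresponding entire functions.
-/

open Finset Polynomial

namespace Pool.Agent.Work.MP_e97a4d_nt

section SML
variable {A : Type*} [Field A] (Γ : Subgroup Aˣ)

/-- evaluation of an exponential polynomial as a sequence -/
noncomputable def seqEval : MonoidAlgebra A[X] Γ →+* (ℕ → A) :=
  MonoidAlgebra.liftNCRingHom
    (RingHom.pi fun n : ℕ => Polynomial.evalRingHom (n : A))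
    { toFun := fun γ n => ((γ : Aˣ) : A) ^ n
      map_one' := by funext n; simp
      map_mul' := by intro a b; funext n; simp [mul_pow] }
    (fun _ _ => Commute.all _ _)

theorem seqEval_apply (X : MonoidAlgebra A[X] Γ) (n : ℕ) :
    seqEval Γ X n = ∑ γ ∈ X.coeff.support, (X.coeff γ).eval (n : A) * (((γ : Aˣ) : A)) ^ n := by
  have h1 : seqEval Γ X = ∑ γ ∈ X.coeff.support,
      (RingHom.pi fun n : ℕ => Polynomial.evalRingHom (n : A)) (X.coeff γ) *
        (fun n : ℕ => (((γ : Aˣ) : A)) ^ n) := rfl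
  rw [h1, Finset.sum_apply]
  rfl

theorem seqEval_eq_zero [CharZero A] {X : MonoidAlgebra A[X] Γ} (h : seqEval Γ X = 0) : X = 0 := by
  have h1 := indep_exp X.coeff.support (fun γ : Γ => (((γ : Aˣ) : A)))
    (fun γ _ => Units.ne_zero _)
    (fun a _ b _ hab => Subtype.ext (Units.ext hab)) (fun γ => X.coeff γ)
    (fun n => by rw [← seqEval_apply, h]; rfl)
  ext γ : 2
  by_cases hγ : γ ∈ X.coeff.support
  · exact h1 γ hγ
  · exact Finsupp.notMem_support_iff.1 hγ

theorem sml_group [CharZero A] (v : AbsoluteValue A ℝ) (hv : IsNonarchimedean v) {p : ℕ}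
    (hp : p.Prime) (hp1 : v (p : A) < 1)
    (hΓ : ∀ γ ∈ Γ, v ((γ : A) - 1) ≤ v (p : A) ^ 2) (X : MonoidAlgebra A[X] Γ)
    (hX : {n | seqEval Γ X n = 0}.Infinite) : X = 0 := by
  have hp0 : 0 < v (p : A) := v.pos (by exact_mod_cast hp.ne_zero)
  apply seqEval_eq_zero
  apply hansel v hv hp hp1 (ρ := v (p : A) ^ 2) (by positivity) le_rfl _ _ hX
  have h1 : seqEval Γ X = ∑ γ ∈ X.coeff.support,
      fun n : ℕ => (X.coeff γ).eval (n : A) * (((γ : Aˣ) : A)) ^ n := by
    funext n
    rw [seqEval_apply, Finset.sum_apply]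
  rw [h1]
  apply Decay.sum v hv (by positivity)
  intro γ _
  exact decay_of_genEigen v hv (by positivity) (hΓ _ γ.2)
    (genEigen_poly _ (X.coeff γ) (Nat.lt_succ_self _))

/-- a group of units close to `1` is torsion free -/
theorem torsionFree_of_close [CharZero A] (v : AbsoluteValue A ℝ) (hv : IsNonarchimedean v) {p : ℕ}
    (hp : p.Prime) (hp1 : v (p : A) < 1) {γ : A} (hγ : v (γ - 1) ≤ v (p : A) ^ 2) {k : ℕ}
    (hk : 0 < k) (h : γ ^ k = 1) : γ = 1 := by
  have hp0 : 0 < v (p : A) := v.pos (by exact_mod_cast hp.ne_zero)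
  have h1 : (fun n : ℕ => γ ^ n - 1) = 0 := by
    apply hansel v hv hp hp1 (ρ := v (p : A) ^ 2) (by positivity) le_rfl
    · have h2 : (fun n : ℕ => γ ^ n - 1) = (fun n : ℕ => (1 : A[X]).eval (n : A) * γ ^ n) +
          (fun n : ℕ => (-1 : A[X]).eval (n : A) * 1 ^ n) := by
        funext n
        simp [sub_eq_add_neg]
      rw [h2]
      apply Decay.add v hv (by positivity)
      · exact decay_of_genEigen v hv (by positivity) hγ (genEigen_poly _ _ (Nat.lt_succ_self _))
      · exact decay_of_genEigen v hv (by positivity) (by simp)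
          (genEigen_poly _ _ (Nat.lt_succ_self _))
    · refine Set.infinite_of_injective_forall_mem (f := fun n : ℕ => k * n)
        (fun a b hab => Nat.eq_of_mul_eq_mul_left hk hab) ?_
      intro n
      show γ ^ (k * n) - 1 = 0
      rw [pow_mul, h, one_pow, sub_self]
  have := congrFun h1 1
  simpa [sub_eq_zero] using this

/-- the units close to `1` -/
def closeUnits (v : AbsoluteValue A ℝ) (hv : IsNonarchimedean v) (ρ : ℝ) (hρ0 : 0 ≤ ρ) (hρ : ρ < 1) :
    Subgroup Aˣ where
  carrier := {γ | v ((γ : A) - 1) ≤ ρ}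
  one_mem' := by simpa using hρ0
  mul_mem' := by
    intro a b ha hb
    simp only [Set.mem_ofPred_eq] at ha hb ⊢
    have h1 : (((a * b : Aˣ) : A)) - 1 = ((a : A) - 1) * b + ((b : A) - 1) := by
      push_cast; ring
    have hb1 : v (b : A) ≤ 1 := by
      have : (b : A) = ((b : A) - 1) + 1 := by ring
      rw [this]
      refine (hv _ _).trans (max_le (hb.trans hρ.le) (by simp))
    rw [h1]
    refine (hv _ _).trans (max_le ?_ hb)
    rw [map_mul]
    calc _ ≤ ρ * 1 := mul_le_mul ha hb1 (v.nonneg _) hρ0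
      _ = ρ := mul_one _
  inv_mem' := by
    intro a ha
    simp only [Set.mem_ofPred_eq] at ha ⊢
    have ha1 : v (a : A) = 1 := by
      apply le_antisymm
      · have : (a : A) = ((a : A) - 1) + 1 := by ring
        rw [this]
        exact (hv _ _).trans (max_le (ha.trans hρ.le) (by simp))
      · by_contra hlt
        push Not at hlt
        have h2 : v 1 < 1 := by
          have : (1 : A) = -((a : A) - 1) + a := by ring
          conv_lhs => rw [this]
          refine (hv _ _).trans_lt (max_lt ?_ hlt)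
          rw [v.map_neg]
          exact ha.trans_lt hρ
        simp at h2
    have h1 : (((a⁻¹ : Aˣ) : A)) - 1 = -((a : A) - 1) * ((a⁻¹ : Aˣ) : A) := by
      have := a.mul_inv
      linear_combination this
    rw [h1, map_mul, v.map_neg, Units.val_inv_eq_inv_val, map_inv₀, ha1]
    simpa using ha

end SML
end Pool.Agent.Work.MP_e97a4d_nt
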