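import Mathlib
import Pool.Agent.Work.MP_e97a4d_nt.SML

/-!
Choice of a prime and a nonarchimedean absolute value for which given algebraic numbers are units
and have a common power close to `1`.
-/

open Finset Polynomial

namespace Pool.Agent.Work.MP_e97a4d_nt

section
variable {A : Type*} [Field A] (v : AbsoluteValue A ℝ)

theorem le_one_of_isIntegral (hv : IsNonarchimedean v) {y : A} (hy : IsIntegral ℤ y) : v y ≤ 1 := by
  by_contra hlt
  push Not at hlt
  obtain ⟨P, hP, hy⟩ := hy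
  have h0 : 0 < v y := lt_trans one_pos hlt
  have h1 : y ^ P.natDegree = -∑ i ∈ range P.natDegree, (P.coeff i : A) * y ^ i := by
    have h2 : eval₂ (algebraMap ℤ A) y P = ∑ i ∈ range (P.natDegree + 1), (P.coeff i : A) * y ^ i := by
      rw [eval₂_eq_sum_range]
      simp
    rw [h2, Finset.sum_range_succ, hP.coeff_natDegree, Int.cast_one, one_mul] at hy
    linear_combination hy
  have hd : 0 < P.natDegree := by
    by_contra h
    have h3 : P.natDegree = 0 := by omega
    rw [h3] at h1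
    simp at h1
  have h4 : v (y ^ P.natDegree) ≤ v y ^ (P.natDegree - 1) := by
    rw [h1, v.map_neg]
    obtain ⟨i, hi, hle⟩ := hv.finset_image_add (by simp) (fun x => v.nonneg x)
      (fun i => (P.coeff i : A) * y ^ i) (range P.natDegree)
    have hi' := mem_range.1 (hi ⟨0, by simpa using hd⟩)
    refine hle.trans ?_
    rw [map_mul, map_pow]
    calc _ ≤ 1 * v y ^ i := mul_le_mul_of_nonneg_right
          (IsNonarchimedean.apply_intCast_le_one hv) (by positivity)
      _ = v y ^ i := one_mul _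
      _ ≤ v y ^ (P.natDegree - 1) := pow_le_pow_right₀ hlt.le (by omega)
  rw [map_pow] at h4
  have h5 : v y ^ (P.natDegree - 1) < v y ^ P.natDegree := pow_lt_pow_right₀ hlt (by omega)
  exact absurd h4 (not_le.2 h5)

theorem eq_one_of_integral_mult (hv : IsNonarchimedean v) {p : ℕ} (hp : p.Prime) (hp1 : v (p : A) < 1)
    {y : A} (hy0 : y ≠ 0) {a b : ℤ} (hpa : ¬ (p : ℤ) ∣ a) (hpb : ¬ (p : ℤ) ∣ b)
    (ha : IsIntegral ℤ (a • y)) (hb : IsIntegral ℤ (b • y⁻¹)) : v y = 1 := by
  have hunit : ∀ m : ℤ, ¬ (p : ℤ) ∣ m → v (m : A) = 1 := by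
    intro m hm
    apply le_antisymm (IsNonarchimedean.apply_intCast_le_one hv)
    by_contra hlt
    push Not at hlt
    have hcop : IsCoprime (p : ℤ) m := by
      rw [Prime.coprime_iff_not_dvd (Nat.prime_iff_prime_int.1 hp)]
      exact hm
    obtain ⟨r, s, hrs⟩ := hcop
    have h2 : v 1 < 1 := by
      have : (1 : A) = (r : A) * (p : A) + (s : A) * (m : A) := by
        exact_mod_cast (congrArg (Int.cast : ℤ → A) hrs).symm
      conv_lhs => rw [this]
      refine (hv _ _).trans_lt (max_lt ?_ ?_)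
      · rw [map_mul]
        calc _ ≤ 1 * v (p : A) := mul_le_mul_of_nonneg_right
              (IsNonarchimedean.apply_intCast_le_one hv) (v.nonneg _)
          _ < 1 := by simpa using hp1
      · rw [map_mul]
        calc _ ≤ 1 * v (m : A) := mul_le_mul_of_nonneg_right
              (IsNonarchimedean.apply_intCast_le_one hv) (v.nonneg _)
          _ < 1 := by simpa using hlt
    simp at h2
  have h1 := le_one_of_isIntegral v hv ha
  have h2 := le_one_of_isIntegral v hv hb
  rw [zsmul_eq_mul, map_mul, hunit a hpa, one_mul] at h1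
  rw [zsmul_eq_mul, map_mul, hunit b hpb, one_mul, map_inv₀] at h2
  have h3 : 0 < v y := v.pos hy0
  apply le_antisymm h1
  exact (inv_le_one₀ h3).1 h2

/-- integral elements of absolute value one have a common power close to `1` -/
theorem exists_pow_close (hv : IsNonarchimedean v) {p : ℕ} (hp : p.Prime) (S : Finset A)
    (hS : ∀ y ∈ S, IsIntegral ℤ y) (hS1 : ∀ y ∈ S, v y = 1) :
    ∃ M : ℕ, 0 < M ∧ ∀ y ∈ S, v (y ^ M - 1) ≤ v (p : A) ^ 2 := by
  classical
  let R₀ : Subalgebra ℤ A := Algebra.adjoin ℤ (S : Set A)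
  have hfin : Module.Finite ℤ R₀ := by
    have := fg_adjoin_of_finite (R := ℤ) S.finite_toSet (fun x hx => hS x hx)
    exact Module.Finite.iff_fg.2 this
  have hint : ∀ y : R₀, v (y : A) ≤ 1 := by
    intro y
    apply le_one_of_isIntegral v hv
    have : IsIntegral ℤ y := Algebra.IsIntegral.isIntegral y
    exact this.map (R₀.val)
  let I : Ideal R₀ := Ideal.span {((p : R₀)) ^ 2}
  have hquot : Finite (R₀ ⧸ I) := by
    have : Module.Finite ℤ (R₀ ⧸ I) := Module.Finite.of_surjective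
      ((Ideal.Quotient.mkₐ ℤ I).toLinearMap) (Ideal.Quotient.mkₐ_surjective ℤ I)
    apply Module.finite_of_fg_torsion
    intro x
    refine ⟨⟨((p : ℤ)) ^ 2, ?_⟩, ?_⟩
    · exact mem_nonZeroDivisors_of_ne_zero (pow_ne_zero _ (by exact_mod_cast hp.ne_zero))
    · obtain ⟨y, rfl⟩ := Ideal.Quotient.mk_surjective x
      show ((p : ℤ) ^ 2) • (Ideal.Quotient.mk I y) = 0
      rw [← map_zsmul, Ideal.Quotient.eq_zero_iff_mem, zsmul_eq_mul]
      push_cast
      exact I.mul_mem_right _ (Ideal.mem_span_singleton_self _)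
  -- pigeonhole
  let f : ℕ → (S → R₀ ⧸ I) := fun n y => Ideal.Quotient.mk I
    (⟨y.1, Algebra.subset_adjoin y.2⟩ ^ n)
  obtain ⟨m, n, hmn, hf⟩ := Finite.exists_ne_map_eq_of_infinite f
  wlog hlt : m < n generalizing m n
  · exact this n m hmn.symm hf.symm (by omega)
  refine ⟨n - m, by omega, fun y hy => ?_⟩
  have h1 := congrFun hf ⟨y, hy⟩
  simp only [f] at h1
  rw [Ideal.Quotient.eq, Ideal.mem_span_singleton] at h1
  obtain ⟨z, hz⟩ := h1
  have h2 : y ^ m - y ^ n = (p : A) ^ 2 * z := by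
    have := congrArg (fun t : R₀ => (t : A)) hz
    simpa using this
  have h3 : y ^ (n - m) - 1 = -(y ^ m)⁻¹ * ((p : A) ^ 2 * z) := by
    rw [← h2]
    have hy0 : y ≠ 0 := by
      intro h0
      have := hS1 y hy
      rw [h0] at this
      simp at this
    have h4 : y ^ n = y ^ m * y ^ (n - m) := by rw [← pow_add]; congr 1; omega
    rw [h4]
    field_simp
    ring
  rw [h3, map_mul, v.map_neg, map_inv₀, map_pow, hS1 y hy, one_pow, inv_one, one_mul, map_mul, map_pow]
  calc v (p : A) ^ 2 * v (z : A) ≤ v (p : A) ^ 2 * 1 :=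
        mul_le_mul_of_nonneg_left (hint z) (by positivity)
    _ = _ := mul_one _

end

/-- **p-adic data** for finitely many nonzero algebraic numbers -/
theorem exists_padic_data {A : Type*} [Field A] [CharZero A] [Algebra.IsAlgebraic ℚ A]
    (s : Finset Aˣ) : ∃ (v : AbsoluteValue A ℝ) (p : ℕ) (M : ℕ), IsNonarchimedean v ∧ p.Prime ∧
      v (p : A) < 1 ∧ 0 < M ∧ ∀ γ ∈ s, v (((γ ^ M : Aˣ) : A) - 1) ≤ v (p : A) ^ 2 := by
  classical
  have halg : ∀ x : A, ∃ a : ℤ, a ≠ 0 ∧ IsIntegral ℤ (a • x) := by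
    intro x
    have h1 : IsAlgebraic ℤ x := by
      rw [IsFractionRing.isAlgebraic_iff ℤ ℚ A]
      exact Algebra.IsAlgebraic.isAlgebraic x
    obtain ⟨y, hy0, hy⟩ := h1.exists_integral_multiple
    exact ⟨y, hy0, hy⟩
  choose a ha0 ha using halg
  let N : ℤ := ∏ γ ∈ s, (a (γ : A) * a ((γ : A)⁻¹))
  have hN : N ≠ 0 := Finset.prod_ne_zero_iff.2 fun γ _ => mul_ne_zero (ha0 _) (ha0 _)
  obtain ⟨p, hpN, hp⟩ := Nat.exists_infinite_primes (N.natAbs + 1)
  have hpdvd : ¬ (p : ℤ) ∣ N := by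
    intro h
    have := Int.natAbs_dvd_natAbs.2 h
    rw [Int.natAbs_natCast] at this
    have := Nat.le_of_dvd (Int.natAbs_pos.2 hN) this
    omega
  have : Fact p.Prime := ⟨hp⟩
  let ι : A →ₐ[ℚ] PadicAlgCl p := IsAlgClosed.lift
  let v : AbsoluteValue A ℝ :=
    { toFun := fun x => ‖ι x‖
      map_mul' := fun x y => by simp
      nonneg' := fun x => norm_nonneg _
      eq_zero' := fun x => by simp
      add_le' := fun x y => by
        rw [map_add]
        exact norm_add_le _ _ }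
  have hv : IsNonarchimedean v := by
    intro x y
    show ‖ι (x + y)‖ ≤ max ‖ι x‖ ‖ι y‖
    rw [map_add]
    exact PadicAlgCl.isNonarchimedean p _ _
  have hp1 : v (p : A) < 1 := by
    show ‖ι (p : A)‖ < 1
    rw [map_natCast]
    have h1 := PadicAlgCl.norm_extends p (p : ℚ_[p])
    have h2 : ((p : ℚ_[p]) : PadicAlgCl p) = (p : PadicAlgCl p) := by simp
    rw [h2] at h1
    rw [h1]
    exact Padic.norm_p_lt_one
  refine ⟨v, p, ?_⟩
  -- integral elements
  let S : Finset A := (s.image fun γ : Aˣ => a (γ : A) • (γ : A)) ∪ s.image fun γ : Aˣ => ((a (γ : A) : ℤ) : A)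
  have hdiv : ∀ γ ∈ s, ¬ (p : ℤ) ∣ a (γ : A) ∧ ¬ (p : ℤ) ∣ a ((γ : A)⁻¹) := by
    intro γ hγ
    constructor
    · intro h
      exact hpdvd (h.trans ((Dvd.intro _ rfl).trans (Finset.dvd_prod_of_mem _ hγ)))
    · intro h
      exact hpdvd (h.trans ((Dvd.intro_left _ rfl).trans (Finset.dvd_prod_of_mem _ hγ)))
  have hunit : ∀ m : ℤ, ¬ (p : ℤ) ∣ m → v (m : A) = 1 := by
    intro m hm
    apply le_antisymm (IsNonarchimedean.apply_intCast_le_one hv)
    by_contra hlt
    push Not at hlt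
    have hcop : IsCoprime (p : ℤ) m := by
      rw [Prime.coprime_iff_not_dvd (Nat.prime_iff_prime_int.1 hp)]
      exact hm
    obtain ⟨r, s, hrs⟩ := hcop
    have h2 : v 1 < 1 := by
      have : (1 : A) = (r : A) * (p : A) + (s : A) * (m : A) := by
        exact_mod_cast (congrArg (Int.cast : ℤ → A) hrs).symm
      conv_lhs => rw [this]
      refine (hv _ _).trans_lt (max_lt ?_ ?_)
      · rw [map_mul]
        calc _ ≤ 1 * v (p : A) := mul_le_mul_of_nonneg_right
              (IsNonarchimedean.apply_intCast_le_one hv) (v.nonneg _)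
          _ < 1 := by simpa using hp1
      · rw [map_mul]
        calc _ ≤ 1 * v (m : A) := mul_le_mul_of_nonneg_right
              (IsNonarchimedean.apply_intCast_le_one hv) (v.nonneg _)
          _ < 1 := by simpa using hlt
    simp at h2
  have hγ1 : ∀ γ ∈ s, v (γ : A) = 1 := fun γ hγ =>
    eq_one_of_integral_mult v hv hp hp1 (Units.ne_zero _) (hdiv γ hγ).1 (hdiv γ hγ).2 (ha _) (ha _)
  have hSint : ∀ y ∈ S, IsIntegral ℤ y := by
    intro y hy
    rcases Finset.mem_union.1 hy with h | h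
    · obtain ⟨γ, _, rfl⟩ := Finset.mem_image.1 h
      exact ha _
    · obtain ⟨γ, _, rfl⟩ := Finset.mem_image.1 h
      exact isIntegral_algebraMap (R := ℤ) (A := A)
  have hS1 : ∀ y ∈ S, v y = 1 := by
    intro y hy
    rcases Finset.mem_union.1 hy with h | h
    · obtain ⟨γ, hγ, rfl⟩ := Finset.mem_image.1 h
      rw [zsmul_eq_mul, map_mul, hunit _ (hdiv γ hγ).1, hγ1 γ hγ, one_mul]
    · obtain ⟨γ, hγ, rfl⟩ := Finset.mem_image.1 h
      exact hunit _ (hdiv γ hγ).1
  obtain ⟨M, hM, hMS⟩ := exists_pow_close v hv hp S hSint hS1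
  refine ⟨M, hv, hp, hp1, hM, fun γ hγ => ?_⟩
  have hp0 : 0 ≤ v (p : A) := v.nonneg _
  have hx := hMS (a (γ : A) • (γ : A)) (Finset.mem_union_left _ (Finset.mem_image_of_mem _ hγ))
  have hb := hMS ((a (γ : A) : ℤ) : A) (Finset.mem_union_right _ (Finset.mem_image.2 ⟨γ, hγ, rfl⟩))
  have hb1 := hunit _ (hdiv γ hγ).1
  have hane : ((a (γ : A) : ℤ) : A) ≠ 0 := by exact_mod_cast ha0 (γ : A)
  have h3 : (((γ ^ M : Aˣ) : A)) - 1 = (((a (γ : A) : ℤ) : A) ^ M)⁻¹ *
      (((a (γ : A) • (γ : A)) ^ M - 1) + -(((a (γ : A) : ℤ) : A) ^ M - 1)) := by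
    rw [zsmul_eq_mul]
    push_cast
    field_simp
    ring
  rw [h3, map_mul, map_inv₀, map_pow, hb1, one_pow, inv_one, one_mul]
  refine (hv _ _).trans (max_le hx ?_)
  rw [v.map_neg]
  exact hb

end Pool.Agent.Work.MP_e97a4d_nt
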