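import Mathlib
import Pool.Agent.Work.MP_e97a4d_nt.ExpSeq

/-!
Solutions of linear recurrences are, from some point on, exponential polynomials.
-/

open Finset Polynomial

namespace Pool.Agent.Work.MP_e97a4d_nt

section
variable {A : Type*} [Field A]

/-- a generalised eigenvector of the shift with nonzero eigenvalue is `Q n * μ ^ n` -/
theorem eq_poly_of_genEigen [CharZero A] {μ : A} (hμ : μ ≠ 0) {u : ℕ → A} {k : ℕ}
    (hu : ((sh A - algebraMap A (Module.End A (ℕ → A)) μ) ^ k) u = 0) :
    ∃ Q : A[X], ∀ n : ℕ, u n = Q.eval (n : A) * μ ^ n := by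
  let f : ℕ → A := fun n => u n * (μ⁻¹) ^ n
  have hf : u = fun n => f n * μ ^ n := by
    funext n
    simp only [f]
    rw [mul_assoc, ← mul_pow, inv_mul_cancel₀ hμ, one_pow, mul_one]
  rw [hf, genEigen_apply] at hu
  have hk : ((sh A - 1) ^ k) f = 0 := by
    funext n
    have := congrFun hu n
    simp only [Pi.zero_apply, mul_eq_zero] at this
    rcases this with h | h | h
    · exact absurd h (pow_ne_zero _ hμ)
    · exact h
    · exact absurd h (pow_ne_zero _ hμ)
  have hj : ∀ j, k ≤ j → ((sh A - 1) ^ j) f = 0 := by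
    intro j hj
    obtain ⟨l, rfl⟩ := Nat.exists_eq_add_of_le hj
    rw [add_comm, pow_add, Module.End.mul_apply, hk, map_zero]
  refine ⟨∑ i ∈ range k, Polynomial.C ((((sh A - 1) ^ i) f 0) / (i.factorial : A)) * descPochhammer A i,
    fun n => ?_⟩
  rw [congrFun hf n]
  congr 1
  rw [newton f n]
  simp only [Polynomial.eval_finsetSum, Polynomial.eval_mul, Polynomial.eval_C]
  have h1 : ∀ i : ℕ, (((sh A - 1) ^ i) f 0) / (i.factorial : A) * (descPochhammer A i).eval (n : A) =
      (n.choose i : A) * ((sh A - 1) ^ i) f 0 := by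
    intro i
    rw [descPochhammer_eval_eq_descFactorial, Nat.descFactorial_eq_factorial_mul_choose]
    have : (i.factorial : A) ≠ 0 := by exact_mod_cast Nat.factorial_ne_zero i
    push_cast
    field_simp
  simp only [h1]
  rcases le_total k (n + 1) with h | h
  · symm
    apply Finset.sum_subset (Finset.range_subset_range.2 h)
    intro i _ hi
    rw [mem_range, not_lt] at hi
    rw [hj i hi]
    simp
  · apply Finset.sum_subset (Finset.range_subset_range.2 h)
    intro i _ hi
    rw [mem_range, not_lt] at hi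
    rw [Nat.choose_eq_zero_of_lt (by omega)]
    simp

/-- **solutions of linear recurrences are eventually exponential polynomials** -/
theorem exists_expPoly_of_isSolution [CharZero A] [IsAlgClosed A] (E : LinearRecurrence A)
    {u : ℕ → A} (hu : E.IsSolution u) :
    ∃ (n₀ : ℕ) (s : Finset Aˣ) (Q : Aˣ → A[X]),
      ∀ n, n₀ ≤ n → u n = ∑ γ ∈ s, (Q γ).eval (n : A) * (γ : A) ^ n := by
  classical
  have hstab : ∀ w ∈ E.solSpace, sh A w ∈ E.solSpace := by
    intro w hw
    rw [← E.is_sol_iff_mem_solSpace] at hw ⊢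
    intro n
    have := hw (n + 1)
    simp only [sh_apply]
    rw [show n + E.order + 1 = n + 1 + E.order by ring, this]
    apply Finset.sum_congr rfl
    intro i _
    congr 2
    ring
  have hfd : FiniteDimensional A E.solSpace := Module.Basis.finiteDimensional_of_finite E.basis
  have htop := Module.End.iSup_maxGenEigenspace_eq_top ((sh A).restrict hstab)
  have hmem : u ∈ ⨆ μ, (sh A).maxGenEigenspace μ := by
    have h1 : (⟨u, (E.is_sol_iff_mem_solSpace u).1 hu⟩ : E.solSpace) ∈
        ⨆ μ, Module.End.maxGenEigenspace ((sh A).restrict hstab) μ := by rw [htop]; trivial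
    have h2 := Submodule.mem_map_of_mem (f := E.solSpace.subtype) h1
    rw [Submodule.map_iSup] at h2
    have h3 : (⨆ μ, Submodule.map E.solSpace.subtype (Module.End.maxGenEigenspace ((sh A).restrict hstab) μ)) ≤
        ⨆ μ, (sh A).maxGenEigenspace μ := by
      apply iSup_mono
      intro μ
      rw [Module.End.maxGenEigenspace, Module.End.genEigenspace_restrict, Submodule.map_comap_eq]
      exact inf_le_right
    exact h3 h2
  rw [Submodule.mem_iSup_iff_exists_finsupp] at hmem
  obtain ⟨F, hF, hFu⟩ := hmem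
  have hF' : ∀ μ, ∃ k : ℕ, ((sh A - algebraMap A (Module.End A (ℕ → A)) μ) ^ k) (F μ) = 0 := by
    intro μ
    have := hF μ
    rw [Module.End.mem_maxGenEigenspace] at this
    obtain ⟨k, hk⟩ := this
    refine ⟨k, ?_⟩
    rw [Module.algebraMap_end_eq_smul_id]
    exact hk
  obtain ⟨n₀, hn₀⟩ := hF' 0
  have hzero : ∀ n, n₀ ≤ n → F 0 n = 0 := by
    intro n hn
    rw [map_zero, sub_zero] at hn₀
    have := congrFun hn₀ (n - n₀)
    rw [sh_pow_apply, Nat.sub_add_cancel hn] at this
    exact this
  have hQ : ∀ γ : Aˣ, ∃ Q : A[X], ∀ n : ℕ, F (γ : A) n = Q.eval (n : A) * (γ : A) ^ n := by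
    intro γ
    obtain ⟨k, hk⟩ := hF' γ
    exact eq_poly_of_genEigen (Units.ne_zero γ) hk
  choose Q hQ using hQ
  refine ⟨n₀, (F.support.erase 0).attach.image
    (fun μ => Units.mk0 μ.1 (Finset.ne_of_mem_erase μ.2)), Q, fun n hn => ?_⟩
  rw [← hFu, Finsupp.sum, Finset.sum_apply]
  rw [Finset.sum_image (by
    intro a _ b _ hab
    have := congrArg Units.val hab
    exact Subtype.ext this)]
  have h4 : ∑ x ∈ F.support, F x n = ∑ x ∈ F.support.erase 0, F x n := by
    symm
    apply Finset.sum_subset (Finset.erase_subset _ _)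
    intro x hx hx'
    have hx0 : x = 0 := by
      by_contra h
      exact hx' (Finset.mem_erase.2 ⟨h, hx⟩)
    rw [hx0]
    exact hzero n hn
  rw [h4, ← Finset.sum_attach]
  apply Finset.sum_congr rfl
  intro μ _
  exact hQ (Units.mk0 μ.1 (Finset.ne_of_mem_erase μ.2)) n

end
end Pool.Agent.Work.MP_e97a4d_nt
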