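import Mathlib
import Pool.Agent.Work.MP_e97a4d_nt.PadicData
import Pool.Agent.Work.MP_e97a4d_nt.Recurrence
import Pool.Agent.Work.MP_e97a4d_nt.ExpDefs

/-!
Interpolation of linear recurrence sequences lying on a variety by entire curves on that variety.
-/

open Polynomial

namespace Pool.Agent.Work.MP_e97a4d_nt

section log
variable {A : Type*} [Field A] (σ : A →+* ℂ) (Γ : Subgroup Aˣ)

/-- a homomorphic choice of complex logarithms on a finitely generated torsion free group -/
theorem exists_log (S : Set Aˣ) (hS : S.Finite) (hΓ : Γ = Subgroup.closure S)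
    (htf : ∀ γ ∈ Γ, ∀ k : ℕ, 0 < k → γ ^ k = 1 → γ = 1) :
    ∃ ℓ : Additive Γ →+ ℂ, ∀ γ : Γ, Complex.exp (ℓ (Additive.ofMul γ)) = σ ((γ : Aˣ) : A) := by
  have h0 : Group.FG Γ := by
    rw [hΓ]
    have := hS.to_subtype
    exact Group.closure_finite_fg S
  have h1 : Module.Finite ℤ (Additive Γ) := by
    rw [Module.Finite.iff_addGroup_fg]
    exact GroupFG.iff_add_fg.1 h0
  have h2 : IsAddTorsionFree (Additive Γ) := by
    refine ⟨fun n hn a b hab => ?_⟩
    have h3 : (a - b) = 0 := by
      have h4 : n • (a - b) = 0 := by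
        rw [nsmul_sub]
        exact sub_eq_zero.2 hab
      have h5 := htf _ (Additive.toMul (a - b)).2 n (Nat.pos_of_ne_zero hn) (by
        have := congrArg Additive.toMul h4
        exact congrArg Subtype.val this)
      exact congrArg Additive.ofMul (Subtype.ext h5)
    exact sub_eq_zero.1 h3
  have h3 : Module.Free ℤ (Additive Γ) := inferInstance
  let E : ℂ →+ Additive ℂˣ :=
    { toFun := fun z => Additive.ofMul (Units.mk0 (Complex.exp z) (Complex.exp_ne_zero z))
      map_zero' := by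
        apply congrArg Additive.ofMul
        ext; simp
      map_add' := fun x y => by
        rw [← ofMul_mul]
        apply congrArg Additive.ofMul
        ext
        simp [Complex.exp_add] }
  have hE : Function.Surjective E := by
    intro u
    refine ⟨Complex.log ((Additive.toMul u : ℂˣ) : ℂ), ?_⟩
    apply congrArg Additive.ofMul
    ext
    exact Complex.exp_log (Units.ne_zero _)
  let G : Additive Γ →+ Additive ℂˣ :=
    MonoidHom.toAdditive ((Units.map (σ : A →* ℂ)).comp Γ.subtype)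
  obtain ⟨h, hh⟩ := Module.projective_lifting_property E.toIntLinearMap G.toIntLinearMap hE
  refine ⟨h.toAddMonoidHom, fun γ => ?_⟩
  have h4 := congrArg (fun f => f (Additive.ofMul γ)) hh
  have h5 := congrArg (fun u : Additive ℂˣ => ((Additive.toMul u : ℂˣ) : ℂ)) h4
  simpa [E, G] using h5

end log

section ent
variable {A : Type*} [Field A] (σ : A →+* ℂ) (Γ : Subgroup Aˣ) (ℓ : Additive Γ →+ ℂ)

/-- evaluation of an exponential polynomial as an entire function -/
noncomputable def entEval : MonoidAlgebra A[X] Γ →+* (ℂ → ℂ) :=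
  MonoidAlgebra.liftNCRingHom
    (RingHom.pi fun z : ℂ => Polynomial.eval₂RingHom σ z)
    { toFun := fun γ z => Complex.exp (ℓ (Additive.ofMul γ) * z)
      map_one' := by funext z; simp
      map_mul' := by
        intro a b; funext z
        rw [ofMul_mul, map_add, add_mul, Complex.exp_add]; rfl }
    (fun _ _ => Commute.all _ _)

theorem entEval_apply (X : MonoidAlgebra A[X] Γ) (z : ℂ) :
    entEval σ Γ ℓ X z = ∑ γ ∈ X.coeff.support, (X.coeff γ).eval₂ σ z *
      Complex.exp (ℓ (Additive.ofMul γ) * z) := by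
  have h1 : entEval σ Γ ℓ X = ∑ γ ∈ X.coeff.support,
      (RingHom.pi fun z : ℂ => Polynomial.eval₂RingHom σ z) (X.coeff γ) *
        (fun z : ℂ => Complex.exp (ℓ (Additive.ofMul γ) * z)) := rfl
  rw [h1, Finset.sum_apply]
  rfl

theorem differentiable_entEval (X : MonoidAlgebra A[X] Γ) :
    Differentiable ℂ (entEval σ Γ ℓ X) := by
  have h1 : entEval σ Γ ℓ X = fun z => ∑ γ ∈ X.coeff.support, (X.coeff γ).eval₂ σ z *
      Complex.exp (ℓ (Additive.ofMul γ) * z) := by
    funext z
    exact entEval_apply σ Γ ℓ X z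
  rw [h1]
  apply Differentiable.fun_sum
  intro γ _
  apply Differentiable.mul
  · simp_rw [← Polynomial.eval_map]
    exact Polynomial.differentiable _
  · fun_prop

theorem entEval_mem_expPoly (X : MonoidAlgebra A[X] Γ) : entEval σ Γ ℓ X ∈ expPoly := by
  have h1 : entEval σ Γ ℓ X = ∑ γ ∈ X.coeff.support, (fun z => (X.coeff γ).eval₂ σ z) *
      (fun z => Complex.exp (ℓ (Additive.ofMul γ) * z)) := by
    funext z
    rw [entEval_apply, Finset.sum_apply]
    rfl
  rw [h1]
  refine Subalgebra.sum_mem _ fun γ _ => Subalgebra.mul_mem _ ?_ ?_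
  · have h2 : (fun z : ℂ => (X.coeff γ).eval₂ σ z) =
        Polynomial.aeval (fun z : ℂ => z) ((X.coeff γ).map σ) := by
      funext z
      rw [← Polynomial.eval_map]
      generalize (X.coeff γ).map σ = q
      have h3 := Polynomial.hom_eval₂ q (algebraMap ℂ (ℂ → ℂ)) (Pi.evalRingHom (fun _ => ℂ) z)
        (fun z => z)
      have h4 : (Pi.evalRingHom (fun _ : ℂ => ℂ) z).comp (algebraMap ℂ (ℂ → ℂ)) = RingHom.id ℂ := by
        ext c; rfl
      rw [h4] at h3
      exact h3.symm
    rw [h2]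
    exact Algebra.adjoin_mono (Set.singleton_subset_iff.2 (Set.mem_insert _ _))
      (Polynomial.aeval_mem_adjoin_singleton ℂ _)
  · exact Algebra.subset_adjoin (Set.mem_insert_of_mem _ ⟨_, rfl⟩)

theorem entEval_natCast (hℓ : ∀ γ : Γ, Complex.exp (ℓ (Additive.ofMul γ)) = σ ((γ : Aˣ) : A))
    (X : MonoidAlgebra A[X] Γ) (n : ℕ) : entEval σ Γ ℓ X n = σ (seqEval Γ X n) := by
  rw [entEval_apply, seqEval_apply, map_sum]
  apply Finset.sum_congr rfl
  intro γ _
  rw [map_mul, map_pow, ← hℓ γ, ← Complex.exp_nat_mul, mul_comm (ℓ _) (n : ℂ)]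
  congr 1
  rw [← map_natCast σ n, Polynomial.eval₂_at_apply]

end ent

theorem seqEval_single {A : Type*} [Field A] (Γ : Subgroup Aˣ) (γ : Γ) (P : A[X]) (n : ℕ) :
    seqEval Γ (MonoidAlgebra.single γ P) n = P.eval (n : A) * ((γ : Aˣ) : A) ^ n := by
  have h1 : seqEval Γ (MonoidAlgebra.single γ P) = _ := MonoidAlgebra.liftNC_single
    ((RingHom.pi fun n : ℕ => Polynomial.evalRingHom (n : A) : A[X] →+* (ℕ → A)) : A[X] →+ (ℕ → A))
    (fun (γ : Γ) (n : ℕ) => ((γ : Aˣ) : A) ^ n) γ P
  rw [h1]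
  rfl

theorem entEval_single {A : Type*} [Field A] (σ : A →+* ℂ) (Γ : Subgroup Aˣ)
    (ℓ : Additive Γ →+ ℂ) (γ : Γ) (P : A[X]) (z : ℂ) :
    entEval σ Γ ℓ (MonoidAlgebra.single γ P) z =
      P.eval₂ σ z * Complex.exp (ℓ (Additive.ofMul γ) * z) := by
  have h1 : entEval σ Γ ℓ (MonoidAlgebra.single γ P) = _ := MonoidAlgebra.liftNC_single
    ((RingHom.pi fun z : ℂ => Polynomial.eval₂RingHom σ z : A[X] →+* (ℂ → ℂ)) : A[X] →+ (ℂ → ℂ))
    (fun (γ : Γ) (z : ℂ) => Complex.exp (ℓ (Additive.ofMul γ) * z)) γ P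
  rw [h1]
  rfl

theorem seqEval_algebraMap {A : Type*} [Field A] (Γ : Subgroup Aˣ) (c : A) (n : ℕ) :
    seqEval Γ (algebraMap A (MonoidAlgebra A[X] Γ) c) n = c := by
  have h1 : algebraMap A (MonoidAlgebra A[X] Γ) c = MonoidAlgebra.single 1 (Polynomial.C c) := rfl
  rw [h1, seqEval_single]
  simp

theorem entEval_algebraMap {A : Type*} [Field A] (σ : A →+* ℂ) (Γ : Subgroup Aˣ)
    (ℓ : Additive Γ →+ ℂ) (c : A) (z : ℂ) :
    entEval σ Γ ℓ (algebraMap A (MonoidAlgebra A[X] Γ) c) z = σ c := by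
  have h1 : algebraMap A (MonoidAlgebra A[X] Γ) c = MonoidAlgebra.single 1 (Polynomial.C c) := rfl
  rw [h1, entEval_single]
  simp

section main
variable {A : Type*} [Field A] [CharZero A] [IsAlgClosed A] [Algebra.IsAlgebraic ℚ A] (σ : A →+* ℂ)

/-- **Interpolation theorem** (a form of the Skolem-Mahler-Lech theorem). Let the coordinates of
`x n` satisfy linear recurrences, and let `T` be a set of indices such that `x` takes infinitely
many values on `T`. Then there are a progression `a * n + b` and entire functions `f i` with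
`f i n = σ (x i (a * n + b))` for all `n`, such that `x` takes infinitely many values on
the indices of `T` in the progression and every polynomial equation satisfied by `x n` for all `n`
in `T` is satisfied by `f` identically. -/
theorem exists_entire_interpolation {ι : Type*} [Finite ι] (x : ι → ℕ → A)
    (hx : ∀ i, ∃ E : LinearRecurrence A, E.IsSolution (x i)) (T : Set ℕ)
    (hT : ((fun n i => x i n) '' T).Infinite) :
    ∃ (a b : ℕ) (f : ι → ℂ → ℂ), 0 < a ∧ (∀ i, Differentiable ℂ (f i)) ∧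
      (∀ i, f i ∈ expPoly) ∧
      (∀ i (n : ℕ), f i n = σ (x i (a * n + b))) ∧
      ((fun n i => x i (a * n + b)) '' {n | a * n + b ∈ T}).Infinite ∧
      ∀ G : MvPolynomial ι A, (∀ n ∈ T, MvPolynomial.eval (fun i => x i n) G = 0) →
        ∀ z : ℂ, MvPolynomial.eval₂ σ (fun i => f i z) G = 0 := by
  classical
  have := Fintype.ofFinite ι
  -- exponential polynomial form
  have h1 : ∀ i, ∃ (n₀ : ℕ) (s : Finset Aˣ) (Q : Aˣ → A[X]),
      ∀ n, n₀ ≤ n → x i n = ∑ γ ∈ s, (Q γ).eval (n : A) * (γ : A) ^ n := by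
    intro i
    obtain ⟨E, hE⟩ := hx i
    exact exists_expPoly_of_isSolution E hE
  choose n₀ s Q hQ using h1
  let S : Finset Aˣ := Finset.univ.biUnion s
  obtain ⟨v, p, M, hv, hp, hp1, hM, hS⟩ := exists_padic_data S
  have hp0 : 0 < v (p : A) := v.pos (by exact_mod_cast hp.ne_zero)
  let Γ : Subgroup Aˣ := Subgroup.closure ((fun γ => γ ^ M) '' (S : Set Aˣ))
  have hΓ : ∀ γ ∈ Γ, v ((γ : A) - 1) ≤ v (p : A) ^ 2 := by
    intro γ hγ
    have hle : Γ ≤ closeUnits v hv (v (p : A) ^ 2) (by positivity)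
        (pow_lt_one₀ hp0.le hp1 two_ne_zero) := by
      rw [Subgroup.closure_le]
      rintro _ ⟨γ, hγ, rfl⟩
      exact hS γ hγ
    exact hle hγ
  obtain ⟨ℓ, hℓ⟩ := exists_log σ Γ _ (S.finite_toSet.image _) rfl (fun γ hγ k hk h => by
    apply Units.ext
    refine torsionFree_of_close v hv hp hp1 (hΓ γ hγ) hk ?_
    have := congrArg (fun u : Aˣ => (u : A)) h
    simpa using this)
  -- a residue class
  let N := Finset.univ.sup n₀
  have h2 : ∃ r < M, ((fun n i => x i n) '' (T ∩ {n | n % M = r ∧ N * M ≤ n})).Infinite := by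
    by_contra hcon
    push Not at hcon
    apply hT
    have h3 : (fun n i => x i n) '' T ⊆
        (⋃ r ∈ Set.Iio M, (fun n i => x i n) '' (T ∩ {n | n % M = r ∧ N * M ≤ n})) ∪
          (fun n i => x i n) '' Set.Iio (N * M) := by
      rintro _ ⟨n, hn, rfl⟩
      by_cases hnN : n < N * M
      · right
        exact ⟨n, hnN, rfl⟩
      · left
        refine Set.mem_biUnion (Nat.mod_lt n hM : n % M ∈ Set.Iio M) ?_
        exact ⟨n, ⟨hn, rfl, not_lt.1 hnN⟩, rfl⟩
    refine Set.Finite.subset (Set.Finite.union ?_ ((Set.finite_Iio _).image _)) h3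
    exact (Set.finite_Iio M).biUnion fun r hr => hcon r hr
  obtain ⟨r, hr, hTr⟩ := h2
  let b := N * M + r
  have hTb : ((fun n i => x i (M * n + b)) '' {n | M * n + b ∈ T}).Infinite := by
    refine hTr.mono ?_
    rintro _ ⟨n, ⟨hn, hnr, hnN⟩, rfl⟩
    have h4 : M * (n / M - N) + b = n := by
      have h5 := Nat.div_add_mod n M
      rw [hnr] at h5
      have h6 : N ≤ n / M := (Nat.le_div_iff_mul_le hM).2 hnN
      have h7 : M * (n / M - N) + N * M = M * (n / M) := by
        rw [mul_comm N M, ← mul_add, Nat.sub_add_cancel h6]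
      simp only [b]
      omega
    refine ⟨n / M - N, ?_, ?_⟩
    · show M * (n / M - N) + b ∈ T
      rw [h4]; exact hn
    · simp only [h4]
  have hbN : ∀ i, n₀ i ≤ b := by
    intro i
    have h4 : n₀ i ≤ N := Finset.le_sup (Finset.mem_univ i)
    have h5 : N ≤ N * M := Nat.le_mul_of_pos_right N hM
    simp only [b]
    omega
  -- the exponential polynomials
  have hmem : ∀ i, ∀ γ ∈ s i, γ ^ M ∈ Γ := by
    intro i γ hγ
    apply Subgroup.subset_closure
    exact ⟨γ, Finset.mem_biUnion.2 ⟨i, Finset.mem_univ _, hγ⟩, rfl⟩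
  let Y : ι → MonoidAlgebra A[X] Γ := fun i => ∑ γ ∈ (s i).attach,
    MonoidAlgebra.single (⟨γ.1 ^ M, hmem i γ.1 γ.2⟩ : Γ)
      (Polynomial.C ((γ.1 : A) ^ b) * (Q i γ.1).comp (Polynomial.C (M : A) * X + Polynomial.C (b : A)))
  have hY : ∀ i (n : ℕ), seqEval Γ (Y i) n = x i (M * n + b) := by
    intro i n
    rw [hQ i (M * n + b) (by have := hbN i; omega)]
    simp only [Y, map_sum, Finset.sum_apply]
    conv_rhs => rw [← Finset.sum_attach]
    apply Finset.sum_congr rfl
    intro γ _
    rw [seqEval_single]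
    simp
    ring
  refine ⟨M, b, fun i => entEval σ Γ ℓ (Y i), hM, fun i => differentiable_entEval σ Γ ℓ (Y i),
    fun i => entEval_mem_expPoly σ Γ ℓ (Y i), ?_, hTb, ?_⟩
  · intro i n
    show entEval σ Γ ℓ (Y i) n = _
    rw [entEval_natCast σ Γ ℓ hℓ, hY]
  · intro G hG z
    have hzero : MvPolynomial.aeval Y G = 0 := by
      apply sml_group Γ v hv hp hp1 hΓ
      have hinf : {n | M * n + b ∈ T}.Infinite := by
        intro hfin
        exact hTb (hfin.image _)
      refine hinf.mono ?_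
      intro n hn
      have h4 := hG _ hn
      show seqEval Γ (MvPolynomial.aeval Y G) n = 0
      have h5 : ((Pi.evalRingHom (fun _ : ℕ => A) n).comp (seqEval Γ)) (MvPolynomial.aeval Y G) =
          MvPolynomial.eval (fun i => x i (M * n + b)) G := by
        rw [MvPolynomial.map_aeval]
        have h7 : ((Pi.evalRingHom (fun _ : ℕ => A) n).comp (seqEval Γ)).comp
            (algebraMap A (MonoidAlgebra A[X] Γ)) = RingHom.id A := by
          ext c
          show seqEval Γ (algebraMap A (MonoidAlgebra A[X] Γ) c) n = c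
          rw [seqEval_algebraMap]
        rw [h7, MvPolynomial.coe_eval₂Hom, ← MvPolynomial.eval₂_id]
        congr 1
        funext i
        exact hY i n
      rw [← h4, ← h5]
      rfl
    have h6 : ((Pi.evalRingHom (fun _ : ℂ => ℂ) z).comp (entEval σ Γ ℓ)) (MvPolynomial.aeval Y G) =
        MvPolynomial.eval₂ σ (fun i => entEval σ Γ ℓ (Y i) z) G := by
      rw [MvPolynomial.map_aeval]
      have h7 : ((Pi.evalRingHom (fun _ : ℂ => ℂ) z).comp (entEval σ Γ ℓ)).comp
          (algebraMap A (MonoidAlgebra A[X] Γ)) = σ := by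
        ext c
        show entEval σ Γ ℓ (algebraMap A (MonoidAlgebra A[X] Γ) c) z = σ c
        rw [entEval_algebraMap]
      rw [h7, MvPolynomial.coe_eval₂Hom]
      rfl
    rw [← h6, hzero, map_zero]

end main

end Pool.Agent.Work.MP_e97a4d_nt
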