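import Mathlib
import Pool.Agent.Work.MP_e97a4d_nt.Defs
import Pool.Agent.Work.MP_e97a4d_nt.Interpolate
import Pool.Agent.Work.MP_e97a4d_nt.SchemeLemmas

/-!
(i) implies (ii) along linear recurrences.
-/

set_option autoImplicit false

namespace Pool.Agent.Work.MP_e97a4d_nt

open AlgebraicGeometry CategoryTheory IsDedekindDomain NumberField

/-- Two ring homomorphisms which agree on the constants and on generators are equal. -/
theorem hom_ext_of_gen {R A B : Type*} [CommRing R] [CommRing A] [CommRing B] {ι : Type*}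
    {ψ : R →+* A} {t : ι → A} (ht : Function.Surjective (MvPolynomial.eval₂Hom ψ t))
    {P Q : A →+* B} (h1 : P.comp ψ = Q.comp ψ) (h2 : ∀ k, P (t k) = Q (t k)) : P = Q := by
  have h3 : P.comp (MvPolynomial.eval₂Hom ψ t) = Q.comp (MvPolynomial.eval₂Hom ψ t) := by
    apply MvPolynomial.ringHom_ext
    · intro r
      simpa using congrArg (fun f : R →+* B => f r) h1
    · intro k
      simpa using h2 k
  ext a
  obtain ⟨G, rfl⟩ := ht a
  exact congrArg (fun f : MvPolynomial ι R →+* B => f G) h3

/-- The evaluation of a polynomial along entire functions is entire. -/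
theorem differentiable_eval₂ {R ι : Type*} [CommRing R] (ρ : R →+* ℂ) (f : ι → ℂ → ℂ)
    (hf : ∀ k, Differentiable ℂ (f k)) (G : MvPolynomial ι R) :
    Differentiable ℂ (fun z => MvPolynomial.eval₂ ρ (fun k => f k z) G) := by
  induction G using MvPolynomial.induction_on with
  | C a => simp
  | add p q hp hq =>
    simp only [MvPolynomial.eval₂_add]
    exact hp.add hq
  | mul_X p k hp =>
    simp only [MvPolynomial.eval₂_mul, MvPolynomial.eval₂_X]
    exact hp.mul (hf k)

variable {F₀ : Type} [Field F₀] [NumberField F₀] {V V' : Scheme.{0}}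

theorem finiteType_of_gen {R A : Type*} [CommRing R] [CommRing A] {ι : Type*} [Finite ι]
    {ψ : R →+* A} {t : ι → A} (ht : Function.Surjective (MvPolynomial.eval₂Hom ψ t)) :
    ψ.FiniteType := by
  let _ : Algebra R A := ψ.toAlgebra
  refine Algebra.FiniteType.of_surjective (MvPolynomial.aeval t : MvPolynomial ι R →ₐ[R] A) ?_
  exact ht

theorem isDominant_spec_of_injective {R K : Type} [CommRing R] [CommRing K] (φ : R →+* K)
    (hφ : Function.Injective φ) : IsDominant (Spec.map (CommRingCat.ofHom φ)) := by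
  constructor
  refine (PrimeSpectrum.denseRange_comap_iff_ker_le_nilRadical φ).2 ?_
  intro r hr
  have h5 : r = 0 := hφ (by rw [map_zero]; exact hr)
  rw [h5]
  exact zero_mem _

theorem condIIrec_of_condIexp (σ : F₀ →+* ℂ)
    (π : V ⟶ Spec (CommRingCat.of (𝓞 F₀))) [IsSeparated π] (i : V' ⟶ V) [IsClosedImmersion i]
    (hi : CondIexp σ π i) : CondIIrec π i := by
  classical
  intro A ψ j hψ ι hι t ht F _ _ _ S x hx
  -- the embedding of the algebraic closure of `F` in the complex numbers
  let K := AlgebraicClosure F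
  let _ : Algebra F₀ ℂ := σ.toAlgebra
  have hK : Algebra.IsAlgebraic ℚ K := Algebra.IsAlgebraic.trans ℚ F K
  have hK' : Algebra.IsAlgebraic F₀ K := by
    have : IsScalarTower ℚ F₀ K := IsScalarTower.of_algebraMap_eq' (Subsingleton.elim _ _)
    exact Algebra.IsAlgebraic.tower_top (K := ℚ) F₀
  let τ : K →ₐ[F₀] ℂ := IsAlgClosed.lift
  let ρ : 𝓞 F₀ →+* F := (algebraMap F₀ F).comp (algebraMap (𝓞 F₀) F₀)
  have hρ : (τ : K →+* ℂ).comp ((algebraMap F K).comp ρ) = σ.comp (algebraMap (𝓞 F₀) F₀) := by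
    ext r
    show τ (algebraMap F K (algebraMap F₀ F (algebraMap (𝓞 F₀) F₀ r))) = σ (algebraMap (𝓞 F₀) F₀ r)
    rw [← IsScalarTower.algebraMap_apply F₀ F K, AlgHom.commutes]
    rfl
  obtain ⟨I, hI⟩ := exists_ideal_factors i j
  have hstr : ∀ y ∈ integralPoints π F S, ∀ P : A →+* F,
      Spec.map (CommRingCat.ofHom (algebraMap (SInt F S) F)) ≫ y
          = Spec.map (CommRingCat.ofHom P) ≫ j → P.comp ψ = ρ := by
    intro y hy P hP
    have h1 : Spec.map (CommRingCat.ofHom (P.comp ψ)) = Spec.map (CommRingCat.ofHom ρ) := by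
      have h2 : (Spec.map (CommRingCat.ofHom P) ≫ j) ≫ π = Spec.map (CommRingCat.ofHom (P.comp ψ)) := by
        rw [Category.assoc, hψ, ← Spec.map_comp, ← CommRingCat.ofHom_comp]
      rw [← h2, ← hP, Category.assoc, show y ≫ π = _ from hy, ← Spec.map_comp,
        ← CommRingCat.ofHom_comp]
      rfl
    exact congrArg CommRingCat.Hom.hom (Spec.map_injective h1)
  by_contra hinf
  rw [← Set.Infinite] at hinf
  let B : Set (Spec (CommRingCat.of (SInt F S)) ⟶ V) := {y ∈ integralPoints π F S |
      (∃ P : A →+* F, Spec.map (CommRingCat.ofHom (algebraMap (SInt F S) F)) ≫ y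
          = Spec.map (CommRingCat.ofHom P) ≫ j ∧ ∃ n, ∀ k, P (t k) = x k n) ∧
      ¬ ∃ z : Spec (CommRingCat.of (SInt F S)) ⟶ V', z ≫ i = y}
  have hB : Infinite B := Set.infinite_coe_iff.2 hinf
  choose P hP n hn using fun y : B => y.2.2.1
  have hPψ : ∀ y : B, (P y).comp ψ = ρ := fun y => hstr y y.2.1 _ (hP y)
  -- an integral point is determined by its coordinates
  have hinj : ∀ y y' : B, (∀ k, P y (t k) = P y' (t k)) → y = y' := by
    intro y y' hyy'
    have h1 : P y = P y' := hom_ext_of_gen ht (by rw [hPψ, hPψ]) hyy'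
    have h2 : Spec.map (CommRingCat.ofHom (algebraMap (SInt F S) F)) ≫ y.1 =
        Spec.map (CommRingCat.ofHom (algebraMap (SInt F S) F)) ≫ y'.1 := by
      rw [hP y, hP y', h1]
    have h3 : y.1 ≫ π = y'.1 ≫ π := by
      rw [show y.1 ≫ π = _ from y.2.1, show y'.1 ≫ π = _ from y'.2.1]
    have h4 := isDominant_spec_of_injective (algebraMap (SInt F S) F)
      (FaithfulSMul.algebraMap_injective (SInt F S) F)
    exact Subtype.ext (ext_of_isDominant_of_isSeparated π h3 _ h2)
  let T : Set ℕ := Set.range n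
  -- interpolation
  let x' : ι → ℕ → K := fun k n => algebraMap F K (x k n)
  have hx' : ∀ k, ∃ E : LinearRecurrence K, E.IsSolution (x' k) := by
    intro k
    obtain ⟨E, hE⟩ := hx k
    refine ⟨⟨E.order, fun m => algebraMap F K (E.coeffs m)⟩, ?_⟩
    intro n
    show algebraMap F K (x k (n + E.order)) = _
    rw [hE n, map_sum]
    simp [x']
  have hT' : ((fun n k => x' k n) '' T).Infinite := by
    have h1 : Function.Injective (fun (y : B) (k : ι) => x' k (n y)) := by
      intro y y' h
      apply hinj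
      intro k
      rw [hn, hn]
      exact (algebraMap F K).injective (congrFun h k)
    refine (Set.infinite_range_of_injective h1).mono ?_
    rintro _ ⟨y, rfl⟩
    exact ⟨n y, ⟨y, rfl⟩, rfl⟩
  obtain ⟨a, b, f, ha, hf, hfexp, hfn, hinfT, heq⟩ :=
    exists_entire_interpolation (τ : K →+* ℂ) x' hx' T hT'
  -- the curve
  have hker : ∀ z, RingHom.ker (MvPolynomial.eval₂Hom ψ t) ≤
      RingHom.ker (MvPolynomial.eval₂Hom (σ.comp (algebraMap (𝓞 F₀) F₀)) (fun k => f k z)) := by
    intro z G hG
    rw [RingHom.mem_ker] at hG ⊢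
    have h1 := heq (MvPolynomial.map ((algebraMap F K).comp ρ) G) (by
      rintro _ ⟨y, rfl⟩
      rw [MvPolynomial.eval_map]
      have h2 : (((algebraMap F K).comp (P y)).comp (MvPolynomial.eval₂Hom ψ t)) G =
          MvPolynomial.eval₂ ((algebraMap F K).comp ρ) (fun k => x' k (n y)) G := by
        have h3 : ((algebraMap F K).comp (P y)).comp (MvPolynomial.eval₂Hom ψ t) =
            MvPolynomial.eval₂Hom ((algebraMap F K).comp ρ) (fun k => x' k (n y)) := by
          apply MvPolynomial.ringHom_ext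
          · intro r
            simp [← hPψ y]
          · intro k
            simp [x', hn]
        rw [h3]; rfl
      rw [← h2, RingHom.comp_apply, hG, map_zero]) z
    rw [MvPolynomial.eval₂_map, hρ] at h1
    exact h1
  let g : ℂ → (A →+* ℂ) := fun z => RingHom.liftOfSurjective (MvPolynomial.eval₂Hom ψ t) ht
    ⟨MvPolynomial.eval₂Hom (σ.comp (algebraMap (𝓞 F₀) F₀)) (fun k => f k z), hker z⟩
  have hg : ∀ z G, g z (MvPolynomial.eval₂Hom ψ t G) =
      MvPolynomial.eval₂Hom (σ.comp (algebraMap (𝓞 F₀) F₀)) (fun k => f k z) G := by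
    intro z G
    exact RingHom.liftOfRightInverse_comp_apply _ _ _ _ _
  have hgt : ∀ z k, g z (t k) = f k z := by
    intro z k
    have := hg z (MvPolynomial.X k)
    simpa using this
  have hgψ : ∀ z, (g z).comp ψ = σ.comp (algebraMap (𝓞 F₀) F₀) := by
    intro z
    ext r
    have := hg z (MvPolynomial.C r)
    simpa using this
  have hgexp : ∀ α : A, (fun z => g z α) ∈ expPoly := by
    intro α
    obtain ⟨G, rfl⟩ := ht α
    simp only [hg]
    induction G using MvPolynomial.induction_on with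
    | C r =>
      have h1 : (fun z : ℂ => (MvPolynomial.eval₂Hom (σ.comp (algebraMap (𝓞 F₀) F₀))
          (fun k => f k z)) (MvPolynomial.C r)) = algebraMap ℂ (ℂ → ℂ) (σ (algebraMap (𝓞 F₀) F₀ r)) := by
        funext z
        simp
      rw [h1]
      exact Subalgebra.algebraMap_mem _ _
    | add p q hp hq =>
      simp only [map_add]
      exact Subalgebra.add_mem _ hp hq
    | mul_X p k hp =>
      simp only [map_mul, MvPolynomial.coe_eval₂Hom, MvPolynomial.eval₂_X]
      exact Subalgebra.mul_mem _ hp (hfexp k)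
  -- the curve at the points of `T`
  let φ : SInt F S →+* ℂ := ((τ : K →+* ℂ).comp (algebraMap F K)).comp (algebraMap (SInt F S) F)
  have hφ : Function.Injective φ := ((τ : K →+* ℂ).comp (algebraMap F K)).injective.comp
    (FaithfulSMul.algebraMap_injective (SInt F S) F)
  have hcurve : ∀ (m : ℕ) (y : B), n y = a * m + b →
      Spec.map (CommRingCat.ofHom (g m)) ≫ j = Spec.map (CommRingCat.ofHom φ) ≫ y.1 := by
    intro m y hm
    have h1 : g m = ((τ : K →+* ℂ).comp (algebraMap F K)).comp (P y) := by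
      apply hom_ext_of_gen ht
      · rw [hgψ, RingHom.comp_assoc, hPψ, RingHom.comp_assoc, hρ]
      · intro k
        rw [hgt, hfn]
        simp [x', hn, hm]
    have h2 : Spec.map (CommRingCat.ofHom φ) =
        Spec.map (CommRingCat.ofHom ((τ : K →+* ℂ).comp (algebraMap F K))) ≫
          Spec.map (CommRingCat.ofHom (algebraMap (SInt F S) F)) := by
      rw [← Spec.map_comp, ← CommRingCat.ofHom_comp]
    rw [h1, CommRingCat.ofHom_comp, Spec.map_comp, Category.assoc, ← hP y, h2, Category.assoc]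
  have hnc : ∃ z w, Spec.map (CommRingCat.ofHom (g z)) ≫ j ≠
      Spec.map (CommRingCat.ofHom (g w)) ≫ j := by
    obtain ⟨_, ⟨m, ⟨y, hm⟩, rfl⟩, _, ⟨m', ⟨y', hm'⟩, rfl⟩, hne⟩ := hinfT.nontrivial
    refine ⟨m, m', ?_⟩
    intro h
    apply hne
    rw [hcurve m y hm, hcurve m' y' hm'] at h
    have h3 : y.1 ≫ π = y'.1 ≫ π := by
      rw [show y.1 ≫ π = _ from y.2.1, show y'.1 ≫ π = _ from y'.2.1]
    have h4 := isDominant_spec_of_injective φ hφ
    have h5 : y = y' := Subtype.ext (ext_of_isDominant_of_isSeparated π h3 _ h)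
    have h6 : a * m + b = a * m' + b := by rw [← hm, ← hm', h5]
    show (fun k => x' k (a * m + b)) = fun k => x' k (a * m' + b)
    rw [h6]
  obtain ⟨_, ⟨m, ⟨y, hm⟩, rfl⟩⟩ := hinfT.nonempty
  apply y.2.2.2
  have h1 := hi A ψ (finiteType_of_gen ht) j hψ g hgψ hgexp hnc m
  rw [hcurve m y hm] at h1
  exact factors_of_injective i y.1 (CommRingCat.ofHom φ) hφ h1

end Pool.Agent.Work.MP_e97a4d_nt
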