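import Mathlib

set_option autoImplicit false
set_option linter.unusedSectionVars false

noncomputable section

namespace Pool.Agent.Work.MP_e97a4d_nt.Quad

open scoped BigOperators
open MvPolynomial

/-- truncation of exponents at `D` -/
def tr {m : ℕ} (D : ℕ) (μ : Fin m → ℕ) : Fin m → Fin (D + 1) :=
  fun i => ⟨min (μ i) D, Nat.lt_succ_of_le (min_le_right _ _)⟩

/-- exponents as natural numbers -/
def nat {m D : ℕ} (τ : Fin m → Fin (D + 1)) : Fin m → ℕ := fun i => (τ i : ℕ)

theorem tr_nat {m D : ℕ} (τ : Fin m → Fin (D + 1)) : tr D (nat τ) = τ := by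
  funext i
  apply Fin.ext
  simp only [tr, nat]
  exact min_eq_left (Nat.lt_succ_iff.1 (τ i).2)

theorem nat_tr {m D : ℕ} (μ : Fin m → ℕ) (h : ∀ i, μ i ≤ D) : nat (tr D μ) = μ := by
  funext i
  simp only [tr, nat]
  exact min_eq_left (h i)

variable {R : Type} [CommRing R] {m D : ℕ}

/-- the variable with exponent `μ` -/
def v (R : Type) [CommRing R] {m : ℕ} (D : ℕ) (μ : Fin m → ℕ) :
    MvPolynomial (Fin m → Fin (D + 1)) R := X (tr D μ)

open Classical in
/-- the gate for multiplication of the variables `μ` and `ν` -/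
def gate (R : Type) [CommRing R] {m : ℕ} (D : ℕ) (μ ν : Fin m → ℕ) :
    MvPolynomial (Fin m → Fin (D + 1)) R :=
  if ∀ i, μ i + ν i ≤ D then v R D (μ + ν) - v R D μ * v R D ν else 0

/-- the linear form attached to a polynomial -/
def lin (D : ℕ) (g : MvPolynomial (Fin m) R) : MvPolynomial (Fin m → Fin (D + 1)) R :=
  ∑ μ ∈ g.support, C (g.coeff μ) * v R D μ

open Classical in
/-- the linear forms -/
def Lin (D : ℕ) (G : Finset (MvPolynomial (Fin m) R)) :
    Finset (MvPolynomial (Fin m → Fin (D + 1)) R) :=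
  insert (v R D 0 - 1) (G.image (lin D))

open Classical in
/-- the encoding of the system `G` -/
def enc (D : ℕ) (G : Finset (MvPolynomial (Fin m) R)) :
    Finset (MvPolynomial (Fin m → Fin (D + 1)) R) :=
  (Finset.univ.image fun p : (Fin m → Fin (D + 1)) × (Fin m → Fin (D + 1)) =>
    gate R D (nat p.1) (nat p.2)) ∪ Lin D G

theorem gate_mem (G : Finset (MvPolynomial (Fin m) R)) (μ ν : Fin m → ℕ)
    (h : ∀ i, μ i + ν i ≤ D) : v R D (μ + ν) - v R D μ * v R D ν ∈ enc D G := by
  classical
  unfold enc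
  rw [Finset.mem_union]
  left
  rw [Finset.mem_image]
  refine ⟨(tr D μ, tr D ν), Finset.mem_univ _, ?_⟩
  have h1 : nat (tr D μ) = μ := nat_tr μ fun i => (Nat.le_add_right _ _).trans (h i)
  have h2 : nat (tr D ν) = ν := nat_tr ν fun i => (Nat.le_add_left _ _).trans (h i)
  simp only [h1, h2]
  unfold gate
  rw [if_pos h]

theorem lin_mem (G : Finset (MvPolynomial (Fin m) R)) (ℓ : MvPolynomial (Fin m → Fin (D + 1)) R)
    (h : ℓ ∈ Lin D G) : ℓ ∈ enc D G := by
  classical
  unfold enc
  rw [Finset.mem_union]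
  right
  exact h

theorem totalDegree_v (μ : Fin m → ℕ) : (v R D μ).totalDegree ≤ 1 := by
  unfold v
  rw [X]
  refine (totalDegree_monomial_le _ _).trans ?_
  simp

theorem totalDegree_lin (ℓ : MvPolynomial (Fin m → Fin (D + 1)) R)
    (G : Finset (MvPolynomial (Fin m) R)) (h : ℓ ∈ Lin D G) : ℓ.totalDegree ≤ 1 := by
  classical
  unfold Lin at h
  rw [Finset.mem_insert, Finset.mem_image] at h
  rcases h with rfl | ⟨g, hg, rfl⟩
  · refine (totalDegree_sub _ _).trans ?_
    rw [max_le_iff]
    exact ⟨totalDegree_v _, by rw [totalDegree_one]; exact zero_le_one⟩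
  · refine totalDegree_finsetSum_le fun μ _ => ?_
    refine (totalDegree_mul _ _).trans ?_
    rw [totalDegree_C, zero_add]
    exact totalDegree_v _

theorem shape_enc (G : Finset (MvPolynomial (Fin m) R))
    (e : MvPolynomial (Fin m → Fin (D + 1)) R) (he : e ∈ enc D G) :
    e.totalDegree ≤ 1 ∨ ∃ i j k, e = X k - X i * X j := by
  classical
  unfold enc at he
  rw [Finset.mem_union, Finset.mem_image] at he
  rcases he with ⟨p, _, rfl⟩ | h
  · unfold gate
    split_ifs
    · right
      exact ⟨_, _, _, rfl⟩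
    · left
      rw [totalDegree_zero]; exact Nat.zero_le _
  · exact Or.inl (totalDegree_lin e G h)

section Eval

variable {K : Type} [CommRing K] (ρ : R →+* K)

theorem eval_v (X' : (Fin m → Fin (D + 1)) → K) (μ : Fin m → ℕ) :
    eval₂ ρ X' (v R D μ) = X' (tr D μ) := by
  unfold v
  rw [eval₂_X]

/-- the point with coordinates the monomials in the `x i` -/
def mon (D : ℕ) (x : Fin m → K) : (Fin m → Fin (D + 1)) → K := fun τ => ∏ i, x i ^ (τ i : ℕ)

theorem mon_tr (x : Fin m → K) (μ : Fin m → ℕ) (h : ∀ i, μ i ≤ D) :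
    mon D x (tr D μ) = ∏ i, x i ^ μ i := by
  unfold mon
  refine Finset.prod_congr rfl fun i _ => ?_
  congr 1
  exact congrFun (nat_tr μ h) i

theorem eval_lin (X' : (Fin m → Fin (D + 1)) → K) (g : MvPolynomial (Fin m) R) :
    eval₂ ρ X' (lin D g) = ∑ μ ∈ g.support, ρ (g.coeff μ) * X' (tr D μ) := by
  unfold lin
  rw [eval₂_sum]
  refine Finset.sum_congr rfl fun μ _ => ?_
  rw [eval₂_mul, eval₂_C, eval_v]

theorem eval_mon_enc (G : Finset (MvPolynomial (Fin m) R))
    (hdeg : ∀ g ∈ G, ∀ μ ∈ g.support, ∀ i, μ i ≤ D) (x : Fin m → K)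
    (hx : ∀ g ∈ G, eval₂ ρ x g = 0) (e : MvPolynomial (Fin m → Fin (D + 1)) R)
    (he : e ∈ enc D G) : eval₂ ρ (mon D x) e = 0 := by
  classical
  have hlin : ∀ ℓ ∈ Lin D G, eval₂ ρ (mon D x) ℓ = 0 := by
    intro ℓ hℓ
    unfold Lin at hℓ
    rw [Finset.mem_insert, Finset.mem_image] at hℓ
    rcases hℓ with rfl | ⟨g, hg, rfl⟩
    · rw [eval₂_sub, eval_v, eval₂_one, mon_tr x 0 (fun i => Nat.zero_le _)]
      simp
    · rw [eval_lin, ← hx g hg, eval₂_eq']
      refine Finset.sum_congr rfl fun μ hμ => ?_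
      rw [mon_tr _ _ (hdeg g hg μ hμ)]
  unfold enc at he
  rw [Finset.mem_union, Finset.mem_image] at he
  rcases he with ⟨p, _, rfl⟩ | h
  · unfold gate
    split_ifs with hle
    · rw [eval₂_sub, eval₂_mul, eval_v, eval_v, eval_v,
        mon_tr x (nat p.1 + nat p.2) hle,
        mon_tr x (nat p.1) (fun i => (Nat.le_add_right _ _).trans (hle i)),
        mon_tr x (nat p.2) (fun i => (Nat.le_add_left _ _).trans (hle i)), ← Finset.prod_mul_distrib,
        sub_eq_zero]
      refine Finset.prod_congr rfl fun i _ => ?_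
      rw [Pi.add_apply, pow_add]
    · exact eval₂_zero _ _
  · exact hlin e h

end Eval

section Main

variable {K : Type} [CommRing K] [IsDomain K] (ρ : R →+* K)

/-- The main algebraic lemma: an infinite set of points on which all polynomials of the encoding
are constant consists of monomial points, in low degree, of the system `G`. -/
theorem main (G₀ G : Finset (MvPolynomial (Fin m) R)) (hsub : ∀ g ∈ G₀, g ∈ G)
    (hmul : ∀ g ∈ G₀, ∀ i, X i * g ∈ G)
    (hdeg : ∀ g ∈ G, ∀ μ ∈ g.support, ∀ i, μ i + 2 ≤ D) (hD : 2 ≤ D)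
    (Z : Set ((Fin m → Fin (D + 1)) → K))
    (hconst : ∀ e ∈ enc D G, ∀ x ∈ Z, ∀ y ∈ Z, eval₂ ρ x e = eval₂ ρ y e) :
    (∀ x ∈ Z, ∀ y ∈ Z, (∀ i, x (tr D (Pi.single i 1)) = y (tr D (Pi.single i 1))) → x = y) ∧
    (Z.Infinite → ∀ x ∈ Z, ∀ g ∈ G₀, eval₂ ρ (fun i => x (tr D (Pi.single i 1))) g = 0) := by
  classical
  -- constancy of gates
  have hgate : ∀ μ ν : Fin m → ℕ, (∀ i, μ i + ν i ≤ D) → ∀ x ∈ Z, ∀ y ∈ Z,
      x (tr D (μ + ν)) - x (tr D μ) * x (tr D ν) = y (tr D (μ + ν)) - y (tr D μ) * y (tr D ν) := by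
    intro μ ν h x hx y hy
    have := hconst _ (gate_mem G μ ν h) x hx y hy
    simpa only [eval₂_sub, eval₂_mul, eval_v] using this
  have hlin : ∀ ℓ ∈ Lin D G, ∀ x ∈ Z, ∀ y ∈ Z, eval₂ ρ x ℓ = eval₂ ρ y ℓ := fun ℓ hℓ x hx y hy =>
    hconst _ (lin_mem G ℓ hℓ) x hx y hy
  have hv0 : (v R D 0 - 1 : MvPolynomial (Fin m → Fin (D + 1)) R) ∈ Lin D G := by
    unfold Lin
    exact Finset.mem_insert_self _ _
  -- decomposition of exponents
  have hdecomp : ∀ μ : Fin m → ℕ, ∑ i, μ i ≠ 0 → ∃ (i : Fin m) (μ' : Fin m → ℕ),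
      μ = μ' + Pi.single i 1 ∧ ∑ i, μ i = ∑ i, μ' i + 1 := by
    intro μ hμ
    obtain ⟨i, -, hi⟩ := Finset.exists_ne_zero_of_sum_ne_zero hμ
    refine ⟨i, μ - Pi.single i 1, ?_, ?_⟩
    · funext j
      by_cases hj : j = i
      · subst hj
        simp only [Pi.add_apply, Pi.sub_apply, Pi.single_eq_same]
        omega
      · simp [Pi.single_eq_of_ne hj]
    · have h1 : μ = (μ - Pi.single i 1) + Pi.single i 1 := by
        funext j
        by_cases hj : j = i
        · subst hj
          simp only [Pi.add_apply, Pi.sub_apply, Pi.single_eq_same]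
          omega
        · simp [Pi.single_eq_of_ne hj]
      conv_lhs => rw [h1]
      simp only [Pi.add_apply]
      rw [Finset.sum_add_distrib]
      congr 1
      rw [Finset.sum_pi_single']
      simp
  have hinj : ∀ x ∈ Z, ∀ y ∈ Z,
      (∀ i, x (tr D (Pi.single i 1)) = y (tr D (Pi.single i 1))) → x = y := by
    intro x hx y hy hxy
    have key : ∀ (n : ℕ) (μ : Fin m → ℕ), ∑ i, μ i = n → (∀ i, μ i ≤ D) →
        x (tr D μ) = y (tr D μ) := by
      intro n
      induction n with
      | zero =>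
        intro μ hμ _
        have h0 : μ = 0 := by
          funext i
          have := (Finset.sum_eq_zero_iff.1 hμ) i (Finset.mem_univ i)
          simpa using this
        subst h0
        have := hlin _ hv0 x hx y hy
        simpa only [eval₂_sub, eval_v, eval₂_one, sub_left_inj] using this
      | succ n ih =>
        intro μ hμ hle
        obtain ⟨i, μ', rfl, hs⟩ := hdecomp μ (by omega)
        have hle' : ∀ j, μ' j + (Pi.single i 1 : Fin m → ℕ) j ≤ D := fun j => hle j
        have h1 := hgate μ' (Pi.single i 1) hle' x hx y hy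
        have h2 := ih μ' (by omega) (fun j => (Nat.le_add_right _ _).trans (hle' j))
        rw [h2, hxy i] at h1
        exact sub_left_injective h1
    funext τ
    have := key _ (nat τ) rfl (fun i => Nat.lt_succ_iff.1 (τ i).2)
    rwa [tr_nat] at this
  refine ⟨hinj, fun hZ => ?_⟩
  -- a coordinate taking infinitely many values
  obtain ⟨l, hl⟩ : ∃ l : Fin m, ((fun x : (Fin m → Fin (D + 1)) → K =>
      x (tr D (Pi.single l 1))) '' Z).Infinite := by
    by_contra hcon
    push Not at hcon
    apply hZ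
    refine Set.Finite.of_finite_image (f := fun x i => x (tr D (Pi.single i 1))) ?_ ?_
    · refine Set.Finite.subset (Set.Finite.pi' (t := fun i : Fin m =>
        (fun x : (Fin m → Fin (D + 1)) → K => x (tr D (Pi.single i 1))) '' Z) fun i => ?_) ?_
      · exact hcon i
      · rintro _ ⟨x, hx, rfl⟩ i
        exact ⟨x, hx, rfl⟩
    · intro x hx y hy hxy
      exact hinj x hx y hy (fun i => congrFun hxy i)
  -- a polynomial vanishing at all values of this coordinate is zero
  have hpoly : ∀ p : Polynomial K, (∀ x ∈ Z, p.eval (x (tr D (Pi.single l 1))) = 0) → p = 0 := by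
    intro p hp
    apply Polynomial.eq_zero_of_infinite_isRoot
    refine hl.mono ?_
    rintro _ ⟨x, hx, rfl⟩
    exact hp x hx
  -- exactness of the gates
  have hexact : ∀ μ ν : Fin m → ℕ, (∀ i, μ i + ν i + 2 ≤ D) → ∀ x ∈ Z,
      x (tr D (μ + ν)) = x (tr D μ) * x (tr D ν) := by
    intro μ ν hle x hx
    set s1 : Fin m → ℕ := Pi.single l 1 with hs1
    have hs1le : ∀ i, s1 i ≤ 1 := by
      intro i
      rw [hs1]
      by_cases h : i = l
      · subst h; simp
      · simp [Pi.single_eq_of_ne h]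
    have g0 := hgate μ ν (fun i => by have := hle i; omega)
    have g1 := hgate (μ + ν) s1 (fun i => by
      have := hle i; have := hs1le i; simp only [Pi.add_apply]; omega)
    have g2 := hgate μ (ν + s1) (fun i => by
      have := hle i; have := hs1le i; simp only [Pi.add_apply]; omega)
    have g3 := hgate ν s1 (fun i => by have := hle i; have := hs1le i; omega)
    have g4 := hgate s1 s1 (fun i => by have := hle i; have := hs1le i; omega)
    have g5 := hgate (μ + ν) (s1 + s1) (fun i => by
      have := hle i; have := hs1le i; simp only [Pi.add_apply]; omega)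
    have g6 := hgate μ (ν + (s1 + s1)) (fun i => by
      have := hle i; have := hs1le i; simp only [Pi.add_apply]; omega)
    have g7 := hgate ν (s1 + s1) (fun i => by
      have := hle i; have := hs1le i; simp only [Pi.add_apply]; omega)
    rw [← add_assoc μ ν s1] at g2
    rw [← add_assoc μ ν (s1 + s1)] at g6
    -- constants
    obtain ⟨a, ha⟩ : ∃ a, a = x (tr D (μ + ν)) - x (tr D μ) * x (tr D ν) := ⟨_, rfl⟩
    obtain ⟨c1, hc1⟩ : ∃ a, a = x (tr D (μ + ν + s1)) - x (tr D (μ + ν)) * x (tr D s1) := ⟨_, rfl⟩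
    obtain ⟨c2, hc2⟩ : ∃ a, a = x (tr D (μ + ν + s1)) - x (tr D μ) * x (tr D (ν + s1)) := ⟨_, rfl⟩
    obtain ⟨b, hb⟩ : ∃ a, a = x (tr D (ν + s1)) - x (tr D ν) * x (tr D s1) := ⟨_, rfl⟩
    obtain ⟨c0, hc0⟩ : ∃ a, a = x (tr D (s1 + s1)) - x (tr D s1) * x (tr D s1) := ⟨_, rfl⟩
    obtain ⟨d1, hd1⟩ : ∃ a, a = x (tr D (μ + ν + (s1 + s1))) - x (tr D (μ + ν)) *
      x (tr D (s1 + s1)) := ⟨_, rfl⟩
    obtain ⟨d2, hd2⟩ : ∃ a, a = x (tr D (μ + ν + (s1 + s1))) - x (tr D μ) *
      x (tr D (ν + (s1 + s1))) := ⟨_, rfl⟩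
    obtain ⟨b', hb'⟩ : ∃ a, a = x (tr D (ν + (s1 + s1))) - x (tr D ν) * x (tr D (s1 + s1)) :=
      ⟨_, rfl⟩
    have r1 : ∀ y ∈ Z, a * y (tr D s1) - b * y (tr D μ) = c2 - c1 := by
      intro y hy
      have e0 := g0 x hx y hy
      have e1 := g1 x hx y hy
      have e2 := g2 x hx y hy
      have e3 := g3 x hx y hy
      rw [← ha] at e0
      rw [← hc1] at e1
      rw [← hc2] at e2
      rw [← hb] at e3
      linear_combination y (tr D s1) * e0 + e1 - e2 - y (tr D μ) * e3
    have r2 : ∀ y ∈ Z, a * (y (tr D s1) ^ 2 + c0) - b' * y (tr D μ) = d2 - d1 := by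
      intro y hy
      have e0 := g0 x hx y hy
      have e4 := g4 x hx y hy
      have e5 := g5 x hx y hy
      have e6 := g6 x hx y hy
      have e7 := g7 x hx y hy
      rw [← ha] at e0
      rw [← hc0] at e4
      rw [← hd1] at e5
      rw [← hd2] at e6
      rw [← hb'] at e7
      have e8 : y (tr D (s1 + s1)) = y (tr D s1) ^ 2 + c0 := by rw [e4]; ring
      rw [← e8]
      linear_combination y (tr D (s1 + s1)) * e0 + e5 - e6 - y (tr D μ) * e7
    by_contra hne
    have ha0 : a ≠ 0 := by rw [ha]; exact sub_ne_zero.2 hne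
    have h1 := hpoly (Polynomial.C (a * b) * Polynomial.X ^ 2 - Polynomial.C (a * b') *
      Polynomial.X + Polynomial.C (a * b * c0 + b' * (c2 - c1) - b * (d2 - d1))) (by
        intro y hy
        simp only [Polynomial.eval_add, Polynomial.eval_sub, Polynomial.eval_mul,
          Polynomial.eval_C, Polynomial.eval_pow, Polynomial.eval_X]
        linear_combination b * r2 y hy - b' * r1 y hy)
    have h2 : a * b = 0 := by
      have h5 := congrArg (fun p => Polynomial.coeff p 2) h1
      simp only [Polynomial.coeff_add, Polynomial.coeff_sub, Polynomial.coeff_C_mul,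
        Polynomial.coeff_X_pow, Polynomial.coeff_X, Polynomial.coeff_C, Polynomial.coeff_zero] at h5
      norm_num at h5
      rcases h5 with h5 | h5
      · rw [h5, zero_mul]
      · rw [h5, mul_zero]
    have hb0 : b = 0 := (mul_eq_zero.1 h2).resolve_left ha0
    have h3 := hpoly (Polynomial.C a * Polynomial.X - Polynomial.C (c2 - c1)) (by
        intro y hy
        simp only [Polynomial.eval_sub, Polynomial.eval_mul, Polynomial.eval_C, Polynomial.eval_X]
        have := r1 y hy
        rw [hb0] at this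
        linear_combination this)
    have h4 := congrArg (fun p => Polynomial.coeff p 1) h3
    apply ha0
    simpa using h4
  -- low degree variables are monomials
  have hone : ∀ x ∈ Z, x (tr D 0) = 1 := by
    intro x hx
    have h1 := hpoly (Polynomial.C (1 - x (tr D 0)) * Polynomial.X -
      Polynomial.C (x (tr D (0 + Pi.single l 1)) - x (tr D 0) * x (tr D (Pi.single l 1)))) (by
        intro y hy
        have h2 := hgate 0 (Pi.single l 1) (fun i => by
          simp only [Pi.zero_apply, zero_add]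
          by_cases h : i = l
          · subst h; simp; omega
          · simp [Pi.single_eq_of_ne h]) x hx y hy
        have h3 := hlin _ hv0 x hx y hy
        simp only [eval₂_sub, eval_v, eval₂_one, sub_left_inj] at h3
        simp only [Polynomial.eval_sub, Polynomial.eval_mul, Polynomial.eval_C, Polynomial.eval_X]
        rw [h2, h3, zero_add]
        ring)
    have h4 := congrArg (fun p => Polynomial.coeff p 1) h1
    simp only [Polynomial.coeff_sub, Polynomial.coeff_C_mul, Polynomial.coeff_X,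
      Polynomial.coeff_C, Polynomial.coeff_zero] at h4
    norm_num at h4
    exact (sub_eq_zero.1 h4).symm
  have hmon : ∀ x ∈ Z, ∀ (n : ℕ) (μ : Fin m → ℕ), ∑ i, μ i = n → (∀ i, μ i + 2 ≤ D) →
      x (tr D μ) = ∏ i, x (tr D (Pi.single i 1)) ^ μ i := by
    intro x hx n
    induction n with
    | zero =>
      intro μ hμ _
      have h0 : μ = 0 := by
        funext i
        have := (Finset.sum_eq_zero_iff.1 hμ) i (Finset.mem_univ i)
        simpa using this
      subst h0
      rw [hone x hx]
      simp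
    | succ n ih =>
      intro μ hμ hle
      obtain ⟨i, μ', rfl, hs⟩ := hdecomp μ (by omega)
      have hle' : ∀ j, μ' j + (Pi.single i 1 : Fin m → ℕ) j + 2 ≤ D := fun j => hle j
      rw [hexact μ' (Pi.single i 1) hle' x hx, ih μ' (by omega) (fun j => by
        have := hle' j; omega)]
      simp only [Pi.add_apply, pow_add]
      rw [Finset.prod_mul_distrib]
      congr 1
      rw [Finset.prod_eq_single i]
      · simp
      · intro j _ hj
        simp [Pi.single_eq_of_ne hj]
      · intro h
        exact absurd (Finset.mem_univ i) h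
  have hev : ∀ x ∈ Z, ∀ g ∈ G, eval₂ ρ x (lin D g) =
      eval₂ ρ (fun i => x (tr D (Pi.single i 1))) g := by
    intro x hx g hg
    rw [eval_lin, eval₂_eq']
    refine Finset.sum_congr rfl fun μ hμ => ?_
    rw [hmon x hx _ (fun i => μ i) rfl (hdeg g hg μ hμ)]
  have hlinG : ∀ g ∈ G, lin D g ∈ Lin D G := by
    intro g hg
    unfold Lin
    exact Finset.mem_insert_of_mem (Finset.mem_image_of_mem _ hg)
  intro x hx g hg
  have h1 := hpoly (Polynomial.C (eval₂ ρ x (lin D g)) * Polynomial.X -
    Polynomial.C (eval₂ ρ x (lin D (X l * g)))) (by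
      intro y hy
      simp only [Polynomial.eval_sub, Polynomial.eval_mul, Polynomial.eval_C, Polynomial.eval_X]
      rw [hlin _ (hlinG g (hsub g hg)) x hx y hy, hlin _ (hlinG _ (hmul g hg l)) x hx y hy,
        hev y hy g (hsub g hg), hev y hy _ (hmul g hg l), eval₂_mul, eval₂_X]
      ring)
  have h2 := congrArg (fun p => Polynomial.coeff p 1) h1
  simp only [Polynomial.coeff_sub, Polynomial.coeff_C_mul, Polynomial.coeff_X,
    Polynomial.coeff_C, Polynomial.coeff_zero] at h2
  norm_num at h2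
  rw [hev x hx g (hsub g hg)] at h2
  exact h2

end Main

end Pool.Agent.Work.MP_e97a4d_nt.Quad
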