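import Mathlib
import Pool.Agent.Work.MP_e97a4d_nt.Defs

/-!
The two conditions of the problem for the open subset of an affine space `A^ι` over `𝓞 F₀` on which
none of the polynomials of the finite set `E` takes one of the values `1`, `-1`, and for its closed
subset `x_{i₀} = 0`.
-/

set_option autoImplicit false

noncomputable section

namespace Pool.Agent.Work.MP_e97a4d_nt

open IsDedekindDomain NumberField

variable {F₀ : Type} [Field F₀]

/-- Condition (i) for the complement in affine space of the hypersurfaces `e = 1` and `e = -1`,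
`e ∈ E`, and for its closed subset `x_{i₀} = 0`: every entire curve in this complement lies in the
hyperplane `x_{i₀} = 0`. -/
def QuadI (σ : F₀ →+* ℂ) {ι : Type} (E : Finset (MvPolynomial ι (𝓞 F₀))) (i₀ : ι) : Prop :=
  ∀ x : ι → ℂ → ℂ, (∀ i, Differentiable ℂ (x i)) → (∃ i z w, x i z ≠ x i w) →
    (∀ e ∈ E, ∀ z,
      MvPolynomial.eval₂ (σ.comp (algebraMap (𝓞 F₀) F₀)) (fun i => x i z) e ≠ 1 ∧
      MvPolynomial.eval₂ (σ.comp (algebraMap (𝓞 F₀) F₀)) (fun i => x i z) e ≠ -1) →
    ∀ z, x i₀ z = 0

/-- Condition (ii) for the complement in affine space of the hypersurfaces `e = 1` and `e = -1`,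
`e ∈ E`, and for its closed subset `x_{i₀} = 0`: only finitely many points `x` with coordinates in
`O_S` and `x_{i₀} ≠ 0` have `e(x) - 1` and `e(x) + 1` in `O_S^*` for all `e ∈ E`. -/
def QuadII {ι : Type} (E : Finset (MvPolynomial ι (𝓞 F₀))) (i₀ : ι) : Prop :=
  ∀ (F : Type) [Field F] [NumberField F] [Algebra F₀ F] (S : Finset (HeightOneSpectrum (𝓞 F))),
    {x : ι → SInt F S | (∀ e ∈ E, IsUnit (MvPolynomial.eval₂ (structHom F₀ F S) x e - 1) ∧
      IsUnit (MvPolynomial.eval₂ (structHom F₀ F S) x e + 1)) ∧ x i₀ ≠ 0}.Finite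

end Pool.Agent.Work.MP_e97a4d_nt
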