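import Mathlib
import Pool.Agent.Work.MP_e97a4d_nt.Weights

set_option autoImplicit false
set_option linter.unusedSectionVars false

noncomputable section

namespace Pool.Agent.Work.MP_e97a4d_nt

open scoped BigOperators

/-- The integral closedness of a ring `B`, in elementary terms. -/
def DivClosed (B : Type) [CommRing B] : Prop :=
  ∀ (L : Type) [Field L] (j : B →+* L), Function.Injective j → ∀ x : L, j.IsIntegralElem x →
    (∃ a b : B, b ≠ 0 ∧ x * j b = j a) → x ∈ j.range

theorem divClosed_of_isIntegrallyClosed (B : Type) [CommRing B] [IsDomain B]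
    [IsIntegrallyClosed B] : DivClosed B := by
  intro L _ j hj x hx hfrac
  obtain ⟨a, b, hb, hab⟩ := hfrac
  let _ : Algebra B L := j.toAlgebra
  let y : FractionRing B := algebraMap B _ a / algebraMap B _ b
  let θ : FractionRing B →+* L := IsFractionRing.lift hj
  have hθ : ∀ r, θ (algebraMap B _ r) = j r := fun r => IsFractionRing.lift_algebraMap hj r
  have hjb : j b ≠ 0 := by
    intro h
    apply hb
    apply hj
    rw [h, map_zero]
  have hy : θ y = x := by
    rw [map_div₀, hθ, hθ, div_eq_iff hjb, hab]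
  have hint : IsIntegral B y := by
    obtain ⟨p, hp, hpx⟩ := hx
    refine ⟨p, hp, ?_⟩
    apply θ.injective
    rw [Polynomial.hom_eval₂, map_zero, hy]
    have : θ.comp (algebraMap B (FractionRing B)) = j := RingHom.ext hθ
    rw [this]
    exact hpx
  obtain ⟨e, he⟩ := IsIntegrallyClosed.isIntegral_iff.1 hint
  refine ⟨e, ?_⟩
  rw [← hy, ← he, hθ]

/-- Extension of ring homomorphisms into an integrally closed domain along an integral birational
map. -/
theorem exists_extension {A₀ A B : Type} [CommRing A₀] [CommRing A] [CommRing B] [IsDomain B]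
    (hB : DivClosed B) (θ : A₀ →+* A) (w c : A₀) (g₀ : A₀ →+* B)
    (hker : ∀ a, θ a = 0 → g₀ a = 0) (hw : g₀ w ≠ 0) (hc : IsUnit (g₀ c))
    (hbir : ∀ a : A, ∃ (k : ℕ) (u : A₀), θ w ^ k * a = θ u)
    (hint : ∀ a : A, ∃ k : ℕ, θ.IsIntegralElem (θ c ^ k * a)) :
    ∃ g : A →+* B, g.comp θ = g₀ := by
  classical
  let L := FractionRing B
  let j : B →+* L := algebraMap B L
  have hj : Function.Injective j := IsFractionRing.injective B L
  have hjw : j (g₀ w) ≠ 0 := by
    intro h; apply hw; apply hj; rw [h, map_zero]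
  choose K U hKU using hbir
  let l : A → L := fun a => j (g₀ (U a)) / j (g₀ w) ^ K a
  have key : ∀ (a : A) (k : ℕ) (u : A₀), θ w ^ k * a = θ u → l a * j (g₀ w) ^ k = j (g₀ u) := by
    intro a k u h
    have h1 : θ (w ^ k * U a - w ^ K a * u) = 0 := by
      rw [map_sub, map_mul, map_mul, map_pow, map_pow, ← hKU, ← h]; ring
    have h2 := hker _ h1
    rw [map_sub, map_mul, map_mul, map_pow, map_pow, sub_eq_zero] at h2
    have h3 := congrArg j h2
    rw [map_mul, map_mul, map_pow, map_pow] at h3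
    have h4 : j (g₀ w) ^ K a ≠ 0 := pow_ne_zero _ hjw
    show j (g₀ (U a)) / j (g₀ w) ^ K a * j (g₀ w) ^ k = j (g₀ u)
    rw [div_mul_eq_mul_div, div_eq_iff h4, mul_comm, h3, mul_comm]
  let lh : A →+* L :=
    { toFun := l
      map_one' := by
        have := key 1 0 1 (by simp)
        simpa using this
      map_zero' := by
        have := key 0 0 0 (by simp)
        simpa using this
      map_add' := by
        intro a b
        have h := key (a + b) (K a + K b) (w ^ K b * U a + w ^ K a * U b) (by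
          rw [map_add, map_mul, map_mul, map_pow, map_pow, ← hKU, ← hKU]; ring)
        have ha := key a (K a) (U a) (hKU a)
        have hb := key b (K b) (U b) (hKU b)
        have h4 : j (g₀ w) ^ (K a + K b) ≠ 0 := pow_ne_zero _ hjw
        apply mul_right_cancel₀ h4
        rw [h, map_add, map_add, map_mul, map_mul, map_mul, map_mul, map_pow, map_pow, map_pow,
          map_pow, ← ha, ← hb]
        ring
      map_mul' := by
        intro a b
        have h := key (a * b) (K a + K b) (U a * U b) (by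
          rw [map_mul, ← hKU, ← hKU]; ring)
        have ha := key a (K a) (U a) (hKU a)
        have hb := key b (K b) (U b) (hKU b)
        have h4 : j (g₀ w) ^ (K a + K b) ≠ 0 := pow_ne_zero _ hjw
        apply mul_right_cancel₀ h4
        rw [h, map_mul, map_mul, ← ha, ← hb]
        ring }
  have hlθ : ∀ a, lh (θ a) = j (g₀ a) := by
    intro a
    have := key (θ a) 0 a (by simp)
    rw [pow_zero, mul_one] at this
    exact this
  have hrange : ∀ a, lh a ∈ j.range := by
    intro a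
    obtain ⟨k, p, hp, hpa⟩ := hint a
    have h1 : j.IsIntegralElem (lh (θ c ^ k * a)) := by
      refine ⟨p.map g₀, hp.map g₀, ?_⟩
      rw [Polynomial.eval₂_map]
      have : (j.comp g₀) = lh.comp θ := RingHom.ext fun a => (hlθ a).symm
      rw [this, ← Polynomial.hom_eval₂, hpa, map_zero]
    have h2 : lh (θ c ^ k * a) ∈ j.range := by
      refine hB L j hj _ h1 ⟨g₀ (c ^ k * U a), g₀ w ^ K a, pow_ne_zero _ hw, ?_⟩
      rw [map_pow]
      exact key (θ c ^ k * a) (K a) (c ^ k * U a) (by rw [map_mul, map_pow, ← hKU]; ring)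
    obtain ⟨b, hb⟩ := h2
    rw [map_mul, map_pow, hlθ] at hb
    obtain ⟨e, he⟩ := hc.exists_right_inv
    refine ⟨e ^ k * b, ?_⟩
    rw [map_mul, hb, map_pow, ← mul_assoc, ← mul_pow, ← map_mul, mul_comm e, he, map_one, one_pow,
      one_mul]
  obtain ⟨g, hg⟩ := exists_lift_of_range j hj lh hrange
  refine ⟨g, RingHom.ext fun a => hj ?_⟩
  have := RingHom.congr_fun hg (θ a)
  rw [RingHom.comp_apply] at this
  rw [RingHom.comp_apply, this, hlθ]

/-- An abstract framework covering both conditions: a family of test domains over `R` with a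
notion of small sets of homomorphisms into them. -/
structure Theory (R : Type) [CommRing R] where
  I : Type 1
  B : I → Type
  cr : ∀ τ, CommRing (B τ)
  dom : ∀ τ, IsDomain (B τ)
  closed : ∀ τ, DivClosed (B τ)
  str : ∀ τ, R →+* B τ
  str_inj : ∀ τ, Function.Injective (str τ)
  small : ∀ (τ : I) (A : Type) [CommRing A], Set (A →+* B τ) → Prop
  mono : ∀ (τ : I) (A : Type) [CommRing A] (T T' : Set (A →+* B τ)), small τ A T → T' ⊆ T →
    small τ A T'
  union : ∀ (τ : I) (A : Type) [CommRing A] (T T' : Set (A →+* B τ)), small τ A T → small τ A T' →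
    small τ A (T ∪ T')
  empty : ∀ (τ : I) (A : Type) [CommRing A], small τ A ∅
  push : ∀ (τ : I) (A₀ A : Type) [CommRing A₀] [CommRing A] (θ : A₀ →+* A) (T : Set (A →+* B τ)),
    small τ A T → small τ A₀ ((fun g => g.comp θ) '' T)
  pull : ∀ (τ : I) (A₀ A : Type) [CommRing A₀] [CommRing A] (θ : A₀ →+* A) (T₀ : Set (A₀ →+* B τ))
    (T : Set (A →+* B τ)), small τ A₀ T₀ → (∀ g ∈ T, g.comp θ ∈ T₀) →
    (∀ a : A, ∃ u v : A₀, θ v * a = θ u ∧ ∀ g ∈ T, g (θ v) ≠ 0) → small τ A T
  unit : ∀ (τ : I) (c : R), c ≠ 0 → ∃ (τ' : I) (ι : B τ →+* B τ'), Function.Injective ι ∧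
    ι.comp (str τ) = str τ' ∧ IsUnit (str τ' c) ∧
    ∀ (A : Type) [CommRing A] (T : Set (A →+* B τ)), small τ' A ((fun g => ι.comp g) '' T) →
      small τ A T

attribute [instance] Theory.cr Theory.dom

section Good

variable {R : Type} [CommRing R] (Θ : Theory R)

/-- the `B`-points of `A / J` outside `q = 0` -/
def pts (τ : Θ.I) {A : Type} [CommRing A] (α : R →+* A) (J : Ideal A) (q : A) :
    Set (A →+* Θ.B τ) :=
  {g | g.comp α = Θ.str τ ∧ (∀ a ∈ J, g a = 0) ∧ g q ≠ 0}

/-- the condition for `(A / J, q)` -/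
def Good {A : Type} [CommRing A] (α : R →+* A) (J : Ideal A) (q : A) : Prop :=
  ∀ τ, Θ.small τ A (pts Θ τ α J q)

theorem good_of_surj {A A' : Type} [CommRing A] [CommRing A'] (α : R →+* A) (θ : A →+* A')
    (hθ : Function.Surjective θ) (J : Ideal A') (q : A) :
    Good Θ α (J.comap θ) q ↔ Good Θ (θ.comp α) J (θ q) := by
  constructor
  · intro h τ
    refine Θ.pull τ A A' θ _ _ (h τ) ?_ ?_
    · rintro g ⟨h1, h2, h3⟩
      refine ⟨?_, fun a ha => h2 _ ha, h3⟩
      rw [RingHom.comp_assoc]; exact h1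
    · intro a
      obtain ⟨u, rfl⟩ := hθ a
      refine ⟨u, 1, by rw [map_one, one_mul], ?_⟩
      intro g _
      rw [map_one, map_one]
      exact one_ne_zero
  · intro h τ
    refine Θ.mono τ A _ _ (Θ.push τ A A' θ _ (h τ)) ?_
    rintro g ⟨h1, h2, h3⟩
    have hker : ∀ a, θ a = 0 → g a = 0 := by
      intro a ha
      apply h2
      rw [Ideal.mem_comap, ha]
      exact J.zero_mem
    let g' : A' →+* Θ.B τ := RingHom.liftOfSurjective θ hθ ⟨g, fun a ha => hker a ha⟩
    have hg' : ∀ a, g' (θ a) = g a := fun a => RingHom.liftOfRightInverse_comp_apply _ _ _ _ _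
    refine ⟨g', ⟨?_, ?_, ?_⟩, RingHom.ext hg'⟩
    · rw [← h1]
      exact RingHom.ext fun r => hg' (α r)
    · intro a ha
      obtain ⟨u, rfl⟩ := hθ a
      rw [hg']
      exact h2 u ha
    · rw [hg']; exact h3

theorem good_mono {A : Type} [CommRing A] (α : R →+* A) (J J' : Ideal A) (q q' : A) (hJ : J ≤ J')
    (hq : q ∣ q') (h : Good Θ α J q) : Good Θ α J' q' := by
  intro τ
  refine Θ.mono τ A _ _ (h τ) ?_
  rintro g ⟨h1, h2, h3⟩
  refine ⟨h1, fun a ha => h2 a (hJ ha), ?_⟩
  intro h0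
  obtain ⟨r, rfl⟩ := hq
  apply h3
  rw [map_mul, h0, zero_mul]

theorem good_split_mul {A : Type} [CommRing A] (α : R →+* A) (J : Ideal A) (a b q : A)
    (hab : a * b ∈ J) :
    Good Θ α J q ↔ Good Θ α (J ⊔ Ideal.span {a}) q ∧ Good Θ α (J ⊔ Ideal.span {b}) q := by
  constructor
  · intro h
    exact ⟨good_mono Θ α _ _ _ _ le_sup_left dvd_rfl h, good_mono Θ α _ _ _ _ le_sup_left dvd_rfl h⟩
  · rintro ⟨h1, h2⟩ τ
    refine Θ.mono τ A _ _ (Θ.union τ A _ _ (h1 τ) (h2 τ)) ?_
    rintro g ⟨hg1, hg2, hg3⟩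
    have h3 := hg2 _ hab
    rw [map_mul] at h3
    have h4 : ∀ x : A, g x = 0 → ∀ y ∈ J ⊔ Ideal.span {x}, g y = 0 := by
      intro x hx y hy
      have h5 : J ⊔ Ideal.span {x} ≤ RingHom.ker g := by
        refine sup_le (fun z hz => hg2 z hz) ?_
        rw [Ideal.span_singleton_le_iff_mem]
        exact hx
      exact h5 hy
    rcases mul_eq_zero.1 h3 with h | h
    · exact Or.inl ⟨hg1, h4 a h, hg3⟩
    · exact Or.inr ⟨hg1, h4 b h, hg3⟩

theorem good_split {A : Type} [CommRing A] (α : R →+* A) (J : Ideal A) (w q : A) (hq : q ∣ w) :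
    Good Θ α J q ↔ Good Θ α J w ∧ Good Θ α (J ⊔ Ideal.span {w}) q := by
  constructor
  · intro h
    exact ⟨good_mono Θ α _ _ _ _ le_rfl hq h, good_mono Θ α _ _ _ _ le_sup_left dvd_rfl h⟩
  · rintro ⟨h1, h2⟩ τ
    refine Θ.mono τ A _ _ (Θ.union τ A _ _ (h1 τ) (h2 τ)) ?_
    rintro g ⟨hg1, hg2, hg3⟩
    by_cases h : g w = 0
    · right
      refine ⟨hg1, ?_, hg3⟩
      intro y hy
      have h5 : J ⊔ Ideal.span {w} ≤ RingHom.ker g := by
        refine sup_le (fun z hz => hg2 z hz) ?_
        rw [Ideal.span_singleton_le_iff_mem]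
        exact h
      exact h5 hy
    · exact Or.inl ⟨hg1, hg2, h⟩

theorem good_of_birational {A₀ A : Type} [CommRing A₀] [CommRing A] (α₀ : R →+* A₀) (θ : A₀ →+* A)
    (w : A₀) (c : R) (hc : c ≠ 0)
    (hbir : ∀ a : A, ∃ (k : ℕ) (u : A₀), θ w ^ k * a = θ u)
    (hint : ∀ a : A, ∃ k : ℕ, θ.IsIntegralElem (θ (α₀ c) ^ k * a)) :
    Good Θ (θ.comp α₀) ⊥ (θ w) ↔ Good Θ α₀ (RingHom.ker θ) w := by
  constructor
  · intro h τ
    obtain ⟨τ', ι, hι, hιs, hcu, hsm⟩ := Θ.unit τ c hc
    apply hsm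
    refine Θ.mono τ' A₀ _ _ (Θ.push τ' A₀ A θ _ (h τ')) ?_
    rintro _ ⟨g₀, ⟨h1, h2, h3⟩, rfl⟩
    have h4 : (ι.comp g₀).comp α₀ = Θ.str τ' := by
      rw [RingHom.comp_assoc, h1, hιs]
    obtain ⟨g, hg⟩ := exists_extension (Θ.closed τ') θ w (α₀ c) (ι.comp g₀)
      (fun a ha => by rw [RingHom.comp_apply, h2 a ha, map_zero])
      (fun h0 => h3 (hι (by rw [map_zero]; exact h0)))
      (by
        have := RingHom.congr_fun h4 c
        rw [RingHom.comp_apply] at this
        rw [this]; exact hcu) hbir hint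
    refine ⟨g, ⟨?_, ?_, ?_⟩, hg⟩
    · rw [← RingHom.comp_assoc, hg, h4]
    · intro a ha
      rw [Ideal.mem_bot] at ha
      rw [ha, map_zero]
    · intro h0
      have := RingHom.congr_fun hg w
      rw [RingHom.comp_apply, h0] at this
      exact h3 (hι (by rw [map_zero]; exact this.symm))
  · intro h τ
    refine Θ.pull τ A₀ A θ _ _ (h τ) ?_ ?_
    · rintro g ⟨h1, h2, h3⟩
      refine ⟨?_, ?_, h3⟩
      · rw [RingHom.comp_assoc]; exact h1
      · intro a ha
        rw [RingHom.comp_apply, (RingHom.mem_ker).1 ha, map_zero]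
    · intro a
      obtain ⟨k, u, hku⟩ := hbir a
      refine ⟨u, w ^ k, by rw [map_pow, hku], ?_⟩
      rintro g ⟨h1, h2, h3⟩
      rw [map_pow, map_pow]
      exact pow_ne_zero _ h3

end Good

end Pool.Agent.Work.MP_e97a4d_nt
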