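import Mathlib
import Pool.Agent.Work.MP_e97a4d_nt.Reduction1

set_option autoImplicit false
set_option linter.unusedSectionVars false

noncomputable section

namespace Pool.Agent.Work.MP_e97a4d_nt

open scoped BigOperators Topology
open Filter

/-- The ring of entire functions. -/
def entireFun : Subring (ℂ → ℂ) where
  carrier := {h | Differentiable ℂ h}
  mul_mem' ha hb := ha.mul hb
  one_mem' := differentiable_const 1
  add_mem' ha hb := ha.add hb
  zero_mem' := differentiable_const 0
  neg_mem' ha := ha.neg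

theorem entire_diff (h : entireFun) : Differentiable ℂ (h : ℂ → ℂ) := h.2

instance : IsDomain entireFun where
  exists_pair_ne := ⟨0, 1, fun h => zero_ne_one (congrFun (congrArg Subtype.val h) 0)⟩
  mul_left_cancel_of_ne_zero := by
    intro a ha b c hbc
    have h1 : ∀ z ∈ (Set.univ : Set ℂ), (a : ℂ → ℂ) z * ((b : ℂ → ℂ) z - (c : ℂ → ℂ) z) = 0 := by
      intro z _
      have := congrFun (congrArg Subtype.val hbc) z
      simp only [Subring.coe_mul, Pi.mul_apply] at this
      rw [mul_sub, this, sub_self]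
    have h2 := AnalyticOnNhd.eq_zero_or_eq_zero_of_mul_eq_zero
      ((entire_diff a).differentiableOn.analyticOnNhd isOpen_univ)
      (((entire_diff b).sub (entire_diff c)).differentiableOn.analyticOnNhd isOpen_univ) h1
      isPreconnected_univ
    rcases h2 with h2 | h2
    · exact absurd (Subtype.ext (funext fun z => h2 z trivial)) ha
    · exact Subtype.ext (funext fun z => sub_eq_zero.1 (h2 z trivial))
  mul_right_cancel_of_ne_zero := by
    intro a ha b c hbc
    have h1 : ∀ z ∈ (Set.univ : Set ℂ), (a : ℂ → ℂ) z * ((b : ℂ → ℂ) z - (c : ℂ → ℂ) z) = 0 := by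
      intro z _
      have := congrFun (congrArg Subtype.val hbc) z
      simp only [Subring.coe_mul, Pi.mul_apply] at this
      rw [mul_sub, mul_comm, this, mul_comm, sub_self]
    have h2 := AnalyticOnNhd.eq_zero_or_eq_zero_of_mul_eq_zero
      ((entire_diff a).differentiableOn.analyticOnNhd isOpen_univ)
      (((entire_diff b).sub (entire_diff c)).differentiableOn.analyticOnNhd isOpen_univ) h1
      isPreconnected_univ
    rcases h2 with h2 | h2
    · exact absurd (Subtype.ext (funext fun z => h2 z trivial)) ha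
    · exact Subtype.ext (funext fun z => sub_eq_zero.1 (h2 z trivial))

/-- division of entire functions with bounded quotient -/
theorem exists_entire_quotient (a b : entireFun) (hb : b ≠ 0) (C : ℂ → ℝ) (hC : Continuous C)
    (hbd : ∀ z, ‖(a : ℂ → ℂ) z‖ ≤ C z * ‖(b : ℂ → ℂ) z‖) : ∃ e : entireFun, b * e = a := by
  have ha' : AnalyticOnNhd ℂ (a : ℂ → ℂ) Set.univ :=
    (entire_diff a).differentiableOn.analyticOnNhd isOpen_univ
  have hb' : AnalyticOnNhd ℂ (b : ℂ → ℂ) Set.univ :=
    (entire_diff b).differentiableOn.analyticOnNhd isOpen_univ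
  let f : ℂ → ℂ := fun z => (a : ℂ → ℂ) z / (b : ℂ → ℂ) z
  have hf : MeromorphicOn f Set.univ := fun z hz =>
    (ha' z hz).meromorphicAt.div (hb' z hz).meromorphicAt
  let g : ℂ → ℂ := toMeromorphicNFOn f Set.univ
  have hbne : ∀ z, ∀ᶠ w in 𝓝[≠] z, (b : ℂ → ℂ) w ≠ 0 := by
    intro z
    rcases (hb' z trivial).eventually_eq_zero_or_eventually_ne_zero with h | h
    · exfalso
      apply hb
      have := hb'.eqOn_zero_of_preconnected_of_eventuallyEq_zero isPreconnected_univ
        (Set.mem_univ z) h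
      exact Subtype.ext (funext fun w => this (Set.mem_univ w))
    · exact h
  have hord : ∀ z, 0 ≤ meromorphicOrderAt f z := by
    intro z
    by_contra hneg
    push Not at hneg
    have h1 := tendsto_cobounded_of_meromorphicOrderAt_neg hneg
    rw [← tendsto_norm_atTop_iff_cobounded] at h1
    have h2 : ∀ᶠ w in 𝓝[≠] z, C w < C z + 1 :=
      ((hC.tendsto z).eventually (gt_mem_nhds (by linarith))).filter_mono nhdsWithin_le_nhds
    have h3 : ∀ᶠ w in 𝓝[≠] z, C z + 1 ≤ ‖f w‖ := h1.eventually_ge_atTop _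
    have h4 : ∀ᶠ w in 𝓝[≠] z, False := by
      filter_upwards [h2, h3, hbne z] with w hw2 hw3 hw4
      have h5 : ‖f w‖ ≤ C w := by
        simp only [f]
        rw [norm_div, div_le_iff₀ (norm_pos_iff.2 hw4)]
        exact hbd w
      linarith
    rw [eventually_false_iff_eq_bot] at h4
    exact (inferInstance : (𝓝[≠] z).NeBot).ne h4
  have hg : ∀ z, AnalyticAt ℂ g z := by
    intro z
    have h1 : MeromorphicNFAt g z := meromorphicNFOn_toMeromorphicNFOn f Set.univ (Set.mem_univ z)
    rw [← h1.meromorphicOrderAt_nonneg_iff_analyticAt]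
    rw [meromorphicOrderAt_toMeromorphicNFOn hf (Set.mem_univ z)]
    exact hord z
  have hgd : Differentiable ℂ g := fun z => (hg z).differentiableAt
  refine ⟨⟨g, hgd⟩, Subtype.ext (funext fun z => ?_)⟩
  have h1 : ∀ᶠ w in 𝓝[≠] z, (b : ℂ → ℂ) w * g w = (a : ℂ → ℂ) w := by
    filter_upwards [hf.toMeromorphicNFOn_eq_self_on_nhdsNE (Set.mem_univ z), hbne z] with w hw1 hw2
    show (b : ℂ → ℂ) w * toMeromorphicNFOn f Set.univ w = (a : ℂ → ℂ) w
    rw [hw1]
    simp only [f]
    field_simp
  have h2 : Tendsto (fun w => (b : ℂ → ℂ) w * g w) (𝓝[≠] z) (𝓝 ((b : ℂ → ℂ) z * g z)) :=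
    (((entire_diff b).continuous.mul hgd.continuous).tendsto z).mono_left nhdsWithin_le_nhds
  have h3 : Tendsto (fun w => (a : ℂ → ℂ) w) (𝓝[≠] z) (𝓝 ((a : ℂ → ℂ) z)) :=
    ((entire_diff a).continuous.tendsto z).mono_left nhdsWithin_le_nhds
  exact tendsto_nhds_unique h2 (h3.congr' (h1.mono fun w hw => hw.symm))

theorem divClosed_entire : DivClosed entireFun := by
  intro L _ j hj x hx hfrac
  obtain ⟨a, b, hb, hab⟩ := hfrac
  obtain ⟨p, hp, hpx⟩ := hx
  set n := p.natDegree with hn
  -- homogenised equation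
  have hjb : j b ≠ 0 := fun h => hb (hj (by rw [map_zero]; exact h))
  have h1 : ∑ i ∈ Finset.range (n + 1), p.coeff i * a ^ i * b ^ (n - i) = 0 := by
    apply hj
    rw [map_zero, map_sum]
    have h2 : Polynomial.eval₂ j x p * j b ^ n = 0 := by rw [hpx, zero_mul]
    rw [Polynomial.eval₂_eq_sum_range, Finset.sum_mul] at h2
    rw [← h2]
    refine Finset.sum_congr rfl fun i hi => ?_
    rw [Finset.mem_range] at hi
    rw [map_mul, map_mul, map_pow, map_pow, ← hab, mul_pow]
    have : j b ^ n = j b ^ i * j b ^ (n - i) := by rw [← pow_add]; congr 1; omega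
    rw [this]
    ring
  have hbd : ∀ z, ‖(a : ℂ → ℂ) z‖ ≤
      (1 + ∑ i ∈ Finset.range n, ‖(p.coeff i : ℂ → ℂ) z‖) * ‖(b : ℂ → ℂ) z‖ := by
    intro z
    set A := ‖(a : ℂ → ℂ) z‖ with hA
    set B := ‖(b : ℂ → ℂ) z‖ with hB
    have hA0 : 0 ≤ A := norm_nonneg _
    have hB0 : 0 ≤ B := norm_nonneg _
    have hS0 : 0 ≤ ∑ i ∈ Finset.range n, ‖(p.coeff i : ℂ → ℂ) z‖ :=
      Finset.sum_nonneg fun i _ => norm_nonneg _
    by_contra hcon
    push Not at hcon
    have hAB : B < A := by nlinarith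
    have hApos : 0 < A := lt_of_le_of_lt hB0 hAB
    have h3 := congrFun (congrArg Subtype.val h1) z
    rw [Finset.sum_range_succ, Subring.coe_add, Pi.add_apply] at h3
    have hlead : p.coeff n = 1 := hp.coeff_natDegree
    rw [hlead, Nat.sub_self, pow_zero, one_mul, mul_one] at h3
    have h4 : (a : ℂ → ℂ) z ^ n = - ∑ i ∈ Finset.range n,
        (p.coeff i : ℂ → ℂ) z * (a : ℂ → ℂ) z ^ i * (b : ℂ → ℂ) z ^ (n - i) := by
      have h5 : ((∑ i ∈ Finset.range n, p.coeff i * a ^ i * b ^ (n - i) : entireFun) : ℂ → ℂ) z =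
        ∑ i ∈ Finset.range n,
        (p.coeff i : ℂ → ℂ) z * (a : ℂ → ℂ) z ^ i * (b : ℂ → ℂ) z ^ (n - i) := by
        rw [AddSubmonoidClass.coe_finsetSum, Finset.sum_apply]
        rfl
      rw [h5] at h3
      have h6 : ((a ^ n : entireFun) : ℂ → ℂ) z = (a : ℂ → ℂ) z ^ n := rfl
      rw [h6] at h3
      exact eq_neg_of_add_eq_zero_right h3
    rcases Nat.eq_zero_or_pos n with h0 | hpos
    · rw [h0] at h4
      simp at h4
    obtain ⟨m, hm⟩ := Nat.exists_eq_succ_of_ne_zero hpos.ne'
    have h5 : A ^ n ≤ (∑ i ∈ Finset.range n, ‖(p.coeff i : ℂ → ℂ) z‖) * (A ^ m * B) := by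
      rw [hA, ← norm_pow, h4, norm_neg, Finset.sum_mul]
      refine (norm_sum_le _ _).trans (Finset.sum_le_sum fun i hi => ?_)
      rw [Finset.mem_range] at hi
      rw [norm_mul, norm_mul, norm_pow, norm_pow, ← hA, ← hB, mul_assoc]
      apply mul_le_mul_of_nonneg_left _ (norm_nonneg _)
      have h7 : n - i = (m - i) + 1 := by omega
      rw [h7, pow_succ, ← mul_assoc]
      apply mul_le_mul_of_nonneg_right _ hB0
      calc A ^ i * B ^ (m - i) ≤ A ^ i * A ^ (m - i) :=
            mul_le_mul_of_nonneg_left (pow_le_pow_left₀ hB0 hAB.le _) (by positivity)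
        _ = A ^ m := by rw [← pow_add]; congr 1; omega
    have h6 : A ≤ (∑ i ∈ Finset.range n, ‖(p.coeff i : ℂ → ℂ) z‖) * B := by
      have hp : 0 < A ^ m := by positivity
      rw [hm, pow_succ] at h5
      have h8 : A * A ^ m ≤ ((∑ i ∈ Finset.range n, ‖(p.coeff i : ℂ → ℂ) z‖) * B) * A ^ m := by
        rw [hm]
        calc A * A ^ m = A ^ m * A := mul_comm _ _
          _ ≤ _ := h5
          _ = _ := by ring
      exact le_of_mul_le_mul_right h8 hp
    nlinarith
  obtain ⟨e, he⟩ := exists_entire_quotient a b hb _ (by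
    refine continuous_const.add ?_
    exact continuous_finsetSum _ fun i _ => (entire_diff (p.coeff i)).continuous.norm) hbd
  refine ⟨e, ?_⟩
  have h2 := congrArg j he
  rw [map_mul, ← hab, mul_comm] at h2
  exact mul_right_cancel₀ hjb h2

end Pool.Agent.Work.MP_e97a4d_nt
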