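import Mathlib

set_option autoImplicit false
set_option linter.unusedSectionVars false

noncomputable section

namespace Pool.Agent.Work.MP_e97a4d_nt

open scoped BigOperators nonZeroDivisors TensorProduct

theorem isIntegrallyClosed_mvPolynomial (R : Type) [CommRing R] [IsDomain R]
    [IsIntegrallyClosed R] (d : ℕ) : IsIntegrallyClosed (MvPolynomial (Fin d) R) := by
  induction d with
  | zero => exact IsIntegrallyClosed.of_equiv (MvPolynomial.isEmptyAlgEquiv R (Fin 0)).symm.toRingEquiv
  | succ n ih =>
    exact IsIntegrallyClosed.of_equiv (MvPolynomial.finSuccEquiv R n).symm.toRingEquiv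

section

variable {R A : Type} [CommRing R] [IsDomain R] [CommRing A] [IsDomain A] [Algebra R A]
  [Algebra.FiniteType R A]

attribute [local instance] MvPolynomial.algebraMvPolynomial in
theorem exists_noether_generic (hinj : Function.Injective (algebraMap R A)) :
    ∃ (d : ℕ) (ξ : MvPolynomial (Fin d) R →ₐ[R] A), Function.Injective ξ ∧
      ∀ a : A, ∃ c : R, c ≠ 0 ∧ (ξ : MvPolynomial (Fin d) R →+* A).IsIntegralElem
        (algebraMap R A c * a) := by
  classical
  let M : Submonoid R := nonZeroDivisors R
  let F := FractionRing R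
  let AM := Localization (Algebra.algebraMapSubmonoid A M)
  have hFT : Algebra.FiniteType F AM :=
    (inferInstance : Algebra.FiniteType F (F ⊗[R] A)).equiv (Localization.tensorRightAlgEquiv M A)
  have hle : Algebra.algebraMapSubmonoid A M ≤ nonZeroDivisors A := by
    rintro _ ⟨r, hr, rfl⟩
    rw [mem_nonZeroDivisors_iff_ne_zero]
    intro h
    exact (nonZeroDivisors.ne_zero hr) (hinj (by rw [map_zero]; exact h))
  have hAinj : Function.Injective (algebraMap A AM) := IsLocalization.injective AM hle
  have : Nontrivial AM := hAinj.nontrivial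
  obtain ⟨d, g, hg, hint⟩ := exists_integral_inj_algHom_of_fg F AM
  -- common denominators
  obtain ⟨⟨_, e, he, rfl⟩, hb⟩ := IsLocalization.exist_integer_multiples_of_finset
    (Algebra.algebraMapSubmonoid A M) (Finset.univ.image fun i : Fin d => g (MvPolynomial.X i))
  have he0 : e ≠ 0 := nonZeroDivisors.ne_zero he
  have hx : ∀ i : Fin d, ∃ x : A, algebraMap A AM x =
      algebraMap A AM (algebraMap R A e) * g (MvPolynomial.X i) := by
    intro i
    obtain ⟨x, hx⟩ := hb (g (MvPolynomial.X i)) (Finset.mem_image_of_mem _ (Finset.mem_univ _))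
    refine ⟨x, ?_⟩
    rw [hx]
    exact Algebra.smul_def _ _
  choose x hx using hx
  let ξ : MvPolynomial (Fin d) R →ₐ[R] A := MvPolynomial.aeval x
  let e' : F := algebraMap R F e
  have he' : e' ≠ 0 := by
    intro h
    exact he0 (IsFractionRing.injective R F (by rw [map_zero]; exact h))
  let sc : MvPolynomial (Fin d) F →ₐ[F] MvPolynomial (Fin d) F :=
    MvPolynomial.aeval fun i => MvPolynomial.C e' * MvPolynomial.X i
  let sc' : MvPolynomial (Fin d) F →ₐ[F] MvPolynomial (Fin d) F :=
    MvPolynomial.aeval fun i => MvPolynomial.C e'⁻¹ * MvPolynomial.X i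
  have hsc : sc.comp sc' = AlgHom.id _ _ := by
    apply MvPolynomial.algHom_ext
    intro i
    simp only [sc, sc', AlgHom.comp_apply, MvPolynomial.aeval_X, map_mul, AlgHom.id_apply,
      MvPolynomial.aeval_C, MvPolynomial.algebraMap_eq]
    rw [← mul_assoc, ← MvPolynomial.C_mul, inv_mul_cancel₀ he', MvPolynomial.C_1, one_mul]
  have hsc' : sc'.comp sc = AlgHom.id _ _ := by
    apply MvPolynomial.algHom_ext
    intro i
    simp only [sc, sc', AlgHom.comp_apply, MvPolynomial.aeval_X, map_mul, AlgHom.id_apply,
      MvPolynomial.aeval_C, MvPolynomial.algebraMap_eq]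
    rw [← mul_assoc, ← MvPolynomial.C_mul, mul_inv_cancel₀ he', MvPolynomial.C_1, one_mul]
  have hscinj : Function.Injective sc := by
    intro a b hab
    have := congrArg sc' hab
    have h1 : ∀ c, sc' (sc c) = c := fun c => AlgHom.congr_fun hsc' c
    rwa [h1, h1] at this
  let g' : MvPolynomial (Fin d) F →ₐ[F] AM := g.comp sc
  have hg'inj : Function.Injective g' := hg.comp hscinj
  have hcomm : ∀ p : MvPolynomial (Fin d) R, algebraMap A AM (ξ p) =
      g' (MvPolynomial.map (algebraMap R F) p) := by
    intro p
    have h1 : (algebraMap A AM).comp (ξ : MvPolynomial (Fin d) R →+* A) =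
        (g' : MvPolynomial (Fin d) F →+* AM).comp (MvPolynomial.map (algebraMap R F)) := by
      apply MvPolynomial.ringHom_ext
      · intro r
        simp only [RingHom.comp_apply, RingHom.coe_coe, MvPolynomial.map_C]
        rw [← MvPolynomial.algebraMap_eq, ← MvPolynomial.algebraMap_eq, AlgHom.commutes,
          AlgHom.commutes, ← IsScalarTower.algebraMap_apply, ← IsScalarTower.algebraMap_apply]
      · intro i
        simp only [RingHom.comp_apply, RingHom.coe_coe, MvPolynomial.map_X, ξ, g', sc,
          AlgHom.comp_apply, MvPolynomial.aeval_X, map_mul]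
        rw [hx, ← MvPolynomial.algebraMap_eq, AlgHom.commutes]
        rw [← IsScalarTower.algebraMap_apply, ← IsScalarTower.algebraMap_apply]
    exact RingHom.congr_fun h1 p
  have hξinj : Function.Injective ξ := by
    intro p q hpq
    have h1 := congrArg (algebraMap A AM) hpq
    rw [hcomm, hcomm] at h1
    exact MvPolynomial.map_injective _ (IsFractionRing.injective R F) (hg'inj h1)
  refine ⟨d, ξ, hξinj, ?_⟩
  intro a
  -- integrality
  let _ : Algebra (MvPolynomial (Fin d) F) AM := (g' : MvPolynomial (Fin d) F →+* AM).toAlgebra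
  let _ : Algebra (MvPolynomial (Fin d) R) AM :=
    ((algebraMap A AM).comp (ξ : MvPolynomial (Fin d) R →+* A)).toAlgebra
  have htower : IsScalarTower (MvPolynomial (Fin d) R) (MvPolynomial (Fin d) F) AM :=
    IsScalarTower.of_algebraMap_eq fun p => hcomm p
  have hintF : IsIntegral (MvPolynomial (Fin d) F) (algebraMap A AM a) := by
    obtain ⟨p, hp, hpa⟩ := hint (algebraMap A AM a)
    refine ⟨p.map (sc' : MvPolynomial (Fin d) F →+* MvPolynomial (Fin d) F), hp.map _, ?_⟩
    rw [Polynomial.eval₂_map]
    have h1 : (algebraMap (MvPolynomial (Fin d) F) AM).comp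
        (sc' : MvPolynomial (Fin d) F →+* MvPolynomial (Fin d) F) =
        (g : MvPolynomial (Fin d) F →+* AM) := by
      refine RingHom.ext fun q => ?_
      show g (sc (sc' q)) = g q
      rw [show sc (sc' q) = q from AlgHom.congr_fun hsc q]
    rw [h1]
    exact hpa
  obtain ⟨⟨_, c, hc, rfl⟩, hm⟩ := IsIntegral.exists_multiple_integral_of_isLocalization
    (M.map (MvPolynomial.C (σ := Fin d))) (algebraMap A AM a) hintF
  refine ⟨c, nonZeroDivisors.ne_zero hc, ?_⟩
  have h2 : ((algebraMap A AM).comp (ξ : MvPolynomial (Fin d) R →+* A)).IsIntegralElem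
      (algebraMap A AM (algebraMap R A c * a)) := by
    rw [Submonoid.smul_def, Algebra.smul_def] at hm
    have h3 : algebraMap (MvPolynomial (Fin d) R) AM (MvPolynomial.C c) =
        algebraMap A AM (algebraMap R A c) := by
      show algebraMap A AM (ξ (MvPolynomial.C c)) = _
      rw [← MvPolynomial.algebraMap_eq, AlgHom.commutes]
    rw [map_mul, ← h3]
    exact hm
  exact RingHom.IsIntegralElem.of_map hAinj h2

end

end Pool.Agent.Work.MP_e97a4d_nt
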