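import Mathlib
import Pool.Agent.Work.MP_e97a4d_nt.Reduction2

set_option autoImplicit false
set_option linter.unusedSectionVars false

noncomputable section

namespace Pool.Agent.Work.MP_e97a4d_nt

open scoped BigOperators nonZeroDivisors
open IntermediateField Polynomial

attribute [local instance] FractionRing.liftAlgebra in
theorem exists_monogenic {S A : Type} [CommRing S] [IsDomain S] [IsIntegrallyClosed S] [CharZero S]
    [CommRing A] [IsDomain A] [Algebra S A] [Algebra.FiniteType S A]
    (hinj : Function.Injective (algebraMap S A)) (c : S) (hc : c ≠ 0)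
    (hint : ∀ a : A, ∃ k : ℕ, IsIntegral S (c ^ k • a)) (q : A) (hq : q ≠ 0) :
    ∃ (y : A) (h : S), IsIntegral S y ∧ h ≠ 0 ∧
      (∀ a : A, ∃ (k : ℕ) (u : S[X]), h ^ k • a = aeval y u) ∧ q ∣ algebraMap S A h ∧
      (C h : S[X]) ∈ Ideal.span {minpoly S y, derivative (minpoly S y)} := by
  classical
  have hfs : FaithfulSMul S A := (faithfulSMul_iff_algebraMap_injective S A).2 hinj
  have halgA : Algebra.IsAlgebraic S A := by
    refine ⟨fun a => ?_⟩
    obtain ⟨k, hk⟩ := hint a
    exact hk.isAlgebraic.of_smul (mem_nonZeroDivisors_of_ne_zero (pow_ne_zero k hc))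
  let K := FractionRing A
  let k₀ := FractionRing S
  have : CharZero k₀ := charZero_of_injective_algebraMap (IsFractionRing.injective S k₀)
  have halgK : Algebra.IsAlgebraic S K := (IsFractionRing.isAlgebraic_iff' S A K).1 halgA
  have halg : Algebra.IsAlgebraic k₀ K := (IsFractionRing.comap_isAlgebraic_iff (A := S)).1 halgK
  have hess : Algebra.EssFiniteType k₀ K := by
    have h1 : Algebra.EssFiniteType A K := Algebra.EssFiniteType.of_isLocalization K A⁰
    have h2 : Algebra.EssFiniteType S K := Algebra.EssFiniteType.comp S A K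
    exact Algebra.EssFiniteType.of_comp S k₀ K
  have hfin : FiniteDimensional k₀ K := by
    obtain ⟨s, hs⟩ := IntermediateField.fg_top k₀ K
    have h1 : FiniteDimensional k₀ (IntermediateField.adjoin k₀ (s : Set K)) :=
      IntermediateField.finiteDimensional_adjoin fun x _ => (halg.isAlgebraic x).isIntegral
    rw [hs] at h1
    exact (IntermediateField.topEquiv (F := k₀) (E := K)).toLinearEquiv.finiteDimensional
  obtain ⟨α, hα⟩ := Field.exists_primitive_element k₀ K
  -- primitive element in A, integral over S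
  obtain ⟨a, b, hb, hab⟩ := IsFractionRing.div_surjective (A := A) α
  have hb0 : b ≠ 0 := nonZeroDivisors.ne_zero hb
  obtain ⟨y₀, d, hd, hdy⟩ := Algebra.IsAlgebraic.exists_smul_eq_mul S a hb0
  obtain ⟨k₁, hk₁⟩ := hint y₀
  obtain ⟨y, hydef⟩ : ∃ y : A, y = c ^ k₁ • y₀ := ⟨_, rfl⟩
  have hAK : Function.Injective (algebraMap A K) := IsFractionRing.injective A K
  have hbK : algebraMap A K b ≠ 0 := fun h => hb0 (hAK (by rw [map_zero]; exact h))
  have hy : algebraMap A K y = algebraMap k₀ K (algebraMap S k₀ (c ^ k₁ * d)) * α := by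
    rw [← IsScalarTower.algebraMap_apply, ← hab, map_mul, IsScalarTower.algebraMap_apply S A K,
      IsScalarTower.algebraMap_apply S A K]
    have h1 := congrArg (algebraMap A K) hdy
    rw [Algebra.smul_def, map_mul, map_mul] at h1
    have h2 : algebraMap A K y = algebraMap A K (algebraMap S A (c ^ k₁)) * algebraMap A K y₀ := by
      rw [hydef, Algebra.smul_def, map_mul]
    rw [h2, mul_assoc]
    congr 1
    rw [mul_div_assoc', h1, mul_comm, mul_div_assoc, div_self hbK, mul_one]
  have hs0 : algebraMap S k₀ (c ^ k₁ * d) ≠ 0 := by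
    intro h
    exact mul_ne_zero (pow_ne_zero _ hc) hd (IsFractionRing.injective S k₀ (by rw [map_zero]; exact h))
  have hprim : k₀⟮algebraMap A K y⟯ = ⊤ := by
    rw [eq_top_iff, ← hα, adjoin_simple_le_iff]
    have h1 : α = algebraMap k₀ K (algebraMap S k₀ (c ^ k₁ * d))⁻¹ * algebraMap A K y := by
      rw [hy, ← mul_assoc, ← map_mul, inv_mul_cancel₀ hs0, map_one, one_mul]
    rw [h1]
    exact mul_mem (IntermediateField.algebraMap_mem _ _) (mem_adjoin_simple_self _ _)
  have hyint : IsIntegral S y := by rw [hydef]; exact hk₁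
  -- every element of K is a polynomial in y
  have hpoly : ∀ x : K, ∃ p : k₀[X], aeval (algebraMap A K y) p = x := by
    intro x
    have h1 : x ∈ Algebra.adjoin k₀ {algebraMap A K y} := by
      have h2 : (k₀⟮algebraMap A K y⟯).toSubalgebra = Algebra.adjoin k₀ {algebraMap A K y} :=
        adjoin_simple_toSubalgebra_of_isAlgebraic (halg.isAlgebraic _)
      rw [← h2, hprim]
      trivial
    rw [Algebra.adjoin_singleton_eq_range_aeval] at h1
    exact h1
  -- clear denominators in one polynomial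
  have hclear : ∀ p : k₀[X], ∃ (s : S) (P : S[X]), s ≠ 0 ∧ P.map (algebraMap S k₀) = s • p := by
    intro p
    obtain ⟨s, hs0, hs⟩ := IsLocalization.integerNormalization_spec S⁰ p
    exact ⟨s, _, nonZeroDivisors.ne_zero hs0, hs⟩
  -- v for each element
  have hv : ∀ a : A, ∃ (s : S) (u : S[X]), s ≠ 0 ∧ s • a = aeval y u := by
    intro a
    obtain ⟨p, hp⟩ := hpoly (algebraMap A K a)
    obtain ⟨s, P, hs, hP⟩ := hclear p
    refine ⟨s, P, hs, hAK ?_⟩
    rw [Algebra.smul_def, map_mul, ← IsScalarTower.algebraMap_apply, ← hp,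
      ← Polynomial.aeval_algebraMap_apply]
    have h1 : aeval (algebraMap A K y) P = aeval (algebraMap A K y) (P.map (algebraMap S k₀)) :=
      (Polynomial.aeval_map_algebraMap k₀ _ P).symm
    have h2 : s • p = algebraMap S k₀ s • p := (algebraMap_smul k₀ s p).symm
    rw [h1, hP, h2, map_smul (aeval (algebraMap A K y)) (algebraMap S k₀ s) p, Algebra.smul_def,
      ← IsScalarTower.algebraMap_apply S k₀ K]
  -- common v
  obtain ⟨G, hG⟩ := (inferInstance : Algebra.FiniteType S A).out
  choose s u hs hsu using hv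
  let v : S := ∏ g ∈ G, s g
  have hv0 : v ≠ 0 := Finset.prod_ne_zero_iff.2 fun g _ => hs g
  have hvall : ∀ a : A, ∃ (k : ℕ) (u : S[X]), v ^ k • a = aeval y u := by
    intro a
    have ha : a ∈ Algebra.adjoin S (G : Set A) := by rw [hG]; trivial
    induction ha using Algebra.adjoin_induction with
    | mem g hg =>
      obtain ⟨r, hr⟩ : s g ∣ v := Finset.dvd_prod_of_mem s hg
      refine ⟨1, C r * u g, ?_⟩
      rw [pow_one, hr, mul_comm, mul_smul, hsu, map_mul, aeval_C, Algebra.smul_def]
    | algebraMap r => exact ⟨0, C r, by rw [pow_zero, one_smul, aeval_C]⟩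
    | add a b _ _ ha hb =>
      obtain ⟨k, p, hp⟩ := ha
      obtain ⟨l, p', hp'⟩ := hb
      refine ⟨k + l, C (v ^ l) * p + C (v ^ k) * p', ?_⟩
      rw [map_add, map_mul, map_mul, aeval_C, aeval_C, ← Algebra.smul_def, ← Algebra.smul_def,
        ← hp, ← hp', smul_smul, smul_smul, smul_add, ← pow_add, ← pow_add, add_comm l k]
    | mul a b _ _ ha hb =>
      obtain ⟨k, p, hp⟩ := ha
      obtain ⟨l, p', hp'⟩ := hb
      refine ⟨k + l, p * p', ?_⟩
      rw [map_mul, ← hp, ← hp', smul_mul_smul_comm, ← pow_add]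
  -- q divides an element of S
  obtain ⟨q', h₁, hh₁, hq'⟩ := Algebra.IsAlgebraic.exists_smul_eq_mul S (1 : A) hq
  -- separability
  let P := minpoly S y
  have hPk : P.map (algebraMap S k₀) = minpoly k₀ (algebraMap A K y) :=
    (minpoly.isIntegrallyClosed_eq_field_fractions k₀ K hyint).symm
  have hsep : (minpoly k₀ (algebraMap A K y)).Separable :=
    (minpoly.irreducible (halg.isAlgebraic _).isIntegral).separable
  obtain ⟨h₀, hh₀, hmem⟩ : ∃ h₀ : S, h₀ ≠ 0 ∧ (C h₀ : S[X]) ∈ Ideal.span {P, derivative P} := by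
    obtain ⟨e, f, hef⟩ := hsep
    obtain ⟨s₁, E, hs₁, hE⟩ := hclear e
    obtain ⟨s₂, F, hs₂, hF⟩ := hclear f
    refine ⟨s₁ * s₂, mul_ne_zero hs₁ hs₂, ?_⟩
    rw [Ideal.mem_span_pair]
    refine ⟨C s₂ * E, C s₁ * F, ?_⟩
    apply Polynomial.map_injective _ (IsFractionRing.injective S k₀)
    rw [Polynomial.map_add, Polynomial.map_mul, Polynomial.map_mul, Polynomial.map_mul,
      Polynomial.map_mul, hE, hF, Polynomial.map_C, Polynomial.map_C, Polynomial.map_C,
      ← Polynomial.derivative_map, hPk, Algebra.smul_def, Algebra.smul_def]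
    have h1 : ∀ t : S, (algebraMap S k₀[X] t) = C (algebraMap S k₀ t) := fun t => rfl
    rw [h1, h1, map_mul, map_mul]
    linear_combination (C (algebraMap S k₀ s₁) * C (algebraMap S k₀ s₂)) * hef
  refine ⟨y, v * h₀ * h₁, hyint, mul_ne_zero (mul_ne_zero hv0 hh₀) hh₁, ?_, ?_, ?_⟩
  · intro a
    obtain ⟨k, p, hp⟩ := hvall a
    refine ⟨k, C ((h₀ * h₁) ^ k) * p, ?_⟩
    rw [map_mul, aeval_C, ← hp, ← Algebra.smul_def, smul_smul, ← mul_pow]
    congr 2
    ring
  · refine ⟨q' * algebraMap S A (v * h₀), ?_⟩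
    rw [← mul_assoc, ← hq', Algebra.smul_def, mul_one, ← map_mul]
    congr 1
    ring
  · have : (C (v * h₀ * h₁) : S[X]) = C (v * h₁) * C h₀ := by rw [← C_mul]; congr 1; ring
    rw [this]
    exact Ideal.mul_mem_left _ _ hmem

end Pool.Agent.Work.MP_e97a4d_nt
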