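import Mathlib
import Pool.Agent.Work.MP_e97a4d_nt.Reduction1
import Pool.Agent.Work.MP_e97a4d_nt.Reduction3

set_option autoImplicit false
set_option linter.unusedSectionVars false

noncomputable section

namespace Pool.Agent.Work.MP_e97a4d_nt

open scoped BigOperators nonZeroDivisors

/-- A monic hypersurface `P(x, y) = 0` in the affine space with coordinates `x_1, ..., x_d, y`,
monic in `y`, together with the closed subset `h(x) = 0`, outside of which the projection to the
affine space with coordinates `x` is etale. -/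
structure Hyp (R : Type) [CommRing R] where
  d : ℕ
  P : Polynomial (MvPolynomial (Fin d) R)
  h : MvPolynomial (Fin d) R
  monic : P.Monic
  prime : Prime P
  ne_zero : h ≠ 0
  etale : (Polynomial.C h : Polynomial (MvPolynomial (Fin d) R)) ∈
    Ideal.span {P, Polynomial.derivative P}

/-- the constants of the polynomial ring -/
def constHom (R : Type) [CommRing R] (d : ℕ) : R →+* Polynomial (MvPolynomial (Fin d) R) :=
  Polynomial.C.comp MvPolynomial.C

theorem exists_normal_form {R A : Type} [CommRing R] [IsDomain R] [IsIntegrallyClosed R]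
    [CharZero R] [CommRing A] [IsDomain A] [Algebra R A] [Algebra.FiniteType R A]
    (hinj : Function.Injective (algebraMap R A)) (q : A) (hq : q ≠ 0) :
    ∃ (H : Hyp R) (θ : Polynomial (MvPolynomial (Fin H.d) R) →+* A) (c : R), c ≠ 0 ∧
      θ.comp (constHom R H.d) = algebraMap R A ∧ RingHom.ker θ = Ideal.span {H.P} ∧
      q ∣ θ (Polynomial.C H.h) ∧ θ (Polynomial.C H.h) ≠ 0 ∧
      (∀ a : A, ∃ (k : ℕ) (u : _), θ (Polynomial.C H.h) ^ k * a = θ u) ∧
      (∀ a : A, ∃ k : ℕ, θ.IsIntegralElem (θ (constHom R H.d c) ^ k * a)) := by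
  classical
  obtain ⟨d, ξ, hξ, hint⟩ := exists_noether_generic (R := R) (A := A) hinj
  let S := MvPolynomial (Fin d) R
  have : IsIntegrallyClosed S := isIntegrallyClosed_mvPolynomial R d
  have : CharZero S := charZero_of_injective_algebraMap (MvPolynomial.C_injective (Fin d) R)
  let _ : Algebra S A := (ξ : S →+* A).toAlgebra
  have : IsScalarTower R S A := IsScalarTower.of_algebraMap_eq fun r => (ξ.commutes r).symm
  have hft : Algebra.FiniteType S A := Algebra.FiniteType.of_restrictScalars_finiteType R S A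
  have hsmul : ∀ (s : S) (a : A), s • a = ξ s * a := fun s a => Algebra.smul_def s a
  have hC : ∀ r : R, ξ (MvPolynomial.C r) = algebraMap R A r := fun r => ξ.commutes r
  -- a uniform constant
  obtain ⟨G, hG⟩ := (inferInstance : Algebra.FiniteType R A).out
  choose cc hcc hcint using hint
  let c : R := ∏ g ∈ G, cc g
  have hc : c ≠ 0 := Finset.prod_ne_zero_iff.2 fun g _ => hcc g
  have hint' : ∀ a : A, ∃ k : ℕ, IsIntegral S ((MvPolynomial.C c : S) ^ k • a) := by
    intro a
    have ha : a ∈ Algebra.adjoin R (G : Set A) := by rw [hG]; trivial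
    induction ha using Algebra.adjoin_induction with
    | mem g hg =>
      obtain ⟨r, hr⟩ : cc g ∣ c := Finset.dvd_prod_of_mem cc hg
      refine ⟨1, ?_⟩
      rw [pow_one, hsmul, hC, hr, map_mul, mul_comm (algebraMap R A (cc g)), mul_assoc]
      have h1 : IsIntegral S (algebraMap R A r) := by
        rw [← hC]
        exact isIntegral_algebraMap (R := S) (A := A) (x := MvPolynomial.C r)
      exact h1.mul (hcint g)
    | algebraMap r =>
      refine ⟨0, ?_⟩
      rw [pow_zero, one_smul, ← hC]
      exact isIntegral_algebraMap (R := S) (A := A) (x := MvPolynomial.C r)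
    | add a b _ _ ha hb =>
      obtain ⟨k, hk⟩ := ha
      obtain ⟨l, hl⟩ := hb
      refine ⟨k + l, ?_⟩
      have : (MvPolynomial.C c : S) ^ (k + l) • (a + b) =
          (MvPolynomial.C c : S) ^ l • ((MvPolynomial.C c : S) ^ k • a) +
          (MvPolynomial.C c : S) ^ k • ((MvPolynomial.C c : S) ^ l • b) := by
        rw [smul_smul, smul_smul, ← pow_add, ← pow_add, smul_add, add_comm l k]
      rw [this]
      exact (hk.smul _).add (hl.smul _)
    | mul a b _ _ ha hb =>
      obtain ⟨k, hk⟩ := ha
      obtain ⟨l, hl⟩ := hb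
      refine ⟨k + l, ?_⟩
      have : (MvPolynomial.C c : S) ^ (k + l) • (a * b) =
          ((MvPolynomial.C c : S) ^ k • a) * ((MvPolynomial.C c : S) ^ l • b) := by
        rw [smul_mul_smul_comm, ← pow_add]
      rw [this]
      exact hk.mul hl
  obtain ⟨y, h, hy, hh, hbir, hqh, het⟩ := exists_monogenic (S := S) (A := A) hξ
    (MvPolynomial.C c) (fun h0 => hc (MvPolynomial.C_injective (Fin d) R (by rw [h0, map_zero])))
    hint' q hq
  have hfs : FaithfulSMul S A := (faithfulSMul_iff_algebraMap_injective S A).2 hξ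
  let H : Hyp R :=
    { d := d
      P := minpoly S y
      h := h
      monic := minpoly.monic hy
      prime := minpoly.prime_of_isIntegrallyClosed hy
      ne_zero := hh
      etale := het }
  let θ : Polynomial S →+* A := (Polynomial.aeval y : Polynomial S →ₐ[S] A).toRingHom
  have hθC : ∀ s : S, θ (Polynomial.C s) = algebraMap S A s := fun s => Polynomial.aeval_C y s
  refine ⟨H, θ, c, hc, ?_, minpoly.ker_eval hy, ?_, ?_, ?_, ?_⟩
  · refine RingHom.ext fun r => ?_
    show θ (Polynomial.C (MvPolynomial.C r)) = _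
    rw [hθC]
    exact hC r
  · rw [hθC]; exact hqh
  · rw [hθC]
    intro h0
    exact hh (hξ (by rw [map_zero]; exact h0))
  · intro a
    obtain ⟨k, u, hu⟩ := hbir a
    refine ⟨k, u, ?_⟩
    rw [hθC, ← map_pow, ← Algebra.smul_def, hu]
    rfl
  · intro a
    obtain ⟨k, p, hp, hpa⟩ := hint' a
    refine ⟨k, p.map Polynomial.C, hp.map _, ?_⟩
    rw [Polynomial.eval₂_map]
    have h1 : θ.comp Polynomial.C = algebraMap S A := RingHom.ext hθC
    have h2 : θ (constHom R d c) = algebraMap S A (MvPolynomial.C c) := hθC _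
    rw [h1, h2, ← map_pow, ← Algebra.smul_def]
    exact hpa

theorem exists_reduction {R A : Type} [CommRing R] [IsDomain R] [IsIntegrallyClosed R]
    [CharZero R] [IsNoetherianRing R] [CommRing A] (α : R →+* A) (hα : α.FiniteType)
    (J : Ideal A) (q : A) :
    ∃ L : List (Hyp R), ∀ Θ : Theory R, Good Θ α J q ↔
      ∀ H ∈ L, Good Θ (constHom R H.d) (Ideal.span {H.P}) (Polynomial.C H.h) := by
  classical
  let _ : Algebra R A := α.toAlgebra
  have hft : Algebra.FiniteType R A := hα
  have hnoeth : IsNoetherianRing A := Algebra.FiniteType.isNoetherianRing R A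
  revert q
  refine IsNoetherian.induction (R := A) (M := A)
    (P := fun J : Ideal A => ∀ q : A, ∃ L : List (Hyp R), ∀ Θ : Theory R, Good Θ α J q ↔
      ∀ H ∈ L, Good Θ (constHom R H.d) (Ideal.span {H.P}) (Polynomial.C H.h)) ?_ J
  intro J ih q
  by_cases hprime : Ideal.IsPrime J
  · by_cases hqJ : q ∈ J
    · refine ⟨[], fun Θ => ⟨fun _ H hH => by simp at hH, fun _ τ => ?_⟩⟩
      refine Θ.mono τ A _ _ (Θ.empty τ A) ?_
      rintro g ⟨-, h2, h3⟩
      exact absurd (h2 q hqJ) h3
    by_cases hinj : Function.Injective ((Ideal.Quotient.mk J).comp α)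
    · have hdom : IsDomain (A ⧸ J) := Ideal.Quotient.isDomain J
      have hft' : Algebra.FiniteType R (A ⧸ J) :=
        Algebra.FiniteType.of_surjective (Ideal.Quotient.mkₐ R J) (Ideal.Quotient.mkₐ_surjective R J)
      have hq0 : Ideal.Quotient.mk J q ≠ 0 := fun h => hqJ (Ideal.Quotient.eq_zero_iff_mem.1 h)
      obtain ⟨H, θ, c, hc, hθ, hker, hqd, hne, hbir, hint⟩ :=
        exists_normal_form (R := R) (A := A ⧸ J) hinj (Ideal.Quotient.mk J q) hq0
      obtain ⟨w, hw⟩ := Ideal.Quotient.mk_surjective (θ (Polynomial.C H.h))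
      have hlt : J < J ⊔ Ideal.span {w} := by
        refine lt_of_le_of_ne le_sup_left ?_
        intro h
        have hwJ : w ∈ J := by
          rw [h]
          exact Ideal.mem_sup_right (Ideal.mem_span_singleton_self w)
        exact hne (by rw [← hw]; exact Ideal.Quotient.eq_zero_iff_mem.2 hwJ)
      obtain ⟨L, hL⟩ := ih _ hlt q
      refine ⟨H :: L, fun Θ => ?_⟩
      have hcomap : (⊥ : Ideal (A ⧸ J)).comap (Ideal.Quotient.mk J) = J := by
        rw [← RingHom.ker_eq_comap_bot, Ideal.mk_ker]
      have hα' : (Ideal.Quotient.mk J).comp α = θ.comp (constHom R H.d) := by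
        rw [hθ]; rfl
      have e1 : Good Θ α J q ↔ Good Θ ((Ideal.Quotient.mk J).comp α) ⊥ (Ideal.Quotient.mk J q) := by
        have := good_of_surj Θ α (Ideal.Quotient.mk J) Ideal.Quotient.mk_surjective ⊥ q
        rwa [hcomap] at this
      have e2 := good_split Θ ((Ideal.Quotient.mk J).comp α) ⊥ (θ (Polynomial.C H.h))
        (Ideal.Quotient.mk J q) hqd
      have e3 : Good Θ ((Ideal.Quotient.mk J).comp α) ⊥ (θ (Polynomial.C H.h)) ↔
          Good Θ (constHom R H.d) (Ideal.span {H.P}) (Polynomial.C H.h) := by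
        rw [hα', ← hker]
        exact good_of_birational Θ (constHom R H.d) θ (Polynomial.C H.h) c hc hbir hint
      have e4 : Good Θ ((Ideal.Quotient.mk J).comp α) (⊥ ⊔ Ideal.span {θ (Polynomial.C H.h)})
          (Ideal.Quotient.mk J q) ↔ Good Θ α (J ⊔ Ideal.span {w}) q := by
        have := good_of_surj Θ α (Ideal.Quotient.mk J) Ideal.Quotient.mk_surjective
          (⊥ ⊔ Ideal.span {θ (Polynomial.C H.h)}) q
        rw [← this]
        have h5 : Ideal.comap (Ideal.Quotient.mk J) (⊥ ⊔ Ideal.span {θ (Polynomial.C H.h)}) =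
            J ⊔ Ideal.span {w} := by
          rw [bot_sup_eq, ← hw, ← Set.image_singleton, ← Ideal.map_span, 
            Ideal.comap_map_of_surjective _ Ideal.Quotient.mk_surjective, hcomap, sup_comm]
        rw [h5]
      rw [e1, e2, e3, e4, hL Θ]
      simp
    · refine ⟨[], fun Θ => ⟨fun _ H hH => by simp at hH, fun _ τ => ?_⟩⟩
      refine Θ.mono τ A _ _ (Θ.empty τ A) ?_
      rintro g ⟨h1, h2, h3⟩
      exfalso
      apply hinj
      rw [injective_iff_map_eq_zero]
      intro r hr
      have h4 : α r ∈ J := Ideal.Quotient.eq_zero_iff_mem.1 hr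
      have h5 : Θ.str τ r = 0 := by
        rw [← h1]
        exact h2 _ h4
      exact Θ.str_inj τ (by rw [h5, map_zero])
  · by_cases htop : J = ⊤
    · refine ⟨[], fun Θ => ⟨fun _ H hH => by simp at hH, fun _ τ => ?_⟩⟩
      refine Θ.mono τ A _ _ (Θ.empty τ A) ?_
      rintro g ⟨-, h2, h3⟩
      exact absurd (h2 q (by rw [htop]; trivial)) h3
    · have : ∃ a b : A, a * b ∈ J ∧ a ∉ J ∧ b ∉ J := by
        by_contra hcon
        push Not at hcon
        apply hprime
        refine ⟨htop, ?_⟩
        intro a b hab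
        by_cases ha : a ∈ J
        · exact Or.inl ha
        · exact Or.inr (hcon a b hab ha)
      obtain ⟨a, b, hab, ha, hb⟩ := this
      have hlt : ∀ x : A, x ∉ J → J < J ⊔ Ideal.span {x} := by
        intro x hx
        refine lt_of_le_of_ne le_sup_left ?_
        intro h
        apply hx
        rw [h]
        exact Ideal.mem_sup_right (Ideal.mem_span_singleton_self x)
      obtain ⟨L₁, hL₁⟩ := ih _ (hlt a ha) q
      obtain ⟨L₂, hL₂⟩ := ih _ (hlt b hb) q
      refine ⟨L₁ ++ L₂, fun Θ => ?_⟩
      rw [good_split_mul Θ α J a b q hab, hL₁, hL₂]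
      constructor
      · rintro ⟨h1, h2⟩ H hH
        rcases List.mem_append.1 hH with h | h
        · exact h1 H h
        · exact h2 H h
      · intro h
        exact ⟨fun H hH => h H (List.mem_append_left _ hH),
          fun H hH => h H (List.mem_append_right _ hH)⟩

end Pool.Agent.Work.MP_e97a4d_nt
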