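import Mathlib
import Pool.Agent.Work.MP_e97a4d_nt.Defs
import Pool.Agent.Work.MP_e97a4d_nt.EntireRing
import Pool.Agent.Work.MP_e97a4d_nt.Reduction4
import Pool.Agent.Work.MP_e97a4d_nt.LaurentPoints

set_option autoImplicit false
set_option linter.unusedSectionVars false

noncomputable section

namespace Pool.Agent.Work.MP_e97a4d_nt

open scoped BigOperators Topology
open IsDedekindDomain NumberField

/-- constants as entire functions -/
def constE : ℂ →+* entireFun where
  toFun c := ⟨fun _ => c, differentiable_const c⟩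
  map_one' := rfl
  map_mul' _ _ := rfl
  map_zero' := rfl
  map_add' _ _ := rfl

theorem constE_injective : Function.Injective constE := fun _ _ h =>
  congrFun (congrArg Subtype.val h) 0

/-- evaluation of an entire function -/
def evE (z : ℂ) : entireFun →+* ℂ := (Pi.evalRingHom (fun _ : ℂ => ℂ) z).comp entireFun.subtype

theorem evE_apply (z : ℂ) (h : entireFun) : evE z h = (h : ℂ → ℂ) z := rfl

theorem entire_ext {a b : entireFun} (h : ∀ z, evE z a = evE z b) : a = b :=
  Subtype.ext (funext h)

variable (F₀ : Type) [Field F₀] [NumberField F₀]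

/-- The theory of entire curves. -/
def ThE (σ : F₀ →+* ℂ) : Theory (𝓞 F₀) where
  I := PUnit.{2}
  B _ := entireFun
  cr _ := inferInstance
  dom _ := inferInstance
  closed _ := divClosed_entire
  str _ := constE.comp (σ.comp (algebraMap (𝓞 F₀) F₀))
  str_inj _ := constE_injective.comp (σ.injective.comp (FaithfulSMul.algebraMap_injective _ _))
  small _ A _ T := ∀ g ∈ T, ∀ a : A, g a ∈ constE.range
  mono _ A _ T T' h hT g hg := h g (hT hg)
  union _ A _ T T' h h' g hg := by
    rcases hg with hg | hg
    · exact h g hg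
    · exact h' g hg
  empty _ A _ g hg := absurd hg (Set.notMem_empty g)
  push _ A₀ A _ _ θ T h := by
    rintro _ ⟨g, hg, rfl⟩ a
    exact h g hg (θ a)
  pull _ A₀ A _ _ θ T₀ T h hT hex g hg a := by
    obtain ⟨u, v, huv, hv⟩ := hex a
    obtain ⟨cu, hcu⟩ := h _ (hT g hg) u
    obtain ⟨cv, hcv⟩ := h _ (hT g hg) v
    rw [RingHom.comp_apply] at hcu hcv
    have h1 := hv g hg
    have h2 : cv ≠ 0 := by
      rintro rfl
      apply h1
      rw [← hcv, map_zero]
    refine ⟨cu / cv, ?_⟩
    apply mul_left_cancel₀ h1
    rw [← map_mul, huv, ← hcu, ← hcv, ← map_mul, mul_div_cancel₀ _ h2]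
  unit _ c hc := by
    refine ⟨PUnit.unit, RingHom.id _, Function.injective_id, RingHom.id_comp _, ?_, ?_⟩
    · have h1 : σ (algebraMap (𝓞 F₀) F₀ c) ≠ 0 := by
        intro h
        apply hc
        apply FaithfulSMul.algebraMap_injective (𝓞 F₀) F₀
        apply σ.injective
        rw [map_zero, map_zero]; exact h
      exact (IsUnit.mk0 _ h1).map constE
    · intro A _ T h g hg
      exact h _ ⟨g, hg, RingHom.id_comp g⟩

/-- finite extensions with finite sets of places -/
structure FS : Type 1 where
  F : Type
  fld : Field F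
  nf : NumberField F
  alg : Algebra F₀ F
  S : Finset (HeightOneSpectrum (𝓞 F))

attribute [instance] FS.fld FS.nf FS.alg

theorem divClosed_SInt (F : Type) [Field F] [NumberField F] (S : Finset (HeightOneSpectrum (𝓞 F))) :
    DivClosed (SInt F S) := by
  intro L _ j hj x hx hfrac
  obtain ⟨a, b, hb, hab⟩ := hfrac
  obtain ⟨p, hp, hpx⟩ := hx
  set n := p.natDegree with hn
  have hjb : j b ≠ 0 := fun h => hb (hj (by rw [map_zero]; exact h))
  have h1 : ∑ i ∈ Finset.range (n + 1), p.coeff i * a ^ i * b ^ (n - i) = 0 := by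
    apply hj
    rw [map_zero, map_sum]
    have h2 : Polynomial.eval₂ j x p * j b ^ n = 0 := by rw [hpx, zero_mul]
    rw [Polynomial.eval₂_eq_sum_range, Finset.sum_mul] at h2
    rw [← h2]
    refine Finset.sum_congr rfl fun i hi => ?_
    rw [Finset.mem_range] at hi
    rw [map_mul, map_mul, map_pow, map_pow, ← hab, mul_pow]
    have : j b ^ n = j b ^ i * j b ^ (n - i) := by rw [← pow_add]; congr 1; omega
    rw [this]
    ring
  have hb' : (b : F) ≠ 0 := fun h => hb (Subtype.ext h)
  let y : F := (a : F) / (b : F)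
  have hy : IsIntegral (SInt F S) y := by
    refine ⟨p, hp, ?_⟩
    have h2 : Polynomial.eval₂ (algebraMap (SInt F S) F) y p * (b : F) ^ n = 0 := by
      have h3 := congrArg (algebraMap (SInt F S) F) h1
      rw [map_zero, map_sum] at h3
      rw [Polynomial.eval₂_eq_sum_range, Finset.sum_mul, ← h3]
      refine Finset.sum_congr rfl fun i hi => ?_
      rw [Finset.mem_range] at hi
      rw [map_mul, map_mul, map_pow, map_pow]
      have h4 : (b : F) ^ n = (b : F) ^ i * (b : F) ^ (n - i) := by rw [← pow_add]; congr 1; omega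
      have h5 : algebraMap (SInt F S) F a = y * (b : F) := by
        simp only [y]
        rw [div_mul_cancel₀ _ hb']; rfl
      rw [h5, h4, mul_pow]
      have h6 : algebraMap (SInt F S) F b = (b : F) := rfl
      rw [h6]; ring
    exact (mul_eq_zero.1 h2).resolve_right (pow_ne_zero _ hb')
  have hmem : y ∈ (S : Set (HeightOneSpectrum (𝓞 F))).integer F := by
    intro v hv
    have h2 : (v.valuation F).Integers (v.valuation F).integer := Valuation.integer.integers _
    have h3 : IsIntegral (v.valuation F).integer y := by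
      obtain ⟨r, hr, hry⟩ := hy
      let ι : SInt F S →+* (v.valuation F).integer :=
        { toFun := fun s => ⟨(s : F), s.2 v hv⟩
          map_one' := rfl
          map_mul' := fun _ _ => rfl
          map_zero' := rfl
          map_add' := fun _ _ => rfl }
      refine ⟨r.map ι, hr.map ι, ?_⟩
      rw [Polynomial.eval₂_map]
      exact hry
    exact h2.mem_of_integral h3
  refine ⟨⟨y, hmem⟩, ?_⟩
  apply mul_right_cancel₀ hjb
  rw [hab, ← map_mul]
  congr 1
  apply Subtype.ext
  show (a : F) / (b : F) * (b : F) = (a : F)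
  exact div_mul_cancel₀ _ hb'

theorem structHom_injective (F : Type) [Field F] [NumberField F] [Algebra F₀ F]
    (S : Finset (HeightOneSpectrum (𝓞 F))) : Function.Injective (structHom F₀ F S) := by
  intro a b hab
  have h1 : algebraMap F₀ F (a : F₀) = algebraMap F₀ F (b : F₀) :=
    congrArg (fun x : SInt F S => (x : F)) hab
  exact FaithfulSMul.algebraMap_injective (𝓞 F₀) F₀ ((algebraMap F₀ F).injective h1)

/-- The theory of integral points. -/
def ThS : Theory (𝓞 F₀) where
  I := FS F₀
  B τ := SInt τ.F τ.S
  cr _ := inferInstance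
  dom _ := inferInstance
  closed τ := divClosed_SInt τ.F τ.S
  str τ := structHom F₀ τ.F τ.S
  str_inj τ := structHom_injective F₀ τ.F τ.S
  small τ A _ T := T.Finite
  mono _ A _ T T' h hT := h.subset hT
  union _ A _ T T' h h' := h.union h'
  empty _ A _ := Set.finite_empty
  push _ A₀ A _ _ θ T h := h.image _
  pull τ A₀ A _ _ θ T₀ T h hT hex := by
    refine Set.Finite.of_finite_image (f := fun g => g.comp θ) (h.subset ?_) ?_
    · rintro _ ⟨g, hg, rfl⟩
      exact hT g hg
    · intro g hg g' hg' hgg
      refine RingHom.ext fun a => ?_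
      obtain ⟨u, v, huv, hv⟩ := hex a
      have h1 := RingHom.congr_fun hgg
      apply mul_left_cancel₀ (hv g hg)
      have h2 : g (θ v) = g' (θ v) := h1 v
      have h3 : g (θ u) = g' (θ u) := h1 u
      rw [← map_mul, huv, h3, ← huv, map_mul, h2]
  unit τ c hc := by
    classical
    have hc' : algebraMap F₀ τ.F (c : F₀) ≠ 0 := by
      intro h
      apply hc
      apply FaithfulSMul.algebraMap_injective (𝓞 F₀) F₀
      apply (algebraMap F₀ τ.F).injective
      rw [map_zero, map_zero]; exact h
    obtain ⟨S₁, hS₁⟩ := exists_finset_SInt τ.F {(algebraMap F₀ τ.F (c : F₀))⁻¹}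
    let S' := τ.S ∪ S₁
    let τ' : FS F₀ := ⟨τ.F, τ.fld, τ.nf, τ.alg, S'⟩
    have hsub : ∀ s : SInt τ.F τ.S, (s : τ.F) ∈ (S' : Set (HeightOneSpectrum (𝓞 τ.F))).integer τ.F :=
      fun s v hv => s.2 v (fun h => hv (by
        simp only [S', Finset.coe_union]
        exact Or.inl h))
    let ι : SInt τ.F τ.S →+* SInt τ.F S' :=
      { toFun := fun s => ⟨(s : τ.F), hsub s⟩
        map_one' := rfl
        map_mul' := fun _ _ => rfl
        map_zero' := rfl
        map_add' := fun _ _ => rfl }
    have hι : Function.Injective ι := fun a b h =>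
      Subtype.ext (congrArg (fun x : SInt τ.F S' => (x : τ.F)) h)
    refine ⟨τ', ι, hι, rfl, ?_, ?_⟩
    · have hinv : (algebraMap F₀ τ.F (c : F₀))⁻¹ ∈
          (S' : Set (HeightOneSpectrum (𝓞 τ.F))).integer τ.F :=
        fun v hv => hS₁ _ (Finset.mem_singleton_self _) v (fun h => hv (by
          simp only [S', Finset.coe_union]
          exact Or.inr h))
      refine IsUnit.of_mul_eq_one (⟨_, hinv⟩ : SInt τ.F S') ?_
      apply Subtype.ext
      exact mul_inv_cancel₀ hc'
    · intro A _ T h
      refine Set.Finite.of_finite_image h ?_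
      intro g _ g' _ hgg
      refine RingHom.ext fun a => hι ?_
      exact RingHom.congr_fun hgg a

end Pool.Agent.Work.MP_e97a4d_nt
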