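import Mathlib
import Pool.Agent.Work.MP_e97a4d_nt.Reduction6
import Pool.Agent.Work.MP_e97a4d_nt.Charts

set_option autoImplicit false
set_option linter.unusedSectionVars false

noncomputable section

namespace Pool.Agent.Work.MP_e97a4d_nt

open scoped BigOperators Topology
open AlgebraicGeometry CategoryTheory CategoryTheory.Limits IsDedekindDomain NumberField

variable {F₀ : Type} [Field F₀] [NumberField F₀]

/-- the value of a polynomial `P(x, y)` over the ring `R` at a point with coordinates in `B`, with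
respect to `ρ : R → B` -/
def evalHyp {R B : Type} [CommRing R] [CommRing B] (ρ : R →+* B) {d : ℕ} (x : Fin d → B) (y : B) :
    Polynomial (MvPolynomial (Fin d) R) →+* B :=
  Polynomial.eval₂RingHom (MvPolynomial.eval₂Hom ρ x) y

/-- Condition (i) for the hypersurface `P(x, y) = 0` and its closed subset `h(x) = 0`. -/
def HypI (σ : F₀ →+* ℂ) (H : Hyp (𝓞 F₀)) : Prop :=
  ∀ (x : Fin H.d → ℂ → ℂ) (y : ℂ → ℂ), (∀ k, Differentiable ℂ (x k)) → Differentiable ℂ y →
    (∃ z w : ℂ, (∃ k, x k z ≠ x k w) ∨ y z ≠ y w) →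
    (∀ z, evalHyp (σ.comp (algebraMap (𝓞 F₀) F₀)) (fun k => x k z) (y z) H.P = 0) →
    ∀ z, MvPolynomial.eval₂Hom (σ.comp (algebraMap (𝓞 F₀) F₀)) (fun k => x k z) H.h = 0

/-- Condition (ii) for the hypersurface `P(x, y) = 0` and its closed subset `h(x) = 0`. -/
def HypII (H : Hyp (𝓞 F₀)) : Prop :=
  ∀ (F : Type) [Field F] [NumberField F] [Algebra F₀ F] (S : Finset (HeightOneSpectrum (𝓞 F))),
    {p : (Fin H.d → SInt F S) × SInt F S | evalHyp (structHom F₀ F S) p.1 p.2 H.P = 0 ∧
      MvPolynomial.eval₂Hom (structHom F₀ F S) p.1 H.h ≠ 0}.Finite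

theorem evalHyp_C {R B : Type} [CommRing R] [CommRing B] (ρ : R →+* B) {d : ℕ} (x : Fin d → B)
    (y : B) (h : MvPolynomial (Fin d) R) :
    evalHyp ρ x y (Polynomial.C h) = MvPolynomial.eval₂Hom ρ x h := by
  simp [evalHyp]

theorem evalHyp_unique {R B : Type} [CommRing R] [CommRing B] (ρ : R →+* B) {d : ℕ}
    (g : Polynomial (MvPolynomial (Fin d) R) →+* B) (hg : g.comp (constHom R d) = ρ) :
    g = evalHyp ρ (fun k => g (Polynomial.C (MvPolynomial.X k))) (g Polynomial.X) := by
  apply Polynomial.ringHom_ext'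
  · apply MvPolynomial.ringHom_ext
    · intro r
      have := RingHom.congr_fun hg r
      simp only [RingHom.comp_apply, evalHyp_C, MvPolynomial.coe_eval₂Hom, MvPolynomial.eval₂_C]
      exact this
    · intro k
      simp [evalHyp_C]
  · simp [evalHyp]

theorem evalHyp_const {R B : Type} [CommRing R] [CommRing B] (ρ : R →+* B) {d : ℕ} (x : Fin d → B)
    (y : B) : (evalHyp ρ x y).comp (constHom R d) = ρ := by
  refine RingHom.ext fun r => ?_
  show evalHyp ρ x y (Polynomial.C (MvPolynomial.C r)) = _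
  rw [evalHyp_C]
  simp

theorem evalHyp_map {R B B' : Type} [CommRing R] [CommRing B] [CommRing B'] (ρ : R →+* B) {d : ℕ}
    (x : Fin d → B) (y : B) (φ : B →+* B') (p : Polynomial (MvPolynomial (Fin d) R)) :
    φ (evalHyp ρ x y p) = evalHyp (φ.comp ρ) (fun k => φ (x k)) (φ y) p := by
  have h := evalHyp_unique (φ.comp ρ) (φ.comp (evalHyp ρ x y)) (by
    rw [RingHom.comp_assoc, evalHyp_const])
  have h2 := RingHom.congr_fun h p
  rw [RingHom.comp_apply] at h2
  rw [h2]
  congr 2
  · funext k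
    simp [evalHyp_C]
  · simp [evalHyp]

theorem goodE_iff (σ : F₀ →+* ℂ) {A : Type} [CommRing A] (α : 𝓞 F₀ →+* A) (J : Ideal A) (q : A) :
    Good (ThE F₀ σ) α J q ↔ ∀ g : A →+* entireFun,
      g.comp α = constE.comp (σ.comp (algebraMap (𝓞 F₀) F₀)) → (∀ a ∈ J, g a = 0) → g q ≠ 0 →
      ∀ a, g a ∈ constE.range := by
  constructor
  · intro h g h1 h2 h3
    exact h PUnit.unit g ⟨h1, h2, h3⟩
  · rintro h τ g ⟨h1, h2, h3⟩
    exact h g h1 h2 h3

theorem goodS_iff {A : Type} [CommRing A] (α : 𝓞 F₀ →+* A) (J : Ideal A) (q : A) :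
    Good (ThS F₀) α J q ↔ ∀ (F : Type) [Field F] [NumberField F] [Algebra F₀ F]
      (S : Finset (HeightOneSpectrum (𝓞 F))), {g : A →+* SInt F S |
        g.comp α = structHom F₀ F S ∧ (∀ a ∈ J, g a = 0) ∧ g q ≠ 0}.Finite := by
  constructor
  · intro h F i1 i2 i3 S
    exact h ⟨F, i1, i2, i3, S⟩
  · intro h τ
    exact @h τ.F τ.fld τ.nf τ.alg τ.S

theorem good_iff_hypI (σ : F₀ →+* ℂ) (H : Hyp (𝓞 F₀)) :
    Good (ThE F₀ σ) (constHom (𝓞 F₀) H.d) (Ideal.span {H.P}) (Polynomial.C H.h) ↔ HypI σ H := by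
  have hev : ∀ z : ℂ, (evE z).comp (constE.comp (σ.comp (algebraMap (𝓞 F₀) F₀))) =
      σ.comp (algebraMap (𝓞 F₀) F₀) := fun z => rfl
  rw [goodE_iff]
  constructor
  · intro hG x y hx hy hne hP z
    by_contra hh
    let X : Fin H.d → entireFun := fun k => ⟨x k, hx k⟩
    let Y : entireFun := ⟨y, hy⟩
    let g : Polynomial (MvPolynomial (Fin H.d) (𝓞 F₀)) →+* entireFun :=
      evalHyp (constE.comp (σ.comp (algebraMap (𝓞 F₀) F₀))) X Y
    have hgX : ∀ k, g (Polynomial.C (MvPolynomial.X k)) = X k := by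
      intro k
      simp [g, evalHyp]
    have hgY : g Polynomial.X = Y := by simp [g, evalHyp]
    have hgz : ∀ z p, evE z (g p) =
        evalHyp (σ.comp (algebraMap (𝓞 F₀) F₀)) (fun k => x k z) (y z) p := by
      intro z p
      have := evalHyp_map (constE.comp (σ.comp (algebraMap (𝓞 F₀) F₀))) X Y (evE z) p
      rw [hev] at this
      exact this
    have hmem := hG g (evalHyp_const _ _ _) ?_ ?_
    · obtain ⟨z, w, hzw⟩ := hne
      rcases hzw with ⟨k, hk⟩ | hy
      · obtain ⟨c, hc⟩ := hmem (Polynomial.C (MvPolynomial.X k))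
        apply hk
        rw [hgX] at hc
        have h1 : ∀ z, x k z = c := fun z => (congrFun (congrArg Subtype.val hc) z).symm
        rw [h1, h1]
      · obtain ⟨c, hc⟩ := hmem Polynomial.X
        apply hy
        rw [hgY] at hc
        have h1 : ∀ z, y z = c := fun z => (congrFun (congrArg Subtype.val hc) z).symm
        rw [h1, h1]
    · intro a ha
      have h1 : g H.P = 0 := by
        apply entire_ext
        intro z
        rw [hgz, hP, map_zero]
      have h2 : Ideal.span {H.P} ≤ RingHom.ker g := by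
        rw [Ideal.span_singleton_le_iff_mem]; exact h1
      exact h2 ha
    · intro h0
      apply hh
      rw [← evalHyp_C _ _ (y z), ← hgz, h0, map_zero]
  · intro hI g h1 h2 h3
    have hguniq := evalHyp_unique _ g h1
    let X : Fin H.d → entireFun := fun k => g (Polynomial.C (MvPolynomial.X k))
    let Y : entireFun := g Polynomial.X
    have hgz : ∀ z p, evE z (g p) =
        evalHyp (σ.comp (algebraMap (𝓞 F₀) F₀)) (fun k => (X k : ℂ → ℂ) z) ((Y : ℂ → ℂ) z) p := by
      intro z p
      have := evalHyp_map (constE.comp (σ.comp (algebraMap (𝓞 F₀) F₀))) X Y (evE z) p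
      rw [hev] at this
      rw [show (fun k => (X k : ℂ → ℂ) z) = fun k => evE z (X k) from rfl,
        show (Y : ℂ → ℂ) z = evE z Y from rfl, ← this]
      congr 1
      exact RingHom.congr_fun hguniq p
    by_cases hne : ∃ z w : ℂ, (∃ k, (X k : ℂ → ℂ) z ≠ (X k : ℂ → ℂ) w) ∨
        (Y : ℂ → ℂ) z ≠ (Y : ℂ → ℂ) w
    · exfalso
      apply h3
      apply entire_ext
      intro z
      rw [hgz, map_zero, evalHyp_C]
      refine hI (fun k => (X k : ℂ → ℂ)) (Y : ℂ → ℂ) (fun k => entire_diff (X k)) (entire_diff Y)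
        hne ?_ z
      intro w
      rw [← hgz, h2 _ (Ideal.mem_span_singleton_self _), map_zero]
    · push Not at hne
      intro a
      refine ⟨evE 0 (g a), ?_⟩
      apply entire_ext
      intro z
      have h4 : evE z (constE (evE 0 (g a))) = evE 0 (g a) := rfl
      rw [h4, hgz, hgz]
      have h5 : (fun k => (X k : ℂ → ℂ) 0) = fun k => (X k : ℂ → ℂ) z :=
        funext fun k => (hne 0 z).1 k
      rw [h5, (hne 0 z).2]

theorem good_iff_hypII (H : Hyp (𝓞 F₀)) :
    Good (ThS F₀) (constHom (𝓞 F₀) H.d) (Ideal.span {H.P}) (Polynomial.C H.h) ↔ HypII H := by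
  rw [goodS_iff]
  constructor
  · intro hG F _ _ _ S
    have h := hG F S
    let Ψ : (Fin H.d → SInt F S) × SInt F S → (Polynomial (MvPolynomial (Fin H.d) (𝓞 F₀)) →+*
      SInt F S) := fun p => evalHyp (structHom F₀ F S) p.1 p.2
    have hΨ : Function.Injective Ψ := by
      intro p p' hpp
      apply Prod.ext
      · funext k
        have := RingHom.congr_fun hpp (Polynomial.C (MvPolynomial.X k))
        simpa [Ψ, evalHyp] using this
      · have := RingHom.congr_fun hpp Polynomial.X
        simpa [Ψ, evalHyp] using this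
    refine Set.Finite.subset (Set.Finite.preimage hΨ.injOn h) ?_
    rintro p ⟨hp1, hp2⟩
    refine ⟨evalHyp_const _ _ _, ?_, ?_⟩
    · intro a ha
      have h2 : Ideal.span {H.P} ≤ RingHom.ker (Ψ p) := by
        rw [Ideal.span_singleton_le_iff_mem]; exact hp1
      exact h2 ha
    · show evalHyp (structHom F₀ F S) p.1 p.2 (Polynomial.C H.h) ≠ 0
      rw [evalHyp_C]; exact hp2
  · intro hII F _ _ _ S
    let Ψ : (Fin H.d → SInt F S) × SInt F S →
      (Polynomial (MvPolynomial (Fin H.d) (𝓞 F₀)) →+* SInt F S) :=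
      fun p => evalHyp (structHom F₀ F S) p.1 p.2
    refine Set.Finite.subset ((hII F S).image Ψ) ?_
    rintro g ⟨h1, h2, h3⟩
    have hguniq := evalHyp_unique _ g h1
    refine ⟨(fun k => g (Polynomial.C (MvPolynomial.X k)), g Polynomial.X), ⟨?_, ?_⟩, hguniq.symm⟩
    · show evalHyp _ _ _ H.P = 0
      have := RingHom.congr_fun hguniq H.P
      rw [h2 _ (Ideal.mem_span_singleton_self _)] at this
      exact this.symm
    · have := RingHom.congr_fun hguniq (Polynomial.C H.h)
      rw [evalHyp_C] at this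
      intro h0
      exact h3 (this.trans h0)

/-- Condition (i) on an affine scheme. -/
theorem condI_iff (σ : F₀ →+* ℂ) {V V' : Scheme.{0}}
    (π : V ⟶ Spec (CommRingCat.of (𝓞 F₀))) (i : V' ⟶ V)
    {A : CommRingCat.{0}} (j : Spec A ⟶ V) [IsIso j] (α : 𝓞 F₀ →+* A)
    (hα : j ≫ π = Spec.map (CommRingCat.ofHom α)) (G : Finset A)
    (hI : ∀ (R : Type) [CommRing R] (φ : A →+* R),
      (∃ p : Spec (CommRingCat.of R) ⟶ V', p ≫ i = Spec.map (CommRingCat.ofHom φ) ≫ j) ↔
        ∀ a ∈ Ideal.span (G : Set A), φ a = 0) :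
    CondI σ π i ↔ ∀ q ∈ G, Good (ThE F₀ σ) α ⊥ q := by
  simp only [goodE_iff]
  constructor
  · intro hC q hq g h1 _ h3
    by_contra hcon
    push Not at hcon
    obtain ⟨a₀, ha₀⟩ := hcon
    obtain ⟨z₀, w₀, hzw⟩ : ∃ z w : ℂ, evE z (g a₀) ≠ evE w (g a₀) := by
      by_contra hc
      push Not at hc
      apply ha₀
      refine ⟨evE 0 (g a₀), ?_⟩
      apply entire_ext
      intro z
      exact hc 0 z
    let f : ℂ → (Spec (CommRingCat.of ℂ) ⟶ V) := fun z =>
      Spec.map (CommRingCat.ofHom ((evE z).comp g)) ≫ j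
    have hf : IsEntireCurve σ π f := by
      refine ⟨⟨?_, ?_⟩, z₀, w₀, ?_⟩
      · intro z
        show (Spec.map (CommRingCat.ofHom ((evE z).comp g)) ≫ j) ≫ π = _
        rw [Category.assoc, hα, ← Spec.map_comp, ← CommRingCat.ofHom_comp]
        congr 2
        rw [RingHom.comp_assoc, h1]
        rfl
      · intro z
        refine ⟨A, j, fun w => (evE w).comp g, Set.univ, inferInstance, isOpen_univ,
          Set.mem_univ _, fun w _ => rfl, ?_⟩
        intro a
        exact (entire_diff (g a)).differentiableOn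
      · intro h
        apply hzw
        have := Spec_map_comp_inj j _ _ h
        exact RingHom.congr_fun this a₀
    have hall := hC f hf
    apply h3
    apply entire_ext
    intro z
    rw [map_zero]
    exact (hI ℂ ((evE z).comp g)).1 (hall z) q (Ideal.subset_span hq)
  · intro hG f hf z₁
    by_contra hout
    have hex : ∀ z, ∃ φ : A →+* ℂ, f z = Spec.map (CommRingCat.ofHom φ) ≫ j := by
      intro z
      obtain ⟨φ, hφ⟩ := Spec.map_surjective (f z ≫ inv j)
      refine ⟨φ.hom, ?_⟩
      have h1 : Spec.map (CommRingCat.ofHom φ.hom) = f z ≫ inv j := hφ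
      rw [h1, Category.assoc, IsIso.inv_hom_id, Category.comp_id]
    choose g hg using hex
    have hdiff : ∀ a, Differentiable ℂ (fun z => g z a) := by
      intro a z
      obtain ⟨A', j', g', D, _, hD, hzD, hfg, hhol⟩ := hf.1.holo z
      obtain ⟨θ, hθ⟩ := Spec.map_surjective (j' ≫ inv j)
      have h1 : ∀ w ∈ D, g w a = g' w (θ.hom a) := by
        intro w hw
        have h2 : Spec.map (CommRingCat.ofHom (g w)) ≫ j =
            Spec.map (CommRingCat.ofHom ((g' w).comp θ.hom)) ≫ j := by
          rw [← hg w, hfg w hw, CommRingCat.ofHom_comp, Spec.map_comp]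
          have h3 : Spec.map (CommRingCat.ofHom θ.hom) = j' ≫ inv j := hθ
          rw [h3, Category.assoc, Category.assoc, IsIso.inv_hom_id, Category.comp_id]
        have := Spec_map_comp_inj j _ _ h2
        exact RingHom.congr_fun this a
      have h4 : (fun z => g z a) =ᶠ[𝓝 z] fun w => g' w (θ.hom a) := by
        filter_upwards [hD.mem_nhds hzD] with w hw using h1 w hw
      exact ((hhol (θ.hom a)).differentiableAt (hD.mem_nhds hzD)).congr_of_eventuallyEq h4
    let gE : A →+* entireFun :=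
      { toFun := fun a => ⟨fun z => g z a, hdiff a⟩
        map_one' := Subtype.ext (funext fun z => map_one (g z))
        map_mul' := fun a b => Subtype.ext (funext fun z => map_mul (g z) a b)
        map_zero' := Subtype.ext (funext fun z => map_zero (g z))
        map_add' := fun a b => Subtype.ext (funext fun z => map_add (g z) a b) }
    have hgE : ∀ z a, evE z (gE a) = g z a := fun z a => rfl
    have hstr : gE.comp α = constE.comp (σ.comp (algebraMap (𝓞 F₀) F₀)) := by
      refine RingHom.ext fun b => entire_ext fun z => ?_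
      rw [RingHom.comp_apply, hgE]
      have h1 := hf.1.structural z
      rw [hg z, Category.assoc, hα, ← Spec.map_comp, ← CommRingCat.ofHom_comp] at h1
      have h2 := congrArg CommRingCat.Hom.hom (Spec.map_injective h1)
      exact RingHom.congr_fun h2 b
    obtain ⟨q, hqG, hq⟩ : ∃ q ∈ G, g z₁ q ≠ 0 := by
      by_contra hcon
      push Not at hcon
      apply hout
      rw [hg z₁, hI]
      have h1 : Ideal.span (G : Set A) ≤ RingHom.ker (g z₁) := by
        rw [Ideal.span_le]
        intro x hx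
        exact hcon x hx
      exact fun a ha => h1 ha
    have hconst := hG q hqG gE hstr (fun a ha => by
      rw [(Ideal.mem_bot).1 ha, map_zero]) (fun h0 => hq (by
        rw [← hgE]
        exact (congrArg (evE z₁) h0).trans (map_zero _)))
    obtain ⟨z, w, hzw⟩ := hf.2
    apply hzw
    rw [hg z, hg w]
    congr 3
    refine RingHom.ext fun a => ?_
    obtain ⟨c, hc⟩ := hconst a
    rw [← hgE, ← hgE, ← hc]
    rfl

/-- Condition (ii) on an affine scheme. -/
theorem condII_iff {V V' : Scheme.{0}}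
    (π : V ⟶ Spec (CommRingCat.of (𝓞 F₀))) (i : V' ⟶ V)
    {A : CommRingCat.{0}} (j : Spec A ⟶ V) [IsIso j] (α : 𝓞 F₀ →+* A)
    (hα : j ≫ π = Spec.map (CommRingCat.ofHom α)) (G : Finset A)
    (hI : ∀ (R : Type) [CommRing R] (φ : A →+* R),
      (∃ p : Spec (CommRingCat.of R) ⟶ V', p ≫ i = Spec.map (CommRingCat.ofHom φ) ≫ j) ↔
        ∀ a ∈ Ideal.span (G : Set A), φ a = 0) :
    CondII π i ↔ ∀ q ∈ G, Good (ThS F₀) α ⊥ q := by
  simp only [goodS_iff]
  constructor
  · intro hC q hq F _ _ _ S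
    let θ : (A →+* SInt F S) → (Spec (CommRingCat.of (SInt F S)) ⟶ V) :=
      fun x => Spec.map (CommRingCat.ofHom x) ≫ j
    have hθ : Function.Injective θ := fun x y hxy => Spec_map_comp_inj j x y hxy
    refine Set.Finite.subset ((hC F S).preimage hθ.injOn) ?_
    rintro x ⟨h1, -, h3⟩
    refine ⟨?_, ?_⟩
    · show (Spec.map (CommRingCat.ofHom x) ≫ j) ≫ π = _
      rw [Category.assoc, hα, ← Spec.map_comp, ← CommRingCat.ofHom_comp]
      congr 2
    · intro hy
      exact h3 ((hI _ x).1 hy q (Ideal.subset_span hq))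
  · intro hG F _ _ _ S
    let θ : (A →+* SInt F S) → (Spec (CommRingCat.of (SInt F S)) ⟶ V) :=
      fun x => Spec.map (CommRingCat.ofHom x) ≫ j
    have hfin : ∀ q ∈ G, (θ '' {g : A →+* SInt F S | g.comp α = structHom F₀ F S ∧
        (∀ a ∈ (⊥ : Ideal A), g a = 0) ∧ g q ≠ 0}).Finite :=
      fun q hq => (hG q hq F S).image θ
    refine Set.Finite.subset (Set.Finite.biUnion G.finite_toSet hfin) ?_
    rintro x ⟨hx1, hx2⟩
    obtain ⟨φ', hφ'⟩ := Spec.map_surjective (x ≫ inv j)
    let φ : A →+* SInt F S := φ'.hom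
    have hφ : x = Spec.map (CommRingCat.ofHom φ) ≫ j := by
      have h1 : Spec.map (CommRingCat.ofHom φ) = x ≫ inv j := hφ'
      rw [h1, Category.assoc, IsIso.inv_hom_id, Category.comp_id]
    obtain ⟨q, hqG, hq⟩ : ∃ q ∈ G, φ q ≠ 0 := by
      by_contra hcon
      push Not at hcon
      apply hx2
      rw [hφ, hI]
      have h1 : Ideal.span (G : Set A) ≤ RingHom.ker φ := by
        rw [Ideal.span_le]
        intro x hx
        exact hcon x hx
      exact fun a ha => h1 ha
    refine Set.mem_biUnion hqG ⟨φ, ⟨?_, ?_, hq⟩, hφ.symm⟩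
    · have h1 : x ≫ π = _ := hx1
      rw [hφ, Category.assoc, hα, ← Spec.map_comp, ← CommRingCat.ofHom_comp] at h1
      exact congrArg CommRingCat.Hom.hom (Spec.map_injective h1)
    · intro a ha
      rw [(Ideal.mem_bot).1 ha, map_zero]

end Pool.Agent.Work.MP_e97a4d_nt
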