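import Mathlib
import Pool.Agent.Work.MP_e97a4d_nt.Reduction7
import Pool.Agent.Work.MP_e97a4d_nt.QuadDefs
import Pool.Agent.Work.MP_e97a4d_nt.Quad1
import Pool.Agent.Work.MP_e97a4d_nt.Picard

set_option autoImplicit false
set_option linter.unusedSectionVars false

noncomputable section

namespace Pool.Agent.Work.MP_e97a4d_nt.Quad

open scoped BigOperators
open IsDedekindDomain NumberField MvPolynomial
open Pool.Agent.Work.MP_e97a4d_nt

variable {F₀ : Type} [Field F₀] [NumberField F₀]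

/-- Finiteness of the set of `S`-integers `t` with `t - 1` and `t + 1` units. -/
def UnitFin (F₀ : Type) [Field F₀] : Prop :=
  ∀ (F : Type) [Field F] [NumberField F] [Algebra F₀ F] (S : Finset (HeightOneSpectrum (𝓞 F))),
    {t : SInt F S | IsUnit (t - 1) ∧ IsUnit (t + 1)}.Finite

theorem differentiable_eval₂ {ι : Type} (ρ : 𝓞 F₀ →+* ℂ) (x : ι → ℂ → ℂ)
    (hx : ∀ i, Differentiable ℂ (x i)) (e : MvPolynomial ι (𝓞 F₀)) :
    Differentiable ℂ (fun z => eval₂ ρ (fun i => x i z) e) := by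
  induction e using MvPolynomial.induction_on with
  | C a => simp only [eval₂_C]; exact differentiable_const _
  | add p q hp hq => simp only [eval₂_add]; exact hp.add hq
  | mul_X p i hp => simp only [eval₂_mul, eval₂_X]; exact hp.mul (hx i)

/-- evaluation through the ring of entire functions -/
theorem evE_eval₂ {ι : Type} (σ : F₀ →+* ℂ) (x : ι → entireFun) (e : MvPolynomial ι (𝓞 F₀)) (z : ℂ) :
    evE z (eval₂ (constE.comp (σ.comp (algebraMap (𝓞 F₀) F₀))) x e) =
      eval₂ (σ.comp (algebraMap (𝓞 F₀) F₀)) (fun i => (x i : ℂ → ℂ) z) e := by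
  rw [eval₂_comp_left]
  rfl

section

variable {A : Type} [CommRing A] (α : 𝓞 F₀ →+* A) {m D : ℕ}
  (ψ : MvPolynomial (Fin m) (𝓞 F₀) →+* A) (hψ : Function.Surjective ψ)
  (hψC : ψ.comp C = α) (G₀ G : Finset (MvPolynomial (Fin m) (𝓞 F₀)))
  (hG₀ : RingHom.ker ψ = Ideal.span (G₀ : Set (MvPolynomial (Fin m) (𝓞 F₀))))
  (hG : ∀ g ∈ G, ψ g = 0)
  (hsub : ∀ g ∈ G₀, g ∈ G) (hmul : ∀ g ∈ G₀, ∀ i, X i * g ∈ G)
  (hdeg : ∀ g ∈ G, ∀ μ ∈ g.support, ∀ i, μ i + 2 ≤ D) (hD : 2 ≤ D)

include hψ hψC hG₀ in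
/-- a solution of the system gives a ring homomorphism -/
theorem exists_hom {B : Type} [CommRing B] (ρ : 𝓞 F₀ →+* B) (x : Fin m → B)
    (hx : ∀ g ∈ G₀, eval₂ ρ x g = 0) :
    ∃ g : A →+* B, g.comp α = ρ ∧ ∀ p, g (ψ p) = eval₂ ρ x p := by
  have hker : ∀ p, ψ p = 0 → eval₂Hom ρ x p = 0 := by
    have h1 : Ideal.span (G₀ : Set (MvPolynomial (Fin m) (𝓞 F₀))) ≤ RingHom.ker (eval₂Hom ρ x) := by
      rw [Ideal.span_le]
      intro p hp
      exact hx p hp
    rw [← hG₀] at h1
    exact fun p hp => h1 hp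
  let g : A →+* B := RingHom.liftOfSurjective ψ hψ ⟨eval₂Hom ρ x, fun p hp => hker p hp⟩
  have hg : ∀ p, g (ψ p) = eval₂ ρ x p := fun p => RingHom.liftOfRightInverse_comp_apply _ _ _ _ _
  refine ⟨g, ?_, hg⟩
  refine RingHom.ext fun r => ?_
  rw [RingHom.comp_apply, ← hψC, RingHom.comp_apply, hg, eval₂_C]

include hψC in
theorem hom_eval {B : Type} [CommRing B] (ρ : 𝓞 F₀ →+* B) (g : A →+* B) (hg : g.comp α = ρ)
    (p : MvPolynomial (Fin m) (𝓞 F₀)) : g (ψ p) = eval₂ ρ (fun i => g (ψ (X i))) p := by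
  have h : g.comp ψ = eval₂Hom ρ (fun i => g (ψ (X i))) := by
    apply MvPolynomial.ringHom_ext
    · intro r
      rw [RingHom.comp_apply, coe_eval₂Hom, eval₂_C, ← hg, RingHom.comp_apply, ← hψC,
        RingHom.comp_apply]
    · intro i
      rw [RingHom.comp_apply, coe_eval₂Hom, eval₂_X]
  exact RingHom.congr_fun h p

include hψ hψC hG₀ hG hsub hmul hdeg hD in
theorem good_iff_quadI (σ : F₀ →+* ℂ) (i₁ : Fin m) :
    Good (ThE F₀ σ) α ⊥ (ψ (X i₁)) ↔ QuadI σ (enc D G) (tr D (Pi.single i₁ 1)) := by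
  classical
  rw [goodE_iff]
  have hs1 : ∀ (i j : Fin m), (Pi.single i 1 : Fin m → ℕ) j ≤ D := by
    intro i j
    by_cases h : j = i
    · subst h; simp; omega
    · simp [Pi.single_eq_of_ne h]
  have hmonC : ∀ {B : Type} [CommRing B] (x : Fin m → B) (i : Fin m),
      mon D x (tr D (Pi.single i 1)) = x i := by
    intro B _ x i
    rw [mon_tr x _ (hs1 i), Finset.prod_eq_single i]
    · simp
    · intro j _ hj
      simp [Pi.single_eq_of_ne hj]
    · intro h
      exact absurd (Finset.mem_univ i) h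
  constructor
  · intro hgood x hx hne hE z
    by_contra hz0
    set ρ : 𝓞 F₀ →+* ℂ := σ.comp (algebraMap (𝓞 F₀) F₀) with hρ
    let Z : Set ((Fin m → Fin (D + 1)) → ℂ) := Set.range fun z i => x i z
    have hconst : ∀ e ∈ enc D G, ∀ p ∈ Z, ∀ q ∈ Z, eval₂ ρ p e = eval₂ ρ q e := by
      rintro e he _ ⟨a, rfl⟩ _ ⟨b, rfl⟩
      exact Picard.little_picard _ (differentiable_eval₂ ρ x hx e) (fun z => (hE e he z).1)
        (fun z => (hE e he z).2) a b
    have hcont : Continuous fun (z : ℂ) (i : Fin m → Fin (D + 1)) => x i z :=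
      continuous_pi fun i => (hx i).continuous
    have hZ : Z.Infinite := by
      refine (isPreconnected_range hcont).infinite_of_nontrivial ?_
      obtain ⟨i, a, b, hab⟩ := hne
      exact ⟨_, ⟨a, rfl⟩, _, ⟨b, rfl⟩, fun h => hab (congrFun h i)⟩
    obtain ⟨hinj, hsys⟩ := main ρ G₀ G hsub hmul hdeg hD Z hconst
    have hsys' := hsys hZ
    let x' : Fin m → entireFun := fun i => ⟨x (tr D (Pi.single i 1)), hx _⟩
    obtain ⟨g, hg1, hg2⟩ := exists_hom α ψ hψ hψC G₀ hG₀
      (constE.comp (σ.comp (algebraMap (𝓞 F₀) F₀))) x' (by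
        intro p hp
        apply entire_ext
        intro z
        rw [evE_eval₂, map_zero]
        exact hsys' _ ⟨z, rfl⟩ p hp)
    have hall := hgood g hg1 (fun a ha => by rw [(Ideal.mem_bot).1 ha, map_zero]) (by
      rw [hg2, eval₂_X]
      intro h
      apply hz0
      exact congrFun (congrArg Subtype.val h) z)
    obtain ⟨i, a, b, hab⟩ := hne
    apply hab
    have := hinj _ ⟨a, rfl⟩ _ ⟨b, rfl⟩ (by
      intro k
      obtain ⟨c, hc⟩ := hall (ψ (X k))
      rw [hg2, eval₂_X] at hc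
      have h1 : ∀ z, x (tr D (Pi.single k 1)) z = c := fun z =>
        (congrFun (congrArg Subtype.val hc) z).symm
      show x (tr D (Pi.single k 1)) a = x (tr D (Pi.single k 1)) b
      rw [h1, h1])
    exact congrFun this i
  · intro hQ g hg1 _ hg3
    let x' : Fin m → entireFun := fun i => g (ψ (X i))
    have hx0 : ∀ p ∈ G, eval₂ (constE.comp (σ.comp (algebraMap (𝓞 F₀) F₀))) x' p = 0 := by
      intro p hp
      rw [← hom_eval α ψ hψC _ g hg1, hG p hp, map_zero]
    let x : (Fin m → Fin (D + 1)) → ℂ → ℂ := fun τ z => mon D (fun i => (x' i : ℂ → ℂ) z) τ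
    have hx : ∀ τ, Differentiable ℂ (x τ) := by
      intro τ
      have : x τ = fun z => ∏ i, (x' i : ℂ → ℂ) z ^ (τ i : ℕ) := rfl
      rw [this]
      intro z
      exact DifferentiableAt.fun_finsetProd fun i _ => ((entire_diff (x' i)) z).pow _
    by_cases hne : ∃ i z w, x i z ≠ x i w
    · exfalso
      apply hg3
      apply entire_ext
      intro z
      rw [map_zero]
      have h1 := hQ x hx hne (by
        intro e he w
        have h2 := eval_mon_enc (D := D) (σ.comp (algebraMap (𝓞 F₀) F₀)) G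
          (fun g hg μ hμ i => by have := hdeg g hg μ hμ i; omega)
          (fun i => (x' i : ℂ → ℂ) w) (by
            intro p hp
            rw [← evE_eval₂, hx0 p hp, map_zero]) e he
        have h3 : eval₂ (σ.comp (algebraMap (𝓞 F₀) F₀)) (fun i => x i w) e = 0 := h2
        rw [h3]
        exact ⟨zero_ne_one, by norm_num⟩) z
      have h4 : x (tr D (Pi.single i₁ 1)) z = (x' i₁ : ℂ → ℂ) z := hmonC _ i₁
      rw [h4] at h1
      exact h1
    · push Not at hne
      intro a
      obtain ⟨p, rfl⟩ := hψ a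
      refine ⟨evE 0 (g (ψ p)), ?_⟩
      apply entire_ext
      intro z
      have h4 : evE z (constE (evE 0 (g (ψ p)))) = evE 0 (g (ψ p)) := rfl
      rw [h4, hom_eval α ψ hψC _ g hg1, evE_eval₂, evE_eval₂]
      congr 1
      funext i
      have h5 := hne (tr D (Pi.single i 1)) 0 z
      have h6 : ∀ w, x (tr D (Pi.single i 1)) w = (x' i : ℂ → ℂ) w := fun w => hmonC _ i
      rw [h6, h6] at h5
      exact h5

include hψ hψC hG₀ hG hsub hmul hdeg hD in
theorem good_iff_quadII (hU : UnitFin F₀) (i₁ : Fin m) :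
    Good (ThS F₀) α ⊥ (ψ (X i₁)) ↔ QuadII (enc D G) (tr D (Pi.single i₁ 1)) := by
  classical
  rw [goodS_iff]
  have hs1 : ∀ (i j : Fin m), (Pi.single i 1 : Fin m → ℕ) j ≤ D := by
    intro i j
    by_cases h : j = i
    · subst h; simp; omega
    · simp [Pi.single_eq_of_ne h]
  have hmonC : ∀ {B : Type} [CommRing B] (x : Fin m → B) (i : Fin m),
      mon D x (tr D (Pi.single i 1)) = x i := by
    intro B _ x i
    rw [mon_tr x _ (hs1 i), Finset.prod_eq_single i]
    · simp
    · intro j _ hj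
      simp [Pi.single_eq_of_ne hj]
    · intro h
      exact absurd (Finset.mem_univ i) h
  constructor
  · intro hgood F _ _ _ S
    have hT := hU F S
    set T : Set (SInt F S) := {t : SInt F S | IsUnit (t - 1) ∧ IsUnit (t + 1)} with hTdef
    set ρ := structHom F₀ F S with hρ
    let f : ((Fin m → Fin (D + 1)) → SInt F S) → (enc D G → SInt F S) := fun x e => eval₂ ρ x e.1
    refine Set.Finite.of_finite_fibers f ?_ ?_
    · refine Set.Finite.subset (Set.Finite.pi' (t := fun _ : enc D G => T) fun _ => hT) ?_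
      rintro _ ⟨x, hx, rfl⟩ e
      exact hx.1 e.1 e.2
    · intro c _
      set Z : Set ((Fin m → Fin (D + 1)) → SInt F S) := _ ∩ f ⁻¹' {c} with hZdef
      by_contra hZ
      have hZ' : Z.Infinite := hZ
      have hconst : ∀ e ∈ enc D G, ∀ p ∈ Z, ∀ q ∈ Z, eval₂ ρ p e = eval₂ ρ q e := by
        intro e he p hp q hq
        have h1 : f p = f q := by
          have h2 : f p = c := hp.2
          have h3 : f q = c := hq.2
          rw [h2, h3]
        exact congrFun h1 ⟨e, he⟩
      obtain ⟨hinj, hsys⟩ := main ρ G₀ G hsub hmul hdeg hD Z hconst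
      have hsys' := hsys hZ'
      have hex : ∀ x : Z, ∃ g : A →+* SInt F S, g.comp α = ρ ∧
          ∀ p, g (ψ p) = eval₂ ρ (fun i => x.1 (tr D (Pi.single i 1))) p := fun x =>
        exists_hom α ψ hψ hψC G₀ hG₀ ρ _ (hsys' x.1 x.2)
      choose g hg1 hg2 using hex
      have hginj : Function.Injective g := by
        intro x y hxy
        apply Subtype.ext
        refine hinj x.1 x.2 y.1 y.2 fun i => ?_
        have h1 := hg2 x (X i)
        have h2 := hg2 y (X i)
        rw [eval₂_X] at h1 h2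
        rw [← h1, ← h2, hxy]
      have hfin := hgood F S
      have hmem : ∀ x : Z, g x ∈ {g : A →+* SInt F S | g.comp α = structHom F₀ F S ∧
          (∀ a ∈ (⊥ : Ideal A), g a = 0) ∧ g (ψ (X i₁)) ≠ 0} := by
        intro x
        refine ⟨hg1 x, ?_, ?_⟩
        · intro a ha
          rw [(Ideal.mem_bot).1 ha, map_zero]
        · rw [hg2, eval₂_X]
          exact x.2.1.2
      have hfin' := hfin.to_subtype
      have hZfin : Finite Z := Finite.of_injective (fun x : Z =>
        (⟨g x, hmem x⟩ : {g : A →+* SInt F S | g.comp α = structHom F₀ F S ∧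
          (∀ a ∈ (⊥ : Ideal A), g a = 0) ∧ g (ψ (X i₁)) ≠ 0}))
        (fun x y hxy => hginj (congrArg Subtype.val hxy))
      exact hZ' (Set.toFinite Z)
  · intro hQ F _ _ _ S
    set ρ := structHom F₀ F S with hρ
    let Φ : (A →+* SInt F S) → ((Fin m → Fin (D + 1)) → SInt F S) :=
      fun g => mon D (fun i => g (ψ (X i)))
    refine Set.Finite.of_finite_image (f := Φ) ((hQ F S).subset ?_) ?_
    · rintro _ ⟨g, ⟨hg1, -, hg3⟩, rfl⟩
      refine ⟨?_, ?_⟩
      · intro e he
        have h2 := eval_mon_enc (D := D) ρ G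
          (fun g hg μ hμ i => by have := hdeg g hg μ hμ i; omega)
          (fun i => g (ψ (X i))) (by
            intro p hp
            rw [← hom_eval α ψ hψC _ g hg1, hG p hp, map_zero]) e he
        have h3 : eval₂ ρ (Φ g) e = 0 := h2
        rw [h3, zero_sub, zero_add]
        exact ⟨isUnit_one.neg, isUnit_one⟩
      · show mon D (fun i => g (ψ (X i))) (tr D (Pi.single i₁ 1)) ≠ 0
        rw [hmonC]
        exact hg3
    · rintro g ⟨hg1, -, -⟩ g' ⟨hg1', -, -⟩ hgg
      refine RingHom.ext fun a => ?_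
      obtain ⟨p, rfl⟩ := hψ a
      rw [hom_eval α ψ hψC _ g hg1, hom_eval α ψ hψC _ g' hg1']
      congr 1
      funext i
      have h1 : mon D (fun i => g (ψ (X i))) (tr D (Pi.single i 1)) =
          mon D (fun i => g' (ψ (X i))) (tr D (Pi.single i 1)) := congrFun hgg _
      rwa [hmonC, hmonC] at h1

end

/-- The encoding attached to an algebra of finite type and an element. -/
theorem exists_encoding {A : Type} [CommRing A] (α : 𝓞 F₀ →+* A) (hα : α.FiniteType) (q : A) :
    ∃ (ι : Type) (_ : Fintype ι) (E : Finset (MvPolynomial ι (𝓞 F₀))) (i₀ : ι),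
      (∀ e ∈ E, e.totalDegree ≤ 1 ∨ ∃ i j k : ι, e = (X k - X i * X j : MvPolynomial ι (𝓞 F₀))) ∧
      (∀ σ : F₀ →+* ℂ, Good (ThE F₀ σ) α ⊥ q ↔ QuadI σ E i₀) ∧
      (UnitFin F₀ → (Good (ThS F₀) α ⊥ q ↔ QuadII E i₀)) := by
  classical
  let _ : Algebra (𝓞 F₀) A := α.toAlgebra
  have : Algebra.FiniteType (𝓞 F₀) A := hα
  obtain ⟨n, φ, hφ⟩ := Algebra.FiniteType.iff_quotient_mvPolynomial''.1 this
  let ψ' : MvPolynomial (Fin (n + 1)) (𝓞 F₀) →ₐ[𝓞 F₀] A :=
    aeval (Fin.cons q (fun i => φ (X i)))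
  let ψ : MvPolynomial (Fin (n + 1)) (𝓞 F₀) →+* A := ψ'.toRingHom
  have hψX0 : ψ (X 0) = q := by
    show aeval (Fin.cons q (fun i => φ (X i))) (X 0) = q
    rw [aeval_X]; rfl
  have hψ : Function.Surjective ψ := by
    intro a
    obtain ⟨p, rfl⟩ := hφ a
    refine ⟨rename Fin.succ p, ?_⟩
    show aeval (Fin.cons q (fun i => φ (X i))) (rename Fin.succ p) = φ p
    rw [aeval_rename]
    have : (Fin.cons q (fun i => φ (X i)) : Fin (n + 1) → A) ∘ Fin.succ = fun i => φ (X i) := by
      funext i; rfl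
    rw [this]
    have h2 : aeval (fun i => φ (X i)) = φ := (aeval_unique φ).symm
    rw [h2]
  have hψC : ψ.comp C = α := by
    refine RingHom.ext fun r => ?_
    show aeval (Fin.cons q (fun i => φ (X i))) (C r) = α r
    rw [← algebraMap_eq, AlgHom.commutes]
    rfl
  obtain ⟨G₀, hG₀⟩ := (isNoetherianRing_iff_ideal_fg _).1
    (inferInstance : IsNoetherianRing (MvPolynomial (Fin (n + 1)) (𝓞 F₀))) (RingHom.ker ψ)
  let G : Finset (MvPolynomial (Fin (n + 1)) (𝓞 F₀)) :=
    G₀ ∪ (G₀ ×ˢ (Finset.univ : Finset (Fin (n + 1)))).image fun p => X p.2 * p.1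
  have hG₀0 : ∀ g ∈ G₀, ψ g = 0 := by
    intro g hg
    have : g ∈ RingHom.ker ψ := by rw [← hG₀]; exact Ideal.subset_span hg
    exact this
  have hG : ∀ g ∈ G, ψ g = 0 := by
    intro g hg
    simp only [G, Finset.mem_union, Finset.mem_image, Finset.mem_product] at hg
    rcases hg with hg | ⟨p, ⟨hp, -⟩, rfl⟩
    · exact hG₀0 g hg
    · rw [map_mul, hG₀0 _ hp, mul_zero]
  have hsub : ∀ g ∈ G₀, g ∈ G := fun g hg => Finset.mem_union_left _ hg
  have hmul : ∀ g ∈ G₀, ∀ i, X i * g ∈ G := fun g hg i =>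
    Finset.mem_union_right _ (Finset.mem_image.2 ⟨(g, i),
      Finset.mem_product.2 ⟨hg, Finset.mem_univ _⟩, rfl⟩)
  let D : ℕ := (G.sup fun g => g.support.sup fun μ => Finset.univ.sup fun i => μ i) + 2
  have hdeg : ∀ g ∈ G, ∀ μ ∈ g.support, ∀ i, μ i + 2 ≤ D := by
    intro g hg μ hμ i
    have h1 : μ i ≤ Finset.univ.sup fun i => μ i := Finset.le_sup (f := fun i => μ i)
      (Finset.mem_univ i)
    have h2 : (Finset.univ.sup fun i => μ i) ≤ g.support.sup fun μ => Finset.univ.sup fun i => μ i :=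
      Finset.le_sup (f := fun μ : Fin (n + 1) →₀ ℕ => Finset.univ.sup fun i => μ i) hμ
    have h3 : (g.support.sup fun μ => Finset.univ.sup fun i => μ i) ≤
        G.sup fun g => g.support.sup fun μ => Finset.univ.sup fun i => μ i :=
      Finset.le_sup (f := fun g : MvPolynomial (Fin (n + 1)) (𝓞 F₀) =>
        g.support.sup fun μ => Finset.univ.sup fun i => μ i) hg
    show μ i + 2 ≤ (G.sup fun g => g.support.sup fun μ => Finset.univ.sup fun i => μ i) + 2
    omega
  have hD : 2 ≤ D := Nat.le_add_left _ _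
  refine ⟨Fin (n + 1) → Fin (D + 1), inferInstance, enc D G, tr D (Pi.single 0 1),
    fun e he => shape_enc G e he, fun σ => ?_, fun hU => ?_⟩
  · rw [← hψX0]
    exact good_iff_quadI α ψ hψ hψC G₀ G hG₀.symm hG hsub hmul hdeg hD σ 0
  · rw [← hψX0]
    exact good_iff_quadII α ψ hψ hψC G₀ G hG₀.symm hG hsub hmul hdeg hD hU 0

/-- Finiteness for the unit equation follows from the quadric case of the equivalence. -/
theorem unitFin_of_quad (h : QuadII ({X ()} : Finset (MvPolynomial Unit (𝓞 F₀))) ()) :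
    UnitFin F₀ := by
  classical
  intro F _ _ _ S
  have h1 := h F S
  have h2 : {t : SInt F S | IsUnit (t - 1) ∧ IsUnit (t + 1)} ⊆
      ((fun x : Unit → SInt F S => x ()) '' {x : Unit → SInt F S |
        (∀ e ∈ ({X ()} : Finset (MvPolynomial Unit (𝓞 F₀))),
          IsUnit (eval₂ (structHom F₀ F S) x e - 1) ∧
          IsUnit (eval₂ (structHom F₀ F S) x e + 1)) ∧ x () ≠ 0}) ∪ {0} := by
    intro t ht
    by_cases h0 : t = 0
    · right; exact h0
    · left
      refine ⟨fun _ => t, ⟨?_, h0⟩, rfl⟩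
      intro e he
      rw [Finset.mem_singleton] at he
      subst he
      rw [eval₂_X]
      exact ht
  exact ((h1.image _).union (Set.finite_singleton 0)).subset h2

theorem quadI_unit (σ : F₀ →+* ℂ) : QuadI σ ({X ()} : Finset (MvPolynomial Unit (𝓞 F₀))) () := by
  intro x hx hne hE z
  exfalso
  obtain ⟨i, a, b, hab⟩ := hne
  apply hab
  have h1 := fun z => hE (X ()) (Finset.mem_singleton_self _) z
  simp only [eval₂_X] at h1
  exact Picard.little_picard (x i) (hx i) (fun z => (h1 z).1) (fun z => (h1 z).2) a b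

end Pool.Agent.Work.MP_e97a4d_nt.Quad
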