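import Mathlib
import Pool.Agent.Work.MP_e97a4d_nt.Quad2

set_option autoImplicit false
set_option linter.unusedSectionVars false

noncomputable section

namespace Pool.Agent.Work.MP_e97a4d_nt.Quad

open scoped BigOperators
open AlgebraicGeometry CategoryTheory CategoryTheory.Limits
open IsDedekindDomain NumberField MvPolynomial
open Pool.Agent.Work.MP_e97a4d_nt

variable {F₀ : Type} [Field F₀] [NumberField F₀]

/-! ### Renaming the variables -/

theorem quadI_rename (σ : F₀ →+* ℂ) {ι κ : Type} [DecidableEq (MvPolynomial κ (𝓞 F₀))]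
    (f : ι ≃ κ) (E : Finset (MvPolynomial ι (𝓞 F₀)))
    (i₀ : ι) : QuadI σ (E.image (rename f)) (f i₀) ↔ QuadI σ E i₀ := by
  constructor
  · intro h x hx hne hE z
    have h1 := h (fun k => x (f.symm k)) (fun k => hx _) (by
      obtain ⟨i, a, b, hab⟩ := hne
      exact ⟨f i, a, b, by rw [Equiv.symm_apply_apply]; exact hab⟩) (by
      intro e he z
      rw [Finset.mem_image] at he
      obtain ⟨e, he, rfl⟩ := he
      rw [eval₂_rename]
      have : (fun i => x (f.symm i) z) ∘ f = fun i => x i z := by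
        funext i
        simp
      rw [this]
      exact hE e he z) z
    rw [Equiv.symm_apply_apply] at h1
    exact h1
  · intro h x hx hne hE z
    refine h (fun i => x (f i)) (fun i => hx _) (by
      obtain ⟨k, a, b, hab⟩ := hne
      exact ⟨f.symm k, a, b, by rw [Equiv.apply_symm_apply]; exact hab⟩) (by
      intro e he z
      have h1 := hE (rename f e) (Finset.mem_image_of_mem _ he) z
      rw [eval₂_rename] at h1
      exact h1) z

theorem quadII_rename {ι κ : Type} [DecidableEq (MvPolynomial κ (𝓞 F₀))] (f : ι ≃ κ)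
    (E : Finset (MvPolynomial ι (𝓞 F₀)))
    (i₀ : ι) : QuadII (E.image (rename f)) (f i₀) ↔ QuadII E i₀ := by
  constructor
  · intro h F _ _ _ S
    refine Set.Finite.of_finite_image (f := fun x : ι → SInt F S => fun k => x (f.symm k))
      ((h F S).subset ?_) ?_
    · rintro _ ⟨x, ⟨hx1, hx2⟩, rfl⟩
      refine ⟨?_, ?_⟩
      · intro e he
        rw [Finset.mem_image] at he
        obtain ⟨e, he, rfl⟩ := he
        rw [eval₂_rename]
        have : (fun k => x (f.symm k)) ∘ f = x := by
          funext i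
          simp
        rw [this]
        exact hx1 e he
      · show x (f.symm (f i₀)) ≠ 0
        rw [Equiv.symm_apply_apply]
        exact hx2
    · intro x _ y _ hxy
      funext i
      have := congrFun hxy (f i)
      simpa using this
  · intro h F _ _ _ S
    refine Set.Finite.of_finite_image (f := fun x : κ → SInt F S => fun i => x (f i))
      ((h F S).subset ?_) ?_
    · rintro _ ⟨x, ⟨hx1, hx2⟩, rfl⟩
      refine ⟨?_, hx2⟩
      intro e he
      have h1 := hx1 (rename f e) (Finset.mem_image_of_mem _ he)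
      rw [eval₂_rename] at h1
      exact h1
    · intro x _ y _ hxy
      funext k
      have := congrFun hxy (f.symm k)
      simpa using this

theorem shape_rename {ι κ : Type} (f : ι ≃ κ) (e : MvPolynomial ι (𝓞 F₀))
    (he : e.totalDegree ≤ 1 ∨ ∃ i j k : ι, e = (X k - X i * X j : MvPolynomial ι (𝓞 F₀))) :
    (rename f e).totalDegree ≤ 1 ∨ ∃ i j k : κ, rename f e =
      (X k - X i * X j : MvPolynomial κ (𝓞 F₀)) := by
  rcases he with he | ⟨i, j, k, rfl⟩
  · exact Or.inl ((totalDegree_rename_le _ _).trans he)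
  · exact Or.inr ⟨f i, f j, f k, by simp⟩

/-! ### The affine scheme attached to a finite set of polynomials -/

section Loc

variable {ι : Type} [Finite ι] (E : Finset (MvPolynomial ι (𝓞 F₀))) (i₀ : ι)

/-- the product of all `e - 1` and `e + 1` -/
def P : MvPolynomial ι (𝓞 F₀) := ∏ e ∈ E, ((e - 1) * (e + 1))

/-- the coordinate ring of the complement -/
abbrev Loc : Type := Localization.Away (P E)

/-- the structure map -/
def str : 𝓞 F₀ →+* Loc E := (algebraMap (MvPolynomial ι (𝓞 F₀)) (Loc E)).comp C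

theorem str_finiteType : (str E).FiniteType := by
  have h1 : (C : 𝓞 F₀ →+* MvPolynomial ι (𝓞 F₀)).FiniteType := by
    rw [← MvPolynomial.algebraMap_eq, RingHom.finiteType_algebraMap]
    infer_instance
  have h2 : (algebraMap (MvPolynomial ι (𝓞 F₀)) (Loc E)).FiniteType :=
    RingHom.finiteType_holdsForLocalizationAway _ (P E)
  exact h2.comp h1

theorem isUnit_eval_P {B : Type} [CommRing B] (ρ : 𝓞 F₀ →+* B) (x : ι → B) :
    IsUnit (eval₂ ρ x (P E)) ↔ ∀ e ∈ E, IsUnit (eval₂ ρ x e - 1) ∧ IsUnit (eval₂ ρ x e + 1) := by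
  have h : eval₂ ρ x (P E) = ∏ e ∈ E, ((eval₂ ρ x e - 1) * (eval₂ ρ x e + 1)) := by
    unfold P
    rw [← coe_eval₂Hom, map_prod]
    refine Finset.prod_congr rfl fun e _ => ?_
    rw [map_mul, map_sub, map_add, map_one]
  rw [h, IsUnit.prod_iff]
  refine forall_congr' fun e => forall_congr' fun _ => ?_
  exact IsUnit.mul_iff

/-- homomorphisms out of the coordinate ring of the complement -/
theorem exists_loc_hom {B : Type} [CommRing B] (ρ : 𝓞 F₀ →+* B) (x : ι → B)
    (hx : ∀ e ∈ E, IsUnit (eval₂ ρ x e - 1) ∧ IsUnit (eval₂ ρ x e + 1)) :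
    ∃ g : Loc E →+* B, g.comp (str E) = ρ ∧ ∀ p : MvPolynomial ι (𝓞 F₀), g (algebraMap _ _ p) = eval₂ ρ x p := by
  have hu : IsUnit (eval₂Hom ρ x (P E)) := (isUnit_eval_P E ρ x).2 hx
  refine ⟨IsLocalization.Away.lift (P E) hu, ?_, ?_⟩
  · refine RingHom.ext fun r => ?_
    unfold str
    rw [RingHom.comp_apply, RingHom.comp_apply, IsLocalization.Away.lift_eq, coe_eval₂Hom, eval₂_C]
  · intro p
    rw [IsLocalization.Away.lift_eq]
    rfl

theorem loc_hom_eval {B : Type} [CommRing B] (ρ : 𝓞 F₀ →+* B) (g : Loc E →+* B)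
    (hg : g.comp (str E) = ρ) (p : MvPolynomial ι (𝓞 F₀)) :
    g (algebraMap _ _ p) =
      eval₂ ρ (fun i => g (algebraMap (MvPolynomial ι (𝓞 F₀)) _ (X i))) p := by
  have h : g.comp (algebraMap (MvPolynomial ι (𝓞 F₀)) (Loc E)) =
      eval₂Hom ρ (fun i => g (algebraMap (MvPolynomial ι (𝓞 F₀)) _ (X i))) := by
    apply MvPolynomial.ringHom_ext
    · intro r
      rw [RingHom.comp_apply, coe_eval₂Hom, eval₂_C, ← hg]
      rfl
    · intro i
      rw [RingHom.comp_apply, coe_eval₂Hom, eval₂_X]
  exact RingHom.congr_fun h p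

theorem loc_hom_units {B : Type} [CommRing B] (ρ : 𝓞 F₀ →+* B) (g : Loc E →+* B)
    (hg : g.comp (str E) = ρ) : ∀ e ∈ E,
      IsUnit (eval₂ ρ (fun i => g (algebraMap (MvPolynomial ι (𝓞 F₀)) _ (X i))) e - 1) ∧
      IsUnit (eval₂ ρ (fun i => g (algebraMap (MvPolynomial ι (𝓞 F₀)) _ (X i))) e + 1) := by
  rw [← isUnit_eval_P, ← loc_hom_eval E ρ g hg]
  exact (IsLocalization.Away.algebraMap_isUnit (P E)).map g

/-- an element of the localisation is determined by polynomials -/
theorem loc_hom_ext {B : Type} [CommRing B] (g g' : Loc E →+* B)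
    (h : ∀ p, g (algebraMap (MvPolynomial ι (𝓞 F₀)) _ p) = g' (algebraMap _ _ p)) : g = g' :=
  IsLocalization.ringHom_ext (Submonoid.powers (P E)) (RingHom.ext h)

theorem isUnit_entire (f : entireFun) (hf : ∀ z, (f : ℂ → ℂ) z ≠ 0) : IsUnit f := by
  refine IsUnit.of_mul_eq_one (⟨fun z => ((f : ℂ → ℂ) z)⁻¹, (entire_diff f).inv hf⟩ : entireFun) ?_
  apply Subtype.ext
  funext z
  exact mul_inv_cancel₀ (hf z)

theorem good_loc_iff_I (σ : F₀ →+* ℂ) :
    Good (ThE F₀ σ) (str E) ⊥ (algebraMap (MvPolynomial ι (𝓞 F₀)) _ (X i₀)) ↔ QuadI σ E i₀ := by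
  rw [goodE_iff]
  constructor
  · intro hgood x hx hne hE z
    by_contra hz0
    let x' : ι → entireFun := fun i => ⟨x i, hx i⟩
    have hev : ∀ z p, evE z (eval₂ (constE.comp (σ.comp (algebraMap (𝓞 F₀) F₀))) x' p) =
        eval₂ (σ.comp (algebraMap (𝓞 F₀) F₀)) (fun i => x i z) p := fun z p => evE_eval₂ σ x' p z
    obtain ⟨g, hg1, hg2⟩ := exists_loc_hom E
      (constE.comp (σ.comp (algebraMap (𝓞 F₀) F₀))) x' (by
        intro e he
        constructor
        · apply isUnit_entire
          intro z h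
          apply (hE e he z).1
          rw [← hev]
          have h1 : evE z (eval₂ (constE.comp (σ.comp (algebraMap (𝓞 F₀) F₀))) x' e - 1) = 0 := h
          rw [map_sub, map_one, sub_eq_zero] at h1
          exact h1
        · apply isUnit_entire
          intro z h
          apply (hE e he z).2
          rw [← hev]
          have h1 : evE z (eval₂ (constE.comp (σ.comp (algebraMap (𝓞 F₀) F₀))) x' e + 1) = 0 := h
          rw [map_add, map_one] at h1
          exact eq_neg_of_add_eq_zero_left h1)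
    have hall := hgood g hg1 (fun a ha => by rw [(Ideal.mem_bot).1 ha, map_zero]) (by
      rw [hg2, eval₂_X]
      intro h
      apply hz0
      exact congrFun (congrArg Subtype.val h) z)
    obtain ⟨i, a, b, hab⟩ := hne
    apply hab
    obtain ⟨c, hc⟩ := hall (algebraMap (MvPolynomial ι (𝓞 F₀)) _ (X i))
    rw [hg2, eval₂_X] at hc
    have h1 : ∀ z, x i z = c := fun z => (congrFun (congrArg Subtype.val hc) z).symm
    rw [h1, h1]
  · intro hQ g hg1 _ hg3
    let x' : ι → entireFun := fun i => g (algebraMap (MvPolynomial ι (𝓞 F₀)) _ (X i))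
    have hunits := loc_hom_units E _ g hg1
    have hunit_ne : ∀ u : entireFun, IsUnit u → ∀ z, evE z u ≠ 0 := fun u hu z =>
      (hu.map (evE z)).ne_zero
    by_cases hne : ∃ (i : ι) (z w : ℂ), (x' i : ℂ → ℂ) z ≠ (x' i : ℂ → ℂ) w
    · exfalso
      apply hg3
      apply entire_ext
      intro z
      rw [map_zero]
      exact hQ (fun i => (x' i : ℂ → ℂ)) (fun i => entire_diff (x' i)) hne (by
        intro e he w
        rw [← evE_eval₂ σ x' e w]
        constructor
        · intro h
          apply hunit_ne _ (hunits e he).1 w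
          rw [map_sub, map_one, sub_eq_zero]
          exact h
        · intro h
          apply hunit_ne _ (hunits e he).2 w
          rw [map_add, map_one]
          have h2 : evE w (eval₂ (constE.comp (σ.comp (algebraMap (𝓞 F₀) F₀))) x' e) = -1 := h
          show evE w (eval₂ (constE.comp (σ.comp (algebraMap (𝓞 F₀) F₀))) x' e) + 1 = 0
          rw [h2]
          ring) z
    · push Not at hne
      -- `g` followed by evaluations does not depend on the point
      have hind : ∀ z, (evE z).comp g = (evE 0).comp g := by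
        intro z
        apply loc_hom_ext
        intro p
        rw [RingHom.comp_apply, RingHom.comp_apply, loc_hom_eval E _ g hg1, evE_eval₂, evE_eval₂]
        congr 1
        funext i
        exact hne i z 0
      intro a
      refine ⟨evE 0 (g a), ?_⟩
      apply entire_ext
      intro z
      exact (RingHom.congr_fun (hind z) a).symm

theorem good_loc_iff_II :
    Good (ThS F₀) (str E) ⊥ (algebraMap (MvPolynomial ι (𝓞 F₀)) _ (X i₀)) ↔ QuadII E i₀ := by
  rw [goodS_iff]
  constructor
  · intro hgood F _ _ _ S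
    have hex : ∀ x : {x : ι → SInt F S | (∀ e ∈ E, IsUnit (eval₂ (structHom F₀ F S) x e - 1) ∧
        IsUnit (eval₂ (structHom F₀ F S) x e + 1)) ∧ x i₀ ≠ 0}, ∃ g : Loc E →+* SInt F S,
          g.comp (str E) = structHom F₀ F S ∧
          ∀ p : MvPolynomial ι (𝓞 F₀), g (algebraMap _ _ p) = eval₂ (structHom F₀ F S) x.1 p :=
      fun x => exists_loc_hom E (structHom F₀ F S) x.1 x.2.1
    choose g hg1 hg2 using hex
    have hmem : ∀ x, g x ∈ {g : Loc E →+* SInt F S | g.comp (str E) = structHom F₀ F S ∧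
        (∀ a ∈ (⊥ : Ideal (Loc E)), g a = 0) ∧
        g (algebraMap (MvPolynomial ι (𝓞 F₀)) _ (X i₀)) ≠ 0} := by
      intro x
      refine ⟨hg1 x, fun a ha => by rw [(Ideal.mem_bot).1 ha, map_zero], ?_⟩
      rw [hg2, eval₂_X]
      exact x.2.2
    have hfin := (hgood F S).to_subtype
    have : Finite {x : ι → SInt F S | (∀ e ∈ E, IsUnit (eval₂ (structHom F₀ F S) x e - 1) ∧
        IsUnit (eval₂ (structHom F₀ F S) x e + 1)) ∧ x i₀ ≠ 0} :=
      Finite.of_injective (fun x => (⟨g x, hmem x⟩ : {g : Loc E →+* SInt F S |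
        g.comp (str E) = structHom F₀ F S ∧ (∀ a ∈ (⊥ : Ideal (Loc E)), g a = 0) ∧
        g (algebraMap (MvPolynomial ι (𝓞 F₀)) _ (X i₀)) ≠ 0})) (by
        intro x y hxy
        apply Subtype.ext
        funext i
        have h1 := hg2 x (X i)
        have h2 := hg2 y (X i)
        rw [eval₂_X] at h1 h2
        rw [← h1, ← h2]
        exact RingHom.congr_fun (congrArg Subtype.val hxy) _)
    exact Set.toFinite _
  · intro hQ F _ _ _ S
    refine Set.Finite.of_finite_image (f := fun g : Loc E →+* SInt F S => fun i =>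
      g (algebraMap (MvPolynomial ι (𝓞 F₀)) _ (X i))) ((hQ F S).subset ?_) ?_
    · rintro _ ⟨g, ⟨hg1, -, hg3⟩, rfl⟩
      exact ⟨loc_hom_units E _ g hg1, hg3⟩
    · rintro g ⟨hg1, -, -⟩ g' ⟨hg1', -, -⟩ hgg
      apply loc_hom_ext
      intro p
      rw [loc_hom_eval E _ g hg1, loc_hom_eval E _ g' hg1']
      congr 1

end Loc

end Pool.Agent.Work.MP_e97a4d_nt.Quad
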