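import Mathlib
import Pool.Agent.Work.MP_e97a4d_nt.Quad3

set_option autoImplicit false
set_option linter.unusedSectionVars false

noncomputable section

namespace Pool.Agent.Work.MP_e97a4d_nt.Quad

open scoped BigOperators
open AlgebraicGeometry CategoryTheory CategoryTheory.Limits
open IsDedekindDomain NumberField MvPolynomial
open Pool.Agent.Work.MP_e97a4d_nt

variable {F₀ : Type} [Field F₀] [NumberField F₀]

/-- the closed subscheme of an affine scheme given by one element -/
theorem quotient_factors {A : Type} [CommRing A] (q : A) (R : Type) [CommRing R] (φ : A →+* R) :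
    (∃ p : Spec (CommRingCat.of R) ⟶ Spec (CommRingCat.of (A ⧸ Ideal.span {q})),
      p ≫ Spec.map (CommRingCat.ofHom (Ideal.Quotient.mk (Ideal.span {q}))) =
        Spec.map (CommRingCat.ofHom φ) ≫ 𝟙 (Spec (CommRingCat.of A))) ↔
      ∀ a ∈ Ideal.span (({q} : Finset A) : Set A), φ a = 0 := by
  rw [Category.comp_id, Finset.coe_singleton]
  constructor
  · rintro ⟨p, hp⟩ a ha
    obtain ⟨θ, hθ⟩ := Spec.map_surjective p
    rw [← hθ, ← Spec.map_comp] at hp
    have h2 := Spec.map_injective hp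
    have h3 : φ a = θ.hom (Ideal.Quotient.mk _ a) := by
      have := congrArg CommRingCat.Hom.hom h2
      have := RingHom.congr_fun this a
      simpa using this.symm
    rw [h3, Ideal.Quotient.eq_zero_iff_mem.2 ha, map_zero]
  · intro h
    refine ⟨Spec.map (CommRingCat.ofHom (Ideal.Quotient.lift _ φ h)), ?_⟩
    rw [← Spec.map_comp]
    congr 1

/-- From the equivalence for affine schemes to the equivalence for complements. -/
theorem quad_of_affine (σ : F₀ →+* ℂ)
    (h : ∀ (V V' : Scheme.{0}) [IsAffine V] (π : V ⟶ Spec (CommRingCat.of (𝓞 F₀)))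
      [LocallyOfFiniteType π] (i : V' ⟶ V) [IsClosedImmersion i], CondI σ π i ↔ CondII π i)
    {ι : Type} [Finite ι] (E : Finset (MvPolynomial ι (𝓞 F₀))) (i₀ : ι) :
    QuadI σ E i₀ ↔ QuadII E i₀ := by
  let q : Loc E := algebraMap (MvPolynomial ι (𝓞 F₀)) _ (X i₀)
  let π : Spec (CommRingCat.of (Loc E)) ⟶ Spec (CommRingCat.of (𝓞 F₀)) :=
    Spec.map (CommRingCat.ofHom (str E))
  let i : Spec (CommRingCat.of (Loc E ⧸ Ideal.span {q})) ⟶ Spec (CommRingCat.of (Loc E)) :=
    Spec.map (CommRingCat.ofHom (Ideal.Quotient.mk (Ideal.span {q})))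
  have hft : LocallyOfFiniteType π := by
    rw [HasRingHomProperty.Spec_iff (P := @LocallyOfFiniteType)]
    exact str_finiteType E
  have hcl : IsClosedImmersion i :=
    IsClosedImmersion.spec_of_surjective _ Ideal.Quotient.mk_surjective
  have hmain := h _ _ π i
  have hα : 𝟙 (Spec (CommRingCat.of (Loc E))) ≫ π = Spec.map (CommRingCat.ofHom (str E)) :=
    Category.id_comp _
  have hI : ∀ (R : Type) [CommRing R] (φ : (CommRingCat.of (Loc E)) →+* R),
      (∃ p : Spec (CommRingCat.of R) ⟶ Spec (CommRingCat.of (Loc E ⧸ Ideal.span {q})),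
        p ≫ i = Spec.map (CommRingCat.ofHom φ) ≫ 𝟙 (Spec (CommRingCat.of (Loc E)))) ↔
        ∀ a ∈ Ideal.span (({q} : Finset (Loc E)) : Set (Loc E)), φ a = 0 :=
    fun R _ φ => quotient_factors q R φ
  have hI' := condI_iff σ π i (A := CommRingCat.of (Loc E)) (𝟙 _) (str E) hα {q} hI
  have hII' := condII_iff π i (A := CommRingCat.of (Loc E)) (𝟙 _) (str E) hα {q} hI
  have h1 : CondI σ π i ↔ QuadI σ E i₀ := by
    rw [hI', ← good_loc_iff_I E i₀ σ]
    constructor
    · intro h; exact h q (Finset.mem_singleton_self _)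
    · intro h q' hq'
      rw [Finset.mem_singleton] at hq'
      subst hq'; exact h
  have h2 : CondII π i ↔ QuadII E i₀ := by
    rw [hII', ← good_loc_iff_II E i₀]
    constructor
    · intro h; exact h q (Finset.mem_singleton_self _)
    · intro h q' hq'
      rw [Finset.mem_singleton] at hq'
      subst hq'; exact h
  rw [← h1, ← h2]
  exact hmain

/-- From the equivalence for complements to the equivalence for affine schemes. -/
theorem affine_of_quad (σ : F₀ →+* ℂ)
    (hQ : ∀ (N : ℕ) (E : Finset (MvPolynomial (Fin N) (𝓞 F₀))) (i₀ : Fin N),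
      (∀ e ∈ E, e.totalDegree ≤ 1 ∨
        ∃ i j k : Fin N, e = (X k - X i * X j : MvPolynomial (Fin N) (𝓞 F₀))) →
      (QuadI σ E i₀ ↔ QuadII E i₀))
    {V V' : Scheme.{0}} [IsAffine V] (π : V ⟶ Spec (CommRingCat.of (𝓞 F₀)))
    [LocallyOfFiniteType π] (i : V' ⟶ V) [IsClosedImmersion i] : CondI σ π i ↔ CondII π i := by
  classical
  have hQ' : ∀ (ι : Type) [Fintype ι] (E : Finset (MvPolynomial ι (𝓞 F₀))) (i₀ : ι),
      (∀ e ∈ E, e.totalDegree ≤ 1 ∨ ∃ i j k : ι, e = (X k - X i * X j : MvPolynomial ι (𝓞 F₀))) →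
      (QuadI σ E i₀ ↔ QuadII E i₀) := by
    intro ι _ E i₀ hE
    let f := Fintype.equivFin ι
    have h := hQ _ (E.image (rename f)) (f i₀) (by
      intro e he
      rw [Finset.mem_image] at he
      obtain ⟨e, he, rfl⟩ := he
      exact shape_rename f e (hE e he))
    rwa [quadI_rename, quadII_rename] at h
  have hU : UnitFin F₀ := by
    apply unitFin_of_quad
    refine (hQ' Unit {X ()} () ?_).1 (quadI_unit σ)
    intro e he
    rw [Finset.mem_singleton] at he
    subst he
    exact Or.inl (totalDegree_X _).le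
  let j : Spec Γ(V, ⊤) ⟶ V := V.isoSpec.inv
  obtain ⟨α', hα'⟩ := Spec.map_surjective (j ≫ π)
  let α : 𝓞 F₀ →+* Γ(V, ⊤) := α'.hom
  have hα : j ≫ π = Spec.map (CommRingCat.ofHom α) := by rw [← hα']; rfl
  have hft : LocallyOfFiniteType (Spec.map (CommRingCat.ofHom α)) := by
    rw [← hα]; infer_instance
  have hft' : α.FiniteType := by
    rw [HasRingHomProperty.Spec_iff (P := @LocallyOfFiniteType)] at hft
    exact hft
  have hnoeth : IsNoetherianRing Γ(V, ⊤) := by
    let _ : Algebra (𝓞 F₀) Γ(V, ⊤) := α.toAlgebra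
    have : Algebra.FiniteType (𝓞 F₀) Γ(V, ⊤) := hft'
    exact Algebra.FiniteType.isNoetherianRing (𝓞 F₀) _
  obtain ⟨I, hI⟩ := exists_ideal_chart i j
  obtain ⟨G, hG⟩ := (isNoetherianRing_iff_ideal_fg _).1 hnoeth I
  rw [← hG] at hI
  rw [condI_iff σ π i j α hα G hI, condII_iff π i j α hα G hI]
  refine forall_congr' fun q => forall_congr' fun _ => ?_
  obtain ⟨ι, _, E, i₀, hE, h1, h2⟩ := exists_encoding α hft' q
  rw [h1 σ, h2 hU]
  exact hQ' ι E i₀ hE

end Pool.Agent.Work.MP_e97a4d_nt.Quad
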