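import Mathlib
import Pool.Agent.Work.MP_e97a4d_nt.Quad4
import Pool.Agent.Work.SUnit.Main

/-!
One complement of quadrics for every affine pair: several equations for `V'` are combined into one
with the help of a parameter `t` with `t - 1` and `t + 1` invertible.
-/

set_option autoImplicit false
set_option linter.unusedSectionVars false

noncomputable section

namespace Pool.Agent.Work.MP_e97a4d_nt.Quad

open scoped BigOperators
open AlgebraicGeometry CategoryTheory CategoryTheory.Limits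
open IsDedekindDomain NumberField
open Pool.Agent.Work.MP_e97a4d_nt

variable {F₀ : Type} [Field F₀] [NumberField F₀]

theorem unitFin : UnitFin F₀ := by
  intro F _ _ _ S
  have h := Pool.Agent.Work.SUnit.finite_unit_add F S 2 two_ne_zero
  refine Set.Finite.of_finite_image (f := fun t : SInt F S => t - 1) (h.subset ?_) ?_
  · rintro _ ⟨t, ⟨h1, h2⟩, rfl⟩
    refine ⟨h1, ?_⟩
    have : t - 1 + ((2 : ℤ) : SInt F S) = t + 1 := by
      push_cast
      ring
    rw [this]
    exact h2
  · intro t _ t' _ htt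
    exact sub_left_injective htt

section

variable {A : Type} [CommRing A] (α : 𝓞 F₀ →+* A) {r : ℕ} (qs : Fin r → A)

/-- the combined equation -/
def comb : Polynomial A := ∑ k : Fin r, Polynomial.C (qs k) * Polynomial.X ^ (k : ℕ)

theorem comb_coeff (k : Fin r) : (comb qs).coeff k = qs k := by
  unfold comb
  rw [Polynomial.finsetSum_coeff, Finset.sum_eq_single k]
  · simp
  · intro j _ hj
    rw [Polynomial.coeff_C_mul, Polynomial.coeff_X_pow, if_neg, mul_zero]
    intro h
    exact hj (Fin.ext h.symm)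
  · intro h
    exact absurd (Finset.mem_univ _) h

theorem comb_degree : (comb qs).degree < r := by
  unfold comb
  rw [← Polynomial.mem_degreeLT]
  refine Submodule.sum_mem _ fun k _ => ?_
  rw [Polynomial.mem_degreeLT]
  refine lt_of_le_of_lt (Polynomial.degree_C_mul_X_pow_le _ _) ?_
  exact_mod_cast k.2

theorem comb_map {B : Type} [CommRing B] (g : A →+* B) :
    (comb qs).map g = comb fun k => g (qs k) := by
  unfold comb
  rw [Polynomial.map_sum]
  refine Finset.sum_congr rfl fun k _ => ?_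
  rw [Polynomial.map_mul, Polynomial.map_C, Polynomial.map_pow, Polynomial.map_X]

theorem comb_eval_ne {B : Type} [CommRing B] [IsDomain B] (g : A →+* B) (k : Fin r)
    (hk : g (qs k) ≠ 0) (t : Fin r → B) (ht : Function.Injective t) :
    ∃ j, (comb qs).eval₂ g (t j) ≠ 0 := by
  by_contra hcon
  push Not at hcon
  have h0 : (comb fun k => g (qs k)) = 0 := by
    refine Polynomial.eq_zero_of_degree_lt_of_eval_index_eq_zero (v := t) Finset.univ
      ht.injOn ?_ ?_
    · rw [Finset.card_univ, Fintype.card_fin]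
      exact comb_degree _
    · intro j _
      rw [← comb_map, Polynomial.eval_map]
      exact hcon j
  have h1 := comb_coeff (fun k => g (qs k)) k
  rw [h0, Polynomial.coeff_zero] at h1
  exact hk h1.symm

/-- the ring of `Spec A × (A¹ - {1, -1})` -/
abbrev Ext (A : Type) [CommRing A] : Type :=
  Localization.Away ((Polynomial.X ^ 2 - 1 : Polynomial A))

/-- the structure homomorphism -/
def extStr : 𝓞 F₀ →+* Ext A :=
  (algebraMap (Polynomial A) (Ext A)).comp (Polynomial.C.comp α)

theorem extStr_finiteType (hα : α.FiniteType) : (extStr α).FiniteType := by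
  have h1 : (Polynomial.C : A →+* Polynomial A).FiniteType := by
    rw [← Polynomial.algebraMap_eq, RingHom.finiteType_algebraMap]
    infer_instance
  have h2 : (algebraMap (Polynomial A) (Ext A)).FiniteType :=
    RingHom.finiteType_holdsForLocalizationAway _ (Polynomial.X ^ 2 - 1 : Polynomial A)
  exact h2.comp (h1.comp hα)

theorem exists_ext_hom {B : Type} [CommRing B] (g : A →+* B) (t : B) (ht : IsUnit (t ^ 2 - 1)) :
    ∃ g' : Ext A →+* B, ∀ p : Polynomial A, g' (algebraMap _ _ p) = p.eval₂ g t := by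
  have hu : IsUnit (Polynomial.eval₂RingHom g t (Polynomial.X ^ 2 - 1)) := by
    rw [Polynomial.coe_eval₂RingHom, Polynomial.eval₂_sub, Polynomial.eval₂_pow,
      Polynomial.eval₂_X, Polynomial.eval₂_one]
    exact ht
  exact ⟨IsLocalization.Away.lift (Polynomial.X ^ 2 - 1 : Polynomial A) hu,
    fun p => IsLocalization.Away.lift_eq _ hu p⟩

theorem ext_hom_eval {B : Type} [CommRing B] (g' : Ext A →+* B) (p : Polynomial A) :
    g' (algebraMap _ _ p) = p.eval₂ (g'.comp ((algebraMap (Polynomial A) (Ext A)).comp Polynomial.C))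
      (g' (algebraMap (Polynomial A) (Ext A) Polynomial.X)) := by
  have h : (g'.comp (algebraMap (Polynomial A) (Ext A))) = Polynomial.eval₂RingHom
      (g'.comp ((algebraMap (Polynomial A) (Ext A)).comp Polynomial.C))
      (g' (algebraMap (Polynomial A) (Ext A) Polynomial.X)) := by
    ext a
    · simp
    · simp
  exact RingHom.congr_fun h p

theorem ext_isUnit {B : Type} [CommRing B] (g' : Ext A →+* B) :
    IsUnit (g' (algebraMap (Polynomial A) (Ext A) Polynomial.X) ^ 2 - 1) := by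
  have h1 : IsUnit (algebraMap (Polynomial A) (Ext A) (Polynomial.X ^ 2 - 1)) :=
    IsLocalization.Away.algebraMap_isUnit _
  have h2 := h1.map g'
  rwa [map_sub, map_pow, map_one, map_sub, map_pow, map_one] at h2

/-- the parameter values `2, 3, 4, ...` -/
def par (B : Type) [CommRing B] (ρ : 𝓞 F₀ →+* B) (j : Fin r) : B := ρ (((j : ℕ) + 2 : ℕ) : 𝓞 F₀)

theorem par_injective {B : Type} [CommRing B] (ρ : 𝓞 F₀ →+* B) (hρ : Function.Injective ρ) :
    Function.Injective (par (r := r) B ρ) := by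
  intro i j h
  have h1 := hρ h
  have h2 : ((i : ℕ) + 2 : ℕ) = (j : ℕ) + 2 := by exact_mod_cast h1
  exact Fin.ext (by omega)

/-- the common denominator -/
def den (F₀ : Type) [Field F₀] (r : ℕ) : 𝓞 F₀ :=
  ∏ j : Fin r, ((((j : ℕ) + 2 : ℕ) : 𝓞 F₀) ^ 2 - 1)

theorem den_ne : den F₀ r ≠ 0 := by
  unfold den
  rw [Finset.prod_ne_zero_iff]
  intro j _ h
  have h1 : ((((j : ℕ) + 2 : ℕ) : 𝓞 F₀) ^ 2) = ((1 : ℕ) : 𝓞 F₀) := by
    rw [Nat.cast_one]
    exact sub_eq_zero.1 h
  have h2 : (((j : ℕ) + 2) ^ 2 : ℕ) = 1 := by exact_mod_cast h1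
  nlinarith [Nat.zero_le (j : ℕ)]

theorem par_isUnit {B : Type} [CommRing B] (ρ : 𝓞 F₀ →+* B) (hρ : IsUnit (ρ (den F₀ r)))
    (j : Fin r) : IsUnit (par (r := r) B ρ j ^ 2 - 1) := by
  unfold den at hρ
  rw [map_prod, IsUnit.prod_iff] at hρ
  have := hρ j (Finset.mem_univ j)
  rwa [map_sub, map_pow, map_one] at this

/-- the easy direction, for any theory -/
theorem comb_good_mp (Θ : Theory (𝓞 F₀)) (h : Good Θ (extStr α) ⊥ (algebraMap _ _ (comb qs)))
    (k : Fin r) : Good Θ α ⊥ (qs k) := by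
  classical
  intro τ
  obtain ⟨τ', ι, hι, hστ, hu, hsmall⟩ := Θ.unit τ (den F₀ r) den_ne
  refine hsmall A _ ?_
  -- homomorphisms of the extended ring for the parameter values
  have hcover : ∀ g ∈ (fun g : A →+* Θ.B τ => ι.comp g) '' pts Θ τ α ⊥ (qs k),
      ∃ j : Fin r, (comb qs).eval₂ g (par (Θ.B τ') (Θ.str τ') j) ≠ 0 := by
    rintro _ ⟨g, ⟨_, _, h3⟩, rfl⟩
    refine comb_eval_ne qs (ι.comp g) k ?_ _ (par_injective _ (Θ.str_inj τ'))
    intro h4
    apply h3
    apply hι
    rw [map_zero]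
    exact h4
  have hj : ∀ j : Fin r, Θ.small τ' A {g : A →+* Θ.B τ' | g.comp α = Θ.str τ' ∧
      (comb qs).eval₂ g (par (Θ.B τ') (Θ.str τ') j) ≠ 0} := by
    intro j
    refine Θ.mono τ' A _ _ (Θ.push τ' A (Ext A)
      ((algebraMap (Polynomial A) (Ext A)).comp Polynomial.C) _ (h τ')) ?_
    rintro g ⟨h1, h2⟩
    obtain ⟨g', hg'⟩ := exists_ext_hom g (par (Θ.B τ') (Θ.str τ') j) (par_isUnit _ hu j)
    refine ⟨g', ⟨?_, ?_, ?_⟩, ?_⟩
    · rw [← h1]
      refine RingHom.ext fun a => ?_
      change g' (algebraMap _ _ (Polynomial.C (α a))) = _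
      rw [hg', Polynomial.eval₂_C]
      rfl
    · intro a ha
      rw [Ideal.mem_bot] at ha
      rw [ha, map_zero]
    · rw [hg']
      exact h2
    · refine RingHom.ext fun a => ?_
      change g' (algebraMap _ _ (Polynomial.C a)) = _
      rw [hg', Polynomial.eval₂_C]
  have hun : ∀ s : Finset (Fin r), Θ.small τ' A (⋃ j ∈ s, {g : A →+* Θ.B τ' |
      g.comp α = Θ.str τ' ∧ (comb qs).eval₂ g (par (Θ.B τ') (Θ.str τ') j) ≠ 0}) := by
    intro s
    induction s using Finset.induction_on with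
    | empty => simpa using Θ.empty τ' A
    | insert j s _ ih =>
      rw [Finset.set_biUnion_insert]
      exact Θ.union τ' A _ _ (hj j) ih
  refine Θ.mono τ' A _ _ (hun Finset.univ) ?_
  intro g hg
  obtain ⟨j, hj'⟩ := hcover g hg
  obtain ⟨g₀, ⟨h1, _, _⟩, rfl⟩ := hg
  simp only [Finset.mem_univ, Set.iUnion_true, Set.mem_iUnion]
  refine ⟨j, ?_, hj'⟩
  rw [RingHom.comp_assoc, h1, hστ]

theorem comb_good_I (σ : F₀ →+* ℂ) : (∀ k, Good (ThE F₀ σ) α ⊥ (qs k)) ↔
    Good (ThE F₀ σ) (extStr α) ⊥ (algebraMap _ _ (comb qs)) := by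
  refine ⟨fun h => ?_, fun h k => comb_good_mp α qs _ h k⟩
  rw [goodE_iff]
  intro g' hg' _ hne
  set g : A →+* entireFun := g'.comp ((algebraMap (Polynomial A) (Ext A)).comp Polynomial.C)
    with hg
  set T : entireFun := g' (algebraMap (Polynomial A) (Ext A) Polynomial.X) with hT
  -- some `g (qs k)` is not zero
  obtain ⟨k, hk⟩ : ∃ k, g (qs k) ≠ 0 := by
    by_contra hcon
    push Not at hcon
    apply hne
    rw [ext_hom_eval]
    unfold comb
    rw [Polynomial.eval₂_finsetSum]
    refine Finset.sum_eq_zero fun k _ => ?_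
    rw [Polynomial.eval₂_mul, Polynomial.eval₂_C]
    have := hcon k
    rw [hg] at this
    rw [this, zero_mul]
  have hgc : ∀ a, g a ∈ constE.range := by
    refine (goodE_iff σ α ⊥ (qs k)).1 (h k) g ?_ ?_ hk
    · rw [hg, RingHom.comp_assoc, RingHom.comp_assoc]
      exact hg'
    · intro a ha
      rw [Ideal.mem_bot] at ha
      rw [ha, map_zero]
  have hTc : T ∈ constE.range := by
    have hu : IsUnit (T ^ 2 - 1) := ext_isUnit g'
    obtain ⟨U, hU⟩ := hu.exists_right_inv
    have h1 : ∀ z, ((T : ℂ → ℂ) z ^ 2 - 1) * (U : ℂ → ℂ) z = 1 := by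
      intro z
      have := congrArg (fun f : entireFun => (f : ℂ → ℂ) z) hU
      exact this
    have h2 : ∀ z, (T : ℂ → ℂ) z ≠ 1 := by
      intro z h
      have := h1 z
      rw [h] at this
      norm_num at this
    have h3 : ∀ z, (T : ℂ → ℂ) z ≠ -1 := by
      intro z h
      have := h1 z
      rw [h] at this
      norm_num at this
    refine ⟨(T : ℂ → ℂ) 0, ?_⟩
    refine Subtype.ext (funext fun z => ?_)
    exact Picard.little_picard _ T.2 h2 h3 0 z
  intro a
  obtain ⟨⟨p, s⟩, hps⟩ := IsLocalization.surj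
    (Submonoid.powers (Polynomial.X ^ 2 - 1 : Polynomial A)) a
  have hpc : ∀ p : Polynomial A, g' (algebraMap _ _ p) ∈ constE.range := by
    intro p
    rw [ext_hom_eval, Polynomial.eval₂_eq_sum]
    refine Subring.sum_mem _ fun n _ => ?_
    exact Subring.mul_mem _ (hgc _) (Subring.pow_mem _ hTc n)
  obtain ⟨cp, hcp⟩ := hpc p
  obtain ⟨cs, hcs⟩ := hpc s
  have hsu : IsUnit (g' (algebraMap _ _ (s : Polynomial A))) :=
    (IsLocalization.map_units (Ext A) s).map g'
  have hcs0 : cs ≠ 0 := by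
    rintro rfl
    rw [← hcs, map_zero] at hsu
    exact not_isUnit_zero hsu
  refine ⟨cp / cs, ?_⟩
  have h5 : g' a * constE cs = constE cp := by
    rw [hcs, hcp, ← map_mul, hps]
  have h6 : constE (cp / cs) * constE cs = constE cp := by
    rw [← map_mul, div_mul_cancel₀ _ hcs0]
  have h7 : constE cs ≠ 0 := by
    intro h
    apply hcs0
    apply constE_injective
    rw [h, map_zero]
  exact mul_right_cancel₀ h7 (h6.trans h5.symm)

theorem comb_good_S : (∀ k, Good (ThS F₀) α ⊥ (qs k)) ↔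
    Good (ThS F₀) (extStr α) ⊥ (algebraMap _ _ (comb qs)) := by
  refine ⟨fun h => ?_, fun h k => comb_good_mp α qs _ h k⟩
  rw [goodS_iff]
  intro F _ _ _ S
  have hfin : ∀ k, {g : A →+* SInt F S | g.comp α = structHom F₀ F S ∧ (∀ a ∈ (⊥ : Ideal A), g a = 0) ∧
      g (qs k) ≠ 0}.Finite := fun k => (goodS_iff α ⊥ (qs k)).1 (h k) F S
  have hT : {t : SInt F S | IsUnit (t - 1) ∧ IsUnit (t + 1)}.Finite := unitFin (F₀ := F₀) F S
  have hun := (Set.finite_iUnion hfin).prod hT
  refine Set.Finite.of_finite_image (f := fun g' : Ext A →+* SInt F S =>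
    (g'.comp ((algebraMap (Polynomial A) (Ext A)).comp Polynomial.C),
      g' (algebraMap (Polynomial A) (Ext A) Polynomial.X))) (hun.subset ?_) ?_
  · rintro _ ⟨g', ⟨h1, _, h3⟩, rfl⟩
    refine ⟨?_, ?_⟩
    · rw [Set.mem_iUnion]
      by_contra hcon
      push Not at hcon
      apply h3
      rw [ext_hom_eval]
      unfold comb
      rw [Polynomial.eval₂_finsetSum]
      refine Finset.sum_eq_zero fun k _ => ?_
      rw [Polynomial.eval₂_mul, Polynomial.eval₂_C]
      have h4 : (g'.comp ((algebraMap (Polynomial A) (Ext A)).comp Polynomial.C)) (qs k) = 0 := by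
        by_contra h5
        refine hcon k ⟨?_, ?_, h5⟩
        · rw [RingHom.comp_assoc, RingHom.comp_assoc]
          exact h1
        · intro a ha
          rw [Ideal.mem_bot] at ha
          rw [ha, map_zero]
      rw [h4, zero_mul]
    · have hu := ext_isUnit g'
      have e : g' (algebraMap (Polynomial A) (Ext A) Polynomial.X) ^ 2 - 1 =
          (g' (algebraMap (Polynomial A) (Ext A) Polynomial.X) - 1) * (g' (algebraMap (Polynomial A) (Ext A) Polynomial.X) + 1) := by
        ring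
      rw [e, IsUnit.mul_iff] at hu
      exact hu
  · intro g' _ g'' _ hgg
    obtain ⟨h1, h2⟩ := Prod.mk.inj hgg
    refine IsLocalization.ringHom_ext
      (Submonoid.powers (Polynomial.X ^ 2 - 1 : Polynomial A)) (RingHom.ext fun p => ?_)
    rw [RingHom.comp_apply, RingHom.comp_apply, ext_hom_eval, ext_hom_eval g'', h1, h2]

end

/-- **Universality of complements of quadrics.** -/
theorem exists_quad {V V' : Scheme.{0}} [IsAffine V] (π : V ⟶ Spec (CommRingCat.of (𝓞 F₀)))
    [LocallyOfFiniteType π] (i : V' ⟶ V) [IsClosedImmersion i] :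
    ∃ (N : ℕ) (E : Finset (MvPolynomial (Fin N) (𝓞 F₀))) (i₀ : Fin N),
      (∀ e ∈ E, e.totalDegree ≤ 1 ∨ ∃ i j k : Fin N,
        e = (MvPolynomial.X k - MvPolynomial.X i * MvPolynomial.X j :
          MvPolynomial (Fin N) (𝓞 F₀))) ∧
      (∀ σ : F₀ →+* ℂ, CondI σ π i ↔ QuadI σ E i₀) ∧ (CondII π i ↔ QuadII E i₀) := by
  classical
  let j : Spec Γ(V, ⊤) ⟶ V := V.isoSpec.inv
  obtain ⟨α', hα'⟩ := Spec.map_surjective (j ≫ π)
  let α : 𝓞 F₀ →+* Γ(V, ⊤) := α'.hom
  have hα : j ≫ π = Spec.map (CommRingCat.ofHom α) := by rw [← hα']; rfl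
  have hft : LocallyOfFiniteType (Spec.map (CommRingCat.ofHom α)) := by
    rw [← hα]; infer_instance
  have hft' : α.FiniteType := by
    rw [HasRingHomProperty.Spec_iff (P := @LocallyOfFiniteType)] at hft
    exact hft
  have hnoeth : IsNoetherianRing Γ(V, ⊤) := by
    let _ : Algebra (𝓞 F₀) Γ(V, ⊤) := α.toAlgebra
    have : Algebra.FiniteType (𝓞 F₀) Γ(V, ⊤) := hft'
    exact Algebra.FiniteType.isNoetherianRing (𝓞 F₀) _
  obtain ⟨I, hI⟩ := exists_ideal_chart i j
  obtain ⟨G, hG⟩ := (isNoetherianRing_iff_ideal_fg _).1 hnoeth I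
  rw [← hG] at hI
  let qs : Fin G.card → Γ(V, ⊤) := fun k => (G.equivFin.symm k : Γ(V, ⊤))
  have hqs : ∀ (p : Γ(V, ⊤) → Prop), (∀ q ∈ G, p q) ↔ ∀ k, p (qs k) := by
    intro p
    constructor
    · intro h k
      exact h _ (G.equivFin.symm k).2
    · intro h q hq
      have := h (G.equivFin ⟨q, hq⟩)
      simpa [qs] using this
  obtain ⟨ι, _, E, i₀, hE, h1, h2⟩ := exists_encoding (extStr α) (extStr_finiteType α hft')
    (algebraMap _ _ (comb qs))
  let f := Fintype.equivFin ι
  refine ⟨_, E.image (MvPolynomial.rename f), f i₀, ?_, fun σ => ?_, ?_⟩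
  · intro e he
    rw [Finset.mem_image] at he
    obtain ⟨e, he, rfl⟩ := he
    exact shape_rename f e (hE e he)
  · rw [condI_iff σ π i j α hα G hI, quadI_rename, ← h1 σ, hqs, comb_good_I]
  · rw [condII_iff π i j α hα G hI, quadII_rename, ← h2 unitFin, hqs, comb_good_S]

/-- Complements of quadrics are affine pairs. -/
theorem exists_pair {ι : Type} [Finite ι] (E : Finset (MvPolynomial ι (𝓞 F₀))) (i₀ : ι) :
    ∃ (V V' : Scheme.{0}) (_ : IsAffine V) (π : V ⟶ Spec (CommRingCat.of (𝓞 F₀)))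
      (_ : LocallyOfFiniteType π) (i : V' ⟶ V) (_ : IsClosedImmersion i),
      (∀ σ : F₀ →+* ℂ, CondI σ π i ↔ QuadI σ E i₀) ∧ (CondII π i ↔ QuadII E i₀) := by
  let q : Loc E := algebraMap (MvPolynomial ι (𝓞 F₀)) _ (MvPolynomial.X i₀)
  let π : Spec (CommRingCat.of (Loc E)) ⟶ Spec (CommRingCat.of (𝓞 F₀)) :=
    Spec.map (CommRingCat.ofHom (str E))
  let i : Spec (CommRingCat.of (Loc E ⧸ Ideal.span {q})) ⟶ Spec (CommRingCat.of (Loc E)) :=
    Spec.map (CommRingCat.ofHom (Ideal.Quotient.mk (Ideal.span {q})))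
  have hft : LocallyOfFiniteType π := by
    rw [HasRingHomProperty.Spec_iff (P := @LocallyOfFiniteType)]
    exact str_finiteType E
  have hcl : IsClosedImmersion i :=
    IsClosedImmersion.spec_of_surjective _ Ideal.Quotient.mk_surjective
  have hα : 𝟙 (Spec (CommRingCat.of (Loc E))) ≫ π = Spec.map (CommRingCat.ofHom (str E)) :=
    Category.id_comp _
  have hI : ∀ (R : Type) [CommRing R] (φ : (CommRingCat.of (Loc E)) →+* R),
      (∃ p : Spec (CommRingCat.of R) ⟶ Spec (CommRingCat.of (Loc E ⧸ Ideal.span {q})),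
        p ≫ i = Spec.map (CommRingCat.ofHom φ) ≫ 𝟙 (Spec (CommRingCat.of (Loc E)))) ↔
        ∀ a ∈ Ideal.span (({q} : Finset (Loc E)) : Set (Loc E)), φ a = 0 :=
    fun R _ φ => quotient_factors q R φ
  refine ⟨_, _, inferInstance, π, hft, i, hcl, fun σ => ?_, ?_⟩
  · rw [condI_iff σ π i (A := CommRingCat.of (Loc E)) (𝟙 _) (str E) hα {q} hI,
      ← good_loc_iff_I E i₀ σ]
    constructor
    · intro h; exact h q (Finset.mem_singleton_self _)
    · intro h q' hq'
      rw [Finset.mem_singleton] at hq'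
      subst hq'; exact h
  · rw [condII_iff π i (A := CommRingCat.of (Loc E)) (𝟙 _) (str E) hα {q} hI,
      ← good_loc_iff_II E i₀]
    constructor
    · intro h; exact h q (Finset.mem_singleton_self _)
    · intro h q' hq'
      rw [Finset.mem_singleton] at hq'
      subst hq'; exact h

end Pool.Agent.Work.MP_e97a4d_nt.Quad
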