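import Pool.Agent.Work.MP_e97a4d_nt.ChSInt

/-!
The converse of the chain displacement theorem: bounded displacement of linear walks implies that
the images of the multiplicative group lie in `V'`.
-/

set_option autoImplicit false

noncomputable section

namespace Pool.Agent.Work.MP_e97a4d_nt.Chain

open AlgebraicGeometry CategoryTheory NumberField IsDedekindDomain

/-- a homomorphism from Laurent polynomials, in terms of its constants and the image of `T` -/
theorem laurent_hom_eq {R : Type} [CommRing R] (P : LaurentPolynomial R →+* ℂ) :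
    ∃ u : ℂˣ, (u : ℂ) = P (LaurentPolynomial.T 1) ∧
      P = (evL u).comp (AddMonoidAlgebra.mapRingHom ℤ (P.comp LaurentPolynomial.C)) := by
  have h1 : (LaurentPolynomial.T 1 : LaurentPolynomial R) * LaurentPolynomial.T (-1) = 1 := by
    rw [← LaurentPolynomial.T_add]
    simp
  let w : (LaurentPolynomial R)ˣ := ⟨LaurentPolynomial.T 1, LaurentPolynomial.T (-1), h1, by
    rw [mul_comm]; exact h1⟩
  have hw : ∀ n : ℤ, ((w ^ n : (LaurentPolynomial R)ˣ) : LaurentPolynomial R) =
      LaurentPolynomial.T n := by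
    intro n
    rcases Int.le_total 0 n with h | h
    · obtain ⟨m, rfl⟩ := Int.eq_ofNat_of_zero_le h
      rw [zpow_natCast, Units.val_pow_eq_pow_val]
      show (LaurentPolynomial.T 1 : LaurentPolynomial R) ^ m = _
      rw [LaurentPolynomial.T_pow]
      simp
    · obtain ⟨m, hm⟩ := Int.eq_ofNat_of_zero_le (a := -n) (by omega)
      have e : n = -(m : ℤ) := by omega
      rw [e, zpow_neg, zpow_natCast, ← inv_pow, Units.val_pow_eq_pow_val]
      show (LaurentPolynomial.T (-1) : LaurentPolynomial R) ^ m = _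
      rw [LaurentPolynomial.T_pow]
      simp
  refine ⟨Units.map (P : LaurentPolynomial R →* ℂ) w, rfl, ?_⟩
  refine RingHom.ext fun X => ?_
  induction X using LaurentPolynomial.induction_on' with
  | add p q hp hq => rw [map_add, map_add, hp, hq]
  | C_mul_T n a =>
    have h2 : AddMonoidAlgebra.mapRingHom ℤ (P.comp LaurentPolynomial.C)
        (LaurentPolynomial.C a * LaurentPolynomial.T n) =
        LaurentPolynomial.C ((P.comp LaurentPolynomial.C) a) * LaurentPolynomial.T n := by
      rw [← LaurentPolynomial.single_eq_C_mul_T, ← LaurentPolynomial.single_eq_C_mul_T]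
      ext k
      rw [AddMonoidAlgebra.coeff_mapRingHom]
      simp only [AddMonoidAlgebra.coeff_single, Finsupp.single_apply]
      split_ifs
      · rfl
      · simp
    rw [RingHom.comp_apply, h2, evL, LaurentPolynomial.eval₂_C_mul_T, RingHom.id_apply, map_mul,
      ← map_zpow, RingHom.comp_apply]
    congr 1
    rw [← hw n]
    rfl

variable {F₀ : Type} [Field F₀] [NumberField F₀] {V V' : Scheme.{0}}

theorem condGm_of_condIIwalk (σ : F₀ →+* ℂ)
    (π : V ⟶ Spec (CommRingCat.of (𝓞 F₀)))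
    [IsSeparated π] [LocallyOfFiniteType π] (i : V' ⟶ V) [IsClosedImmersion i]
    (h : CondIIwalk σ π i) : CondGm σ π i := by
  classical
  rintro p ⟨c, hc, ⟨w, hw⟩, u, v, huv⟩
  by_contra hp
  let _ : Algebra F₀ ℂ := σ.toAlgebra
  have hsep : V.IsSeparated := isSeparated_of_isSeparated π
  have hc' : c ≫ π = Spec.map (CommRingCat.ofHom
      ((LaurentPolynomial.C : ℂ →+* _).comp ((algebraMap F₀ ℂ).comp (algebraMap (𝓞 F₀) F₀)))) := by
    rw [hc, ← Spec.map_comp, ← CommRingCat.ofHom_comp]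
  obtain ⟨B, _, _, hB, c', hc'π, F, _, _, _, S, ψ₂, x, hx, hx2, hinf⟩ :=
    exists_family_of_curve π i c hc' u v huv w (by
      rintro ⟨p', hp'⟩
      exact hp ⟨p', by rw [hp']; exact hw⟩)
  -- the structure map of the family
  have hxstr : ∀ m, (x m).comp (algebraMap (𝓞 F₀) B) = structHom F₀ F S := by
    intro m
    have h1 : (Spec.map (CommRingCat.ofHom (x m)) ≫ c') ≫ π =
      Spec.map (CommRingCat.ofHom (structHom F₀ F S)) := hx m
    rw [Category.assoc, hc'π, ← Spec.map_comp, ← CommRingCat.ofHom_comp] at h1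
    exact congrArg CommRingCat.Hom.hom (Spec.map_injective h1)
  have hψ₂ : ∀ b : 𝓞 F₀, ψ₂ (algebraMap _ _ b) = LaurentPolynomial.C (algebraMap F₀ F b) := by
    intro b
    by_contra hne
    have h1 := laurent_finite_roots _ (sub_ne_zero.2 hne)
    refine Set.infinite_univ (h1.subset fun m _ => ?_)
    show evL (twoU F ^ m) _ = 0
    rw [map_sub, sub_eq_zero]
    have h2 := RingHom.congr_fun (hx2 m) (algebraMap (𝓞 F₀) B b)
    rw [RingHom.comp_apply, RingHom.comp_apply] at h2
    rw [← h2, ← RingHom.comp_apply (x m), hxstr, evL, LaurentPolynomial.eval₂_C]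
    rfl
  obtain ⟨S', ψ₁, hψ₁a, hψ₁⟩ := exists_integral_family F F₀ ψ₂ hψ₂
  obtain ⟨r, s, hs⟩ := exists_gens F S' F₀
  -- the embedding
  obtain ⟨τ, hτ⟩ : ∃ τ : F →+* ℂ, τ.comp (algebraMap F₀ F) = σ := by
    let f : F →ₐ[F₀] ℂ := IsAlgClosed.lift
    exact ⟨f.toRingHom, by ext a; exact f.commutes a⟩
  let y : ℕ → (Spec (CommRingCat.of (SInt F S)) ⟶ V) := fun m =>
    Spec.map (CommRingCat.ofHom (x m)) ≫ c'
  let A : CommRingCat.{0} := CommRingCat.of (LaurentPolynomial (SInt F S'))
  let ψ : 𝓞 F₀ →+* A := (LaurentPolynomial.C : SInt F S' →+* _).comp (structHom F₀ F S')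
  let j : Spec A ⟶ V := Spec.map (CommRingCat.ofHom ψ₁) ≫ c'
  have hj : j ≫ π = Spec.map (CommRingCat.ofHom ψ) := by
    show (Spec.map (CommRingCat.ofHom ψ₁) ≫ c') ≫ π = _
    rw [Category.assoc, hc'π, ← Spec.map_comp, ← CommRingCat.ofHom_comp]
    congr 2
    exact RingHom.ext hψ₁a
  -- evaluation at powers of two, for any embedding
  let Q : (F →+* ℂ) → ℕ → (A →+* ℂ) := fun τ m =>
    (evL (twoU ℂ ^ m)).comp (AddMonoidAlgebra.mapRingHom ℤ (τ.comp (algebraMap (SInt F S') F)))
  have hQ : ∀ (τ : F →+* ℂ) (m : ℕ),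
      (Q τ m).comp ψ₁ = (τ.comp (algebraMap (SInt F S) F)).comp (x m) := by
    intro τ m
    rw [RingHom.comp_assoc (x m), hx2 m]
    refine RingHom.ext fun b => ?_
    show evL (twoU ℂ ^ m) (AddMonoidAlgebra.mapRingHom ℤ (τ.comp (algebraMap (SInt F S') F))
      (ψ₁ b)) = τ (evL (twoU F ^ m) (ψ₂ b))
    rw [← evL_map, ← hψ₁]
    congr 1
    · rw [map_pow]
      have e : twoU ℂ = Units.map (τ : F →* ℂ) (twoU F) := by
        apply Units.ext
        show (2 : ℂ) = τ 2
        rw [map_ofNat]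
      rw [e]
    · ext n
      simp only [AddMonoidAlgebra.coeff_mapRingHom]
      rfl
  have hQj : ∀ (τ : F →+* ℂ) (m : ℕ), Spec.map (CommRingCat.ofHom (Q τ m)) ≫ j =
      Spec.map (CommRingCat.ofHom (τ.comp (algebraMap (SInt F S) F))) ≫ y m := by
    intro τ m
    show Spec.map (CommRingCat.ofHom (Q τ m)) ≫ Spec.map (CommRingCat.ofHom ψ₁) ≫ c' =
      Spec.map (CommRingCat.ofHom (τ.comp (algebraMap (SInt F S) F))) ≫
        Spec.map (CommRingCat.ofHom (x m)) ≫ c'
    rw [← Category.assoc, ← Category.assoc, ← Spec.map_comp, ← Spec.map_comp,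
      ← CommRingCat.ofHom_comp, ← CommRingCat.ofHom_comp, hQ]
  have hinjτ : ∀ τ : F →+* ℂ, Function.Injective (τ.comp (algebraMap (SInt F S) F)) := fun τ =>
    τ.injective.comp (fun a b h => Subtype.ext h)
  -- the points outside `V'`
  obtain ⟨m₀, hm₀⟩ : ∃ m₀, ∀ m, m₀ ≤ m → ¬ ∃ p, p ≫ i = y m := by
    obtain ⟨_, m₁, rfl, hm₁⟩ := hinf.nonempty
    obtain ⟨I, hI⟩ := exists_ideal_factors i c'
    obtain ⟨q, hqI, hq⟩ : ∃ q ∈ I, ψ₂ q ≠ 0 := by
      by_contra hcon
      push Not at hcon
      refine hm₁ ((hI _ (CommRingCat.ofHom (x m₁))).2 fun q hq => ?_)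
      have h3 := congrArg (fun f : B →+* F => f q) (hx2 m₁)
      simp only [RingHom.comp_apply] at h3
      rw [hcon q hq, map_zero] at h3
      exact Subtype.ext h3
    have hfin : {m | ∃ p, p ≫ i = y m}.Finite := by
      refine (laurent_finite_roots (ψ₂ q) hq).subset ?_
      intro m hm
      have h1 : I ≤ RingHom.ker (x m) := (hI _ (CommRingCat.ofHom (x m))).1 hm
      have h2 : x m q = 0 := h1 hqI
      have h3 := congrArg (fun f : B →+* F => f q) (hx2 m)
      simp only [RingHom.comp_apply] at h3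
      rw [h2, map_zero] at h3
      exact h3.symm
    obtain ⟨m₀, hm₀⟩ := hfin.bddAbove
    exact ⟨m₀ + 1, fun m hm hcon => by have := hm₀ hcon; omega⟩
  have hQout : ∀ m, m₀ ≤ m → Q τ m ∈ outside σ i ψ j := by
    intro m hm
    refine ⟨?_, ?_⟩
    · refine RingHom.ext fun b => ?_
      have h1 := congrArg (fun f : B →+* ℂ => f (algebraMap (𝓞 F₀) B b)) (hQ τ m)
      simp only [RingHom.comp_apply] at h1
      rw [hψ₁a, ← RingHom.comp_apply (x m), hxstr] at h1
      refine h1.trans ?_
      exact RingHom.congr_fun hτ _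
    · rw [hQj]
      intro hcon
      exact hm₀ m hm (factors_of_injective i (y m) (CommRingCat.ofHom _) (hinjτ τ) hcon)
  -- finite fibres
  have hfib : FinFib σ ψ j := by
    intro v
    have hcov : {P : A →+* ℂ | P.comp ψ = σ.comp (algebraMap (𝓞 F₀) F₀) ∧
        Spec.map (CommRingCat.ofHom P) ≫ j = v} ⊆
        ⋃ θ ∈ (Set.univ : Set (SInt F S' →+* ℂ)), {P : A →+* ℂ | P.comp LaurentPolynomial.C = θ ∧
          Spec.map (CommRingCat.ofHom P) ≫ j = v} := by
      intro P hP
      simp only [Set.mem_iUnion]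
      exact ⟨P.comp LaurentPolynomial.C, trivial, rfl, hP.2⟩
    refine ((finite_sint_hom F S').biUnion fun θ _ => ?_).subset hcov
    by_contra hinf'
    obtain ⟨τ', hτ'⟩ := exists_extend F S' θ
    let cτ : Spec (CommRingCat.of (LaurentPolynomial ℂ)) ⟶ V :=
      Spec.map (CommRingCat.ofHom (AddMonoidAlgebra.mapRingHom ℤ θ)) ≫ j
    let cv : Spec (CommRingCat.of (LaurentPolynomial ℂ)) ⟶ V :=
      Spec.map (CommRingCat.ofHom (LaurentPolynomial.C : ℂ →+* _)) ≫ v
    have hcv : ∀ u : ℂˣ, Spec.map (CommRingCat.ofHom (evL u)) ≫ cv = v := by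
      intro u
      show Spec.map (CommRingCat.ofHom (evL u)) ≫
        Spec.map (CommRingCat.ofHom (LaurentPolynomial.C : ℂ →+* _)) ≫ v = v
      rw [← Category.assoc, ← Spec.map_comp, ← CommRingCat.ofHom_comp]
      have h1 : (evL u).comp (LaurentPolynomial.C : ℂ →+* _) = RingHom.id ℂ := by
        ext r
        simp [evL]
      rw [h1, CommRingCat.ofHom_id, Spec.map_id, Category.id_comp]
    have hcτ : ∀ u : ℂˣ, Spec.map (CommRingCat.ofHom (evL u)) ≫ cτ =
        Spec.map (CommRingCat.ofHom ((evL u).comp (AddMonoidAlgebra.mapRingHom ℤ θ))) ≫ j := by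
      intro u
      show Spec.map (CommRingCat.ofHom (evL u)) ≫
        Spec.map (CommRingCat.ofHom (AddMonoidAlgebra.mapRingHom ℤ θ)) ≫ j = _
      rw [← Category.assoc, ← Spec.map_comp, ← CommRingCat.ofHom_comp]
    obtain ⟨J, hJ⟩ := exists_ideal_eq cτ cv
    have hJ0 : J ≤ ⊥ := by
      intro X hX
      by_contra hX0
      refine hinf' ?_
      refine ((laurent_finite_roots' X hX0).image (fun u : ℂˣ =>
        ((evL u).comp (AddMonoidAlgebra.mapRingHom ℤ θ) : A →+* ℂ))).subset ?_
      rintro P ⟨hP1, hP2⟩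
      obtain ⟨u, -, hu⟩ := laurent_hom_eq P
      rw [hP1] at hu
      refine ⟨u, ?_, hu.symm⟩
      refine (hJ _ (CommRingCat.ofHom (evL u))).1 ?_ hX
      rw [hcv, hcτ, ← hu]
      exact hP2
    have h1 : ∀ m, Spec.map (CommRingCat.ofHom (τ'.comp (algebraMap (SInt F S) F))) ≫ y m = v := by
      intro m
      rw [← hQj, ← hcv (twoU ℂ ^ m),
        ← (hJ _ (CommRingCat.ofHom (evL (twoU ℂ ^ m)))).2 (hJ0.trans bot_le), hcτ]
      congr 3
      show (evL (twoU ℂ ^ m)).comp (AddMonoidAlgebra.mapRingHom ℤ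
        (τ'.comp (algebraMap (SInt F S') F))) = _
      rw [hτ']
    have h2 : ∀ m m', y m = y m' := by
      intro m m'
      obtain ⟨J', hJ'⟩ := exists_ideal_eq (y m) (y m')
      have h3 := (hJ' _ (CommRingCat.ofHom (τ'.comp (algebraMap (SInt F S) F)))).1
        (by rw [h1, h1])
      have h4 : RingHom.ker (CommRingCat.ofHom (τ'.comp (algebraMap (SInt F S) F))).hom = ⊥ :=
        (RingHom.injective_iff_ker_eq_bot _).1 (hinjτ τ')
      rw [h4] at h3
      have h5 := (hJ' _ (𝟙 (CommRingCat.of (SInt F S)))).2 (h3.trans bot_le)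
      simpa using h5
    refine hinf ((Set.finite_singleton (y 0)).subset ?_)
    rintro _ ⟨m, rfl, -⟩
    exact h2 m 0
  -- the walk
  let t : Fin (2 + r) → A := Fin.append
    ![(LaurentPolynomial.T 1 : LaurentPolynomial (SInt F S')), LaurentPolynomial.T (-1)]
    (fun a => LaurentPolynomial.C (s a))
  let d : Fin (2 + r) → F := Fin.append ![2, 2⁻¹] (fun _ => 1)
  let g : Matrix (Fin (2 + r)) (Fin (2 + r)) F := Matrix.diagonal d
  obtain ⟨T, hT⟩ : ∃ T : ℝ, ∀ a b, hgt (g a b) ≤ T := by
    obtain ⟨M, hM⟩ := (Set.finite_range fun ab : Fin (2 + r) × Fin (2 + r) =>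
      hgt (g ab.1 ab.2)).bddAbove
    exact ⟨M, fun a b => hM ⟨(a, b), rfl⟩⟩
  have hQT : ∀ m (n : ℤ), Q τ m (LaurentPolynomial.T n : LaurentPolynomial (SInt F S')) =
      ((twoU ℂ ^ m) ^ n : ℂˣ) := by
    intro m n
    have h1 : AddMonoidAlgebra.mapRingHom ℤ (τ.comp (algebraMap (SInt F S') F))
        (LaurentPolynomial.T n) = LaurentPolynomial.T n := by
      ext k
      rw [AddMonoidAlgebra.coeff_mapRingHom]
      simp only [LaurentPolynomial.T_apply]
      split_ifs <;> simp
    show evL (twoU ℂ ^ m) (AddMonoidAlgebra.mapRingHom ℤ (τ.comp (algebraMap (SInt F S') F))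
        (LaurentPolynomial.T n)) = _
    rw [h1, evL, LaurentPolynomial.eval₂_T]
  have hQC : ∀ m a, Q τ m (LaurentPolynomial.C a : LaurentPolynomial (SInt F S')) =
      τ (algebraMap (SInt F S') F a) := by
    intro m a
    have h1 : AddMonoidAlgebra.mapRingHom ℤ (τ.comp (algebraMap (SInt F S') F))
        (LaurentPolynomial.C a) = LaurentPolynomial.C (τ (algebraMap (SInt F S') F a)) := by
      ext k
      rw [AddMonoidAlgebra.coeff_mapRingHom]
      simp only [LaurentPolynomial.C_apply]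
      split_ifs <;> simp
    show evL (twoU ℂ ^ m) (AddMonoidAlgebra.mapRingHom ℤ (τ.comp (algebraMap (SInt F S') F))
        (LaurentPolynomial.C a)) = _
    rw [h1, evL, LaurentPolynomial.eval₂_C]
    rfl
  have hstep : ∀ m, Step τ t T (Q τ m) (Q τ (m + 1)) := by
    intro m
    refine ⟨g, ?_, hT, ?_⟩
    · show IsUnit (Matrix.diagonal d).det
      rw [Matrix.det_diagonal, isUnit_iff_ne_zero, Finset.prod_ne_zero_iff]
      intro a _
      refine Fin.addCases (fun a => ?_) (fun a => ?_) a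
      · show Fin.append ![2, 2⁻¹] (fun _ => (1 : F)) (Fin.castAdd r a) ≠ 0
        rw [Fin.append_left]
        fin_cases a <;> simp
      · show Fin.append ![2, 2⁻¹] (fun _ => (1 : F)) (Fin.natAdd 2 a) ≠ 0
        rw [Fin.append_right]
        exact one_ne_zero
    · intro a
      have h1 : ∑ b, τ (g a b) * Q τ m (t b) = τ (d a) * Q τ m (t a) := by
        rw [Finset.sum_eq_single a]
        · show τ (Matrix.diagonal d a a) * _ = _
          rw [Matrix.diagonal_apply_eq]
        · intro b _ hb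
          show τ (Matrix.diagonal d a b) * _ = _
          rw [Matrix.diagonal_apply_ne _ (Ne.symm hb), map_zero, zero_mul]
        · intro h
          exact absurd (Finset.mem_univ a) h
      rw [h1]
      refine Fin.addCases (fun a => ?_) (fun a => ?_) a
      · show Q τ (m + 1) (Fin.append _ _ (Fin.castAdd r a)) =
          τ (Fin.append ![2, 2⁻¹] (fun _ => (1 : F)) (Fin.castAdd r a)) *
            Q τ m (Fin.append _ _ (Fin.castAdd r a))
        rw [Fin.append_left, Fin.append_left]
        fin_cases a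
        · show Q τ (m + 1) (LaurentPolynomial.T 1) = τ 2 * Q τ m (LaurentPolynomial.T 1)
          rw [hQT, hQT, map_ofNat]
          simp [pow_succ, mul_comm]
        · show Q τ (m + 1) (LaurentPolynomial.T (-1)) = τ 2⁻¹ * Q τ m (LaurentPolynomial.T (-1))
          rw [hQT, hQT, map_inv₀, map_ofNat]
          simp [pow_succ, mul_comm]
      · show Q τ (m + 1) (Fin.append _ _ (Fin.natAdd 2 a)) =
          τ (Fin.append ![2, 2⁻¹] (fun _ => (1 : F)) (Fin.natAdd 2 a)) *
            Q τ m (Fin.append _ _ (Fin.natAdd 2 a))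
        rw [Fin.append_right, Fin.append_right, map_one, one_mul, hQC, hQC]
  refine Set.infinite_of_injective_forall_mem (f := fun n : ℕ => Q τ (m₀ + n)) ?_ ?_
    (h A ψ (2 + r) t hs j hj hfib F τ T (Q τ m₀))
  · intro a b hab
    have h0 := congrArg (fun P : A →+* ℂ => P (LaurentPolynomial.T 1 :
      LaurentPolynomial (SInt F S'))) hab
    simp only [hQT] at h0
    have h1 : ((2 ^ (m₀ + a) : ℕ) : ℂ) = ((2 ^ (m₀ + b) : ℕ) : ℂ) := by
      push_cast
      simpa using h0
    have h2 := Nat.pow_right_injective le_rfl (Nat.cast_injective (R := ℂ) h1)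
    exact Nat.add_left_cancel h2
  · intro n
    exact ⟨n, fun m => Q τ (m₀ + m), rfl, rfl, fun m _ => hQout _ (by omega), fun m _ => hstep _⟩

end Pool.Agent.Work.MP_e97a4d_nt.Chain
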