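import Pool.Agent.Work.MP_e97a4d_nt.ChFix

/-!
Bounded displacement of linear walks implies the finiteness of the set of points reached by walks.
-/

set_option autoImplicit false

noncomputable section

namespace Pool.Agent.Work.MP_e97a4d_nt.Chain

open AlgebraicGeometry CategoryTheory NumberField

/-- two number fields in `ℂ` lie in a third one -/
theorem exists_compositum (F₀ K : Type) [Field F₀] [NumberField F₀] [Field K] [NumberField K]
    (σ : F₀ →+* ℂ) (ι : K →+* ℂ) :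
    ∃ (L : Type) (_ : Field L) (_ : NumberField L) (τ : F₀ →+* L) (κ : K →+* L) (ιL : L →+* ℂ),
      ιL.comp τ = σ ∧ ιL.comp κ = ι := by
  let σ' : F₀ →ₐ[ℚ] ℂ := σ.toRatAlgHom
  let ι' : K →ₐ[ℚ] ℂ := ι.toRatAlgHom
  have h1 : FiniteDimensional ℚ σ'.fieldRange :=
    Module.Finite.of_surjective σ'.rangeRestrict.toLinearMap σ'.rangeRestrict_surjective
  have h2 : FiniteDimensional ℚ ι'.fieldRange :=
    Module.Finite.of_surjective ι'.rangeRestrict.toLinearMap ι'.rangeRestrict_surjective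
  let L : IntermediateField ℚ ℂ := σ'.fieldRange ⊔ ι'.fieldRange
  have h3 : FiniteDimensional ℚ L := IntermediateField.finiteDimensional_sup _ _
  have h4 : NumberField L := { to_charZero := inferInstance, to_finiteDimensional := h3 }
  have hσ : ∀ x, σ x ∈ L := fun x => (le_sup_left : σ'.fieldRange ≤ L) ⟨x, rfl⟩
  have hι : ∀ x, ι x ∈ L := fun x => (le_sup_right : ι'.fieldRange ≤ L) ⟨x, rfl⟩
  exact ⟨L, inferInstance, h4, σ.codRestrict L.toSubfield hσ, ι.codRestrict L.toSubfield hι,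
    algebraMap L ℂ, rfl, rfl⟩

variable {F₀ : Type} [Field F₀] [NumberField F₀] {V V' : Scheme.{0}}

theorem condIIwalk_of_condWalk (C : ℕ → ℕ → ℝ) (σ : F₀ →+* ℂ)
    (π : V ⟶ Spec (CommRingCat.of (𝓞 F₀))) (i : V' ⟶ V) (h : CondWalk C σ π i) :
    CondIIwalk σ π i := by
  classical
  intro A ψ k t ht j hj hfib K _ _ ι T P
  obtain ⟨L, _, _, τ, κ, ιL, hτ, hκ⟩ := exists_compositum F₀ K σ ι
  obtain ⟨D, T₀, hcut⟩ := exists_cutOut σ ψ t
  obtain ⟨T₁, hT₁⟩ : ∃ T₁ : ℝ, ∀ g : Matrix (Fin k) (Fin k) K, (∀ a b, hgt (g a b) ≤ T) →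
      ∀ a b, hgt (κ (g a b)) ≤ T₁ := by
    have h1 : (⋃ a, ⋃ b, (fun g : Matrix (Fin k) (Fin k) K => hgt (κ (g a b))) ''
        {g | ∀ a b, hgt (g a b) ≤ T}).Finite :=
      Set.finite_iUnion fun a => Set.finite_iUnion fun b => (finite_matrices K k T).image _
    obtain ⟨T₁, hT₁⟩ := h1.bddAbove
    refine ⟨T₁, fun g hg a b => hT₁ ?_⟩
    simp only [Set.mem_iUnion]
    exact ⟨a, b, g, hg, rfl⟩
  let T' : ℝ := max 1 (max T₀ T₁)
  have hT'0 : T₀ ≤ T' := (le_max_left _ _).trans (le_max_right _ _)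
  have hT'1 : T₁ ≤ T' := (le_max_right _ _).trans (le_max_right _ _)
  have hstep : ∀ P Q : A →+* ℂ, Step ι t T P Q → Step ιL t T' P Q := by
    rintro P Q ⟨g, h1, h2, h3⟩
    refine ⟨g.map κ, ?_, fun a b => (hT₁ g h2 a b).trans hT'1, fun a => ?_⟩
    · have e : (g.map κ).det = κ g.det := (RingHom.map_det κ g).symm
      rw [e]
      exact h1.map κ
    · rw [h3 a]
      refine Finset.sum_congr rfl fun b _ => ?_
      rw [← hκ]
      rfl
  have hres : ∀ Q ∈ {Q | Joined ι σ i ψ j t T P Q}, Step ιL t (C k D * T') P Q := by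
    rintro Q ⟨N, c, h1, h2, h3, h4⟩
    exact h A ψ k t ht j hj hfib L ιL D T' (le_max_left _ _) (hcut L τ ιL hτ T' hT'0) P Q
      ⟨N, c, h1, h2, h3, fun n hn => hstep _ _ (h4 n hn)⟩
  have hover : ∀ Q ∈ {Q | Joined ι σ i ψ j t T P Q},
      Q.comp ψ = σ.comp (algebraMap (𝓞 F₀) F₀) := by
    rintro Q ⟨N, c, h1, h2, h3, h4⟩
    rw [← h2]
    exact (h3 N le_rfl).1
  refine Set.Finite.of_finite_image (f := fun Q : A →+* ℂ => fun a => Q (t a)) ?_ ?_
  · refine ((finite_matrices L k (C k D * T')).image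
      (fun g => fun a => ∑ b, ιL (g a b) * P (t b))).subset ?_
    rintro _ ⟨Q, hQ, rfl⟩
    obtain ⟨g, -, h2, h3⟩ := hres Q hQ
    exact ⟨g, h2, funext fun a => (h3 a).symm⟩
  · intro Q hQ Q' hQ' hQQ
    exact ext_gen ψ t ht ((hover Q hQ).trans (hover Q' hQ').symm) fun a => congrFun hQQ a

end Pool.Agent.Work.MP_e97a4d_nt.Chain
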