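import Pool.Agent.Work.MP_e97a4d_nt.ChDefs

/-!
Module ChOrb: linear vector fields do not raise the degree; Cayley-Hamilton bound.
-/

set_option autoImplicit false

noncomputable section

namespace Pool.Agent.Work.MP_e97a4d_nt.Chain

open MvPolynomial Module

variable {k : ℕ} {F : Type} [Field F]

theorem vf_totalDegree (X : Matrix (Fin k) (Fin k) F) (f : MvPolynomial (Fin k) F) :
    (vf X f).totalDegree ≤ f.totalDegree := by
  classical
  conv_lhs => rw [f.as_sum, map_sum]
  refine totalDegree_finsetSum_le fun s hs => ?_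
  rw [vf, mkDerivation_monomial]
  refine (totalDegree_smul_le _ _).trans ?_
  refine totalDegree_finsetSum_le fun i hi => ?_
  have h1 : s.degree ≤ f.totalDegree := by
    rw [totalDegree]
    exact Finset.le_sup (f := fun s : Fin k →₀ ℕ => s.sum fun _ e => e) hs
  change (monomial (s - Finsupp.single i 1) ((s i : ℕ) : F)
    * (∑ j, C (X i j) * MvPolynomial.X j)).totalDegree ≤ f.totalDegree
  refine (totalDegree_mul _ _).trans ?_
  have h2 : (monomial (s - Finsupp.single i 1) ((s i : ℕ) : F)).totalDegree ≤ s.degree - 1 := by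
    refine (totalDegree_monomial_le _ _).trans ?_
    have h3 : (s - Finsupp.single i 1).degree + 1 = s.degree := by
      have hle : Finsupp.single i 1 ≤ s := by
        rw [Finsupp.single_le_iff]
        exact Nat.one_le_iff_ne_zero.2 (Finsupp.mem_support_iff.1 hi)
      conv_rhs => rw [← tsub_add_cancel_of_le hle]
      rw [map_add, Finsupp.degree_single]
    have h4 : ((s - Finsupp.single i 1).sum fun _ => id) = (s - Finsupp.single i 1).degree := rfl
    rw [h4]
    omega
  have h5 : (∑ j, C (X i j) * MvPolynomial.X j : MvPolynomial (Fin k) F).totalDegree ≤ 1 := by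
    refine totalDegree_finsetSum_le fun j _ => ?_
    refine (totalDegree_mul _ _).trans ?_
    rw [totalDegree_C, totalDegree_X, zero_add]
  have h6 : 1 ≤ s.degree := by
    have : s i ≤ s.degree := Finsupp.le_degree i s
    have := Finsupp.mem_support_iff.1 hi
    omega
  omega

theorem orbit_bound {D : ℕ} (X : Matrix (Fin k) (Fin k) F) (x : Fin k → F)
    (f : MvPolynomial (Fin k) F) (hf : f.totalDegree ≤ D)
    (h : ∀ j < (D + 1) ^ k, eval x ((vf X)^[j] f) = 0) (j : ℕ) :
    eval x ((vf X)^[j] f) = 0 := by
  classical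
  let S : Set (Fin k →₀ ℕ) := {n | (n.sum fun _ e => e) ≤ D}
  let W : Submodule F (MvPolynomial (Fin k) F) := restrictTotalDegree (Fin k) F D
  have hmem : ∀ g, g ∈ W ↔ g.totalDegree ≤ D := fun g => mem_restrictTotalDegree _ _ g
  let ψ : S → (Fin k → Fin (D + 1)) := fun n i => ⟨n.1 i, by
    have h1 : n.1 i ≤ n.1.degree := Finsupp.le_degree i n.1
    have h2 : n.1.degree ≤ D := n.2
    omega⟩
  have hψ : Function.Injective ψ := by
    intro n n' hn
    apply Subtype.ext
    ext i
    have := congrFun hn i
    exact congrArg Fin.val this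
  have : Finite S := Finite.of_injective ψ hψ
  have : Fintype S := Fintype.ofFinite S
  let b : Basis S F W := basisRestrictSupport F S
  have : Module.Finite F W := Module.Finite.of_basis b
  have hfin : finrank F W ≤ (D + 1) ^ k := by
    rw [finrank_eq_card_basis b]
    refine (Fintype.card_le_of_injective ψ hψ).trans ?_
    simp
  have hmap : ∀ g ∈ W, (vf X : MvPolynomial (Fin k) F →ₗ[F] MvPolynomial (Fin k) F) g ∈ W := by
    intro g hg
    rw [hmem] at hg ⊢
    exact (vf_totalDegree X g).trans hg
  let T : W →ₗ[F] W := (vf X : MvPolynomial (Fin k) F →ₗ[F] MvPolynomial (Fin k) F).restrict hmap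
  let f0 : W := ⟨f, (hmem f).2 hf⟩
  have hT : ∀ i : ℕ, ((T ^ i) f0 : MvPolynomial (Fin k) F) = (vf X)^[i] f := by
    intro i
    induction i with
    | zero => rfl
    | succ i ih =>
      rw [pow_succ', Module.End.mul_apply, Function.iterate_succ_apply', ← ih]
      rfl
  have hmon : T.charpoly.Monic := T.charpoly_monic
  have hdeg : T.charpoly.natDegree = finrank F W := T.charpoly_natDegree
  have hmod : T ^ j = Polynomial.aeval T (Polynomial.X ^ j %ₘ T.charpoly) := by
    rw [Polynomial.modByMonic_eq_sub_mul_div, map_sub, map_mul,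
      LinearMap.aeval_self_charpoly, zero_mul, map_pow, Polynomial.aeval_X]
    exact (sub_zero (T ^ j)).symm
  have hlt : (Polynomial.X ^ j %ₘ T.charpoly).degree < (finrank F W : ℕ) := by
    rw [← hdeg, ← Polynomial.degree_eq_natDegree hmon.ne_zero]
    exact Polynomial.degree_modByMonic_lt _ hmon
  have hnat : (Polynomial.X ^ j %ₘ T.charpoly).natDegree < (D + 1) ^ k := by
    by_cases h0 : Polynomial.X ^ j %ₘ T.charpoly = 0
    · rw [h0, Polynomial.natDegree_zero]
      positivity
    · rw [Polynomial.degree_eq_natDegree h0] at hlt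
      have : (Polynomial.X ^ j %ₘ T.charpoly).natDegree < finrank F W := by exact_mod_cast hlt
      omega
  rw [← hT, hmod, Polynomial.aeval_eq_sum_range' hnat, LinearMap.sum_apply, Submodule.coe_sum,
    map_sum]
  refine Finset.sum_eq_zero fun i hi => ?_
  rw [LinearMap.smul_apply, Submodule.coe_smul, hT, smul_eval, h i (Finset.mem_range.1 hi),
    mul_zero]

end Pool.Agent.Work.MP_e97a4d_nt.Chain
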