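import Pool.Agent.Work.MP_e97a4d_nt.ChGerm
import Pool.Agent.Work.MP_e97a4d_nt.ChOrb

/-!
Module ChTrans (M, about 150 lines): transfer between sequences of complex polynomials and
polynomials over the ultrapower.

Let `R = ℕ → ℂ` (product ring), `q : R →+* Om` (`cl`; `Filter.Germ.coeRingHom`) and
`π s : R →+* ℂ` (`Pi.evalRingHom`). For a sequence `f` with all `(f s).totalDegree ≤ D` let
`Fp = ∑ m ∈ mons k D, monomial m (fun s => (f s).coeff m) : MvPolynomial (Fin k) R`; then
`map (π s) Fp = f s` and `map q Fp = germPoly D f`. `eval` and `vf` commute with ring maps: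
`map θ (vf Y F) = vf (Y.map θ) (map θ F)` (compare derivations on generators / induction over `F`),
`eval (θ ∘ x) (map θ F) = θ (eval x F)` (`MvPolynomial.eval_map`, `eval₂_comp`...).

* `germPoly_mem_IK`: `totalDegree` from the support in `mons`; coefficients by `cl_mem_GF`
  (the coefficients outside `mons` vanish); `eval = cl (fun s => eval (x s) (f s)) = 0`.
* `transfer`: choose representatives `Y s` of `X` (`Quotient.out`/`Filter.Germ.inductionOn`). For almost
  all `s`, `(Y s).mulVec (x s) ≠ 0`; as `¬ OnOrbit (E s) (x s)`, there is `f s ∈ E s` and `j s` with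
  `eval (x s) ((vf (Y s))^[j s] (f s)) ≠ 0`, and by `orbit_bound` one can take
  `j s < (D + 1) ^ k`. By the ultrafilter property (finitely many values) `j s = j` is constant for
  almost all `s`. (For the other `s` put `f s = 0`.)
-/

set_option autoImplicit false

noncomputable section

namespace Pool.Agent.Work.MP_e97a4d_nt.Chain

open MvPolynomial Module

variable {k : ℕ}

/-- the polynomial over the product ring -/
private def prodPoly (D : ℕ) (f : ℕ → MvPolynomial (Fin k) ℂ) : MvPolynomial (Fin k) (ℕ → ℂ) :=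
  ∑ m ∈ mons k D, monomial m (fun s => (f s).coeff m)

/-- the class map as a ring homomorphism -/
private def qh : (ℕ → ℂ) →+* Om := Filter.Germ.coeRingHom _

private theorem qh_apply (f : ℕ → ℂ) : qh f = cl f := rfl

private theorem map_prodPoly_q (D : ℕ) (f : ℕ → MvPolynomial (Fin k) ℂ) :
    map qh (prodPoly D f) = germPoly D f := by
  unfold prodPoly germPoly
  rw [map_sum]
  refine Finset.sum_congr rfl fun m _ => ?_
  rw [map_monomial, qh_apply]

private theorem map_prodPoly_eval (D : ℕ) (f : ℕ → MvPolynomial (Fin k) ℂ) (s : ℕ)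
    (hdeg : (f s).totalDegree ≤ D) :
    map (Pi.evalRingHom (fun _ : ℕ => ℂ) s) (prodPoly D f) = f s := by
  classical
  unfold prodPoly
  rw [map_sum]
  ext m
  rw [coeff_sum]
  simp only [map_monomial, coeff_monomial, Pi.evalRingHom_apply]
  rw [Finset.sum_ite_eq' (mons k D) m]
  split_ifs with h
  · rfl
  · rw [mem_mons] at h
    symm
    apply coeff_eq_zero_of_totalDegree_lt
    refine lt_of_le_of_lt hdeg ?_
    rw [not_le] at h
    rw [Finsupp.degree_apply] at h
    exact h

private theorem map_vf {R S : Type} [CommRing R] [CommRing S] (θ : R →+* S)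
    (Y : Matrix (Fin k) (Fin k) R) (F : MvPolynomial (Fin k) R) :
    map θ (vf Y F) = vf (Y.map θ) (map θ F) := by
  induction F using MvPolynomial.induction_on with
  | C a =>
    rw [derivation_C, map_zero, map_C, derivation_C]
  | add p q hp hq =>
    rw [map_add, map_add, map_add, map_add, hp, hq]
  | mul_X p i hp =>
    rw [Derivation.leibniz, map_mul, Derivation.leibniz, map_add]
    simp only [smul_eq_mul, map_mul, hp, map_X]
    congr 1
    unfold vf
    rw [mkDerivation_X, mkDerivation_X, map_sum]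
    congr 1
    refine Finset.sum_congr rfl fun j _ => ?_
    rw [map_mul, map_C, map_X, Matrix.map_apply]

private theorem map_vf_iter {R S : Type} [CommRing R] [CommRing S] (θ : R →+* S)
    (Y : Matrix (Fin k) (Fin k) R) (F : MvPolynomial (Fin k) R) (j : ℕ) :
    map θ ((vf Y)^[j] F) = (vf (Y.map θ))^[j] (map θ F) := by
  induction j with
  | zero => rfl
  | succ n ih => rw [Function.iterate_succ_apply', Function.iterate_succ_apply', map_vf, ih]

private theorem eval_map' {R S : Type} [CommRing R] [CommRing S] (θ : R →+* S)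
    (x : Fin k → R) (F : MvPolynomial (Fin k) R) :
    eval (fun i => θ (x i)) (map θ F) = θ (eval x F) := by
  rw [eval_map, MvPolynomial.eval₂_comp]
  rfl

/-- evaluation of the iterated derivative is componentwise -/
private theorem eval_germ {D : ℕ} (f : ℕ → MvPolynomial (Fin k) ℂ) (x : ℕ → Fin k → ℂ)
    (hdeg : ∀ s, (f s).totalDegree ≤ D) (Y : Matrix (Fin k) (Fin k) (ℕ → ℂ)) (j : ℕ) :
    eval (fun i => cl fun s => x s i) ((vf (Y.map qh))^[j] (germPoly D f)) =
      cl (fun s => eval (x s) ((vf (Y.map (Pi.evalRingHom (fun _ : ℕ => ℂ) s)))^[j] (f s))) := by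
  rw [← map_prodPoly_q, ← map_vf_iter]
  have h := eval_map' qh (fun i => fun s => x s i) ((vf Y)^[j] (prodPoly D f))
  have h' : (fun i => cl fun s => x s i) = fun i => qh (fun s => x s i) := rfl
  rw [h', h, qh_apply]
  congr 1
  funext s
  have h2 := eval_map' (Pi.evalRingHom (fun _ : ℕ => ℂ) s) (fun i => fun s => x s i)
    ((vf Y)^[j] (prodPoly D f))
  rw [map_vf_iter, map_prodPoly_eval D f s (hdeg s)] at h2
  exact h2.symm

private theorem cl_eq_zero {f : ℕ → ℂ} : cl f = 0 ↔ AE fun s => f s = 0 :=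
  Filter.Germ.coe_eq

private theorem ae_exists_lt (N : ℕ) (P : ℕ → ℕ → Prop) (h : AE fun s => ∃ j < N, P s j) :
    ∃ j, AE fun s => P s j := by
  induction N with
  | zero =>
    exfalso
    obtain ⟨s, hs⟩ := Filter.Eventually.exists h
    obtain ⟨j, hj, -⟩ := hs
    omega
  | succ n ih =>
    have h2 : ∀ᶠ s in ((Filter.hyperfilter ℕ : Ultrafilter ℕ) : Filter ℕ),
        (∃ j < n, P s j) ∨ P s n := by
      refine Filter.Eventually.mono h ?_
      rintro s ⟨j, hj, hP⟩
      rcases Nat.lt_succ_iff_lt_or_eq.1 hj with h1 | h1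
      · exact Or.inl ⟨j, h1, hP⟩
      · exact Or.inr (h1 ▸ hP)
    rcases Ultrafilter.eventually_or.1 h2 with h3 | h3
    · exact ih h3
    · exact ⟨n, h3⟩

theorem germPoly_mem_IK {H : ℕ → HField} {σ : ℕ → ℝ} (hσ : ∀ s, 1 ≤ σ s) {D : ℕ}
    (f : ℕ → MvPolynomial (Fin k) ℂ) (x : ℕ → Fin k → ℂ) (hdeg : ∀ s, (f s).totalDegree ≤ D)
    (C : ℝ) (h1 : AE fun s => ∀ m, (f s).coeff m ∈ (H s).K ∧ (H s).h ((f s).coeff m) ≤ C * σ s)
    (h2 : AE fun s => eval (x s) (f s) = 0) :
    germPoly D f ∈ IK (GF H σ hσ) D (fun i => cl fun s => x s i) := by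
  classical
  refine ⟨?_, ?_, ?_⟩
  · unfold germPoly
    refine totalDegree_finsetSum_le fun m hm => ?_
    refine (totalDegree_monomial_le _ _).trans ?_
    rw [mem_mons, Finsupp.degree_apply] at hm
    exact hm
  · intro m
    unfold germPoly
    rw [coeff_sum]
    simp only [coeff_monomial]
    rw [Finset.sum_ite_eq' (mons k D) m]
    split_ifs with h
    · rw [cl_mem_GF]
      exact ⟨C, Filter.Eventually.mono h1 fun s hs => hs m⟩
    · exact (GF H σ hσ).zero_mem
  · have h := eval_germ f x hdeg (0 : Matrix (Fin k) (Fin k) (ℕ → ℂ)) 0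
    simp only [Function.iterate_zero, id] at h
    rw [h, cl_eq_zero]
    exact h2

theorem transfer {D : ℕ} (E : ℕ → Set (MvPolynomial (Fin k) ℂ))
    (hE : ∀ s, ∀ f ∈ E s, f.totalDegree ≤ D) (x : ℕ → Fin k → ℂ)
    (h : AE fun s => ¬ OnOrbit (E s) (x s)) (X : Matrix (Fin k) (Fin k) Om)
    (hX : X.mulVec (fun i => cl fun s => x s i) ≠ 0) :
    ∃ (f : ℕ → MvPolynomial (Fin k) ℂ) (j : ℕ), (AE fun s => f s ∈ E s) ∧
      (∀ s, (f s).totalDegree ≤ D) ∧
      eval (fun i => cl fun s => x s i) ((vf X)^[j] (germPoly D f)) ≠ 0 := by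
  classical
  have hrep : ∀ a : Om, ∃ y : ℕ → ℂ, qh y = a := fun a => Quotient.exists_rep a
  choose rep hrep using hrep
  set Y : Matrix (Fin k) (Fin k) (ℕ → ℂ) := fun i j => rep (X i j) with hY
  have hYX : Y.map qh = X := by
    ext i j
    rw [Matrix.map_apply]
    exact hrep _
  let Ys : ℕ → Matrix (Fin k) (Fin k) ℂ := fun s => Y.map (Pi.evalRingHom (fun _ : ℕ => ℂ) s)
  have h1 : AE fun s => (Ys s).mulVec (x s) ≠ 0 := by
    obtain ⟨i, hi⟩ := Function.ne_iff.1 hX
    have h2 : X.mulVec (fun i => cl fun s => x s i) i = cl (fun s => (Ys s).mulVec (x s) i) := by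
      have h3 : X.mulVec (fun i => cl fun s => x s i) i =
          qh (∑ j, Y i j * (fun s => x s j)) := by
        rw [map_sum]
        unfold Matrix.mulVec dotProduct
        refine Finset.sum_congr rfl fun j _ => ?_
        rw [map_mul, ← hYX]
        rfl
      rw [h3, qh_apply]
      congr 1
      funext s
      rw [Finset.sum_apply]
      rfl
    rw [h2, Pi.zero_apply] at hi
    have h4 : ¬ AE fun s => (Ys s).mulVec (x s) i = 0 := fun h5 => hi (cl_eq_zero.2 h5)
    have h5 : AE fun s => ¬ (Ys s).mulVec (x s) i = 0 := Ultrafilter.eventually_not.2 h4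
    refine Filter.Eventually.mono h5 fun s hs h6 => hs ?_
    rw [h6, Pi.zero_apply]
  let Q : ℕ → MvPolynomial (Fin k) ℂ → ℕ → Prop := fun s g j =>
    eval (x s) ((vf (Ys s))^[j] g) ≠ 0
  have h2 : AE fun s => ∃ g ∈ E s, ∃ j < (D + 1) ^ k, Q s g j := by
    refine Filter.Eventually.mono (Filter.Eventually.and h h1) fun s hs => ?_
    obtain ⟨hs1, hs2⟩ := hs
    by_contra hcon
    push Not at hcon
    refine hs1 ⟨Ys s, hs2, fun g hg j => ?_⟩
    refine orbit_bound (Ys s) (x s) g (hE s g hg) (fun j hj => ?_) j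
    by_contra h3
    exact hcon g hg j hj h3
  let f : ℕ → MvPolynomial (Fin k) ℂ := fun s =>
    if hs : ∃ g ∈ E s, ∃ j < (D + 1) ^ k, Q s g j then hs.choose else 0
  have hf : AE fun s => f s ∈ E s ∧ ∃ j < (D + 1) ^ k, Q s (f s) j := by
    refine Filter.Eventually.mono h2 fun s hs => ?_
    have h3 : f s = hs.choose := dif_pos hs
    rw [h3]
    exact hs.choose_spec
  have hfd : ∀ s, (f s).totalDegree ≤ D := by
    intro s
    by_cases hs : ∃ g ∈ E s, ∃ j < (D + 1) ^ k, Q s g j
    · have h3 : f s = hs.choose := dif_pos hs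
      rw [h3]
      exact hE s _ hs.choose_spec.1
    · have h3 : f s = 0 := dif_neg hs
      rw [h3, totalDegree_zero]
      exact Nat.zero_le _
  obtain ⟨j, hj⟩ := ae_exists_lt ((D + 1) ^ k) (fun s j => Q s (f s) j)
    (Filter.Eventually.mono hf fun s hs => hs.2)
  refine ⟨f, j, Filter.Eventually.mono hf fun s hs => hs.1, hfd, ?_⟩
  rw [← hYX, eval_germ f x hfd Y j]
  intro h0
  rw [cl_eq_zero] at h0
  obtain ⟨s, hs1, hs2⟩ := Filter.Eventually.exists (Filter.Eventually.and h0 hj)
  exact hs2 hs1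

end Pool.Agent.Work.MP_e97a4d_nt.Chain
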