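import Pool.Agent.Work.MP_e97a4d_nt.ChAlg
import Pool.Agent.Work.MP_e97a4d_nt.ChTrans

/-!
The chain displacement theorem over an abstract field with a height.
-/

set_option autoImplicit false

noncomputable section

namespace Pool.Agent.Work.MP_e97a4d_nt.Chain

open MvPolynomial Module

variable {k D : ℕ}

/-- A chain of points which are not on linear orbits. -/
structure Cfg (k D : ℕ) where
  H : HField
  τ : ℝ
  hτ : 1 ≤ τ
  E : Set (MvPolynomial (Fin k) ℂ)
  hE : ∀ f ∈ E, f.totalDegree ≤ D ∧ ∀ m, f.coeff m ∈ H.K ∧ H.h (f.coeff m) ≤ τ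
  N : ℕ
  x : ℕ → Fin k → ℂ
  A : ℕ → Matrix (Fin k) (Fin k) ℂ
  hA : ∀ n < N, (∀ i j, A n i j ∈ H.K ∧ H.h (A n i j) ≤ τ) ∧ IsUnit (A n).det ∧
    x (n + 1) = (A n).mulVec (x n)
  hx : ∀ n ≤ N, (∀ f ∈ E, eval (x n) f = 0) ∧ ¬ OnOrbit E (x n)

/-- `x n` is the image of `x m` under a matrix of height at most `T`. -/
def Reach (c : Cfg k D) (T : ℝ) (m n : ℕ) : Prop :=
  ∃ g : Matrix (Fin k) (Fin k) ℂ, (∀ i j, g i j ∈ c.H.K ∧ c.H.h (g i j) ≤ T) ∧
    IsUnit g.det ∧ c.x n = g.mulVec (c.x m)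

theorem Reach.mono {c : Cfg k D} {T T' : ℝ} {m n : ℕ} (h : Reach c T m n) (hT : T ≤ T') :
    Reach c T' m n := by
  obtain ⟨g, h1, h2, h3⟩ := h
  exact ⟨g, fun i j => ⟨(h1 i j).1, (h1 i j).2.trans hT⟩, h2, h3⟩

theorem Reach.refl (c : Cfg k D) {T : ℝ} (hT : 0 ≤ T) (m : ℕ) : Reach c T m m := by
  refine ⟨1, fun i j => ?_, ?_, ?_⟩
  · rw [Matrix.one_apply]
    split_ifs
    · exact ⟨c.H.K.one_mem, by rw [c.H.one]; exact hT⟩
    · exact ⟨c.H.K.zero_mem, by rw [c.H.zero]; exact hT⟩
  · rw [Matrix.det_one]; exact isUnit_one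
  · rw [Matrix.one_mulVec]

theorem HField.sum_le (H : HField) {ι : Type} (s : Finset ι) (f : ι → ℂ) (hf : ∀ i ∈ s, f i ∈ H.K) :
    H.h (∑ i ∈ s, f i) ≤ ∑ i ∈ s, (H.h (f i) + 1) := by
  classical
  induction s using Finset.induction_on with
  | empty => simp [H.zero]
  | insert a s ha ih =>
    rw [Finset.sum_insert ha, Finset.sum_insert ha]
    have h1 := H.add (f a) (hf a (Finset.mem_insert_self a s)) (∑ i ∈ s, f i)
      (H.K.sum_mem fun i hi => hf i (Finset.mem_insert_of_mem hi))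
    have h2 := ih fun i hi => hf i (Finset.mem_insert_of_mem hi)
    linarith

theorem Reach.trans {c : Cfg k D} {T T' : ℝ} {m n p : ℕ} (h : Reach c T m n)
    (h' : Reach c T' n p) : Reach c (k * (T + T' + 1)) m p := by
  obtain ⟨g, h1, h2, h3⟩ := h
  obtain ⟨g', h1', h2', h3'⟩ := h'
  refine ⟨g' * g, fun i j => ?_, ?_, ?_⟩
  · rw [Matrix.mul_apply]
    have hmem : ∀ l ∈ (Finset.univ : Finset (Fin k)), g' i l * g l j ∈ c.H.K := fun l _ =>
      c.H.K.mul_mem (h1' i l).1 (h1 l j).1
    refine ⟨c.H.K.sum_mem hmem, (c.H.sum_le _ _ hmem).trans ?_⟩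
    calc ∑ l, (c.H.h (g' i l * g l j) + 1) ≤ ∑ _l : Fin k, (T + T' + 1) := by
          refine Finset.sum_le_sum fun l _ => ?_
          have := c.H.mul (g' i l) (h1' i l).1 (g l j) (h1 l j).1
          have := (h1' i l).2
          have := (h1 l j).2
          linarith
      _ = k * (T + T' + 1) := by
          rw [Finset.sum_const, Finset.card_univ, Fintype.card_fin, nsmul_eq_mul]
  · rw [Matrix.det_mul]; exact h2'.mul h2
  · rw [h3', h3, Matrix.mulVec_mulVec]

theorem Reach.step (c : Cfg k D) {n : ℕ} (hn : n < c.N) : Reach c c.τ n (n + 1) :=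
  ⟨c.A n, (c.hA n hn).1, (c.hA n hn).2.1, (c.hA n hn).2.2⟩

/-! ### germs -/

/-- the ring homomorphism from sequences to germs -/
def qh : (ℕ → ℂ) →+* Om := Filter.Germ.coeRingHom _

theorem qh_apply (f : ℕ → ℂ) : qh f = cl f := rfl

theorem cl_eq {f g : ℕ → ℂ} : cl f = cl g ↔ AE fun s => f s = g s := Filter.Germ.coe_eq

instance charZero_Om : CharZero Om where
  cast_injective := by
    intro m n h
    have h1 : qh ((m : ℕ) : ℕ → ℂ) = qh ((n : ℕ) : ℕ → ℂ) := by
      rw [map_natCast, map_natCast]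
      exact h
    have h2 : AE fun s => ((m : ℕ) : ℕ → ℂ) s = ((n : ℕ) : ℕ → ℂ) s := cl_eq.1 h1
    obtain ⟨s, hs⟩ := h2.exists
    simpa using hs

theorem exists_rep (a : Om) : ∃ f, a = cl f := by
  induction a using Filter.Germ.inductionOn with
  | h f => exact ⟨f, rfl⟩

theorem exists_rep_matrix (G : Matrix (Fin k) (Fin k) Om) :
    ∃ g : ℕ → Matrix (Fin k) (Fin k) ℂ, ∀ i j, G i j = cl fun s => g s i j := by
  choose f hf using fun i j => exists_rep (G i j)
  exact ⟨fun s i j => f i j s, hf⟩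

theorem cl_mulVec (g : ℕ → Matrix (Fin k) (Fin k) ℂ) (x : ℕ → Fin k → ℂ) (i : Fin k) :
    (Matrix.mulVec (fun i j => cl fun s => g s i j : Matrix (Fin k) (Fin k) Om)
      (fun j => cl fun s => x s j)) i = cl fun s => (g s).mulVec (x s) i := by
  have e : (fun s => (g s).mulVec (x s) i) = ∑ j, (fun s => g s i j) * fun s => x s j := by
    funext s
    simp [Matrix.mulVec, dotProduct, Finset.sum_apply]
  rw [e, ← qh_apply, map_sum]
  simp only [Matrix.mulVec, dotProduct, map_mul]
  rfl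

theorem cl_det (g : ℕ → Matrix (Fin k) (Fin k) ℂ) :
    Matrix.det (fun i j => cl fun s => g s i j : Matrix (Fin k) (Fin k) Om) =
      cl fun s => (g s).det := by
  have e : (fun s => (g s).det) =
      Matrix.det (fun i j s => g s i j : Matrix (Fin k) (Fin k) (ℕ → ℂ)) := by
    funext s
    have := RingHom.map_det (Pi.evalRingHom (fun _ : ℕ => ℂ) s)
      (fun i j s => g s i j : Matrix (Fin k) (Fin k) (ℕ → ℂ))
    rw [Pi.evalRingHom_apply] at this
    rw [this]
    rfl
  rw [e, ← qh_apply, RingHom.map_det]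
  rfl

theorem AE_of_cofinite {p : ℕ → Prop} (n₀ : ℕ) (h : ∀ s, n₀ ≤ s → p s) : AE p := by
  have h1 : ∀ᶠ s in Filter.cofinite, p s := by
    rw [Nat.cofinite_eq_atTop]
    exact Filter.eventually_atTop.2 ⟨n₀, h⟩
  exact Filter.hyperfilter_le_cofinite h1

theorem AE_not {p : ℕ → Prop} : AE (fun s => ¬ p s) ↔ ¬ AE p :=
  Ultrafilter.eventually_not

section main

variable (c : ℕ → Cfg k D)

/-- the scales -/
def sc (j : ℕ) (s : ℕ) : ℝ := (c s).τ * ((s : ℝ) + 2) ^ j

theorem one_le_base (s : ℕ) : (1 : ℝ) ≤ (s : ℝ) + 2 := by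
  have : (0 : ℝ) ≤ s := Nat.cast_nonneg s
  linarith

theorem one_le_sc (j s : ℕ) : 1 ≤ sc c j s :=
  one_le_mul_of_one_le_of_one_le (c s).hτ (one_le_pow₀ (one_le_base s))

theorem sc_mono {i j : ℕ} (h : i ≤ j) (s : ℕ) : sc c i s ≤ sc c j s :=
  mul_le_mul_of_nonneg_left (pow_le_pow_right₀ (one_le_base s) h)
    (by have := (c s).hτ; linarith)

theorem sc_succ (j s : ℕ) : sc c (j + 1) s = ((s : ℝ) + 2) * sc c j s := by
  unfold sc
  ring

/-- the fields -/
def Kf (j : ℕ) : Subfield Om := GF (fun s => (c s).H) (sc c j) (one_le_sc c j)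

/-- the point of the ultrapower -/
def xg (n : ℕ → ℕ) : Fin k → Om := fun i => cl fun s => (c s).x (n s) i

/-- far from the end of the chain -/
def Far (R : ℕ) (n : ℕ → ℕ) : Prop :=
  ∀ C : ℝ, AE fun s => ¬ Reach (c s) (C * sc c R s) (n s) (c s).N

theorem Kf_mono {i j : ℕ} (h : i ≤ j) : Kf c i ≤ Kf c j := GF_mono (sc_mono c h)

theorem far_step (hD : 1 ≤ D) {R a : ℕ} (ha : a + 1 ≤ R) (n : ℕ → ℕ) (hn : ∀ s, n s ≤ (c s).N)
    (hfar : Far c R n) (h1 : JK (Kf c a) D (xg c n) = JK (Kf c (a + 1)) D (xg c n)) :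
    ∃ n' : ℕ → ℕ, (∀ s, n' s ≤ (c s).N) ∧ Far c R n' ∧
      finrank Om (JK (Kf c a) D (xg c n')) < finrank Om (JK (Kf c a) D (xg c n)) := by
  classical
  -- the first index which is not reachable at scale `a + 1`
  let Q : ℕ → ℕ → Prop := fun s m => n s < m ∧ m ≤ (c s).N ∧ ¬ Reach (c s) (sc c (a + 1) s) (n s) m
  have hex : AE fun s => ∃ m, Q s m := by
    refine (hfar 1).mono fun s hs => ?_
    rw [one_mul] at hs
    refine ⟨(c s).N, ?_, le_rfl, fun h => hs (h.mono (sc_mono c ha s))⟩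
    rcases (hn s).lt_or_eq with h | h
    · exact h
    · exact absurd (Reach.refl (c s) (by have := one_le_sc c R s; linarith) _) (by rw [h] at hs; exact hs)
  let n' : ℕ → ℕ := fun s => if h : ∃ m, Q s m then Nat.find h else n s
  have hn'1 : AE fun s => Q s (n' s) ∧ ∀ m, m < n' s → ¬ Q s m := by
    refine hex.mono fun s hs => ?_
    have e : n' s = Nat.find hs := dif_pos hs
    rw [e]
    exact ⟨Nat.find_spec hs, fun m hm => Nat.find_min hs hm⟩
  have hn'2 : ∀ s, n' s ≤ (c s).N := by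
    intro s
    by_cases h : ∃ m, Q s m
    · have e : n' s = Nat.find h := dif_pos h
      rw [e]
      exact (Nat.find_spec h).2.1
    · have e : n' s = n s := dif_neg h
      rw [e]
      exact hn s
  -- reachable at a constant times scale `a + 1`
  have hreach : AE fun s => Reach (c s) (k * (3 * sc c (a + 1) s)) (n s) (n' s) := by
    refine hn'1.mono fun s hs => ?_
    obtain ⟨⟨h2, h3, h4⟩, h5⟩ := hs
    have h6 : Reach (c s) (sc c (a + 1) s) (n s) (n' s - 1) := by
      by_cases h7 : n' s - 1 = n s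
      · rw [h7]
        exact Reach.refl _ (by have := one_le_sc c (a + 1) s; linarith) _
      · by_contra h8
        exact h5 (n' s - 1) (by omega) ⟨by omega, by omega, h8⟩
    have h9 := h6.trans (Reach.step (c s) (n := n' s - 1) (by omega))
    have h10 : n' s - 1 + 1 = n' s := by omega
    rw [h10] at h9
    refine h9.mono ?_
    have h11 : (c s).τ ≤ sc c (a + 1) s := by
      have := sc_mono c (Nat.zero_le (a + 1)) s
      unfold sc at this
      simpa [sc] using this
    have h12 := one_le_sc c (a + 1) s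
    refine mul_le_mul_of_nonneg_left ?_ (Nat.cast_nonneg k)
    linarith
  -- far
  have hfar' : Far c R n' := by
    intro C
    rw [AE_not]
    intro hC
    have h2 := hfar (k * (k * 3 + |C| + 1))
    rw [AE_not] at h2
    apply h2
    refine (hreach.and hC).mono fun s hs => ?_
    refine (hs.1.trans hs.2).mono ?_
    have h3 := one_le_sc c R s
    have h4 := sc_mono c ha s
    have h5 := le_abs_self C
    have h6 : C * sc c R s ≤ |C| * sc c R s := mul_le_mul_of_nonneg_right h5 (by linarith)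
    have h7 : (k : ℝ) * (3 * sc c (a + 1) s) ≤ k * 3 * sc c R s := by
      rw [mul_assoc]
      exact mul_le_mul_of_nonneg_left (by linarith) (Nat.cast_nonneg k)
    calc (k : ℝ) * (k * (3 * sc c (a + 1) s) + C * sc c R s + 1)
        ≤ k * (k * 3 * sc c R s + |C| * sc c R s + 1 * sc c R s) := by
          refine mul_le_mul_of_nonneg_left ?_ (Nat.cast_nonneg k)
          linarith
      _ = k * (k * 3 + |C| + 1) * sc c R s := by ring
  refine ⟨n', hn'2, hfar', ?_⟩
  by_contra hlt
  push Not at hlt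
  -- the matrix
  have hchoice : ∃ g : ℕ → Matrix (Fin k) (Fin k) ℂ, AE fun s =>
      (∀ i j, g s i j ∈ (c s).H.K ∧ (c s).H.h (g s i j) ≤ k * (3 * sc c (a + 1) s)) ∧
      IsUnit (g s).det ∧ (c s).x (n' s) = (g s).mulVec ((c s).x (n s)) := by
    refine ⟨fun s => if h : Reach (c s) (k * (3 * sc c (a + 1) s)) (n s) (n' s) then
      Classical.choose h else 0, hreach.mono fun s hs => ?_⟩
    simp only [dif_pos hs]
    exact Classical.choose_spec hs
  obtain ⟨g, hg⟩ := hchoice
  let G : Matrix (Fin k) (Fin k) Om := fun i j => cl fun s => g s i j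
  have hG : ∀ i j, G i j ∈ Kf c (a + 1) := by
    intro i j
    refine ⟨_, k * 3, rfl, hg.mono fun s hs => ⟨(hs.1 i j).1, ?_⟩⟩
    rw [mul_assoc]
    exact (hs.1 i j).2
  have hdet : IsUnit G.det := by
    have e : G.det = cl fun s => (g s).det := cl_det g
    rw [e, isUnit_iff_ne_zero]
    intro h0
    have h2 : AE fun s => (g s).det = 0 := cl_eq.1 h0
    have h3 : AE fun s => False := (h2.and hg).mono fun s hs => hs.2.2.1.ne_zero hs.1
    exact (AE_not.1 (h3.mono fun s hs => hs.elim)) h3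
  have hxG : xg c n' = G.mulVec (xg c n) := by
    funext i
    have e : G.mulVec (xg c n) i = cl fun s => (g s).mulVec ((c s).x (n s)) i :=
      cl_mulVec g (fun s => (c s).x (n s)) i
    rw [e]
    exact cl_eq.2 (hg.mono fun s hs => by rw [hs.2.2])
  rw [hxG] at hlt
  have hclosed : ∀ b ∈ Kf c (a + 1), ∀ p : Polynomial Om, p ≠ 0 → (∀ i, p.coeff i ∈ Kf c a) →
      p.eval b = 0 → b ∈ Kf c a := fun b hb p hp hpc h0 => GF_closed b hb p hp hpc h0
  rcases alg_step (Kf_mono c (Nat.le_succ a)) hclosed hD (xg c n) hG hdet h1 hlt with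
    ⟨G₁, hG₁, hdet₁, hx₁⟩ | ⟨X, hX, hXs⟩
  · -- the displacement would be smaller
    obtain ⟨g₁, hg₁⟩ := exists_rep_matrix G₁
    have hg₁' : ∀ i j, ∃ C : ℝ, AE fun s => g₁ s i j ∈ (c s).H.K ∧
        (c s).H.h (g₁ s i j) ≤ C * sc c a s := by
      intro i j
      have h2 := hG₁ i j
      rw [hg₁ i j] at h2
      exact cl_mem_GF.1 h2
    choose C hC using hg₁'
    let C' : ℝ := ∑ i, ∑ j, |C i j|
    have hCC' : ∀ i j, C i j ≤ C' := by
      intro i j
      refine (le_abs_self _).trans ?_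
      refine (Finset.single_le_sum (f := fun j => |C i j|) (fun _ _ => abs_nonneg _)
        (Finset.mem_univ j)).trans ?_
      exact Finset.single_le_sum (f := fun i => ∑ j, |C i j|)
        (fun _ _ => Finset.sum_nonneg fun _ _ => abs_nonneg _) (Finset.mem_univ i)
    have hall : AE fun s => ∀ i j, g₁ s i j ∈ (c s).H.K ∧ (c s).H.h (g₁ s i j) ≤ C' * sc c a s := by
      have h2 : AE fun s => ∀ i, ∀ j, g₁ s i j ∈ (c s).H.K ∧
          (c s).H.h (g₁ s i j) ≤ C i j * sc c a s :=
        Filter.eventually_all.2 fun i => Filter.eventually_all.2 fun j => hC i j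
      refine h2.mono fun s hs i j => ⟨(hs i j).1, (hs i j).2.trans ?_⟩
      exact mul_le_mul_of_nonneg_right (hCC' i j) (by have := one_le_sc c a s; linarith)
    have hG₁e : G₁ = fun i j => cl fun s => g₁ s i j := by
      funext i j
      exact hg₁ i j
    have hdet' : AE fun s => (g₁ s).det ≠ 0 := by
      rw [hG₁e, cl_det] at hdet₁
      have h2 : ¬ AE fun s => (g₁ s).det = 0 := fun h => hdet₁.ne_zero (cl_eq.2 h)
      exact AE_not.2 h2
    have hx₁' : AE fun s => ∀ i, (c s).x (n' s) i = (g₁ s).mulVec ((c s).x (n s)) i := by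
      refine Filter.eventually_all.2 fun i => ?_
      have h2 := congrFun hx₁ i
      rw [← hxG, hG₁e] at h2
      have e := cl_mulVec g₁ (fun s => (c s).x (n s)) i
      have h3 : xg c n' i = cl fun s => (g₁ s).mulVec ((c s).x (n s)) i := h2.trans e
      exact cl_eq.1 h3
    have hlarge : AE fun s => C' ≤ (s : ℝ) + 2 := by
      obtain ⟨n₀, hn₀⟩ := exists_nat_ge C'
      refine AE_of_cofinite n₀ fun s hs => ?_
      have : (n₀ : ℝ) ≤ s := by exact_mod_cast hs
      linarith
    have hfalse : AE fun s => False := by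
      refine (((hall.and hdet').and (hx₁'.and hlarge)).and hn'1).mono fun s hs => ?_
      obtain ⟨⟨⟨h2, h3⟩, h4, h5⟩, ⟨-, -, h6⟩, -⟩ := hs
      apply h6
      refine ⟨g₁ s, fun i j => ⟨(h2 i j).1, (h2 i j).2.trans ?_⟩, isUnit_iff_ne_zero.2 h3,
        funext h4⟩
      rw [sc_succ]
      exact mul_le_mul_of_nonneg_right h5 (by have := one_le_sc c a s; linarith)
    exact (AE_not.1 (hfalse.mono fun s hs => hs.elim)) hfalse
  · -- a linear orbit
    rw [← hxG] at hX hXs
    obtain ⟨f, j, hf1, hf2, hf3⟩ := transfer (fun s => (c s).E) (fun s f hf => ((c s).hE f hf).1)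
      (fun s => (c s).x (n' s)) (AE_of_cofinite 0 fun s _ => ((c s).hx (n' s) (hn'2 s)).2) X hX
    apply hf3
    have hmem : germPoly D f ∈ JK (Kf c a) D (xg c n') := by
      refine JK_mono (Kf_mono c (Nat.zero_le a)) D _ (Submodule.subset_span ?_)
      refine germPoly_mem_IK _ f (fun s => (c s).x (n' s)) hf2 1 ?_ ?_
      · refine hf1.mono fun s hs m => ?_
        have h2 := ((c s).hE (f s) hs).2 m
        refine ⟨h2.1, h2.2.trans ?_⟩
        simp [sc]
      · exact hf1.mono fun s hs => ((c s).hx (n' s) (hn'2 s)).1 (f s) hs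
    have hiter : ∀ j : ℕ, (vf X)^[j] (germPoly D f) ∈ JK (Kf c a) D (xg c n') := by
      intro j
      induction j with
      | zero => exact hmem
      | succ j ih =>
        rw [Function.iterate_succ_apply']
        exact hXs _ ih
    exact eval_of_mem_JK (hiter j)

theorem no_far (hD : 1 ≤ D) (h0 : Far c (((D + 1) ^ k + 1) * ((D + 1) ^ k + 1)) fun _ => 0) :
    False := by
  classical
  set B := (D + 1) ^ k with hB
  set R := (B + 1) * (B + 1) with hR
  have key : ∀ r, r ≤ B + 1 → ∃ n : ℕ → ℕ, (∀ s, n s ≤ (c s).N) ∧ Far c R n ∧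
      finrank Om (JK (Kf c (R - r * (B + 1))) D (xg c n)) + r ≤ B := by
    intro r
    induction r with
    | zero =>
      intro _
      refine ⟨fun _ => 0, fun s => Nat.zero_le _, h0, ?_⟩
      exact finrank_JK_le _ _ _
    | succ r ih =>
      intro hr
      obtain ⟨n, hn, hfar, hrank⟩ := ih (by omega)
      let l' := R - (r + 1) * (B + 1)
      have hRl : (r + 1) * (B + 1) ≤ R := Nat.mul_le_mul_right _ hr
      have hl : R - r * (B + 1) = l' + (B + 1) := by
        have : (r + 1) * (B + 1) = r * (B + 1) + (B + 1) := by ring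
        omega
      rw [hl] at hrank
      let ρ : ℕ → ℕ := fun j => finrank Om (JK (Kf c (l' + j)) D (xg c n))
      have hρmono : ∀ j, ρ j ≤ ρ (j + 1) := fun j =>
        Submodule.finrank_mono (JK_mono (Kf_mono c (by omega)) D _)
      obtain ⟨j, hj, hjeq⟩ : ∃ j, j < B + 1 ∧ ρ (j + 1) ≤ ρ j := by
        by_contra hcon
        push Not at hcon
        have : ∀ j, j ≤ B + 1 → j ≤ ρ j := by
          intro j
          induction j with
          | zero => intro _; exact Nat.zero_le _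
          | succ j ihj =>
            intro hj
            have := ihj (by omega)
            have := hcon j (by omega)
            omega
        have h2 := this (B + 1) le_rfl
        have h3 : ρ (B + 1) + r ≤ B := hrank
        omega
      have heq : JK (Kf c (l' + j)) D (xg c n) = JK (Kf c (l' + j + 1)) D (xg c n) :=
        Submodule.eq_of_le_of_finrank_le (JK_mono (Kf_mono c (by omega)) D _) hjeq
      obtain ⟨n', hn', hfar', hlt⟩ := far_step c hD (R := R) (a := l' + j)
        (by omega) n hn hfar heq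
      refine ⟨n', hn', hfar', ?_⟩
      have h4 : finrank Om (JK (Kf c l') D (xg c n')) ≤
          finrank Om (JK (Kf c (l' + j)) D (xg c n')) :=
        Submodule.finrank_mono (JK_mono (Kf_mono c (by omega)) D _)
      have h5 : finrank Om (JK (Kf c (l' + j)) D (xg c n)) ≤
          finrank Om (JK (Kf c (l' + (B + 1))) D (xg c n)) :=
        Submodule.finrank_mono (JK_mono (Kf_mono c (by omega)) D _)
      show finrank Om (JK (Kf c l') D (xg c n')) + (r + 1) ≤ B
      omega
  obtain ⟨n, -, -, h⟩ := key (B + 1) le_rfl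
  omega

end main

/-- **Core theorem.** -/
theorem core_aux (k D : ℕ) (hD : 1 ≤ D) : ∃ C : ℝ, 0 < C ∧
    ∀ c : Cfg k D, Reach c (C * c.τ) 0 c.N := by
  by_contra hcon
  push Not at hcon
  let R := ((D + 1) ^ k + 1) * ((D + 1) ^ k + 1)
  have h1 : ∀ s : ℕ, ∃ c : Cfg k D, ¬ Reach c (((s : ℝ) + 2) ^ (R + 1) * c.τ) 0 c.N := fun s =>
    hcon _ (pow_pos (by have := one_le_base s; linarith) _)
  choose c hc using h1
  refine no_far c hD ?_
  intro C
  obtain ⟨n₀, hn₀⟩ := exists_nat_ge C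
  refine AE_of_cofinite n₀ fun s hs hr => hc s (hr.mono ?_)
  have h2 : (n₀ : ℝ) ≤ s := by exact_mod_cast hs
  have h3 : ((s : ℝ) + 2) ^ (R + 1) * (c s).τ = ((s : ℝ) + 2) * sc c R s := by
    unfold sc; ring
  rw [h3]
  exact mul_le_mul_of_nonneg_right (by linarith) (by have := one_le_sc c R s; linarith)

theorem core (k D : ℕ) : ∃ C : ℝ, 0 < C ∧ ∀ c : Cfg k D, Reach c (C * c.τ) 0 c.N := by
  obtain ⟨C, hC, h⟩ := core_aux k (D + 1) (by omega)
  refine ⟨C, hC, fun c => ?_⟩
  let c' : Cfg k (D + 1) :=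
    { H := c.H, τ := c.τ, hτ := c.hτ, E := c.E
      hE := fun f hf => ⟨(c.hE f hf).1.trans (Nat.le_succ D), (c.hE f hf).2⟩
      N := c.N, x := c.x, A := c.A, hA := c.hA, hx := c.hx }
  exact h c'

end Pool.Agent.Work.MP_e97a4d_nt.Chain
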