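import Pool.Agent.Work.MP_e97a4d_nt.ChDefs

/-!
Module ChHt: the normalised logarithmic height of a number field has the formal properties of
`HField`.
-/

set_option autoImplicit false

noncomputable section

namespace Pool.Agent.Work.MP_e97a4d_nt.Chain

/-- the absolute logarithmic height of an element of a number field -/
def nht {K : Type} [Field K] [NumberField K] (x : K) : ℝ :=
  Height.logHeight₁ x / Module.finrank ℚ K

section local_bounds

variable {K : Type} [Field K]

private lemma one_le_P {n : ℕ} (v : AbsoluteValue K ℝ) (a : Fin n → K) :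
    1 ≤ ∏ i, max (v (a i)) 1 :=
  Finset.one_le_prod (s := Finset.univ) fun _ _ => le_max_right _ _

private lemma le_P {n : ℕ} (v : AbsoluteValue K ℝ) (a : Fin n → K) (i : Fin n) :
    v (a i) ≤ ∏ i, max (v (a i)) 1 :=
  Finset.le_prod_max_one (Finset.mem_univ i) fun i => v (a i)

private lemma root_arch (v : AbsoluteValue K ℝ) {n : ℕ} (hn : 0 < n) (a : Fin n → K) (x : K)
    (h : x ^ n = ∑ i, a i * x ^ (i : ℕ)) : max (v x) 1 ≤ n * ∏ i, max (v (a i)) 1 := by
  have hP := one_le_P v a
  have hn1 : (1 : ℝ) ≤ n := by exact_mod_cast hn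
  refine max_le ?_ (by nlinarith)
  rcases le_or_gt (v x) 1 with hx | hx
  · nlinarith
  have hx0 : 0 < v x := by linarith
  have h1 : (v x) ^ n ≤ ∑ i : Fin n, (∏ i, max (v (a i)) 1) * (v x) ^ (n - 1) := by
    rw [← map_pow, h]
    refine (v.sum_le _ _).trans (Finset.sum_le_sum fun i _ => ?_)
    rw [map_mul, map_pow]
    refine mul_le_mul (le_P v a i) (pow_le_pow_right₀ hx.le (by omega)) (by positivity)
      (by linarith)
  rw [Finset.sum_const, Finset.card_univ, Fintype.card_fin, nsmul_eq_mul] at h1
  have h2 : (v x) ^ n = v x * (v x) ^ (n - 1) := by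
    rw [← pow_succ']
    congr 1
    omega
  rw [h2, ← mul_assoc] at h1
  exact le_of_mul_le_mul_right h1 (by positivity)

private lemma root_nonarch {v : AbsoluteValue K ℝ} (hv : IsNonarchimedean v) {n : ℕ}
    (hn : 0 < n) (a : Fin n → K) (x : K)
    (h : x ^ n = ∑ i, a i * x ^ (i : ℕ)) : max (v x) 1 ≤ ∏ i, max (v (a i)) 1 := by
  have hP := one_le_P v a
  refine max_le ?_ hP
  rcases le_or_gt (v x) 1 with hx | hx
  · linarith
  have hx0 : 0 < v x := by linarith
  have hne : (Finset.univ : Finset (Fin n)).Nonempty := ⟨⟨0, hn⟩, Finset.mem_univ _⟩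
  have h1 : (v x) ^ n ≤ (∏ i, max (v (a i)) 1) * (v x) ^ (n - 1) := by
    rw [← map_pow, h]
    refine (hv.apply_sum_le_sup hne).trans (Finset.sup'_le _ _ fun i _ => ?_)
    rw [map_mul, map_pow]
    refine mul_le_mul (le_P v a i) (pow_le_pow_right₀ hx.le (by omega)) (by positivity)
      (by linarith)
  have h2 : (v x) ^ n = v x * (v x) ^ (n - 1) := by
    rw [← pow_succ']
    congr 1
    omega
  rw [h2] at h1
  exact le_of_mul_le_mul_right h1 (by positivity)

end local_bounds

section global

open Height Height.AdmissibleAbsValues Function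

variable {K : Type} [Field K] [AdmissibleAbsValues K]

@[fun_prop]
private lemma fin_max (x : K) :
    (fun v : nonarchAbsVal (K := K) ↦ max (v.val x) 1).HasFiniteMulSupport := by
  rcases eq_or_ne x 0 with rfl | hx
  · simp [HasFiniteMulSupport]
  · fun_prop (disch := assumption)

private lemma root_mulHeight {n : ℕ} (hn : 0 < n) (a : Fin n → K) (x : K)
    (h : x ^ n = ∑ i, a i * x ^ (i : ℕ)) :
    mulHeight₁ x ≤ (n : ℝ) ^ (totalWeight K) * ∏ i, mulHeight₁ (a i) := by
  simp only [mulHeight₁_eq, totalWeight]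
  rw [Finset.prod_mul_distrib, ← Multiset.prod_replicate, ← Multiset.map_const,
    ← finprod_prod_comm _ _ (fun i _ => fin_max (a i)),
    ← Multiset.prod_map_prod, ← mul_assoc, ← Multiset.prod_map_mul]
  simp only [Function.const_apply]
  gcongr
  · exact finprod_nonneg fun _ ↦ by positivity
  · exact Multiset.prod_map_nonneg fun _ h ↦ by positivity
  · exact Multiset.prod_map_le_prod_map₀ _ _ (fun _ _ ↦ by positivity)
      fun v _ ↦ root_arch v hn a x h
  · refine finprod_le_finprod (fin_max x) (fun _ ↦ by positivity) ?_ ?_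
    · fun_prop
    · exact fun v ↦ root_nonarch (isNonarchimedean _ v.prop) hn a x h

end global

section nf

variable {K : Type} [Field K] [NumberField K]

private lemma nht_fr : (0 : ℝ) < Module.finrank ℚ K := by
  exact_mod_cast Module.finrank_pos

private lemma nht_nonneg (x : K) : 0 ≤ nht x :=
  div_nonneg (Height.zero_le_logHeight₁ x) nht_fr.le

private lemma nht_zero : nht (0 : K) = 0 := by simp [nht]

private lemma nht_one : nht (1 : K) = 0 := by simp [nht]

private lemma nht_neg (x : K) : nht (-x) = nht x := by simp [nht]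

private lemma nht_inv (x : K) : nht x⁻¹ = nht x := by simp [nht, Height.logHeight₁_inv]

private lemma nht_mul (x y : K) : nht (x * y) ≤ nht x + nht y := by
  rw [nht, nht, nht, ← add_div]
  exact div_le_div_of_nonneg_right (Height.logHeight₁_mul_le x y) nht_fr.le

private lemma nht_add (x y : K) : nht (x + y) ≤ nht x + nht y + 1 := by
  have h := Height.logHeight₁_add_le x y
  have hfr := nht_fr (K := K)
  rw [NumberField.totalWeight_eq_finrank K] at h
  have hlog : Real.log 2 ≤ 1 := by
    have := Real.log_two_lt_d9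
    linarith
  rw [nht, nht, nht, ← add_div, div_add_one hfr.ne']
  refine div_le_div_of_nonneg_right ?_ hfr.le
  nlinarith

private lemma nht_root {n : ℕ} (a : Fin n → K) (x : K) (h : x ^ n = ∑ i, a i * x ^ (i : ℕ)) :
    nht x ≤ n + ∑ i, nht (a i) := by
  rcases Nat.eq_zero_or_pos n with rfl | hn
  · simp at h
  have hfr := nht_fr (K := K)
  have hn0 : (0 : ℝ) < n := by exact_mod_cast hn
  have h1 := root_mulHeight hn a x h
  have h2 : Height.logHeight₁ x ≤
      Module.finrank ℚ K * Real.log n + ∑ i, Height.logHeight₁ (a i) := by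
    simp only [Height.logHeight₁_eq_log_mulHeight₁]
    rw [← Real.log_prod (fun i _ => Height.mulHeight₁_ne_zero (a i)),
      ← NumberField.totalWeight_eq_finrank K, ← Real.log_pow,
      ← Real.log_mul (by positivity) (Finset.prod_ne_zero_iff.2 fun i _ =>
        Height.mulHeight₁_ne_zero (a i))]
    exact Real.log_le_log (Height.mulHeight₁_pos x) h1
  have h3 : Real.log n ≤ n := (Real.log_le_sub_one_of_pos hn0).trans (by linarith)
  have h4 : ∑ i, nht (a i) = (∑ i, Height.logHeight₁ (a i)) / Module.finrank ℚ K := by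
    rw [Finset.sum_div]
    rfl
  rw [h4, nht, div_le_iff₀ hfr, add_mul, div_mul_cancel₀ _ hfr.ne']
  nlinarith

end nf

theorem exists_HField (K : Type) [Field K] [NumberField K] (ι : K →+* ℂ) :
    ∃ H : HField, H.K = ι.fieldRange ∧ ∀ a : K, H.h (ι a) = nht a := by
  classical
  let h : ℂ → ℝ := fun z => if hz : z ∈ ι.fieldRange then nht (Classical.choose hz) else 0
  have hι : ∀ a : K, h (ι a) = nht a := by
    intro a
    have hz : ι a ∈ ι.fieldRange := ⟨a, rfl⟩
    have h1 : Classical.choose hz = a := ι.injective (Classical.choose_spec hz)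
    simp only [h]
    rw [dif_pos hz, h1]
  refine ⟨{
    K := ι.fieldRange
    h := h
    nonneg := ?_
    zero := ?_
    one := ?_
    neg := ?_
    add := ?_
    mul := ?_
    inv := ?_
    root := ?_ }, rfl, hι⟩
  · intro x
    simp only [h]
    split_ifs with hz
    · exact nht_nonneg _
    · exact le_rfl
  · rw [← map_zero ι, hι, nht_zero]
  · rw [← map_one ι, hι, nht_one]
  · rintro _ ⟨x, rfl⟩
    rw [← map_neg, hι, hι, nht_neg]
  · rintro _ ⟨x, rfl⟩ _ ⟨y, rfl⟩
    rw [← map_add, hι, hι, hι]
    exact nht_add x y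
  · rintro _ ⟨x, rfl⟩ _ ⟨y, rfl⟩
    rw [← map_mul, hι, hι, hι]
    exact nht_mul x y
  · rintro _ ⟨x, rfl⟩
    rw [← map_inv₀, hι, hι, nht_inv]
  · rintro n a _ ha ⟨x, rfl⟩ hx
    choose b hb using ha
    have hx' : x ^ n = ∑ i, b i * x ^ (i : ℕ) := by
      apply ι.injective
      rw [map_pow, hx, map_sum]
      refine Finset.sum_congr rfl fun i _ => ?_
      rw [map_mul, map_pow, hb]
    have hh : ∀ i, h (a i) = nht (b i) := fun i => by rw [← hb i, hι]
    rw [hι]
    simp only [hh]
    exact nht_root b x hx'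

end Pool.Agent.Work.MP_e97a4d_nt.Chain
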