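import Mathlib
import Pool.Agent.Work.MP_e97a4d_nt.ExpDefs
import Pool.Agent.Work.MP_e97a4d_nt.CurveLemma

/-!
Finiteness along linear recurrences implies that all images of the multiplicative group lie in `V'`.
-/

set_option autoImplicit false

namespace Pool.Agent.Work.MP_e97a4d_nt

open AlgebraicGeometry CategoryTheory IsDedekindDomain NumberField

/-- Finite sums of geometric sequences are linear recurrence sequences. -/
theorem exists_recurrence_geom {F : Type*} [Field F] {κ : Type*} (s : Finset κ) (c q : κ → F) :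
    ∃ E : LinearRecurrence F, E.IsSolution (fun m => ∑ k ∈ s, c k * q k ^ m) := by
  classical
  let p : Polynomial F := ∏ k ∈ s, (Polynomial.X - Polynomial.C (q k))
  have hp : p.Monic := Polynomial.monic_prod_of_monic _ _ fun k _ => Polynomial.monic_X_sub_C _
  let E : LinearRecurrence F := ⟨p.natDegree, fun i => - p.coeff i⟩
  have hroot : ∀ k ∈ s, E.IsSolution (fun m => q k ^ m) := by
    intro k hk m
    have h1 : p.eval (q k) = 0 := by
      simp only [p, Polynomial.eval_prod]
      exact Finset.prod_eq_zero hk (by simp)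
    rw [Polynomial.eval_eq_sum_range, Finset.sum_range_succ, hp.coeff_natDegree, one_mul] at h1
    have h2 : q k ^ p.natDegree = - ∑ i ∈ Finset.range p.natDegree, p.coeff i * q k ^ i := by
      linear_combination h1
    show q k ^ (m + p.natDegree) = ∑ i : Fin p.natDegree, - p.coeff i * q k ^ (m + (i : ℕ))
    rw [pow_add, h2, Fin.sum_univ_eq_sum_range (fun i => - p.coeff i * q k ^ (m + i)),
      mul_neg, Finset.mul_sum, ← Finset.sum_neg_distrib]
    apply Finset.sum_congr rfl
    intro i _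
    ring
  refine ⟨E, ?_⟩
  rw [LinearRecurrence.is_sol_iff_mem_solSpace]
  have h1 : (fun m => ∑ k ∈ s, c k * q k ^ m) = ∑ k ∈ s, c k • (fun m => q k ^ m) := by
    funext m
    rw [Finset.sum_apply]
    rfl
  rw [h1]
  exact Submodule.sum_mem _ fun k hk => Submodule.smul_mem _ _ (hroot k hk)

theorem exists_recurrence_laurent {F : Type*} [Field F] (a : Fˣ) (X : LaurentPolynomial F) :
    ∃ E : LinearRecurrence F, E.IsSolution (fun m => evL (a ^ m) X) := by
  obtain ⟨E, hE⟩ := exists_recurrence_geom X.coeff.support (fun k => X.coeff k)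
    (fun k => ((a ^ k : Fˣ) : F))
  refine ⟨E, ?_⟩
  convert hE using 2 with m
  have h1 : X = ∑ n ∈ X.coeff.support, LaurentPolynomial.C (X.coeff n) * LaurentPolynomial.T n := by
    ext m
    rw [AddMonoidAlgebra.coeff_sum, Finset.sum_apply']
    simp only [← LaurentPolynomial.single_eq_C_mul_T, AddMonoidAlgebra.coeff_single,
      Finsupp.single_apply]
    by_cases hm : m ∈ X.coeff.support
    · rw [Finset.sum_ite_eq' X.coeff.support m, if_pos hm]
    · rw [Finset.sum_ite_eq' X.coeff.support m, if_neg hm]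
      exact Finsupp.notMem_support_iff.1 hm
  conv_lhs => rw [h1]
  rw [map_sum]
  apply Finset.sum_congr rfl
  intro k _
  rw [evL, LaurentPolynomial.eval₂_C_mul_T, RingHom.id_apply]
  congr 1
  rw [← zpow_natCast, ← zpow_natCast, ← Units.val_zpow_eq_zpow_val, ← zpow_mul, ← zpow_mul,
    mul_comm]

variable {F₀ : Type} [Field F₀] [NumberField F₀] {V V' : Scheme.{0}}

theorem condGm_of_condIIrec (σ : F₀ →+* ℂ) (π : V ⟶ Spec (CommRingCat.of (𝓞 F₀)))
    [IsSeparated π] [LocallyOfFiniteType π] (i : V' ⟶ V) [IsClosedImmersion i]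
    (h : CondIIrec π i) : CondGm σ π i := by
  classical
  rintro p ⟨c, hc, ⟨w, hw⟩, u, v, huv⟩
  by_contra hp
  let _ : Algebra F₀ ℂ := σ.toAlgebra
  have hc' : c ≫ π = Spec.map (CommRingCat.ofHom
      ((LaurentPolynomial.C : ℂ →+* _).comp ((algebraMap F₀ ℂ).comp (algebraMap (𝓞 F₀) F₀)))) := by
    rw [hc, ← Spec.map_comp, ← CommRingCat.ofHom_comp]
  obtain ⟨B, _, _, hB, c', hc'π, F, _, _, _, S, ψ₂, x, hx, hx2, hinf⟩ :=
    exists_family_of_curve π i c hc' u v huv w (by
      rintro ⟨p', hp'⟩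
      exact hp ⟨p', by rw [hp']; exact hw⟩)
  obtain ⟨n, f, hf⟩ := Algebra.FiniteType.iff_quotient_mvPolynomial''.1 hB
  have ht : Function.Surjective (MvPolynomial.eval₂Hom (algebraMap (𝓞 F₀) B)
      (fun k : Fin n => f (MvPolynomial.X k))) := by
    have h1 : (MvPolynomial.aeval (fun k : Fin n => f (MvPolynomial.X k)) :
        MvPolynomial (Fin n) (𝓞 F₀) →ₐ[𝓞 F₀] B) = f := by
      apply MvPolynomial.algHom_ext
      intro k
      simp
    have h2 : Function.Surjective (MvPolynomial.aeval (fun k : Fin n => f (MvPolynomial.X k)) :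
        MvPolynomial (Fin n) (𝓞 F₀) →ₐ[𝓞 F₀] B) := by rw [h1]; exact hf
    exact h2
  have hfin := h (CommRingCat.of B) (algebraMap (𝓞 F₀) B) c' hc'π (Fin n) inferInstance
    (fun k => f (MvPolynomial.X k)) ht F S
    (fun k m => evL (twoU F ^ m) (ψ₂ (f (MvPolynomial.X k))))
    (fun k => exists_recurrence_laurent (twoU F) _)
  refine hinf (hfin.subset ?_)
  rintro _ ⟨m, rfl, hm⟩
  refine ⟨hx m, ⟨(evL (twoU F ^ m)).comp ψ₂, ?_, m, fun k => rfl⟩, hm⟩
  have h1 : Spec.map (CommRingCat.ofHom ((algebraMap (SInt F S) F).comp (x m))) =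
      Spec.map (CommRingCat.ofHom (algebraMap (SInt F S) F)) ≫
        Spec.map (CommRingCat.ofHom (x m)) := by
    rw [← Spec.map_comp, ← CommRingCat.ofHom_comp]
  rw [← hx2 m, h1, Category.assoc]

end Pool.Agent.Work.MP_e97a4d_nt
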