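import Mathlib
import Pool.Agent.Work.MP_e97a4d_nt.ExpDefs
import Pool.Agent.Work.MP_e97a4d_nt.RecurrenceThm
import Pool.Agent.Work.MP_e97a4d_nt.RecFamily
import Pool.Agent.Work.MP_e97a4d_nt.ExpCurve

/-!
The Bombieri-Lang-Vojta equivalence for exponential polynomial curves and linear recurrences.
-/

set_option autoImplicit false

namespace Pool.Agent.Work.MP_e97a4d_nt

open AlgebraicGeometry CategoryTheory NumberField

theorem differentiable_of_mem_expPoly {f : ℂ → ℂ} (hf : f ∈ expPoly) : Differentiable ℂ f := by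
  induction hf using Algebra.adjoin_induction with
  | mem x hx =>
    rcases hx with rfl | ⟨α, rfl⟩
    · exact differentiable_id
    · fun_prop
  | algebraMap r => exact differentiable_const r
  | add x y _ _ hx hy => exact hx.add hy
  | mul x y _ _ hx hy => exact hx.mul hy

theorem condIexp_of_condI {F₀ : Type} [Field F₀] (σ : F₀ →+* ℂ) {V V' : Scheme.{0}}
    (π : V ⟶ Spec (CommRingCat.of (𝓞 F₀))) (i : V' ⟶ V) (h : CondI σ π i) : CondIexp σ π i := by
  intro A ψ _ j hj g hgψ hgexp hnc z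
  refine h (fun z => Spec.map (CommRingCat.ofHom (g z)) ≫ j) ⟨⟨?_, ?_⟩, hnc⟩ z
  · intro z
    rw [Category.assoc, hj, ← Spec.map_comp, ← CommRingCat.ofHom_comp, hgψ]
  · intro z
    exact exists_chart_of_comp j g (fun a => differentiable_of_mem_expPoly (hgexp a)) z

theorem blv_exp {F₀ : Type} [Field F₀] [NumberField F₀] (σ : F₀ →+* ℂ) {V V' : Scheme.{0}}
    (π : V ⟶ Spec (CommRingCat.of (𝓞 F₀))) [IsSeparated π] [LocallyOfFiniteType π]
    (i : V' ⟶ V) [IsClosedImmersion i] :
    (CondI σ π i → CondIexp σ π i) ∧ (CondII π i → CondIIrec π i) ∧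
      [CondIexp σ π i, CondIIrec π i, CondGm σ π i].TFAE := by
  refine ⟨condIexp_of_condI σ π i, ?_, ?_⟩
  · intro h A ψ j _ ι _ t _ F _ _ _ S x _
    exact (h F S).subset fun y hy => ⟨hy.1, hy.2.2⟩
  · tfae_have 1 → 2 := condIIrec_of_condIexp σ π i
    tfae_have 2 → 3 := condGm_of_condIIrec σ π i
    tfae_have 3 → 1 := condIexp_of_condGm σ π i
    tfae_finish

end Pool.Agent.Work.MP_e97a4d_nt
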