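import Pool.Agent.Work.MP_e97a4d_nt.ChExp
import Pool.Agent.Work.MP_e97a4d_nt.ExpMain

/-!
Module ChOut (M, about 120 lines): under (i) or (ii) no point outside `V'` is on a linear orbit.

`CondI → CondIexp` is `condIexp_of_condI`, `CondII → CondIIrec → CondIexp` is in `blv_exp` (ExpMain).

`not_onOrbit`: suppose `X`, `x = P ∘ t` witness `OnOrbit`. Take the curve `c` of `exists_curve`,
`c 0 = x`. For every `z` all `e ∈ E` vanish at `c z` (`eval_curve`), so all elements of
`Ideal.span E` do, so by `hE` there is a ring homomorphism `g z : A →+* ℂ` with `g z (t l) = c z l`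
and `(g z).comp ψ = σ...` (factor `MvPolynomial.eval₂Hom` through the surjection `eval₂Hom ψ t`:
`RingHom.liftOfRightInverse` or `RingHom.liftOfSurjective`). `g 0 = P`. All `z ↦ g z a` are in
`expPoly` (`a = eval₂Hom ψ t F`, so `g z a` is a polynomial in the `c z l`). As
`X.mulVec x ≠ 0`, `c` is not constant near `0` (derivative at `0`), so `g z` takes infinitely many
values and `Spec.map (g z) ≫ j` is not constant, because `j` has finite fibres.
`CondIexp` then says that `Spec.map P ≫ j` factors through `V'`: contradiction to `hout`.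
-/

set_option autoImplicit false

noncomputable section

namespace Pool.Agent.Work.MP_e97a4d_nt.Chain

open MvPolynomial AlgebraicGeometry CategoryTheory NumberField

variable {k : ℕ} {F₀ : Type} [Field F₀]

theorem condIexp_of_or [NumberField F₀] (σ : F₀ →+* ℂ) {V V' : Scheme.{0}}
    (π : V ⟶ Spec (CommRingCat.of (𝓞 F₀))) [IsSeparated π] [LocallyOfFiniteType π]
    (i : V' ⟶ V) [IsClosedImmersion i] (h : CondI σ π i ∨ CondII π i) : CondIexp σ π i := by
  rcases h with h | h
  · exact condIexp_of_condI σ π i h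
  · have h1 := blv_exp σ π i
    exact (h1.2.2.out 1 0).1 (h1.2.1 h)

private theorem eval₂_mem {R : Type} [CommRing R] (ρ : R →+* ℂ) (c : ℂ → Fin k → ℂ)
    (hc : ∀ i, (fun z => c z i) ∈ expPoly) (f : MvPolynomial (Fin k) R) :
    (fun z => eval₂Hom ρ (c z) f) ∈ expPoly := by
  induction f using MvPolynomial.induction_on with
  | C a =>
    have : (fun z => eval₂Hom ρ (c z) (C a)) = fun _ => ρ a := by
      funext z
      simp
    rw [this]
    exact expPoly.algebraMap_mem (ρ a)
  | add f g hf hg =>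
    have : (fun z => eval₂Hom ρ (c z) (f + g)) =
        (fun z => eval₂Hom ρ (c z) f) + fun z => eval₂Hom ρ (c z) g := by
      funext z
      rw [map_add]
      rfl
    rw [this]
    exact add_mem hf hg
  | mul_X f i hf =>
    have : (fun z => eval₂Hom ρ (c z) (f * MvPolynomial.X i)) =
        (fun z => eval₂Hom ρ (c z) f) * fun z => c z i := by
      funext z
      rw [map_mul, eval₂Hom_X']
      rfl
    rw [this]
    exact mul_mem hf (hc i)

theorem not_onOrbit (σ : F₀ →+* ℂ) {V V' : Scheme.{0}}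
    (π : V ⟶ Spec (CommRingCat.of (𝓞 F₀))) (i : V' ⟶ V) (h : CondIexp σ π i)
    (A : CommRingCat.{0}) (ψ : 𝓞 F₀ →+* A) (t : Fin k → A)
    (ht : Function.Surjective (MvPolynomial.eval₂Hom ψ t))
    (j : Spec A ⟶ V) (hj : j ≫ π = Spec.map (CommRingCat.ofHom ψ))
    (hfib : ∀ v : Spec (CommRingCat.of ℂ) ⟶ V, {P : A →+* ℂ |
      P.comp ψ = σ.comp (algebraMap (𝓞 F₀) F₀) ∧ Spec.map (CommRingCat.ofHom P) ≫ j = v}.Finite)
    (E : Set (MvPolynomial (Fin k) ℂ))
    (hE : ∀ f : MvPolynomial (Fin k) (𝓞 F₀), MvPolynomial.eval₂Hom ψ t f = 0 →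
      MvPolynomial.map (σ.comp (algebraMap (𝓞 F₀) F₀)) f ∈ Ideal.span E)
    (P : A →+* ℂ) (hP : P.comp ψ = σ.comp (algebraMap (𝓞 F₀) F₀))
    (hout : ¬ ∃ p : Spec (CommRingCat.of ℂ) ⟶ V', p ≫ i = Spec.map (CommRingCat.ofHom P) ≫ j) :
    ¬ OnOrbit E (fun l => P (t l)) := by
  rintro ⟨X, hX, hE'⟩
  obtain ⟨c, hc1, hc2, hc3⟩ := exists_curve X (fun l => P (t l))
  set ρ : 𝓞 F₀ →+* ℂ := σ.comp (algebraMap (𝓞 F₀) F₀) with hρ
  have hspan : ∀ z, ∀ f ∈ Ideal.span E, eval (c z) f = 0 := by
    intro z f hf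
    have h1 : Ideal.span E ≤ RingHom.ker (eval (c z) : MvPolynomial (Fin k) ℂ →+* ℂ) := by
      rw [Ideal.span_le]
      intro e he
      rw [SetLike.mem_coe, RingHom.mem_ker]
      exact eval_curve X c hc3 e (by rw [hc2]; exact hE' e he) z
    exact h1 hf
  have hker : ∀ z, RingHom.ker (eval₂Hom ψ t) ≤ RingHom.ker (eval₂Hom ρ (c z)) := by
    intro z f hf
    rw [RingHom.mem_ker] at hf ⊢
    have h1 := hspan z _ (hE f hf)
    rw [MvPolynomial.eval_map] at h1
    exact h1
  let g : ℂ → (A →+* ℂ) := fun z =>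
    RingHom.liftOfSurjective (eval₂Hom ψ t) ht ⟨eval₂Hom ρ (c z), hker z⟩
  have hg : ∀ z f, g z (eval₂Hom ψ t f) = eval₂Hom ρ (c z) f := by
    intro z f
    exact RingHom.liftOfRightInverse_comp_apply _ _ _ ⟨eval₂Hom ρ (c z), hker z⟩ f
  have hgt : ∀ z l, g z (t l) = c z l := by
    intro z l
    have := hg z (MvPolynomial.X l)
    rwa [eval₂Hom_X', eval₂Hom_X'] at this
  have hgψ : ∀ z, (g z).comp ψ = ρ := by
    intro z
    apply RingHom.ext
    intro r
    have := hg z (C r)
    rwa [eval₂Hom_C, eval₂Hom_C] at this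
  have hg0 : g 0 = P := by
    apply RingHom.ext
    intro a
    obtain ⟨f, rfl⟩ := ht a
    rw [hg, hc2]
    have : P.comp (eval₂Hom ψ t) = eval₂Hom ρ (fun l => P (t l)) := by
      apply MvPolynomial.ringHom_ext
      · intro r
        rw [RingHom.comp_apply, eval₂Hom_C, eval₂Hom_C, ← hP]
        rfl
      · intro l
        rw [RingHom.comp_apply, eval₂Hom_X', eval₂Hom_X']
    rw [← this]
    rfl
  have hft : ψ.FiniteType := by
    have h1 : (C : 𝓞 F₀ →+* MvPolynomial (Fin k) (𝓞 F₀)).FiniteType := by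
      have : (algebraMap (𝓞 F₀) (MvPolynomial (Fin k) (𝓞 F₀))).FiniteType := by
        rw [RingHom.finiteType_algebraMap]
        infer_instance
      exact this
    have h2 : (eval₂Hom ψ t).FiniteType := RingHom.FiniteType.of_surjective _ ht
    have h3 : (eval₂Hom ψ t).comp C = ψ := by
      apply RingHom.ext
      intro r
      rw [RingHom.comp_apply, eval₂Hom_C]
    rw [← h3]
    exact h2.comp h1
  have hexp : ∀ a : A, (fun z => g z a) ∈ expPoly := by
    intro a
    obtain ⟨f, rfl⟩ := ht a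
    simp only [hg]
    exact eval₂_mem ρ c hc1 f
  have hnc : ∃ z w, Spec.map (CommRingCat.ofHom (g z)) ≫ j ≠
      Spec.map (CommRingCat.ofHom (g w)) ≫ j := by
    by_contra hcon
    push Not at hcon
    apply hX
    -- the coordinates take finitely many values
    have hfin : (Set.range c).Finite := by
      refine ((hfib (Spec.map (CommRingCat.ofHom (g 0)) ≫ j)).image
        (fun P : A →+* ℂ => fun l => P (t l))).subset ?_
      rintro _ ⟨z, rfl⟩
      exact ⟨g z, ⟨hgψ z, hcon z 0⟩, by funext l; exact hgt z l⟩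
    have hcont : Continuous c := continuous_pi fun l =>
      continuous_iff_continuousAt.2 fun z => (hc3 z l).continuousAt
    have hev : ∀ᶠ w in nhds (0 : ℂ), c w = c 0 := by
      have h1 : (Set.range c \ {c 0}).Finite := hfin.subset Set.diff_subset
      have h2 : (Set.range c \ {c 0})ᶜ ∈ nhds (c 0) :=
        h1.isClosed.isOpen_compl.mem_nhds (by simp)
      filter_upwards [hcont.continuousAt.preimage_mem_nhds h2] with w hw
      by_contra hne
      exact hw ⟨⟨w, rfl⟩, hne⟩
    funext l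
    have h4 := hc3 0 l
    have h5 : HasDerivAt (fun w => c w l) 0 0 := by
      refine (hasDerivAt_const (0 : ℂ) (c 0 l)).congr_of_eventuallyEq ?_
      filter_upwards [hev] with w hw
      rw [hw]
    have h6 := h4.unique h5
    rw [hc2] at h6
    exact h6
  obtain ⟨p, hp⟩ := h A ψ hft j hj g hgψ hexp hnc 0
  exact hout ⟨p, by rw [hp, hg0]⟩

end Pool.Agent.Work.MP_e97a4d_nt.Chain
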