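import Pool.Agent.Work.MP_e97a4d_nt.ChMainDefs
import Pool.Agent.Work.MP_e97a4d_nt.ChCore
import Pool.Agent.Work.MP_e97a4d_nt.ChHt
import Pool.Agent.Work.MP_e97a4d_nt.ChOut

/-!
The chain displacement theorem for schemes.
-/

set_option autoImplicit false

noncomputable section

namespace Pool.Agent.Work.MP_e97a4d_nt.Chain

open AlgebraicGeometry CategoryTheory NumberField

variable {k : ℕ}

theorem hgt_eq_nht {K : Type} [Field K] [NumberField K] (x : K) : hgt x = nht x := rfl

/-- elements of the relation ideal vanish at the points -/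
theorem eval_relIdeal {F₀ : Type} [Field F₀] (σ : F₀ →+* ℂ) {A : CommRingCat.{0}}
    (ψ : 𝓞 F₀ →+* A) (t : Fin k → A) (P : A →+* ℂ)
    (hP : P.comp ψ = σ.comp (algebraMap (𝓞 F₀) F₀)) {f : MvPolynomial (Fin k) ℂ}
    (hf : f ∈ relIdeal σ ψ t) : MvPolynomial.eval (fun a => P (t a)) f = 0 := by
  have h1 : relIdeal σ ψ t ≤ RingHom.ker (MvPolynomial.eval (fun a => P (t a))) := by
    refine Ideal.map_le_iff_le_comap.2 ?_
    intro g hg
    have hg' : MvPolynomial.eval₂Hom ψ t g = 0 := hg
    show MvPolynomial.eval (fun a => P (t a)) (MvPolynomial.map _ g) = 0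
    rw [MvPolynomial.eval_map, ← hP]
    have h2 := congrArg P hg'
    rw [map_zero, MvPolynomial.coe_eval₂Hom, MvPolynomial.hom_eval₂] at h2
    exact h2
  exact h1 hf

/-- The constants of the displacement theorem. -/
theorem exists_constants : ∃ C : ℕ → ℕ → ℝ, (∀ k D, 0 < C k D) ∧
    ∀ {F₀ : Type} [Field F₀] (σ : F₀ →+* ℂ) {V V' : Scheme.{0}}
      (π : V ⟶ Spec (CommRingCat.of (𝓞 F₀))) (i : V' ⟶ V), CondIexp σ π i →
      CondWalk C σ π i := by
  choose C hC hcore using core
  refine ⟨C, hC, ?_⟩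
  intro F₀ _ σ V V' π i hexp A ψ k t ht j hj hfib K _ _ ι D T hT hcut P Q hPQ
  obtain ⟨N, q, hq0, hqN, hP, hstep⟩ := hPQ
  obtain ⟨H, hHK, hHh⟩ := exists_HField K ι
  obtain ⟨E, hE, hspan⟩ := hcut
  have hmem : ∀ a : K, ι a ∈ H.K := fun a => by rw [hHK]; exact ⟨a, rfl⟩
  choose g hg1 hg2 hg3 using hstep
  let g' : ℕ → Matrix (Fin k) (Fin k) K := fun n => if h : n < N then g n h else 1
  let c : Cfg k D :=
    { H := H
      τ := T
      hτ := hT
      E := MvPolynomial.map ι '' E
      hE := by
        rintro _ ⟨f, hf, rfl⟩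
        refine ⟨(Finset.sup_mono (MvPolynomial.support_map_subset ι f)).trans (hE f hf).1,
          fun m => ?_⟩
        rw [MvPolynomial.coeff_map]
        refine ⟨hmem _, ?_⟩
        rw [hHh]
        exact (hE f hf).2 m
      N := N
      x := fun n a => q n (t a)
      A := fun n => (g' n).map ι
      hA := by
        intro n hn
        have e : g' n = g n hn := dif_pos hn
        rw [e]
        refine ⟨fun a b => ⟨hmem _, ?_⟩, ?_, ?_⟩
        · rw [Matrix.map_apply, hHh]
          exact hg2 n hn a b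
        · have h1 : ((g n hn).map ι).det = ι (g n hn).det := (RingHom.map_det ι (g n hn)).symm
          rw [h1]
          exact (hg1 n hn).map ι
        · funext a
          exact hg3 n hn a
      hx := by
        intro n hn
        refine ⟨?_, ?_⟩
        · intro f hf
          refine eval_relIdeal σ ψ t (q n) (hP n hn).1 ?_
          rw [← hspan]
          exact Ideal.subset_span hf
        · refine not_onOrbit σ π i hexp A ψ t ht j hj hfib (MvPolynomial.map ι '' E) ?_ (q n)
            (hP n hn).1 (hP n hn).2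
          intro f hf
          rw [hspan]
          exact Ideal.mem_map_of_mem _ hf }
  obtain ⟨G, h1, h2, h3⟩ := hcore k D c
  have h1' : ∀ a b, ∃ y : K, ι y = G a b := by
    intro a b
    have := (h1 a b).1
    change G a b ∈ H.K at this
    rw [hHK] at this
    exact this
  choose g₀ hg₀ using h1'
  refine ⟨g₀, ?_, fun a b => ?_, fun a => ?_⟩
  · have e : (Matrix.map g₀ ι : Matrix (Fin k) (Fin k) ℂ) = G := by
      ext a b
      exact hg₀ a b
    rw [isUnit_iff_ne_zero]
    intro h0
    have h4 : G.det = ι (Matrix.det g₀) := by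
      rw [← e]
      exact (RingHom.map_det ι g₀).symm
    rw [h0, map_zero] at h4
    exact h2.ne_zero h4
  · have h4 := (h1 a b).2
    rw [← hg₀ a b] at h4
    change H.h (ι (g₀ a b)) ≤ C k D * T at h4
    rw [hHh] at h4
    exact h4
  · have h4 := congrFun h3 a
    change q N (t a) = G.mulVec (fun b => q 0 (t b)) a at h4
    rw [hqN, hq0] at h4
    rw [h4]
    simp only [Matrix.mulVec, dotProduct, hg₀]

/-- Northcott: finitely many matrices of bounded height. -/
theorem finite_matrices (K : Type) [Field K] [NumberField K] (k : ℕ) (T : ℝ) :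
    {g : Matrix (Fin k) (Fin k) K | ∀ a b, hgt (g a b) ≤ T}.Finite := by
  have h1 : {x : K | hgt x ≤ T}.Finite := by
    refine (NumberField.finite_setOfPred_logHeight₁_le K (T * Module.finrank ℚ K)).subset ?_
    intro x hx
    have h2 : (0 : ℝ) < Module.finrank ℚ K := by exact_mod_cast Module.finrank_pos
    have h3 : Height.logHeight₁ x / Module.finrank ℚ K ≤ T := hx
    rw [div_le_iff₀ h2] at h3
    exact h3
  exact Set.Finite.pi' (κ := fun _ : Fin k => Fin k → K)
    (t := fun _ => {v : Fin k → K | ∀ b, v b ∈ {x : K | hgt x ≤ T}})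
    fun _ => Set.Finite.pi' fun _ => h1

/-- a homomorphism is determined by its values on the generators -/
theorem ext_gen {F₀ : Type} [Field F₀] {A : CommRingCat.{0}} (ψ : 𝓞 F₀ →+* A) (t : Fin k → A)
    (ht : Function.Surjective (MvPolynomial.eval₂Hom ψ t)) {P Q : A →+* ℂ}
    (h1 : P.comp ψ = Q.comp ψ) (h2 : ∀ a, P (t a) = Q (t a)) : P = Q := by
  ext a
  obtain ⟨f, rfl⟩ := ht a
  rw [MvPolynomial.coe_eval₂Hom, MvPolynomial.hom_eval₂, MvPolynomial.hom_eval₂, h1]
  congr 1
  funext b
  exact h2 b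

end Pool.Agent.Work.MP_e97a4d_nt.Chain
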