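import Mathlib
import Pool.Agent.Work.MP_e97a4d_nt.Defs

/-!
Definitions for the statement of the chain displacement theorem.
-/

set_option autoImplicit false

noncomputable section

namespace Pool.Agent.Work.MP_e97a4d_nt.Chain

open AlgebraicGeometry CategoryTheory NumberField

/-- The absolute logarithmic height of an element `x` of a number field `K`: the logarithmic height
relative to `K`, divided by the degree `[K : ℚ]`. -/
def hgt {K : Type} [Field K] [NumberField K] (x : K) : ℝ :=
  Height.logHeight₁ x / Module.finrank ℚ K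

variable {F₀ : Type} [Field F₀] {V V' : Scheme.{0}} {A : CommRingCat.{0}} {k : ℕ}

/-- The complex points of `Spec A` (over `σ`; `ψ : O_{F₀} → A` is the structure map) whose images
under `j : Spec A ⟶ V` are not in `V'`. -/
def outside (σ : F₀ →+* ℂ) (i : V' ⟶ V) (ψ : 𝓞 F₀ →+* A) (j : Spec A ⟶ V) : Set (A →+* ℂ) :=
  {P | P.comp ψ = σ.comp (algebraMap (𝓞 F₀) F₀) ∧
    ¬ ∃ p : Spec (CommRingCat.of ℂ) ⟶ V', p ≫ i = Spec.map (CommRingCat.ofHom P) ≫ j}

/-- A linear step from the complex point `P` of `Spec A` to the complex point `Q`, with respect to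
the generators `t 0, …, t (k - 1)` of `A`: there is an invertible matrix `g` with entries in the
number field `K`, of height at most `T`, such that `t (Q) = g t (P)`. -/
def Step {K : Type} [Field K] [NumberField K] (ι : K →+* ℂ) (t : Fin k → A) (T : ℝ)
    (P Q : A →+* ℂ) : Prop :=
  ∃ g : Matrix (Fin k) (Fin k) K, IsUnit g.det ∧ (∀ a b, hgt (g a b) ≤ T) ∧
    ∀ a, Q (t a) = ∑ b, ι (g a b) * P (t b)

/-- The ideal of `ℂ[X₁, …, X_k]` generated by the relations over `O_{F₀}` between the generators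
`t` of `A`. -/
def relIdeal (σ : F₀ →+* ℂ) (ψ : 𝓞 F₀ →+* A) (t : Fin k → A) : Ideal (MvPolynomial (Fin k) ℂ) :=
  (RingHom.ker (MvPolynomial.eval₂Hom ψ t)).map
    (MvPolynomial.map (σ.comp (algebraMap (𝓞 F₀) F₀)))

/-- `Spec A` is, over `ℂ`, cut out in affine space by equations over the number field `K` of degree
at most `D` with coefficients of height at most `T`. -/
def CutOut {K : Type} [Field K] [NumberField K] (ι : K →+* ℂ) (σ : F₀ →+* ℂ) (ψ : 𝓞 F₀ →+* A)
    (t : Fin k → A) (D : ℕ) (T : ℝ) : Prop :=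
  ∃ E : Set (MvPolynomial (Fin k) K), (∀ f ∈ E, f.totalDegree ≤ D ∧ ∀ m, hgt (f.coeff m) ≤ T) ∧
    Ideal.span (MvPolynomial.map ι '' E) = relIdeal σ ψ t

/-- The points `P` and `Q` are joined by a walk of arbitrary length, all of whose points are
outside `V'` and all of whose steps are linear steps of height at most `T`. -/
def Joined {K : Type} [Field K] [NumberField K] (ι : K →+* ℂ) (σ : F₀ →+* ℂ) (i : V' ⟶ V)
    (ψ : 𝓞 F₀ →+* A) (j : Spec A ⟶ V) (t : Fin k → A) (T : ℝ) (P Q : A →+* ℂ) : Prop :=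
  ∃ (N : ℕ) (c : ℕ → (A →+* ℂ)), c 0 = P ∧ c N = Q ∧ (∀ n ≤ N, c n ∈ outside σ i ψ j) ∧
    ∀ n < N, Step ι t T (c n) (c (n + 1))

/-- `j : Spec A ⟶ V` has finite fibres on complex points over `σ`. -/
def FinFib (σ : F₀ →+* ℂ) (ψ : 𝓞 F₀ →+* A) (j : Spec A ⟶ V) : Prop :=
  ∀ v : Spec (CommRingCat.of ℂ) ⟶ V, {P : A →+* ℂ |
    P.comp ψ = σ.comp (algebraMap (𝓞 F₀) F₀) ∧ Spec.map (CommRingCat.ofHom P) ≫ j = v}.Finite

/-- Condition (ii) along linear walks. `A` is an `O_{F₀}`-algebra (structure map `ψ`) with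
generators `t 0, …, t (k - 1)` and `j : Spec A ⟶ V` is a morphism over `O_{F₀}` with finite fibres.
Walks (of arbitrary length) of complex points of `Spec A` with images outside `V'`, with linear
steps of height at most `T` over the number field `K`, starting at a given point `P`, reach only
finitely many points. -/
def CondIIwalk (σ : F₀ →+* ℂ) (π : V ⟶ Spec (CommRingCat.of (𝓞 F₀))) (i : V' ⟶ V) : Prop :=
  ∀ (A : CommRingCat.{0}) (ψ : 𝓞 F₀ →+* A) (k : ℕ) (t : Fin k → A)
    (_ : Function.Surjective (MvPolynomial.eval₂Hom ψ t)) (j : Spec A ⟶ V)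
    (_ : j ≫ π = Spec.map (CommRingCat.ofHom ψ)) (_ : FinFib σ ψ j)
    (K : Type) [Field K] [NumberField K] (ι : K →+* ℂ) (T : ℝ) (P : A →+* ℂ),
    {Q | Joined ι σ i ψ j t T P Q}.Finite

/-- Bounded displacement of linear walks, with the function `C`. `A` is an `O_{F₀}`-algebra
(structure map `ψ`) with generators `t 0, …, t (k - 1)`, whose complex fibre is cut out in affine
space by equations over the number field `K` of degree at most `D` and height at most `T`, and
`j : Spec A ⟶ V` is a morphism over `O_{F₀}` with finite fibres. If a walk (of arbitrary length) of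
complex points of `Spec A` with images outside `V'`, with linear steps of height at most `T` over
`K`, joins `P` to `Q`, then `Q` is reached from `P` by one linear step of height at most
`C k D * T`. -/
def CondWalk (C : ℕ → ℕ → ℝ) (σ : F₀ →+* ℂ) (π : V ⟶ Spec (CommRingCat.of (𝓞 F₀)))
    (i : V' ⟶ V) : Prop :=
  ∀ (A : CommRingCat.{0}) (ψ : 𝓞 F₀ →+* A) (k : ℕ) (t : Fin k → A)
    (_ : Function.Surjective (MvPolynomial.eval₂Hom ψ t)) (j : Spec A ⟶ V)
    (_ : j ≫ π = Spec.map (CommRingCat.ofHom ψ)) (_ : FinFib σ ψ j)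
    (K : Type) [Field K] [NumberField K] (ι : K →+* ℂ) (D : ℕ) (T : ℝ) (_ : 1 ≤ T)
    (_ : CutOut ι σ ψ t D T) (P Q : A →+* ℂ),
    Joined ι σ i ψ j t T P Q → Step ι t (C k D * T) P Q

end Pool.Agent.Work.MP_e97a4d_nt.Chain
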