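import Pool.Agent.Work.MP_e97a4d_nt.CtDefs
import Pool.Agent.Work.MP_e97a4d_nt.ChFin

/-!
The uniform bound for linear walks implies the finiteness of the set of points reached by walks.
-/

set_option autoImplicit false

noncomputable section

namespace Pool.Agent.Work.MP_e97a4d_nt.Chain

open AlgebraicGeometry CategoryTheory NumberField

variable {F₀ : Type} [Field F₀] {k : ℕ}

theorem cutSet_of_cutOut {K : Type} [Field K] [NumberField K] (ι : K →+* ℂ) (σ : F₀ →+* ℂ)
    {A : CommRingCat.{0}} (ψ : 𝓞 F₀ →+* A) (t : Fin k → A)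
    (ht : Function.Surjective (MvPolynomial.eval₂Hom ψ t)) {D : ℕ} {T : ℝ}
    (h : CutOut ι σ ψ t D T) : CutSet σ ψ t D := by
  obtain ⟨E, hE, hspan⟩ := h
  refine ⟨MvPolynomial.map ι '' E, ?_, fun x => ⟨fun hx => ?_, ?_⟩⟩
  · rintro _ ⟨f, hf, rfl⟩
    exact (Finset.sup_mono (MvPolynomial.support_map_subset ι f)).trans (hE f hf).1
  · set ρ : 𝓞 F₀ →+* ℂ := σ.comp (algebraMap (𝓞 F₀) F₀) with hρ
    have h1 : relIdeal σ ψ t ≤ RingHom.ker (MvPolynomial.eval x : MvPolynomial (Fin k) ℂ →+* ℂ) := by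
      rw [← hspan, Ideal.span_le]
      intro e he
      rw [SetLike.mem_coe, RingHom.mem_ker]
      exact hx e he
    have hker : RingHom.ker (MvPolynomial.eval₂Hom ψ t) ≤
        RingHom.ker (MvPolynomial.eval₂Hom ρ x) := by
      intro f hf
      have h2 : MvPolynomial.map ρ f ∈ relIdeal σ ψ t := Ideal.mem_map_of_mem _ hf
      have h3 := h1 h2
      rw [RingHom.mem_ker, MvPolynomial.eval_map] at h3
      rw [RingHom.mem_ker]
      exact h3
    have hg : ∀ f, RingHom.liftOfSurjective (MvPolynomial.eval₂Hom ψ t) ht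
        ⟨MvPolynomial.eval₂Hom ρ x, hker⟩ (MvPolynomial.eval₂Hom ψ t f) =
        MvPolynomial.eval₂Hom ρ x f := fun f =>
      RingHom.liftOfRightInverse_comp_apply _ _ _ ⟨MvPolynomial.eval₂Hom ρ x, hker⟩ f
    refine ⟨RingHom.liftOfSurjective (MvPolynomial.eval₂Hom ψ t) ht
      ⟨MvPolynomial.eval₂Hom ρ x, hker⟩, ?_, fun a => ?_⟩
    · apply RingHom.ext
      intro r
      have := hg (MvPolynomial.C r)
      rwa [MvPolynomial.eval₂Hom_C, MvPolynomial.eval₂Hom_C] at this
    · have := hg (MvPolynomial.X a)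
      rwa [MvPolynomial.eval₂Hom_X', MvPolynomial.eval₂Hom_X'] at this
  · rintro ⟨P, hP, hPx⟩ f hf
    have h1 : x = fun a => P (t a) := funext fun a => (hPx a).symm
    rw [h1]
    refine eval_relIdeal σ ψ t P hP ?_
    rw [← hspan]
    exact Ideal.subset_span hf

variable [NumberField F₀] {V V' : Scheme.{0}}

theorem condIIwalk_of_condCount (C : ℕ → ℕ → ℕ) (σ : F₀ →+* ℂ)
    (π : V ⟶ Spec (CommRingCat.of (𝓞 F₀))) (i : V' ⟶ V) (h : CondCount C σ π i) :
    CondIIwalk σ π i := by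
  classical
  intro A ψ k t ht j hj hfib K _ _ ι T P
  obtain ⟨D, T₀, hcut⟩ := exists_cutOut σ ψ t
  have hcut' : CutSet σ ψ t D :=
    cutSet_of_cutOut σ σ ψ t ht (hcut F₀ (RingHom.id F₀) σ (RingHom.comp_id σ) T₀ le_rfl)
  -- the matrices
  let m : Matrix (Fin k) (Fin k) K → Matrix.GeneralLinearGroup (Fin k) ℂ := fun g =>
    if hg : IsUnit g.det then Matrix.GeneralLinearGroup.map ι (Matrix.nonsingInvUnit g hg) else 1
  let S : Finset (Matrix.GeneralLinearGroup (Fin k) ℂ) :=
    insert 1 ((finite_matrices K k T).toFinset.image m)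
  have hlink : ∀ P Q : A →+* ℂ, Step ι t T P Q → Link t S P Q := by
    rintro P Q ⟨g, h1, h2, h3⟩
    refine ⟨m g, Finset.mem_insert_of_mem (Finset.mem_image_of_mem _
      ((Set.Finite.mem_toFinset _).2 h2)), Or.inl fun a => ?_⟩
    rw [h3 a]
    refine Finset.sum_congr rfl fun b _ => ?_
    have e : m g = Matrix.GeneralLinearGroup.map ι (Matrix.nonsingInvUnit g h1) := dif_pos h1
    rw [e]
    rfl
  have hlink' : ∀ P Q : A →+* ℂ, Link t S P Q → Link t S Q P := by
    rintro P Q ⟨g, h1, h2 | h2⟩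
    · exact ⟨g, h1, Or.inr h2⟩
    · exact ⟨g, h1, Or.inl h2⟩
  refine (h A ψ k t ht j hj hfib D hcut' S (Finset.insert_nonempty _ _)
    {Q | Joined ι σ i ψ j t T P Q} ?_ ?_).1
  · rintro Q ⟨N, c, -, h2, h3, -⟩
    rw [← h2]
    exact h3 N le_rfl
  · rintro Q ⟨N, c, h1, h2, h3, h4⟩ Q' ⟨N', c', h1', h2', h3', h4'⟩
    refine ⟨N + N', fun n => if n ≤ N then c (N - n) else c' (n - N), ?_, ?_, ?_, ?_⟩
    · simp [h2]
    · by_cases hN : N + N' ≤ N
      · have hN' : N' = 0 := by omega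
        subst hN'
        simp [← h2', h1, h1']
      · simp only [if_neg hN]
        rw [Nat.add_sub_cancel_left, h2']
    · intro n hn
      by_cases hnN : n ≤ N
      · simp only [if_pos hnN]
        exact ⟨N - n, c, h1, rfl, fun l hl => h3 l (by omega), fun l hl => h4 l (by omega)⟩
      · simp only [if_neg hnN]
        exact ⟨n - N, c', h1', rfl, fun l hl => h3' l (by omega), fun l hl => h4' l (by omega)⟩
    · intro n hn
      by_cases hnN : n + 1 ≤ N
      · simp only [if_pos hnN, if_pos (show n ≤ N by omega)]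
        refine hlink' _ _ (hlink _ _ ?_)
        have := h4 (N - (n + 1)) (by omega)
        rwa [show N - (n + 1) + 1 = N - n by omega] at this
      · simp only [if_neg hnN]
        by_cases hnN' : n ≤ N
        · have hn' : n = N := by omega
          subst hn'
          simp only [le_refl, if_true, Nat.sub_self]
          rw [h1, ← h1', show n + 1 - n = 0 + 1 by omega]
          exact hlink _ _ (h4' 0 (by omega))
        · simp only [if_neg hnN']
          rw [show n + 1 - N = (n - N) + 1 by omega]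
          exact hlink _ _ (h4' (n - N) (by omega))

theorem condCount_mono {C C' : ℕ → ℕ → ℕ} (hC : ∀ k D, C k D ≤ C' k D) {σ : F₀ →+* ℂ}
    {π : V ⟶ Spec (CommRingCat.of (𝓞 F₀))} {i : V' ⟶ V} (h : CondCount C σ π i) :
    CondCount C' σ π i := by
  intro A ψ k t ht j hj hfib D hcut S hS X hX hconn
  obtain ⟨h1, h2⟩ := h A ψ k t ht j hj hfib D hcut S hS X hX hconn
  exact ⟨h1, h2.trans (Nat.mul_le_mul (hC k D) (Nat.pow_le_pow_right hS.card_pos (hC k D)))⟩

theorem condWalk_mono {C C' : ℕ → ℕ → ℝ} (hC : ∀ k D, C k D ≤ C' k D) {σ : F₀ →+* ℂ}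
    {π : V ⟶ Spec (CommRingCat.of (𝓞 F₀))} {i : V' ⟶ V} (h : CondWalk C σ π i) :
    CondWalk C' σ π i := by
  intro A ψ k t ht j hj hfib K _ _ ι D T hT hcut P Q hPQ
  obtain ⟨g, h1, h2, h3⟩ := h A ψ k t ht j hj hfib K ι D T hT hcut P Q hPQ
  exact ⟨g, h1, fun a b => (h2 a b).trans
    (mul_le_mul_of_nonneg_right (hC k D) (zero_le_one.trans hT)), h3⟩

end Pool.Agent.Work.MP_e97a4d_nt.Chain
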