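import Pool.Agent.Work.MP_e97a4d_nt.ChMainDefs

/-!
Definitions for the uniform bound for the number of points of linear walks.
-/

set_option autoImplicit false

noncomputable section

namespace Pool.Agent.Work.MP_e97a4d_nt.Chain

open AlgebraicGeometry CategoryTheory NumberField

variable {F₀ : Type} [Field F₀] {V V' : Scheme.{0}} {A : CommRingCat.{0}} {k : ℕ}

/-- The points `P` and `Q` are linked by one of the matrices `g` in the list `S`:
`t (Q) = g t (P)` or `t (P) = g t (Q)`. -/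
def Link (t : Fin k → A) (S : Finset (Matrix.GeneralLinearGroup (Fin k) ℂ)) (P Q : A →+* ℂ) :
    Prop :=
  ∃ g ∈ S, (∀ a, Q (t a) = ∑ b, g.1 a b * P (t b)) ∨ ∀ a, P (t a) = ∑ b, g.1 a b * Q (t b)

/-- The complex points of `Spec A` (over `σ`) are, in the coordinates `t 0, …, t (k - 1)`, the
common zeros of complex polynomials of degree at most `D`. -/
def CutSet (σ : F₀ →+* ℂ) (ψ : 𝓞 F₀ →+* A) (t : Fin k → A) (D : ℕ) : Prop :=
  ∃ E : Set (MvPolynomial (Fin k) ℂ), (∀ f ∈ E, f.totalDegree ≤ D) ∧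
    ∀ x : Fin k → ℂ, (∀ f ∈ E, MvPolynomial.eval x f = 0) ↔
      ∃ P : A →+* ℂ, P.comp ψ = σ.comp (algebraMap (𝓞 F₀) F₀) ∧ ∀ a, P (t a) = x a

/-- The set `X` of points of `Spec A` is connected by links: any two of its points are joined by
a walk (of arbitrary length) in `X`. -/
def Connected (t : Fin k → A) (S : Finset (Matrix.GeneralLinearGroup (Fin k) ℂ))
    (X : Set (A →+* ℂ)) : Prop :=
  ∀ P ∈ X, ∀ Q ∈ X, ∃ (N : ℕ) (c : ℕ → (A →+* ℂ)), c 0 = P ∧ c N = Q ∧ (∀ n ≤ N, c n ∈ X) ∧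
    ∀ n < N, Link t S (c n) (c (n + 1))

/-- The uniform bound for linear walks, with the function `C`. `A` is an `O_{F₀}`-algebra
(structure map `ψ`) with generators `t 0, …, t (k - 1)`, such that `Spec A` is, as a set, defined
over `ℂ` in affine space by equations of degree at most `D`, and `j : Spec A ⟶ V` is a morphism
over `O_{F₀}` with finite fibres. For every list `S` of `s ≥ 1` complex matrices, a set `X` of
complex points of `Spec A` with images outside `V'` which is connected by links from `S` has at most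
`C k D * s ^ C k D` points. -/
def CondCount (C : ℕ → ℕ → ℕ) (σ : F₀ →+* ℂ) (π : V ⟶ Spec (CommRingCat.of (𝓞 F₀)))
    (i : V' ⟶ V) : Prop :=
  ∀ (A : CommRingCat.{0}) (ψ : 𝓞 F₀ →+* A) (k : ℕ) (t : Fin k → A)
    (_ : Function.Surjective (MvPolynomial.eval₂Hom ψ t)) (j : Spec A ⟶ V)
    (_ : j ≫ π = Spec.map (CommRingCat.ofHom ψ)) (_ : FinFib σ ψ j) (D : ℕ)
    (_ : CutSet σ ψ t D) (S : Finset (Matrix.GeneralLinearGroup (Fin k) ℂ)) (_ : S.Nonempty)
    (X : Set (A →+* ℂ)), X ⊆ outside σ i ψ j → Connected t S X →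
    X.Finite ∧ X.ncard ≤ C k D * S.card ^ C k D

end Pool.Agent.Work.MP_e97a4d_nt.Chain
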