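import Mathlib

/-!
Differential algebra core: linear differential systems and commuting derivations.
-/

set_option autoImplicit false
set_option linter.unusedSectionVars false

noncomputable section

namespace Pool.Agent.Work.MP_e97a4d_nt

open scoped BigOperators

section Descent

variable {C L : Type*} [Field C] [Field L] [Algebra C L] (d : Derivation C L L)
  (hconst : ∀ x : L, d x = 0 → x ∈ Set.range (algebraMap C L))

include hconst in
/-- A `d`-stable subspace of `α → L` (`α` finite) is spanned by its constant vectors. -/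
theorem descent_finite {α : Type*} [Fintype α] (W : Submodule L (α → L))
    (hW : ∀ x ∈ W, (fun a => d (x a)) ∈ W) :
    ∀ x ∈ W, x ∈ Submodule.span L {v | v ∈ W ∧ ∀ a, v a ∈ Set.range (algebraMap C L)} := by
  classical
  -- strong induction on the size of the support
  have key : ∀ n : ℕ, ∀ x ∈ W, (Finset.univ.filter (fun a => x a ≠ 0)).card ≤ n →
      x ∈ Submodule.span L {v | v ∈ W ∧ ∀ a, v a ∈ Set.range (algebraMap C L)} := by
    intro n
    induction n with
    | zero =>
      intro x _ hc
      have : x = 0 := by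
        funext a
        by_contra h
        have : a ∈ Finset.univ.filter (fun a => x a ≠ 0) := by simpa using h
        have := Finset.card_pos.mpr ⟨a, this⟩
        omega
      rw [this]; exact Submodule.zero_mem _
    | succ n ih =>
      intro x hx hc
      by_cases hx0 : x = 0
      · rw [hx0]; exact Submodule.zero_mem _
      -- choose a nonzero element with support contained in supp x, of minimal support
      let P : ℕ → Prop := fun m => ∃ y ∈ W, y ≠ 0 ∧ (∀ a, x a = 0 → y a = 0) ∧
        (Finset.univ.filter (fun a => y a ≠ 0)).card = m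
      have hP : ∃ m, P m := ⟨_, x, hx, hx0, fun a h => h, rfl⟩
      obtain ⟨y, hyW, hy0, hysupp, hycard⟩ := Nat.find_spec hP
      have hmin : ∀ z ∈ W, z ≠ 0 → (∀ a, x a = 0 → z a = 0) →
          Nat.find hP ≤ (Finset.univ.filter (fun a => z a ≠ 0)).card := by
        intro z hz hz0 hzs
        exact Nat.find_min' hP ⟨z, hz, hz0, hzs, rfl⟩
      obtain ⟨a₀, ha₀⟩ : ∃ a₀, y a₀ ≠ 0 := by
        by_contra h
        push Not at h
        exact hy0 (funext h)
      -- normalise
      set v : α → L := (y a₀)⁻¹ • y with hv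
      have hvW : v ∈ W := W.smul_mem _ hyW
      have hva₀ : v a₀ = 1 := by simp [hv, ha₀]
      have hvsupp : ∀ a, y a = 0 ↔ v a = 0 := by
        intro a; simp [hv, ha₀]
      have hdv : (fun a => d (v a)) = 0 := by
        by_contra hne
        have h1 := hmin _ (hW v hvW) hne (by
          intro a ha
          have : v a = 0 := (hvsupp a).1 (hysupp a ha)
          simp [this])
        rw [← hycard] at h1
        have h2 : (Finset.univ.filter (fun a => d (v a) ≠ 0)) ⊂
            (Finset.univ.filter (fun a => y a ≠ 0)) := by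
          rw [Finset.ssubset_iff_of_subset]
          · refine ⟨a₀, by simpa using ha₀, ?_⟩
            simp [hva₀]
          · intro a ha
            simp only [Finset.mem_filter, Finset.mem_univ, true_and] at ha ⊢
            intro h
            apply ha
            rw [(hvsupp a).1 h]; simp
        exact absurd (Finset.card_lt_card h2) (not_lt.mpr h1)
      have hvconst : v ∈ {v | v ∈ W ∧ ∀ a, v a ∈ Set.range (algebraMap C L)} :=
        ⟨hvW, fun a => hconst _ (congrFun hdv a)⟩
      -- subtract
      set x' : α → L := x - x a₀ • v with hx'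
      have hx'W : x' ∈ W := W.sub_mem hx (W.smul_mem _ hvW)
      have hx'card : (Finset.univ.filter (fun a => x' a ≠ 0)).card ≤ n := by
        have h2 : (Finset.univ.filter (fun a => x' a ≠ 0)) ⊂
            (Finset.univ.filter (fun a => x a ≠ 0)) := by
          rw [Finset.ssubset_iff_of_subset]
          · refine ⟨a₀, ?_, ?_⟩
            · simp only [Finset.mem_filter, Finset.mem_univ, true_and]
              intro h
              exact ha₀ (hysupp _ h)
            · simp [hx', hva₀]
          · intro a ha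
            simp only [Finset.mem_filter, Finset.mem_univ, true_and] at ha ⊢
            intro h
            apply ha
            have : v a = 0 := (hvsupp a).1 (hysupp a h)
            simp [hx', h, this]
        have := Finset.card_lt_card h2
        omega
      have hx'mem := ih x' hx'W hx'card
      have : x = x' + x a₀ • v := by simp [hx']
      rw [this]
      exact Submodule.add_mem _ hx'mem (Submodule.smul_mem _ _ (Submodule.subset_span hvconst))
  intro x hx
  exact key _ x hx le_rfl

end Descent

section Commuting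

/-- The algebra generated over `K` by the entries of `Φ`. -/
abbrev solAlg (K : Type*) {L : Type*} [Field K] [Field L] [Algebra K L] {ι : Type*}
    (Φ : ι → ι → L) : Subalgebra K L :=
  Algebra.adjoin K (Set.range (fun p : ι × ι => Φ p.1 p.2))

variable {C K L : Type*} [Field C] [Field K] [Field L] [Algebra C L] [Algebra K L] [Algebra C K]
  [IsScalarTower C K L] (d : Derivation C L L)
  (hconst : ∀ x : L, d x = 0 → x ∈ Set.range (algebraMap C L))
  (hK : ∀ k : K, ∃ k' : K, d (algebraMap K L k) = algebraMap K L k')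
  {ι : Type*} [Fintype ι] [DecidableEq ι] (Φ : ι → ι → L) (A : ι → ι → K)
  (hΦ : ∀ i j, d (Φ i j) = ∑ k, algebraMap K L (A i k) * Φ k j)

theorem mem_solAlg (i j : ι) : Φ i j ∈ solAlg K Φ :=
  Algebra.subset_adjoin ⟨(i, j), rfl⟩

/-- the generator as an element of the algebra -/
abbrev gen (i j : ι) : solAlg K Φ := ⟨Φ i j, mem_solAlg Φ i j⟩

include hK hΦ in
theorem d_mem_solAlg (r : L) (hr : r ∈ solAlg K Φ) : d r ∈ solAlg K Φ := by
  induction hr using Algebra.adjoin_induction with
  | mem x hx =>
    obtain ⟨⟨i, j⟩, rfl⟩ := hx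
    simp only
    rw [hΦ]
    refine Subalgebra.sum_mem _ fun k _ => ?_
    exact Subalgebra.mul_mem _ (Subalgebra.algebraMap_mem _ _) (mem_solAlg Φ k j)
  | algebraMap k =>
    obtain ⟨k', hk'⟩ := hK k
    rw [hk']
    exact Subalgebra.algebraMap_mem _ _
  | add x y _ _ hx hy => rw [map_add]; exact Subalgebra.add_mem _ hx hy
  | mul x y hx' hy' hx hy =>
    rw [Derivation.leibniz, smul_eq_mul, smul_eq_mul]
    exact Subalgebra.add_mem _ (Subalgebra.mul_mem _ hx' hy) (Subalgebra.mul_mem _ hy' hx)

/-- two derivations of `solAlg` agreeing on the generators agree -/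
theorem der_ext {M : Type*} [AddCommGroup M] [Module K M] [Module (solAlg K Φ) M]
    (δ₁ δ₂ : Derivation K (solAlg K Φ) M) (h : ∀ i j, δ₁ (gen Φ i j) = δ₂ (gen Φ i j)) :
    δ₁ = δ₂ := by
  apply Derivation.ext
  rintro ⟨r, hr⟩
  induction hr using Algebra.adjoin_induction with
  | mem x hx =>
    obtain ⟨⟨i, j⟩, rfl⟩ := hx
    exact h i j
  | algebraMap k =>
    have : (⟨algebraMap K L k, Subalgebra.algebraMap_mem _ k⟩ : solAlg K Φ) =
      algebraMap K (solAlg K Φ) k := rfl
    rw [this, Derivation.map_algebraMap, Derivation.map_algebraMap]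
  | add x y hx' hy' hx hy =>
    have : (⟨x + y, Subalgebra.add_mem _ hx' hy'⟩ : solAlg K Φ) = ⟨x, hx'⟩ + ⟨y, hy'⟩ := rfl
    rw [this, map_add, map_add, hx, hy]
  | mul x y hx' hy' hx hy =>
    have : (⟨x * y, Subalgebra.mul_mem _ hx' hy'⟩ : solAlg K Φ) = ⟨x, hx'⟩ * ⟨y, hy'⟩ := rfl
    rw [this, Derivation.leibniz, Derivation.leibniz, hx, hy]

/-- the derivation `d` restricted to the solution algebra, as a function. -/
def dR (r : solAlg K Φ) : solAlg K Φ := ⟨d r, d_mem_solAlg d hK Φ A hΦ r r.2⟩

@[simp] theorem dR_coe (r : solAlg K Φ) : (dR d hK Φ A hΦ r : L) = d r := rfl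

/-- commutator of `d` with a `K`-derivation of `solAlg` -/
def commDer (δ : Derivation K (solAlg K Φ) L) : Derivation K (solAlg K Φ) L where
  toFun r := d (δ r) - δ (dR d hK Φ A hΦ r)
  map_add' r s := by
    have : dR d hK Φ A hΦ (r + s) = dR d hK Φ A hΦ r + dR d hK Φ A hΦ s := by
      apply Subtype.ext; simp
    rw [this]; simp only [map_add]; ring
  map_smul' k r := by
    obtain ⟨k', hk'⟩ := hK k
    have h1 : dR d hK Φ A hΦ (k • r) = k • dR d hK Φ A hΦ r + k' • r := by
      apply Subtype.ext
      have : ((k • r : solAlg K Φ) : L) = algebraMap K L k * r := by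
        rw [← Algebra.smul_def]; rfl
      have h2 : ((k • dR d hK Φ A hΦ r : solAlg K Φ) : L) = algebraMap K L k * d r := by
        rw [← Algebra.smul_def]; rfl
      have h3 : ((k' • r : solAlg K Φ) : L) = algebraMap K L k' * r := by
        rw [← Algebra.smul_def]; rfl
      rw [dR_coe, this, Derivation.leibniz, hk', Subalgebra.coe_add, h2, h3, smul_eq_mul,
        smul_eq_mul]
      ring
    have h4 : δ (k • r) = algebraMap K L k * δ r := by
      rw [Derivation.map_smul, Algebra.smul_def]
    have h5 : δ (k • dR d hK Φ A hΦ r) = algebraMap K L k * δ (dR d hK Φ A hΦ r) := by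
      rw [Derivation.map_smul, Algebra.smul_def]
    have h6 : δ (k' • r) = algebraMap K L k' * δ r := by
      rw [Derivation.map_smul, Algebra.smul_def]
    rw [h1, map_add, h4, h5, h6, Derivation.leibniz, hk', RingHom.id_apply, smul_eq_mul,
      smul_eq_mul, Algebra.smul_def]
    ring
  map_one_eq_zero' := by
    have : dR d hK Φ A hΦ 1 = 0 := by
      apply Subtype.ext; simp
    simp only [LinearMap.coe_mk, AddHom.coe_mk]
    rw [this]; simp
  leibniz' r s := by
    have : dR d hK Φ A hΦ (r * s) = r * dR d hK Φ A hΦ s + s * dR d hK Φ A hΦ r := by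
      apply Subtype.ext
      simp [Derivation.leibniz]
    simp only [LinearMap.coe_mk, AddHom.coe_mk]
    rw [this]
    simp only [Derivation.leibniz, map_add, Subalgebra.smul_def, smul_eq_mul, dR_coe]
    ring

theorem commDer_apply (δ : Derivation K (solAlg K Φ) L) (r : solAlg K Φ) :
    commDer d hK Φ A hΦ δ r = d (δ r) - δ (dR d hK Φ A hΦ r) := rfl

/-- The space of all matrices `B` over `L` such that `Φ ↦ Φ B` extends to a `K`-derivation. -/
def BB : Submodule L (ι × ι → L) where
  carrier := {B | ∃ δ : Derivation K (solAlg K Φ) L,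
    ∀ i j, δ (gen Φ i j) = ∑ k, Φ i k * B (k, j)}
  add_mem' := by
    rintro B₁ B₂ ⟨δ₁, h₁⟩ ⟨δ₂, h₂⟩
    refine ⟨δ₁ + δ₂, fun i j => ?_⟩
    rw [Derivation.add_apply, h₁, h₂, ← Finset.sum_add_distrib]
    refine Finset.sum_congr rfl fun k _ => ?_
    simp [mul_add]
  zero_mem' := ⟨0, fun i j => by simp⟩
  smul_mem' := by
    rintro l B ⟨δ, h⟩
    refine ⟨l • δ, fun i j => ?_⟩
    rw [Derivation.smul_apply, h, smul_eq_mul, Finset.mul_sum]
    refine Finset.sum_congr rfl fun k _ => ?_
    simp only [Pi.smul_apply, smul_eq_mul]; ring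

include d hK hΦ in
theorem BB_stable (B : ι × ι → L) (hB : B ∈ BB (K := K) Φ) :
    (fun p => d (B p)) ∈ BB (K := K) Φ := by
  obtain ⟨δ, h⟩ := hB
  refine ⟨commDer d hK Φ A hΦ δ, fun i j => ?_⟩
  have h1 : dR d hK Φ A hΦ (gen Φ i j) = ∑ k, A i k • gen Φ k j := by
    apply Subtype.ext
    rw [dR_coe]
    simp only [hΦ]
    rw [AddSubmonoidClass.coe_finsetSum]
    refine Finset.sum_congr rfl fun k _ => ?_
    rw [← Algebra.smul_def]; rfl
  rw [commDer_apply, h1, h, map_sum, map_sum]
  have h2 : ∀ k, δ (A i k • gen Φ k j) = ∑ m, algebraMap K L (A i k) * Φ k m * B (m, j) := by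
    intro k
    rw [Derivation.map_smul, h, Algebra.smul_def, Finset.mul_sum]
    exact Finset.sum_congr rfl fun m _ => by ring
  simp only [h2, Derivation.leibniz, smul_eq_mul, hΦ]
  rw [Finset.sum_add_distrib, Finset.sum_comm (f := fun k m => _ * _ * B (m, j))]
  have h3 : ∀ x, B (x, j) * ∑ k, algebraMap K L (A i k) * Φ k x =
      ∑ k, algebraMap K L (A i k) * Φ k x * B (x, j) := by
    intro x
    rw [Finset.mul_sum]
    exact Finset.sum_congr rfl fun k _ => by ring
  simp only [h3]
  ring

include d hconst hK hΦ in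
/-- Existence of a derivation commuting with `d` and moving a given element. -/
theorem exists_const_derivation (hdet : IsUnit (Matrix.det (Matrix.of Φ)))
    (r : solAlg K Φ) (δ : Derivation K (solAlg K Φ) L) (hδ : δ r ≠ 0) :
    ∃ (B : ι × ι → C) (Δ : Derivation K (solAlg K Φ) L),
      (∀ i j, Δ (gen Φ i j) = ∑ k, Φ i k * algebraMap C L (B (k, j))) ∧ Δ r ≠ 0 := by
  by_contra hcon
  push Not at hcon
  -- the property P(B): every derivation with matrix B kills r
  have key : ∀ B ∈ Submodule.span L {v | v ∈ BB (K := K) Φ ∧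
      ∀ a, v a ∈ Set.range (algebraMap C L)},
      B ∈ BB (K := K) Φ ∧ ∀ Δ : Derivation K (solAlg K Φ) L,
        (∀ i j, Δ (gen Φ i j) = ∑ k, Φ i k * B (k, j)) → Δ r = 0 := by
    intro B hB
    induction hB using Submodule.span_induction with
    | mem v hv =>
      refine ⟨hv.1, fun Δ hΔ => ?_⟩
      choose b hb using hv.2
      apply hcon b Δ
      intro i j
      rw [hΔ]
      exact Finset.sum_congr rfl fun k _ => by rw [hb]
    | zero =>
      refine ⟨Submodule.zero_mem _, fun Δ hΔ => ?_⟩
      have : Δ = 0 := der_ext Φ _ _ (fun i j => by rw [hΔ]; simp)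
      rw [this]; rfl
    | add v w _ _ hv hw =>
      refine ⟨Submodule.add_mem _ hv.1 hw.1, fun Δ hΔ => ?_⟩
      obtain ⟨δ₁, h₁⟩ := hv.1
      obtain ⟨δ₂, h₂⟩ := hw.1
      have : Δ = δ₁ + δ₂ := der_ext Φ _ _ (fun i j => by
        rw [hΔ, Derivation.add_apply, h₁, h₂, ← Finset.sum_add_distrib]
        exact Finset.sum_congr rfl fun k _ => by simp [mul_add])
      rw [this, Derivation.add_apply, hv.2 δ₁ h₁, hw.2 δ₂ h₂, add_zero]
    | smul l v _ hv =>
      refine ⟨Submodule.smul_mem _ _ hv.1, fun Δ hΔ => ?_⟩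
      obtain ⟨δ₁, h₁⟩ := hv.1
      have : Δ = l • δ₁ := der_ext Φ _ _ (fun i j => by
        rw [hΔ, Derivation.smul_apply, h₁, smul_eq_mul, Finset.mul_sum]
        exact Finset.sum_congr rfl fun k _ => by
          simp only [Pi.smul_apply, smul_eq_mul]; ring)
      rw [this, Derivation.smul_apply, hv.2 δ₁ h₁, smul_zero]
  -- the matrix of δ
  set Ψ : Matrix ι ι L := (Matrix.of Φ)⁻¹ with hΨ
  set B : ι × ι → L := fun p => ∑ m, Ψ p.1 m * δ (gen Φ m p.2) with hBdef
  have hB : ∀ i j, δ (gen Φ i j) = ∑ k, Φ i k * B (k, j) := by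
    intro i j
    have h1 : (Matrix.of Φ) * Ψ = 1 := Matrix.mul_nonsing_inv _ hdet
    calc δ (gen Φ i j) = ∑ m, (1 : Matrix ι ι L) i m * δ (gen Φ m j) := by
          simp [Matrix.one_apply]
      _ = ∑ m, (∑ k, Φ i k * Ψ k m) * δ (gen Φ m j) := by
          refine Finset.sum_congr rfl fun m _ => ?_
          rw [← h1, Matrix.mul_apply]; rfl
      _ = ∑ k, Φ i k * B (k, j) := by
          simp only [hBdef, Finset.sum_mul, Finset.mul_sum]
          rw [Finset.sum_comm]
          exact Finset.sum_congr rfl fun k _ => Finset.sum_congr rfl fun m _ => by ring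
  have hBB : B ∈ BB (K := K) Φ := ⟨δ, hB⟩
  have := descent_finite d hconst (BB (K := K) Φ) (BB_stable d hK Φ A hΦ) B hBB
  exact hδ ((key B this).2 δ hB)

end Commuting

section ExistsDer

open scoped TensorProduct

open scoped IntermediateField.algebraAdjoinAdjoin in
theorem exists_derivation_ne_zero {K L : Type} [Field K] [Field L] [CharZero K] [Algebra K L]
    (x : L) (hx : Transcendental K x) : ∃ δ : Derivation K L L, δ x ≠ 0 := by
  have hind : AlgebraicIndepOn K id ({x} : Set L) := by
    rw [AlgebraicIndepOn, algebraicIndependent_singleton_iff ⟨x, rfl⟩]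
    exact hx
  obtain ⟨t, hxt, ht⟩ := exists_isTranscendenceBasis_superset hind
  have hxt' : x ∈ t := hxt rfl
  have hb : AlgebraicIndependent K ((↑) : t → L) := ht.1
  have halg : Algebra.IsAlgebraic (IntermediateField.adjoin K (Set.range ((↑) : t → L))) L :=
    ht.isAlgebraic_field
  have hsep : Algebra.IsSeparable (IntermediateField.adjoin K (Set.range ((↑) : t → L))) L :=
    inferInstance
  have h1 : Algebra.FormallyEtale (Algebra.adjoin K (Set.range ((↑) : t → L)))
      (IntermediateField.adjoin K (Set.range ((↑) : t → L))) :=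
    .of_isLocalization (nonZeroDivisors _)
  have h2 : Algebra.FormallyEtale (IntermediateField.adjoin K (Set.range ((↑) : t → L))) L :=
    Algebra.FormallyEtale.of_isSeparable _ L
  have h3 : Algebra.FormallyEtale (Algebra.adjoin K (Set.range ((↑) : t → L))) L :=
    .comp _ (IntermediateField.adjoin K (Set.range ((↑) : t → L))) _
  let e : MvPolynomial t K ≃ₐ[K] Algebra.adjoin K (Set.range ((↑) : t → L)) := hb.aevalEquiv
  let alg : Algebra (MvPolynomial t K) (Algebra.adjoin K (Set.range ((↑) : t → L))) :=
    e.toRingHom.toAlgebra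
  let alg2 : Algebra (MvPolynomial t K) L :=
    ((algebraMap (Algebra.adjoin K (Set.range ((↑) : t → L))) L).comp e.toRingHom).toAlgebra
  have : IsScalarTower (MvPolynomial t K) (Algebra.adjoin K (Set.range ((↑) : t → L))) L :=
    IsScalarTower.of_algebraMap_eq (fun p => rfl)
  have : IsScalarTower K (MvPolynomial t K) L := IsScalarTower.of_algebraMap_eq (fun k => by
    show _ = (algebraMap (Algebra.adjoin K (Set.range ((↑) : t → L))) L) (e (algebraMap _ _ k))
    rw [AlgEquiv.commutes]; rfl)
  have h4 : Algebra.FormallyEtale (MvPolynomial t K) (Algebra.adjoin K (Set.range ((↑) : t → L))) := by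
    let e' : MvPolynomial t K ≃ₐ[MvPolynomial t K] Algebra.adjoin K (Set.range ((↑) : t → L)) :=
      AlgEquiv.ofRingEquiv (f := e.toRingEquiv) (fun p => rfl)
    exact Algebra.FormallyEtale.of_equiv e'
  have h5 : Algebra.FormallyEtale (MvPolynomial t K) L :=
    .comp _ (Algebra.adjoin K (Set.range ((↑) : t → L))) _
  -- derivation on polynomials
  classical
  let D₀ : Derivation K (MvPolynomial t K) L :=
    MvPolynomial.mkDerivation K (fun i => if i = ⟨x, hxt'⟩ then (1 : L) else 0)
  let φ : L ⊗[MvPolynomial t K] Ω[MvPolynomial t K⁄K] →ₗ[L] L :=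
    LinearMap.liftBaseChange L D₀.liftKaehlerDifferential
  let ψ : Ω[L⁄K] →ₗ[L] L :=
    φ.comp (KaehlerDifferential.tensorKaehlerEquivOfFormallyEtale K (MvPolynomial t K) L).symm.toLinearMap
  refine ⟨ψ.compDer (KaehlerDifferential.D K L), ?_⟩
  have hx' : algebraMap (MvPolynomial t K) L (MvPolynomial.X ⟨x, hxt'⟩) = x := by
    show ((e (MvPolynomial.X ⟨x, hxt'⟩) : Algebra.adjoin K (Set.range ((↑) : t → L))) : L) = x
    simp [e]
  have : ψ.compDer (KaehlerDifferential.D K L) x = 1 := by
    show φ ((KaehlerDifferential.tensorKaehlerEquivOfFormallyEtale K (MvPolynomial t K) L).symm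
      (KaehlerDifferential.D K L x)) = 1
    conv_lhs => rw [← hx']
    rw [KaehlerDifferential.tensorKaehlerEquivOfFormallyEtale_symm_D_algebraMap]
    simp [φ, D₀]
  rw [this]
  exact one_ne_zero

end ExistsDer

end Pool.Agent.Work.MP_e97a4d_nt
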