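import Mathlib
import Pool.Agent.Work.MP_e97a4d_nt.DiffCore
import Pool.Agent.Work.MP_e97a4d_nt.Weights

set_option autoImplicit false
set_option linter.unusedSectionVars false

noncomputable section

namespace Pool.Agent.Work.MP_e97a4d_nt

open scoped BigOperators

section Core3

variable {C K L : Type} [Field C] [Field K] [Field L] [Algebra C L] [Algebra K L] [Algebra C K]
  [IsScalarTower C K L] 
  {ι : Type} [Fintype ι] [DecidableEq ι] (Φ : ι → ι → L) 
  (B : ι × ι → C) (Δ : Derivation K (solAlg K Φ) L)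
  (hΔ : ∀ i j, Δ (gen Φ i j) = ∑ k, Φ i k * algebraMap C L (B (k, j)))

theorem algebraMap_C_mem (c : C) : algebraMap C L c ∈ solAlg K Φ := by
  rw [IsScalarTower.algebraMap_apply C K L]
  exact Subalgebra.algebraMap_mem _ _

include hΔ in
theorem Δ_mem (r : solAlg K Φ) : Δ r ∈ solAlg K Φ := by
  obtain ⟨r, hr⟩ := r
  induction hr using Algebra.adjoin_induction with
  | mem x hx =>
    obtain ⟨⟨i, j⟩, rfl⟩ := hx
    have := hΔ i j
    simp only [gen] at this
    rw [this]
    exact Subalgebra.sum_mem _ fun k _ =>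
      Subalgebra.mul_mem _ (mem_solAlg Φ i k) (algebraMap_C_mem Φ _)
  | algebraMap k =>
    have : (⟨algebraMap K L k, Subalgebra.algebraMap_mem _ k⟩ : solAlg K Φ) =
      algebraMap K (solAlg K Φ) k := rfl
    rw [this, Derivation.map_algebraMap]
    exact Subalgebra.zero_mem _
  | add x y hx' hy' hx hy =>
    have : (⟨x + y, Subalgebra.add_mem _ hx' hy'⟩ : solAlg K Φ) = ⟨x, hx'⟩ + ⟨y, hy'⟩ := rfl
    rw [this, map_add]
    exact Subalgebra.add_mem _ hx hy
  | mul x y hx' hy' hx hy =>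
    have : (⟨x * y, Subalgebra.mul_mem _ hx' hy'⟩ : solAlg K Φ) = ⟨x, hx'⟩ * ⟨y, hy'⟩ := rfl
    rw [this, Derivation.leibniz]
    exact Subalgebra.add_mem _ (Subalgebra.mul_mem _ hx' hy) (Subalgebra.mul_mem _ hy' hx)

/-- the derivation with values in the solution algebra -/
def ΔR : Derivation C (solAlg K Φ) (solAlg K Φ) where
  toFun r := ⟨Δ r, Δ_mem Φ B Δ hΔ r⟩
  map_add' r s := by apply Subtype.ext; simp
  map_smul' c r := by
    apply Subtype.ext
    have h1 : c • r = algebraMap C K c • r := by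
      rw [algebraMap_smul]
    have h2 : Δ (c • r) = algebraMap C K c • Δ r := by rw [h1, Derivation.map_smul]
    simp only [h2, RingHom.id_apply]
    rw [algebraMap_smul]
    rfl
  map_one_eq_zero' := by apply Subtype.ext; simp
  leibniz' r s := by
    apply Subtype.ext
    simp only [LinearMap.coe_mk, AddHom.coe_mk, Derivation.leibniz]
    rfl

theorem ΔR_coe (r : solAlg K Φ) : ((ΔR Φ B Δ hΔ r : solAlg K Φ) : L) = Δ r := rfl

theorem locFin_ΔR : LocFin (ΔR Φ B Δ hΔ) := by
  classical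
  rintro ⟨r, hr⟩
  induction hr using Algebra.adjoin_induction with
  | mem x hx =>
    obtain ⟨⟨i, j⟩, rfl⟩ := hx
    refine ⟨Submodule.span C (Set.range fun p : ι × ι => gen (K := K) Φ p.1 p.2),
      FiniteDimensional.span_of_finite C (Set.finite_range _),
      Submodule.subset_span ⟨(i, j), rfl⟩, ?_⟩
    intro w hw
    induction hw using Submodule.span_induction with
    | mem x hx =>
      obtain ⟨⟨i, j⟩, rfl⟩ := hx
      have : ΔR Φ B Δ hΔ (gen Φ i j) = ∑ k, B (k, j) • gen Φ i k := by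
        apply Subtype.ext
        rw [ΔR_coe, hΔ, AddSubmonoidClass.coe_finsetSum]
        refine Finset.sum_congr rfl fun k _ => ?_
        rw [mul_comm, ← Algebra.smul_def]
        rfl
      rw [this]
      exact Submodule.sum_mem _ fun k _ => Submodule.smul_mem _ _
        (Submodule.subset_span ⟨(i, k), rfl⟩)
    | zero => rw [map_zero]; exact Submodule.zero_mem _
    | add x y _ _ hx hy => rw [map_add]; exact Submodule.add_mem _ hx hy
    | smul c x _ hx => rw [Derivation.map_smul]; exact Submodule.smul_mem _ _ hx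
  | algebraMap k =>
    refine ⟨Submodule.span C {(⟨algebraMap K L k, Subalgebra.algebraMap_mem _ k⟩ : solAlg K Φ)},
      FiniteDimensional.span_singleton C _, Submodule.mem_span_singleton_self _, ?_⟩
    intro w hw
    obtain ⟨c, rfl⟩ := Submodule.mem_span_singleton.1 hw
    rw [Derivation.map_smul]
    have : ΔR Φ B Δ hΔ (⟨algebraMap K L k, Subalgebra.algebraMap_mem _ k⟩ : solAlg K Φ) = 0 := by
      apply Subtype.ext
      rw [ΔR_coe]
      have : (⟨algebraMap K L k, Subalgebra.algebraMap_mem _ k⟩ : solAlg K Φ) =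
        algebraMap K (solAlg K Φ) k := rfl
      rw [this, Derivation.map_algebraMap]
      rfl
    rw [this, smul_zero]
    exact Submodule.zero_mem _
  | add x y hx' hy' hx hy =>
    obtain ⟨W₁, h₁, hx₁, hW₁⟩ := hx
    obtain ⟨W₂, h₂, hy₂, hW₂⟩ := hy
    refine ⟨W₁ ⊔ W₂, inferInstance, ?_, ?_⟩
    · have : (⟨x + y, Subalgebra.add_mem _ hx' hy'⟩ : solAlg K Φ) = ⟨x, hx'⟩ + ⟨y, hy'⟩ := rfl
      rw [this]
      exact Submodule.add_mem_sup hx₁ hy₂
    · intro w hw
      obtain ⟨u, hu, v, hv, rfl⟩ := Submodule.mem_sup.1 hw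
      rw [map_add]
      exact Submodule.add_mem_sup (hW₁ u hu) (hW₂ v hv)
  | mul x y hx' hy' hx hy =>
    obtain ⟨W₁, h₁, hx₁, hW₁⟩ := hx
    obtain ⟨W₂, h₂, hy₂, hW₂⟩ := hy
    refine ⟨W₁ * W₂, ?_, ?_, ?_⟩
    · exact Module.Finite.iff_fg.2 (Submodule.FG.mul (Module.Finite.iff_fg.1 h₁)
        (Module.Finite.iff_fg.1 h₂))
    · have : (⟨x * y, Subalgebra.mul_mem _ hx' hy'⟩ : solAlg K Φ) = ⟨x, hx'⟩ * ⟨y, hy'⟩ := rfl
      rw [this]
      exact Submodule.mul_mem_mul hx₁ hy₂
    · intro w hw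
      induction hw using Submodule.mul_induction_on' with
      | mem_mul_mem u hu v hv =>
        rw [Derivation.leibniz, smul_eq_mul, smul_eq_mul]
        refine Submodule.add_mem _ (Submodule.mul_mem_mul hu (hW₂ v hv)) ?_
        rw [mul_comm v]
        exact Submodule.mul_mem_mul (hW₁ u hu) hv
      | add u _ v _ hu hv => rw [map_add]; exact Submodule.add_mem _ hu hv

end Core3

section Core4

variable {C K L : Type} [Field C] [Field K] [Field L] [Algebra C L] [Algebra K L] [Algebra C K]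
  [IsScalarTower C K L] [CharZero C] [IsAlgClosed C]

theorem exists_laurent_core (d : Derivation C L L)
    (hconst : ∀ x : L, d x = 0 → x ∈ Set.range (algebraMap C L))
    (hK : ∀ k : K, ∃ k' : K, d (algebraMap K L k) = algebraMap K L k')
    {ι : Type} [Fintype ι] [DecidableEq ι] (Φ : ι → ι → L) (M : ι → ι → K)
    (hΦ : ∀ i j, d (Φ i j) = ∑ k, algebraMap K L (M i k) * Φ k j)
    (hdet : IsUnit (Matrix.det (Matrix.of Φ)))
    {B A : Type} [CommRing B] [CommRing A] [Algebra B A] [hfg : Algebra.FiniteType B A]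
    (φ : A →+* L) (hφ : ∀ a, φ a ∈ solAlg K Φ)
    (hB : ∀ b : B, φ (algebraMap B A b) ∈ Set.range (algebraMap C L))
    (a₁ : A) (htr : Transcendental K (φ a₁)) :
    ∃ ψ : A →+* LaurentPolynomial L,
      (∀ b : B, ψ (algebraMap B A b) = LaurentPolynomial.C (φ (algebraMap B A b))) ∧
      (∃ a, ∀ l, ψ a ≠ LaurentPolynomial.C l) ∧ (∀ q, φ q ≠ 0 → ψ q ≠ 0) := by
  have : CharZero K := charZero_of_injective_algebraMap (algebraMap C K).injective
  obtain ⟨δ₀, hδ₀⟩ := exists_derivation_ne_zero (φ a₁) htr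
  obtain ⟨B', Δ, hΔ, hΔa⟩ := exists_const_derivation d hconst hK Φ M hΦ hdet ⟨φ a₁, hφ a₁⟩
    (δ₀.compAlgebraMap (solAlg K Φ)) hδ₀
  let φR : A →+* solAlg K Φ := φ.codRestrict _ hφ
  obtain ⟨ψ, h1, h2, h3⟩ := exists_laurent_of_locFin (locFin_ΔR Φ B' Δ hΔ)
    (algebraMap (solAlg K Φ) L) (fun x y h => Subtype.ext h) (B := B) φR (by
      intro b
      obtain ⟨c, hc⟩ := hB b
      refine ⟨c, Subtype.ext ?_⟩
      exact hc) ⟨a₁, by
      intro h
      exact hΔa (congrArg Subtype.val h)⟩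
  exact ⟨ψ, h1, h2, h3⟩

end Core4

end Pool.Agent.Work.MP_e97a4d_nt
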