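import Mathlib

set_option autoImplicit false
set_option linter.unusedSectionVars false

noncomputable section

namespace Pool.Agent.Work.MP_e97a4d_nt

open scoped BigOperators
open Finset PowerSeries

section FormalODE

variable {k : Type*} [Field k] [CharZero k] {ι : Type*} [Fintype ι] [DecidableEq ι]

/-- coefficients of the fundamental matrix of `Y' = A Y`, `Y(0) = 1`. -/
def fundCoeff (A : ℕ → Matrix ι ι k) : ℕ → Matrix ι ι k
  | 0 => 1
  | n + 1 => ((n + 1 : k)⁻¹) • ∑ m : Fin (n + 1), A (n - m.1) * fundCoeff A m.1
  decreasing_by exact m.2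

variable (A : ι → ι → PowerSeries k)

/-- matrix of coefficients -/
def coeffMat (n : ℕ) : Matrix ι ι k := Matrix.of fun i j => PowerSeries.coeff n (A i j)

/-- the fundamental matrix -/
def fund (i j : ι) : PowerSeries k := PowerSeries.mk fun n => fundCoeff (coeffMat A) n i j

theorem constantCoeff_fund (i j : ι) :
    PowerSeries.constantCoeff (fund A i j) = (1 : Matrix ι ι k) i j := by
  rw [← PowerSeries.coeff_zero_eq_constantCoeff_apply, fund, PowerSeries.coeff_mk, fundCoeff]

theorem coeff_mul' (p q : PowerSeries k) (n : ℕ) :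
    PowerSeries.coeff n (p * q) =
      ∑ m : Fin (n + 1), PowerSeries.coeff (n - m.1) p * PowerSeries.coeff m.1 q := by
  rw [PowerSeries.coeff_mul, ← Finset.Nat.sum_antidiagonal_swap,
    Finset.Nat.sum_antidiagonal_eq_sum_range_succ_mk, Finset.sum_range]
  rfl

theorem deriv_fund (i j : ι) :
    PowerSeries.derivative k (fund A i j) = ∑ l, A i l * fund A l j := by
  ext n
  rw [PowerSeries.coeff_derivative, fund, PowerSeries.coeff_mk, map_sum]
  have h : ((n : k) + 1) ≠ 0 := by exact_mod_cast Nat.succ_ne_zero n
  have h1 : fundCoeff (coeffMat A) (n + 1) i j * ((n : k) + 1) =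
      ∑ m : Fin (n + 1), ∑ l, PowerSeries.coeff (n - m.1) (A i l) *
        fundCoeff (coeffMat A) m.1 l j := by
    rw [fundCoeff, Matrix.smul_apply, smul_eq_mul, mul_comm, ← mul_assoc, mul_inv_cancel₀ h,
      one_mul, Matrix.sum_apply]
    refine Finset.sum_congr rfl fun m _ => ?_
    rw [Matrix.mul_apply]
    rfl
  rw [h1, Finset.sum_comm]
  refine Finset.sum_congr rfl fun l _ => ?_
  rw [coeff_mul']
  refine Finset.sum_congr rfl fun m _ => ?_
  rw [fund, PowerSeries.coeff_mk]

theorem eq_zero_of_system (u : ι → PowerSeries k)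
    (hu : ∀ i, PowerSeries.derivative k (u i) = ∑ l, A i l * u l)
    (h0 : ∀ i, PowerSeries.constantCoeff (u i) = 0) : ∀ i, u i = 0 := by
  have key : ∀ n i, PowerSeries.coeff n (u i) = 0 := by
    intro n
    induction n using Nat.strong_induction_on with
    | _ n ih =>
      intro i
      rcases Nat.eq_zero_or_pos n with hn | hn
      · subst hn
        rw [PowerSeries.coeff_zero_eq_constantCoeff_apply, h0]
      · obtain ⟨m, rfl⟩ := Nat.exists_eq_succ_of_ne_zero hn.ne'
        have h1 := congrArg (PowerSeries.coeff m) (hu i)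
        rw [PowerSeries.coeff_derivative, map_sum] at h1
        have h2 : ∑ l, PowerSeries.coeff m (A i l * u l) = 0 := by
          refine Finset.sum_eq_zero fun l _ => ?_
          rw [coeff_mul']
          refine Finset.sum_eq_zero fun x _ => ?_
          rw [ih x.1 (by omega) l, mul_zero]
        rw [h2] at h1
        have h : ((m : k) + 1) ≠ 0 := by exact_mod_cast Nat.succ_ne_zero m
        exact (mul_eq_zero.1 h1).resolve_right h
  intro i
  ext n
  rw [key]; simp

theorem eq_fund_mul (y : ι → PowerSeries k)
    (hy : ∀ i, PowerSeries.derivative k (y i) = ∑ l, A i l * y l) (i : ι) :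
    y i = ∑ j, fund A i j * PowerSeries.C (PowerSeries.constantCoeff (y j)) := by
  have := eq_zero_of_system A
    (fun i => y i - ∑ j, fund A i j * PowerSeries.C (PowerSeries.constantCoeff (y j)))
    (fun i => by
      rw [map_sub, map_sum, hy]
      simp only [Derivation.leibniz, PowerSeries.derivative_C, smul_eq_mul, mul_zero, zero_add,
        deriv_fund, mul_sub, Finset.sum_sub_distrib]
      congr 1
      simp only [Finset.mul_sum]
      rw [Finset.sum_comm]
      refine Finset.sum_congr rfl fun l _ => ?_
      refine Finset.sum_congr rfl fun j _ => ?_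
      ring)
    (fun i => by
      rw [map_sub, map_sum]
      simp [constantCoeff_fund, Matrix.one_apply]) i
  exact sub_eq_zero.1 this

theorem isUnit_det_fund : IsUnit (Matrix.det (Matrix.of (fund A))) := by
  rw [PowerSeries.isUnit_iff_constantCoeff, RingHom.map_det]
  have : (PowerSeries.constantCoeff (R := k)).mapMatrix (Matrix.of (fund A)) = 1 := by
    ext i j
    rw [RingHom.mapMatrix_apply, Matrix.map_apply, Matrix.of_apply, constantCoeff_fund]
  rw [this, Matrix.det_one]
  exact isUnit_one

end FormalODE

end Pool.Agent.Work.MP_e97a4d_nt
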