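import Mathlib

set_option autoImplicit false
set_option linter.unusedSectionVars false

noncomputable section

namespace Pool.Agent.Work.MP_e97a4d_nt

open scoped BigOperators TensorProduct
open PowerSeries

/-- derivations extend along formally etale maps -/
theorem exists_der_ext {R S T M : Type*} [CommRing R] [CommRing S] [CommRing T] [Algebra R S]
    [Algebra R T] [Algebra S T] [IsScalarTower R S T] [Algebra.FormallyEtale S T]
    [AddCommGroup M] [Module R M] [Module S M] [Module T M] [IsScalarTower S T M]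
    [IsScalarTower R T M] [IsScalarTower R S M]
    (D : Derivation R S M) : ∃ D' : Derivation R T M, ∀ s, D' (algebraMap S T s) = D s := by
  let φ : T ⊗[S] Ω[S⁄R] →ₗ[T] M := LinearMap.liftBaseChange T D.liftKaehlerDifferential
  let ψ : Ω[T⁄R] →ₗ[T] M :=
    φ.comp (KaehlerDifferential.tensorKaehlerEquivOfFormallyEtale R S T).symm.toLinearMap
  refine ⟨ψ.compDer (KaehlerDifferential.D R T), fun s => ?_⟩
  change φ ((KaehlerDifferential.tensorKaehlerEquivOfFormallyEtale R S T).symm
      (KaehlerDifferential.D R T (algebraMap S T s))) = D s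
  rw [KaehlerDifferential.tensorKaehlerEquivOfFormallyEtale_symm_D_algebraMap]
  simp [φ]

/-- The field of formal Laurent series (as fraction field of power series) -/
abbrev LL : Type := FractionRing (PowerSeries ℂ)

theorem exists_dL : ∃ D : Derivation ℂ LL LL, ∀ s : PowerSeries ℂ,
    D (algebraMap (PowerSeries ℂ) LL s) = algebraMap (PowerSeries ℂ) LL (PowerSeries.derivative ℂ s) := by
  have h1 : Algebra.FormallyEtale (PowerSeries ℂ) LL :=
    .of_isLocalization (nonZeroDivisors (PowerSeries ℂ))
  exact exists_der_ext (R := ℂ) (S := PowerSeries ℂ) (T := LL) (M := LL)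
    ((Algebra.linearMap (PowerSeries ℂ) LL).compDer (PowerSeries.derivative ℂ))

/-- the derivation of the field of Laurent series -/
def dL : Derivation ℂ LL LL := exists_dL.choose

theorem dL_algebraMap (s : PowerSeries ℂ) :
    dL (algebraMap (PowerSeries ℂ) LL s) =
      algebraMap (PowerSeries ℂ) LL (PowerSeries.derivative ℂ s) := exists_dL.choose_spec s

theorem dL_inv (x : LL) : dL x⁻¹ = - (x⁻¹ ^ 2) * dL x := by
  by_cases hx : x = 0
  · subst hx; simp
  have h : dL (x * x⁻¹) = 0 := by rw [mul_inv_cancel₀ hx, Derivation.map_one_eq_zero]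
  rw [Derivation.leibniz, smul_eq_mul, smul_eq_mul] at h
  have h2 : x * dL x⁻¹ = - (x⁻¹ * dL x) := eq_neg_of_add_eq_zero_left h
  calc dL x⁻¹ = x⁻¹ * (x * dL x⁻¹) := by rw [← mul_assoc, inv_mul_cancel₀ hx, one_mul]
    _ = _ := by rw [h2]; ring

theorem dL_const (x : LL) (hx : dL x = 0) : x ∈ Set.range (algebraMap ℂ LL) := by
  have key : ∀ s : PowerSeries ℂ, dL (algebraMap (PowerSeries ℂ) LL s) = 0 →
      algebraMap (PowerSeries ℂ) LL s ∈ Set.range (algebraMap ℂ LL) := by
    intro s hs
    rw [dL_algebraMap] at hs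
    have h1 : PowerSeries.derivative ℂ s = 0 :=
      IsFractionRing.injective (PowerSeries ℂ) LL (by rw [hs, map_zero])
    have h2 : s = PowerSeries.C (PowerSeries.constantCoeff s) := by
      ext n
      rcases Nat.eq_zero_or_pos n with hn | hn
      · subst hn; simp
      · obtain ⟨m, rfl⟩ := Nat.exists_eq_succ_of_ne_zero hn.ne'
        have h3 := congrArg (PowerSeries.coeff m) h1
        rw [PowerSeries.coeff_derivative, map_zero] at h3
        have h : ((m : ℂ) + 1) ≠ 0 := by exact_mod_cast Nat.succ_ne_zero m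
        rw [PowerSeries.coeff_C, if_neg (by omega)]
        exact (mul_eq_zero.1 h3).resolve_right h
    refine ⟨PowerSeries.constantCoeff s, ?_⟩
    conv_rhs => rw [h2]
    rw [IsScalarTower.algebraMap_apply ℂ (PowerSeries ℂ) LL]
    rfl
  rcases ValuationRing.isInteger_or_isInteger (PowerSeries ℂ) x with h | h
  · obtain ⟨s, hs⟩ := h
    rw [← hs] at hx ⊢
    exact key s hx
  · obtain ⟨s, hs⟩ := h
    have h3 : dL x⁻¹ = 0 := by rw [dL_inv, hx, mul_zero]
    rw [← hs] at h3
    obtain ⟨c, hc⟩ := key s h3
    refine ⟨c⁻¹, ?_⟩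
    rw [map_inv₀, hc, hs, inv_inv]

end Pool.Agent.Work.MP_e97a4d_nt
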