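import Mathlib
import Pool.Agent.Work.MP_e97a4d_nt.LaurentField

set_option autoImplicit false
set_option linter.unusedSectionVars false

noncomputable section

namespace Pool.Agent.Work.MP_e97a4d_nt

open scoped BigOperators Topology
open Finset PowerSeries

/-- Taylor series at `z₀`. -/
def taylor (z₀ : ℂ) (h : ℂ → ℂ) : PowerSeries ℂ :=
  PowerSeries.mk fun n => ((Nat.factorial n : ℕ) : ℂ)⁻¹ * iteratedDeriv n h z₀

theorem coeff_taylor (z₀ : ℂ) (h : ℂ → ℂ) (n : ℕ) :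
    PowerSeries.coeff n (taylor z₀ h) = ((Nat.factorial n : ℕ) : ℂ)⁻¹ * iteratedDeriv n h z₀ := by
  rw [taylor, PowerSeries.coeff_mk]

theorem contDiffAt_of {Ω : Set ℂ} (hΩ : IsOpen Ω) {z₀ : ℂ} (hz : z₀ ∈ Ω) {h : ℂ → ℂ}
    (hh : DifferentiableOn ℂ h Ω) (n : ℕ) : ContDiffAt ℂ n h z₀ :=
  ((hh.analyticOnNhd hΩ) z₀ hz).contDiffAt

theorem taylor_congr {z₀ : ℂ} {h₁ h₂ : ℂ → ℂ} (h : h₁ =ᶠ[𝓝 z₀] h₂) :
    taylor z₀ h₁ = taylor z₀ h₂ := by
  ext n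
  rw [coeff_taylor, coeff_taylor, (h.iteratedDeriv n).eq_of_nhds]

theorem taylor_add {Ω : Set ℂ} (hΩ : IsOpen Ω) {z₀ : ℂ} (hz : z₀ ∈ Ω) {h₁ h₂ : ℂ → ℂ}
    (hh₁ : DifferentiableOn ℂ h₁ Ω) (hh₂ : DifferentiableOn ℂ h₂ Ω) :
    taylor z₀ (fun z => h₁ z + h₂ z) = taylor z₀ h₁ + taylor z₀ h₂ := by
  ext n
  rw [map_add, coeff_taylor, coeff_taylor, coeff_taylor,
    iteratedDeriv_fun_add (contDiffAt_of hΩ hz hh₁ n) (contDiffAt_of hΩ hz hh₂ n), mul_add]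

theorem taylor_const (z₀ c : ℂ) : taylor z₀ (fun _ => c) = PowerSeries.C c := by
  ext n
  rw [coeff_taylor, PowerSeries.coeff_C, iteratedDeriv_const]
  split_ifs with h
  · subst h; simp
  · simp

theorem taylor_mul {Ω : Set ℂ} (hΩ : IsOpen Ω) {z₀ : ℂ} (hz : z₀ ∈ Ω) {h₁ h₂ : ℂ → ℂ}
    (hh₁ : DifferentiableOn ℂ h₁ Ω) (hh₂ : DifferentiableOn ℂ h₂ Ω) :
    taylor z₀ (fun z => h₁ z * h₂ z) = taylor z₀ h₁ * taylor z₀ h₂ := by
  ext n
  rw [PowerSeries.coeff_mul, coeff_taylor,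
    iteratedDeriv_fun_mul (contDiffAt_of hΩ hz hh₁ n) (contDiffAt_of hΩ hz hh₂ n),
    Finset.Nat.sum_antidiagonal_eq_sum_range_succ_mk, Finset.mul_sum]
  refine Finset.sum_congr rfl fun i hi => ?_
  have hi' : i ≤ n := Nat.lt_succ_iff.1 (Finset.mem_range.1 hi)
  simp only [coeff_taylor]
  have h := Nat.choose_mul_factorial_mul_factorial hi'
  have h1 : ((Nat.factorial i : ℕ) : ℂ) ≠ 0 := by exact_mod_cast Nat.factorial_ne_zero _
  have h2 : ((Nat.factorial (n - i) : ℕ) : ℂ) ≠ 0 := by exact_mod_cast Nat.factorial_ne_zero _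
  have h3 : ((Nat.factorial n : ℕ) : ℂ) ≠ 0 := by exact_mod_cast Nat.factorial_ne_zero _
  have h4 : ((n.choose i : ℕ) : ℂ) * (Nat.factorial i : ℕ) * (Nat.factorial (n - i) : ℕ) =
      (Nat.factorial n : ℕ) := by exact_mod_cast h
  have h5 : ((Nat.factorial n : ℕ) : ℂ)⁻¹ * ((n.choose i : ℕ) : ℂ) =
      ((Nat.factorial i : ℕ) : ℂ)⁻¹ * ((Nat.factorial (n - i) : ℕ) : ℂ)⁻¹ := by
    field_simp
    rw [← h4]
  calc _ = (((Nat.factorial n : ℕ) : ℂ)⁻¹ * ((n.choose i : ℕ) : ℂ)) *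
        (iteratedDeriv i h₁ z₀ * iteratedDeriv (n - i) h₂ z₀) := by ring
    _ = _ := by rw [h5]; ring

theorem derivative_taylor (z₀ : ℂ) (h : ℂ → ℂ) :
    PowerSeries.derivative ℂ (taylor z₀ h) = taylor z₀ (deriv h) := by
  ext n
  rw [PowerSeries.coeff_derivative, coeff_taylor, coeff_taylor, iteratedDeriv_succ',
    Nat.factorial_succ]
  have h1 : ((Nat.factorial n : ℕ) : ℂ) ≠ 0 := by exact_mod_cast Nat.factorial_ne_zero _
  have h2 : ((n : ℂ) + 1) ≠ 0 := by exact_mod_cast Nat.succ_ne_zero n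
  push_cast
  field_simp

theorem taylor_eq_zero {Ω : Set ℂ} (hΩ : IsOpen Ω) {z₀ : ℂ} (hz : z₀ ∈ Ω) {h : ℂ → ℂ}
    (hh : DifferentiableOn ℂ h Ω) (h0 : taylor z₀ h = 0) : h =ᶠ[𝓝 z₀] 0 := by
  obtain ⟨r, hr, hball⟩ := Metric.isOpen_iff.1 hΩ z₀ hz
  filter_upwards [Metric.ball_mem_nhds z₀ hr] with w hw
  have h1 := Complex.taylorSeries_eq_on_ball (f := h) (c := z₀) (r := r)
    (hh.mono hball) (z := w) hw
  rw [← h1]
  have : ∀ n, iteratedDeriv n h z₀ = 0 := by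
    intro n
    have h2 := congrArg (PowerSeries.coeff n) h0
    rw [coeff_taylor, map_zero] at h2
    have h3 : ((Nat.factorial n : ℕ) : ℂ)⁻¹ ≠ 0 :=
      inv_ne_zero (by exact_mod_cast Nat.factorial_ne_zero _)
    exact (mul_eq_zero.1 h2).resolve_left h3
  simp [this]

theorem eqOn_zero_of_taylor {Ω : Set ℂ} (hΩ : IsOpen Ω) (hc : IsPreconnected Ω) {z₀ : ℂ}
    (hz : z₀ ∈ Ω) {h : ℂ → ℂ} (hh : DifferentiableOn ℂ h Ω) (h0 : taylor z₀ h = 0) :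
    ∀ z ∈ Ω, h z = 0 := by
  intro z hzΩ
  exact (hh.analyticOnNhd hΩ).eqOn_zero_of_preconnected_of_eventuallyEq_zero hc hz
    (taylor_eq_zero hΩ hz hh h0) hzΩ

theorem constantCoeff_taylor (z₀ : ℂ) (h : ℂ → ℂ) :
    PowerSeries.constantCoeff (taylor z₀ h) = h z₀ := by
  rw [← PowerSeries.coeff_zero_eq_constantCoeff_apply, coeff_taylor]
  simp

/-- the Taylor expansion of a family of ring homomorphisms -/
def taylorHom {A : Type} [CommRing A] (g : ℂ → (A →+* ℂ)) {Ω : Set ℂ} (hΩ : IsOpen Ω) {z₀ : ℂ}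
    (hz : z₀ ∈ Ω) (hg : ∀ a, DifferentiableOn ℂ (fun w => g w a) Ω) : A →+* PowerSeries ℂ where
  toFun a := taylor z₀ (fun w => g w a)
  map_one' := by simp [taylor_const]
  map_zero' := by simp [taylor_const]
  map_add' a b := by simp only [map_add]; exact taylor_add hΩ hz (hg a) (hg b)
  map_mul' a b := by simp only [map_mul]; exact taylor_mul hΩ hz (hg a) (hg b)

end Pool.Agent.Work.MP_e97a4d_nt
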