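import Mathlib
import Pool.Agent.Work.MP_e97a4d_nt.Taylor
import Pool.Agent.Work.MP_e97a4d_nt.Core
import Pool.Agent.Work.MP_e97a4d_nt.FormalODE

set_option autoImplicit false
set_option linter.unusedSectionVars false

noncomputable section

namespace Pool.Agent.Work.MP_e97a4d_nt

open scoped BigOperators Topology
open Finset PowerSeries

/-- `D` is a ring of functions holomorphic on `Ω`, containing the constants and closed under
differentiation. -/
structure IsDiffRing (Ω : Set ℂ) (D : Subalgebra ℂ (ℂ → ℂ)) : Prop where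
  holo : ∀ h ∈ D, DifferentiableOn ℂ h Ω
  deriv_mem : ∀ h ∈ D, deriv h ∈ D

/-- `h` satisfies on `Ω` a linear differential equation `∑_{k ≤ n} p_k h^{(k)} = 0` with
coefficients in `D` which are not all identically zero on `Ω`. -/
def LinODE (Ω : Set ℂ) (D : Subalgebra ℂ (ℂ → ℂ)) (h : ℂ → ℂ) : Prop :=
  ∃ (n : ℕ) (p : ℕ → ℂ → ℂ), (∀ k, p k ∈ D) ∧ (∃ k ≤ n, ∃ z ∈ Ω, p k z ≠ 0) ∧
    ∀ z ∈ Ω, ∑ k ∈ Finset.range (n + 1), p k z * iteratedDeriv k h z = 0

/-- `h` is algebraic over `D` on `Ω`: it satisfies on `Ω` a polynomial equation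
`∑_{k ≤ n} p_k h^k = 0` with coefficients in `D` which are not all identically zero on `Ω`. -/
def AlgOver (Ω : Set ℂ) (D : Subalgebra ℂ (ℂ → ℂ)) (h : ℂ → ℂ) : Prop :=
  ∃ (n : ℕ) (p : ℕ → ℂ → ℂ), (∀ k, p k ∈ D) ∧ (∃ k ≤ n, ∃ z ∈ Ω, p k z ≠ 0) ∧
    ∀ z ∈ Ω, ∑ k ∈ Finset.range (n + 1), p k z * h z ^ k = 0

section Analytic

variable {Ω : Set ℂ} {D : Subalgebra ℂ (ℂ → ℂ)}

theorem linODE_normal (hΩ : IsOpen Ω) (hc : IsPreconnected Ω) (hD : IsDiffRing Ω D)
    {h : ℂ → ℂ} (hh : DifferentiableOn ℂ h Ω) (hl : LinODE Ω D h) :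
    ∃ (n : ℕ) (q : ℂ → ℂ) (p : ℕ → ℂ → ℂ), q ∈ D ∧ (∀ k, p k ∈ D) ∧ (∃ z ∈ Ω, q z ≠ 0) ∧
      ∀ z ∈ Ω, q z * iteratedDeriv (n + 1) h z =
        ∑ k ∈ Finset.range (n + 1), p k z * iteratedDeriv k h z := by
  classical
  obtain ⟨n, p, hp, hne, heq⟩ := hl
  let P : ℕ → Prop := fun m => m ≤ n ∧ ∃ z ∈ Ω, p m z ≠ 0
  obtain ⟨k₀, hk₀, hz₀⟩ := hne
  have hPk : P k₀ := ⟨hk₀, hz₀⟩
  obtain ⟨hm1, hm2⟩ : P (Nat.findGreatest P n) := Nat.findGreatest_spec (P := P) hk₀ hPk
  set m := Nat.findGreatest P n with hm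
  have htop : ∀ k, m < k → k ≤ n → ∀ z ∈ Ω, p k z = 0 := by
    intro k hk hkn z hz
    by_contra hne
    exact Nat.findGreatest_is_greatest hk hkn ⟨hkn, z, hz, hne⟩
  have heq' : ∀ z ∈ Ω, ∑ k ∈ Finset.range (m + 1), p k z * iteratedDeriv k h z = 0 := by
    intro z hz
    rw [← heq z hz]
    refine Finset.sum_subset (Finset.range_subset_range.2 (by omega)) ?_
    intro k hk hk'
    rw [Finset.mem_range] at hk hk'
    rw [htop k (by omega) (by omega) z hz, zero_mul]
  rcases Nat.eq_zero_or_pos m with h0 | hpos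
  · rw [h0] at heq' hm2
    have h1 : ∀ z ∈ Ω, p 0 z * h z = 0 := by
      intro z hz
      simpa using heq' z hz
    have h2 := AnalyticOnNhd.eq_zero_or_eq_zero_of_mul_eq_zero
      ((hD.holo _ (hp 0)).analyticOnNhd hΩ) (hh.analyticOnNhd hΩ) h1 hc
    have h3 : ∀ z ∈ Ω, h z = 0 := by
      rcases h2 with h2 | h2
      · obtain ⟨z, hz, hne⟩ := hm2
        exact absurd (h2 z hz) hne
      · exact h2
    refine ⟨0, 1, fun _ => 0, D.one_mem, fun _ => D.zero_mem, ?_, ?_⟩
    · obtain ⟨z, hz, _⟩ := hm2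
      exact ⟨z, hz, one_ne_zero⟩
    · intro z hz
      have h4 : h =ᶠ[𝓝 z] fun _ => 0 := by
        filter_upwards [hΩ.mem_nhds hz] with w hw using h3 w hw
      have h5 := (h4.iteratedDeriv 1).eq_of_nhds
      rw [h5]
      simp
  · obtain ⟨m', hm'⟩ := Nat.exists_eq_succ_of_ne_zero hpos.ne'
    rw [hm', Nat.succ_eq_add_one] at heq' hm2
    refine ⟨m', p (m' + 1), fun k => - p k, hp _, fun k => D.neg_mem (hp k), hm2, ?_⟩
    intro z hz
    have := heq' z hz
    rw [Finset.sum_range_succ] at this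
    simp only [Pi.neg_apply, neg_mul, Finset.sum_neg_distrib]
    linear_combination this

theorem exists_common_point (hΩ : IsOpen Ω) (hc : IsPreconnected Ω) (hne : Ω.Nonempty)
    {G : Type*} (T : Finset G) (q : G → ℂ → ℂ)
    (hq : ∀ g ∈ T, DifferentiableOn ℂ (q g) Ω ∧ ∃ z ∈ Ω, q g z ≠ 0) :
    ∃ z ∈ Ω, ∀ g ∈ T, q g z ≠ 0 := by
  classical
  have key : ∀ T : Finset G, (∀ g ∈ T, DifferentiableOn ℂ (q g) Ω ∧ ∃ z ∈ Ω, q g z ≠ 0) →
      ∃ z ∈ Ω, ∏ g ∈ T, q g z ≠ 0 := by
    intro T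
    induction T using Finset.induction_on with
    | empty =>
      intro _
      obtain ⟨z, hz⟩ := hne
      exact ⟨z, hz, by simp⟩
    | insert g T hg ih =>
      intro hT
      by_contra hcon
      push Not at hcon
      have h1 : ∀ z ∈ Ω, q g z * ∏ g ∈ T, q g z = 0 := by
        intro z hz
        rw [← Finset.prod_insert (f := fun g => q g z) hg]
        exact hcon z hz
      have hd : DifferentiableOn ℂ (fun z => ∏ g ∈ T, q g z) Ω := by
        refine DifferentiableOn.fun_finsetProd fun g hg => ?_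
        exact (hT g (Finset.mem_insert_of_mem hg)).1
      have h2 := AnalyticOnNhd.eq_zero_or_eq_zero_of_mul_eq_zero
        ((hT g (Finset.mem_insert_self _ _)).1.analyticOnNhd hΩ) (hd.analyticOnNhd hΩ) h1 hc
      rcases h2 with h2 | h2
      · obtain ⟨z, hz, hne⟩ := (hT g (Finset.mem_insert_self _ _)).2
        exact hne (h2 z hz)
      · obtain ⟨z, hz, hne⟩ := ih fun g hg => hT g (Finset.mem_insert_of_mem hg)
        exact hne (h2 z hz)
  obtain ⟨z, hz, hp⟩ := key T hq
  exact ⟨z, hz, fun g hg => Finset.prod_ne_zero_iff.1 hp g hg⟩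

theorem iterate_derivative_taylor (z₀ : ℂ) (h : ℂ → ℂ) (k : ℕ) :
    (PowerSeries.derivative ℂ)^[k] (taylor z₀ h) = taylor z₀ (iteratedDeriv k h) := by
  induction k with
  | zero => simp
  | succ k ih => rw [Function.iterate_succ_apply', ih, derivative_taylor, ← iteratedDeriv_succ]

theorem iteratedDeriv_diffOn (hΩ : IsOpen Ω) {h : ℂ → ℂ} (hh : DifferentiableOn ℂ h Ω) (k : ℕ) :
    DifferentiableOn ℂ (iteratedDeriv k h) Ω := by
  induction k with
  | zero => simpa using hh
  | succ k ih => rw [iteratedDeriv_succ]; exact ih.deriv hΩ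

end Analytic

section System

/-- a linear system with coefficients in `K'`, formally -/
structure LinSys (K' : Set (PowerSeries ℂ)) (T : Set (PowerSeries ℂ)) where
  ι : Type
  fin : Fintype ι
  dec : DecidableEq ι
  y : ι → PowerSeries ℂ
  M : ι → ι → PowerSeries ℂ
  hM : ∀ i j, M i j ∈ K'
  hy : ∀ i, PowerSeries.derivative ℂ (y i) = ∑ j, M i j * y j
  hT : ∀ t ∈ T, ∃ i, y i = t

theorem linSys_single (K' : Set (PowerSeries ℂ)) (h0 : 0 ∈ K') (h1 : 1 ∈ K')
    (u : PowerSeries ℂ) (n : ℕ) (a : ℕ → PowerSeries ℂ) (ha : ∀ k, a k ∈ K')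
    (hu : (PowerSeries.derivative ℂ)^[n + 1] u =
      ∑ k ∈ Finset.range (n + 1), a k * (PowerSeries.derivative ℂ)^[k] u) :
    Nonempty (LinSys K' {u}) := by
  classical
  refine ⟨{ ι := Fin (n + 1), fin := inferInstance, dec := inferInstance,
            y := fun i => (PowerSeries.derivative ℂ)^[i.1] u,
            M := fun i j => if i.1 = n then a j.1 else (if j.1 = i.1 + 1 then 1 else 0),
            hM := ?_, hy := ?_, hT := ?_ }⟩
  · intro i j
    split_ifs
    · exact ha _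
    · exact h1
    · exact h0
  · intro i
    rw [← Function.iterate_succ_apply' (PowerSeries.derivative ℂ)]
    by_cases hi : i.1 = n
    · simp only [hi, if_true]
      rw [hu, Finset.sum_range]
    · simp only [hi, if_false]
      have hlt : i.1 + 1 < n + 1 := by omega
      rw [Finset.sum_eq_single ⟨i.1 + 1, hlt⟩]
      · simp
      · intro b _ hb
        rw [if_neg, zero_mul]
        intro h
        exact hb (Fin.ext h)
      · intro h; exact absurd (Finset.mem_univ _) h
  · rintro t rfl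
    exact ⟨0, by simp⟩

theorem linSys_union (K' : Set (PowerSeries ℂ)) (h0 : 0 ∈ K') (T₁ T₂ : Set (PowerSeries ℂ))
    (S₁ : LinSys K' T₁) (S₂ : LinSys K' T₂) : Nonempty (LinSys K' (T₁ ∪ T₂)) := by
  let _ := S₁.fin
  let _ := S₂.fin
  let _ := S₁.dec
  let _ := S₂.dec
  refine ⟨{ ι := S₁.ι ⊕ S₂.ι, fin := inferInstance, dec := inferInstance,
            y := Sum.elim S₁.y S₂.y,
            M := Sum.elim (fun i => Sum.elim (S₁.M i) (fun _ => 0))
              (fun i => Sum.elim (fun _ => 0) (S₂.M i)),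
            hM := ?_, hy := ?_, hT := ?_ }⟩
  · rintro (i | i) (j | j)
    · exact S₁.hM i j
    · exact h0
    · exact h0
    · exact S₂.hM i j
  · rintro (i | i)
    · simp only [Sum.elim_inl, Fintype.sum_sum_type, Sum.elim_inr, zero_mul,
        Finset.sum_const_zero, add_zero]
      exact S₁.hy i
    · simp only [Sum.elim_inl, Fintype.sum_sum_type, Sum.elim_inr, zero_mul,
        Finset.sum_const_zero, zero_add]
      exact S₂.hy i
  · rintro t (ht | ht)
    · obtain ⟨i, hi⟩ := S₁.hT t ht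
      exact ⟨Sum.inl i, hi⟩
    · obtain ⟨i, hi⟩ := S₂.hT t ht
      exact ⟨Sum.inr i, hi⟩

theorem linSys_finset (K' : Set (PowerSeries ℂ)) (h0 : 0 ∈ K') {G : Type*} (T : Finset G)
    (u : G → PowerSeries ℂ) (h : ∀ g ∈ T, Nonempty (LinSys K' {u g})) :
    Nonempty (LinSys K' (u '' T)) := by
  classical
  induction T using Finset.induction_on with
  | empty =>
    exact ⟨{ ι := Empty, fin := inferInstance, dec := inferInstance, y := fun i => i.elim,
             M := fun i => i.elim, hM := fun i => i.elim, hy := fun i => i.elim,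
             hT := by rintro t ⟨g, hg, _⟩; exact absurd hg (Finset.notMem_empty g) }⟩
  | insert g T hg ih =>
    obtain ⟨S₁⟩ := h g (Finset.mem_insert_self _ _)
    obtain ⟨S₂⟩ := ih fun g hg => h g (Finset.mem_insert_of_mem hg)
    have := linSys_union K' h0 _ _ S₁ S₂
    convert this using 2
    rw [Finset.coe_insert, Set.image_insert_eq]
    rfl

end System

section BaseField

variable {Ω : Set ℂ} {D : Subalgebra ℂ (ℂ → ℂ)}

/-- expansions of elements of `D` as a subalgebra of the Laurent field -/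
def expandD (hΩ : IsOpen Ω) (hD : IsDiffRing Ω D) {z₀ : ℂ} (hz : z₀ ∈ Ω) : Subalgebra ℂ LL where
  carrier := {x | ∃ h ∈ D, x = algebraMap (PowerSeries ℂ) LL (taylor z₀ h)}
  mul_mem' := by
    rintro _ _ ⟨h₁, hh₁, rfl⟩ ⟨h₂, hh₂, rfl⟩
    refine ⟨h₁ * h₂, D.mul_mem hh₁ hh₂, ?_⟩
    rw [← map_mul]
    congr 1
    exact (taylor_mul hΩ hz (hD.holo _ hh₁) (hD.holo _ hh₂)).symm
  add_mem' := by
    rintro _ _ ⟨h₁, hh₁, rfl⟩ ⟨h₂, hh₂, rfl⟩
    refine ⟨h₁ + h₂, D.add_mem hh₁ hh₂, ?_⟩
    rw [← map_add]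
    congr 1
    exact (taylor_add hΩ hz (hD.holo _ hh₁) (hD.holo _ hh₂)).symm
  algebraMap_mem' := by
    intro c
    refine ⟨algebraMap ℂ _ c, D.algebraMap_mem c, ?_⟩
    have : (algebraMap ℂ (ℂ → ℂ) c) = fun _ => c := rfl
    rw [this, taylor_const]
    exact IsScalarTower.algebraMap_apply ℂ (PowerSeries ℂ) LL c

/-- the differential field generated by the expansions of the elements of `D` -/
abbrev KD (hΩ : IsOpen Ω) (hD : IsDiffRing Ω D) {z₀ : ℂ} (hz : z₀ ∈ Ω) : IntermediateField ℂ LL :=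
  IntermediateField.adjoin ℂ (expandD hΩ hD hz : Set LL)

theorem KD_stable (hΩ : IsOpen Ω) (hD : IsDiffRing Ω D) {z₀ : ℂ} (hz : z₀ ∈ Ω) (x : LL)
    (hx : x ∈ KD hΩ hD hz) : dL x ∈ KD hΩ hD hz := by
  induction hx using IntermediateField.adjoin_induction with
  | mem x hx =>
    obtain ⟨h, hh, rfl⟩ := hx
    rw [dL_algebraMap, derivative_taylor]
    exact IntermediateField.subset_adjoin _ _ ⟨deriv h, hD.deriv_mem h hh, rfl⟩
  | algebraMap c => rw [Derivation.map_algebraMap]; exact zero_mem _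
  | add x y _ _ hx hy => rw [map_add]; exact add_mem hx hy
  | inv x hx' hx =>
    rw [dL_inv]
    exact mul_mem (neg_mem (pow_mem (inv_mem hx') 2)) hx
  | mul x y hx' hy' hx hy =>
    rw [Derivation.leibniz, smul_eq_mul, smul_eq_mul]
    exact add_mem (mul_mem hx' hy) (mul_mem hy' hx)

open scoped IntermediateField.algebraAdjoinAdjoin in
theorem transcendental_of_not_algOver (hΩ : IsOpen Ω) (hc : IsPreconnected Ω)
    (hD : IsDiffRing Ω D) {z₀ : ℂ}
    (hz : z₀ ∈ Ω) {h : ℂ → ℂ} (hh : DifferentiableOn ℂ h Ω) (hn : ¬ AlgOver Ω D h) :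
    Transcendental (KD hΩ hD hz) (algebraMap (PowerSeries ℂ) LL (taylor z₀ h)) := by
  intro halg
  have h1 : IsAlgebraic (Algebra.adjoin ℂ (expandD hΩ hD hz : Set LL))
      (algebraMap (PowerSeries ℂ) LL (taylor z₀ h)) :=
    (IsFractionRing.isAlgebraic_iff (Algebra.adjoin ℂ (expandD hΩ hD hz : Set LL))
      (KD hΩ hD hz) LL).2 halg
  obtain ⟨P, hP0, hP⟩ := h1
  apply hn
  have hcoef : ∀ k, ∃ d ∈ D, ((P.coeff k : Algebra.adjoin ℂ (expandD hΩ hD hz : Set LL)) : LL) =
      algebraMap (PowerSeries ℂ) LL (taylor z₀ d) := by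
    intro k
    have h := (P.coeff k).2
    have h' : ((P.coeff k : Algebra.adjoin ℂ (expandD hΩ hD hz : Set LL)) : LL) ∈
        expandD hΩ hD hz := (Algebra.adjoin_le (le_refl _)) h
    exact h'
  choose p hp hpe using hcoef
  refine ⟨P.natDegree, p, hp, ⟨P.natDegree, le_rfl, ?_⟩, ?_⟩
  · by_contra hcon
    push Not at hcon
    apply hP0
    rw [← Polynomial.leadingCoeff_eq_zero]
    apply Subtype.ext
    rw [Polynomial.leadingCoeff, hpe]
    have : taylor z₀ (p P.natDegree) = 0 := by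
      have h2 : p P.natDegree =ᶠ[𝓝 z₀] fun _ => 0 := by
        filter_upwards [hΩ.mem_nhds hz] with w hw using hcon w hw
      rw [taylor_congr h2, taylor_const, map_zero]
    rw [this, map_zero]; rfl
  · apply eqOn_zero_of_taylor hΩ hc hz
    · refine DifferentiableOn.fun_sum fun k _ => ?_
      exact (hD.holo _ (hp k)).mul (hh.pow _)
    · have h2 : ∀ s : Finset ℕ, taylor z₀ (fun z => ∑ k ∈ s, p k z * h z ^ k) =
          ∑ k ∈ s, taylor z₀ (p k) * taylor z₀ h ^ k := by
        classical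
        have hpow : ∀ k : ℕ, taylor z₀ (fun z => h z ^ k) = taylor z₀ h ^ k := by
          intro k
          induction k with
          | zero => simp [taylor_const]
          | succ k ih =>
            simp only [pow_succ]
            rw [taylor_mul (h₁ := fun z => h z ^ k) hΩ hz (hh.pow k) hh, ih]
        intro s
        induction s using Finset.induction_on with
        | empty => simp [taylor_const]
        | insert k s hk ih =>
          simp only [Finset.sum_insert hk]
          rw [taylor_add (h₁ := fun z => p k z * h z ^ k)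
            (h₂ := fun z => ∑ k ∈ s, p k z * h z ^ k) hΩ hz ((hD.holo _ (hp k)).mul (hh.pow _))
            (DifferentiableOn.fun_sum fun k _ => (hD.holo _ (hp k)).mul (hh.pow _)), ih,
            taylor_mul (h₂ := fun z => h z ^ k) hΩ hz (hD.holo _ (hp k)) (hh.pow _), hpow]
      rw [h2]
      apply IsFractionRing.injective (PowerSeries ℂ) LL
      rw [map_zero, ← hP, Polynomial.aeval_eq_sum_range, map_sum]
      refine Finset.sum_congr rfl fun k _ => ?_
      rw [map_mul, map_pow, ← hpe, Algebra.smul_def]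
      rfl

end BaseField

end Pool.Agent.Work.MP_e97a4d_nt
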