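import Mathlib
import Pool.Agent.Work.MP_e97a4d_nt.LinearSystem
import Pool.Agent.Work.MP_e97a4d_nt.Charts

set_option autoImplicit false
set_option linter.unusedSectionVars false

noncomputable section

namespace Pool.Agent.Work.MP_e97a4d_nt

open scoped BigOperators Topology
open Finset PowerSeries AlgebraicGeometry CategoryTheory CategoryTheory.Limits IsDedekindDomain
  NumberField

section

variable {Ω : Set ℂ} {D : Subalgebra ℂ (ℂ → ℂ)}

theorem taylor_sum (hΩ : IsOpen Ω) {z₀ : ℂ} (hz : z₀ ∈ Ω) (s : Finset ℕ) (h : ℕ → ℂ → ℂ)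
    (hh : ∀ k, DifferentiableOn ℂ (h k) Ω) :
    taylor z₀ (fun z => ∑ k ∈ s, h k z) = ∑ k ∈ s, taylor z₀ (h k) := by
  classical
  induction s using Finset.induction_on with
  | empty => simp [taylor_const]
  | insert k s hk ih =>
    simp only [Finset.sum_insert hk]
    rw [taylor_add hΩ hz (hh k) (DifferentiableOn.fun_sum fun k _ => hh k), ih]

theorem linSys_of_ode (hΩ : IsOpen Ω) (hD : IsDiffRing Ω D) {z₀ : ℂ} (hz : z₀ ∈ Ω)
    {h : ℂ → ℂ} (hh : DifferentiableOn ℂ h Ω) (n : ℕ) (q : ℂ → ℂ) (p : ℕ → ℂ → ℂ)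
    (hq : q ∈ D) (hp : ∀ k, p k ∈ D) (hqz : q z₀ ≠ 0)
    (heq : ∀ z ∈ Ω, q z * iteratedDeriv (n + 1) h z =
        ∑ k ∈ Finset.range (n + 1), p k z * iteratedDeriv k h z) :
    Nonempty (LinSys {s : PowerSeries ℂ | algebraMap (PowerSeries ℂ) LL s ∈ KD hΩ hD hz}
      {taylor z₀ h}) := by
  have hinv : taylor z₀ q * (taylor z₀ q)⁻¹ = 1 := by
    apply PowerSeries.mul_inv_cancel
    rw [constantCoeff_taylor]; exact hqz
  have hmemD : ∀ r ∈ D, algebraMap (PowerSeries ℂ) LL (taylor z₀ r) ∈ KD hΩ hD hz := fun r hr =>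
    IntermediateField.subset_adjoin _ _ ⟨r, hr, rfl⟩
  have hinvmem : algebraMap (PowerSeries ℂ) LL (taylor z₀ q)⁻¹ ∈ KD hΩ hD hz := by
    have h1 : algebraMap (PowerSeries ℂ) LL (taylor z₀ q)⁻¹ =
        (algebraMap (PowerSeries ℂ) LL (taylor z₀ q))⁻¹ := by
      apply eq_inv_of_mul_eq_one_right
      rw [← map_mul, hinv, map_one]
    rw [h1]
    exact inv_mem (hmemD q hq)
  refine linSys_single _ ?_ ?_ (taylor z₀ h) n (fun k => taylor z₀ (p k) * (taylor z₀ q)⁻¹) ?_ ?_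
  · show algebraMap (PowerSeries ℂ) LL 0 ∈ KD hΩ hD hz
    rw [map_zero]; exact zero_mem _
  · show algebraMap (PowerSeries ℂ) LL 1 ∈ KD hΩ hD hz
    rw [map_one]; exact one_mem _
  · intro k
    show algebraMap (PowerSeries ℂ) LL (taylor z₀ (p k) * (taylor z₀ q)⁻¹) ∈ KD hΩ hD hz
    rw [map_mul]
    exact mul_mem (hmemD _ (hp k)) hinvmem
  · simp only [iterate_derivative_taylor]
    have h1 : taylor z₀ q * taylor z₀ (iteratedDeriv (n + 1) h) =
        ∑ k ∈ Finset.range (n + 1), taylor z₀ (p k) * taylor z₀ (iteratedDeriv k h) := by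
      rw [← taylor_mul hΩ hz (hD.holo q hq) (iteratedDeriv_diffOn hΩ hh _)]
      have h2 : (fun z => q z * iteratedDeriv (n + 1) h z) =ᶠ[𝓝 z₀]
          fun z => ∑ k ∈ Finset.range (n + 1), p k z * iteratedDeriv k h z := by
        filter_upwards [hΩ.mem_nhds hz] with w hw using heq w hw
      rw [taylor_congr h2, taylor_sum hΩ hz _ (fun k z => p k z * iteratedDeriv k h z)
        (fun k => (hD.holo _ (hp k)).mul (iteratedDeriv_diffOn hΩ hh _))]
      refine Finset.sum_congr rfl fun k _ => ?_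
      exact taylor_mul hΩ hz (hD.holo _ (hp k)) (iteratedDeriv_diffOn hΩ hh _)
    calc taylor z₀ (iteratedDeriv (n + 1) h)
        = (taylor z₀ q * (taylor z₀ q)⁻¹) * taylor z₀ (iteratedDeriv (n + 1) h) := by
          rw [hinv, one_mul]
      _ = (taylor z₀ q * taylor z₀ (iteratedDeriv (n + 1) h)) * (taylor z₀ q)⁻¹ := by ring
      _ = _ := by
        rw [h1, Finset.sum_mul]
        exact Finset.sum_congr rfl fun k _ => by ring

end

section Main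

variable {F₀ : Type} [Field F₀] [NumberField F₀]

theorem exists_laurent_of_linODE (σ : F₀ →+* ℂ) {V : Scheme.{0}}
    (π : V ⟶ Spec (CommRingCat.of (𝓞 F₀))) [LocallyOfFiniteType π]
    {A : CommRingCat.{0}} (j : Spec A ⟶ V) [IsOpenImmersion j]
    (g : ℂ → (A →+* ℂ)) {Ω : Set ℂ} (hΩ : IsOpen Ω) (hc : IsPreconnected Ω)
    {D : Subalgebra ℂ (ℂ → ℂ)} (hD : IsDiffRing Ω D)
    (hg : ∀ a : A, DifferentiableOn ℂ (fun w => g w a) Ω)
    (hstr : ∀ w ∈ Ω, (Spec.map (CommRingCat.ofHom (g w)) ≫ j) ≫ π =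
      Spec.map (CommRingCat.ofHom (σ.comp (algebraMap (𝓞 F₀) F₀))))
    (hlin : ∀ a : A, LinODE Ω D (fun w => g w a))
    (a₁ : A) (ha₁ : ¬ AlgOver Ω D (fun w => g w a₁)) (z₁ : ℂ) (hz₁ : z₁ ∈ Ω) :
    ∃ (α : 𝓞 F₀ →+* A), j ≫ π = Spec.map (CommRingCat.ofHom α) ∧ α.FiniteType ∧
      ∃ (ψ : A →+* LaurentPolynomial LL),
        (∀ b : 𝓞 F₀, ψ (α b) = LaurentPolynomial.C (algebraMap ℂ LL (σ b))) ∧
        (∃ a₀, ∀ l, ψ a₀ ≠ LaurentPolynomial.C l) ∧
        ∀ q, (∃ z ∈ Ω, g z q ≠ 0) → ψ q ≠ 0 := by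
  classical
  -- the structure map of the chart
  obtain ⟨α', hα'⟩ := Spec.map_surjective (j ≫ π)
  let α : 𝓞 F₀ →+* A := α'.hom
  have hα : j ≫ π = Spec.map (CommRingCat.ofHom α) := by rw [← hα']; rfl
  have hgα : ∀ w ∈ Ω, ∀ b : 𝓞 F₀, g w (α b) = σ b := by
    intro w hw b
    have h1 := hstr w hw
    rw [Category.assoc, hα, ← Spec.map_comp] at h1
    have h2 := congrArg CommRingCat.Hom.hom (Spec.map_injective h1)
    have h3 := RingHom.congr_fun h2 b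
    simpa using h3
  -- finite generation
  let _ : Algebra (𝓞 F₀) A := α.toAlgebra
  have hft : LocallyOfFiniteType (Spec.map (CommRingCat.ofHom α)) := by
    rw [← hα]; infer_instance
  have hft' : α.FiniteType := by
    rw [HasRingHomProperty.Spec_iff (P := @LocallyOfFiniteType)] at hft
    exact hft
  have hfg : Algebra.FiniteType (𝓞 F₀) A := hft'
  obtain ⟨G, hG⟩ := hfg.out
  -- normal forms
  have hnf : ∀ a : A, ∃ (n : ℕ) (q : ℂ → ℂ) (p : ℕ → ℂ → ℂ), q ∈ D ∧ (∀ k, p k ∈ D) ∧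
      (∃ z ∈ Ω, q z ≠ 0) ∧ ∀ z ∈ Ω, q z * iteratedDeriv (n + 1) (fun w => g w a) z =
        ∑ k ∈ Finset.range (n + 1), p k z * iteratedDeriv k (fun w => g w a) z := fun a =>
    linODE_normal hΩ hc hD (hg a) (hlin a)
  choose n qq p hqq hp hqne hode using hnf
  obtain ⟨z₀, hz₀, hz₀'⟩ := exists_common_point hΩ hc ⟨z₁, hz₁⟩ G qq
    (fun a _ => ⟨hD.holo _ (hqq a), hqne a⟩)
  set K' : Set (PowerSeries ℂ) :=
    {s : PowerSeries ℂ | algebraMap (PowerSeries ℂ) LL s ∈ KD hΩ hD hz₀} with hK'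
  obtain ⟨S⟩ := linSys_finset K' (by
      show algebraMap (PowerSeries ℂ) LL 0 ∈ KD hΩ hD hz₀
      rw [map_zero]; exact zero_mem _) G (fun a => taylor z₀ (fun w => g w a))
    (fun a ha => linSys_of_ode hΩ hD hz₀ (hg a) (n a) (qq a) (p a) (hqq a) (hp a) (hz₀' a ha)
      (hode a))
  let _ := S.fin
  let _ := S.dec
  let M : S.ι → S.ι → KD hΩ hD hz₀ := fun i j => ⟨algebraMap (PowerSeries ℂ) LL (S.M i j), S.hM i j⟩
  let Φ : S.ι → S.ι → LL := fun i j => algebraMap (PowerSeries ℂ) LL (fund S.M i j)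
  let φ : A →+* LL := (algebraMap (PowerSeries ℂ) LL).comp (taylorHom g hΩ hz₀ hg)
  have hφa : ∀ a, φ a = algebraMap (PowerSeries ℂ) LL (taylor z₀ (fun w => g w a)) := fun a => rfl
  have hφB : ∀ b : 𝓞 F₀, φ (algebraMap (𝓞 F₀) A b) = algebraMap ℂ LL (σ b) := by
    intro b
    have h1 : (fun w => g w (algebraMap (𝓞 F₀) A b)) =ᶠ[𝓝 z₀] fun _ => σ b := by
      filter_upwards [hΩ.mem_nhds hz₀] with w hw using hgα w hw b
    rw [hφa, taylor_congr h1, taylor_const]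
    rfl
  have hmemC : ∀ c : ℂ, algebraMap ℂ LL c ∈ solAlg (KD hΩ hD hz₀) Φ := fun c =>
    algebraMap_C_mem (K := KD hΩ hD hz₀) Φ c
  have hφ : ∀ a, φ a ∈ solAlg (KD hΩ hD hz₀) Φ := by
    intro a
    have ha : a ∈ Algebra.adjoin (𝓞 F₀) (G : Set A) := by rw [hG]; trivial
    induction ha using Algebra.adjoin_induction with
    | mem x hx =>
      obtain ⟨i, hi⟩ := S.hT _ ⟨x, hx, rfl⟩
      have hi' : S.y i = taylor z₀ (fun w => g w x) := hi
      rw [hφa, ← hi', eq_fund_mul S.M S.y S.hy i, map_sum]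
      refine Subalgebra.sum_mem _ fun j _ => ?_
      rw [map_mul]
      exact Subalgebra.mul_mem _ (mem_solAlg Φ i j) (hmemC _)
    | algebraMap b => rw [hφB]; exact hmemC _
    | add x y _ _ hx hy => rw [map_add]; exact Subalgebra.add_mem _ hx hy
    | mul x y _ _ hx hy => rw [map_mul]; exact Subalgebra.mul_mem _ hx hy
  obtain ⟨ψ, hψ1, ha₀, hψ2⟩ := exists_laurent_core (C := ℂ) (K := KD hΩ hD hz₀) (L := LL)
    dL dL_const (fun k => ⟨⟨_, KD_stable hΩ hD hz₀ _ k.2⟩, rfl⟩) Φ M (by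
      intro i j
      show dL (algebraMap (PowerSeries ℂ) LL (fund S.M i j)) = _
      rw [dL_algebraMap, deriv_fund, map_sum]
      refine Finset.sum_congr rfl fun k _ => ?_
      rw [map_mul]
      rfl) (by
      have h1 : Matrix.of Φ = (algebraMap (PowerSeries ℂ) LL).mapMatrix
        (Matrix.of (fund S.M)) := rfl
      rw [h1, ← RingHom.map_det]
      exact (isUnit_det_fund S.M).map _) (B := 𝓞 F₀) (A := A) φ hφ
    (fun b => ⟨σ b, (hφB b).symm⟩) a₁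
    (transcendental_of_not_algOver hΩ hc hD hz₀ (hg a₁) ha₁)
  refine ⟨α, hα, hft', ψ, ?_, ha₀, ?_⟩
  · intro b
    have h1 := hψ1 b
    rw [hφB] at h1
    exact h1
  · rintro q ⟨z, hz, hq⟩
    apply hψ2
    intro h0
    rw [hφa] at h0
    have h1 : taylor z₀ (fun w => g w q) = 0 :=
      IsFractionRing.injective (PowerSeries ℂ) LL (by rw [h0, map_zero])
    exact hq (eqOn_zero_of_taylor hΩ hc hz₀ (hg q) h1 z hz)

theorem not_condII_of_linODE (σ : F₀ →+* ℂ) {V V' : Scheme.{0}}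
    (π : V ⟶ Spec (CommRingCat.of (𝓞 F₀))) [LocallyOfFiniteType π] (i : V' ⟶ V)
    [IsClosedImmersion i] {A : CommRingCat.{0}} (j : Spec A ⟶ V) [IsOpenImmersion j]
    (g : ℂ → (A →+* ℂ)) {Ω : Set ℂ} (hΩ : IsOpen Ω) (hc : IsPreconnected Ω)
    {D : Subalgebra ℂ (ℂ → ℂ)} (hD : IsDiffRing Ω D)
    (hg : ∀ a : A, DifferentiableOn ℂ (fun w => g w a) Ω)
    (hstr : ∀ w ∈ Ω, (Spec.map (CommRingCat.ofHom (g w)) ≫ j) ≫ π =
      Spec.map (CommRingCat.ofHom (σ.comp (algebraMap (𝓞 F₀) F₀))))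
    (hlin : ∀ a : A, LinODE Ω D (fun w => g w a))
    (a₁ : A) (ha₁ : ¬ AlgOver Ω D (fun w => g w a₁))
    (z₁ : ℂ) (hz₁ : z₁ ∈ Ω)
    (hout : ¬ ∃ p : Spec (CommRingCat.of ℂ) ⟶ V', p ≫ i = Spec.map (CommRingCat.ofHom (g z₁)) ≫ j) :
    ¬ CondII π i := by
  obtain ⟨α, hα, -, ψ, hψ1, ⟨a₀, ha₀⟩, hψ2⟩ :=
    exists_laurent_of_linODE σ π j g hΩ hc hD hg hstr hlin a₁ ha₁ z₁ hz₁
  obtain ⟨I, hI⟩ := exists_ideal_chart i j
  obtain ⟨q, hqI, hq⟩ : ∃ q ∈ I, g z₁ q ≠ 0 := by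
    by_contra hcon
    push Not at hcon
    exact hout ((hI ℂ (g z₁)).2 hcon)
  let _ : Algebra F₀ LL := ((algebraMap ℂ LL).comp σ).toAlgebra
  refine not_condII_of_laurent π i j α hα (L := LL) ψ (fun b => hψ1 b) a₀ ha₀ q
    (hψ2 q ⟨z₁, hz₁, hq⟩) ?_
  intro R _ φ' hp
  exact (hI R φ').1 hp q hqI

end Main

end Pool.Agent.Work.MP_e97a4d_nt
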