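import Mathlib
import Pool.Agent.Work.MP_e97a4d_nt.Core

/-!
One-parameter families moving a quotient of two elements of a solution algebra.
-/

set_option autoImplicit false
set_option linter.unusedSectionVars false

noncomputable section

namespace Pool.Agent.Work.MP_e97a4d_nt

open scoped BigOperators
open Finset

section Commuting

variable {C K L : Type*} [Field C] [Field K] [Field L] [Algebra C L] [Algebra K L] [Algebra C K]
  [IsScalarTower C K L] (d : Derivation C L L)
  (hconst : ∀ x : L, d x = 0 → x ∈ Set.range (algebraMap C L))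
  (hK : ∀ k : K, ∃ k' : K, d (algebraMap K L k) = algebraMap K L k')
  {ι : Type*} [Fintype ι] [DecidableEq ι] (Φ : ι → ι → L) (A : ι → ι → K)
  (hΦ : ∀ i j, d (Φ i j) = ∑ k, algebraMap K L (A i k) * Φ k j)

include d hconst hK hΦ in
/-- Existence of a derivation commuting with `d` and moving a given quotient. -/
theorem exists_const_derivation_frac (hdet : IsUnit (Matrix.det (Matrix.of Φ)))
    (r s : solAlg K Φ) (δ : Derivation K (solAlg K Φ) L)
    (hδ : δ r * (s : L) - (r : L) * δ s ≠ 0) :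
    ∃ (B : ι × ι → C) (Δ : Derivation K (solAlg K Φ) L),
      (∀ i j, Δ (gen Φ i j) = ∑ k, Φ i k * algebraMap C L (B (k, j))) ∧
        Δ r * (s : L) - (r : L) * Δ s ≠ 0 := by
  by_contra hcon
  push Not at hcon
  have key : ∀ B ∈ Submodule.span L {v | v ∈ BB (K := K) Φ ∧
      ∀ a, v a ∈ Set.range (algebraMap C L)},
      B ∈ BB (K := K) Φ ∧ ∀ Δ : Derivation K (solAlg K Φ) L,
        (∀ i j, Δ (gen Φ i j) = ∑ k, Φ i k * B (k, j)) →
          Δ r * (s : L) - (r : L) * Δ s = 0 := by
    intro B hB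
    induction hB using Submodule.span_induction with
    | mem v hv =>
      refine ⟨hv.1, fun Δ hΔ => ?_⟩
      choose b hb using hv.2
      apply hcon b Δ
      intro i j
      rw [hΔ]
      exact Finset.sum_congr rfl fun k _ => by rw [hb]
    | zero =>
      refine ⟨Submodule.zero_mem _, fun Δ hΔ => ?_⟩
      have : Δ = 0 := der_ext Φ _ _ (fun i j => by rw [hΔ]; simp)
      rw [this]; simp
    | add v w _ _ hv hw =>
      refine ⟨Submodule.add_mem _ hv.1 hw.1, fun Δ hΔ => ?_⟩
      obtain ⟨δ₁, h₁⟩ := hv.1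
      obtain ⟨δ₂, h₂⟩ := hw.1
      have : Δ = δ₁ + δ₂ := der_ext Φ _ _ (fun i j => by
        rw [hΔ, Derivation.add_apply, h₁, h₂, ← Finset.sum_add_distrib]
        exact Finset.sum_congr rfl fun k _ => by simp [mul_add])
      rw [this, Derivation.add_apply, Derivation.add_apply]
      linear_combination hv.2 δ₁ h₁ + hw.2 δ₂ h₂
    | smul l v _ hv =>
      refine ⟨Submodule.smul_mem _ _ hv.1, fun Δ hΔ => ?_⟩
      obtain ⟨δ₁, h₁⟩ := hv.1
      have : Δ = l • δ₁ := der_ext Φ _ _ (fun i j => by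
        rw [hΔ, Derivation.smul_apply, h₁, smul_eq_mul, Finset.mul_sum]
        exact Finset.sum_congr rfl fun k _ => by
          simp only [Pi.smul_apply, smul_eq_mul]; ring)
      rw [this, Derivation.smul_apply, Derivation.smul_apply, smul_eq_mul, smul_eq_mul]
      linear_combination l * hv.2 δ₁ h₁
  -- the matrix of δ
  set Ψ : Matrix ι ι L := (Matrix.of Φ)⁻¹ with hΨ
  set B : ι × ι → L := fun p => ∑ m, Ψ p.1 m * δ (gen Φ m p.2) with hBdef
  have hB : ∀ i j, δ (gen Φ i j) = ∑ k, Φ i k * B (k, j) := by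
    intro i j
    have h1 : (Matrix.of Φ) * Ψ = 1 := Matrix.mul_nonsing_inv _ hdet
    calc δ (gen Φ i j) = ∑ m, (1 : Matrix ι ι L) i m * δ (gen Φ m j) := by
          simp [Matrix.one_apply]
      _ = ∑ m, (∑ k, Φ i k * Ψ k m) * δ (gen Φ m j) := by
          refine Finset.sum_congr rfl fun m _ => ?_
          rw [← h1, Matrix.mul_apply]; rfl
      _ = ∑ k, Φ i k * B (k, j) := by
          simp only [hBdef, Finset.sum_mul, Finset.mul_sum]
          rw [Finset.sum_comm]
          exact Finset.sum_congr rfl fun k _ => Finset.sum_congr rfl fun m _ => by ring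
  have hBB : B ∈ BB (K := K) Φ := ⟨δ, hB⟩
  have := descent_finite d hconst (BB (K := K) Φ) (BB_stable d hK Φ A hΦ) B hBB
  exact hδ ((key B this).2 δ hB)

end Commuting

section NilHom

variable {C R : Type*} [Field C] [CharZero C] [CommRing R] [Algebra C R] {Δ : Derivation C R R}
  [IsAlgClosed C] {L : Type*} [CommRing L]

theorem shift_mul (μ ν : C) (n : ℕ) (a b : R) :
    (((Δ : R →ₗ[C] R) - (μ + ν) • (1 : Module.End C R)) ^ n) (a * b) =
      ∑ ij ∈ antidiagonal n, n.choose ij.1 •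
        ((((Δ : R →ₗ[C] R) - μ • (1 : Module.End C R)) ^ ij.1) a *
          (((Δ : R →ₗ[C] R) - ν • (1 : Module.End C R)) ^ ij.2) b) := by
  apply pow_apply_mul
  intro x y
  simp only [LinearMap.sub_apply, LinearMap.add_apply, LinearMap.smul_apply,
    Module.End.one_apply, Derivation.coeFn_coe, Derivation.leibniz, smul_eq_mul, add_smul,
    sub_mul, mul_sub, Algebra.smul_mul_assoc, Algebra.mul_smul_comm]
  ring

/-- the exponential of the nilpotent part, on the weight space of `μ`. -/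
def nilPart (Δ : Derivation C R R) (j : R →+* L) (μ : C) : R →+ PowerSeries L where
  toFun r := PowerSeries.mk fun k => j ((((Nat.factorial k : ℕ) : C)⁻¹) •
    ((((Δ : R →ₗ[C] R) - μ • (1 : Module.End C R)) ^ k) r))
  map_zero' := by ext k; simp
  map_add' a b := by ext k; simp

theorem coeff_nilPart (j : R →+* L) (μ : C) (r : R) (k : ℕ) :
    PowerSeries.coeff k (nilPart Δ j μ r) = j ((((Nat.factorial k : ℕ) : C)⁻¹) •
      ((((Δ : R →ₗ[C] R) - μ • (1 : Module.End C R)) ^ k) r)) := by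
  simp only [nilPart, AddMonoidHom.coe_mk, ZeroHom.coe_mk, PowerSeries.coeff_mk]

theorem nilPart_one (j : R →+* L) : nilPart Δ j 0 1 = 1 := by
  ext k
  rw [coeff_nilPart, PowerSeries.coeff_one]
  rcases Nat.eq_zero_or_pos k with hk | hk
  · subst hk; simp
  · obtain ⟨m, rfl⟩ := Nat.exists_eq_succ_of_ne_zero hk.ne'
    rw [if_neg (by omega), Nat.succ_eq_add_one, pow_succ, Module.End.mul_apply, zero_smul,
      sub_zero, Derivation.coeFn_coe, Derivation.map_one_eq_zero, map_zero, smul_zero, map_zero]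

theorem nilPart_mul (j : R →+* L) (μ ν : C) (a b : R) :
    nilPart Δ j (μ + ν) (a * b) = nilPart Δ j μ a * nilPart Δ j ν b := by
  ext n
  rw [coeff_nilPart, PowerSeries.coeff_mul, shift_mul, Finset.smul_sum, map_sum]
  refine Finset.sum_congr rfl fun ij hij => ?_
  rw [HasAntidiagonal.mem_antidiagonal] at hij
  rw [coeff_nilPart, coeff_nilPart, ← map_mul]
  congr 1
  rw [smul_mul_smul_comm, ← Nat.cast_smul_eq_nsmul C, smul_smul]
  congr 1
  have h := Nat.add_choose_mul_factorial_mul_factorial ij.2 ij.1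
  rw [add_comm ij.2 ij.1, hij] at h
  have h1 : ((Nat.factorial ij.1 : ℕ) : C) ≠ 0 := by exact_mod_cast Nat.factorial_ne_zero _
  have h2 : ((Nat.factorial ij.2 : ℕ) : C) ≠ 0 := by exact_mod_cast Nat.factorial_ne_zero _
  have h3 : ((Nat.factorial n : ℕ) : C) ≠ 0 := by exact_mod_cast Nat.factorial_ne_zero _
  have h4 : ((n.choose ij.1 : ℕ) : C) * (Nat.factorial ij.2 : ℕ) * (Nat.factorial ij.1 : ℕ) =
    (Nat.factorial n : ℕ) := by exact_mod_cast h
  field_simp
  rw [← h4]; ring

open Classical in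
/-- the homomorphism `r ↦ ∑_μ exp (T N) (r_μ)`, `N` the nilpotent part of `Δ` -/
def nilHom (h : LocFin Δ) (j : R →+* L) : R →+* PowerSeries L :=
  letI := wtRing h
  (DirectSum.toSemiring
    (fun μ => (nilPart Δ j μ).comp (wt Δ μ).subtype.toAddMonoidHom)
    (by
      simp only [AddMonoidHom.coe_comp, Function.comp_apply]
      exact nilPart_one j)
    (fun {μ ν} a b => by
      simp only [AddMonoidHom.coe_comp, Function.comp_apply]
      exact nilPart_mul j μ ν _ _)).comp
    (DirectSum.decomposeRingEquiv (wt Δ)).toRingHom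

open Classical in
theorem nilHom_of_mem (h : LocFin Δ) (j : R →+* L) {μ : C} {r : R}
    (hr : r ∈ wt Δ μ) : nilHom h j r = nilPart Δ j μ r := by
  unfold nilHom
  let := wtRing h
  simp only [RingHom.comp_apply]
  have : (DirectSum.decomposeRingEquiv (wt Δ)).toRingHom r =
      DirectSum.of (fun i => (wt Δ i)) μ ⟨r, hr⟩ := by
    exact DirectSum.decompose_of_mem (wt Δ) hr
  rw [this, DirectSum.toSemiring_of]
  rfl

end NilHom

section Frac

variable {C R : Type*} [Field C] [CharZero C] [CommRing R] [Algebra C R] {Δ : Derivation C R R}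
  [IsAlgClosed C] {L : Type*} [CommRing L]

/-- A locally finite derivation that moves the quotient `φ a / φ s` produces a one-parameter
family which moves this quotient. -/
theorem exists_laurent_of_locFin_frac (h : LocFin Δ) (j : R →+* L) (hj : Function.Injective j)
    {B A : Type*} [CommRing B] [CommRing A] [Algebra B A] [hfg : Algebra.FiniteType B A]
    (φ : A →+* R) (hB : ∀ b : B, φ (algebraMap B A b) ∈ Set.range (algebraMap C R))
    (a₁ s₁ : A) (hne : Δ (φ a₁) * φ s₁ ≠ Δ (φ s₁) * φ a₁) :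
    ∃ ψ : A →+* LaurentPolynomial L,
      (∀ b : B, ψ (algebraMap B A b) = LaurentPolynomial.C (j (φ (algebraMap B A b)))) ∧
      (∃ m n : ℤ, (ψ a₁).coeff m * (ψ s₁).coeff n ≠ (ψ a₁).coeff n * (ψ s₁).coeff m) ∧
      (∀ q, j (φ q) ≠ 0 → ψ q ≠ 0) := by
  classical
  -- weight decompositions
  choose s c hc hc0 hsum using fun r : R => exists_weight_decomp h r
  let cc : R → C → R := fun r μ => if μ ∈ s r then c r μ else 0
  have hcc : ∀ r μ, cc r μ ∈ wt Δ μ := by
    intro r μ
    simp only [cc]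
    split_ifs
    · exact hc r μ
    · exact Submodule.zero_mem _
  have hccsum : ∀ (r : R) (T : Finset C), s r ⊆ T → r = ∑ μ ∈ T, cc r μ := by
    intro r T hT
    conv_lhs => rw [hsum r]
    rw [← Finset.sum_subset hT (f := fun μ => cc r μ)]
    · exact Finset.sum_congr rfl fun μ hμ => by simp [cc, hμ]
    · intro μ _ hμ
      simp [cc, hμ]
  by_cases hSS : ∀ μ, cc (φ a₁) μ * φ s₁ = cc (φ s₁) μ * φ a₁
  · -- the nilpotent part moves the quotient
    have hTr : ∀ (r : R) (T : Finset C), s r ⊆ T →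
        nilHom h j r = ∑ μ ∈ T, nilPart Δ j μ (cc r μ) := by
      intro r T hT
      conv_lhs => rw [hccsum r T hT]
      rw [map_sum]
      exact Finset.sum_congr rfl fun μ _ => nilHom_of_mem h j (hcc r μ)
    have hrange : ∀ a, ((nilHom h j).comp φ) a ∈
        (Polynomial.coeToPowerSeries.ringHom (R := L)).range := by
      intro a
      rw [RingHom.comp_apply, hTr (φ a) (s (φ a)) (Finset.Subset.refl _)]
      refine Subring.sum_mem _ fun μ _ => ?_
      obtain ⟨k, hk⟩ := (mem_wt_iff Δ μ (cc (φ a) μ)).1 (hcc (φ a) μ)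
      refine ⟨PowerSeries.trunc k (nilPart Δ j μ (cc (φ a) μ)), ?_⟩
      ext m
      rw [Polynomial.coeToPowerSeries.ringHom_apply, Polynomial.coeff_coe, PowerSeries.coeff_trunc]
      split_ifs with hm
      · rfl
      · rw [coeff_nilPart, pow_eq_zero_of_le' (not_lt.1 hm) hk]
        simp
    obtain ⟨ψ₀, hψ₀⟩ := exists_lift_of_range (Polynomial.coeToPowerSeries.ringHom (R := L))
      (Polynomial.coe_injective L) _ hrange
    have hψ : ∀ a k, (ψ₀ a).coeff k = PowerSeries.coeff k (nilHom h j (φ a)) := by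
      intro a k
      have := RingHom.congr_fun hψ₀ a
      rw [RingHom.comp_apply, RingHom.comp_apply, Polynomial.coeToPowerSeries.ringHom_apply] at this
      rw [← Polynomial.coeff_coe, this]
    have hc0' : ∀ r, PowerSeries.coeff 0 (nilHom h j r) = j r := by
      intro r
      rw [hTr r (s r) (Finset.Subset.refl _), map_sum]
      conv_rhs => rw [hccsum r (s r) (Finset.Subset.refl _), map_sum]
      refine Finset.sum_congr rfl fun μ _ => ?_
      rw [coeff_nilPart]
      simp
    have hc1' : ∀ (r : R) (T : Finset C), s r ⊆ T →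
        PowerSeries.coeff 1 (nilHom h j r) = j (Δ r - ∑ μ ∈ T, μ • cc r μ) := by
      intro r T hT
      rw [hTr r T hT, map_sum]
      have h1 : Δ r = ∑ μ ∈ T, Δ (cc r μ) := by
        conv_lhs => rw [hccsum r T hT]
        rw [map_sum]
      rw [h1, ← Finset.sum_sub_distrib, map_sum]
      refine Finset.sum_congr rfl fun μ _ => ?_
      rw [coeff_nilPart]
      simp
    refine ⟨(Polynomial.toLaurent (R := L)).comp ψ₀, ?_, ?_, ?_⟩
    · intro b
      rw [RingHom.comp_apply, ← Polynomial.toLaurent_C]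
      congr 1
      ext k
      obtain ⟨c', hc'⟩ := hB b
      rw [hψ, Polynomial.coeff_C, ← hc', nilHom_of_mem h j (algebraMap_mem_wt_zero c'),
        coeff_nilPart]
      rcases Nat.eq_zero_or_pos k with hk | hk
      · subst hk; simp
      · obtain ⟨m, rfl⟩ := Nat.exists_eq_succ_of_ne_zero hk.ne'
        rw [if_neg (by omega), Nat.succ_eq_add_one, pow_succ, Module.End.mul_apply, zero_smul,
          sub_zero, Derivation.coeFn_coe, Derivation.map_algebraMap, map_zero, smul_zero, map_zero]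
    · refine ⟨1, 0, fun heq => ?_⟩
      have hco : ∀ (p : Polynomial L) (k : ℕ),
          (Polynomial.toLaurent p).coeff (k : ℤ) = p.coeff k := by
        intro p k
        rw [LaurentPolynomial.coeff_toLaurent]
        exact Finsupp.mapDomain_apply Nat.castEmbedding.injective _ _
      have h10 := hco (ψ₀ a₁) 1
      have h11 := hco (ψ₀ a₁) 0
      have h12 := hco (ψ₀ s₁) 1
      have h13 := hco (ψ₀ s₁) 0
      rw [Nat.cast_one] at h10 h12
      rw [Nat.cast_zero] at h11 h13
      rw [RingHom.comp_apply, RingHom.comp_apply, h10, h11, h12, h13] at heq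
      let T := s (φ a₁) ∪ s (φ s₁)
      rw [hψ, hψ, hψ, hψ, hc0', hc0', hc1' (φ a₁) T Finset.subset_union_left,
        hc1' (φ s₁) T Finset.subset_union_right, ← map_mul, ← map_mul] at heq
      have h2 := hj heq
      have h3 : (∑ μ ∈ T, μ • cc (φ a₁) μ) * φ s₁ = (∑ μ ∈ T, μ • cc (φ s₁) μ) * φ a₁ := by
        rw [Finset.sum_mul, Finset.sum_mul]
        refine Finset.sum_congr rfl fun μ _ => ?_
        rw [smul_mul_assoc, smul_mul_assoc, hSS μ]
      apply hne
      linear_combination h2 + h3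
    · intro q hq h0
      apply hq
      rw [RingHom.comp_apply] at h0
      have h1 : ψ₀ q = 0 := Polynomial.toLaurent_injective (by rw [h0, map_zero])
      have h2 := hψ q 0
      rw [h1, hc0'] at h2
      simpa using h2.symm
  · -- the semisimple part moves the quotient
    push Not at hSS
    obtain ⟨μ₀, hμ₀⟩ := hSS
    obtain ⟨G, hG⟩ := hfg.out
    let Λ : Finset C := s (φ a₁) ∪ s (φ s₁) ∪ (G.biUnion fun g => s (φ g)) ∪ {μ₀}
    -- a functional which is injective on Λ
    let ι := {p : Λ × Λ // p.1 ≠ p.2}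
    obtain ⟨χ₀, hχ₀⟩ := Module.exists_dual_forall_apply_ne_zero (K := ℚ)
      (fun p : ι => ((p.1.1 : C) - (p.1.2 : C))) (by
        rintro ⟨⟨a, b⟩, hab⟩
        simp only [ne_eq, sub_eq_zero]
        intro h
        exact hab (Subtype.ext h))
    have hinj₀ : ∀ a ∈ Λ, ∀ b ∈ Λ, χ₀ a = χ₀ b → a = b := by
      intro a ha b hb hab
      by_contra hne
      have := hχ₀ ⟨(⟨a, ha⟩, ⟨b, hb⟩), fun h => hne (congrArg Subtype.val h)⟩
      simp only [map_sub, ne_eq, sub_eq_zero] at this
      exact this hab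
    -- clear denominators
    let N : ℕ := ∏ a ∈ Λ, (χ₀ a).den
    have hN : N ≠ 0 := Finset.prod_ne_zero_iff.2 fun a _ => (χ₀ a).den_ne_zero
    have hint : ∀ a ∈ Λ, ∃ z : ℤ, (z : ℚ) = N * χ₀ a := by
      intro a ha
      obtain ⟨m, hm⟩ : (χ₀ a).den ∣ N := Finset.dvd_prod_of_mem _ ha
      refine ⟨m * (χ₀ a).num, ?_⟩
      rw [hm]
      push_cast
      have := Rat.mul_den_eq_num (χ₀ a)
      rw [← this]; ring
    let χ : C →+ ℚ := (N • χ₀.toAddMonoidHom)
    have hχ : ∀ a, χ a = N * χ₀ a := by intro a; simp [χ]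
    have hinj : ∀ a ∈ Λ, ∀ b ∈ Λ, χ a = χ b → a = b := by
      intro a ha b hb hab
      rw [hχ, hχ] at hab
      exact hinj₀ a ha b hb (mul_left_cancel₀ (by exact_mod_cast hN) hab)
    let T : R →+* AddMonoidAlgebra L ℚ := weightHom h j χ
    let ιZ : AddMonoidAlgebra L ℤ →+* AddMonoidAlgebra L ℚ :=
      AddMonoidAlgebra.mapDomainRingHom L (Int.castAddHom ℚ)
    have hιZ : Function.Injective ιZ :=
      AddMonoidAlgebra.mapDomain_injective (fun a b hab => by simpa using hab)
    have hTg : ∀ (r : R) (U : Finset C), s r ⊆ U →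
        T r = ∑ μ ∈ U, AddMonoidAlgebra.single (χ μ) (j (cc r μ)) := by
      intro r U hU
      conv_lhs => rw [hccsum r U hU]
      rw [map_sum]
      exact Finset.sum_congr rfl fun μ _ => weightHom_of_mem h j χ (hcc r μ)
    have hGΛ : ∀ g ∈ G, s (φ g) ⊆ Λ := by
      intro g hg μ hμ
      simp only [Λ, Finset.mem_union, Finset.mem_biUnion]
      exact Or.inl (Or.inr ⟨g, hg, hμ⟩)
    have haΛ : s (φ a₁) ⊆ Λ := by
      intro μ hμ
      simp only [Λ, Finset.mem_union]
      exact Or.inl (Or.inl (Or.inl hμ))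
    have hsΛ : s (φ s₁) ⊆ Λ := by
      intro μ hμ
      simp only [Λ, Finset.mem_union]
      exact Or.inl (Or.inl (Or.inr hμ))
    have hμΛ : μ₀ ∈ Λ := by simp [Λ]
    have hrange : ∀ a : A, (T.comp φ) a ∈ ιZ.range := by
      intro a
      have : a ∈ Algebra.adjoin B (G : Set A) := by rw [hG]; trivial
      induction this using Algebra.adjoin_induction with
      | mem g hg =>
        rw [RingHom.comp_apply, hTg (φ g) Λ (hGΛ g hg)]
        refine Subring.sum_mem _ fun μ hμ => ?_
        obtain ⟨z, hz⟩ := hint μ hμ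
        refine ⟨AddMonoidAlgebra.single z (j (cc (φ g) μ)), ?_⟩
        show AddMonoidAlgebra.mapDomain _ _ = _
        rw [AddMonoidAlgebra.mapDomain_single, hχ, ← hz]
        rfl
      | algebraMap b =>
        obtain ⟨k, hk⟩ := hB b
        rw [RingHom.comp_apply, ← hk]
        rw [weightHom_of_mem h j χ (algebraMap_mem_wt_zero k)]
        refine ⟨AddMonoidAlgebra.single 0 (j (algebraMap C R k)), ?_⟩
        show AddMonoidAlgebra.mapDomain _ _ = _
        rw [AddMonoidAlgebra.mapDomain_single]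
        simp
      | add x y _ _ hx hy => rw [map_add]; exact Subring.add_mem _ hx hy
      | mul x y _ _ hx hy => rw [map_mul]; exact Subring.mul_mem _ hx hy
    obtain ⟨ψ, hψ⟩ := exists_lift_of_range ιZ hιZ (T.comp φ) hrange
    have hψ' : ∀ a, ιZ (ψ a) = T (φ a) := fun a => RingHom.congr_fun hψ a
    have hιC : ∀ l : L, ιZ (LaurentPolynomial.C l) = AddMonoidAlgebra.single 0 l := by
      intro l
      show AddMonoidAlgebra.mapDomain _ (AddMonoidAlgebra.single 0 l) = _
      rw [AddMonoidAlgebra.mapDomain_single]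
      simp
    refine ⟨ψ, ?_, ?_, ?_⟩
    · intro b
      apply hιZ
      rw [hψ', hιC]
      obtain ⟨k, hk⟩ := hB b
      rw [← hk, weightHom_of_mem h j χ (algebraMap_mem_wt_zero k)]
      simp
    · by_contra hcon
      push Not at hcon
      choose! z hz using hint
      have hzinj : ∀ a ∈ Λ, ∀ b ∈ Λ, z a = z b → a = b := by
        intro a ha b hb hab
        apply hinj a ha b hb
        rw [hχ, hχ, ← hz a ha, ← hz b hb, hab]
      have hψe : ∀ x : A, s (φ x) ⊆ Λ →
          ψ x = ∑ μ ∈ Λ, AddMonoidAlgebra.single (z μ) (j (cc (φ x) μ)) := by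
        intro x hx
        apply hιZ
        rw [hψ', hTg _ Λ hx, map_sum]
        refine Finset.sum_congr rfl fun μ hμ => ?_
        show _ = AddMonoidAlgebra.mapDomain _ _
        rw [AddMonoidAlgebra.mapDomain_single, hχ, ← hz μ hμ]
        rfl
      have hco : ∀ x : A, s (φ x) ⊆ Λ → ∀ μ ∈ Λ, (ψ x).coeff (z μ) = j (cc (φ x) μ) := by
        intro x hx μ hμ
        rw [hψe x hx, AddMonoidAlgebra.coeff_sum, Finset.sum_apply', Finset.sum_eq_single μ]
        · rw [AddMonoidAlgebra.coeff_single, Finsupp.single_eq_same]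
        · intro ν hν hne'
          rw [AddMonoidAlgebra.coeff_single, Finsupp.single_apply, if_neg]
          intro h
          exact hne' (hzinj ν hν μ hμ h)
        · intro h; exact absurd hμ h
      apply hμ₀
      apply hj
      have h1 : ∀ μ ∈ Λ, j (cc (φ a₁) μ₀) * j (cc (φ s₁) μ) = j (cc (φ a₁) μ) * j (cc (φ s₁) μ₀) := by
        intro μ hμ
        have := hcon (z μ₀) (z μ)
        rwa [hco a₁ haΛ μ₀ hμΛ, hco s₁ hsΛ μ hμ, hco a₁ haΛ μ hμ, hco s₁ hsΛ μ₀ hμΛ] at this
      have h2 := Finset.sum_congr rfl h1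
      rw [← Finset.mul_sum, ← Finset.sum_mul, ← map_sum, ← map_sum, ← hccsum (φ s₁) Λ hsΛ,
        ← hccsum (φ a₁) Λ haΛ] at h2
      rw [map_mul, map_mul, h2, mul_comm]
    · intro q hq h0
      apply hq
      have h1 : T (φ q) = 0 := by rw [← hψ', h0, map_zero]
      -- augmentation
      have h2 : ∀ r, (AddMonoidAlgebra.lift L L ℚ (1 : Multiplicative ℚ →* L)) (T r) = j r := by
        intro r
        rw [hTg r (s r) (Finset.Subset.refl _), map_sum]
        conv_rhs => rw [hccsum r (s r) (Finset.Subset.refl _), map_sum]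
        refine Finset.sum_congr rfl fun μ _ => ?_
        simp [AddMonoidAlgebra.lift_single]
      rw [← h2, h1, map_zero]

end Frac

section Core

variable {C K L : Type} [Field C] [Field K] [Field L] [Algebra C L] [Algebra K L] [Algebra C K]
  [IsScalarTower C K L] [CharZero C] [IsAlgClosed C]

theorem exists_laurent_core_frac (d : Derivation C L L)
    (hconst : ∀ x : L, d x = 0 → x ∈ Set.range (algebraMap C L))
    (hK : ∀ k : K, ∃ k' : K, d (algebraMap K L k) = algebraMap K L k')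
    {ι : Type} [Fintype ι] [DecidableEq ι] (Φ : ι → ι → L) (M : ι → ι → K)
    (hΦ : ∀ i j, d (Φ i j) = ∑ k, algebraMap K L (M i k) * Φ k j)
    (hdet : IsUnit (Matrix.det (Matrix.of Φ)))
    {B A : Type} [CommRing B] [CommRing A] [Algebra B A] [hfg : Algebra.FiniteType B A]
    (φ : A →+* L) (hφ : ∀ a, φ a ∈ solAlg K Φ)
    (hB : ∀ b : B, φ (algebraMap B A b) ∈ Set.range (algebraMap C L))
    (a₁ s₁ : A) (hs : φ s₁ ≠ 0) (htr : Transcendental K (φ a₁ / φ s₁)) :
    ∃ ψ : A →+* LaurentPolynomial L,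
      (∀ b : B, ψ (algebraMap B A b) = LaurentPolynomial.C (φ (algebraMap B A b))) ∧
      (∃ m n : ℤ, (ψ a₁).coeff m * (ψ s₁).coeff n ≠ (ψ a₁).coeff n * (ψ s₁).coeff m) ∧
      (∀ q, φ q ≠ 0 → ψ q ≠ 0) := by
  have : CharZero K := charZero_of_injective_algebraMap (algebraMap C K).injective
  obtain ⟨δ₀, hδ₀⟩ := exists_derivation_ne_zero (φ a₁ / φ s₁) htr
  have hδ₁ : δ₀ (φ a₁) * φ s₁ - φ a₁ * δ₀ (φ s₁) ≠ 0 := by
    intro h0
    apply hδ₀
    have h1 : δ₀ (φ a₁) = φ s₁ * δ₀ (φ a₁ / φ s₁) + (φ a₁ / φ s₁) * δ₀ (φ s₁) := by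
      have h2 : φ a₁ = φ s₁ * (φ a₁ / φ s₁) := by field_simp
      conv_lhs => rw [h2]
      rw [Derivation.leibniz, smul_eq_mul, smul_eq_mul]
    rw [h1] at h0
    have h3 : φ s₁ ^ 2 * δ₀ (φ a₁ / φ s₁) = 0 := by
      have h4 : φ a₁ / φ s₁ * φ s₁ = φ a₁ := div_mul_cancel₀ _ hs
      linear_combination h0 - δ₀ (φ s₁) * h4
    exact (mul_eq_zero.1 h3).resolve_left (pow_ne_zero _ hs)
  obtain ⟨B', Δ, hΔ, hΔa⟩ := exists_const_derivation_frac d hconst hK Φ M hΦ hdet ⟨φ a₁, hφ a₁⟩
    ⟨φ s₁, hφ s₁⟩ (δ₀.compAlgebraMap (solAlg K Φ)) hδ₁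
  let φR : A →+* solAlg K Φ := φ.codRestrict _ hφ
  obtain ⟨ψ, h1, h2, h3⟩ := exists_laurent_of_locFin_frac (locFin_ΔR Φ B' Δ hΔ)
    (algebraMap (solAlg K Φ) L) (fun x y h => Subtype.ext h) (B := B) φR (by
      intro b
      obtain ⟨c, hc⟩ := hB b
      refine ⟨c, Subtype.ext ?_⟩
      exact hc) a₁ s₁ (by
      intro h
      apply hΔa
      have h4 := congrArg Subtype.val h
      have h5 : Δ ⟨φ a₁, hφ a₁⟩ * φ s₁ = Δ ⟨φ s₁, hφ s₁⟩ * φ a₁ := h4
      show Δ ⟨φ a₁, hφ a₁⟩ * φ s₁ - φ a₁ * Δ ⟨φ s₁, hφ s₁⟩ = 0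
      rw [h5]; ring)
  exact ⟨ψ, h1, h2, h3⟩

end Core

end Pool.Agent.Work.MP_e97a4d_nt
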