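import Mathlib
import Pool.Agent.Work.MP_e97a4d_nt.Defs
import Pool.Agent.Work.MP_e97a4d_nt.LinearSystem

/-!
Linear entire curves.
-/

set_option autoImplicit false

noncomputable section

namespace Pool.Agent.Work.MP_e97a4d_nt

open AlgebraicGeometry CategoryTheory IsDedekindDomain NumberField

variable {F₀ : Type} [Field F₀] {V V' : Scheme.{0}}

/-- The map `f : ℂ → V(ℂ)` is linear: on some nonempty connected open set `Ω` it is of the form
`z ↦ j (g z)` for a morphism `j : Spec A ⟶ V` over `O_{F₀}`, `A` a finitely generated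
`O_{F₀}`-algebra (structure map `ψ`), and a holomorphic family `g z` of complex points of `Spec A`
all of whose coordinates `z ↦ g z a` are solutions of nonzero linear differential equations with
coefficients in a ring `D` of functions holomorphic on `Ω`, containing the constants and closed
under differentiation; and `f` is not algebraic over `D`: some regular function `b` on an affine
open `j' : Spec A' ⟶ V` containing `f (Ω)` pulls back to a (holomorphic) function that satisfies no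
nonzero polynomial equation over `D`. -/
def IsLinearCurve (π : V ⟶ Spec (CommRingCat.of (𝓞 F₀)))
    (f : ℂ → (Spec (CommRingCat.of ℂ) ⟶ V)) : Prop :=
  ∃ (Ω : Set ℂ) (D : Subalgebra ℂ (ℂ → ℂ)) (A : CommRingCat.{0}) (ψ : 𝓞 F₀ →+* A)
    (j : Spec A ⟶ V) (g : ℂ → (A →+* ℂ)) (A' : CommRingCat.{0}) (j' : Spec A' ⟶ V)
    (g' : ℂ → (A' →+* ℂ)) (b : A'),
    IsOpen Ω ∧ Ω.Nonempty ∧ IsPreconnected Ω ∧ IsDiffRing Ω D ∧
    ψ.FiniteType ∧ j ≫ π = Spec.map (CommRingCat.ofHom ψ) ∧
    (∀ z ∈ Ω, f z = Spec.map (CommRingCat.ofHom (g z)) ≫ j) ∧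
    (∀ a : A, DifferentiableOn ℂ (fun z => g z a) Ω ∧ LinODE Ω D (fun z => g z a)) ∧
    IsOpenImmersion j' ∧ (∀ z ∈ Ω, f z = Spec.map (CommRingCat.ofHom (g' z)) ≫ j') ∧
    (∀ a : A', DifferentiableOn ℂ (fun z => g' z a) Ω) ∧ ¬ AlgOver Ω D (fun z => g' z b)

/-- Condition (i) for linear entire curves. -/
def CondIlin (σ : F₀ →+* ℂ) (π : V ⟶ Spec (CommRingCat.of (𝓞 F₀))) (i : V' ⟶ V) : Prop :=
  ∀ f : ℂ → (Spec (CommRingCat.of ℂ) ⟶ V), IsEntireCurve σ π f → IsLinearCurve π f →
    ∀ z : ℂ, ∃ p : Spec (CommRingCat.of ℂ) ⟶ V', p ≫ i = f z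

end Pool.Agent.Work.MP_e97a4d_nt
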