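import Mathlib
import Pool.Agent.Work.MP_e97a4d_nt.ExpDefs
import Pool.Agent.Work.MP_e97a4d_nt.Charts

/-!
Specialization of one-parameter families to the complex numbers, and quotients of regular functions
as pulled back functions of a chart.
-/

set_option autoImplicit false
set_option linter.unusedSectionVars false

noncomputable section

namespace Pool.Agent.Work.MP_e97a4d_nt

open AlgebraicGeometry CategoryTheory CategoryTheory.Limits IsDedekindDomain NumberField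

/-- Specialization of a one-parameter family over a field extension of `ℂ` to `ℂ`. -/
theorem exists_complex_laurent {L : Type} [Field L] [Algebra ℂ L] {B A : Type} [CommRing B]
    [CommRing A] [Algebra B A] [hfg : Algebra.FiniteType B A] (τ : B →+* ℂ)
    (ψ : A →+* LaurentPolynomial L)
    (hψ : ∀ b : B, ψ (algebraMap B A b) = LaurentPolynomial.C (algebraMap ℂ L (τ b)))
    (a₁ s₁ : A) (m n : ℤ)
    (hmn : (ψ a₁).coeff m * (ψ s₁).coeff n ≠ (ψ a₁).coeff n * (ψ s₁).coeff m)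
    (q : A) (hq : ψ q ≠ 0) :
    ∃ ψ' : A →+* LaurentPolynomial ℂ,
      (∀ b : B, ψ' (algebraMap B A b) = LaurentPolynomial.C (τ b)) ∧
      (ψ' a₁).coeff m * (ψ' s₁).coeff n ≠ (ψ' a₁).coeff n * (ψ' s₁).coeff m ∧ ψ' q ≠ 0 := by
  classical
  obtain ⟨G, hG⟩ := hfg.out
  let T : Finset L := G.biUnion fun g => (ψ g).coeff.support.image fun n => (ψ g).coeff n
  let B₀ : Subalgebra ℂ L := Algebra.adjoin ℂ (T : Set L)
  have hB₀ : Algebra.FiniteType ℂ B₀ := (Subalgebra.fg_iff_finiteType _).1 ⟨T, rfl⟩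
  let ι : LaurentPolynomial B₀ →+* LaurentPolynomial L :=
    AddMonoidAlgebra.mapRingHom ℤ (B₀.val : B₀ →+* L)
  have hι : Function.Injective ι := mapRingHom_injective' _ (fun a b h => Subtype.ext h)
  have hrange : ∀ a, ψ a ∈ ι.range := by
    intro a
    have : a ∈ Algebra.adjoin B (G : Set A) := by rw [hG]; trivial
    induction this using Algebra.adjoin_induction with
    | mem g hg =>
      refine mem_range_map_of_coeff _ _ fun n => ?_
      by_cases hn : n ∈ (ψ g).coeff.support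
      · refine ⟨⟨(ψ g).coeff n, Algebra.subset_adjoin ?_⟩, rfl⟩
        exact Finset.mem_coe.2 (Finset.mem_biUnion.2 ⟨g, hg, Finset.mem_image.2 ⟨n, hn, rfl⟩⟩)
      · refine ⟨0, ?_⟩
        rw [map_zero]
        simpa using (Finsupp.notMem_support_iff.1 hn).symm
    | algebraMap b =>
      rw [hψ]
      refine ⟨LaurentPolynomial.C (algebraMap ℂ B₀ (τ b)), ?_⟩
      ext n
      rw [AddMonoidAlgebra.coeff_mapRingHom]
      simp only [LaurentPolynomial.C_apply]
      split_ifs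
      · rfl
      · simp
    | add x y _ _ hx hy => rw [map_add]; exact Subring.add_mem _ hx hy
    | mul x y _ _ hx hy => rw [map_mul]; exact Subring.mul_mem _ hx hy
  obtain ⟨ψ₁, hψ₁⟩ := exists_lift_of_range ι hι ψ hrange
  have hψ₁' : ∀ a n, (((ψ₁ a).coeff n : B₀) : L) = (ψ a).coeff n := by
    intro a n
    have := RingHom.congr_fun hψ₁ a
    rw [RingHom.comp_apply] at this
    rw [← this]
    exact (AddMonoidAlgebra.coeff_mapRingHom (M := ℤ) (B₀.val : B₀ →+* L) (ψ₁ a) n).symm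
  obtain ⟨l, hl⟩ : ∃ l : ℤ, (ψ₁ q).coeff l ≠ 0 := by
    by_contra hcon
    push Not at hcon
    apply hq
    ext n
    rw [← hψ₁', hcon n]; rfl
  have hmn' : (ψ₁ a₁).coeff m * (ψ₁ s₁).coeff n - (ψ₁ a₁).coeff n * (ψ₁ s₁).coeff m ≠ 0 := by
    intro h
    apply hmn
    have h1 := congrArg (fun x : B₀ => (x : L)) h
    simp only [AddSubgroupClass.coe_sub, MulMemClass.coe_mul, ZeroMemClass.coe_zero, hψ₁'] at h1
    exact sub_eq_zero.1 h1
  have hb : ((ψ₁ a₁).coeff m * (ψ₁ s₁).coeff n - (ψ₁ a₁).coeff n * (ψ₁ s₁).coeff m) *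
      (ψ₁ q).coeff l ≠ 0 := mul_ne_zero hmn' hl
  set e : B₀ := ((ψ₁ a₁).coeff m * (ψ₁ s₁).coeff n - (ψ₁ a₁).coeff n * (ψ₁ s₁).coeff m) *
      (ψ₁ q).coeff l with he
  -- maximal ideal
  have hjac : IsJacobsonRing B₀ := isJacobsonRing_of_finiteType (A := ℂ)
  obtain ⟨𝔪, h𝔪, hb𝔪⟩ : ∃ 𝔪 : Ideal B₀, 𝔪.IsMaximal ∧ e ∉ 𝔪 := by
    by_contra hcon
    push Not at hcon
    apply hb
    have h1 : e ∈ (⊥ : Ideal B₀).jacobson := by
      rw [Ideal.jacobson, Ideal.mem_sInf]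
      intro J hJ
      exact hcon J hJ.2
    rw [← Ideal.radical_eq_jacobson] at h1
    obtain ⟨n, hn⟩ := h1
    have hn0 : n ≠ 0 := by
      rintro rfl
      rw [pow_zero] at hn
      exact one_ne_zero ((Ideal.mem_bot).1 hn)
    exact (pow_eq_zero_iff hn0).1 ((Ideal.mem_bot).1 hn)
  let instF : Field (B₀ ⧸ 𝔪) := Ideal.Quotient.field 𝔪
  have hfin : Module.Finite ℂ (B₀ ⧸ 𝔪) :=
    finite_of_finite_type_of_isJacobsonRing ℂ (B₀ ⧸ 𝔪)
  have hbij : Function.Bijective (algebraMap ℂ (B₀ ⧸ 𝔪)) :=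
    IsAlgClosed.algebraMap_bijective_of_isIntegral
  let E : ℂ ≃+* (B₀ ⧸ 𝔪) := RingEquiv.ofBijective _ hbij
  let ρ : B₀ →+* ℂ := (E.symm : (B₀ ⧸ 𝔪) →+* ℂ).comp (Ideal.Quotient.mk 𝔪)
  have hρC : ∀ c : ℂ, ρ (algebraMap ℂ B₀ c) = c := by
    intro c
    show E.symm (Ideal.Quotient.mk 𝔪 (algebraMap ℂ B₀ c)) = c
    rw [RingEquiv.symm_apply_eq]
    rfl
  have hρe : ρ e ≠ 0 := by
    intro h
    have h1 : E.symm (Ideal.Quotient.mk 𝔪 e) = 0 := h
    rw [RingEquiv.symm_apply_eq, map_zero] at h1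
    exact hb𝔪 (Ideal.Quotient.eq_zero_iff_mem.1 h1)
  let ψ₂ : A →+* LaurentPolynomial ℂ := (AddMonoidAlgebra.mapRingHom ℤ ρ).comp ψ₁
  have hψ₂ : ∀ a n, (ψ₂ a).coeff n = ρ ((ψ₁ a).coeff n) := by
    intro a n
    exact AddMonoidAlgebra.coeff_mapRingHom _ _ _
  refine ⟨ψ₂, ?_, ?_, ?_⟩
  · intro b
    ext n
    rw [hψ₂, LaurentPolynomial.C_apply]
    have h1 : (ψ₁ (algebraMap _ _ b)).coeff n = if n = 0 then algebraMap ℂ B₀ (τ b) else 0 := by
      apply Subtype.ext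
      rw [hψ₁', hψ, LaurentPolynomial.C_apply]
      split_ifs
      · rfl
      · rfl
    rw [h1]
    split_ifs
    · exact hρC _
    · exact map_zero _
  · intro h
    apply hρe
    rw [he, map_mul, map_sub, map_mul, map_mul, ← hψ₂, ← hψ₂, ← hψ₂, ← hψ₂, h, sub_self, zero_mul]
  · intro h
    apply hρe
    rw [he, map_mul]
    have h1 : (ψ₂ q).coeff l = 0 := by rw [h]; rfl
    rw [hψ₂] at h1
    rw [h1, mul_zero]

/-- Quotients of regular functions represent the pulled back functions of a chart. -/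
theorem exists_frac {V : Scheme.{0}} {A : CommRingCat.{0}} (j : Spec A ⟶ V)
    {A' : CommRingCat.{0}} (j' : Spec A' ⟶ V) [IsOpenImmersion j'] (P₀ : A →+* ℂ) (P₀' : A' →+* ℂ)
    (h : Spec.map (CommRingCat.ofHom P₀) ≫ j = Spec.map (CommRingCat.ofHom P₀') ≫ j') (b : A') :
    ∃ a₁ s₁ : A, P₀ s₁ ≠ 0 ∧ ∀ P : A →+* ℂ, P s₁ ≠ 0 → ∃ P' : A' →+* ℂ,
      Spec.map (CommRingCat.ofHom P') ≫ j' = Spec.map (CommRingCat.ofHom P) ≫ j ∧
        P' b * P s₁ = P a₁ := by
  classical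
  let p : PrimeSpectrum A := PrimeSpectrum.comap P₀ ⊥
  let p' : PrimeSpectrum A' := PrimeSpectrum.comap P₀' ⊥
  have hpp : j p = j' p' := by
    have h1 := congrArg (fun c : Spec (CommRingCat.of ℂ) ⟶ V => c (⊥ : PrimeSpectrum ℂ)) h
    exact h1
  have h1 : p ∈ (j ⁻¹ᵁ j'.opensRange : (Spec A).Opens) := by
    show j p ∈ j'.opensRange
    rw [hpp]
    exact ⟨p', rfl⟩
  obtain ⟨_, ⟨s, rfl⟩, hps, hsU⟩ := PrimeSpectrum.isTopologicalBasis_basic_opens.exists_subset_of_mem_open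
    h1 (j ⁻¹ᵁ j'.opensRange).isOpen
  have hgs : P₀ s ≠ 0 := by
    intro h
    exact hps (by
      show P₀ s ∈ (⊥ : Ideal ℂ)
      rw [h]; exact zero_mem _)
  let L := Localization.Away s
  let q : Spec (CommRingCat.of L) ⟶ V := Spec.map (CommRingCat.ofHom (algebraMap A L)) ≫ j
  have hq : Set.range q ⊆ Set.range j' := by
    rintro _ ⟨y, rfl⟩
    have h2 : Spec.map (CommRingCat.ofHom (algebraMap A L)) y ∈
        (PrimeSpectrum.basicOpen s : Set (PrimeSpectrum A)) := by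
      intro (h : algebraMap A L s ∈ y.asIdeal)
      exact y.2.ne_top (Ideal.eq_top_of_isUnit_mem _ h
        (IsLocalization.map_units L (⟨s, Submonoid.mem_powers s⟩ : Submonoid.powers s)))
    exact hsU h2
  obtain ⟨θ, hθ⟩ := Spec.map_surjective (IsOpenImmersion.lift j' q hq)
  have hθ' : Spec.map θ ≫ j' = q := by
    rw [hθ, IsOpenImmersion.lift_fac]
  obtain ⟨⟨β, t⟩, hβ⟩ := IsLocalization.surj (Submonoid.powers s) (θ.hom b)
  obtain ⟨k, hk⟩ := t.2
  refine ⟨β * s, s ^ (k + 1), ?_, ?_⟩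
  · rw [map_pow]; exact pow_ne_zero _ hgs
  · intro P hP
    have hPs : P s ≠ 0 := by
      intro h0
      apply hP
      rw [map_pow, h0, zero_pow (Nat.succ_ne_zero k)]
    let G : L →+* ℂ := IsLocalization.Away.lift s (g := P) (isUnit_iff_ne_zero.2 hPs)
    have hG : G.comp (algebraMap A L) = P := IsLocalization.Away.lift_comp _ _
    refine ⟨G.comp θ.hom, ?_, ?_⟩
    · have h3 : Spec.map (CommRingCat.ofHom (G.comp θ.hom)) =
          Spec.map (CommRingCat.ofHom G) ≫ Spec.map θ := by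
        rw [← Spec.map_comp]; rfl
      rw [h3, Category.assoc, hθ', ← Category.assoc, ← Spec.map_comp, ← CommRingCat.ofHom_comp, hG]
    · have h4 := congrArg G hβ
      rw [map_mul] at h4
      have h5 : ∀ x, G (algebraMap A L x) = P x := fun x =>
        congrArg (fun f : A →+* ℂ => f x) hG
      rw [h5, h5, ← hk] at h4
      rw [RingHom.comp_apply, map_mul, pow_succ, map_mul, ← h4]
      ring

end Pool.Agent.Work.MP_e97a4d_nt
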