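import Mathlib
import Pool.Agent.Work.MP_e97a4d_nt.LwDefs
import Pool.Agent.Work.MP_e97a4d_nt.LwCore
import Pool.Agent.Work.MP_e97a4d_nt.LwSpec
import Pool.Agent.Work.MP_e97a4d_nt.Holonomic
import Pool.Agent.Work.MP_e97a4d_nt.Identity

/-!
Linear entire curves outside `V'` produce images of the multiplicative group outside `V'`.
-/

set_option autoImplicit false
set_option linter.unusedSectionVars false

noncomputable section

namespace Pool.Agent.Work.MP_e97a4d_nt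

open scoped BigOperators Topology
open Finset PowerSeries AlgebraicGeometry CategoryTheory CategoryTheory.Limits IsDedekindDomain
  NumberField

/-- A nonzero complex Laurent polynomial vanishes at only finitely many powers of `2`. -/
theorem exists_unit_ne {f g : LaurentPolynomial ℂ} (hf : f ≠ 0) (hg : g ≠ 0) :
    ∃ u : ℂˣ, evL u f ≠ 0 ∧ evL u g ≠ 0 := by
  have h1 := (laurent_finite_roots f hf).union (laurent_finite_roots g hg)
  obtain ⟨m, hm⟩ := h1.infinite_compl.nonempty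
  refine ⟨twoU ℂ ^ m, fun h => hm (Or.inl h), fun h => hm (Or.inr h)⟩

/-- Non-proportional Laurent polynomials have a non-constant quotient. -/
theorem exists_units_ne {P Q : LaurentPolynomial ℂ} {m n : ℤ}
    (h : P.coeff m * Q.coeff n ≠ P.coeff n * Q.coeff m) :
    ∃ u v : ℂˣ, evL u Q ≠ 0 ∧ evL v Q ≠ 0 ∧ evL u P * evL v Q ≠ evL v P * evL u Q := by
  have hQ : Q ≠ 0 := by
    rintro rfl
    apply h
    simp
  obtain ⟨v, hv, -⟩ := exists_unit_ne hQ hQ
  have hR : P * LaurentPolynomial.C (evL v Q) - Q * LaurentPolynomial.C (evL v P) ≠ 0 := by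
    intro h0
    have hc : ∀ (S : LaurentPolynomial ℂ) (c : ℂ) (k : ℤ),
        (S * LaurentPolynomial.C c).coeff k = S.coeff k * c := by
      intro S c k
      rw [LaurentPolynomial.C_eq_algebraMap, mul_comm, ← Algebra.smul_def,
        AddMonoidAlgebra.coeff_smul, Finsupp.smul_apply, smul_eq_mul, mul_comm]
    have h1 : ∀ k, P.coeff k * evL v Q = Q.coeff k * evL v P := by
      intro k
      rw [← hc, ← hc, sub_eq_zero.1 h0]
    apply h
    apply mul_left_cancel₀ hv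
    linear_combination Q.coeff n * h1 m - Q.coeff m * h1 n
  obtain ⟨u, hu, hu'⟩ := exists_unit_ne hQ hR
  refine ⟨u, v, hu, hv, fun h0 => hu' ?_⟩
  rw [map_sub, map_mul, map_mul]
  have hC : ∀ c : ℂ, evL u (LaurentPolynomial.C c) = c := by
    intro c
    simp [evL]
  rw [hC, hC, h0]
  ring

variable {F₀ : Type} [Field F₀] [NumberField F₀]

theorem condIlin_of_condGm (σ : F₀ →+* ℂ) {V V' : Scheme.{0}}
    (π : V ⟶ Spec (CommRingCat.of (𝓞 F₀))) (i : V' ⟶ V) [IsClosedImmersion i]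
    (hGm : CondGm σ π i) : CondIlin σ π i := by
  classical
  rintro f hf ⟨Ω, D, A, α, j, g, A', j', g', b, hΩ, hne, hc, hD, hft, hα, hfg, hlin, hj', hfg',
    hg'hol, hb⟩ z
  have hg : ∀ a, DifferentiableOn ℂ (fun z => g z a) Ω := fun a => (hlin a).1
  refine factors_of_open σ π i f hf.1 Ω hΩ hne ?_ z
  intro z₁ hz₁
  by_contra hout
  -- structure map
  have hgα : ∀ w ∈ Ω, ∀ b : 𝓞 F₀, g w (α b) = σ b := by
    intro w hw b
    have h1 := hf.1.structural w
    rw [hfg w hw, Category.assoc, hα, ← Spec.map_comp] at h1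
    have h2 := congrArg CommRingCat.Hom.hom (Spec.map_injective h1)
    have h3 := RingHom.congr_fun h2 b
    simpa using h3
  let _ : Algebra (𝓞 F₀) A := α.toAlgebra
  have hfg0 : Algebra.FiniteType (𝓞 F₀) A := hft
  obtain ⟨G, hG⟩ := hfg0.out
  -- the ideal of V' and a function on A not vanishing at z₁
  obtain ⟨I, hI⟩ := exists_ideal_chart i j
  obtain ⟨q, hqI, hq⟩ : ∃ q ∈ I, g z₁ q ≠ 0 := by
    by_contra hcon
    push Not at hcon
    apply hout
    rw [hfg z₁ hz₁]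
    exact (hI ℂ (g z₁)).2 hcon
  -- the quotient a₁ / s₁ representing b
  obtain ⟨a₁, s₁, hs₁, hfrac⟩ := exists_frac j j' (g z₁) (g' z₁)
    (by rw [← hfg z₁ hz₁, ← hfg' z₁ hz₁]) b
  have hid : ∀ z ∈ Ω, g' z b * g z s₁ = g z a₁ := by
    have h1 : ∀ z ∈ Ω, g z s₁ ≠ 0 → g' z b * g z s₁ = g z a₁ := by
      intro z hz hs
      obtain ⟨P', hP', hPb⟩ := hfrac (g z) hs
      have h2 : P' = g' z := by
        apply Spec_map_comp_inj j'
        rw [hP', ← hfg z hz, hfg' z hz]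
      rw [← h2]; exact hPb
    have h2 : ∀ z ∈ Ω, g z s₁ * (g' z b * g z s₁ - g z a₁) = 0 := by
      intro z hz
      by_cases hs : g z s₁ = 0
      · rw [hs, zero_mul]
      · rw [h1 z hz hs, sub_self, mul_zero]
    have h3 := AnalyticOnNhd.eq_zero_or_eq_zero_of_mul_eq_zero
      ((hg s₁).analyticOnNhd hΩ)
      ((((hg'hol b).mul (hg s₁)).sub (hg a₁)).analyticOnNhd hΩ) h2 hc
    rcases h3 with h3 | h3
    · exact absurd (h3 z₁ hz₁) hs₁
    · intro z hz
      exact sub_eq_zero.1 (h3 z hz)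
  -- normal forms
  have hnf : ∀ a : A, ∃ (n : ℕ) (q : ℂ → ℂ) (p : ℕ → ℂ → ℂ), q ∈ D ∧ (∀ k, p k ∈ D) ∧
      (∃ z ∈ Ω, q z ≠ 0) ∧ ∀ z ∈ Ω, q z * iteratedDeriv (n + 1) (fun w => g w a) z =
        ∑ k ∈ Finset.range (n + 1), p k z * iteratedDeriv k (fun w => g w a) z := fun a =>
    linODE_normal hΩ hc hD (hg a) (hlin a).2
  choose n qq p hqq hp hqne hode using hnf
  obtain ⟨z₀, hz₀, hz₀'⟩ := exists_common_point hΩ hc ⟨z₁, hz₁⟩ G qq
    (fun a _ => ⟨hD.holo _ (hqq a), hqne a⟩)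
  set K' : Set (PowerSeries ℂ) :=
    {s : PowerSeries ℂ | algebraMap (PowerSeries ℂ) LL s ∈ KD hΩ hD hz₀} with hK'
  obtain ⟨S⟩ := linSys_finset K' (by
      show algebraMap (PowerSeries ℂ) LL 0 ∈ KD hΩ hD hz₀
      rw [map_zero]; exact zero_mem _) G (fun a => taylor z₀ (fun w => g w a))
    (fun a ha => linSys_of_ode hΩ hD hz₀ (hg a) (n a) (qq a) (p a) (hqq a) (hp a) (hz₀' a ha)
      (hode a))
  let _ := S.fin
  let _ := S.dec
  let M : S.ι → S.ι → KD hΩ hD hz₀ := fun i j => ⟨algebraMap (PowerSeries ℂ) LL (S.M i j), S.hM i j⟩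
  let Φ : S.ι → S.ι → LL := fun i j => algebraMap (PowerSeries ℂ) LL (fund S.M i j)
  let φ : A →+* LL := (algebraMap (PowerSeries ℂ) LL).comp (taylorHom g hΩ hz₀ hg)
  have hφa : ∀ a, φ a = algebraMap (PowerSeries ℂ) LL (taylor z₀ (fun w => g w a)) := fun a => rfl
  have hφ0 : ∀ a, (∃ z ∈ Ω, g z a ≠ 0) → φ a ≠ 0 := by
    rintro a ⟨z, hz, hne⟩ h0
    rw [hφa] at h0
    have h1 : taylor z₀ (fun w => g w a) = 0 :=
      IsFractionRing.injective (PowerSeries ℂ) LL (by rw [h0, map_zero])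
    exact hne (eqOn_zero_of_taylor hΩ hc hz₀ (hg a) h1 z hz)
  have hφB : ∀ b : 𝓞 F₀, φ (algebraMap (𝓞 F₀) A b) = algebraMap ℂ LL (σ b) := by
    intro b
    have h1 : (fun w => g w (algebraMap (𝓞 F₀) A b)) =ᶠ[𝓝 z₀] fun _ => σ b := by
      filter_upwards [hΩ.mem_nhds hz₀] with w hw using hgα w hw b
    rw [hφa, taylor_congr h1, taylor_const]
    rfl
  have hmemC : ∀ c : ℂ, algebraMap ℂ LL c ∈ solAlg (KD hΩ hD hz₀) Φ := fun c =>
    algebraMap_C_mem (K := KD hΩ hD hz₀) Φ c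
  have hφ : ∀ a, φ a ∈ solAlg (KD hΩ hD hz₀) Φ := by
    intro a
    have ha : a ∈ Algebra.adjoin (𝓞 F₀) (G : Set A) := by rw [hG]; trivial
    induction ha using Algebra.adjoin_induction with
    | mem x hx =>
      obtain ⟨i, hi⟩ := S.hT _ ⟨x, hx, rfl⟩
      have hi' : S.y i = taylor z₀ (fun w => g w x) := hi
      rw [hφa, ← hi', eq_fund_mul S.M S.y S.hy i, map_sum]
      refine Subalgebra.sum_mem _ fun j _ => ?_
      rw [map_mul]
      exact Subalgebra.mul_mem _ (mem_solAlg Φ i j) (hmemC _)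
    | algebraMap b => rw [hφB]; exact hmemC _
    | add x y _ _ hx hy => rw [map_add]; exact Subalgebra.add_mem _ hx hy
    | mul x y _ _ hx hy => rw [map_mul]; exact Subalgebra.mul_mem _ hx hy
  have hquot : φ a₁ / φ s₁ = algebraMap (PowerSeries ℂ) LL (taylor z₀ (fun w => g' w b)) := by
    rw [div_eq_iff (hφ0 s₁ ⟨z₁, hz₁, hs₁⟩), hφa, hφa, ← map_mul]
    congr 1
    rw [← taylor_mul (h₁ := fun w => g' w b) (h₂ := fun w => g w s₁) hΩ hz₀ (hg'hol b) (hg s₁)]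
    apply taylor_congr
    filter_upwards [hΩ.mem_nhds hz₀] with w hw using (hid w hw).symm
  obtain ⟨ψ, hψ1, ⟨m', n', hmn⟩, hψ2⟩ := exists_laurent_core_frac (C := ℂ) (K := KD hΩ hD hz₀)
    (L := LL) dL dL_const (fun k => ⟨⟨_, KD_stable hΩ hD hz₀ _ k.2⟩, rfl⟩) Φ M (by
      intro i j
      show dL (algebraMap (PowerSeries ℂ) LL (fund S.M i j)) = _
      rw [dL_algebraMap, deriv_fund, map_sum]
      refine Finset.sum_congr rfl fun k _ => ?_
      rw [map_mul]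
      rfl) (by
      have h1 : Matrix.of Φ = (algebraMap (PowerSeries ℂ) LL).mapMatrix
        (Matrix.of (fund S.M)) := rfl
      rw [h1, ← RingHom.map_det]
      exact (isUnit_det_fund S.M).map _) (B := 𝓞 F₀) (A := A) φ hφ
    (fun b => ⟨σ b, (hφB b).symm⟩) a₁ s₁ (hφ0 s₁ ⟨z₁, hz₁, hs₁⟩) (by
      rw [hquot]
      exact transcendental_of_not_algOver hΩ hc hD hz₀ (hg'hol b) hb)
  obtain ⟨ψ', hψ'1, hmn', hψ'q⟩ := exists_complex_laurent (B := 𝓞 F₀)
    (σ.comp (algebraMap (𝓞 F₀) F₀)) ψ (by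
      intro b
      rw [hψ1, hφB]
      rfl) a₁ s₁ m' n' hmn q (hψ2 q (hφ0 q ⟨z₁, hz₁, hq⟩))
  -- the morphism from the multiplicative group
  let c : Gm ⟶ V := Spec.map (CommRingCat.ofHom ψ') ≫ j
  have hcpt : ∀ u : ℂˣ, GmPt u ≫ c = Spec.map (CommRingCat.ofHom ((evL u).comp ψ')) ≫ j := by
    intro u
    show Spec.map _ ≫ Spec.map _ ≫ j = _
    rw [← Category.assoc, ← Spec.map_comp, ← CommRingCat.ofHom_comp]
  have hcstr : c ≫ π = GmStr ≫ specσ σ := by
    show (Spec.map _ ≫ j) ≫ π = Spec.map _ ≫ Spec.map _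
    rw [Category.assoc, hα, ← Spec.map_comp, ← Spec.map_comp, ← CommRingCat.ofHom_comp,
      ← CommRingCat.ofHom_comp]
    congr 2
    exact RingHom.ext fun x => hψ'1 x
  obtain ⟨u, hu, -⟩ := exists_unit_ne hψ'q hψ'q
  obtain ⟨v, w, hv, hw, hvw⟩ := exists_units_ne hmn'
  have hmem : GmPt u ≫ c ∈ gmPoints σ π := by
    refine ⟨c, hcstr, ⟨u, rfl⟩, v, w, fun heq => hvw ?_⟩
    rw [hcpt, hcpt] at heq
    obtain ⟨P1, hP1, hPb1⟩ := hfrac ((evL v).comp ψ') hv
    obtain ⟨P2, hP2, hPb2⟩ := hfrac ((evL w).comp ψ') hw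
    have h2 : P1 = P2 := by
      apply Spec_map_comp_inj j'
      rw [hP1, hP2, heq]
    rw [h2] at hPb1
    rw [RingHom.comp_apply, RingHom.comp_apply] at hPb1 hPb2
    rw [← hPb1, ← hPb2]
    ring
  obtain ⟨p', hp'⟩ := hGm _ hmem
  rw [hcpt] at hp'
  exact hu ((hI ℂ _).1 ⟨p', hp'⟩ q hqI)

end Pool.Agent.Work.MP_e97a4d_nt
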