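import Mathlib
import Pool.Agent.Work.MP_e97a4d_nt.LwDefs
import Pool.Agent.Work.MP_e97a4d_nt.ExpMain

/-!
Exponential polynomial curves are linear.
-/

set_option autoImplicit false
set_option linter.unusedSectionVars false

noncomputable section

namespace Pool.Agent.Work.MP_e97a4d_nt

open scoped BigOperators Topology
open Finset AlgebraicGeometry CategoryTheory NumberField

/-- the constants as a differential ring -/
theorem isDiffRing_bot (Ω : Set ℂ) : IsDiffRing Ω (⊥ : Subalgebra ℂ (ℂ → ℂ)) where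
  holo := by
    intro h hh
    obtain ⟨c, rfl⟩ := Algebra.mem_bot.1 hh
    exact differentiableOn_const c
  deriv_mem := by
    intro h hh
    obtain ⟨c, rfl⟩ := Algebra.mem_bot.1 hh
    have h1 : deriv (algebraMap ℂ (ℂ → ℂ) c) = 0 := by
      funext z
      exact deriv_const z c
    rw [h1]
    exact Subalgebra.zero_mem _

theorem expPoly_finite {h : ℂ → ℂ} (hh : h ∈ expPoly) :
    ∃ W : Submodule ℂ (ℂ → ℂ), FiniteDimensional ℂ W ∧ h ∈ W ∧
      ∀ w ∈ W, Differentiable ℂ w ∧ deriv w ∈ W := by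
  -- a finite spanning set is enough
  have key : ∀ T : Set (ℂ → ℂ), T.Finite →
      (∀ t ∈ T, Differentiable ℂ t ∧ deriv t ∈ Submodule.span ℂ T) →
      ∀ w ∈ Submodule.span ℂ T, Differentiable ℂ w ∧ deriv w ∈ Submodule.span ℂ T := by
    intro T _ hT w hw
    induction hw using Submodule.span_induction with
    | mem x hx => exact hT x hx
    | zero =>
      refine ⟨differentiable_const 0, ?_⟩
      have h1 : deriv (0 : ℂ → ℂ) = 0 := by
        funext z
        exact deriv_const z 0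
      rw [h1]; exact Submodule.zero_mem _
    | add x y _ _ hx hy =>
      refine ⟨hx.1.add hy.1, ?_⟩
      have h1 : deriv (x + y) = deriv x + deriv y := by
        funext z
        exact deriv_add (hx.1 z) (hy.1 z)
      rw [h1]; exact Submodule.add_mem _ hx.2 hy.2
    | smul c x _ hx =>
      refine ⟨hx.1.const_smul c, ?_⟩
      have h1 : deriv (c • x) = c • deriv x := by
        funext z
        exact deriv_const_smul c (hx.1 z)
      rw [h1]; exact Submodule.smul_mem _ _ hx.2
  induction hh using Algebra.adjoin_induction with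
  | mem x hx =>
    rcases hx with rfl | ⟨α, rfl⟩
    · refine ⟨Submodule.span ℂ {(fun z => z), fun _ => (1 : ℂ)},
        FiniteDimensional.span_of_finite ℂ (Set.toFinite _),
        Submodule.subset_span (Or.inl rfl), key _ (Set.toFinite _) ?_⟩
      rintro t (rfl | rfl)
      · refine ⟨differentiable_id, ?_⟩
        have h1 : deriv (fun z : ℂ => z) = fun _ => (1 : ℂ) := by
          funext z; simp
        rw [h1]
        exact Submodule.subset_span (Or.inr rfl)
      · refine ⟨differentiable_const 1, ?_⟩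
        have h1 : deriv (fun _ : ℂ => (1 : ℂ)) = 0 := by
          funext z; simp
        rw [h1]; exact Submodule.zero_mem _
    · refine ⟨Submodule.span ℂ {(fun z => Complex.exp (α * z))},
        FiniteDimensional.span_of_finite ℂ (Set.toFinite _),
        Submodule.subset_span rfl, key _ (Set.toFinite _) ?_⟩
      rintro t rfl
      refine ⟨by fun_prop, ?_⟩
      have h1 : deriv (fun z : ℂ => Complex.exp (α * z)) = α • fun z => Complex.exp (α * z) := by
        funext z
        have h2 : HasDerivAt (fun z : ℂ => Complex.exp (α * z)) (Complex.exp (α * z) * (α * 1)) z :=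
          ((hasDerivAt_id z).const_mul α).cexp
        rw [h2.deriv]
        simp [mul_comm]
      rw [h1]
      exact Submodule.smul_mem _ _ (Submodule.subset_span rfl)
  | algebraMap r =>
    refine ⟨Submodule.span ℂ {algebraMap ℂ (ℂ → ℂ) r},
        FiniteDimensional.span_of_finite ℂ (Set.toFinite _),
        Submodule.subset_span rfl, key _ (Set.toFinite _) ?_⟩
    rintro t rfl
    refine ⟨differentiable_const r, ?_⟩
    have h1 : deriv (algebraMap ℂ (ℂ → ℂ) r) = 0 := by
      funext z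
      exact deriv_const z r
    rw [h1]; exact Submodule.zero_mem _
  | add x y _ _ hx hy =>
    obtain ⟨W₁, h₁, hx₁, hW₁⟩ := hx
    obtain ⟨W₂, h₂, hy₂, hW₂⟩ := hy
    refine ⟨W₁ ⊔ W₂, inferInstance, Submodule.add_mem_sup hx₁ hy₂, ?_⟩
    intro w hw
    obtain ⟨u, hu, v, hv, rfl⟩ := Submodule.mem_sup.1 hw
    refine ⟨(hW₁ u hu).1.add (hW₂ v hv).1, ?_⟩
    have h1 : deriv (u + v) = deriv u + deriv v := by
      funext z
      exact deriv_add ((hW₁ u hu).1 z) ((hW₂ v hv).1 z)
    rw [h1]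
    exact Submodule.add_mem_sup (hW₁ u hu).2 (hW₂ v hv).2
  | mul x y _ _ hx hy =>
    obtain ⟨W₁, h₁, hx₁, hW₁⟩ := hx
    obtain ⟨W₂, h₂, hy₂, hW₂⟩ := hy
    refine ⟨W₁ * W₂, Module.Finite.iff_fg.2 (Submodule.FG.mul (Module.Finite.iff_fg.1 h₁)
        (Module.Finite.iff_fg.1 h₂)), Submodule.mul_mem_mul hx₁ hy₂, ?_⟩
    intro w hw
    induction hw using Submodule.mul_induction_on' with
    | mem_mul_mem u hu v hv =>
      refine ⟨(hW₁ u hu).1.mul (hW₂ v hv).1, ?_⟩
      have h1 : deriv (u * v) = deriv u * v + u * deriv v := by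
        funext z
        exact deriv_mul ((hW₁ u hu).1 z) ((hW₂ v hv).1 z)
      rw [h1]
      exact Submodule.add_mem _ (Submodule.mul_mem_mul (hW₁ u hu).2 hv)
        (Submodule.mul_mem_mul hu (hW₂ v hv).2)
    | add u _ v _ hu hv =>
      refine ⟨hu.1.add hv.1, ?_⟩
      have h1 : deriv (u + v) = deriv u + deriv v := by
        funext z
        exact deriv_add (hu.1 z) (hv.1 z)
      rw [h1]
      exact Submodule.add_mem _ hu.2 hv.2

theorem linODE_of_expPoly (Ω : Set ℂ) (hne : Ω.Nonempty) {h : ℂ → ℂ} (hh : h ∈ expPoly) :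
    LinODE Ω (⊥ : Subalgebra ℂ (ℂ → ℂ)) h := by
  classical
  obtain ⟨W, hfin, hW, hst⟩ := expPoly_finite hh
  have hmem : ∀ k, iteratedDeriv k h ∈ W := by
    intro k
    induction k with
    | zero => simpa using hW
    | succ k ih => rw [iteratedDeriv_succ]; exact (hst _ ih).2
  let n := Module.finrank ℂ W
  let v : Fin (n + 1) → W := fun k => ⟨iteratedDeriv k h, hmem k⟩
  have hdep : ¬ LinearIndependent ℂ v := by
    intro hli
    have := hli.fintype_card_le_finrank
    rw [Fintype.card_fin] at this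
    omega
  obtain ⟨c, hc, k₀, hk₀⟩ := Fintype.not_linearIndependent_iff.1 hdep
  refine ⟨n, fun k => algebraMap ℂ (ℂ → ℂ) (if hk : k < n + 1 then c ⟨k, hk⟩ else 0), ?_, ?_, ?_⟩
  · intro k
    exact Subalgebra.algebraMap_mem _ _
  · obtain ⟨z, hz⟩ := hne
    refine ⟨k₀, Nat.lt_succ_iff.1 k₀.2, z, hz, ?_⟩
    show (if hk : (k₀ : ℕ) < n + 1 then c ⟨k₀, hk⟩ else 0) ≠ 0
    rw [dif_pos k₀.2]
    exact hk₀
  · intro z _
    rw [Finset.sum_range]
    have h1 := congrArg (fun w : W => (w : ℂ → ℂ) z) hc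
    simp only [v, AddSubmonoidClass.coe_finsetSum, Finset.sum_apply, SetLike.val_smul,
      Pi.smul_apply, smul_eq_mul, ZeroMemClass.coe_zero, Pi.zero_apply] at h1
    refine Eq.trans ?_ h1
    refine Finset.sum_congr rfl fun k _ => ?_
    have h2 : (algebraMap ℂ (ℂ → ℂ) (if hk : (k : ℕ) < n + 1 then c ⟨k, hk⟩ else 0)) z = c k := by
      show (if hk : (k : ℕ) < n + 1 then c ⟨k, hk⟩ else 0) = c k
      rw [dif_pos k.2]
    show (algebraMap ℂ (ℂ → ℂ) (if hk : (k : ℕ) < n + 1 then c ⟨k, hk⟩ else 0)) z * _ = _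
    rw [h2]

theorem not_algOver_bot {Ω : Set ℂ} (hc : IsPreconnected Ω) {h : ℂ → ℂ}
    (hh : ContinuousOn h Ω) (hn : ∃ z ∈ Ω, ∃ w ∈ Ω, h z ≠ h w) :
    ¬ AlgOver Ω (⊥ : Subalgebra ℂ (ℂ → ℂ)) h := by
  classical
  rintro ⟨n, p, hp, ⟨k, hk, z₁, hz₁, hpk⟩, heq⟩
  have hp' : ∀ k, ∃ c : ℂ, ∀ z, p k z = c := by
    intro k
    obtain ⟨c, hc⟩ := Algebra.mem_bot.1 (hp k)
    exact ⟨c, fun z => by rw [← hc]; rfl⟩
  choose c hc' using hp'
  let P : Polynomial ℂ := ∑ k ∈ Finset.range (n + 1), Polynomial.C (c k) * Polynomial.X ^ k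
  have hcoef : P.coeff k = c k := by
    simp only [P, Polynomial.finsetSum_coeff, Polynomial.coeff_C_mul, Polynomial.coeff_X_pow]
    rw [Finset.sum_eq_single k]
    · simp
    · intro b _ hb
      rw [if_neg (Ne.symm hb), mul_zero]
    · intro h
      exact absurd (Finset.mem_range.2 (by omega)) h
  have hP : P ≠ 0 := by
    intro h0
    apply hpk
    rw [hc', ← hcoef, h0, Polynomial.coeff_zero]
  have hroot : h '' Ω ⊆ (P.roots.toFinset : Set ℂ) := by
    rintro _ ⟨z, hz, rfl⟩
    simp only [Finset.mem_coe, Multiset.mem_toFinset, Polynomial.mem_roots hP, Polynomial.IsRoot]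
    have h1 := heq z hz
    simp only [P, Polynomial.eval_finsetSum, Polynomial.eval_mul, Polynomial.eval_C,
      Polynomial.eval_pow, Polynomial.eval_X]
    rw [← h1]
    exact Finset.sum_congr rfl fun k _ => by rw [hc']
  obtain ⟨z, hz, w, hw, hne⟩ := hn
  have hpre : IsPreconnected (h '' Ω) := hc.image h hh
  have hinf := hpre.infinite_of_nontrivial ⟨h z, ⟨z, hz, rfl⟩, h w, ⟨w, hw, rfl⟩, hne⟩
  exact hinf ((Finset.finite_toSet _).subset hroot)

/-- A non-constant holomorphic map has a chart on a ball in which some regular function pulls back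
to a non-constant function. -/
theorem exists_nonconst_chart {F₀ : Type} [Field F₀] (σ : F₀ →+* ℂ) {V : Scheme.{0}}
    (π : V ⟶ Spec (CommRingCat.of (𝓞 F₀))) (f : ℂ → (Spec (CommRingCat.of ℂ) ⟶ V))
    (hf : IsEntireCurve σ π f) :
    ∃ (z₀ : ℂ) (r : ℝ) (A' : CommRingCat.{0}) (j' : Spec A' ⟶ V) (g' : ℂ → (A' →+* ℂ)) (b : A'),
      0 < r ∧ IsOpenImmersion j' ∧
      (∀ z ∈ Metric.ball z₀ r, f z = Spec.map (CommRingCat.ofHom (g' z)) ≫ j') ∧
      (∀ a : A', DifferentiableOn ℂ (fun z => g' z a) (Metric.ball z₀ r)) ∧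
      ∃ z ∈ Metric.ball z₀ r, ∃ w ∈ Metric.ball z₀ r, g' z b ≠ g' w b := by
  by_contra hcon
  push Not at hcon
  have hloc : IsLocallyConstant f := by
    rw [IsLocallyConstant.iff_eventually_eq]
    intro z
    obtain ⟨A', j', g', D, hj', hD, hzD, hfg, hhol⟩ := hf.1.holo z
    obtain ⟨r, hr, hball⟩ := Metric.isOpen_iff.1 hD z hzD
    filter_upwards [Metric.ball_mem_nhds z hr] with w hw
    rw [hfg w (hball hw), hfg z hzD]
    have h1 : g' w = g' z := by
      apply RingHom.ext
      intro b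
      exact hcon z r A' j' g' b hr hj' (fun u hu => hfg u (hball hu))
        (fun a => (hhol a).mono hball) w hw z (Metric.mem_ball_self hr)
    rw [h1]
  obtain ⟨z, w, hzw⟩ := hf.2
  exact hzw (hloc.apply_eq_of_preconnectedSpace z w)

theorem condIexp_of_condIlin {F₀ : Type} [Field F₀] (σ : F₀ →+* ℂ) {V V' : Scheme.{0}}
    (π : V ⟶ Spec (CommRingCat.of (𝓞 F₀))) (i : V' ⟶ V) (h : CondIlin σ π i) :
    CondIexp σ π i := by
  intro A ψ hψ j hj g hgψ hgexp hnc z
  have hentire : IsEntireCurve σ π (fun z => Spec.map (CommRingCat.ofHom (g z)) ≫ j) := by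
    refine ⟨⟨?_, ?_⟩, hnc⟩
    · intro z
      rw [Category.assoc, hj, ← Spec.map_comp, ← CommRingCat.ofHom_comp, hgψ]
    · intro z
      exact exists_chart_of_comp j g (fun a => differentiable_of_mem_expPoly (hgexp a)) z
  refine h _ hentire ?_ z
  obtain ⟨z₀, r, A', j', g', b, hr, hj', hfg', hhol', z₁, hz₁, w₁, hw₁, hne⟩ :=
    exists_nonconst_chart σ π _ hentire
  refine ⟨Metric.ball z₀ r, ⊥, A, ψ, j, g, A', j', g', b, Metric.isOpen_ball,
    ⟨z₀, Metric.mem_ball_self hr⟩, (convex_ball z₀ r).isPreconnected, isDiffRing_bot _, hψ, hj,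
    fun _ _ => rfl, fun a => ⟨(differentiable_of_mem_expPoly (hgexp a)).differentiableOn,
      linODE_of_expPoly _ ⟨z₀, Metric.mem_ball_self hr⟩ (hgexp a)⟩, hj', hfg', hhol', ?_⟩
  exact not_algOver_bot (convex_ball z₀ r).isPreconnected (hhol' b).continuousOn
    ⟨z₁, hz₁, w₁, hw₁, hne⟩

end Pool.Agent.Work.MP_e97a4d_nt
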