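import Mathlib

/-!
Module ChDer (M, about 100 lines): existence of derivations of a field extension `L / K` of
characteristic zero with prescribed nonzero value at a transcendental element.

Proof of `exists_derivation`. Extend `a` to a transcendence basis `s` of `L / K`, let
`A = K[s]` (`Algebra.adjoin K s`, a polynomial ring). The partial derivative with respect to `a` is a
derivation of `A`. `L` is formally etale over `A` (localization followed by a separable algebraic
extension), so `L ⊗[A] Ω[A⁄K] ≃ Ω[L⁄K]` and the derivation extends to `L`.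

`exists_der` is a reformulation for subfields `K ≤ L` of a field `F`: `φ = δ ∘ p` where
`p : F → L` is an `L`-linear projection (a retraction of the inclusion of `L`-vector spaces).
-/

set_option autoImplicit false

noncomputable section

namespace Pool.Agent.Work.MP_e97a4d_nt.Chain

open scoped IntermediateField.algebraAdjoinAdjoin in
private theorem formallyEtale_adjoin {K L : Type} [Field K] [Field L] [CharZero K] [Algebra K L]
    (s : Set L) (hs : IsTranscendenceBasis K ((↑) : s → L)) :
    Algebra.FormallyEtale (Algebra.adjoin K (Set.range ((↑) : s → L))) L := by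
  have h1 : Algebra.FormallyEtale (Algebra.adjoin K (Set.range ((↑) : s → L)))
      (IntermediateField.adjoin K (Set.range ((↑) : s → L))) :=
    .of_isLocalization (nonZeroDivisors _)
  have h2 : Algebra.IsAlgebraic (IntermediateField.adjoin K (Set.range ((↑) : s → L))) L :=
    hs.isAlgebraic_field
  have h3 : Algebra.FormallyEtale (IntermediateField.adjoin K (Set.range ((↑) : s → L))) L :=
    Algebra.FormallyEtale.of_isSeparable _ L
  exact .comp _ (IntermediateField.adjoin K (Set.range ((↑) : s → L))) _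

open TensorProduct in
theorem exists_derivation {K L : Type} [Field K] [Field L] [CharZero K] [Algebra K L] (a : L)
    (ha : Transcendental K a) : ∃ δ : Derivation K L L, δ a = 1 := by
  classical
  have ha' : AlgebraicIndepOn K id ({a} : Set L) := by
    have := (algebraicIndependent_singleton_iff (R := K) (x := fun i : ({a} : Set L) => (i : L))
      ⟨a, rfl⟩).2 ha
    exact this
  obtain ⟨s, hs, hb⟩ := exists_isTranscendenceBasis_superset ha'
  have has : a ∈ s := hs rfl
  have hFE := formallyEtale_adjoin s hb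
  set A := Algebra.adjoin K (Set.range ((↑) : s → L)) with hA
  let e : MvPolynomial s K ≃ₐ[K] A := hb.1.aevalEquiv
  let d0 : Derivation K A A := Derivation.mk'
    (e.toLinearMap ∘ₗ (MvPolynomial.pderiv (R := K) (⟨a, has⟩ : s)).toLinearMap ∘ₗ
      e.symm.toLinearMap) (by
        intro x y
        simp [Derivation.leibniz])
  let d1 : Derivation K A L := (Algebra.linearMap A L).compDer d0
  let ψ : L ⊗[A] Ω[A⁄K] →ₗ[L] L := LinearMap.liftBaseChange L d1.liftKaehlerDifferential
  let E := KaehlerDifferential.tensorKaehlerEquivOfFormallyEtale K A L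
  let δ : Derivation K L L := (ψ ∘ₗ E.symm.toLinearMap).compDer (KaehlerDifferential.D K L)
  refine ⟨δ, ?_⟩
  have key : ∀ y : A, δ (algebraMap A L y) = algebraMap A L (d0 y) := by
    intro y
    have h1 : δ (algebraMap A L y) = ψ (E.symm (KaehlerDifferential.D K L (algebraMap A L y))) := rfl
    rw [h1, KaehlerDifferential.tensorKaehlerEquivOfFormallyEtale_symm_D_algebraMap]
    simp [ψ, d1]
  have h2 : algebraMap A L (e (MvPolynomial.X ⟨a, has⟩)) = a := by
    have h := hb.1.algebraMap_aevalEquiv (MvPolynomial.X ⟨a, has⟩)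
    rw [MvPolynomial.aeval_X] at h
    exact h
  have h3 := key (e (MvPolynomial.X ⟨a, has⟩))
  rw [h2] at h3
  have h4 : d0 (e (MvPolynomial.X ⟨a, has⟩)) = 1 := by
    change e (MvPolynomial.pderiv (⟨a, has⟩ : s) (e.symm (e (MvPolynomial.X ⟨a, has⟩)))) = 1
    rw [AlgEquiv.symm_apply_apply, MvPolynomial.pderiv_X_self, map_one]
  rw [h3, h4, map_one]

theorem exists_der {F : Type} [Field F] [CharZero F] (K L : Subfield F) (hKL : K ≤ L) (b : F)
    (hb : b ∈ L) (hb' : ∀ p : Polynomial F, p ≠ 0 → (∀ i, p.coeff i ∈ K) → p.eval b ≠ 0) :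
    ∃ φ : F →+ F, (∀ a ∈ K, ∀ c, φ (a * c) = a * φ c) ∧
      (∀ a ∈ L, ∀ c ∈ L, φ (a * c) = a * φ c + c * φ a) ∧ (∀ a ∈ L, φ a ∈ L) ∧ φ b = 1 := by
  let _ : Algebra K L := (Subfield.inclusion hKL).toAlgebra
  have htr : Transcendental K (⟨b, hb⟩ : L) := by
    intro ⟨p, hp, hp0⟩
    have hinj : Function.Injective (K.subtype) := K.subtype.injective
    refine hb' (p.map K.subtype) ?_ ?_ ?_
    · exact (Polynomial.map_ne_zero_iff hinj).2 hp
    · intro i
      rw [Polynomial.coeff_map]
      exact (p.coeff i).2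
    · rw [Polynomial.eval_map]
      have h := congrArg L.subtype hp0
      rw [Polynomial.aeval_def, Polynomial.hom_eval₂, map_zero] at h
      exact h
  obtain ⟨δ, hδ⟩ := exists_derivation (K := K) (L := L) ⟨b, hb⟩ htr
  obtain ⟨p, hp⟩ := (Algebra.linearMap L F).exists_leftInverse_of_injective
    (LinearMap.ker_eq_bot.2 (by
      intro x y hxy
      exact Subtype.ext hxy))
  have hp' : ∀ x : L, p (x : F) = x := fun x => LinearMap.congr_fun hp x
  refine ⟨L.subtype.toAddMonoidHom.comp (δ.toLinearMap.toAddMonoidHom.comp p.toAddMonoidHom),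
    ?_, ?_, ?_, ?_⟩
  · intro a ha c
    have h1 : p (a * c) = (⟨a, hKL ha⟩ : L) • p c := by
      rw [← map_smul]
      rfl
    have h2 : (⟨a, hKL ha⟩ : L) • p c = (⟨a, ha⟩ : K) • p c := rfl
    change ((δ (p (a * c)) : L) : F) = a * ((δ (p c) : L) : F)
    rw [h1, h2, Derivation.map_smul]
    rfl
  · intro a ha c hc
    have h1 : p (a * c) = (⟨a, ha⟩ : L) * ⟨c, hc⟩ := hp' ((⟨a, ha⟩ : L) * ⟨c, hc⟩)
    have h2 : p a = (⟨a, ha⟩ : L) := hp' ⟨a, ha⟩
    have h3 : p c = (⟨c, hc⟩ : L) := hp' ⟨c, hc⟩
    change ((δ (p (a * c)) : L) : F) = a * ((δ (p c) : L) : F) + c * ((δ (p a) : L) : F)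
    rw [h1, h2, h3, δ.leibniz]
    rfl
  · intro a _
    exact (δ (p a)).2
  · have h2 : p b = (⟨b, hb⟩ : L) := hp' ⟨b, hb⟩
    change ((δ (p b) : L) : F) = 1
    rw [h2, hδ]
    rfl

end Pool.Agent.Work.MP_e97a4d_nt.Chain
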