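import Pool.Agent.Work.MP_e97a4d_nt.ChJ

/-!
Module ChLin (M, about 180 lines): linear algebra.

`F` is a field, `K ≤ L` subfields, `x ∈ F^k`.

* `lin_indep`: if `JK K D x = JK L D x` with `D ≥ 1`, `S` a set of indices such that the `x i`,
  `i ∈ S`, are linearly independent over `K`, then they are linearly independent over `L`.
  Proof: let `∑_{i ∈ S} λ i * x i = 0`, `λ i ∈ L`. The linear form `ℓ = ∑ λ i X i` is in
  `IK L D x`, so in `JK K D x`. Let `ψ : F →+ F` be `K`-linear with values in `K` (a `K`-linear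
  functional). By `JK_cw`, `cw ψ ℓ ∈ JK K D x`, so `0 = eval x (cw ψ ℓ) = ∑ ψ(λ i) * x i` and hence
  `ψ (λ i) = 0` for all `i ∈ S`. As functionals separate points, `λ i = 0`.
* `exists_gl`: two vectors `x`, `x'` in `F^k` whose entries have the same `K`-span `W` differ by a
  matrix in `GL_k(K)`. Proof: `λ ↦ ∑ λ i x i` and `λ ↦ ∑ λ i x' i` are two surjections `K^k → W`,
  so their kernels have the same dimension, so there is a linear automorphism of `K^k` carrying one
  to the other (choose sections / complements: `K^k ≃ ker × W` for both).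
* `lin_case`: suppose in addition `g ∈ GL_k(L)` and every `φ` as in `exists_der` satisfies
  `φ(g) x = 0`. Then `g x ∈ GL_k(K) x`.
  Proof: choose `S` such that the `x i`, `i ∈ S`, are a `K`-basis of the `K`-span `W` of the entries
  of `x`; `x i = ∑_{s ∈ S} b i s * x s`, `b i s ∈ K`. Put `p i s = ∑_j g i j * b j s ∈ L`, so
  `(g x) i = ∑_s p i s * x s`. For each `φ` (additive, `K`-linear, Leibniz on `L`, `φ(L) ⊆ L`):
  `∑_s φ(p i s) * x s = ∑_j φ(g i j) * x j = 0`, so `φ (p i s) = 0` by `lin_indep`; by the
  hypothesis `hcl` (if `b ∈ L \ K` there is `φ` with `φ b ≠ 0`), `p i s ∈ K`. So the `K`-span `W'` of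
  the entries of `g x` is contained in `W`. Equality by dimension: the `L`-spans of `x` and `g x`
  are equal (`g` invertible over `L`), of `L`-dimension `card S` by `lin_indep`, so
  `dim_K W' ≥ card S = dim_K W`. Then `exists_gl`.
-/

set_option autoImplicit false

noncomputable section

namespace Pool.Agent.Work.MP_e97a4d_nt.Chain

open MvPolynomial Module

variable {k : ℕ} {F : Type} [Field F]

theorem lin_indep {K L : Subfield F} (hKL : K ≤ L) {D : ℕ} (hD : 1 ≤ D) (x : Fin k → F)
    (h1 : JK K D x = JK L D x) (S : Finset (Fin k))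
    (hS : ∀ c : Fin k → F, (∀ i, c i ∈ K) → ∑ i ∈ S, c i * x i = 0 → ∀ i ∈ S, c i = 0)
    (c : Fin k → F) (hc : ∀ i, c i ∈ L) (h0 : ∑ i ∈ S, c i * x i = 0) : ∀ i ∈ S, c i = 0 := by
  classical
  have hev : ∀ d : Fin k → F,
      eval x (∑ i ∈ S, C (d i) * MvPolynomial.X i) = ∑ i ∈ S, d i * x i := by
    intro d
    rw [map_sum]
    simp
  have hmem : (∑ i ∈ S, C (c i) * MvPolynomial.X i : MvPolynomial (Fin k) F) ∈ JK K D x := by
    rw [h1]
    refine Submodule.subset_span ⟨?_, ?_, ?_⟩
    · refine (totalDegree_finsetSum _ _).trans (Finset.sup_le fun i _ => ?_)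
      refine (totalDegree_mul _ _).trans ?_
      rw [totalDegree_C, zero_add, totalDegree_X]
      exact hD
    · intro m
      rw [coeff_sum]
      refine L.sum_mem fun i _ => ?_
      rw [coeff_C_mul, coeff_X]
      split_ifs
      · rw [mul_one]
        exact hc i
      · rw [mul_zero]
        exact L.zero_mem
    · rw [hev, h0]
  intro i hi
  by_contra hne
  obtain ⟨ψ, hψ⟩ : ∃ ψ : F →ₗ[K] K, ψ (c i) ≠ 0 := by
    by_contra hcon
    push Not at hcon
    exact hne ((Module.forall_dual_apply_eq_zero_iff K (c i)).mp hcon)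
  let φ : F →+ F := (K.subtype : K →+* F).toAddMonoidHom.comp ψ.toAddMonoidHom
  have hφ' : ∀ b, φ b = ((ψ b : K) : F) := fun b => rfl
  have hφ : ∀ a ∈ K, ∀ b, φ (a * b) = a * φ b := by
    intro a ha b
    have e1 : ψ ((⟨a, ha⟩ : K) • b) = (⟨a, ha⟩ : K) • ψ b := map_smul _ _ _
    have e2 : ((⟨a, ha⟩ : K) • b : F) = a * b := rfl
    rw [e2] at e1
    rw [hφ', e1, hφ']
    rfl
  have h2 := eval_of_mem_JK (JK_cw φ hφ hmem)
  have h3 : cw φ (∑ i ∈ S, C (c i) * MvPolynomial.X i) =
      ∑ i ∈ S, C (φ (c i)) * MvPolynomial.X i := by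
    ext m
    rw [coeff_cw, coeff_sum, map_sum, coeff_sum]
    refine Finset.sum_congr rfl fun j _ => ?_
    rw [coeff_C_mul, coeff_C_mul, coeff_X]
    split_ifs <;> simp
  rw [h3, hev] at h2
  have h4 := hS (fun i => φ (c i)) (fun i => (ψ (c i)).2) h2 i hi
  apply hψ
  have h5 : ((ψ (c i) : K) : F) = 0 := h4
  exact_mod_cast h5

/-- two surjections differ by an automorphism -/
private theorem exists_aut {K V W : Type} [Field K] [AddCommGroup V] [Module K V]
    [Module.Finite K V] [AddCommGroup W] [Module K W] (p p' : V →ₗ[K] W)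
    (hp : Function.Surjective p) (hp' : Function.Surjective p') :
    ∃ T : V ≃ₗ[K] V, ∀ v, p (T v) = p' v := by
  obtain ⟨s, hs⟩ := p.exists_rightInverse_of_surjective (LinearMap.range_eq_top.mpr hp)
  obtain ⟨s', hs'⟩ := p'.exists_rightInverse_of_surjective (LinearMap.range_eq_top.mpr hp')
  have hs1 : ∀ w, p (s w) = w := fun w => LinearMap.congr_fun hs w
  have hs1' : ∀ w, p' (s' w) = w := fun w => LinearMap.congr_fun hs' w
  have hfin : finrank K (LinearMap.ker p') = finrank K (LinearMap.ker p) := by
    have e1 := LinearMap.finrank_range_add_finrank_ker p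
    have e2 := LinearMap.finrank_range_add_finrank_ker p'
    rw [LinearMap.range_eq_top.mpr hp] at e1
    rw [LinearMap.range_eq_top.mpr hp'] at e2
    omega
  let e : LinearMap.ker p' ≃ₗ[K] LinearMap.ker p := LinearEquiv.ofFinrankEq _ _ hfin
  let q : V →ₗ[K] LinearMap.ker p' :=
    LinearMap.codRestrict (LinearMap.ker p') (LinearMap.id - s'.comp p') (fun v => by
      rw [LinearMap.mem_ker, LinearMap.sub_apply, map_sub, LinearMap.comp_apply, hs1',
        LinearMap.id_apply, sub_self])
  let T : V →ₗ[K] V := s.comp p' + (LinearMap.ker p).subtype.comp (e.toLinearMap.comp q)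
  have hT : ∀ v, T v = s (p' v) + ((e (q v) : LinearMap.ker p) : V) := fun v => rfl
  have hpT : ∀ v, p (T v) = p' v := by
    intro v
    rw [hT, map_add, hs1, LinearMap.mem_ker.mp (e (q v)).2, add_zero]
  have hinj : Function.Injective T := by
    rw [injective_iff_map_eq_zero]
    intro v hv
    have e1 : p' v = 0 := by
      rw [← hpT, hv, map_zero]
    rw [hT, e1, map_zero, zero_add] at hv
    have e2 : e (q v) = 0 := Subtype.ext hv
    have e3 : q v = 0 := by
      have := congrArg e.symm e2
      rwa [LinearEquiv.symm_apply_apply, map_zero] at this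
    have e4 : ((q v : LinearMap.ker p') : V) = v - s' (p' v) := rfl
    rw [e3, e1, map_zero, sub_zero] at e4
    exact e4.symm
  exact ⟨LinearEquiv.ofInjectiveEndo T hinj, fun v => hpT v⟩

theorem exists_gl (K : Subfield F) (x x' : Fin k → F)
    (h : Submodule.span K (Set.range x) = Submodule.span K (Set.range x')) :
    ∃ g : Matrix (Fin k) (Fin k) F, (∀ i j, g i j ∈ K) ∧ IsUnit g.det ∧ x' = g.mulVec x := by
  classical
  let f : (Fin k → K) →ₗ[K] F := Fintype.linearCombination K x
  let f' : (Fin k → K) →ₗ[K] F := Fintype.linearCombination K x'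
  have hf : LinearMap.range f = Submodule.span K (Set.range x) :=
    Fintype.range_linearCombination K x
  have hf' : LinearMap.range f' = Submodule.span K (Set.range x') :=
    Fintype.range_linearCombination K x'
  let p : (Fin k → K) →ₗ[K] Submodule.span K (Set.range x) :=
    f.codRestrict _ (fun v => by
      rw [← hf]
      exact LinearMap.mem_range_self f v)
  let p' : (Fin k → K) →ₗ[K] Submodule.span K (Set.range x) :=
    f'.codRestrict _ (fun v => by
      rw [h, ← hf']
      exact LinearMap.mem_range_self f' v)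
  have hp : Function.Surjective p := by
    rintro ⟨w, hw⟩
    rw [← hf] at hw
    obtain ⟨v, hv⟩ := hw
    exact ⟨v, Subtype.ext hv⟩
  have hp' : Function.Surjective p' := by
    rintro ⟨w, hw⟩
    rw [h, ← hf'] at hw
    obtain ⟨v, hv⟩ := hw
    exact ⟨v, Subtype.ext hv⟩
  obtain ⟨T, hT⟩ := exists_aut p p' hp hp'
  have hT' : ∀ v, f (T v) = f' v := fun v => congrArg Subtype.val (hT v)
  let M : Matrix (Fin k) (Fin k) K := (LinearMap.toMatrix' (T : (Fin k → K) →ₗ[K] _)).transpose
  have hMdet : IsUnit M.det := by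
    rw [Matrix.det_transpose, LinearMap.det_toMatrix']
    exact LinearEquiv.isUnit_det' T
  refine ⟨M.map K.subtype, fun i j => (M i j).2, ?_, ?_⟩
  · have e1 : (M.map K.subtype).det = K.subtype M.det := (RingHom.map_det K.subtype M).symm
    rw [e1]
    exact hMdet.map K.subtype
  · funext i
    have e1 := hT' (Pi.single i 1)
    have e2 : f' (Pi.single i 1) = x' i := by
      change Fintype.linearCombination K x' (Pi.single i 1) = x' i
      rw [Fintype.linearCombination_apply_single, one_smul]
    rw [e2] at e1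
    rw [← e1]
    change Fintype.linearCombination K x (T (Pi.single i 1)) = _
    rw [Fintype.linearCombination_apply]
    rfl

/-- a maximal set of indices with independent entries -/
private theorem exists_basis (K : Subfield F) (x : Fin k → F) :
    ∃ (S : Finset (Fin k)) (b : Fin k → Fin k → F),
      (∀ c : Fin k → F, (∀ i, c i ∈ K) → ∑ i ∈ S, c i * x i = 0 → ∀ i ∈ S, c i = 0) ∧
      (∀ i s, b i s ∈ K) ∧ ∀ i, x i = ∑ s ∈ S, b i s * x s := by
  classical
  let Q : Finset (Fin k) → Prop := fun S =>
    ∀ c : Fin k → F, (∀ i, c i ∈ K) → ∑ i ∈ S, c i * x i = 0 → ∀ i ∈ S, c i = 0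
  have hex : ∃ S ∈ (Finset.univ : Finset (Finset (Fin k))).filter Q,
      ∀ S' ∈ (Finset.univ : Finset (Finset (Fin k))).filter Q, S'.card ≤ S.card := by
    apply Finset.exists_max_image
    refine ⟨∅, ?_⟩
    rw [Finset.mem_filter]
    exact ⟨Finset.mem_univ _, fun c _ _ i hi => absurd hi (Finset.notMem_empty i)⟩
  obtain ⟨S, hS, hmax⟩ := hex
  have hQ : Q S := (Finset.mem_filter.mp hS).2
  have hb : ∀ i, ∃ b : Fin k → F, (∀ s, b s ∈ K) ∧ x i = ∑ s ∈ S, b s * x s := by
    intro i
    by_cases hi : i ∈ S
    · refine ⟨fun s => if s = i then 1 else 0, fun s => ?_, ?_⟩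
      · dsimp only
        split_ifs
        · exact K.one_mem
        · exact K.zero_mem
      · rw [Finset.sum_eq_single i]
        · simp
        · intro s _ hs
          simp [hs]
        · intro h
          exact absurd hi h
    · have hnQ : ¬ Q (insert i S) := by
        intro hQ'
        have h1 := hmax (insert i S) (Finset.mem_filter.mpr ⟨Finset.mem_univ _, hQ'⟩)
        rw [Finset.card_insert_of_notMem hi] at h1
        omega
      have hnQ' : ∃ c : Fin k → F, (∀ i, c i ∈ K) ∧ ∑ i ∈ insert i S, c i * x i = 0 ∧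
          ∃ j ∈ insert i S, c j ≠ 0 := by
        by_contra hcon
        apply hnQ
        intro c hc h0 j hj
        by_contra hne
        exact hcon ⟨c, hc, h0, j, hj, hne⟩
      obtain ⟨c, hc, h0, j, hj, hcj⟩ := hnQ'
      rw [Finset.sum_insert hi] at h0
      have hci : c i ≠ 0 := by
        intro hci
        rw [hci, zero_mul, zero_add] at h0
        have h2 := hQ c hc h0
        rcases Finset.mem_insert.mp hj with h3 | h3
        · rw [h3] at hcj
          exact hcj hci
        · exact hcj (h2 j h3)
      refine ⟨fun s => -((c i)⁻¹ * c s), fun s => K.neg_mem (K.mul_mem (K.inv_mem (hc i)) (hc s)),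
        ?_⟩
      have h2 : ∑ s ∈ S, -((c i)⁻¹ * c s) * x s = -((c i)⁻¹ * ∑ s ∈ S, c s * x s) := by
        rw [Finset.mul_sum, ← Finset.sum_neg_distrib]
        refine Finset.sum_congr rfl fun s _ => ?_
        ring
      rw [h2]
      have h3 : ∑ s ∈ S, c s * x s = -(c i * x i) := by
        linear_combination h0
      rw [h3]
      field_simp
  choose b hb1 hb2 using hb
  exact ⟨S, b, hQ, hb1, hb2⟩

theorem lin_case {K L : Subfield F} (hKL : K ≤ L) {D : ℕ} (hD : 1 ≤ D) (x : Fin k → F)
    (h1 : JK K D x = JK L D x) {g : Matrix (Fin k) (Fin k) F} (hg : ∀ i j, g i j ∈ L)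
    (hdet : IsUnit g.det)
    (hder : ∀ φ : F →+ F, (∀ a ∈ K, ∀ b, φ (a * b) = a * φ b) →
      (∀ a ∈ L, ∀ c ∈ L, φ (a * c) = a * φ c + c * φ a) → (∀ a ∈ L, φ a ∈ L) →
      (g.map φ).mulVec x = 0)
    (hcl : ∀ b ∈ L, b ∉ K → ∃ φ : F →+ F, (∀ a ∈ K, ∀ b, φ (a * b) = a * φ b) ∧
      (∀ a ∈ L, ∀ c ∈ L, φ (a * c) = a * φ c + c * φ a) ∧ (∀ a ∈ L, φ a ∈ L) ∧ φ b ≠ 0) :
    ∃ g₁ : Matrix (Fin k) (Fin k) F, (∀ i j, g₁ i j ∈ K) ∧ IsUnit g₁.det ∧
      g.mulVec x = g₁.mulVec x := by
  classical
  obtain ⟨S, b, hS, hbK, hb⟩ := exists_basis K x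
  have hL := lin_indep hKL hD x h1 S hS
  let p : Fin k → Fin k → F := fun i s => ∑ j, g i j * b j s
  have hpL : ∀ i s, p i s ∈ L := fun i s =>
    L.sum_mem fun j _ => L.mul_mem (hg i j) (hKL (hbK j s))
  have hcomb : ∀ (a : Fin k → F), ∑ j, a j * x j = ∑ s ∈ S, (∑ j, a j * b j s) * x s := by
    intro a
    have e1 : ∀ j, a j * x j = ∑ s ∈ S, a j * b j s * x s := by
      intro j
      conv_lhs => rw [hb j]
      rw [Finset.mul_sum]
      refine Finset.sum_congr rfl fun s _ => ?_
      ring
    rw [Finset.sum_congr rfl fun j _ => e1 j, Finset.sum_comm]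
    refine Finset.sum_congr rfl fun s _ => ?_
    rw [Finset.sum_mul]
  have hgx : ∀ i, g.mulVec x i = ∑ s ∈ S, p i s * x s := fun i => hcomb (g i)
  have hpK : ∀ i, ∀ s ∈ S, p i s ∈ K := by
    intro i s hs
    by_contra hcon
    obtain ⟨φ, hφ1, hφ2, hφ3, hφ4⟩ := hcl _ (hpL i s) hcon
    have e1 := congrFun (hder φ hφ1 hφ2 hφ3) i
    have e2 : (g.map φ).mulVec x i = ∑ s ∈ S, φ (p i s) * x s := by
      have e3 : (g.map φ).mulVec x i = ∑ j, φ (g i j) * x j := rfl
      rw [e3, hcomb]
      refine Finset.sum_congr rfl fun s _ => ?_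
      congr 1
      change _ = φ (∑ j, g i j * b j s)
      rw [map_sum]
      refine Finset.sum_congr rfl fun j _ => ?_
      rw [mul_comm (g i j), hφ1 _ (hbK j s), mul_comm]
    rw [e2] at e1
    exact hφ4 (hL (fun s => φ (p i s)) (fun s => hφ3 _ (hpL i s)) e1 s hs)
  -- the inverse matrix over `L`
  have hinv : ∀ t ∈ S, ∀ s ∈ S, ∑ i, g⁻¹ t i * p i s = if s = t then 1 else 0 := by
    intro t ht s hs
    have e1 : x t = ∑ s ∈ S, (∑ i, g⁻¹ t i * p i s) * x s := by
      have e2 : x t = (g⁻¹.mulVec (g.mulVec x)) t := by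
        rw [Matrix.mulVec_mulVec, Matrix.nonsing_inv_mul g hdet, Matrix.one_mulVec]
      have e3 : (g⁻¹.mulVec (g.mulVec x)) t = ∑ i, g⁻¹ t i * g.mulVec x i := rfl
      rw [e2, e3]
      have e4 : ∀ i, g⁻¹ t i * g.mulVec x i = ∑ s ∈ S, g⁻¹ t i * p i s * x s := by
        intro i
        rw [hgx i, Finset.mul_sum]
        refine Finset.sum_congr rfl fun s _ => ?_
        ring
      rw [Finset.sum_congr rfl fun i _ => e4 i, Finset.sum_comm]
      refine Finset.sum_congr rfl fun s _ => ?_
      rw [Finset.sum_mul]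
    have e5 : ∑ s ∈ S, ((∑ i, g⁻¹ t i * p i s) - if s = t then 1 else 0) * x s = 0 := by
      have e6 : ∑ s ∈ S, (if s = t then (1 : F) else 0) * x s = x t := by
        rw [Finset.sum_eq_single t]
        · simp
        · intro s _ hs
          simp [hs]
        · intro h
          exact absurd ht h
      simp only [sub_mul, Finset.sum_sub_distrib]
      rw [← e1, e6, sub_self]
    have e7 := hL (fun s => (∑ i, g⁻¹ t i * p i s) - if s = t then 1 else 0) (fun s => by
      refine L.sub_mem (L.sum_mem fun i _ => L.mul_mem (inv_mem hg t i) (hpL i s)) ?_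
      split_ifs
      · exact L.one_mem
      · exact L.zero_mem) e5 s hs
    exact sub_eq_zero.mp e7
  -- the left inverse over `K`
  let P : (S → K) →ₗ[K] (Fin k → K) :=
    { toFun := fun v i => ∑ s : S, ⟨p i s, hpK i s s.2⟩ * v s
      map_add' := fun v w => by
        funext i
        simp only [Pi.add_apply, mul_add, Finset.sum_add_distrib]
      map_smul' := fun a v => by
        funext i
        simp only [Pi.smul_apply, smul_eq_mul, RingHom.id_apply, Finset.mul_sum]
        refine Finset.sum_congr rfl fun s _ => ?_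
        ring }
  have hP : ∀ v i, ((P v i : K) : F) = ∑ s : S, p i s * (v s : F) := by
    intro v i
    change ((∑ s : S, (⟨p i s, hpK i s s.2⟩ : K) * v s : K) : F) = _
    push_cast
    rfl
  have hPinj : LinearMap.ker P = ⊥ := by
    rw [LinearMap.ker_eq_bot, injective_iff_map_eq_zero]
    intro v hv
    funext t
    have e1 : ∑ i, g⁻¹ t i * ((P v i : K) : F) = (v t : F) := by
      have e2 : ∀ i, g⁻¹ t i * ((P v i : K) : F) =
          ∑ s : S, g⁻¹ t i * p i s * (v s : F) := by
        intro i
        rw [hP, Finset.mul_sum]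
        refine Finset.sum_congr rfl fun s _ => ?_
        ring
      rw [Finset.sum_congr rfl fun i _ => e2 i, Finset.sum_comm]
      rw [Finset.sum_eq_single t]
      · rw [← Finset.sum_mul, hinv t t.2 t t.2, if_pos rfl, one_mul]
      · intro s _ hs
        rw [← Finset.sum_mul, hinv t t.2 s s.2, if_neg, zero_mul]
        intro h
        exact hs (Subtype.ext h)
      · intro h
        exact absurd (Finset.mem_univ t) h
    rw [hv] at e1
    simp only [Pi.zero_apply, ZeroMemClass.coe_zero, mul_zero, Finset.sum_const_zero] at e1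
    exact Subtype.ext e1.symm
  obtain ⟨Q, hQ⟩ := LinearMap.exists_leftInverse_of_injective P hPinj
  have hspan : Submodule.span K (Set.range x) = Submodule.span K (Set.range (g.mulVec x)) := by
    apply le_antisymm
    · have hxS : ∀ t ∈ S, x t ∈ Submodule.span K (Set.range (g.mulVec x)) := by
        intro t ht
        rw [Submodule.mem_span_range_iff_exists_fun]
        refine ⟨fun i => Q (Pi.single i 1) ⟨t, ht⟩, ?_⟩
        have e1 : ∀ s : S, ∑ i, ((Q (Pi.single i 1) ⟨t, ht⟩ : K) : F) * p i s =
            if (s : Fin k) = t then 1 else 0 := by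
          intro s
          have e2 : Q (P (Pi.single s 1)) = Pi.single s 1 := LinearMap.congr_fun hQ _
          have e3 : P (Pi.single s 1) = ∑ i, (⟨p i s, hpK i s s.2⟩ : K) •
              (Pi.single i (1 : K) : Fin k → K) := by
            funext i
            rw [Finset.sum_apply]
            have e4 : P (Pi.single s 1) i = (⟨p i s, hpK i s s.2⟩ : K) := by
              change ∑ s' : S, (⟨p i s', hpK i s' s'.2⟩ : K) * (Pi.single s (1 : K) : S → K) s' = _
              rw [Finset.sum_eq_single s]
              · rw [Pi.single_eq_same, mul_one]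
              · intro s' _ hs'
                rw [Pi.single_eq_of_ne hs', mul_zero]
              · intro h
                exact absurd (Finset.mem_univ s) h
            rw [e4, Finset.sum_eq_single i]
            · rw [Pi.smul_apply, Pi.single_eq_same, smul_eq_mul, mul_one]
            · intro j _ hj
              rw [Pi.smul_apply, Pi.single_eq_of_ne (Ne.symm hj), smul_zero]
            · intro h
              exact absurd (Finset.mem_univ i) h
          rw [e3, map_sum] at e2
          have e5 := congrFun e2 ⟨t, ht⟩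
          rw [Finset.sum_apply] at e5
          have e6 := congrArg (fun z : K => (z : F)) e5
          simp only [map_smul, Pi.smul_apply, smul_eq_mul] at e6
          push_cast at e6
          rw [Finset.sum_congr rfl fun i _ => mul_comm _ (p i s), e6, Pi.single_apply]
          by_cases hst : (s : Fin k) = t
          · rw [if_pos hst, if_pos (Subtype.ext hst.symm)]
            rfl
          · rw [if_neg hst, if_neg (fun h => hst (congrArg Subtype.val h).symm)]
            rfl
        have e7 : ∀ i, (Q (Pi.single i 1) ⟨t, ht⟩ : K) • g.mulVec x i =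
            ∑ s ∈ S, ((Q (Pi.single i 1) ⟨t, ht⟩ : K) : F) * p i s * x s := by
          intro i
          have e8 : (Q (Pi.single i 1) ⟨t, ht⟩ : K) • g.mulVec x i =
              ((Q (Pi.single i 1) ⟨t, ht⟩ : K) : F) * g.mulVec x i := rfl
          rw [e8, hgx i, Finset.mul_sum]
          refine Finset.sum_congr rfl fun s _ => ?_
          ring
        rw [Finset.sum_congr rfl fun i _ => e7 i, Finset.sum_comm]
        have e9 : ∀ s ∈ S, ∑ i, ((Q (Pi.single i 1) ⟨t, ht⟩ : K) : F) * p i s * x s =
            (if s = t then 1 else 0) * x s := by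
          intro s hs
          rw [← Finset.sum_mul, e1 ⟨s, hs⟩]
        rw [Finset.sum_congr rfl e9, Finset.sum_eq_single t]
        · simp
        · intro s _ hs
          simp [hs]
        · intro h
          exact absurd ht h
      rw [Submodule.span_le]
      rintro _ ⟨i, rfl⟩
      rw [hb i]
      refine Submodule.sum_mem _ fun s hs => ?_
      exact Submodule.smul_mem _ (⟨b i s, hbK i s⟩ : K) (hxS s hs)
    · rw [Submodule.span_le]
      rintro _ ⟨i, rfl⟩
      rw [hgx i]
      refine Submodule.sum_mem _ fun s hs => ?_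
      exact Submodule.smul_mem _ (⟨p i s, hpK i s hs⟩ : K) (Submodule.subset_span ⟨s, rfl⟩)
  exact exists_gl K x (g.mulVec x) hspan

end Pool.Agent.Work.MP_e97a4d_nt.Chain
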