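import Pool.Agent.Work.MP_e97a4d_nt.ChVf
import Pool.Agent.Work.MP_e97a4d_nt.ChLin
import Pool.Agent.Work.MP_e97a4d_nt.ChDer

/-!
The algebraic step of the chain displacement theorem.
-/

set_option autoImplicit false

noncomputable section

namespace Pool.Agent.Work.MP_e97a4d_nt.Chain

open MvPolynomial Module

variable {k : ℕ} {F : Type} [Field F]

theorem alg_step [CharZero F] {K L : Subfield F} (hKL : K ≤ L)
    (hcl : ∀ b ∈ L, ∀ p : Polynomial F, p ≠ 0 → (∀ i, p.coeff i ∈ K) → p.eval b = 0 → b ∈ K)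
    {D : ℕ} (hD : 1 ≤ D) (x : Fin k → F) {g : Matrix (Fin k) (Fin k) F}
    (hg : ∀ i j, g i j ∈ L) (hdet : IsUnit g.det) (h1 : JK K D x = JK L D x)
    (h2 : finrank F (JK K D x) ≤ finrank F (JK K D (g.mulVec x))) :
    (∃ g₁ : Matrix (Fin k) (Fin k) F, (∀ i j, g₁ i j ∈ K) ∧ IsUnit g₁.det ∧
      g.mulVec x = g₁.mulVec x) ∨
    (∃ X : Matrix (Fin k) (Fin k) F, X.mulVec (g.mulVec x) ≠ 0 ∧
      ∀ f ∈ JK K D (g.mulVec x), vf X f ∈ JK K D (g.mulVec x)) := by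
  have h3 : JK K D (g.mulVec x) = JK L D (g.mulVec x) := by
    refine Submodule.eq_of_le_of_finrank_le (JK_mono hKL D _) ?_
    rw [finrank_JK_sub hg hdet, ← h1]
    exact h2
  by_cases H : ∀ φ : F →+ F, (∀ a ∈ K, ∀ b, φ (a * b) = a * φ b) →
      (∀ a ∈ L, ∀ c ∈ L, φ (a * c) = a * φ c + c * φ a) → (∀ a ∈ L, φ a ∈ L) →
      (g.map φ).mulVec x = 0
  · left
    refine lin_case hKL hD x h1 hg hdet H ?_
    intro b hb hbK
    obtain ⟨φ, h4, h5, h6, h7⟩ := exists_der K L hKL b hb (fun p hp hpc h0 =>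
      hbK (hcl b hb p hp hpc h0))
    exact ⟨φ, h4, h5, h6, by rw [h7]; exact one_ne_zero⟩
  · right
    push Not at H
    obtain ⟨φ, h4, h5, -, h7⟩ := H
    refine ⟨g.map φ * g⁻¹, ?_, vf_stable hKL φ h4 h5 hg hdet x h1 h3⟩
    rw [Matrix.mulVec_mulVec, Matrix.mul_assoc, Matrix.nonsing_inv_mul g hdet, Matrix.mul_one]
    exact h7

end Pool.Agent.Work.MP_e97a4d_nt.Chain
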