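import Mathlib

/-!
Definitions for the chain displacement theorem (problem MP_e97a4d_nt).
-/

set_option autoImplicit false

noncomputable section

namespace Pool.Agent.Work.MP_e97a4d_nt.Chain

open MvPolynomial

variable {k : ℕ}

/-- The linear vector field `v ↦ X v`, as a derivation of the polynomial ring. -/
def vf {R : Type} [CommRing R] (X : Matrix (Fin k) (Fin k) R) :
    Derivation R (MvPolynomial (Fin k) R) (MvPolynomial (Fin k) R) :=
  mkDerivation R (fun i => ∑ j, C (X i j) * MvPolynomial.X j)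

/-- The substitution `f ↦ f ∘ g`. -/
def sub {R : Type} [CommRing R] (g : Matrix (Fin k) (Fin k) R) :
    MvPolynomial (Fin k) R →ₐ[R] MvPolynomial (Fin k) R :=
  aeval (fun i => ∑ j, C (g i j) * MvPolynomial.X j)

/-- The polynomials of degree at most `D` with coefficients in the subfield `K` which vanish
at `x`. -/
def IK {F : Type} [Field F] (K : Subfield F) (D : ℕ) (x : Fin k → F) :
    Set (MvPolynomial (Fin k) F) :=
  {f | f.totalDegree ≤ D ∧ (∀ m, f.coeff m ∈ K) ∧ eval x f = 0}

/-- Their span over the big field. -/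
def JK {F : Type} [Field F] (K : Subfield F) (D : ℕ) (x : Fin k → F) :
    Submodule F (MvPolynomial (Fin k) F) :=
  Submodule.span F (IK K D x)

/-- Apply an additive map to all coefficients. -/
def cw {F : Type} [Field F] (φ : F →+ F) (f : MvPolynomial (Fin k) F) :
    MvPolynomial (Fin k) F :=
  ∑ m ∈ f.support, monomial m (φ (f.coeff m))

theorem coeff_cw {F : Type} [Field F] (φ : F →+ F) (f : MvPolynomial (Fin k) F)
    (m : Fin k →₀ ℕ) : (cw φ f).coeff m = φ (f.coeff m) := by
  classical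
  unfold cw
  rw [coeff_sum]
  simp only [coeff_monomial]
  rw [Finset.sum_ite_eq' f.support m]
  split_ifs with h
  · rfl
  · rw [notMem_support_iff.1 h, map_zero]

/-- `x` lies on a non-constant orbit of a linear one-parameter group `exp (z X)` which satisfies
all the equations in `E` (formulated algebraically: all derivatives at `z = 0` vanish). -/
def OnOrbit (E : Set (MvPolynomial (Fin k) ℂ)) (x : Fin k → ℂ) : Prop :=
  ∃ X : Matrix (Fin k) (Fin k) ℂ, X.mulVec x ≠ 0 ∧
    ∀ f ∈ E, ∀ j : ℕ, eval x ((vf X)^[j] f) = 0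

/-- A subfield of `ℂ` with a function having the formal properties of the absolute logarithmic
height. -/
structure HField where
  /-- the field -/
  K : Subfield ℂ
  /-- the height -/
  h : ℂ → ℝ
  nonneg : ∀ x, 0 ≤ h x
  zero : h 0 = 0
  one : h 1 = 0
  neg : ∀ x ∈ K, h (-x) ≤ h x
  add : ∀ x ∈ K, ∀ y ∈ K, h (x + y) ≤ h x + h y + 1
  mul : ∀ x ∈ K, ∀ y ∈ K, h (x * y) ≤ h x + h y
  inv : ∀ x ∈ K, h x⁻¹ ≤ h x
  root : ∀ (n : ℕ) (a : Fin n → ℂ) (x : ℂ), (∀ i, a i ∈ K) → x ∈ K →
    x ^ n = ∑ i, a i * x ^ (i : ℕ) → h x ≤ n + ∑ i, h (a i)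

/-- The ultrapower of `ℂ`. -/
abbrev Om : Type := Filter.Germ ((Filter.hyperfilter ℕ : Ultrafilter ℕ) : Filter ℕ) ℂ

/-- the class of a sequence -/
def cl (f : ℕ → ℂ) : Om := (f : Filter.Germ _ ℂ)

/-- For almost all `s`. -/
def AE (p : ℕ → Prop) : Prop := ∀ᶠ s in ((Filter.hyperfilter ℕ : Ultrafilter ℕ) : Filter ℕ), p s

/-- The elements of the ultrapower of height `O(σ s)`. (It is proved to be a field in module
`ChGerm`.) -/
def GFset (H : ℕ → HField) (σ : ℕ → ℝ) : Set Om :=
  {a | ∃ (f : ℕ → ℂ) (C : ℝ), a = cl f ∧ AE fun s => f s ∈ (H s).K ∧ (H s).h (f s) ≤ C * σ s}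

/-- the exponent vectors of degree at most `D` -/
def mons (k D : ℕ) : Finset (Fin k →₀ ℕ) :=
  (Finset.range (D + 1)).biUnion fun d => Finset.finsuppAntidiag Finset.univ d

theorem mem_mons {k D : ℕ} (m : Fin k →₀ ℕ) : m ∈ mons k D ↔ m.degree ≤ D := by
  classical
  simp only [mons, Finset.mem_biUnion, Finset.mem_range, Finset.mem_finsuppAntidiag]
  constructor
  · rintro ⟨d, hd, h1, -⟩
    rw [Finsupp.degree_eq_sum]
    rw [h1]
    omega
  · intro h
    refine ⟨m.degree, by omega, ?_, Finset.subset_univ _⟩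
    rw [Finsupp.degree_eq_sum]

/-- The polynomial over the ultrapower attached to a sequence of polynomials of degree at
most `D`. -/
def germPoly (D : ℕ) (f : ℕ → MvPolynomial (Fin k) ℂ) : MvPolynomial (Fin k) Om :=
  ∑ m ∈ mons k D, monomial m (cl fun s => (f s).coeff m)

end Pool.Agent.Work.MP_e97a4d_nt.Chain
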