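import Pool.Agent.Work.MP_e97a4d_nt.ChDefs
import Pool.Agent.Work.MP_e97a4d_nt.ExpDefs

/-!
Module ChExp (M, about 150 lines): the orbits of one-parameter matrix groups are exponential
polynomial curves.

* `exists_curve`: decompose `v = ∑ v_μ` into generalized eigenvectors of `X`
  (`Module.End.iSup_maxGenEigenspace_eq_top`, `Matrix.toLin'`); put
  `c z = ∑_μ exp (μ z) ∑_{j < N} (z ^ j / j!) (X - μ)^j v_μ`. (Prove the statement for a generalized
  eigenvector, then `Submodule.iSup_induction`; the statement is additive in `v`.) The membership in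
  `expPoly` is by `Algebra.subset_adjoin`, `sum_mem`, `mul_mem`.
* `eval_curve`: for `f` with `eval v ((vf X)^[j] f) = 0` for all `j`, the entire function
  `Φ f z = eval (c z) f` has derivative `Φ (vf X f)` (chain rule, induction over `f`), so all its
  derivatives at `0` vanish (`iteratedDeriv`), so it is zero (`AnalyticOnNhd.eq...` /
  `Complex.taylorSeries...` / `Differentiable.analyticAt` + identity theorem).
-/

set_option autoImplicit false

noncomputable section

namespace Pool.Agent.Work.MP_e97a4d_nt.Chain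

open MvPolynomial

variable {k : ℕ}

private theorem const_mem (a : ℂ) : (fun _ : ℂ => a) ∈ expPoly := expPoly.algebraMap_mem a

private theorem id_mem : (fun z : ℂ => z) ∈ expPoly := Algebra.subset_adjoin (Set.mem_insert _ _)

private theorem exp_mem (μ : ℂ) : (fun z : ℂ => Complex.exp (μ * z)) ∈ expPoly :=
  Algebra.subset_adjoin (Set.mem_insert_of_mem _ ⟨μ, rfl⟩)

private theorem curve_gen (X : Matrix (Fin k) (Fin k) ℂ) (μ : ℂ) (N : ℕ) (v : Fin k → ℂ)
    (hv : ((X.mulVecLin - μ • (1 : Module.End ℂ (Fin k → ℂ))) ^ N) v = 0) :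
    ∃ c : ℂ → Fin k → ℂ, (∀ i, (fun z => c z i) ∈ expPoly) ∧ c 0 = v ∧
      ∀ z i, HasDerivAt (fun w => c w i) (X.mulVec (c z) i) z := by
  rcases N with _ | N
  · have hv0 : v = 0 := by simpa using hv
    refine ⟨fun _ => 0, fun i => const_mem 0, hv0.symm, fun z i => ?_⟩
    rw [Matrix.mulVec_zero]
    exact hasDerivAt_const _ _
  let y : ℕ → Fin k → ℂ := fun j => ((X.mulVecLin - μ • (1 : Module.End ℂ (Fin k → ℂ))) ^ j) v
  have hy0 : y 0 = v := by simp [y]
  have hyN : y (N + 1) = 0 := hv
  have hy : ∀ j, X.mulVec (y j) = y (j + 1) + μ • y j := by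
    intro j
    have : y (j + 1) = (X.mulVecLin - μ • (1 : Module.End ℂ (Fin k → ℂ))) (y j) := by
      simp only [y, pow_succ']
      rfl
    rw [this]
    simp
  refine ⟨fun z => Complex.exp (μ * z) • ∑ j ∈ Finset.range (N + 1), (z ^ j / (j.factorial : ℂ)) • y j,
    ?_, ?_, ?_⟩
  · intro i
    have : (fun z : ℂ => (Complex.exp (μ * z) •
        ∑ j ∈ Finset.range (N + 1), (z ^ j / (j.factorial : ℂ)) • y j) i) =
        (fun z : ℂ => Complex.exp (μ * z)) * ∑ j ∈ Finset.range (N + 1),
          (fun z : ℂ => z) ^ j * (fun _ : ℂ => (y j i) / (j.factorial : ℂ)) := by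
      funext z
      simp only [Pi.smul_apply, Finset.sum_apply, smul_eq_mul, Pi.mul_apply, Pi.pow_apply]
      congr 1
      refine Finset.sum_congr rfl fun j _ => ?_
      ring
    rw [this]
    exact mul_mem (exp_mem μ) (sum_mem fun j _ => mul_mem (pow_mem id_mem j) (const_mem _))
  · simp only [mul_zero, Complex.exp_zero, one_smul]
    rw [Finset.sum_range_succ', Finset.sum_eq_zero]
    · simp [hy0]
    · intro j _
      simp
  · intro z i
    have h1 : HasDerivAt (fun w : ℂ => Complex.exp (μ * w)) (Complex.exp (μ * z) * μ) z := by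
      have := ((hasDerivAt_id z).const_mul μ).cexp
      simpa using this
    have h2 : HasDerivAt (fun w : ℂ => ∑ j ∈ Finset.range (N + 1),
        (w ^ j / (j.factorial : ℂ)) * y j i)
        (∑ j ∈ Finset.range (N + 1), (((j : ℂ) * z ^ (j - 1)) / (j.factorial : ℂ)) * y j i) z := by
      refine HasDerivAt.fun_sum fun j _ => ?_
      exact ((hasDerivAt_pow j z).div_const _).mul_const _
    have h3 : ∑ j ∈ Finset.range (N + 1), (((j : ℂ) * z ^ (j - 1)) / (j.factorial : ℂ)) * y j i =
        ∑ j ∈ Finset.range (N + 1), (z ^ j / (j.factorial : ℂ)) * y (j + 1) i := by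
      rw [Finset.sum_range_succ', Finset.sum_range_succ _ N, hyN]
      simp only [Nat.cast_zero, zero_mul, zero_div, add_zero, Pi.zero_apply, mul_zero]
      refine Finset.sum_congr rfl fun j _ => ?_
      rw [Nat.add_sub_cancel, Nat.factorial_succ]
      have e1 : ((j : ℂ) + 1) ≠ 0 := by exact_mod_cast j.succ_ne_zero
      have e2 : ((j.factorial : ℕ) : ℂ) ≠ 0 := by exact_mod_cast j.factorial_ne_zero
      push_cast
      field_simp
    rw [h3] at h2
    have h4 := h1.mul h2
    have e1 : (fun w : ℂ => (Complex.exp (μ * w) •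
        ∑ j ∈ Finset.range (N + 1), (w ^ j / (j.factorial : ℂ)) • y j) i) =
        (fun w : ℂ => Complex.exp (μ * w)) * fun w : ℂ => ∑ j ∈ Finset.range (N + 1),
          (w ^ j / (j.factorial : ℂ)) * y j i := by
      funext w
      simp only [Pi.smul_apply, Finset.sum_apply, smul_eq_mul, Pi.mul_apply]
    have e2 : X.mulVec (Complex.exp (μ * z) •
        ∑ j ∈ Finset.range (N + 1), (z ^ j / (j.factorial : ℂ)) • y j) i =
        Complex.exp (μ * z) * μ * ∑ j ∈ Finset.range (N + 1), z ^ j / (j.factorial : ℂ) * y j i +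
      Complex.exp (μ * z) *
        ∑ j ∈ Finset.range (N + 1), z ^ j / (j.factorial : ℂ) * y (j + 1) i := by
      rw [Matrix.mulVec_smul, Matrix.mulVec_sum]
      simp only [Matrix.mulVec_smul, hy, smul_add, Finset.sum_add_distrib, Pi.add_apply,
        Pi.smul_apply, Finset.sum_apply, smul_eq_mul]
      have h5 : ∑ j ∈ Finset.range (N + 1), z ^ j / (j.factorial : ℂ) * (μ * y j i) =
          μ * ∑ j ∈ Finset.range (N + 1), z ^ j / (j.factorial : ℂ) * y j i := by
        rw [Finset.mul_sum]
        refine Finset.sum_congr rfl fun j _ => ?_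
        ring
      rw [h5]
      ring
    rw [e1, e2]
    exact h4

theorem exists_curve (X : Matrix (Fin k) (Fin k) ℂ) (v : Fin k → ℂ) :
    ∃ c : ℂ → Fin k → ℂ, (∀ i, (fun z => c z i) ∈ expPoly) ∧ c 0 = v ∧
      ∀ z i, HasDerivAt (fun w => c w i) (X.mulVec (c z) i) z := by
  have hv : v ∈ ⨆ μ : ℂ, Module.End.maxGenEigenspace X.mulVecLin μ := by
    rw [Module.End.iSup_maxGenEigenspace_eq_top]
    trivial
  induction hv using Submodule.iSup_induction' with
  | mem μ v hv =>
    obtain ⟨N, hN⟩ := (Module.End.mem_maxGenEigenspace _ _ _).1 hv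
    exact curve_gen X μ N v hN
  | zero =>
    refine ⟨fun _ => 0, fun i => const_mem 0, rfl, fun z i => ?_⟩
    rw [Matrix.mulVec_zero]
    exact hasDerivAt_const _ _
  | add v w _ _ hv hw =>
    obtain ⟨c, hc1, hc2, hc3⟩ := hv
    obtain ⟨d, hd1, hd2, hd3⟩ := hw
    refine ⟨fun z => c z + d z, fun i => add_mem (hc1 i) (hd1 i), by simp only [hc2, hd2], ?_⟩
    intro z i
    rw [Matrix.mulVec_add]
    exact (hc3 z i).add (hd3 z i)

private theorem hasDerivAt_eval (X : Matrix (Fin k) (Fin k) ℂ) (c : ℂ → Fin k → ℂ)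
    (hc : ∀ z i, HasDerivAt (fun w => c w i) (X.mulVec (c z) i) z)
    (f : MvPolynomial (Fin k) ℂ) (z : ℂ) :
    HasDerivAt (fun w => eval (c w) f) (eval (c z) (vf X f)) z := by
  induction f using MvPolynomial.induction_on with
  | C a =>
    have : vf X (C a : MvPolynomial (Fin k) ℂ) = 0 := (vf X).map_algebraMap a
    rw [this, map_zero]
    simp only [eval_C]
    exact hasDerivAt_const _ _
  | add f g hf hg =>
    simp only [map_add]
    exact hf.add hg
  | mul_X f i hf =>
    have h1 : vf X (MvPolynomial.X i : MvPolynomial (Fin k) ℂ) =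
        ∑ j, C (X i j) * MvPolynomial.X j := by
      rw [vf, mkDerivation_X]
    have h2 : eval (c z) (vf X (MvPolynomial.X i : MvPolynomial (Fin k) ℂ)) =
        X.mulVec (c z) i := by
      rw [h1, map_sum]
      simp only [map_mul, eval_C, eval_X]
      rfl
    rw [Derivation.leibniz, map_add, smul_eq_mul, smul_eq_mul, map_mul, map_mul, h2, eval_X]
    have h3 := hf.mul (hc z i)
    have h4 : (fun w => eval (c w) (f * MvPolynomial.X i)) =
        (fun w => eval (c w) f) * fun w => c w i := by
      funext w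
      simp
    have h5 : eval (c z) f * X.mulVec (c z) i + c z i * eval (c z) (vf X f) =
        eval (c z) (vf X f) * c z i + eval (c z) f * X.mulVec (c z) i := by ring
    rw [h4, h5]
    exact h3

theorem eval_curve (X : Matrix (Fin k) (Fin k) ℂ) (c : ℂ → Fin k → ℂ)
    (hc : ∀ z i, HasDerivAt (fun w => c w i) (X.mulVec (c z) i) z)
    (f : MvPolynomial (Fin k) ℂ) (hf : ∀ j : ℕ, eval (c 0) ((vf X)^[j] f) = 0) (z : ℂ) :
    eval (c z) f = 0 := by
  have hd : ∀ f : MvPolynomial (Fin k) ℂ, Differentiable ℂ (fun w => eval (c w) f) := fun f w =>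
    (hasDerivAt_eval X c hc f w).differentiableAt
  have hit : ∀ (n : ℕ) (f : MvPolynomial (Fin k) ℂ),
      iteratedDeriv n (fun w => eval (c w) f) = fun w => eval (c w) ((vf X)^[n] f) := by
    intro n
    induction n with
    | zero => intro f; simp
    | succ n ih =>
      intro f
      rw [iteratedDeriv_succ']
      have : deriv (fun w => eval (c w) f) = fun w => eval (c w) (vf X f) := by
        funext w
        exact (hasDerivAt_eval X c hc f w).deriv
      rw [this, ih]
      rfl
  have h := Complex.taylorSeries_eq_of_entire' 0 z (hd f)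
  rw [← h]
  have h0 : ∀ n : ℕ, ((n.factorial : ℂ))⁻¹ * iteratedDeriv n (fun w => eval (c w) f) 0 *
      (z - 0) ^ n = 0 := by
    intro n
    rw [hit]
    simp only [hf n, mul_zero, zero_mul]
  simp only [h0, tsum_zero]

end Pool.Agent.Work.MP_e97a4d_nt.Chain
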