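import Pool.Agent.Work.MP_e97a4d_nt.ChMain

/-!
The chain displacement theorem for a fixed scheme: the constant depends only on the scheme.
-/

set_option autoImplicit false

noncomputable section

namespace Pool.Agent.Work.MP_e97a4d_nt.Chain

open AlgebraicGeometry CategoryTheory NumberField

variable {k : ℕ}

theorem HField.nat_le (H : HField) (n : ℕ) : H.h (n : ℂ) ≤ n := by
  induction n with
  | zero => simp [H.zero]
  | succ n ih =>
    have h1 := H.add n (natCast_mem H.K n) 1 H.K.one_mem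
    rw [H.one] at h1
    push_cast
    linarith

theorem HField.int_le (H : HField) (n : ℤ) : H.h (n : ℂ) ≤ n.natAbs := by
  rcases Int.natAbs_eq n with h | h
  · rw [h]
    have := H.nat_le n.natAbs
    simpa using this
  · have h1 := H.neg (n.natAbs : ℂ) (natCast_mem H.K _)
    have h2 := H.nat_le n.natAbs
    have h3 : ((n : ℤ) : ℂ) = -((n.natAbs : ℕ) : ℂ) := by
      conv_lhs => rw [h]
      rw [Int.cast_neg, Int.cast_natCast]
    rw [h3]
    linarith

/-- The normalised height of a given algebraic integer is bounded independently of the field. -/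
theorem exists_bound {F₀ : Type} [Field F₀] (a : 𝓞 F₀) : ∃ M : ℝ, ∀ (K : Type) [Field K]
    [NumberField K] (τ : F₀ →+* K), hgt (τ a) ≤ M := by
  obtain ⟨p, hp, hp0⟩ : IsIntegral ℤ (a : F₀) := RingOfIntegers.isIntegral_coe a
  refine ⟨p.natDegree + ∑ i : Fin p.natDegree, ((-p.coeff i).natAbs : ℝ), ?_⟩
  intro K _ _ τ
  obtain ⟨ι⟩ : Nonempty (K →+* ℂ) := inferInstance
  obtain ⟨H, hHK, hHh⟩ := exists_HField K ι
  rw [hgt_eq_nht, ← hHh]
  have h1 := H.root p.natDegree (fun i => ((-p.coeff i : ℤ) : ℂ)) (ι (τ a))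
    (fun i => intCast_mem H.K _) (by rw [hHK]; exact ⟨_, rfl⟩) (by
      have h2 : Polynomial.eval₂ (algebraMap ℤ F₀) (a : F₀) p = 0 := hp0
      have h3 := congrArg (fun y => ι (τ y)) h2
      simp only [map_zero] at h3
      rw [Polynomial.hom_eval₂, Polynomial.hom_eval₂,
        Polynomial.eval₂_eq_sum_range, Finset.sum_range_succ] at h3
      have h4 : p.coeff p.natDegree = 1 := hp
      rw [h4, map_one, one_mul] at h3
      rw [Fin.sum_univ_eq_sum_range (fun i => ((-p.coeff i : ℤ) : ℂ) * ι (τ a) ^ i)]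
      have h5 : ∀ i, ((ι.comp τ).comp (algebraMap ℤ F₀)) (p.coeff i) = ((p.coeff i : ℤ) : ℂ) := by
        intro i
        simp
      have h6 : ι (τ a) ^ p.natDegree = -∑ i ∈ Finset.range p.natDegree,
          ((p.coeff i : ℤ) : ℂ) * ι (τ a) ^ i := by
        rw [eq_neg_iff_add_eq_zero, add_comm, ← h3]
        congr 1
        refine Finset.sum_congr rfl fun i _ => ?_
        congr 1
        simp
      rw [h6, ← Finset.sum_neg_distrib]
      refine Finset.sum_congr rfl fun i _ => ?_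
      push_cast
      ring)
  refine h1.trans ?_
  gcongr with i _
  exact H.int_le _

/-- Every finitely generated algebra is cut out by equations of bounded complexity. -/
theorem exists_cutOut {F₀ : Type} [Field F₀] [NumberField F₀] (σ : F₀ →+* ℂ)
    {A : CommRingCat.{0}} (ψ : 𝓞 F₀ →+* A) (t : Fin k → A) :
    ∃ (D : ℕ) (T₀ : ℝ), ∀ (K : Type) [Field K] [NumberField K] (τ : F₀ →+* K) (ι : K →+* ℂ)
      (_ : ι.comp τ = σ) (T : ℝ) (_ : T₀ ≤ T), CutOut ι σ ψ t D T := by
  classical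
  obtain ⟨S, hS⟩ : (RingHom.ker (MvPolynomial.eval₂Hom ψ t)).FG :=
    IsNoetherian.noetherian _
  choose M hM using fun a : 𝓞 F₀ => exists_bound a
  refine ⟨S.sup MvPolynomial.totalDegree, ∑ f ∈ S, ∑ m ∈ f.support, |M (f.coeff m)| + |M 0|, ?_⟩
  intro K _ _ τ ι hτ T hT
  let ρ : 𝓞 F₀ →+* K := τ.comp (algebraMap (𝓞 F₀) F₀)
  refine ⟨(MvPolynomial.map ρ) '' (S : Set (MvPolynomial (Fin k) (𝓞 F₀))), ?_, ?_⟩
  · rintro _ ⟨f, hf, rfl⟩
    refine ⟨(Finset.sup_mono (MvPolynomial.support_map_subset ρ f)).trans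
      (Finset.le_sup (f := MvPolynomial.totalDegree) hf), fun m => ?_⟩
    rw [MvPolynomial.coeff_map]
    refine le_trans ?_ hT
    have h1 : hgt (ρ (f.coeff m)) ≤ M (f.coeff m) := hM _ K τ
    refine h1.trans ((le_abs_self _).trans ?_)
    have hnn : ∀ f ∈ S, 0 ≤ ∑ m ∈ f.support, |M (f.coeff m)| := fun f _ =>
      Finset.sum_nonneg fun _ _ => abs_nonneg _
    by_cases hm : m ∈ f.support
    · have h2 : |M (f.coeff m)| ≤ ∑ m ∈ f.support, |M (f.coeff m)| :=
        Finset.single_le_sum (f := fun m => |M (f.coeff m)|) (fun _ _ => abs_nonneg _) hm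
      have h3 : ∑ m ∈ f.support, |M (f.coeff m)| ≤ ∑ f ∈ S, ∑ m ∈ f.support, |M (f.coeff m)| :=
        Finset.single_le_sum (f := fun f : MvPolynomial (Fin k) (𝓞 F₀) =>
          ∑ m ∈ f.support, |M (f.coeff m)|) hnn hf
      have h4 := abs_nonneg (M 0)
      linarith
    · rw [MvPolynomial.notMem_support_iff.1 hm]
      have h5 : 0 ≤ ∑ f ∈ S, ∑ m ∈ f.support, |M (f.coeff m)| := Finset.sum_nonneg hnn
      linarith
  · rw [relIdeal, ← hS]
    show _ = (Ideal.span _).map _
    rw [Ideal.map_span, ← Set.image_comp]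
    congr 1
    ext f
    constructor
    · rintro ⟨g, hg, rfl⟩
      refine ⟨g, hg, ?_⟩
      simp only [Function.comp, MvPolynomial.map_map]
      congr 1
      rw [← hτ]
      rfl
    · rintro ⟨g, hg, rfl⟩
      refine ⟨g, hg, ?_⟩
      simp only [Function.comp, MvPolynomial.map_map]
      congr 1
      rw [← hτ]
      rfl

theorem Step.mono {A : CommRingCat.{0}} {K : Type} [Field K] [NumberField K] {ι : K →+* ℂ}
    {t : Fin k → A} {T T' : ℝ} {P Q : A →+* ℂ} (h : Step ι t T P Q) (hT : T ≤ T') :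
    Step ι t T' P Q := by
  obtain ⟨g, h1, h2, h3⟩ := h
  exact ⟨g, h1, fun a b => (h2 a b).trans hT, h3⟩

end Pool.Agent.Work.MP_e97a4d_nt.Chain
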