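import Pool.Agent.Work.MP_e97a4d_nt.ChDefs

/-!
Module ChGerm (S-M, about 150 lines): the subfields of the ultrapower given by `GFset`.

All `σ s ≥ 1`. Closure under `+`, `*`, `-`, `⁻¹`: add the constants (`C ≤ |C|`, `1 ≤ σ s`);
`Filter.Eventually.and`. (`cl (f + g) = cl f + cl g` etc. hold by `rfl` or `Filter.Germ.coe_add`; the
inverse in the germ field is the class of the pointwise inverse.)

`GF_closed`: let `b = cl β`, `β s ∈ K_s` almost always, `p ≠ 0` with coefficients in `GF H σ` and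
`p.eval b = 0`. Divide by the leading coefficient: `b ^ n = ∑_{i < n} a i * b ^ i` with
`a i ∈ GF H σ`, `n = natDegree`. For almost all `s` the same holds for the representatives, so
`h (β s) ≤ n + ∑ h (a i s) ≤ C σ s` by `HField.root`.
-/

set_option autoImplicit false

noncomputable section

namespace Pool.Agent.Work.MP_e97a4d_nt.Chain

/-- The subfield of the ultrapower consisting of the elements of height `O(σ s)`. -/
def GF (H : ℕ → HField) (σ : ℕ → ℝ) (hσ : ∀ s, 1 ≤ σ s) : Subfield Om where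
  carrier := GFset H σ
  mul_mem' := by
    rintro _ _ ⟨f, C, rfl, hf⟩ ⟨g, D, rfl, hg⟩
    refine ⟨f * g, C + D, rfl, ?_⟩
    filter_upwards [hf, hg] with s h1 h2
    refine ⟨(H s).K.mul_mem h1.1 h2.1, ?_⟩
    have := (H s).mul _ h1.1 _ h2.1
    rw [add_mul]
    exact this.trans (add_le_add h1.2 h2.2)
  one_mem' := by
    refine ⟨1, 0, rfl, Filter.Eventually.of_forall fun s => ⟨(H s).K.one_mem, ?_⟩⟩
    rw [Pi.one_apply, (H s).one, zero_mul]
  add_mem' := by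
    rintro _ _ ⟨f, C, rfl, hf⟩ ⟨g, D, rfl, hg⟩
    refine ⟨f + g, C + D + 1, rfl, ?_⟩
    filter_upwards [hf, hg] with s h1 h2
    refine ⟨(H s).K.add_mem h1.1 h2.1, ?_⟩
    have := (H s).add _ h1.1 _ h2.1
    rw [add_mul, add_mul, one_mul]
    exact this.trans (add_le_add (add_le_add h1.2 h2.2) (hσ s))
  zero_mem' := by
    refine ⟨0, 0, rfl, Filter.Eventually.of_forall fun s => ⟨(H s).K.zero_mem, ?_⟩⟩
    rw [Pi.zero_apply, (H s).zero, zero_mul]
  neg_mem' := by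
    rintro _ ⟨f, C, rfl, hf⟩
    refine ⟨-f, C, rfl, ?_⟩
    filter_upwards [hf] with s h1
    exact ⟨(H s).K.neg_mem h1.1, ((H s).neg _ h1.1).trans h1.2⟩
  inv_mem' := by
    rintro _ ⟨f, C, rfl, hf⟩
    refine ⟨f⁻¹, C, rfl, ?_⟩
    filter_upwards [hf] with s h1
    exact ⟨(H s).K.inv_mem h1.1, ((H s).inv _ h1.1).trans h1.2⟩

theorem mem_GF {H : ℕ → HField} {σ : ℕ → ℝ} {hσ : ∀ s, 1 ≤ σ s} {a : Om} :
    a ∈ GF H σ hσ ↔ ∃ (f : ℕ → ℂ) (C : ℝ), a = cl f ∧
      AE fun s => f s ∈ (H s).K ∧ (H s).h (f s) ≤ C * σ s :=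
  Iff.rfl

/-- membership in terms of any representative -/
theorem cl_mem_GF {H : ℕ → HField} {σ : ℕ → ℝ} {hσ : ∀ s, 1 ≤ σ s} {f : ℕ → ℂ} :
    cl f ∈ GF H σ hσ ↔ ∃ C : ℝ, AE fun s => f s ∈ (H s).K ∧ (H s).h (f s) ≤ C * σ s := by
  constructor
  · rintro ⟨g, C, hfg, hg⟩
    have h : f =ᶠ[((Filter.hyperfilter ℕ : Ultrafilter ℕ) : Filter ℕ)] g :=
      Filter.Germ.coe_eq.1 hfg
    refine ⟨C, ?_⟩
    filter_upwards [hg, h] with s h1 h2
    rw [h2]
    exact h1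
  · rintro ⟨C, hC⟩
    exact ⟨f, C, rfl, hC⟩

theorem GF_mono {H : ℕ → HField} {σ σ' : ℕ → ℝ} {hσ : ∀ s, 1 ≤ σ s} {hσ' : ∀ s, 1 ≤ σ' s}
    (h : ∀ s, σ s ≤ σ' s) : GF H σ hσ ≤ GF H σ' hσ' := by
  rintro _ ⟨f, C, rfl, hf⟩
  refine ⟨f, |C|, rfl, ?_⟩
  filter_upwards [hf] with s h1
  refine ⟨h1.1, h1.2.trans ?_⟩
  have h2 := hσ s
  calc C * σ s ≤ |C| * σ s := mul_le_mul_of_nonneg_right (le_abs_self C) (by linarith)
    _ ≤ |C| * σ' s := mul_le_mul_of_nonneg_left (h s) (abs_nonneg C)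

theorem GF_closed {H : ℕ → HField} {σ σ' : ℕ → ℝ} {hσ : ∀ s, 1 ≤ σ s} {hσ' : ∀ s, 1 ≤ σ' s}
    (b : Om) (hb : b ∈ GF H σ' hσ') (p : Polynomial Om) (hp : p ≠ 0)
    (hpc : ∀ i, p.coeff i ∈ GF H σ hσ) (h0 : p.eval b = 0) : b ∈ GF H σ hσ := by
  classical
  set n := p.natDegree with hn
  have hl : p.leadingCoeff ≠ 0 := Polynomial.leadingCoeff_ne_zero.2 hp
  have ha : ∀ i : Fin n, -(p.coeff i / p.leadingCoeff) ∈ GF H σ hσ := fun i =>
    neg_mem (div_mem (hpc i) (hpc _))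
  have hrel : b ^ n = ∑ i : Fin n, -(p.coeff i / p.leadingCoeff) * b ^ (i : ℕ) := by
    rw [Polynomial.eval_eq_sum_range, Finset.sum_range_succ, ← hn] at h0
    have h1 : p.coeff n = p.leadingCoeff := rfl
    rw [h1] at h0
    have h2 : ∑ i : Fin n, -(p.coeff i / p.leadingCoeff) * b ^ (i : ℕ) =
        -((∑ i ∈ Finset.range n, p.coeff i * b ^ i) / p.leadingCoeff) := by
      rw [← Fin.sum_univ_eq_sum_range (fun i => p.coeff i * b ^ i), Finset.sum_div,
        ← Finset.sum_neg_distrib]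
      refine Finset.sum_congr rfl fun i _ => ?_
      ring
    rw [h2]
    field_simp
    linear_combination h0
  choose f C hf hfs using ha
  obtain ⟨β, D, rfl, hβ⟩ := hb
  have hrel' : AE fun s => β s ^ n = ∑ i : Fin n, f i s * β s ^ (i : ℕ) := by
    have h1 : cl (fun s => β s ^ n) = cl (fun s => ∑ i : Fin n, f i s * β s ^ (i : ℕ)) := by
      have e1 : cl (fun s => β s ^ n) = cl β ^ n := rfl
      rw [e1, hrel]
      have e2 : ∀ t : Finset (Fin n), cl (fun s => ∑ i ∈ t, f i s * β s ^ (i : ℕ)) =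
          ∑ i ∈ t, cl (f i) * cl β ^ (i : ℕ) := by
        intro t
        induction t using Finset.induction_on with
        | empty => rfl
        | insert i t hi ih =>
          rw [Finset.sum_insert hi, ← ih]
          simp only [Finset.sum_insert hi]
          rfl
      rw [e2]
      refine Finset.sum_congr rfl fun i _ => ?_
      rw [hf i]
    exact Filter.Germ.coe_eq.1 h1
  have hall : AE fun s => ∀ i : Fin n, f i s ∈ (H s).K ∧ (H s).h (f i s) ≤ C i * σ s :=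
    Filter.eventually_all.2 hfs
  refine ⟨β, n + ∑ i, C i, rfl, ?_⟩
  filter_upwards [hrel', hall, hβ] with s h1 h2 h3
  refine ⟨h3.1, ?_⟩
  have h4 := (H s).root n (fun i => f i s) (β s) (fun i => (h2 i).1) h3.1 h1
  have h5 : ∑ i, (H s).h (f i s) ≤ (∑ i, C i) * σ s := by
    rw [Finset.sum_mul]
    exact Finset.sum_le_sum fun i _ => (h2 i).2
  have h6 : (n : ℝ) ≤ n * σ s := le_mul_of_one_le_right (Nat.cast_nonneg n) (hσ s)
  calc (H s).h (β s) ≤ n + ∑ i, (H s).h (f i s) := h4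
    _ ≤ n * σ s + (∑ i, C i) * σ s := add_le_add h6 h5
    _ = (n + ∑ i, C i) * σ s := by ring

end Pool.Agent.Work.MP_e97a4d_nt.Chain
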