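import Pool.Agent.Work.MP_e97a4d_nt.ChDefs

/-!
Module ChJ (S-M, about 150 lines): basic properties of `JK`. Everything is elementary.

* `JK_mono`, `JK_le`, `eval_of_mem_JK`: `Submodule.span_mono`, `span_le`, `span_induction`.
* `JK_cw`: an element of the span is a finite sum `∑ c_j • u_j` with `u_j ∈ IK K D x`
  (`Submodule.span_induction` with the statement for all multiples, or `Submodule.mem_span_iff...`);
  `cw φ (c • u) = φ(c) • u` if the coefficients of `u` are in `K` (`φ` is `K`-linear).
* `totalDegree_sub_le`: write `f` as a sum of monomials; `sub g (monomial m c) = C c * ∏ ℓ_i ^ m_i`.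
* `coeff_sub_mem`: polynomials with coefficients in `L` form a subring (range of
  `MvPolynomial.map L.subtype`).
* `eval_sub`: both sides are algebra homomorphisms of `f` (`MvPolynomial.algHom_ext`).
* `sub_sub`: `sub g (sub h f) = sub (h * g) f`, `sub_one`.
* `sub_mem_JK` by `span_induction`; `mem_JK_iff` from it applied to `g` and `g⁻¹` (entries of
  `g⁻¹` are in `L`: `Matrix.inv_def`, adjugate, or: `L` is a field and `g` comes from a matrix over
  `L` by `Matrix.map`).
* `finrank_JK_sub`: `sub g` restricts to a linear equivalence.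
* `finrank_JK_le`: `JK ≤ restrictTotalDegree`, which has a basis indexed by exponents of degree
  `≤ D`, a subset of the functions `Fin k → Fin (D + 1)`.
-/

set_option autoImplicit false

noncomputable section

namespace Pool.Agent.Work.MP_e97a4d_nt.Chain

open MvPolynomial Module

variable {k : ℕ} {F : Type} [Field F]

theorem JK_mono {K L : Subfield F} (h : K ≤ L) (D : ℕ) (x : Fin k → F) :
    JK K D x ≤ JK L D x :=
  Submodule.span_mono fun _ hf => ⟨hf.1, fun m => h (hf.2.1 m), hf.2.2⟩

theorem JK_le (K : Subfield F) (D : ℕ) (x : Fin k → F) :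
    JK K D x ≤ restrictTotalDegree (Fin k) F D := by
  rw [JK, Submodule.span_le]
  intro f hf
  exact (mem_restrictTotalDegree _ _ _).mpr hf.1

theorem eval_of_mem_JK {K : Subfield F} {D : ℕ} {x : Fin k → F} {f : MvPolynomial (Fin k) F}
    (hf : f ∈ JK K D x) : eval x f = 0 := by
  unfold JK at hf
  induction hf using Submodule.span_induction with
  | mem f h => exact h.2.2
  | zero => exact map_zero _
  | add f g _ _ h1 h2 => rw [map_add, h1, h2, add_zero]
  | smul a f _ h1 => rw [smul_eval, h1, mul_zero]

private theorem cw_add (φ : F →+ F) (f g : MvPolynomial (Fin k) F) :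
    cw φ (f + g) = cw φ f + cw φ g := by
  ext m
  rw [coeff_cw, coeff_add, map_add, coeff_add, coeff_cw, coeff_cw]

/-- Coefficientwise application of a `K`-linear map preserves `JK K D x`. -/
theorem JK_cw {K : Subfield F} {D : ℕ} {x : Fin k → F} (φ : F →+ F)
    (hφ : ∀ a ∈ K, ∀ b, φ (a * b) = a * φ b) {f : MvPolynomial (Fin k) F}
    (hf : f ∈ JK K D x) : cw φ f ∈ JK K D x := by
  have key : ∀ a : F, cw φ (a • f) ∈ JK K D x := by
    unfold JK at hf
    induction hf using Submodule.span_induction with
    | mem u hu =>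
      intro a
      have h1 : cw φ (a • u) = φ a • u := by
        ext m
        rw [coeff_cw, coeff_smul, coeff_smul, smul_eq_mul, smul_eq_mul, mul_comm a,
          hφ _ (hu.2.1 m), mul_comm]
      rw [h1]
      exact Submodule.smul_mem _ _ (Submodule.subset_span hu)
    | zero =>
      intro a
      have h1 : cw φ (a • (0 : MvPolynomial (Fin k) F)) = 0 := by
        ext m
        rw [coeff_cw, smul_zero, coeff_zero, map_zero]
      rw [h1]
      exact Submodule.zero_mem _
    | add f g _ _ h1 h2 =>
      intro a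
      rw [smul_add, cw_add]
      exact Submodule.add_mem _ (h1 a) (h2 a)
    | smul b f _ h1 =>
      intro a
      rw [smul_smul]
      exact h1 _
  have h1 := key 1
  rwa [one_smul] at h1

private theorem sub_eq (g : Matrix (Fin k) (Fin k) F) (f : MvPolynomial (Fin k) F) :
    sub g f = ∑ d ∈ f.support, C (f.coeff d) *
      ∏ i, (∑ j, C (g i j) * MvPolynomial.X j) ^ d i := by
  unfold sub
  rw [aeval_def, eval₂_eq']
  rfl

theorem totalDegree_sub_le (g : Matrix (Fin k) (Fin k) F) (f : MvPolynomial (Fin k) F) :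
    (sub g f).totalDegree ≤ f.totalDegree := by
  rw [sub_eq]
  refine (totalDegree_finsetSum _ _).trans (Finset.sup_le fun d hd => ?_)
  refine (totalDegree_mul _ _).trans ?_
  rw [totalDegree_C, zero_add]
  refine (totalDegree_finsetProd _ _).trans ?_
  have h1 : ∀ i : Fin k, ((∑ j, C (g i j) * MvPolynomial.X j : MvPolynomial (Fin k) F) ^
      d i).totalDegree ≤ d i := by
    intro i
    refine (totalDegree_pow _ _).trans ?_
    have h2 : (∑ j, C (g i j) * MvPolynomial.X j : MvPolynomial (Fin k) F).totalDegree ≤ 1 := by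
      refine (totalDegree_finsetSum _ _).trans (Finset.sup_le fun j _ => ?_)
      refine (totalDegree_mul _ _).trans ?_
      rw [totalDegree_C, zero_add]
      exact (totalDegree_X (R := F) j).le
    calc d i * _ ≤ d i * 1 := Nat.mul_le_mul_left _ h2
      _ = d i := mul_one _
  refine (Finset.sum_le_sum fun i _ => h1 i).trans ?_
  have h3 := le_totalDegree hd
  rw [Finsupp.sum_fintype _ _ (fun _ => rfl)] at h3
  exact h3

/-- the polynomials with coefficients in `L` -/
private def coefRing (L : Subfield F) : Subring (MvPolynomial (Fin k) F) where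
  carrier := {f | ∀ m, f.coeff m ∈ L}
  mul_mem' := by
    intro a b ha hb m
    rw [coeff_mul]
    exact L.sum_mem fun x _ => L.mul_mem (ha _) (hb _)
  one_mem' := by
    intro m
    rw [coeff_one]
    split_ifs
    · exact L.one_mem
    · exact L.zero_mem
  add_mem' := by
    intro a b ha hb m
    rw [coeff_add]
    exact L.add_mem (ha _) (hb _)
  zero_mem' := by
    intro m
    rw [coeff_zero]
    exact L.zero_mem
  neg_mem' := by
    intro a ha m
    rw [coeff_neg]
    exact L.neg_mem (ha _)

theorem coeff_sub_mem {L : Subfield F} {g : Matrix (Fin k) (Fin k) F} (hg : ∀ i j, g i j ∈ L)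
    {f : MvPolynomial (Fin k) F} (hf : ∀ m, f.coeff m ∈ L) (m : Fin k →₀ ℕ) :
    (sub g f).coeff m ∈ L := by
  have hC : ∀ a ∈ L, (C a : MvPolynomial (Fin k) F) ∈ coefRing L := by
    intro a ha m
    rw [coeff_C]
    split_ifs
    · exact ha
    · exact L.zero_mem
  have hX : ∀ j, (MvPolynomial.X j : MvPolynomial (Fin k) F) ∈ coefRing L := by
    intro j m
    rw [coeff_X]
    split_ifs
    · exact L.one_mem
    · exact L.zero_mem
  have h1 : sub g f ∈ coefRing L := by
    rw [sub_eq]
    refine Subring.sum_mem _ fun d _ => Subring.mul_mem _ (hC _ (hf d)) ?_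
    refine Subring.prod_mem _ fun i _ => Subring.pow_mem _ ?_ _
    exact Subring.sum_mem _ fun j _ => Subring.mul_mem _ (hC _ (hg i j)) (hX j)
  exact h1 m

theorem eval_sub (g : Matrix (Fin k) (Fin k) F) (x : Fin k → F) (f : MvPolynomial (Fin k) F) :
    eval x (sub g f) = eval (g.mulVec x) f := by
  induction f using MvPolynomial.induction_on with
  | C a =>
    rw [sub, aeval_C]
    simp [algebraMap_eq]
  | add p q hp hq => rw [map_add, map_add, hp, hq, map_add]
  | mul_X p i hp =>
    rw [map_mul, map_mul, hp, map_mul, eval_X]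
    congr 1
    rw [sub, aeval_X, map_sum]
    simp only [map_mul, eval_C, eval_X]
    rfl

theorem sub_sub (g h : Matrix (Fin k) (Fin k) F) (f : MvPolynomial (Fin k) F) :
    sub g (sub h f) = sub (h * g) f := by
  induction f using MvPolynomial.induction_on with
  | C a =>
    simp only [sub, aeval_C, algebraMap_eq]
  | add p q hp hq => rw [map_add, map_add, hp, hq, map_add]
  | mul_X p i hp =>
    rw [map_mul, map_mul, hp, map_mul]
    congr 1
    have h1 : ∀ (M : Matrix (Fin k) (Fin k) F) (i : Fin k),
        sub M (MvPolynomial.X i) = ∑ j, C (M i j) * MvPolynomial.X j := fun M i => by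
      rw [sub, aeval_X]
    have h2 : ∀ (M : Matrix (Fin k) (Fin k) F) (a : F), sub M (C a) = C a := fun M a => by
      simp only [sub, aeval_C, algebraMap_eq]
    rw [h1, h1, map_sum]
    simp only [map_mul, h1, h2, Matrix.mul_apply, map_sum, Finset.sum_mul, Finset.mul_sum]
    rw [Finset.sum_comm]
    refine Finset.sum_congr rfl fun j _ => Finset.sum_congr rfl fun l _ => ?_
    ring

theorem sub_one (f : MvPolynomial (Fin k) F) : sub (1 : Matrix (Fin k) (Fin k) F) f = f := by
  induction f using MvPolynomial.induction_on with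
  | C a =>
    simp only [sub, aeval_C, algebraMap_eq]
  | add p q hp hq => rw [map_add, hp, hq]
  | mul_X p i hp =>
    rw [map_mul, hp]
    congr 1
    rw [sub, aeval_X, Finset.sum_eq_single i]
    · simp
    · intro j _ hj
      rw [Matrix.one_apply_ne' hj]
      simp
    · simp

private theorem det_mem {L : Subfield F} {M : Matrix (Fin k) (Fin k) F}
    (hM : ∀ i j, M i j ∈ L) : M.det ∈ L := by
  rw [Matrix.det_apply]
  refine L.sum_mem fun σ _ => ?_
  have h1 : ∏ i, M (σ i) i ∈ L := L.prod_mem fun i _ => hM _ _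
  rcases Int.units_eq_one_or (Equiv.Perm.sign σ) with h | h
  · rw [h, one_smul]
    exact h1
  · rw [h, Units.neg_smul, one_smul]
    exact L.neg_mem h1

theorem inv_mem {L : Subfield F} {g : Matrix (Fin k) (Fin k) F} (hg : ∀ i j, g i j ∈ L)
    (i j : Fin k) : g⁻¹ i j ∈ L := by
  rw [Matrix.inv_def, Matrix.smul_apply, smul_eq_mul, Ring.inverse_eq_inv']
  refine L.mul_mem (L.inv_mem (det_mem hg)) ?_
  rw [Matrix.adjugate_apply]
  refine det_mem fun a b => ?_
  rw [Matrix.updateRow_apply]
  split_ifs
  · rw [Pi.single_apply]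
    split_ifs
    · exact L.one_mem
    · exact L.zero_mem
  · exact hg a b

private theorem sub_mem_JK {L : Subfield F} {D : ℕ} {g : Matrix (Fin k) (Fin k) F}
    (hg : ∀ i j, g i j ∈ L) (x : Fin k → F)
    (f : MvPolynomial (Fin k) F) (hf : f ∈ JK L D (g.mulVec x)) : sub g f ∈ JK L D x := by
  unfold JK at hf
  induction hf using Submodule.span_induction with
  | mem u hu =>
    refine Submodule.subset_span ⟨(totalDegree_sub_le g u).trans hu.1,
      coeff_sub_mem hg hu.2.1, ?_⟩
    rw [eval_sub]
    exact hu.2.2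
  | zero =>
    rw [map_zero]
    exact Submodule.zero_mem _
  | add f g _ _ h1 h2 =>
    rw [map_add]
    exact Submodule.add_mem _ h1 h2
  | smul a f _ h1 =>
    rw [map_smul]
    exact Submodule.smul_mem _ _ h1

theorem mem_JK_iff {L : Subfield F} {D : ℕ} {g : Matrix (Fin k) (Fin k) F}
    (hg : ∀ i j, g i j ∈ L) (hdet : IsUnit g.det) (x : Fin k → F)
    (f : MvPolynomial (Fin k) F) : f ∈ JK L D (g.mulVec x) ↔ sub g f ∈ JK L D x := by
  refine ⟨sub_mem_JK hg x f, fun h => ?_⟩
  have h1 : x = g⁻¹.mulVec (g.mulVec x) := by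
    rw [Matrix.mulVec_mulVec, Matrix.nonsing_inv_mul g hdet, Matrix.one_mulVec]
  rw [h1] at h
  have h2 := sub_mem_JK (fun i j => inv_mem hg i j) (g.mulVec x) (sub g f) h
  rwa [sub_sub, Matrix.mul_nonsing_inv g hdet, sub_one] at h2

/-- the coefficients of a polynomial of degree at most `D` -/
private def coefMap (D : ℕ) : MvPolynomial (Fin k) F →ₗ[F] ((Fin k → Fin (D + 1)) → F) where
  toFun f := fun e => f.coeff (Finsupp.equivFunOnFinite.symm fun i => (e i : ℕ))
  map_add' _ _ := by
    funext e
    simp
  map_smul' _ _ := by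
    funext e
    simp

private theorem coefMap_inj (D : ℕ) (f : MvPolynomial (Fin k) F) (hf : f.totalDegree ≤ D)
    (h : coefMap D f = 0) : f = 0 := by
  ext m
  rw [coeff_zero]
  by_contra hm
  have h1 : m ∈ f.support := mem_support_iff.mpr hm
  have h2 := le_totalDegree h1
  rw [Finsupp.sum_fintype _ _ (fun _ => rfl)] at h2
  have h3 : ∀ i, m i < D + 1 := by
    intro i
    have h4 : m i ≤ ∑ i, m i := Finset.single_le_sum (f := fun i => m i) (fun _ _ => Nat.zero_le _)
      (Finset.mem_univ i)
    have h5 : ∑ i, m i ≤ f.totalDegree := h2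
    omega
  have h4 := congrFun h (fun i => ⟨m i, h3 i⟩)
  apply hm
  have h5 : (Finsupp.equivFunOnFinite.symm fun i => m i) = m := by
    ext i
    rfl
  have h6 : coefMap D f (fun i => ⟨m i, h3 i⟩) =
      f.coeff (Finsupp.equivFunOnFinite.symm fun i => m i) := rfl
  rw [h6, h5] at h4
  exact h4

private theorem coefMap_JK_inj (K : Subfield F) (D : ℕ) (x : Fin k → F) :
    Function.Injective ((coefMap D).comp (JK K D x).subtype) := by
  rw [injective_iff_map_eq_zero]
  rintro ⟨f, hf⟩ h
  have h1 := (mem_restrictTotalDegree _ _ _).mp (JK_le K D x hf)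
  exact Subtype.ext (coefMap_inj D f h1 h)

instance finite_JK (K : Subfield F) (D : ℕ) (x : Fin k → F) : Module.Finite F (JK K D x) :=
  Module.Finite.of_injective _ (coefMap_JK_inj K D x)

private theorem finrank_le {L : Subfield F} {D : ℕ} {g : Matrix (Fin k) (Fin k) F}
    (hg : ∀ i j, g i j ∈ L) (hdet : IsUnit g.det) (x : Fin k → F) :
    finrank F (JK L D (g.mulVec x)) ≤ finrank F (JK L D x) := by
  have h1 : ∀ f ∈ JK L D (g.mulVec x), (sub g).toLinearMap f ∈ JK L D x :=
    fun f hf => sub_mem_JK hg x f hf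
  refine LinearMap.finrank_le_finrank_of_injective (f := (sub g).toLinearMap.restrict h1) ?_
  rw [injective_iff_map_eq_zero]
  rintro ⟨f, hf⟩ h
  have h2 : sub g f = 0 := congrArg Subtype.val h
  have h3 : sub g⁻¹ (sub g f) = f := by
    rw [sub_sub, Matrix.mul_nonsing_inv g hdet, sub_one]
  rw [h2, map_zero] at h3
  exact Subtype.ext h3.symm

theorem finrank_JK_sub {L : Subfield F} {D : ℕ} {g : Matrix (Fin k) (Fin k) F}
    (hg : ∀ i j, g i j ∈ L) (hdet : IsUnit g.det) (x : Fin k → F) :
    finrank F (JK L D (g.mulVec x)) = finrank F (JK L D x) := by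
  refine le_antisymm (finrank_le hg hdet x) ?_
  have h1 : x = g⁻¹.mulVec (g.mulVec x) := by
    rw [Matrix.mulVec_mulVec, Matrix.nonsing_inv_mul g hdet, Matrix.one_mulVec]
  have h2 : IsUnit (g⁻¹).det := by
    rw [Matrix.isUnit_nonsing_inv_det_iff]
    exact hdet
  have h3 := finrank_le (D := D) (fun i j => inv_mem hg i j) h2 (g.mulVec x)
  rwa [← h1] at h3

theorem finrank_JK_le (K : Subfield F) (D : ℕ) (x : Fin k → F) :
    finrank F (JK K D x) ≤ (D + 1) ^ k := by
  refine (LinearMap.finrank_le_finrank_of_injective (coefMap_JK_inj K D x)).trans ?_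
  rw [Module.finrank_fintype_fun_eq_card]
  simp

end Pool.Agent.Work.MP_e97a4d_nt.Chain
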