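import Pool.Agent.Work.MP_e97a4d_nt.ChFix
import Pool.Agent.Work.MP_e97a4d_nt.CurveLemma
import Pool.Agent.Work.MP_e97a4d_nt.SIntDed

set_option autoImplicit false

noncomputable section

/-!
Rings of `S`-integers and Laurent polynomials over them, for the converse of the chain displacement
theorem.
-/

namespace Pool.Agent.Work.MP_e97a4d_nt.Chain

open AlgebraicGeometry CategoryTheory NumberField IsDedekindDomain

/-- A nonzero Laurent polynomial over a field has finitely many roots. -/
theorem laurent_finite_roots' {L : Type*} [Field L] (f : LaurentPolynomial L) (hf : f ≠ 0) :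
    {u : Lˣ | evL u f = 0}.Finite := by
  obtain ⟨n, f', hf'⟩ := LaurentPolynomial.exists_T_pow f
  have hf'0 : f' ≠ 0 := by
    rintro rfl
    rw [map_zero] at hf'
    have : f * LaurentPolynomial.T (n : ℤ) * LaurentPolynomial.T (-(n : ℤ)) = 0 := by
      rw [← hf', zero_mul]
    rw [LaurentPolynomial.mul_T_assoc] at this
    simp at this
    exact hf this
  refine ((Polynomial.rootSet_finite f' L).preimage (f := fun u : Lˣ => (u : L))
    (Units.val_injective.injOn)).subset ?_
  intro u hu
  have hu' : evL u f = 0 := hu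
  show (u : L) ∈ f'.rootSet L
  rw [Polynomial.mem_rootSet]
  refine ⟨hf'0, ?_⟩
  have h1 : evL u (Polynomial.toLaurent f') = 0 := by
    rw [hf', map_mul, hu', zero_mul]
  rw [evL, LaurentPolynomial.eval₂_toLaurent] at h1
  rw [Polynomial.aeval_def]
  simpa using h1

variable (F : Type) [Field F] [NumberField F] (S : Finset (HeightOneSpectrum (𝓞 F)))

/-- homomorphisms from the ring of `S`-integers to `ℂ` are injective -/
theorem sint_hom_injective (θ : SInt F S →+* ℂ) : Function.Injective θ := by
  rw [injective_iff_map_eq_zero]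
  intro a ha
  by_contra ha0
  have hF : (a : F) ≠ 0 := fun h => ha0 (Subtype.ext h)
  have halg : IsAlgebraic ℤ (a : F) := by
    have h1 : IsAlgebraic ℚ (a : F) := Algebra.IsAlgebraic.isAlgebraic _
    exact (IsFractionRing.isAlgebraic_iff ℤ ℚ F).2 h1
  obtain ⟨q, hq0, hq⟩ := halg.exists_nonzero_coeff_and_aeval_eq_zero
    (mem_nonZeroDivisors_of_ne_zero hF)
  have h2 : Polynomial.aeval a q = 0 := by
    apply Subtype.ext
    have : ((Polynomial.aeval a q : SInt F S) : F) = Polynomial.aeval (a : F) q := by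
      have := Polynomial.hom_eval₂ q (algebraMap ℤ (SInt F S)) (algebraMap (SInt F S) F) a
      rw [Polynomial.aeval_def, Polynomial.aeval_def]
      have e : (algebraMap (SInt F S) F).comp (algebraMap ℤ (SInt F S)) = algebraMap ℤ F :=
        RingHom.ext_int _ _
      rw [e] at this
      exact this
    rw [this, hq]
    rfl
  have h3 := congrArg θ h2
  rw [map_zero, Polynomial.aeval_def, Polynomial.hom_eval₂, ha] at h3
  have h4 : Polynomial.eval₂ (θ.comp (algebraMap ℤ (SInt F S))) 0 q = ((q.coeff 0 : ℤ) : ℂ) := by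
    rw [Polynomial.eval₂_at_zero]
    simp
  rw [h4] at h3
  exact hq0 (by exact_mod_cast h3)

instance : IsFractionRing (SInt F S) F := by
  obtain ⟨a, ha0, ha⟩ := Vp.exists_away F S
  exact IsFractionRing.isFractionRing_of_isDomain_of_isLocalization (Submonoid.powers a)
    (SInt F S) F

/-- extension to the field -/
theorem exists_extend (θ : SInt F S →+* ℂ) :
    ∃ τ : F →+* ℂ, τ.comp (algebraMap (SInt F S) F) = θ := by
  refine ⟨IsFractionRing.lift (sint_hom_injective F S θ), ?_⟩
  ext a
  exact IsFractionRing.lift_algebraMap (sint_hom_injective F S θ) a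

theorem finite_sint_hom : (Set.univ : Set (SInt F S →+* ℂ)).Finite := by
  have h1 : Function.Surjective (fun τ : F →+* ℂ => τ.comp (algebraMap (SInt F S) F)) :=
    fun θ => exists_extend F S θ
  have : Finite (SInt F S →+* ℂ) := Finite.of_surjective _ h1
  exact Set.toFinite _

/-- the ring of `S`-integers is of finite type over the integers of the base field -/
theorem finiteType_structHom (F₀ : Type) [Field F₀] [Algebra F₀ F] :
    (structHom F₀ F S).FiniteType := by
  obtain ⟨a, ha0, ha⟩ := Vp.exists_away F S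
  have h1 : (algebraMap ℤ (𝓞 F)).FiniteType := by
    rw [RingHom.finiteType_algebraMap]
    infer_instance
  have h2 : (algebraMap (𝓞 F) (SInt F S)).FiniteType := by
    rw [RingHom.finiteType_algebraMap]
    exact IsLocalization.finiteType_of_monoid_fg (Submonoid.powers a) (SInt F S)
  have h3 := h2.comp h1
  have h4 : (algebraMap (𝓞 F) (SInt F S)).comp (algebraMap ℤ (𝓞 F)) =
      (structHom F₀ F S).comp (algebraMap ℤ (𝓞 F₀)) := RingHom.ext_int _ _
  rw [h4] at h3
  exact RingHom.FiniteType.of_comp_finiteType h3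

/-- A family over a number field is defined over a ring of `S`-integers. -/
theorem exists_integral_family (F₀ : Type) [Field F₀] [Algebra F₀ F]
    {B : Type} [CommRing B] [Algebra (𝓞 F₀) B] [hfg : Algebra.FiniteType (𝓞 F₀) B]
    (ψ : B →+* LaurentPolynomial F)
    (hψ : ∀ b : 𝓞 F₀, ψ (algebraMap _ _ b) = LaurentPolynomial.C (algebraMap F₀ F b)) :
    ∃ (S : Finset (HeightOneSpectrum (𝓞 F))) (ψ₁ : B →+* LaurentPolynomial (SInt F S)),
      (∀ b : 𝓞 F₀, ψ₁ (algebraMap _ _ b) = LaurentPolynomial.C (structHom F₀ F S b)) ∧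
      ∀ a, AddMonoidAlgebra.mapRingHom ℤ (algebraMap (SInt F S) F) (ψ₁ a) = ψ a := by
  classical
  obtain ⟨G, hG⟩ := hfg.out
  let T : Finset F := G.biUnion fun g => (ψ g).coeff.support.image fun n => (ψ g).coeff n
  obtain ⟨S, hS⟩ := exists_finset_SInt F T
  refine ⟨S, ?_⟩
  let ι : LaurentPolynomial (SInt F S) →+* LaurentPolynomial F :=
    AddMonoidAlgebra.mapRingHom ℤ (algebraMap (SInt F S) F)
  have hι : Function.Injective ι := mapRingHom_injective' _ (fun a b h => Subtype.ext h)
  have hCalg : ∀ b : 𝓞 F₀, ι (LaurentPolynomial.C (structHom F₀ F S b)) =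
      LaurentPolynomial.C (algebraMap F₀ F b) := by
    intro b
    ext n
    rw [AddMonoidAlgebra.coeff_mapRingHom]
    simp only [LaurentPolynomial.C_apply]
    split_ifs
    · rfl
    · simp
  have hrange : ∀ a, ψ a ∈ ι.range := by
    intro a
    have : a ∈ Algebra.adjoin (𝓞 F₀) (G : Set B) := by rw [hG]; trivial
    induction this using Algebra.adjoin_induction with
    | mem g hg =>
      refine mem_range_map_of_coeff _ _ fun n => ?_
      by_cases hn : n ∈ (ψ g).coeff.support
      · refine ⟨⟨(ψ g).coeff n, hS _ ?_⟩, rfl⟩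
        exact Finset.mem_biUnion.2 ⟨g, hg, Finset.mem_image.2 ⟨n, hn, rfl⟩⟩
      · refine ⟨0, ?_⟩
        rw [map_zero]
        simpa using (Finsupp.notMem_support_iff.1 hn).symm
    | algebraMap b =>
      rw [hψ, ← hCalg]
      exact ⟨_, rfl⟩
    | add x y _ _ hx hy => rw [map_add]; exact Subring.add_mem _ hx hy
    | mul x y _ _ hx hy => rw [map_mul]; exact Subring.mul_mem _ hx hy
  obtain ⟨ψ₁, hψ₁⟩ := exists_lift_of_range ι hι ψ hrange
  have hψ₁' : ∀ a, ι (ψ₁ a) = ψ a := fun a => RingHom.congr_fun hψ₁ a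
  refine ⟨ψ₁, fun b => hι ?_, hψ₁'⟩
  rw [hψ₁', hψ, hCalg]

/-- Generators of the ring of Laurent polynomials. -/
theorem exists_gens (F₀ : Type) [Field F₀] [Algebra F₀ F] :
    ∃ (r : ℕ) (s : Fin r → SInt F S), Function.Surjective
      (MvPolynomial.eval₂Hom ((LaurentPolynomial.C : SInt F S →+* _).comp (structHom F₀ F S))
        (Fin.append ![(LaurentPolynomial.T 1 : LaurentPolynomial (SInt F S)),
          LaurentPolynomial.T (-1)] (fun a => LaurentPolynomial.C (s a)))) := by
  obtain ⟨r, s, hs⟩ : ∃ (r : ℕ) (s : Fin r → SInt F S), Function.Surjective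
      (MvPolynomial.eval₂Hom (structHom F₀ F S) s) := by
    let _ : Algebra (𝓞 F₀) (SInt F S) := (structHom F₀ F S).toAlgebra
    have h1 : Algebra.FiniteType (𝓞 F₀) (SInt F S) := finiteType_structHom F S F₀
    obtain ⟨n, f, hf⟩ := Algebra.FiniteType.iff_quotient_mvPolynomial''.1 h1
    refine ⟨n, fun k => f (MvPolynomial.X k), ?_⟩
    have h1 : (MvPolynomial.aeval (fun k : Fin n => f (MvPolynomial.X k)) :
        MvPolynomial (Fin n) (𝓞 F₀) →ₐ[𝓞 F₀] SInt F S) = f := by
      apply MvPolynomial.algHom_ext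
      intro k
      simp
    have h2 : Function.Surjective (MvPolynomial.aeval (fun k : Fin n => f (MvPolynomial.X k)) :
        MvPolynomial (Fin n) (𝓞 F₀) →ₐ[𝓞 F₀] SInt F S) := by rw [h1]; exact hf
    exact h2
  refine ⟨r, s, ?_⟩
  set t : Fin (2 + r) → LaurentPolynomial (SInt F S) :=
    Fin.append ![(LaurentPolynomial.T 1 : LaurentPolynomial (SInt F S)),
          LaurentPolynomial.T (-1)] (fun a => LaurentPolynomial.C (s a)) with ht
  set Φ := MvPolynomial.eval₂Hom
    ((LaurentPolynomial.C : SInt F S →+* _).comp (structHom F₀ F S)) t with hΦ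
  have hX : ∀ a, t a ∈ Φ.range := fun a => ⟨MvPolynomial.X a, by rw [hΦ, MvPolynomial.eval₂Hom_X']⟩
  have hT1 : (LaurentPolynomial.T 1 : LaurentPolynomial (SInt F S)) ∈ Φ.range := by
    have := hX (Fin.castAdd r 0)
    rw [ht, Fin.append_left] at this
    exact this
  have hT2 : (LaurentPolynomial.T (-1) : LaurentPolynomial (SInt F S)) ∈ Φ.range := by
    have := hX (Fin.castAdd r 1)
    rw [ht, Fin.append_left] at this
    exact this
  have hTn : ∀ n : ℤ, (LaurentPolynomial.T n : LaurentPolynomial (SInt F S)) ∈ Φ.range := by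
    intro n
    rcases Int.le_total 0 n with h | h
    · obtain ⟨m, rfl⟩ := Int.eq_ofNat_of_zero_le h
      have := Subring.pow_mem _ hT1 m
      rw [LaurentPolynomial.T_pow] at this
      simpa using this
    · obtain ⟨m, hm⟩ := Int.eq_ofNat_of_zero_le (a := -n) (by omega)
      have := Subring.pow_mem _ hT2 m
      rw [LaurentPolynomial.T_pow] at this
      have e : (m : ℤ) * -1 = n := by omega
      rwa [e] at this
  have hC : ∀ x : SInt F S, (LaurentPolynomial.C x : LaurentPolynomial (SInt F S)) ∈ Φ.range := by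
    intro x
    obtain ⟨f, rfl⟩ := hs x
    induction f using MvPolynomial.induction_on with
    | C a =>
      refine ⟨MvPolynomial.C a, ?_⟩
      rw [hΦ, MvPolynomial.eval₂Hom_C, MvPolynomial.eval₂Hom_C]
      rfl
    | add p q hp hq =>
      rw [map_add, map_add]
      exact Subring.add_mem _ hp hq
    | mul_X p a hp =>
      rw [map_mul, map_mul]
      refine Subring.mul_mem _ hp ?_
      rw [MvPolynomial.eval₂Hom_X']
      have := hX (Fin.natAdd 2 a)
      rw [ht, Fin.append_right] at this
      exact this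
  intro X
  have : X ∈ Φ.range := by
    induction X using LaurentPolynomial.induction_on' with
    | add p q hp hq => exact Subring.add_mem _ hp hq
    | C_mul_T n a => exact Subring.mul_mem _ (hC a) (hTn n)
  exact this

end Pool.Agent.Work.MP_e97a4d_nt.Chain
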