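import Pool.Agent.Work.MP_e97a4d_nt.ChJ

/-!
Module ChVf (M, about 120 lines): the vector field of `φ(g) g⁻¹` preserves `JK K D (g x)`.

`φ : F → F` is additive, `K`-linear and satisfies the Leibniz rule on `L`.

* `cw_mul`: for polynomials `P`, `Q` with coefficients in `L`,
  `cw φ (P * Q) = cw φ P * Q + P * cw φ Q` (compare coefficients: `coeff_mul`, `coeff_cw`).
* `cw_sub`: for `f` with coefficients in `K` (`φ` kills `K`, as `φ (a * 1) = a * φ 1` and
  `φ 1 = φ (1 * 1) = 2 φ 1`), with `X = (g.map φ) * g⁻¹`: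
  `cw φ (sub g f) = sub g (vf X f)`.  Induction over `f = map K.subtype f'`: constants, sums, and
  multiplication by `X_i` (`cw_mul`, `Derivation.leibniz`); for `f = X_i`:
  `cw φ (∑ g_ij X_j) = ∑ φ(g_ij) X_j = sub g (∑_l X_il X_l)` because `X * g = g.map φ`.
* `vf_stable`: for `f ∈ IK K D x'` (`x' = g x`): `sub g f ∈ JK L D x = JK K D x`, so
  `cw φ (sub g f) ∈ JK K D x ≤ JK L D x` (`JK_cw`, `JK_mono`), i.e. `sub g (vf X f) ∈ JK L D x`,
  `vf X f ∈ JK L D x' = JK K D x'` (`mem_JK_iff`). Then `span_induction` (`vf X` is linear).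
-/

set_option autoImplicit false

noncomputable section

namespace Pool.Agent.Work.MP_e97a4d_nt.Chain

open MvPolynomial Module

variable {k : ℕ} {F : Type} [Field F]

theorem cw_mul {L : Subfield F} (φ : F →+ F)
    (hφL : ∀ a ∈ L, ∀ c ∈ L, φ (a * c) = a * φ c + c * φ a) {P Q : MvPolynomial (Fin k) F}
    (hP : ∀ m, P.coeff m ∈ L) (hQ : ∀ m, Q.coeff m ∈ L) :
    cw φ (P * Q) = cw φ P * Q + P * cw φ Q := by
  classical
  ext m
  rw [coeff_cw, coeff_add, coeff_mul, coeff_mul, coeff_mul, map_sum, ← Finset.sum_add_distrib]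
  refine Finset.sum_congr rfl fun x _ => ?_
  rw [hφL _ (hP _) _ (hQ _), coeff_cw, coeff_cw]
  ring

private theorem cw_add' (φ : F →+ F) (f g : MvPolynomial (Fin k) F) :
    cw φ (f + g) = cw φ f + cw φ g := by
  ext m
  rw [coeff_cw, coeff_add, map_add, coeff_add, coeff_cw, coeff_cw]

private theorem cw_zero' (φ : F →+ F) : cw φ (0 : MvPolynomial (Fin k) F) = 0 := by
  ext m
  rw [coeff_cw, coeff_zero, map_zero]

private theorem cw_sum' {ι : Type} (φ : F →+ F) (s : Finset ι)
    (f : ι → MvPolynomial (Fin k) F) : cw φ (∑ i ∈ s, f i) = ∑ i ∈ s, cw φ (f i) := by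
  classical
  induction s using Finset.induction_on with
  | empty => rw [Finset.sum_empty, Finset.sum_empty, cw_zero']
  | insert a s ha ih => rw [Finset.sum_insert ha, Finset.sum_insert ha, cw_add', ih]

private theorem cw_smulK {K : Subfield F} (φ : F →+ F)
    (hφK : ∀ a ∈ K, ∀ b, φ (a * b) = a * φ b) {a : F} (ha : a ∈ K)
    (f : MvPolynomial (Fin k) F) : cw φ (a • f) = a • cw φ f := by
  ext m
  rw [coeff_cw, coeff_smul, coeff_smul, coeff_cw, smul_eq_mul, smul_eq_mul, hφK a ha]

private theorem cw_CX (φ : F →+ F) (a : F) (j : Fin k) :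
    cw φ (C a * MvPolynomial.X j) = C (φ a) * MvPolynomial.X j := by
  classical
  ext m
  rw [coeff_cw, coeff_C_mul, coeff_C_mul, coeff_X]
  split_ifs <;> simp

private theorem sub_X (g : Matrix (Fin k) (Fin k) F) (i : Fin k) :
    sub g (MvPolynomial.X i) = ∑ j, C (g i j) * MvPolynomial.X j := by
  rw [sub, aeval_X]

private theorem sub_C (g : Matrix (Fin k) (Fin k) F) (a : F) : sub g (C a) = C a := by
  simp only [sub, aeval_C, algebraMap_eq]

private theorem vf_X (X : Matrix (Fin k) (Fin k) F) (i : Fin k) :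
    vf X (MvPolynomial.X i) = ∑ j, C (X i j) * MvPolynomial.X j := by
  rw [vf, mkDerivation_X]

theorem cw_sub {K L : Subfield F} (hKL : K ≤ L) (φ : F →+ F)
    (hφK : ∀ a ∈ K, ∀ b, φ (a * b) = a * φ b)
    (hφL : ∀ a ∈ L, ∀ c ∈ L, φ (a * c) = a * φ c + c * φ a)
    {g : Matrix (Fin k) (Fin k) F} (hg : ∀ i j, g i j ∈ L) (hdet : IsUnit g.det)
    {f : MvPolynomial (Fin k) F} (hf : ∀ m, f.coeff m ∈ K) :
    cw φ (sub g f) = sub g (vf (g.map φ * g⁻¹) f) := by
  classical
  set X := g.map φ * g⁻¹ with hX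
  have hXg : X * g = g.map φ := by
    rw [hX, Matrix.mul_assoc, Matrix.nonsing_inv_mul g hdet, Matrix.mul_one]
  have hφ1 : φ 1 = 0 := by
    have h1 := hφL 1 L.one_mem 1 L.one_mem
    rw [mul_one, one_mul] at h1
    exact left_eq_add.mp h1
  let GP : MvPolynomial (Fin k) F → Prop := fun u =>
    (∀ m, u.coeff m ∈ L) ∧ cw φ (sub g u) = sub g (vf X u)
  have hone : GP 1 := by
    refine ⟨fun m => ?_, ?_⟩
    · rw [coeff_one]
      split_ifs
      · exact L.one_mem
      · exact L.zero_mem
    · rw [map_one, Derivation.map_one_eq_zero, map_zero]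
      ext m
      rw [coeff_cw, coeff_one, coeff_zero]
      split_ifs
      · exact hφ1
      · exact map_zero φ
  have hmul : ∀ u v, GP u → GP v → GP (u * v) := by
    rintro u v ⟨hu1, hu2⟩ ⟨hv1, hv2⟩
    refine ⟨fun m => ?_, ?_⟩
    · rw [coeff_mul]
      exact L.sum_mem fun x _ => L.mul_mem (hu1 _) (hv1 _)
    · rw [map_mul, cw_mul φ hφL (coeff_sub_mem hg hu1) (coeff_sub_mem hg hv1), hu2, hv2,
        Derivation.leibniz, map_add, smul_eq_mul, smul_eq_mul, map_mul, map_mul]
      ring
  have hXi : ∀ i, GP (MvPolynomial.X i) := by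
    intro i
    refine ⟨fun m => ?_, ?_⟩
    · rw [coeff_X]
      split_ifs
      · exact L.one_mem
      · exact L.zero_mem
    · rw [sub_X, cw_sum', vf_X, map_sum]
      have h1 : ∀ j, sub g (C (X i j) * MvPolynomial.X j) =
          ∑ l, C (X i j * g j l) * MvPolynomial.X l := by
        intro j
        rw [map_mul, sub_C, sub_X, Finset.mul_sum]
        refine Finset.sum_congr rfl fun l _ => ?_
        rw [C_mul, mul_assoc]
      simp only [h1]
      rw [Finset.sum_comm]
      refine Finset.sum_congr rfl fun l _ => ?_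
      rw [cw_CX, ← Finset.sum_mul, ← map_sum]
      congr 2
      have h2 := congrFun (congrFun hXg i) l
      rw [Matrix.mul_apply, Matrix.map_apply] at h2
      exact h2.symm
  have hpow : ∀ i n, GP (MvPolynomial.X i ^ n) := by
    intro i n
    induction n with
    | zero =>
      rw [pow_zero]
      exact hone
    | succ n ih =>
      rw [pow_succ]
      exact hmul _ _ ih (hXi i)
  have hmon : ∀ m : Fin k →₀ ℕ, GP (monomial m 1) := by
    intro m
    induction m using Finsupp.induction_linear with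
    | zero => exact hone
    | add a b ha hb =>
      have h1 : (monomial (a + b) (1 : F)) = monomial a 1 * monomial b 1 := by
        rw [monomial_mul, one_mul]
      rw [h1]
      exact hmul _ _ ha hb
    | single i n =>
      have h1 : (monomial (Finsupp.single i n) (1 : F)) = MvPolynomial.X i ^ n :=
        X_pow_eq_monomial.symm
      rw [h1]
      exact hpow i n
  have hsum : f = ∑ m ∈ f.support, f.coeff m • monomial m (1 : F) := by
    conv_lhs => rw [f.as_sum]
    refine Finset.sum_congr rfl fun m _ => ?_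
    rw [smul_monomial, smul_eq_mul, mul_one]
  rw [hsum, map_sum, cw_sum', map_sum, map_sum]
  refine Finset.sum_congr rfl fun m _ => ?_
  rw [map_smul, cw_smulK φ hφK (hf m), (hmon m).2, Derivation.map_smul, map_smul]

theorem vf_stable {K L : Subfield F} (hKL : K ≤ L) {D : ℕ} (φ : F →+ F)
    (hφK : ∀ a ∈ K, ∀ b, φ (a * b) = a * φ b)
    (hφL : ∀ a ∈ L, ∀ c ∈ L, φ (a * c) = a * φ c + c * φ a)
    {g : Matrix (Fin k) (Fin k) F} (hg : ∀ i j, g i j ∈ L) (hdet : IsUnit g.det)
    (x : Fin k → F) (h1 : JK K D x = JK L D x)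
    (h2 : JK K D (g.mulVec x) = JK L D (g.mulVec x)) :
    ∀ f ∈ JK K D (g.mulVec x), vf (g.map φ * g⁻¹) f ∈ JK K D (g.mulVec x) := by
  intro f hf
  have hf' : f ∈ Submodule.span F (IK K D (g.mulVec x)) := hf
  induction hf' using Submodule.span_induction with
  | mem u hu =>
    have e1 : sub g u ∈ JK K D x := by
      rw [h1]
      exact (mem_JK_iff hg hdet x u).mp (JK_mono hKL D _ (Submodule.subset_span hu))
    have e2 := JK_mono hKL D x (JK_cw φ hφK e1)
    rw [cw_sub hKL φ hφK hφL hg hdet hu.2.1] at e2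
    rw [h2]
    exact (mem_JK_iff hg hdet x _).mpr e2
  | zero =>
    rw [map_zero]
    exact Submodule.zero_mem _
  | add a b ha hb i1 i2 =>
    rw [map_add]
    exact Submodule.add_mem _ (i1 ha) (i2 hb)
  | smul a b hb i1 =>
    rw [Derivation.map_smul]
    exact Submodule.smul_mem _ _ (i1 hb)

end Pool.Agent.Work.MP_e97a4d_nt.Chain
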