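import Mathlib

/-!
The affine cone-type variety attached to a complement of a hypersurface section.
-/

set_option autoImplicit false

noncomputable section

namespace Pool.Agent.Work.MP_e97a4d_nt

/-- The coordinate ring of the complex affine variety `g j = 0` (all `j`), `h = 1`. If the `g j` and
`h` are forms and `X` is the projective variety `g = 0`, then this variety is a finite étale cover
of `X` minus the hypersurface section `h = 0`. -/
abbrev CoordRing {ι J : Type} (g : J → MvPolynomial ι ℂ) (h : MvPolynomial ι ℂ) : Type :=
  MvPolynomial ι ℂ ⧸ Ideal.span (insert (h - 1) (Set.range g))

end Pool.Agent.Work.MP_e97a4d_nt
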