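import Mathlib
import Pool.Agent.Work.MP_e97a4d_nt.Defs
import Pool.Agent.Work.MP_e97a4d_nt.CurveLemma

/-!
The Bombieri-Lang-Vojta equivalence for schemes dominated by a variety swept out by images of the
multiplicative group.
-/

set_option autoImplicit false

namespace Pool.Agent.Work.MP_e97a4d_nt

open AlgebraicGeometry CategoryTheory Limits IsDedekindDomain NumberField

variable {F₀ : Type} [Field F₀] {V V' : Scheme.{0}}

/-- The structure homomorphism of a complex algebra over `O_{F₀}` (through `σ`). -/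
abbrev strC (σ : F₀ →+* ℂ) (R : Type) [CommRing R] [Algebra ℂ R] : 𝓞 F₀ →+* R :=
  (algebraMap ℂ R).comp (σ.comp (algebraMap (𝓞 F₀) F₀))

/-- If all complex points of `V` lie on `V'` then both conditions hold. -/
theorem condI_of_forall (σ : F₀ →+* ℂ) (π : V ⟶ Spec (CommRingCat.of (𝓞 F₀))) (i : V' ⟶ V)
    (h : ∀ p : Spec (CommRingCat.of ℂ) ⟶ V,
      p ≫ π = Spec.map (CommRingCat.ofHom (σ.comp (algebraMap (𝓞 F₀) F₀))) → ∃ p', p' ≫ i = p) :
    CondI σ π i :=
  fun f hf z => h (f z) (hf.1.structural z)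

theorem condII_of_forall [NumberField F₀] (σ : F₀ →+* ℂ)
    (π : V ⟶ Spec (CommRingCat.of (𝓞 F₀))) (i : V' ⟶ V)
    [IsClosedImmersion i]
    (h : ∀ p : Spec (CommRingCat.of ℂ) ⟶ V,
      p ≫ π = Spec.map (CommRingCat.ofHom (σ.comp (algebraMap (𝓞 F₀) F₀))) → ∃ p', p' ≫ i = p) :
    CondII π i := by
  intro F _ _ _ S
  convert Set.finite_empty
  rw [Set.eq_empty_iff_forall_notMem]
  rintro y ⟨hy, hy'⟩
  apply hy'
  let _ : Algebra F₀ ℂ := σ.toAlgebra
  have halg : Algebra.IsAlgebraic F₀ F := by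
    have : IsScalarTower ℚ F₀ F := IsScalarTower.of_algebraMap_eq' (Subsingleton.elim _ _)
    exact Algebra.IsAlgebraic.tower_top (K := ℚ) F₀
  let τ : F →ₐ[F₀] ℂ := IsAlgClosed.lift
  let φ : SInt F S →+* ℂ := (τ : F →+* ℂ).comp (algebraMap (SInt F S) F)
  apply factors_of_injective i y (CommRingCat.ofHom φ)
  · exact (τ : F →+* ℂ).injective.comp (FaithfulSMul.algebraMap_injective (SInt F S) F)
  · apply h
    rw [Category.assoc, show y ≫ π = _ from hy, ← Spec.map_comp, ← CommRingCat.ofHom_comp]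
    congr 2
    ext r
    show τ (algebraMap F₀ F (algebraMap (𝓞 F₀) F₀ r)) = σ (algebraMap (𝓞 F₀) F₀ r)
    rw [AlgHom.commutes]
    rfl

/-- If a closed subscheme contains the image of all complex points of a variety dominating `V_ℂ`
then it contains all complex points. -/
theorem forall_of_dominant (σ : F₀ →+* ℂ) (π : V ⟶ Spec (CommRingCat.of (𝓞 F₀))) (i : V' ⟶ V)
    [IsClosedImmersion i]
    {R : Type} [CommRing R] [Algebra ℂ R] [Algebra.FiniteType ℂ R]
    (q : Spec (CommRingCat.of R) ⟶ V)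
    (hq : q ≫ π = Spec.map (CommRingCat.ofHom (strC σ R)))
    (hdom : ∀ q' : Spec (CommRingCat.of R) ⟶
        pullback π (Spec.map (CommRingCat.ofHom (σ.comp (algebraMap (𝓞 F₀) F₀)))),
      q' ≫ pullback.fst _ _ = q → q' ≫ pullback.snd _ _ =
        Spec.map (CommRingCat.ofHom (algebraMap ℂ R)) → IsDominant q')
    (hw : ∀ w : R →ₐ[ℂ] ℂ, ∃ p', p' ≫ i = Spec.map (CommRingCat.ofHom (w : R →+* ℂ)) ≫ q)
    (p : Spec (CommRingCat.of ℂ) ⟶ V)
    (hp : p ≫ π = Spec.map (CommRingCat.ofHom (σ.comp (algebraMap (𝓞 F₀) F₀)))) :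
    ∃ p', p' ≫ i = p := by
  obtain ⟨I, hI, hI'⟩ := exists_ideal_factors' i q
  -- the ideal consists of nilpotent elements
  have h1 : ∀ x : PrimeSpectrum R, I ≤ x.asIdeal := by
    have hjac : IsJacobsonRing R := isJacobsonRing_of_finiteType (A := ℂ)
    intro x r hr
    have hx : x.asIdeal.jacobson = x.asIdeal := IsJacobsonRing.out hjac x.2.isRadical
    rw [← hx, Ideal.jacobson, Ideal.mem_sInf]
    intro 𝔪 h𝔪
    have h𝔪' : 𝔪.IsMaximal := h𝔪.2
    let _ : Field (R ⧸ 𝔪) := Ideal.Quotient.field 𝔪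
    have hfin : Module.Finite ℂ (R ⧸ 𝔪) := finite_of_finite_type_of_isJacobsonRing ℂ (R ⧸ 𝔪)
    have halg : Algebra.IsAlgebraic ℂ (R ⧸ 𝔪) := inferInstance
    let w : R →ₐ[ℂ] ℂ := (IsAlgClosed.lift (M := ℂ) (R := ℂ) (S := R ⧸ 𝔪)).comp (Ideal.Quotient.mkₐ ℂ 𝔪)
    have h2 := (hI _ (CommRingCat.ofHom (w : R →+* ℂ))).1 (hw w) hr
    have h3 : (IsAlgClosed.lift (M := ℂ) (R := ℂ) (S := R ⧸ 𝔪)) (Ideal.Quotient.mk 𝔪 r) = 0 := h2
    rw [map_eq_zero] at h3
    exact Ideal.Quotient.eq_zero_iff_mem.1 h3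
  let s := Spec.map (CommRingCat.ofHom (σ.comp (algebraMap (𝓞 F₀) F₀)))
  let q' : Spec (CommRingCat.of R) ⟶ pullback π s :=
    pullback.lift q (Spec.map (CommRingCat.ofHom (algebraMap ℂ R))) (by
      rw [hq, ← Spec.map_comp, ← CommRingCat.ofHom_comp])
  have hq'1 : q' ≫ pullback.fst _ _ = q := pullback.lift_fst _ _ _
  have hdq : IsDominant q' := hdom q' hq'1 (pullback.lift_snd _ _ _)
  have hcl : IsClosed ((pullback.fst π s) ⁻¹' Set.range i) :=
    (Scheme.Hom.isClosedEmbedding i).isClosed_range.preimage (pullback.fst π s).continuous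
  have huniv : (pullback.fst π s) ⁻¹' Set.range i = Set.univ := by
    rw [← hcl.closure_eq, ← Set.univ_subset_iff]
    have h2 : Set.range q' ⊆ (pullback.fst π s) ⁻¹' Set.range i := by
      rintro _ ⟨x, rfl⟩
      have h4 : (q' ≫ pullback.fst π s) x = (pullback.fst π s) (q' x) :=
        Scheme.Hom.comp_apply _ _ _
      rw [hq'1] at h4
      have h5 : q x ∈ Set.range i := (hI' x).2 (h1 x)
      rw [h4] at h5
      exact h5
    have h3 := closure_mono h2
    rwa [hdq.denseRange.closure_range] at h3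
  rw [factors_iff_mem_range]
  let p' : Spec (CommRingCat.of ℂ) ⟶ pullback π s := pullback.lift p (𝟙 _) (by
    rw [hp, Category.id_comp])
  have hp' : p' ≫ pullback.fst _ _ = p := pullback.lift_fst _ _ _
  have h2 : p' (⊥ : PrimeSpectrum ℂ) ∈ (pullback.fst π s) ⁻¹' Set.range i := by
    rw [huniv]; trivial
  have h3 : (pullback.fst π s) (p' (⊥ : PrimeSpectrum ℂ)) ∈ Set.range i := h2
  have h4 : (p' ≫ pullback.fst π s) (⊥ : PrimeSpectrum ℂ) =
      (pullback.fst π s) (p' (⊥ : PrimeSpectrum ℂ)) := Scheme.Hom.comp_apply _ _ _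
  rw [hp'] at h4
  rw [h4]
  exact h3

/-- **BLV for schemes dominated by a variety swept out by the multiplicative group.** -/
theorem blv_of_curves [NumberField F₀] (σ : F₀ →+* ℂ)
    (π : V ⟶ Spec (CommRingCat.of (𝓞 F₀))) [IsSeparated π] [LocallyOfFiniteType π] (i : V' ⟶ V)
    [IsClosedImmersion i]
    {R : Type} [CommRing R] [Algebra ℂ R] [Algebra.FiniteType ℂ R]
    (q : Spec (CommRingCat.of R) ⟶ V)
    (hq : q ≫ π = Spec.map (CommRingCat.ofHom (strC σ R)))
    (hdom : ∀ q' : Spec (CommRingCat.of R) ⟶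
        pullback π (Spec.map (CommRingCat.ofHom (σ.comp (algebraMap (𝓞 F₀) F₀)))),
      q' ≫ pullback.fst _ _ = q → q' ≫ pullback.snd _ _ =
        Spec.map (CommRingCat.ofHom (algebraMap ℂ R)) → IsDominant q')
    (hfin : ∀ p : Spec (CommRingCat.of ℂ) ⟶ V,
      {w : R →ₐ[ℂ] ℂ | Spec.map (CommRingCat.ofHom (w : R →+* ℂ)) ≫ q = p}.Finite)
    (hcurve : ∀ w : R →ₐ[ℂ] ℂ, ∃ ψ : R →ₐ[ℂ] LaurentPolynomial ℂ,
      (∃ u : ℂˣ, (evL u).comp (ψ : R →+* LaurentPolynomial ℂ) = w) ∧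
      {w' : R →ₐ[ℂ] ℂ | ∃ u : ℂˣ, (evL u).comp (ψ : R →+* LaurentPolynomial ℂ) = w'}.Infinite) :
    BLV σ π i := by
  by_cases hall : ∀ w : R →ₐ[ℂ] ℂ, ∃ p', p' ≫ i = Spec.map (CommRingCat.ofHom (w : R →+* ℂ)) ≫ q
  · have h := forall_of_dominant σ π i q hq hdom hall
    exact ⟨fun _ => condII_of_forall σ π i h, fun _ => condI_of_forall σ π i h⟩
  · push Not at hall
    obtain ⟨w, hw⟩ := hall
    obtain ⟨ψ, ⟨u, hu⟩, hinf⟩ := hcurve w
    let c : Spec (CommRingCat.of (LaurentPolynomial ℂ)) ⟶ V :=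
      Spec.map (CommRingCat.ofHom (ψ : R →+* LaurentPolynomial ℂ)) ≫ q
    have hc : c ≫ π = Spec.map (CommRingCat.ofHom
        ((LaurentPolynomial.C : ℂ →+* _).comp (σ.comp (algebraMap (𝓞 F₀) F₀)))) := by
      show (Spec.map (CommRingCat.ofHom (ψ : R →+* LaurentPolynomial ℂ)) ≫ q) ≫ π = _
      rw [Category.assoc, hq, ← Spec.map_comp, ← CommRingCat.ofHom_comp]
      congr 2
      refine RingHom.ext fun r => ?_
      exact ψ.commutes (σ (algebraMap (𝓞 F₀) F₀ r))
    have hev : ∀ v : ℂˣ, Spec.map (CommRingCat.ofHom (evL v)) ≫ c =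
        Spec.map (CommRingCat.ofHom ((evL v).comp (ψ : R →+* LaurentPolynomial ℂ))) ≫ q := by
      intro v
      show Spec.map (CommRingCat.ofHom (evL v)) ≫
        Spec.map (CommRingCat.ofHom (ψ : R →+* LaurentPolynomial ℂ)) ≫ q = _
      rw [← Category.assoc, ← Spec.map_comp, ← CommRingCat.ofHom_comp]
    have hw' : ¬ ∃ p, p ≫ i = Spec.map (CommRingCat.ofHom (evL u)) ≫ c := by
      rintro ⟨p, hp⟩
      rw [hev, hu] at hp
      exact hw p hp
    have hv : ∃ v : ℂˣ, Spec.map (CommRingCat.ofHom (evL u)) ≫ c ≠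
        Spec.map (CommRingCat.ofHom (evL v)) ≫ c := by
      by_contra hcon
      push Not at hcon
      apply hinf
      refine (hfin (Spec.map (CommRingCat.ofHom (evL u)) ≫ c)).subset ?_
      rintro w' ⟨v, hv⟩
      show Spec.map (CommRingCat.ofHom (w' : R →+* ℂ)) ≫ q = _
      rw [← hv, ← hev, hcon v]
    obtain ⟨v, hv⟩ := hv
    have hI : ¬ CondI σ π i := not_condI_of_curve σ π i c hc u v hv u hw'
    have hII : ¬ CondII π i := by
      let _ : Algebra F₀ ℂ := σ.toAlgebra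
      exact not_condII_of_curve π i c hc u v hv u hw'
    exact ⟨fun h => absurd h hI, fun h => absurd h hII⟩

end Pool.Agent.Work.MP_e97a4d_nt
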