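import Mathlib

/-!
Lines through a point of a projective complete intersection that meet a hypersurface in at most
two points. Everything here is elementary commutative algebra over an algebraically closed field.
-/

open MvPolynomial

namespace Pool.Agent.Work.MP_e97a4d_nt

/-- the maximal ideal of a point of affine space has height at least the dimension -/
theorem height_vanishingIdeal_singleton {K : Type*} [Field K] [IsAlgClosed K] {σ : Type*} [Finite σ]
    (x : σ → K) : (Nat.card σ : ℕ∞) ≤ (vanishingIdeal K {x}).height := by
  by_contra hlt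
  push Not at hlt
  -- every maximal ideal has height at most that of x
  have key : ∀ y : σ → K, (vanishingIdeal K {y}).height = (vanishingIdeal K {x}).height := by
    intro y
    -- the translation automorphism
    let f : MvPolynomial σ K →ₐ[K] MvPolynomial σ K := aeval (fun i => X i + C (y i - x i))
    let g : MvPolynomial σ K →ₐ[K] MvPolynomial σ K := aeval (fun i => X i - C (y i - x i))
    have hfg : f.comp g = AlgHom.id K _ := by
      ext i; simp [f, g]
    have hgf : g.comp f = AlgHom.id K _ := by
      ext i; simp [f, g]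
    let e : MvPolynomial σ K ≃ₐ[K] MvPolynomial σ K := AlgEquiv.ofAlgHom f g hfg hgf
    have h1 : (Ideal.map e.toRingEquiv (vanishingIdeal K {y})).height = (vanishingIdeal K {y}).height :=
      RingEquiv.height_map _ _
    rw [← h1]
    congr 1
    rw [← Ideal.comap_symm]
    ext p
    rw [Ideal.mem_comap, mem_vanishingIdeal_singleton_iff, mem_vanishingIdeal_singleton_iff]
    have : e.toRingEquiv.symm p = g p := rfl
    rw [this]
    have h2 : aeval (R := K) y (g p) = aeval (R := K) x p := by
      have : (aeval (R := K) y).comp g = aeval (R := K) x := by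
        ext i; simp [g]
      rw [← this]; rfl
    rw [h2]
  have h3 : ringKrullDim (MvPolynomial σ K) ≤ ((vanishingIdeal K {x}).height : WithBot ℕ∞) := by
    rw [ringKrullDim_le_iff_isMaximal_height_le]
    intro m hm
    obtain ⟨y, rfl⟩ := isMaximal_iff_eq_vanishingIdeal_singleton.1 hm
    rw [key y]
  rw [MvPolynomial.ringKrullDim_of_isNoetherianRing, ringKrullDim_eq_zero_of_field, zero_add] at h3
  have h4 : ((Nat.card σ : ℕ∞) : WithBot ℕ∞) ≤ ((vanishingIdeal K {x}).height : WithBot ℕ∞) := by
    exact_mod_cast h3
  exact absurd (WithBot.coe_le_coe.1 h4) (not_le.2 hlt)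

/-- fewer polynomials vanishing at the origin than variables have a further common zero -/
theorem exists_ne_zero_common_zero {K : Type*} [Field K] [IsAlgClosed K] {σ : Type*} [Finite σ]
    (s : Finset (MvPolynomial σ K)) (hs : ∀ p ∈ s, eval 0 p = 0) (hcard : s.card < Nat.card σ) :
    ∃ v : σ → K, v ≠ 0 ∧ ∀ p ∈ s, eval v p = 0 := by
  by_contra hcon
  push Not at hcon
  have hz : zeroLocus K (Ideal.span (s : Set (MvPolynomial σ K))) = {(0 : σ → K)} := by
    ext v
    rw [mem_zeroLocus_iff, Set.mem_singleton_iff]
    constructor
    · intro h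
      by_contra hv
      obtain ⟨p, hp, hpv⟩ := hcon v hv
      apply hpv
      have := h p (Ideal.subset_span hp)
      simpa [aeval_eq_eval] using this
    · rintro rfl p hp
      have : Ideal.span (s : Set (MvPolynomial σ K)) ≤ vanishingIdeal K {(0 : σ → K)} := by
        rw [Ideal.span_le]
        intro q hq
        rw [SetLike.mem_coe, mem_vanishingIdeal_singleton_iff]
        simpa [aeval_eq_eval] using hs q hq
      exact (mem_vanishingIdeal_singleton_iff _ _).1 (this hp)
  have hr : (Ideal.span (s : Set (MvPolynomial σ K))).radical = vanishingIdeal K {(0 : σ → K)} := by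
    rw [← vanishingIdeal_zeroLocus_eq_radical (K := K), hz]
  have hmax : (vanishingIdeal K {(0 : σ → K)}).IsMaximal :=
    isMaximal_iff_eq_vanishingIdeal_singleton.2 ⟨0, rfl⟩
  have hmin : vanishingIdeal K {(0 : σ → K)} ∈ (Ideal.span (s : Set (MvPolynomial σ K))).minimalPrimes := by
    rw [← Ideal.radical_minimalPrimes, hr]
    have := hmax.isPrime
    rw [Ideal.minimalPrimes_eq_subsingleton_self]
    simp
  have h1 := Ideal.height_le_card_of_mem_minimalPrimes_span_finset hmin
  have h2 := height_vanishingIdeal_singleton (K := K) (0 : σ → K)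
  have h3 : (Nat.card σ : ℕ∞) ≤ (s.card : ℕ∞) := h2.trans h1
  exact absurd (by exact_mod_cast h3 : Nat.card σ ≤ s.card) (not_le.2 hcard)

section line
variable {K : Type*} [Field K] {ι : Type*}

theorem aeval_smul_of_isHomogeneous {A : Type*} [CommRing A] [Algebra K A] {h : MvPolynomial ι K} {e : ℕ}
    (hh : h.IsHomogeneous e) (r : A) (f : ι → A) :
    aeval (fun i => r * f i) h = r ^ e * aeval f h := by
  rw [aeval_def, aeval_def, eval₂_eq, eval₂_eq, Finset.mul_sum]
  apply Finset.sum_congr rfl
  intro m hm
  have hdeg : ∑ i ∈ m.support, m i = e := by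
    have := hh (mem_support_iff.1 hm)
    rw [← this]
    simp [Finsupp.weight_apply, Finsupp.sum]
  simp only [mul_pow]
  rw [Finset.prod_mul_distrib, Finset.prod_pow_eq_pow_sum, hdeg]
  ring

/-- `g (x + t y)` as a polynomial in `t` whose coefficients are polynomials in `y` -/
noncomputable def lineExp (x : ι → K) (g : MvPolynomial ι K) : Polynomial (MvPolynomial ι K) :=
  aeval (fun i => Polynomial.C (C (x i)) + Polynomial.X * Polynomial.C (X i)) g

/-- `g (x + t v)` as a polynomial in `t` -/
noncomputable def onLine (x v : ι → K) (g : MvPolynomial ι K) : Polynomial K :=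
  aeval (fun i => Polynomial.C (x i) + Polynomial.X * Polynomial.C (v i)) g

theorem map_lineExp (x v : ι → K) (g : MvPolynomial ι K) :
    (lineExp x g).map (eval v) = onLine x v g := by
  unfold lineExp onLine
  have : ((Polynomial.mapRingHom (eval v)).comp
      (aeval (R := K) (fun i => Polynomial.C (C (x i)) + Polynomial.X * Polynomial.C (X i)) :
        MvPolynomial ι K →ₐ[K] Polynomial (MvPolynomial ι K)).toRingHom) =
      (aeval (R := K) (fun i => Polynomial.C (x i) + Polynomial.X * Polynomial.C (v i)) :
        MvPolynomial ι K →ₐ[K] Polynomial K).toRingHom := by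
    apply MvPolynomial.ringHom_ext
    · intro r
      simp [Polynomial.algebraMap_apply, algebraMap_eq]
    · intro i
      simp
  have h2 := congrArg (fun f => f g) this
  simpa using h2

theorem coeff_onLine (x v : ι → K) (g : MvPolynomial ι K) (k : ℕ) :
    (onLine x v g).coeff k = eval v ((lineExp x g).coeff k) := by
  rw [← map_lineExp, Polynomial.coeff_map]

theorem onLine_zero (x : ι → K) (g : MvPolynomial ι K) :
    onLine x 0 g = Polynomial.C (eval x g) := by
  unfold onLine
  induction g using MvPolynomial.induction_on with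
  | C a => simp [Polynomial.algebraMap_eq]
  | add p q hp hq => simp only [map_add, hp, hq]
  | mul_X p i hp => simp only [map_mul, hp]; simp

theorem natDegree_onLine_le (x v : ι → K) (g : MvPolynomial ι K) :
    (onLine x v g).natDegree ≤ g.totalDegree := by
  unfold onLine
  rw [aeval_def, eval₂_eq]
  apply Polynomial.natDegree_sum_le_of_forall_le
  intro m hm
  refine Polynomial.natDegree_mul_le.trans ?_
  have h1 : (algebraMap K (Polynomial K) (coeff m g)).natDegree = 0 := by
    simp [Polynomial.algebraMap_eq]
  rw [h1, zero_add]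
  refine (Polynomial.natDegree_prod_le _ _).trans ?_
  refine le_trans ?_ (le_totalDegree hm)
  rw [Finsupp.sum]
  apply Finset.sum_le_sum
  intro i _
  refine Polynomial.natDegree_pow_le.trans ?_
  have : (Polynomial.C (x i) + Polynomial.X * Polynomial.C (v i)).natDegree ≤ 1 := by
    refine (Polynomial.natDegree_add_le _ _).trans ?_
    simp only [Polynomial.natDegree_C, zero_le, sup_of_le_right]
    refine Polynomial.natDegree_mul_le.trans ?_
    simp
  calc (m i) * _ ≤ m i * 1 := Nat.mul_le_mul_left _ this
    _ = m i := mul_one _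

theorem eval_onLine (x v : ι → K) (g : MvPolynomial ι K) (t : K) :
    (onLine x v g).eval t = eval (x + t • v) g := by
  unfold onLine
  induction g using MvPolynomial.induction_on with
  | C a => simp [Polynomial.algebraMap_eq]
  | add p q hp hq => simp only [map_add, Polynomial.eval_add, hp, hq]
  | mul_X p i hp => simp only [map_mul, Polynomial.eval_mul, hp]; simp [mul_comm t]

theorem onLine_smul_self (x : ι → K) (c : K) {h : MvPolynomial ι K} {e : ℕ} (hh : h.IsHomogeneous e) :
    onLine x (c • x) h = (1 + Polynomial.C c * Polynomial.X) ^ e * Polynomial.C (eval x h) := by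
  have h0 : (fun i => Polynomial.C (x i) + Polynomial.X * Polynomial.C ((c • x) i)) =
      (fun i => (1 + Polynomial.C c * Polynomial.X) * Polynomial.C (x i)) := by
    funext i
    simp only [Pi.smul_apply, smul_eq_mul, Polynomial.C_mul]
    ring
  unfold onLine
  rw [h0, aeval_smul_of_isHomogeneous hh]
  congr 1
  have := MvPolynomial.aeval_algebraMap_apply (Polynomial K) x h
  rw [aeval_eq_eval] at this
  simpa [Polynomial.algebraMap_eq, Function.comp_def] using this

theorem coeff_onLine_smul_self (x : ι → K) (c : K) {h : MvPolynomial ι K} {e : ℕ} (hh : h.IsHomogeneous e) :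
    (onLine x (c • x) h).coeff e = c ^ e * eval x h := by
  rw [onLine_smul_self x c hh, Polynomial.coeff_mul_C]
  congr 1
  have := Polynomial.coeff_one_add_X_pow K e e
  have h2 : (1 + Polynomial.C c * Polynomial.X : Polynomial K) ^ e = ((1 + Polynomial.X) ^ e).comp (Polynomial.C c * Polynomial.X) := by
    simp
  rw [h2, Polynomial.comp_C_mul_X_coeff, this]
  simp

/-- **The line lemma.** Let `x` be a point on `g j = 0` (all `j`) outside `h = 0`, `h` a form of
degree `e ≥ 1`. If `∑ deg g j + max (e - 1) 1` is less than the number of homogeneous coordinates,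
then there is a line through `x` inside `g = 0`, on which `h` is `h x + l t`. -/
theorem exists_line [IsAlgClosed K] [Finite ι] {J : Type*} [Fintype J] (x : ι → K)
    (g : J → MvPolynomial ι K) (h : MvPolynomial ι K)
    (hgx : ∀ j, eval x (g j) = 0) (hhx : eval x h ≠ 0)
    (d : J → ℕ) (hd : ∀ j, (g j).totalDegree ≤ d j) (e : ℕ) (he : h.IsHomogeneous e) (he1 : 1 ≤ e)
    (hcount : ∑ j, d j + max (e - 1) 1 < Nat.card ι) :
    ∃ v : ι → K, (∀ c : K, v ≠ c • x) ∧ (∀ j, onLine x v (g j) = 0) ∧
      ∃ l : K, onLine x v h = Polynomial.C (eval x h) + Polynomial.C l * Polynomial.X := by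
  classical
  let s : Finset (MvPolynomial ι K) :=
    (Finset.univ.biUnion fun j => (Finset.Icc 1 (d j)).image fun k => (lineExp x (g j)).coeff k) ∪
      (Finset.Icc (min 2 e) e).image fun k => (lineExp x h).coeff k
  have hs : ∀ p ∈ s, eval 0 p = 0 := by
    intro p hp
    rw [Finset.mem_union] at hp
    rcases hp with hp | hp
    · rw [Finset.mem_biUnion] at hp
      obtain ⟨j, _, hp⟩ := hp
      rw [Finset.mem_image] at hp
      obtain ⟨k, hk, rfl⟩ := hp
      rw [Finset.mem_Icc] at hk
      rw [← coeff_onLine, onLine_zero, Polynomial.coeff_C, if_neg (by omega)]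
    · rw [Finset.mem_image] at hp
      obtain ⟨k, hk, rfl⟩ := hp
      rw [Finset.mem_Icc] at hk
      rw [← coeff_onLine, onLine_zero, Polynomial.coeff_C, if_neg (by omega)]
  have hcard : s.card < Nat.card ι := by
    refine lt_of_le_of_lt ?_ hcount
    refine (Finset.card_union_le _ _).trans ?_
    apply Nat.add_le_add
    · refine Finset.card_biUnion_le.trans ?_
      apply Finset.sum_le_sum
      intro j _
      refine Finset.card_image_le.trans ?_
      simp
    · refine Finset.card_image_le.trans ?_
      rw [Nat.card_Icc]
      omega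
  obtain ⟨v, hv0, hv⟩ := exists_ne_zero_common_zero s hs hcard
  have hg0 : ∀ j, onLine x v (g j) = 0 := by
    intro j
    ext k
    rw [Polynomial.coeff_zero]
    rcases Nat.eq_zero_or_pos k with rfl | hk
    · rw [Polynomial.coeff_zero_eq_eval_zero, eval_onLine]
      simpa using hgx j
    · by_cases hkd : k ≤ d j
      · rw [coeff_onLine]
        apply hv
        rw [Finset.mem_union]
        left
        rw [Finset.mem_biUnion]
        exact ⟨j, Finset.mem_univ _, Finset.mem_image.2 ⟨k, Finset.mem_Icc.2 ⟨hk, hkd⟩, rfl⟩⟩
      · apply Polynomial.coeff_eq_zero_of_natDegree_lt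
        have := natDegree_onLine_le x v (g j)
        have := hd j
        omega
  have hh0 : ∀ k, min 2 e ≤ k → (onLine x v h).coeff k = 0 := by
    intro k hk
    by_cases hke : k ≤ e
    · rw [coeff_onLine]
      apply hv
      rw [Finset.mem_union]
      right
      exact Finset.mem_image.2 ⟨k, Finset.mem_Icc.2 ⟨hk, hke⟩, rfl⟩
    · apply Polynomial.coeff_eq_zero_of_natDegree_lt
      have := natDegree_onLine_le x v h
      have := he.totalDegree_le
      omega
  refine ⟨v, ?_, hg0, (onLine x v h).coeff 1, ?_⟩
  · intro c hc
    have h1 : (onLine x v h).coeff e = 0 := hh0 e (min_le_right _ _)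
    rw [hc, coeff_onLine_smul_self x c he] at h1
    rcases mul_eq_zero.1 h1 with h3 | h3
    · have : c = 0 := (pow_eq_zero_iff (by omega)).1 h3
      apply hv0
      rw [hc, this, zero_smul]
    · exact hhx h3
  · ext k
    rcases Nat.lt_or_ge k 2 with hk | hk
    · interval_cases k
      · simp only [Polynomial.coeff_add, Polynomial.coeff_C_zero, Polynomial.mul_coeff_zero, Polynomial.coeff_X_zero, mul_zero, add_zero]
        rw [Polynomial.coeff_zero_eq_eval_zero, eval_onLine]
        simp
      · simp [Polynomial.coeff_C]
    · rw [hh0 k (by omega)]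
      have h1 : k ≠ 0 := by omega
      have h2 : 1 ≠ k := by omega
      simp [Polynomial.coeff_C, Polynomial.coeff_X, h1, h2]

end line
end Pool.Agent.Work.MP_e97a4d_nt
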