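import Mathlib
import Pool.Agent.Work.MP_e97a4d_nt.Defs
import Pool.Agent.Work.MP_e97a4d_nt.Dominated
import Pool.Agent.Work.MP_e97a4d_nt.Lines
import Pool.Agent.Work.MP_e97a4d_nt.ComplementDefs

/-!
The Bombieri-Lang-Vojta equivalence for complements `X \ D` of log Fano and log Calabi-Yau type.
-/

set_option autoImplicit false

namespace Pool.Agent.Work.MP_e97a4d_nt

open AlgebraicGeometry CategoryTheory Limits IsDedekindDomain NumberField MvPolynomial

section curve

variable {ι J : Type} (g : J → MvPolynomial ι ℂ) (h : MvPolynomial ι ℂ)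

theorem aeval_line {A : Type} [CommRing A] [Algebra ℂ A] (x v : ι → ℂ) (s : A)
    (f : MvPolynomial ι ℂ) :
    aeval (fun k => algebraMap ℂ A (x k) + s * algebraMap ℂ A (v k)) f =
      Polynomial.aeval s (onLine x v f) := by
  unfold onLine
  induction f using MvPolynomial.induction_on with
  | C a => simp
  | add p q hp hq => simp only [map_add, hp, hq]
  | mul_X p k hp =>
    simp only [map_mul, hp, aeval_X, map_add, Polynomial.aeval_C, Polynomial.aeval_X]

/-- A solution of the equations in a complex algebra. -/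
noncomputable def mkHom {A : Type} [CommRing A] [Algebra ℂ A] (y : ι → A)
    (hy : ∀ j, aeval y (g j) = 0) (hy1 : aeval y h = 1) : CoordRing g h →ₐ[ℂ] A :=
  Ideal.Quotient.liftₐ _ (aeval y) (by
    intro a ha
    have : Ideal.span (insert (h - 1) (Set.range g)) ≤ RingHom.ker (aeval y : _ →ₐ[ℂ] A) := by
      rw [Ideal.span_le]
      rintro f (rfl | ⟨j, rfl⟩)
      · simp [RingHom.mem_ker, hy1]
      · exact hy j
    exact this ha)

theorem mkHom_X {A : Type} [CommRing A] [Algebra ℂ A] (y : ι → A)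
    (hy : ∀ j, aeval y (g j) = 0) (hy1 : aeval y h = 1) (k : ι) :
    mkHom g h y hy hy1 (Ideal.Quotient.mk _ (X k)) = y k := by
  show (aeval y : MvPolynomial ι ℂ →ₐ[ℂ] A) (X k) = y k
  simp

theorem hom_ext_coord {A : Type} [CommRing A] [Algebra ℂ A] {φ ψ : CoordRing g h →ₐ[ℂ] A}
    (hφ : ∀ k, φ (Ideal.Quotient.mk _ (X k)) = ψ (Ideal.Quotient.mk _ (X k))) : φ = ψ := by
  apply Ideal.Quotient.algHom_ext
  apply MvPolynomial.algHom_ext
  intro k
  exact hφ k

/-- evaluation at a unit as an algebra homomorphism -/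
noncomputable def evA (u : ℂˣ) : LaurentPolynomial ℂ →ₐ[ℂ] ℂ :=
  { evL u with commutes' := fun _ => LaurentPolynomial.eval₂_C _ _ _ }

theorem infinite_units : Infinite ℂˣ := by
  refine Infinite.of_injective (fun n : ℕ => twoU ℂ ^ n) ?_
  intro a b hab
  have h1 : (((2 : ℕ) ^ a : ℕ) : ℂ) = (((2 : ℕ) ^ b : ℕ) : ℂ) := by
    have := congrArg (fun u : ℂˣ => (u : ℂ)) hab
    simpa using this
  exact Nat.pow_right_injective le_rfl (Nat.cast_injective h1)

theorem g_mem (j : J) : Ideal.Quotient.mk (Ideal.span (insert (h - 1) (Set.range g))) (g j) = 0 :=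
  Ideal.Quotient.eq_zero_iff_mem.2 (Ideal.subset_span (Set.mem_insert_of_mem _ ⟨j, rfl⟩))

theorem h_mem : Ideal.Quotient.mk (Ideal.span (insert (h - 1) (Set.range g))) (h - 1) = 0 :=
  Ideal.Quotient.eq_zero_iff_mem.2 (Ideal.subset_span (Set.mem_insert _ _))

theorem evA_T (u : ℂˣ) (n : ℤ) : evA u (LaurentPolynomial.T n) = ((u ^ n : ℂˣ) : ℂ) := by
  show evL u (LaurentPolynomial.T n) = _
  simp [evL]

variable {g h}

theorem exists_curve [Fintype ι] [Fintype J] (d : J → ℕ) (hg : ∀ j, (g j).IsHomogeneous (d j))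
    (e : ℕ) (he : h.IsHomogeneous e) (he1 : 1 ≤ e)
    (hdeg : ∑ j, d j + max (e - 1) 1 < Fintype.card ι) (w : CoordRing g h →ₐ[ℂ] ℂ) :
    ∃ ψ : CoordRing g h →ₐ[ℂ] LaurentPolynomial ℂ,
      (∃ u : ℂˣ, (evL u).comp (ψ : CoordRing g h →+* LaurentPolynomial ℂ) = w) ∧
      {w' : CoordRing g h →ₐ[ℂ] ℂ | ∃ u : ℂˣ,
        (evL u).comp (ψ : CoordRing g h →+* LaurentPolynomial ℂ) = w'}.Infinite := by
  classical
  -- it suffices to find a curve which is injective
  suffices hmain : ∃ ψ : CoordRing g h →ₐ[ℂ] LaurentPolynomial ℂ,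
      (evA 1).comp ψ = w ∧ Function.Injective fun u : ℂˣ => (evA u).comp ψ by
    obtain ⟨ψ, h1, h2⟩ := hmain
    have := infinite_units
    refine ⟨ψ, ⟨1, ?_⟩, ?_⟩
    · rw [← h1]; rfl
    · refine (Set.infinite_range_of_injective h2).mono ?_
      rintro _ ⟨u, rfl⟩
      exact ⟨u, rfl⟩
  let x : ι → ℂ := fun k => w (Ideal.Quotient.mk _ (X k))
  have hx : ∀ f : MvPolynomial ι ℂ, eval x f = w (Ideal.Quotient.mk _ f) := by
    intro f
    have : (aeval x : MvPolynomial ι ℂ →ₐ[ℂ] ℂ) = w.comp (Ideal.Quotient.mkₐ ℂ _) := by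
      apply MvPolynomial.algHom_ext
      intro k
      simp [x]
    have h2 := congrArg (fun φ : MvPolynomial ι ℂ →ₐ[ℂ] ℂ => φ f) this
    rw [← MvPolynomial.aeval_eq_eval]
    exact h2
  have hgx : ∀ j, eval x (g j) = 0 := by
    intro j
    rw [hx, g_mem, map_zero]
  have hhx : eval x h = 1 := by
    have h1 : eval x (h - 1) = 0 := by
      rw [hx, h_mem, map_zero]
    rw [map_sub, map_one, sub_eq_zero] at h1
    exact h1
  obtain ⟨v, hv, hgv, l, hl⟩ := exists_line x g h hgx (by rw [hhx]; exact one_ne_zero) d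
    (fun j => (hg j).totalDegree_le) e he he1 (by rw [Nat.card_eq_fintype_card]; exact hdeg)
  rw [hhx] at hl
  by_cases hl0 : l = 0
  · -- an affine line
    let y : ι → LaurentPolynomial ℂ := fun k => algebraMap ℂ _ (x k) +
      (LaurentPolynomial.T 1 - 1) * algebraMap ℂ _ (v k)
    have hy : ∀ j, aeval y (g j) = 0 := by
      intro j
      rw [aeval_line, hgv, map_zero]
    have hy1 : aeval y h = 1 := by
      rw [aeval_line, hl, hl0]
      simp
    refine ⟨mkHom g h y hy hy1, ?_, ?_⟩
    · apply hom_ext_coord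
      intro k
      rw [AlgHom.comp_apply, mkHom_X]
      simp only [y, map_add, map_mul, map_sub, evA_T, AlgHom.commutes, map_one]
      simp [x]
    · intro u u' huu'
      obtain ⟨k, hk⟩ : ∃ k, v k ≠ 0 := by
        by_contra hcon
        push Not at hcon
        apply hv 0
        funext k
        simp [hcon k]
      have h1 := congrArg (fun φ : CoordRing g h →ₐ[ℂ] ℂ => φ (Ideal.Quotient.mk _ (X k))) huu'
      simp only [AlgHom.comp_apply, mkHom_X] at h1
      simp only [y, map_add, map_mul, map_sub, evA_T, AlgHom.commutes, map_one] at h1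
      have h2 : ((u : ℂ) - 1) * v k = ((u' : ℂ) - 1) * v k := by
        simpa using h1
      apply Units.ext
      have h3 := mul_right_cancel₀ hk h2
      linear_combination h3
  · -- the general case
    let s : LaurentPolynomial ℂ := (LaurentPolynomial.T (e : ℤ) - 1) * algebraMap ℂ _ l⁻¹
    let y : ι → LaurentPolynomial ℂ := fun k => LaurentPolynomial.T (-1) *
      (algebraMap ℂ _ (x k) + s * algebraMap ℂ _ (v k))
    have hy : ∀ j, aeval y (g j) = 0 := by
      intro j
      rw [aeval_smul_of_isHomogeneous (hg j), aeval_line, hgv, map_zero, mul_zero]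
    have hy1 : aeval y h = 1 := by
      rw [aeval_smul_of_isHomogeneous he, aeval_line, hl]
      simp only [map_add, map_mul, Polynomial.aeval_C, Polynomial.aeval_X, map_one]
      have h1 : algebraMap ℂ (LaurentPolynomial ℂ) l * s = LaurentPolynomial.T (e : ℤ) - 1 := by
        simp only [s]
        rw [mul_left_comm, ← map_mul, mul_inv_cancel₀ hl0, map_one, mul_one]
      rw [h1, add_sub_cancel, LaurentPolynomial.T_pow, ← LaurentPolynomial.T_add]
      simp
    have hval : ∀ (u : ℂˣ) k, evA u (y k) = (u : ℂ)⁻¹ * x k +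
        (u : ℂ)⁻¹ * (((u : ℂ) ^ e - 1) * l⁻¹) * v k := by
      intro u k
      simp only [y, s, map_add, map_mul, map_sub, evA_T, AlgHom.commutes, map_one]
      simp
      ring
    refine ⟨mkHom g h y hy hy1, ?_, ?_⟩
    · apply hom_ext_coord
      intro k
      rw [AlgHom.comp_apply, mkHom_X, hval]
      simp [x]
    · intro u u' huu'
      have h1 : ∀ k, evA u (y k) = evA u' (y k) := by
        intro k
        have h1 := congrArg (fun φ : CoordRing g h →ₐ[ℂ] ℂ => φ (Ideal.Quotient.mk _ (X k))) huu'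
        simpa only [AlgHom.comp_apply, mkHom_X] using h1
      by_contra hne
      have hne' : (u : ℂ)⁻¹ - (u' : ℂ)⁻¹ ≠ 0 := by
        intro h2
        apply hne
        apply Units.ext
        exact inv_injective (sub_eq_zero.1 h2)
      set b := (u : ℂ)⁻¹ * (((u : ℂ) ^ e - 1) * l⁻¹) with hb
      set b' := (u' : ℂ)⁻¹ * (((u' : ℂ) ^ e - 1) * l⁻¹) with hb'
      have h2 : ∀ k, ((u : ℂ)⁻¹ - (u' : ℂ)⁻¹) * x k = (b' - b) * v k := by
        intro k
        have h3 := h1 k
        rw [hval, hval] at h3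
        linear_combination h3
      have hbb : b' - b ≠ 0 := by
        intro h3
        have hx0 : x = 0 := by
          funext k
          have h4 := h2 k
          rw [h3, zero_mul] at h4
          exact (mul_eq_zero.1 h4).resolve_left hne'
        rw [hx0] at hhx
        have h5 : eval (0 : ι → ℂ) h = 0 := by
          have := aeval_smul_of_isHomogeneous he (0 : ℂ) (0 : ι → ℂ)
          rw [zero_pow (by omega), zero_mul] at this
          rw [← MvPolynomial.aeval_eq_eval]
          simpa using this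
        rw [h5] at hhx
        exact zero_ne_one hhx
      apply hv (((u : ℂ)⁻¹ - (u' : ℂ)⁻¹) / (b' - b))
      funext k
      rw [Pi.smul_apply, smul_eq_mul, div_mul_eq_mul_div, h2 k, mul_comm, mul_div_assoc,
        div_self hbb, mul_one]

end curve

variable {F₀ : Type} [Field F₀] {V V' : Scheme.{0}}

/-- **BLV for log Fano and log Calabi-Yau complements.** -/
theorem blv_complement [NumberField F₀] (σ : F₀ →+* ℂ)
    (π : V ⟶ Spec (CommRingCat.of (𝓞 F₀))) [IsSeparated π] [LocallyOfFiniteType π] (i : V' ⟶ V)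
    [IsClosedImmersion i] {ι J : Type} [Fintype ι] [Fintype J]
    (g : J → MvPolynomial ι ℂ) (d : J → ℕ) (hg : ∀ j, (g j).IsHomogeneous (d j))
    (h : MvPolynomial ι ℂ) (e : ℕ) (he : h.IsHomogeneous e) (he1 : 1 ≤ e)
    (hdeg : ∑ j, d j + max (e - 1) 1 < Fintype.card ι)
    (q : Spec (CommRingCat.of (CoordRing g h)) ⟶
      pullback π (Spec.map (CommRingCat.ofHom (σ.comp (algebraMap (𝓞 F₀) F₀)))))
    (hq : q ≫ pullback.snd _ _ = Spec.map (CommRingCat.ofHom (algebraMap ℂ (CoordRing g h))))
    (hdom : IsDominant q)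
    (hfin : ∀ p : Spec (CommRingCat.of ℂ) ⟶
        pullback π (Spec.map (CommRingCat.ofHom (σ.comp (algebraMap (𝓞 F₀) F₀)))),
      {w : CoordRing g h →ₐ[ℂ] ℂ |
        Spec.map (CommRingCat.ofHom (w : CoordRing g h →+* ℂ)) ≫ q = p}.Finite) :
    BLV σ π i := by
  have hw : ∀ w : CoordRing g h →ₐ[ℂ] ℂ,
      (Spec.map (CommRingCat.ofHom (w : CoordRing g h →+* ℂ)) ≫ q) ≫ pullback.snd _ _ = 𝟙 _ := by
    intro w
    rw [Category.assoc, hq, ← Spec.map_comp, ← CommRingCat.ofHom_comp]
    have h1 : (w : CoordRing g h →+* ℂ).comp (algebraMap ℂ (CoordRing g h)) = RingHom.id ℂ := by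
      ext r
      exact w.commutes r
    rw [h1, CommRingCat.ofHom_id, Spec.map_id]
  refine blv_of_curves σ π i (q ≫ pullback.fst _ _) ?_ ?_ ?_
    (exists_curve d hg e he he1 hdeg)
  · rw [Category.assoc, pullback.condition, ← Category.assoc, hq, ← Spec.map_comp,
      ← CommRingCat.ofHom_comp]
  · intro q' h1 h2
    have : q' = q := by
      apply pullback.hom_ext
      · rw [h1]
      · rw [h2, hq]
    rw [this]
    exact hdom
  · intro p
    by_cases hne : {w : CoordRing g h →ₐ[ℂ] ℂ |
        Spec.map (CommRingCat.ofHom (w : CoordRing g h →+* ℂ)) ≫ q ≫ pullback.fst _ _ = p}.Nonempty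
    · obtain ⟨w₀, hw₀⟩ := hne
      refine (hfin (Spec.map (CommRingCat.ofHom (w₀ : CoordRing g h →+* ℂ)) ≫ q)).subset ?_
      intro w hw'
      apply pullback.hom_ext
      · rw [Category.assoc, Category.assoc]
        exact (show _ = p from hw').trans (show _ = p from hw₀).symm
      · rw [hw w, hw w₀]
    · rw [Set.not_nonempty_iff_eq_empty] at hne
      rw [hne]
      exact Set.finite_empty

end Pool.Agent.Work.MP_e97a4d_nt
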