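import Pool.Agent.Work.MP_e97a4d_nt.ChDefs

/-!
A height on the algebraic closure of the field generated by a set `B` of complex numbers: the least
weight of an expression in the elements of `B`.
-/

set_option autoImplicit false

noncomputable section

namespace Pool.Agent.Work.MP_e97a4d_nt.Chain

/-- `y` is one of `x`, `-x`, `x⁻¹`, `-x⁻¹`. -/
def Sg (x y : ℂ) : Prop := y = x ∨ y = -x ∨ y = x⁻¹ ∨ y = -x⁻¹

theorem Sg.refl (x : ℂ) : Sg x x := Or.inl rfl

theorem Sg.neg {x y : ℂ} (h : Sg x y) : Sg x (-y) := by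
  rcases h with rfl | rfl | rfl | rfl <;> simp [Sg]

theorem Sg.inv {x y : ℂ} (h : Sg x y) : Sg x y⁻¹ := by
  rcases h with rfl | rfl | rfl | rfl <;> simp [Sg, inv_neg]

/-- Expressions of weight `n` in the elements of `B`. -/
inductive Nf (B : Set ℂ) : ℕ → ℂ → Prop
  | zero : Nf B 0 0
  | one : Nf B 0 1
  | negOne : Nf B 0 (-1)
  | base {b y : ℂ} (hb : b ∈ B) (h : Sg b y) : Nf B 1 y
  | add {i j : ℕ} {x y z : ℂ} (hx : Nf B i x) (hy : Nf B j y) (h : Sg (x + y) z) :
      Nf B (i + j + 1) z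
  | mul {i j : ℕ} {x y z : ℂ} (hi : 1 ≤ i) (hj : 1 ≤ j) (hx : Nf B i x) (hy : Nf B j y)
      (h : Sg (x * y) z) : Nf B (i + j) z
  | root {n : ℕ} {m : Fin n → ℕ} {a : Fin n → ℂ} {x z : ℂ} (ha : ∀ i, Nf B (m i) (a i))
      (hx : x ^ n = ∑ i, a i * x ^ (i : ℕ)) (h : Sg x z) : Nf B (n + ∑ i, m i) z

variable {B : Set ℂ}

theorem Nf.neg {n : ℕ} {x : ℂ} (h : Nf B n x) : Nf B n (-x) := by
  cases h with
  | zero => rw [neg_zero]; exact Nf.zero
  | one => exact Nf.negOne
  | negOne => rw [neg_neg]; exact Nf.one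
  | base hb h => exact Nf.base hb h.neg
  | add hx hy h => exact Nf.add hx hy h.neg
  | mul hi hj hx hy h => exact Nf.mul hi hj hx hy h.neg
  | root ha hx h => exact Nf.root ha hx h.neg

theorem Nf.inv {n : ℕ} {x : ℂ} (h : Nf B n x) : Nf B n x⁻¹ := by
  cases h with
  | zero => rw [inv_zero]; exact Nf.zero
  | one => rw [inv_one]; exact Nf.one
  | negOne => rw [inv_neg, inv_one]; exact Nf.negOne
  | base hb h => exact Nf.base hb h.inv
  | add hx hy h => exact Nf.add hx hy h.inv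
  | mul hi hj hx hy h => exact Nf.mul hi hj hx hy h.inv
  | root ha hx h => exact Nf.root ha hx h.inv

theorem Nf.eq_of_weight_zero {n : ℕ} {x : ℂ} (h : Nf B n x) (hn : n = 0) :
    x = 0 ∨ x = 1 ∨ x = -1 := by
  cases h with
  | zero => exact Or.inl rfl
  | one => exact Or.inr (Or.inl rfl)
  | negOne => exact Or.inr (Or.inr rfl)
  | base hb h => exact absurd hn (by norm_num)
  | add hx hy h => omega
  | mul hi hj hx hy h => omega
  | @root n m a x z ha hx h =>
    have h1 : n = 0 := by omega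
    subst h1
    simp at hx

theorem Nf.mul' {i j : ℕ} {x y : ℂ} (hx : Nf B i x) (hy : Nf B j y) :
    ∃ n ≤ i + j, Nf B n (x * y) := by
  rcases Nat.eq_zero_or_pos i with hi | hi
  · subst hi
    rcases hx.eq_of_weight_zero rfl with rfl | rfl | rfl
    · rw [zero_mul]; exact ⟨0, Nat.zero_le _, Nf.zero⟩
    · rw [one_mul]; exact ⟨j, by omega, hy⟩
    · rw [neg_one_mul]; exact ⟨j, by omega, hy.neg⟩
  · rcases Nat.eq_zero_or_pos j with hj | hj
    · subst hj
      rcases hy.eq_of_weight_zero rfl with rfl | rfl | rfl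
      · rw [mul_zero]; exact ⟨0, Nat.zero_le _, Nf.zero⟩
      · rw [mul_one]; exact ⟨i, by omega, hx⟩
      · rw [mul_neg_one]; exact ⟨i, by omega, hx.neg⟩
    · exact ⟨i + j, le_rfl, Nf.mul hi hj hx hy (Sg.refl _)⟩

/-- the least weight of an expression of `x` (`0` if there is none) -/
def wt (B : Set ℂ) (x : ℂ) : ℕ := sInf {n | Nf B n x}

theorem wt_le {n : ℕ} {x : ℂ} (h : Nf B n x) : wt B x ≤ n := Nat.sInf_le h

theorem nf_wt {x : ℂ} (h : ∃ n, Nf B n x) : Nf B (wt B x) x := Nat.sInf_mem h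

/-- The field of all expressions in the elements of `B`, with the weight as height. -/
def exprField (B : Set ℂ) : HField where
  K :=
    { carrier := {x | ∃ n, Nf B n x}
      mul_mem' := by
        rintro a b ⟨i, hi⟩ ⟨j, hj⟩
        obtain ⟨n, -, hn⟩ := hi.mul' hj
        exact ⟨n, hn⟩
      one_mem' := ⟨0, Nf.one⟩
      add_mem' := by
        rintro a b ⟨i, hi⟩ ⟨j, hj⟩
        exact ⟨_, Nf.add hi hj (Sg.refl _)⟩
      zero_mem' := ⟨0, Nf.zero⟩
      neg_mem' := by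
        rintro a ⟨i, hi⟩
        exact ⟨i, hi.neg⟩
      inv_mem' := by
        rintro a ⟨i, hi⟩
        exact ⟨i, hi.inv⟩ }
  h := fun x => wt B x
  nonneg := fun x => Nat.cast_nonneg _
  zero := by
    have h1 : wt B 0 ≤ 0 := wt_le Nf.zero
    have h2 : wt B 0 = 0 := by omega
    rw [h2, Nat.cast_zero]
  one := by
    have h1 : wt B 1 ≤ 0 := wt_le Nf.one
    have h2 : wt B 1 = 0 := by omega
    rw [h2, Nat.cast_zero]
  neg := fun x hx => Nat.cast_le.2 (wt_le (nf_wt hx).neg)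
  add := fun x hx y hy => by
    have h1 := wt_le (Nf.add (nf_wt hx) (nf_wt hy) (Sg.refl _))
    exact_mod_cast h1
  mul := fun x hx y hy => by
    obtain ⟨n, hn, h1⟩ := (nf_wt hx).mul' (nf_wt hy)
    have h2 := (wt_le h1).trans hn
    exact_mod_cast h2
  inv := fun x hx => Nat.cast_le.2 (wt_le (nf_wt hx).inv)
  root := fun n a x ha _ h => by
    have h1 := wt_le (Nf.root (fun i => nf_wt (ha i)) h (Sg.refl _))
    exact_mod_cast h1

theorem mem_exprField_of_mem {b : ℂ} (hb : b ∈ B) :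
    b ∈ (exprField B).K ∧ (exprField B).h b ≤ 1 := by
  have h1 : Nf B 1 b := Nf.base hb (Sg.refl b)
  refine ⟨⟨1, h1⟩, ?_⟩
  have h2 := wt_le h1
  show (wt B b : ℝ) ≤ 1
  exact_mod_cast h2

theorem exists_nf_of_mem_exprField {x : ℂ} (hx : x ∈ (exprField B).K) {T : ℝ}
    (hT : (exprField B).h x ≤ T) : ∃ n : ℕ, (n : ℝ) ≤ T ∧ Nf B n x :=
  ⟨wt B x, hT, nf_wt hx⟩

end Pool.Agent.Work.MP_e97a4d_nt.Chain
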