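import Pool.Agent.Work.MP_e97a4d_nt.Ct1

/-!
The number of expressions of bounded weight.
-/

set_option autoImplicit false

noncomputable section

namespace Pool.Agent.Work.MP_e97a4d_nt.Chain

open Polynomial

/-- the set `{x, -x, x⁻¹, -x⁻¹}` -/
def sgs (x : ℂ) : Finset ℂ := {x, -x, x⁻¹, -x⁻¹}

theorem mem_sgs {x y : ℂ} (h : Sg x y) : y ∈ sgs x := by
  simpa [sgs, Sg] using h

theorem card_sgs (x : ℂ) : (sgs x).card ≤ 4 := Finset.card_le_four

/-- the polynomial `X ^ d - ∑ a i X ^ i` -/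
def rp {d : ℕ} (a : Fin d → ℂ) : ℂ[X] := X ^ d - ∑ i, C (a i) * X ^ (i : ℕ)

theorem rp_ne_zero {d : ℕ} (a : Fin d → ℂ) : rp a ≠ 0 := by
  intro h
  have h1 : (rp a).coeff d = 1 := by
    unfold rp
    rw [coeff_sub, finsetSum_coeff, coeff_X_pow, if_pos rfl]
    rw [Finset.sum_eq_zero, sub_zero]
    intro i _
    rw [coeff_C_mul, coeff_X_pow, if_neg (by have := i.2; omega), mul_zero]
  rw [h, coeff_zero] at h1
  exact zero_ne_one h1

theorem card_roots_rp {d : ℕ} (a : Fin d → ℂ) : (rp a).roots.toFinset.card ≤ d := by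
  refine (Multiset.toFinset_card_le _).trans ((card_roots' _).trans ?_)
  unfold rp
  refine (natDegree_sub_le _ _).trans (max_le (natDegree_X_pow_le d) ?_)
  refine natDegree_sum_le_of_forall_le _ _ fun i _ => ?_
  exact (natDegree_C_mul_X_pow_le _ _).trans i.2.le

theorem mem_roots_rp {d : ℕ} {a : Fin d → ℂ} {x : ℂ} (h : x ^ d = ∑ i, a i * x ^ (i : ℕ)) :
    x ∈ (rp a).roots.toFinset := by
  rw [Multiset.mem_toFinset, mem_roots (rp_ne_zero a), IsRoot.def]
  unfold rp
  rw [eval_sub, eval_finsetSum]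
  simp [h]

/-- the expressions obtained in one step -/
def nextU (B : Finset ℂ) (n : ℕ) (U : Finset ℂ) : Finset ℂ :=
  U ∪ (B.biUnion sgs ∪ ((U ×ˢ U).biUnion (fun p => sgs (p.1 + p.2)) ∪
    ((U ×ˢ U).biUnion (fun p => sgs (p.1 * p.2)) ∪
      (Finset.range (n + 2)).biUnion fun d => (Fintype.piFinset fun _ : Fin d => U).biUnion
        fun a => (rp a).roots.toFinset.biUnion sgs)))

theorem card_nextU (B : Finset ℂ) (n : ℕ) (U : Finset ℂ) {v : ℕ} (hv : 1 ≤ v)
    (hU : U.card ≤ v) :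
    (nextU B n U).card ≤ (13 + 4 * (n + 2) * (n + 2)) * (v ^ (n + 2) * (B.card + 1)) := by
  have hb : 1 ≤ B.card + 1 := Nat.le_add_left _ _
  have hvb : ∀ d ≤ n + 2, U.card ^ d ≤ v ^ (n + 2) * (B.card + 1) := by
    intro d hd
    calc U.card ^ d ≤ v ^ d := Nat.pow_le_pow_left hU d
      _ ≤ v ^ (n + 2) := Nat.pow_le_pow_right hv hd
      _ ≤ v ^ (n + 2) * (B.card + 1) := Nat.le_mul_of_pos_right _ hb
  have h1 : U.card ≤ v ^ (n + 2) * (B.card + 1) := by
    have := hvb 1 (by omega)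
    rwa [pow_one] at this
  have h2 : (B.biUnion sgs).card ≤ 4 * (v ^ (n + 2) * (B.card + 1)) := by
    refine (Finset.card_biUnion_le_card_mul _ _ 4 fun x _ => card_sgs x).trans ?_
    have : B.card ≤ v ^ (n + 2) * (B.card + 1) :=
      (Nat.le_succ _).trans (Nat.le_mul_of_pos_left _ (Nat.pow_pos hv))
    omega
  have h3 : ∀ f : ℂ × ℂ → ℂ, ((U ×ˢ U).biUnion (fun p => sgs (f p))).card ≤
      4 * (v ^ (n + 2) * (B.card + 1)) := by
    intro f
    refine (Finset.card_biUnion_le_card_mul _ _ 4 fun x _ => card_sgs _).trans ?_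
    rw [Finset.card_product]
    have := hvb 2 (by omega)
    rw [pow_two] at this
    omega
  have h4 : ((Finset.range (n + 2)).biUnion fun d =>
      (Fintype.piFinset fun _ : Fin d => U).biUnion
        fun a => (rp a).roots.toFinset.biUnion sgs).card ≤
      (n + 2) * (4 * (n + 2) * (v ^ (n + 2) * (B.card + 1))) := by
    refine (Finset.card_biUnion_le_card_mul _ _ _ fun d hd => ?_).trans
      (le_of_eq (by rw [Finset.card_range]))
    have hd' : d < n + 2 := Finset.mem_range.1 hd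
    refine (Finset.card_biUnion_le_card_mul _ _ (d * 4) fun a _ => ?_).trans ?_
    · refine (Finset.card_biUnion_le_card_mul _ _ 4 fun x _ => card_sgs x).trans ?_
      exact Nat.mul_le_mul_right _ (card_roots_rp a)
    · rw [Fintype.card_piFinset_const]
      have := hvb d hd'.le
      calc U.card ^ d * (d * 4) ≤ (v ^ (n + 2) * (B.card + 1)) * ((n + 2) * 4) :=
            Nat.mul_le_mul this (Nat.mul_le_mul_right _ hd'.le)
        _ = 4 * (n + 2) * (v ^ (n + 2) * (B.card + 1)) := by ring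
  calc (nextU B n U).card ≤ U.card + ((B.biUnion sgs).card +
        (((U ×ˢ U).biUnion (fun p => sgs (p.1 + p.2))).card +
          (((U ×ˢ U).biUnion (fun p => sgs (p.1 * p.2))).card +
          ((Finset.range (n + 2)).biUnion fun d => (Fintype.piFinset fun _ : Fin d => U).biUnion
            fun a => (rp a).roots.toFinset.biUnion sgs).card))) := by
          refine (Finset.card_union_le _ _).trans (Nat.add_le_add_left ?_ _)
          refine (Finset.card_union_le _ _).trans (Nat.add_le_add_left ?_ _)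
          refine (Finset.card_union_le _ _).trans (Nat.add_le_add_left ?_ _)
          exact Finset.card_union_le _ _
    _ ≤ v ^ (n + 2) * (B.card + 1) + (4 * (v ^ (n + 2) * (B.card + 1)) +
        (4 * (v ^ (n + 2) * (B.card + 1)) + (4 * (v ^ (n + 2) * (B.card + 1)) +
        (n + 2) * (4 * (n + 2) * (v ^ (n + 2) * (B.card + 1)))))) :=
          Nat.add_le_add h1 (Nat.add_le_add h2 (Nat.add_le_add (h3 _) (Nat.add_le_add (h3 _) h4)))
    _ = (13 + 4 * (n + 2) * (n + 2)) * (v ^ (n + 2) * (B.card + 1)) := by ring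

theorem mem_nextU {B : Finset ℂ} {n : ℕ} {U : Finset ℂ} (h0 : 0 ∈ U) (h1 : 1 ∈ U) (h2 : -1 ∈ U)
    (hU : ∀ m ≤ n, ∀ x, Nf (B : Set ℂ) m x → x ∈ U) {m : ℕ} (hm : m ≤ n + 1) {x : ℂ}
    (hx : Nf (B : Set ℂ) m x) : x ∈ nextU B n U := by
  cases hx with
  | zero => exact Finset.mem_union_left _ h0
  | one => exact Finset.mem_union_left _ h1
  | negOne => exact Finset.mem_union_left _ h2
  | base hb h =>
    refine Finset.mem_union_right _ (Finset.mem_union_left _ ?_)
    exact Finset.mem_biUnion.2 ⟨_, hb, mem_sgs h⟩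
  | @add i j x y z hx hy h =>
    refine Finset.mem_union_right _ (Finset.mem_union_right _ (Finset.mem_union_left _ ?_))
    refine Finset.mem_biUnion.2 ⟨(x, y), Finset.mem_product.2 ⟨?_, ?_⟩, mem_sgs h⟩
    · exact hU i (by omega) x hx
    · exact hU j (by omega) y hy
  | @mul i j x y z hi hj hx hy h =>
    refine Finset.mem_union_right _ (Finset.mem_union_right _ (Finset.mem_union_right _
      (Finset.mem_union_left _ ?_)))
    refine Finset.mem_biUnion.2 ⟨(x, y), Finset.mem_product.2 ⟨?_, ?_⟩, mem_sgs h⟩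
    · exact hU i (by omega) x hx
    · exact hU j (by omega) y hy
  | @root d m a x z ha hx h =>
    refine Finset.mem_union_right _ (Finset.mem_union_right _ (Finset.mem_union_right _
      (Finset.mem_union_right _ ?_)))
    refine Finset.mem_biUnion.2 ⟨d, Finset.mem_range.2 (by omega), ?_⟩
    refine Finset.mem_biUnion.2 ⟨a, Fintype.mem_piFinset.2 fun i => ?_, ?_⟩
    · have h3 : m i ≤ ∑ i, m i := Finset.single_le_sum (fun _ _ => Nat.zero_le _)
        (Finset.mem_univ i)
      have h4 : 0 < d := Fin.pos i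
      exact hU (m i) (by omega) (a i) (ha i)
    · exact Finset.mem_biUnion.2 ⟨x, mem_roots_rp hx, mem_sgs h⟩

/-- The number of expressions of weight at most `n` in the elements of a finite set `B` is bounded
by a polynomial in the number of elements of `B`. -/
theorem count_nf (n : ℕ) : ∃ c e : ℕ, 1 ≤ c ∧ ∀ B : Finset ℂ, ∃ U : Finset ℂ,
    U.card ≤ c * (B.card + 1) ^ e ∧ 0 ∈ U ∧ 1 ∈ U ∧ -1 ∈ U ∧
      ∀ m ≤ n, ∀ x, Nf (B : Set ℂ) m x → x ∈ U := by
  induction n with
  | zero =>
    refine ⟨3, 0, by norm_num, fun B => ⟨{0, 1, -1}, ?_, by simp, by simp, by simp, ?_⟩⟩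
    · rw [pow_zero, mul_one]
      exact Finset.card_le_three
    · intro m hm x hx
      rcases hx.eq_of_weight_zero (by omega) with rfl | rfl | rfl <;> simp
  | succ n ih =>
    obtain ⟨c, e, hc, h⟩ := ih
    refine ⟨(13 + 4 * (n + 2) * (n + 2)) * c ^ (n + 2), e * (n + 2) + 1, ?_, fun B => ?_⟩
    · have h1 : 1 ≤ 13 + 4 * (n + 2) * (n + 2) := by omega
      exact Nat.mul_pos h1 (Nat.pow_pos hc)
    obtain ⟨U, h1, h2, h3, h4, h5⟩ := h B
    have hv : 1 ≤ c * (B.card + 1) ^ e := Nat.mul_pos hc (Nat.pow_pos (Nat.succ_pos _))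
    refine ⟨nextU B n U, ?_, Finset.mem_union_left _ h2, Finset.mem_union_left _ h3,
      Finset.mem_union_left _ h4, fun m hm x hx => mem_nextU h2 h3 h4 h5 hm hx⟩
    refine (card_nextU B n U hv h1).trans (le_of_eq ?_)
    rw [mul_pow, ← pow_mul]
    ring

end Pool.Agent.Work.MP_e97a4d_nt.Chain
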