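import Pool.Agent.Work.MP_e97a4d_nt.Ct2
import Pool.Agent.Work.MP_e97a4d_nt.ChCore

/-!
The number of points on linear walks without linear orbits.
-/

set_option autoImplicit false

noncomputable section

namespace Pool.Agent.Work.MP_e97a4d_nt.Chain

open MvPolynomial Module

variable {k D : ℕ}

theorem exists_finset_gen (x : Fin k → ℂ) (E : Set (MvPolynomial (Fin k) ℂ))
    (hE : ∀ f ∈ E, f.totalDegree ≤ D ∧ eval x f = 0) :
    ∃ E₀ : Finset (MvPolynomial (Fin k) ℂ), (E₀ : Set (MvPolynomial (Fin k) ℂ)) ⊆ E ∧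
      E₀.card ≤ (D + 1) ^ k ∧
      E ⊆ Submodule.span ℂ (E₀ : Set (MvPolynomial (Fin k) ℂ)) := by
  classical
  obtain ⟨b, hb1, hb2, hb3⟩ := exists_linearIndependent ℂ E
  have hmem : ∀ f ∈ b, f ∈ JK (⊤ : Subfield ℂ) D x := fun f hf =>
    Submodule.subset_span ⟨(hE f (hb1 hf)).1, fun _ => Subfield.mem_top _, (hE f (hb1 hf)).2⟩
  let v : b → JK (⊤ : Subfield ℂ) D x := fun f => ⟨f.1, hmem f.1 f.2⟩
  have hv : LinearIndependent ℂ v := LinearIndependent.of_comp (JK (⊤ : Subfield ℂ) D x).subtype hb3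
  have hfin : Finite b := hv.finite
  have hft : Fintype b := Fintype.ofFinite b
  refine ⟨b.toFinset, ?_, ?_, ?_⟩
  · rw [Set.coe_toFinset]
    exact hb1
  · rw [Set.toFinset_card]
    exact hv.fintype_card_le_finrank.trans (finrank_JK_le _ _ _)
  · rw [Set.coe_toFinset, hb2]
    exact Submodule.subset_span

theorem onOrbit_of_span {E E₀ : Set (MvPolynomial (Fin k) ℂ)} (h : E ⊆ Submodule.span ℂ E₀)
    {x : Fin k → ℂ} (hx : OnOrbit E₀ x) : OnOrbit E x := by
  obtain ⟨X, h1, h2⟩ := hx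
  refine ⟨X, h1, fun f hf j => ?_⟩
  have h3 : ∀ (j : ℕ) (f : MvPolynomial (Fin k) ℂ), f ∈ Submodule.span ℂ E₀ →
      (vf X)^[j] f ∈ Submodule.span ℂ ((fun e => (vf X)^[j] e) '' E₀) := by
    intro j f hf
    have h4 : (vf X)^[j] f = ((vf X).toLinearMap ^ j) f := by
      rw [Module.End.pow_apply]
      rfl
    rw [h4]
    have h5 : ((fun e => (vf X)^[j] e) '' E₀) = ((vf X).toLinearMap ^ j) '' E₀ := by
      refine Set.image_congr fun e _ => ?_
      rw [Module.End.pow_apply]
      rfl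
    rw [h5, Submodule.span_image]
    exact Submodule.mem_map_of_mem hf
  have h6 : Submodule.span ℂ ((fun e => (vf X)^[j] e) '' E₀) ≤
      LinearMap.ker (MvPolynomial.aeval x : MvPolynomial (Fin k) ℂ →ₐ[ℂ] ℂ).toLinearMap := by
    rw [Submodule.span_le]
    rintro _ ⟨e, he, rfl⟩
    show MvPolynomial.aeval x ((vf X)^[j] e) = 0
    rw [MvPolynomial.aeval_eq_eval]
    exact h2 e he j
  have h7 := h6 (h3 j f (h hf))
  have h8 : MvPolynomial.aeval x ((vf X)^[j] f) = 0 := h7
  rwa [MvPolynomial.aeval_eq_eval] at h8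

/-- the exponent vector with entries `e i` -/
def expv (e : Fin k → Fin (D + 1)) : Fin k →₀ ℕ := Finsupp.equivFunOnFinite.symm fun i => (e i : ℕ)

theorem exists_expv {f : MvPolynomial (Fin k) ℂ} (hf : f.totalDegree ≤ D) {m : Fin k →₀ ℕ}
    (hm : f.coeff m ≠ 0) : ∃ e : Fin k → Fin (D + 1), expv e = m := by
  have h1 : m ∈ f.support := mem_support_iff.mpr hm
  have h2 := le_totalDegree h1
  rw [Finsupp.sum_fintype _ _ (fun _ => rfl)] at h2
  have h3 : ∀ i, m i < D + 1 := by
    intro i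
    have h4 : m i ≤ ∑ i, m i := Finset.single_le_sum (f := fun i => m i) (fun _ _ => Nat.zero_le _)
      (Finset.mem_univ i)
    have h5 : ∑ i, m i ≤ f.totalDegree := h2
    omega
  refine ⟨fun i => ⟨m i, h3 i⟩, ?_⟩
  ext i
  rfl

/-- the entries of the matrices in `S` and of their inverses, and the coefficients of the
polynomials in `E₀` -/
def baseSet (D : ℕ) (S : Finset (Matrix (Fin k) (Fin k) ℂ))
    (E₀ : Finset (MvPolynomial (Fin k) ℂ)) : Finset ℂ :=
  (S ×ˢ (Finset.univ : Finset (Fin k × Fin k))).image (fun p => p.1 p.2.1 p.2.2) ∪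
    ((S ×ˢ (Finset.univ : Finset (Fin k × Fin k))).image (fun p => p.1⁻¹ p.2.1 p.2.2) ∪
      (E₀ ×ˢ (Finset.univ : Finset (Fin k → Fin (D + 1)))).image fun p => p.1.coeff (expv p.2))

theorem card_baseSet (S : Finset (Matrix (Fin k) (Fin k) ℂ))
    (E₀ : Finset (MvPolynomial (Fin k) ℂ)) (hS : S.Nonempty) (hE : E₀.card ≤ (D + 1) ^ k) :
    (baseSet D S E₀).card + 1 ≤ (2 * (k * k) + (D + 1) ^ k * (D + 1) ^ k + 1) * S.card := by
  have hS1 : 1 ≤ S.card := hS.card_pos
  have h1 : ∀ f : Matrix (Fin k) (Fin k) ℂ × (Fin k × Fin k) → ℂ,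
      ((S ×ˢ (Finset.univ : Finset (Fin k × Fin k))).image f).card ≤ S.card * (k * k) := by
    intro f
    refine Finset.card_image_le.trans (le_of_eq ?_)
    rw [Finset.card_product, Finset.card_univ, Fintype.card_prod, Fintype.card_fin]
  have h2 : ((E₀ ×ˢ (Finset.univ : Finset (Fin k → Fin (D + 1)))).image
      fun p => p.1.coeff (expv p.2)).card ≤ (D + 1) ^ k * (D + 1) ^ k := by
    refine Finset.card_image_le.trans ?_
    rw [Finset.card_product, Finset.card_univ, Fintype.card_pi, Finset.prod_const,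
      Finset.card_univ, Fintype.card_fin, Fintype.card_fin]
    exact Nat.mul_le_mul_right _ hE
  have h3 : (baseSet D S E₀).card ≤ S.card * (k * k) + (S.card * (k * k) +
      (D + 1) ^ k * (D + 1) ^ k) := by
    refine (Finset.card_union_le _ _).trans (Nat.add_le_add (h1 _) ?_)
    exact (Finset.card_union_le _ _).trans (Nat.add_le_add (h1 _) h2)
  have h4 : (D + 1) ^ k * (D + 1) ^ k ≤ (D + 1) ^ k * (D + 1) ^ k * S.card :=
    Nat.le_mul_of_pos_right _ hS1
  calc (baseSet D S E₀).card + 1 ≤ (S.card * (k * k) + (S.card * (k * k) +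
      (D + 1) ^ k * (D + 1) ^ k * S.card)) + S.card := by omega
    _ = (2 * (k * k) + (D + 1) ^ k * (D + 1) ^ k + 1) * S.card := by ring

/-- **Counting theorem.** The number of points which can be reached from a given point by walks
along solutions of `E` which are not on linear orbits, with steps in a set of matrices `S` (in both
directions) is bounded by a polynomial in the number of elements of `S` which depends only on
`k` and `D`. -/
theorem count_core (k D : ℕ) : ∃ C : ℕ, ∀ (E : Set (MvPolynomial (Fin k) ℂ))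
    (_ : ∀ f ∈ E, f.totalDegree ≤ D) (S : Finset (Matrix (Fin k) (Fin k) ℂ))
    (_ : ∀ g ∈ S, IsUnit g.det) (_ : S.Nonempty) (x₀ : Fin k → ℂ),
    ∃ U : Finset (Fin k → ℂ), U.card ≤ C * S.card ^ C ∧
      ∀ (N : ℕ) (x : ℕ → Fin k → ℂ), x 0 = x₀ →
        (∀ n ≤ N, (∀ f ∈ E, eval (x n) f = 0) ∧ ¬ OnOrbit E (x n)) →
        (∀ n < N, ∃ g ∈ S, x (n + 1) = g.mulVec (x n) ∨ x n = g.mulVec (x (n + 1))) →
        x N ∈ U := by
  classical
  obtain ⟨C, hC, hcore⟩ := core k D
  obtain ⟨c, e, hc, hU⟩ := count_nf ⌊C⌋₊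
  set M : ℕ := 2 * (k * k) + (D + 1) ^ k * (D + 1) ^ k + 1 with hM
  refine ⟨(c * M ^ e) ^ (k * k) + e * (k * k), ?_⟩
  intro E hE S hdet hS x₀
  have hS1 : 1 ≤ S.card := hS.card_pos
  by_cases hx₀ : ∀ f ∈ E, eval x₀ f = 0
  swap
  · refine ⟨∅, by simp, fun N x h0 hx _ => ?_⟩
    exact absurd (by rw [← h0]; exact (hx 0 (Nat.zero_le _)).1) hx₀
  obtain ⟨E₀, hE1, hE2, hE3⟩ := exists_finset_gen x₀ E (fun f hf => ⟨hE f hf, hx₀ f hf⟩)
  obtain ⟨U, hUc, -, -, -, hU'⟩ := hU (baseSet D S E₀)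
  refine ⟨(Fintype.piFinset fun _ : Fin k => Fintype.piFinset fun _ : Fin k => U).image
    (fun g : Fin k → Fin k → ℂ => Matrix.mulVec (Matrix.of g) x₀), ?_, ?_⟩
  · refine Finset.card_image_le.trans ?_
    rw [Fintype.card_piFinset_const, Fintype.card_piFinset_const, ← pow_mul]
    have h1 : U.card ≤ c * M ^ e * S.card ^ e := by
      refine hUc.trans ?_
      rw [mul_assoc, ← mul_pow]
      exact Nat.mul_le_mul_left _ (Nat.pow_le_pow_left (card_baseSet S E₀ hS hE2) _)
    calc U.card ^ (k * k) ≤ (c * M ^ e * S.card ^ e) ^ (k * k) := Nat.pow_le_pow_left h1 _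
      _ = (c * M ^ e) ^ (k * k) * S.card ^ (e * (k * k)) := by
        rw [mul_pow, ← pow_mul]
      _ ≤ ((c * M ^ e) ^ (k * k) + e * (k * k)) *
          S.card ^ ((c * M ^ e) ^ (k * k) + e * (k * k)) := by
        refine Nat.mul_le_mul (Nat.le_add_right _ _) (Nat.pow_le_pow_right hS1 ?_)
        exact Nat.le_add_left _ _
  · intro N x h0 hx hstep
    have hA : ∀ n < N, ∃ A : Matrix (Fin k) (Fin k) ℂ, (∀ i j, A i j ∈ baseSet D S E₀) ∧
        IsUnit A.det ∧ x (n + 1) = A.mulVec (x n) := by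
      intro n hn
      obtain ⟨g, hg, h1 | h1⟩ := hstep n hn
      · refine ⟨g, fun i j => ?_, hdet g hg, h1⟩
        refine Finset.mem_union_left _ (Finset.mem_image.2 ⟨(g, (i, j)), ?_, rfl⟩)
        exact Finset.mem_product.2 ⟨hg, Finset.mem_univ _⟩
      · refine ⟨g⁻¹, fun i j => ?_, ?_, ?_⟩
        · refine Finset.mem_union_right _ (Finset.mem_union_left _
            (Finset.mem_image.2 ⟨(g, (i, j)), ?_, rfl⟩))
          exact Finset.mem_product.2 ⟨hg, Finset.mem_univ _⟩
        · rw [Matrix.isUnit_nonsing_inv_det_iff]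
          exact hdet g hg
        · rw [h1, Matrix.mulVec_mulVec, Matrix.nonsing_inv_mul g (hdet g hg), Matrix.one_mulVec]
    choose A hA1 hA2 hA3 using hA
    let A' : ℕ → Matrix (Fin k) (Fin k) ℂ := fun n => if h : n < N then A n h else 1
    let cf : Cfg k D :=
      { H := exprField (baseSet D S E₀ : Set ℂ)
        τ := 1
        hτ := le_rfl
        E := E₀
        hE := by
          intro f hf
          refine ⟨hE f (hE1 hf), fun m => ?_⟩
          by_cases hm : f.coeff m = 0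
          · rw [hm, HField.zero]
            exact ⟨zero_mem _, zero_le_one⟩
          · obtain ⟨v, rfl⟩ := exists_expv (hE f (hE1 hf)) hm
            refine mem_exprField_of_mem ?_
            refine Finset.mem_coe.2 (Finset.mem_union_right _ (Finset.mem_union_right _
              (Finset.mem_image.2 ⟨(f, v), ?_, rfl⟩)))
            exact Finset.mem_product.2 ⟨hf, Finset.mem_univ _⟩
        N := N
        x := x
        A := A'
        hA := by
          intro n hn
          have e : A' n = A n hn := dif_pos hn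
          rw [e]
          exact ⟨fun i j => mem_exprField_of_mem (Finset.mem_coe.2 (hA1 n hn i j)), hA2 n hn,
            hA3 n hn⟩
        hx := fun n hn => ⟨fun f hf => (hx n hn).1 f (hE1 hf),
          fun h => (hx n hn).2 (onOrbit_of_span hE3 h)⟩ }
    obtain ⟨G, h1, h2, h3⟩ := hcore cf
    refine Finset.mem_image.2 ⟨G, Fintype.mem_piFinset.2 fun i => Fintype.mem_piFinset.2 fun j =>
      ?_, ?_⟩
    · obtain ⟨n, hn, h4⟩ := exists_nf_of_mem_exprField (h1 i j).1 (h1 i j).2
      refine hU' n ?_ _ h4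
      refine Nat.le_floor ?_
      rw [show C = C * 1 from (mul_one C).symm]
      exact hn
    · change x N = G.mulVec (x 0) at h3
      rw [h0] at h3
      exact h3.symm

end Pool.Agent.Work.MP_e97a4d_nt.Chain
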