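import Pool.Agent.Work.MP_e97a4d_nt.CtDefs
import Pool.Agent.Work.MP_e97a4d_nt.Ct3
import Pool.Agent.Work.MP_e97a4d_nt.ChMain

/-!
The uniform bound for the number of points of linear walks.
-/

set_option autoImplicit false

noncomputable section

namespace Pool.Agent.Work.MP_e97a4d_nt.Chain

open MvPolynomial AlgebraicGeometry CategoryTheory NumberField

variable {k : ℕ}

/-- polynomials in exponential polynomials are exponential polynomials -/
theorem eval₂_mem_expPoly {R : Type} [CommRing R] (ρ : R →+* ℂ) (c : ℂ → Fin k → ℂ)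
    (hc : ∀ i, (fun z => c z i) ∈ expPoly) (f : MvPolynomial (Fin k) R) :
    (fun z => eval₂Hom ρ (c z) f) ∈ expPoly := by
  induction f using MvPolynomial.induction_on with
  | C a =>
    have : (fun z => eval₂Hom ρ (c z) (C a)) = fun _ => ρ a := by
      funext z
      simp
    rw [this]
    exact expPoly.algebraMap_mem (ρ a)
  | add f g hf hg =>
    have : (fun z => eval₂Hom ρ (c z) (f + g)) =
        (fun z => eval₂Hom ρ (c z) f) + fun z => eval₂Hom ρ (c z) g := by
      funext z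
      rw [map_add]
      rfl
    rw [this]
    exact add_mem hf hg
  | mul_X f i hf =>
    have : (fun z => eval₂Hom ρ (c z) (f * MvPolynomial.X i)) =
        (fun z => eval₂Hom ρ (c z) f) * fun z => c z i := by
      funext z
      rw [map_mul, eval₂Hom_X']
      rfl
    rw [this]
    exact mul_mem hf (hc i)

theorem not_onOrbit_set {F₀ : Type} [Field F₀] (σ : F₀ →+* ℂ) {V V' : Scheme.{0}}
    (π : V ⟶ Spec (CommRingCat.of (𝓞 F₀))) (i : V' ⟶ V) (h : CondIexp σ π i)
    (A : CommRingCat.{0}) (ψ : 𝓞 F₀ →+* A) (t : Fin k → A)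
    (ht : Function.Surjective (MvPolynomial.eval₂Hom ψ t))
    (j : Spec A ⟶ V) (hj : j ≫ π = Spec.map (CommRingCat.ofHom ψ)) (hfib : FinFib σ ψ j)
    (E : Set (MvPolynomial (Fin k) ℂ))
    (hE : ∀ x : Fin k → ℂ, (∀ f ∈ E, eval x f = 0) →
      ∃ P : A →+* ℂ, P.comp ψ = σ.comp (algebraMap (𝓞 F₀) F₀) ∧ ∀ a, P (t a) = x a)
    (P : A →+* ℂ) (hP : P ∈ outside σ i ψ j) : ¬ OnOrbit E (fun l => P (t l)) := by
  rintro ⟨X, hX, hE'⟩
  obtain ⟨c, hc1, hc2, hc3⟩ := exists_curve X (fun l => P (t l))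
  have hev : ∀ z, ∀ f ∈ E, eval (c z) f = 0 := fun z f hf =>
    eval_curve X c hc3 f (by rw [hc2]; exact hE' f hf) z
  choose g hg1 hg2 using fun z => hE (c z) (hev z)
  have hgeq : ∀ z f, g z (eval₂Hom ψ t f) =
      eval₂Hom (σ.comp (algebraMap (𝓞 F₀) F₀)) (c z) f := by
    intro z f
    rw [MvPolynomial.coe_eval₂Hom, MvPolynomial.hom_eval₂, hg1 z, MvPolynomial.coe_eval₂Hom]
    congr 1
    funext b
    exact hg2 z b
  have hg0 : g 0 = P := ext_gen ψ t ht ((hg1 0).trans hP.1.symm) fun a => by rw [hg2, hc2]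
  have hft : ψ.FiniteType := by
    have h1 : (C : 𝓞 F₀ →+* MvPolynomial (Fin k) (𝓞 F₀)).FiniteType := by
      have : (algebraMap (𝓞 F₀) (MvPolynomial (Fin k) (𝓞 F₀))).FiniteType := by
        rw [RingHom.finiteType_algebraMap]
        infer_instance
      exact this
    have h2 : (eval₂Hom ψ t).FiniteType := RingHom.FiniteType.of_surjective _ ht
    have h3 : (eval₂Hom ψ t).comp C = ψ := by
      apply RingHom.ext
      intro r
      rw [RingHom.comp_apply, eval₂Hom_C]
    rw [← h3]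
    exact h2.comp h1
  have hexp : ∀ a : A, (fun z => g z a) ∈ expPoly := by
    intro a
    obtain ⟨f, rfl⟩ := ht a
    simp only [hgeq]
    exact eval₂_mem_expPoly _ c hc1 f
  have hnc : ∃ z w, Spec.map (CommRingCat.ofHom (g z)) ≫ j ≠
      Spec.map (CommRingCat.ofHom (g w)) ≫ j := by
    by_contra hcon
    push Not at hcon
    apply hX
    -- the coordinates take finitely many values
    have hfin : (Set.range c).Finite := by
      refine ((hfib (Spec.map (CommRingCat.ofHom (g 0)) ≫ j)).image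
        (fun P : A →+* ℂ => fun l => P (t l))).subset ?_
      rintro _ ⟨z, rfl⟩
      exact ⟨g z, ⟨hg1 z, hcon z 0⟩, by funext l; exact hg2 z l⟩
    have hcont : Continuous c := continuous_pi fun l =>
      continuous_iff_continuousAt.2 fun z => (hc3 z l).continuousAt
    have hev : ∀ᶠ w in nhds (0 : ℂ), c w = c 0 := by
      have h1 : (Set.range c \ {c 0}).Finite := hfin.subset Set.sdiff_subset
      have h2 : (Set.range c \ {c 0})ᶜ ∈ nhds (c 0) :=
        h1.isClosed.isOpen_compl.mem_nhds (by simp)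
      filter_upwards [hcont.continuousAt.preimage_mem_nhds h2] with w hw
      by_contra hne
      exact hw ⟨⟨w, rfl⟩, hne⟩
    funext l
    have h4 := hc3 0 l
    have h5 : HasDerivAt (fun w => c w l) 0 0 := by
      refine (hasDerivAt_const (0 : ℂ) (c 0 l)).congr_of_eventuallyEq ?_
      filter_upwards [hev] with w hw
      rw [hw]
    have h6 := h4.unique h5
    rw [hc2] at h6
    exact h6
  obtain ⟨p, hp⟩ := h A ψ hft j hj g hg1 hexp hnc 0
  exact hP.2 ⟨p, by rw [hp, hg0]⟩

/-- The constants of the uniform bound. -/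
theorem exists_constants_count : ∃ C : ℕ → ℕ → ℕ,
    ∀ {F₀ : Type} [Field F₀] (σ : F₀ →+* ℂ) {V V' : Scheme.{0}}
      (π : V ⟶ Spec (CommRingCat.of (𝓞 F₀))) (i : V' ⟶ V), CondIexp σ π i →
      CondCount C σ π i := by
  classical
  choose C hC using count_core
  refine ⟨C, ?_⟩
  intro F₀ _ σ V V' π i hexp A ψ k t ht j hj hfib D hcut S hS X hX hconn
  obtain ⟨E, hE1, hE2⟩ := hcut
  rcases X.eq_empty_or_nonempty with rfl | ⟨P, hP⟩
  · simp
  have hS' : (S.image fun g => (g.1 : Matrix (Fin k) (Fin k) ℂ)).Nonempty := hS.image _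
  obtain ⟨U, hU1, hU2⟩ := hC k D E hE1 (S.image fun g => (g.1 : Matrix (Fin k) (Fin k) ℂ))
    (by
      intro g hg
      obtain ⟨u, -, rfl⟩ := Finset.mem_image.1 hg
      exact (Matrix.isUnit_iff_isUnit_det _).1 u.isUnit) hS' (fun a => P (t a))
  have hsub : X ⊆ (fun Q : A →+* ℂ => fun a => Q (t a)) ⁻¹' (U : Set (Fin k → ℂ)) := by
    intro Q hQ
    obtain ⟨N, c, h0, h1, h2, h3⟩ := hconn P hP Q hQ
    have h4 := hU2 N (fun n a => c n (t a)) (by simp only [h0]) ?_ ?_
    · simp only [h1] at h4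
      exact h4
    · intro n hn
      have h5 := hX (h2 n hn)
      refine ⟨(hE2 _).2 ⟨c n, h5.1, fun a => rfl⟩, ?_⟩
      exact not_onOrbit_set σ π i hexp A ψ t ht j hj hfib E (fun x => (hE2 x).1) (c n) h5
    · intro n hn
      obtain ⟨g, hg, h5 | h5⟩ := h3 n hn
      · exact ⟨g.1, Finset.mem_image_of_mem _ hg, Or.inl (funext h5)⟩
      · exact ⟨g.1, Finset.mem_image_of_mem _ hg, Or.inr (funext h5)⟩
  have hinj : Set.InjOn (fun Q : A →+* ℂ => fun a => Q (t a)) X := by
    intro Q hQ Q' hQ' hQQ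
    exact ext_gen ψ t ht ((hX hQ).1.trans (hX hQ').1.symm) fun a => congrFun hQQ a
  have himg : (fun Q : A →+* ℂ => fun a => Q (t a)) '' X ⊆ (U : Set (Fin k → ℂ)) :=
    Set.image_subset_iff.2 hsub
  have hfin : X.Finite := Set.Finite.of_finite_image (U.finite_toSet.subset himg) hinj
  refine ⟨hfin, ?_⟩
  rw [← hinj.ncard_image]
  refine (Set.ncard_le_ncard himg U.finite_toSet).trans ?_
  rw [Set.ncard_coe_finset]
  have hS1 : (S.image fun g => (g.1 : Matrix (Fin k) (Fin k) ℂ)).card ≤ S.card :=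
    Finset.card_image_le
  exact hU1.trans (Nat.mul_le_mul_left _ (Nat.pow_le_pow_left hS1 _))

end Pool.Agent.Work.MP_e97a4d_nt.Chain
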