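import Mathlib
import Pool.Agent.Work.MP_e97a4d_nt.LinearSystem

set_option autoImplicit false
set_option linter.unusedSectionVars false

noncomputable section

namespace Pool.Agent.Work.MP_e97a4d_nt

open scoped BigOperators Topology
open Finset Filter

theorem iteratedDeriv_eq_zero_of_growth {h : ℂ → ℂ} (hh : Differentiable ℂ h) (N : ℕ)
    (C₀ R₀ : ℝ) (hb : ∀ z : ℂ, R₀ ≤ ‖z‖ → ‖h z‖ ≤ C₀ * ‖z‖ ^ N) (c : ℂ) :
    iteratedDeriv (N + 1) h c = 0 := by
  by_contra hne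
  have hpos : 0 < ‖iteratedDeriv (N + 1) h c‖ := norm_pos_iff.2 hne
  set K : ℝ := ((N + 1).factorial : ℝ) * (|C₀| * 2 ^ N) with hK
  have hK0 : 0 ≤ K := by positivity
  have hbound : ∀ R : ℝ, 0 < R → ‖c‖ ≤ R → |R₀| + ‖c‖ ≤ R →
      ‖iteratedDeriv (N + 1) h c‖ ≤ K / R := by
    intro R hR h1 h2
    have h3 := Complex.norm_iteratedDeriv_le_of_forall_mem_sphere_norm_le (N + 1) hR
      (hh.diffContOnCl (s := Metric.ball c R)) (C := |C₀| * (2 * R) ^ N) (by
        intro z hz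
        rw [mem_sphere_iff_norm] at hz
        have h4 : ‖z‖ ≤ ‖z - c‖ + ‖c‖ := by
          calc ‖z‖ = ‖(z - c) + c‖ := by rw [sub_add_cancel]
            _ ≤ _ := norm_add_le _ _
        have h5 : ‖z - c‖ ≤ ‖z‖ + ‖c‖ := norm_sub_le _ _
        have h6 : R₀ ≤ ‖z‖ := by linarith [le_abs_self R₀]
        calc ‖h z‖ ≤ C₀ * ‖z‖ ^ N := hb z h6
          _ ≤ |C₀| * (2 * R) ^ N := by
            apply mul_le_mul (le_abs_self _) _ (by positivity) (abs_nonneg _)
            apply pow_le_pow_left₀ (norm_nonneg _)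
            linarith)
    calc ‖iteratedDeriv (N + 1) h c‖ ≤ _ := h3
      _ = K / R := by
        rw [hK, mul_pow]
        field_simp
        ring
  obtain ⟨R, hR⟩ := exists_gt (max (max 1 (|R₀| + ‖c‖)) (K / ‖iteratedDeriv (N + 1) h c‖))
  have hR1 : 1 < R := lt_of_le_of_lt (le_trans (le_max_left _ _) (le_max_left _ _)) hR
  have hR2 : |R₀| + ‖c‖ < R := lt_of_le_of_lt (le_trans (le_max_right _ _) (le_max_left _ _)) hR
  have hR3 : K / ‖iteratedDeriv (N + 1) h c‖ < R := lt_of_le_of_lt (le_max_right _ _) hR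
  have h0 := hbound R (by linarith) (by linarith [abs_nonneg R₀]) hR2.le
  rw [div_lt_iff₀ hpos] at hR3
  rw [le_div_iff₀ (by linarith)] at h0
  linarith [mul_comm R ‖iteratedDeriv (N + 1) h c‖]

theorem poly_upper (P : Polynomial ℂ) (N : ℕ) (hN : P.natDegree ≤ N) :
    ∃ C : ℝ, 0 ≤ C ∧ ∀ z : ℂ, 1 ≤ ‖z‖ → ‖P.eval z‖ ≤ C * ‖z‖ ^ N := by
  refine ⟨∑ i ∈ Finset.range (P.natDegree + 1), ‖P.coeff i‖, by positivity, fun z hz => ?_⟩
  rw [Polynomial.eval_eq_sum_range, Finset.sum_mul]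
  refine (norm_sum_le _ _).trans (Finset.sum_le_sum fun i hi => ?_)
  rw [norm_mul, norm_pow]
  apply mul_le_mul_of_nonneg_left _ (norm_nonneg _)
  apply pow_le_pow_right₀ hz
  rw [Finset.mem_range] at hi
  omega

theorem poly_lower (P : Polynomial ℂ) (hP : P ≠ 0) :
    ∃ c R : ℝ, 0 < c ∧ ∀ z : ℂ, R ≤ ‖z‖ → c ≤ ‖P.eval z‖ := by
  by_cases hd : 0 < P.degree
  · have h1 := Polynomial.tendsto_norm_atTop P hd (l := comap (fun z : ℂ => ‖z‖) atTop)
      (z := id) tendsto_comap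
    have h2 := h1.eventually (eventually_ge_atTop (1 : ℝ))
    rw [eventually_comap] at h2
    obtain ⟨R, hR⟩ := h2.exists_forall_of_atTop
    exact ⟨1, R, one_pos, fun z hz => hR ‖z‖ hz z rfl⟩
  · have h1 := Polynomial.eq_C_of_degree_le_zero (not_lt.1 hd)
    have h2 : P.coeff 0 ≠ 0 := by
      intro h
      apply hP
      rw [h1, h, map_zero]
    refine ⟨‖P.coeff 0‖, 0, norm_pos_iff.2 h2, fun z _ => ?_⟩
    rw [h1]
    simp

/-- an entire function algebraic over the polynomials is a polynomial -/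
theorem iteratedDeriv_eq_zero_of_alg {h : ℂ → ℂ} (hh : Differentiable ℂ h) (n : ℕ)
    (P : ℕ → Polynomial ℂ) (hP : ∃ k ≤ n, P k ≠ 0)
    (heq : ∀ z : ℂ, ∑ k ∈ Finset.range (n + 1), (P k).eval z * h z ^ k = 0) :
    ∃ N : ℕ, ∀ c, iteratedDeriv (N + 1) h c = 0 := by
  classical
  let Q : ℕ → Prop := fun m => m ≤ n ∧ P m ≠ 0
  obtain ⟨k₀, hk₀, hk₀'⟩ := hP
  obtain ⟨hm1, hm2⟩ : Q (Nat.findGreatest Q n) := Nat.findGreatest_spec (P := Q) hk₀ ⟨hk₀, hk₀'⟩
  set m := Nat.findGreatest Q n with hm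
  have htop : ∀ k, m < k → k ≤ n → P k = 0 := by
    intro k hk hkn
    by_contra hne
    exact Nat.findGreatest_is_greatest hk hkn ⟨hkn, hne⟩
  have heq' : ∀ z : ℂ, ∑ k ∈ Finset.range (m + 1), (P k).eval z * h z ^ k = 0 := by
    intro z
    rw [← heq z]
    refine Finset.sum_subset (Finset.range_subset_range.2 (by omega)) ?_
    intro k hk hk'
    rw [Finset.mem_range] at hk hk'
    rw [htop k (by omega) (by omega), Polynomial.eval_zero, zero_mul]
  rcases Nat.eq_zero_or_pos m with h0 | hpos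
  · exfalso
    rw [h0] at heq' hm2
    apply hm2
    apply Polynomial.funext
    intro z
    simpa using heq' z
  obtain ⟨m', hm'⟩ := Nat.exists_eq_succ_of_ne_zero hpos.ne'
  rw [hm', Nat.succ_eq_add_one] at heq' hm2
  obtain ⟨c, R, hc, hR⟩ := poly_lower _ hm2
  set N := (Finset.range (m' + 1)).sup (fun k => (P k).natDegree) with hN
  have hup : ∀ k, ∃ C : ℝ, 0 ≤ C ∧ (k ∈ Finset.range (m' + 1) →
      ∀ z : ℂ, 1 ≤ ‖z‖ → ‖(P k).eval z‖ ≤ C * ‖z‖ ^ N) := by
    intro k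
    by_cases hk : k ∈ Finset.range (m' + 1)
    · obtain ⟨C, hC, hC'⟩ := poly_upper (P k) N
        (Finset.le_sup (f := fun k => (P k).natDegree) hk)
      exact ⟨C, hC, fun _ => hC'⟩
    · exact ⟨0, le_rfl, fun h => absurd h hk⟩
  choose Ck hCk hCk' using hup
  set T : ℝ := ∑ k ∈ Finset.range (m' + 1), Ck k with hT
  have hT0 : 0 ≤ T := Finset.sum_nonneg fun k _ => hCk k
  refine ⟨N, iteratedDeriv_eq_zero_of_growth hh N (1 + T / c) (max 1 R) ?_⟩
  intro z hz
  have hz1 : 1 ≤ ‖z‖ := le_trans (le_max_left _ _) hz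
  have hz2 : R ≤ ‖z‖ := le_trans (le_max_right _ _) hz
  have hzN : 1 ≤ ‖z‖ ^ N := one_le_pow₀ hz1
  have hTc : 0 ≤ T / c := by positivity
  by_cases hh1 : ‖h z‖ ≤ 1
  · calc ‖h z‖ ≤ 1 := hh1
      _ ≤ (1 + T / c) * ‖z‖ ^ N := by nlinarith
  · push Not at hh1
    have h1 := heq' z
    rw [Finset.sum_range_succ] at h1
    have h2 : (P (m' + 1)).eval z * h z ^ (m' + 1) =
        - ∑ k ∈ Finset.range (m' + 1), (P k).eval z * h z ^ k := by
      linear_combination h1
    have h3 : ‖(P (m' + 1)).eval z‖ * ‖h z‖ ^ (m' + 1) ≤ (T * ‖z‖ ^ N) * ‖h z‖ ^ m' := by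
      rw [← norm_pow, ← norm_mul, h2, norm_neg]
      refine (norm_sum_le _ _).trans ?_
      rw [hT, Finset.sum_mul, Finset.sum_mul]
      refine Finset.sum_le_sum fun k hk => ?_
      rw [norm_mul, norm_pow]
      apply mul_le_mul (hCk' k hk z hz1) _ (by positivity) (by have := hCk k; positivity)
      apply pow_le_pow_right₀ hh1.le
      rw [Finset.mem_range] at hk
      omega
    have h4 : c * ‖h z‖ ≤ T * ‖z‖ ^ N := by
      have hp : 0 < ‖h z‖ ^ m' := by positivity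
      have h5 : c * ‖h z‖ * ‖h z‖ ^ m' ≤ (T * ‖z‖ ^ N) * ‖h z‖ ^ m' := by
        calc c * ‖h z‖ * ‖h z‖ ^ m' = c * ‖h z‖ ^ (m' + 1) := by ring
          _ ≤ ‖(P (m' + 1)).eval z‖ * ‖h z‖ ^ (m' + 1) := by
            apply mul_le_mul_of_nonneg_right (hR z hz2) (by positivity)
          _ ≤ _ := h3
      exact le_of_mul_le_mul_right h5 hp
    calc ‖h z‖ = (c * ‖h z‖) / c := by field_simp
      _ ≤ (T * ‖z‖ ^ N) / c := by gcongr
      _ = (T / c) * ‖z‖ ^ N := by ring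
      _ ≤ (1 + T / c) * ‖z‖ ^ N := by nlinarith

theorem not_algOver_bot {h : ℂ → ℂ} (hh : Continuous h) {z w : ℂ} (hne : h z ≠ h w) :
    ¬ AlgOver Set.univ (⊥ : Subalgebra ℂ (ℂ → ℂ)) h := by
  rintro ⟨n, p, hp, ⟨k₀, hk₀, z₀, -, hz₀⟩, heq⟩
  have hconst : ∀ k, ∃ c : ℂ, p k = fun _ => c := by
    intro k
    obtain ⟨c, hc⟩ := Algebra.mem_bot.1 (hp k)
    exact ⟨c, hc.symm⟩
  choose c hc using hconst
  let P : Polynomial ℂ := ∑ k ∈ Finset.range (n + 1), Polynomial.monomial k (c k)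
  have hcoef : ∀ k ≤ n, P.coeff k = c k := by
    intro k hk
    simp only [P, Polynomial.finsetSum_coeff, Polynomial.coeff_monomial]
    rw [Finset.sum_eq_single k]
    · simp
    · intro b _ hb; rw [if_neg hb]
    · intro h; exact absurd (Finset.mem_range.2 (by omega)) h
  have hP0 : P ≠ 0 := by
    intro h
    apply hz₀
    rw [hc, ← hcoef k₀ hk₀, h, Polynomial.coeff_zero]
  have hroot : ∀ z, P.eval (h z) = 0 := by
    intro z
    have := heq z (Set.mem_univ _)
    simp only [P, Polynomial.eval_finsetSum, Polynomial.eval_monomial]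
    rw [← this]
    refine Finset.sum_congr rfl fun k _ => ?_
    rw [hc]
  have hfin : (Set.range h).Finite := by
    refine Set.Finite.subset (P.roots.toFinset.finite_toSet) ?_
    rintro _ ⟨z, rfl⟩
    rw [Finset.mem_coe, Multiset.mem_toFinset, Polynomial.mem_roots hP0]
    exact hroot z
  exact (isPreconnected_range hh).infinite_of_nontrivial ⟨h z, ⟨z, rfl⟩, h w, ⟨w, rfl⟩, hne⟩ hfin

theorem isDiffRing_bot (Ω : Set ℂ) : IsDiffRing Ω (⊥ : Subalgebra ℂ (ℂ → ℂ)) where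
  holo := by
    intro h hh
    obtain ⟨c, rfl⟩ := Algebra.mem_bot.1 hh
    exact differentiableOn_const c
  deriv_mem := by
    intro h hh
    obtain ⟨c, rfl⟩ := Algebra.mem_bot.1 hh
    have : deriv (algebraMap ℂ (ℂ → ℂ) c) = 0 := by
      ext z
      exact deriv_const z c
    rw [this]
    exact Subalgebra.zero_mem _

theorem linODE_bot_of_iteratedDeriv {h : ℂ → ℂ} (N : ℕ) (hN : ∀ c, iteratedDeriv (N + 1) h c = 0) :
    LinODE Set.univ (⊥ : Subalgebra ℂ (ℂ → ℂ)) h := by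
  refine ⟨N + 1, fun k => if k = N + 1 then 1 else 0, ?_, ⟨N + 1, le_rfl, 0, trivial, ?_⟩, ?_⟩
  · intro k
    beta_reduce
    split_ifs
    · exact Subalgebra.one_mem _
    · exact Subalgebra.zero_mem _
  · simp
  · intro z _
    rw [Finset.sum_range_succ, Finset.sum_eq_zero, zero_add]
    · simp [hN z]
    · intro k hk
      rw [Finset.mem_range] at hk
      beta_reduce
      rw [if_neg (by omega)]
      simp

/-- the polynomial functions -/
def polyFun : Subalgebra ℂ (ℂ → ℂ) := (Polynomial.aeval (R := ℂ) (fun z : ℂ => z)).range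

theorem aeval_id_apply (P : Polynomial ℂ) (z : ℂ) :
    (Polynomial.aeval (R := ℂ) (fun z : ℂ => z)) P z = P.eval z := by
  induction P using Polynomial.induction_on' with
  | add p q hp hq => rw [map_add, Pi.add_apply, hp, hq, Polynomial.eval_add]
  | monomial n a =>
    rw [Polynomial.aeval_monomial, Pi.mul_apply, Pi.pow_apply, Polynomial.eval_monomial]
    rfl

theorem mem_polyFun (h : ℂ → ℂ) : h ∈ polyFun ↔ ∃ P : Polynomial ℂ, h = fun z => P.eval z := by
  constructor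
  · rintro ⟨P, rfl⟩
    exact ⟨P, funext fun z => aeval_id_apply P z⟩
  · rintro ⟨P, rfl⟩
    exact ⟨P, funext fun z => aeval_id_apply P z⟩

theorem isDiffRing_polyFun (Ω : Set ℂ) : IsDiffRing Ω polyFun where
  holo := by
    intro h hh
    obtain ⟨P, rfl⟩ := (mem_polyFun h).1 hh
    exact P.differentiable.differentiableOn
  deriv_mem := by
    intro h hh
    obtain ⟨P, rfl⟩ := (mem_polyFun h).1 hh
    refine (mem_polyFun _).2 ⟨Polynomial.derivative P, funext fun z => ?_⟩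
    exact P.deriv

end Pool.Agent.Work.MP_e97a4d_nt
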