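import Mathlib
import Pool.Agent.Work.MP_e97a4d_nt.VpMain2
import Pool.Agent.Work.SUnit.Main

set_option autoImplicit false

noncomputable section

namespace Pool.Agent.Work.MP_e97a4d_nt.Vp

open AlgebraicGeometry CategoryTheory CategoryTheory.Limits IsDedekindDomain NumberField
open scoped Topology

variable {F₀ : Type} [Field F₀]

theorem uFin : UFin := fun F _ _ S c hc => SUnit.finite_unit_add F S c hc

set_option backward.isDefEq.respectTransparency.types false in
/-- The projection of the glued scheme is a local isomorphism. -/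
theorem glue_localIso {V : Scheme.{0}} (U : V.Opens) {ι : Type} [Finite ι] [Nonempty ι]
    (W : ι → V.Opens) (hW : ∀ i, U ≤ W i) : IsLocalIso (GlueW.p U W hW) := by
  refine IsZariskiLocalAtSource.of_openCover (P := @IsLocalIso)
    (Scheme.IsLocallyDirected.openCover (GlueW.diag U W hW)) fun k => ?_
  cases k with
  | none =>
    show IsLocalIso (GlueW.c₀ U W hW ≫ GlueW.p U W hW)
    rw [GlueW.c₀_p]
    exact IsZariskiLocalAtSource.of_isOpenImmersion (P := @IsLocalIso) _
  | some k =>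
    show IsLocalIso (GlueW.c U W hW k ≫ GlueW.p U W hW)
    rw [GlueW.c_p]
    exact IsZariskiLocalAtSource.of_isOpenImmersion (P := @IsLocalIso) _

theorem condI_empty (σ : F₀ →+* ℂ) {V : Scheme.{0}} (π : V ⟶ Spec (CommRingCat.of (𝓞 F₀))) :
    CondI σ π (Scheme.emptyTo V) ↔
      ∀ f : ℂ → (Spec (CommRingCat.of ℂ) ⟶ V), ¬ IsEntireCurve σ π f := by
  have hE : ∀ {X : Scheme.{0}} [Nonempty X], (X ⟶ (∅ : Scheme.{0})) → False := by
    intro X hX f
    obtain ⟨x⟩ := hX
    exact (f x).elim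
  constructor
  · intro h f hf
    obtain ⟨p, -⟩ := h f hf 0
    have : Nonempty (Spec (CommRingCat.of ℂ)) := inferInstanceAs (Nonempty (PrimeSpectrum ℂ))
    exact hE p
  · intro h f hf
    exact absurd hf (h f)

theorem condII_empty {V : Scheme.{0}} (π : V ⟶ Spec (CommRingCat.of (𝓞 F₀))) :
    CondII π (Scheme.emptyTo V) ↔ ∀ (F : Type) [Field F] [NumberField F] [Algebra F₀ F]
      (S : Finset (HeightOneSpectrum (𝓞 F))), (integralPoints π F S).Finite := by
  have hE : ∀ {X : Scheme.{0}} [Nonempty X], (X ⟶ (∅ : Scheme.{0})) → False := by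
    intro X hX f
    obtain ⟨x⟩ := hX
    exact (f x).elim
  refine forall_congr' fun F => forall_congr' fun _ => forall_congr' fun _ =>
    forall_congr' fun _ => forall_congr' fun S => ?_
  have h2 : {x ∈ integralPoints π F S |
      ¬ ∃ y : Spec (CommRingCat.of (SInt F S)) ⟶ (∅ : Scheme.{0}), y ≫ Scheme.emptyTo V = x} =
      integralPoints π F S := by
    ext x
    refine ⟨fun h => h.1, fun h => ⟨h, ?_⟩⟩
    rintro ⟨y, -⟩
    have : Nonempty (Spec (CommRingCat.of (SInt F S))) :=
      inferInstanceAs (Nonempty (PrimeSpectrum (SInt F S)))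
    exact hE y
  rw [h2]

/-- Every pair `(V, V')` has a companion, locally isomorphic to `V`, with empty exceptional
set. -/
theorem exists_companion [NumberField F₀] (V V' : Scheme.{0})
    (π : V ⟶ Spec (CommRingCat.of (𝓞 F₀))) [LocallyOfFiniteType π] [QuasiCompact π]
    (i : V' ⟶ V) [IsClosedImmersion i] :
    ∃ (W : Scheme.{0}) (p : W ⟶ V), IsLocalIso p ∧ LocallyOfFiniteType (p ≫ π) ∧
      QuasiCompact (p ≫ π) ∧
      (∀ σ : F₀ →+* ℂ, CondI σ π i ↔
        ∀ f : ℂ → (Spec (CommRingCat.of ℂ) ⟶ W), ¬ IsEntireCurve σ (p ≫ π) f) ∧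
      (CondII π i ↔ ∀ (F : Type) [Field F] [NumberField F] [Algebra F₀ F]
        (S : Finset (HeightOneSpectrum (𝓞 F))), (integralPoints (p ≫ π) F S).Finite) := by
  classical
  have hcomp : CompactSpace V := QuasiCompact.compactSpace_of_compactSpace π
  choose T hvT hT1 hT2 using exists_tame2 π uFin
  obtain ⟨t, ht⟩ := isCompact_univ.elim_finite_subcover (fun v => (T v : Set V))
    (fun v => (T v).isOpen) (fun v _ => Set.mem_iUnion.2 ⟨v, hvT v⟩)
  let ι : Type := Option t
  let T' : ι → V.Opens := fun o => o.elim ⊥ (fun v => T v)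
  have hT' : ∀ x : V, ∃ k, x ∈ T' k := by
    intro x
    obtain ⟨v, hv⟩ := Set.mem_iUnion.1 (ht (Set.mem_univ x))
    obtain ⟨hvt, hx⟩ := Set.mem_iUnion.1 hv
    exact ⟨some ⟨v, hvt⟩, hx⟩
  have h1 : ∀ (σ : F₀ →+* ℂ) k, Tame1 σ π (T' k) := by
    rintro σ (_ | v)
    · intro f _ hf z w
      exact (hf z).elim
    · exact hT1 v σ
  have h2 : ∀ k, Tame2 π (T' k) := by
    rintro (_ | v)
    · intro F _ _ _ S
      convert Set.finite_empty
      ext x
      simp only [Set.mem_ofPred_eq, Set.mem_empty_iff_false, iff_false]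
      rintro ⟨-, hx⟩
      exact (hx ⟨(⊥ : PrimeSpectrum (SInt F S)), rfl⟩).elim
    · exact hT2 v
  have hW : ∀ k, compl i ≤ compl i ⊔ T' k := fun k => le_sup_left
  obtain ⟨h3, h4⟩ := glue_finiteType π (compl i) (fun k => compl i ⊔ T' k) hW
  exact ⟨GlueW.G (compl i) (fun k => compl i ⊔ T' k) hW,
    GlueW.p (compl i) (fun k => compl i ⊔ T' k) hW, glue_localIso _ _ hW, h3, h4,
    fun σ => curve_iff π i T' hT' (h1 σ) hW, int_iff π i T' hT' h2 hW⟩

end Pool.Agent.Work.MP_e97a4d_nt.Vp
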