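import Mathlib
import Pool.Agent.Work.MP_e97a4d_nt.Defs
import Pool.Agent.Work.MP_e97a4d_nt.Dominated

/-!
The Bombieri-Lang-Vojta equivalence for schemes swept out by images of the multiplicative group, and
for schemes with a non-trivial one-parameter family of endomorphisms.
-/

set_option autoImplicit false

namespace Pool.Agent.Work.MP_e97a4d_nt

open AlgebraicGeometry CategoryTheory Limits IsDedekindDomain NumberField

variable {F₀ : Type} [Field F₀] {V V' : Scheme.{0}}

theorem GmPt_str (u : ℂˣ) : GmPt u ≫ GmStr = 𝟙 _ := by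
  rw [← Spec.map_comp, ← CommRingCat.ofHom_comp]
  have h1 : (evL u).comp (LaurentPolynomial.C : ℂ →+* _) = RingHom.id ℂ := by
    ext r
    simp [evL]
  rw [h1, CommRingCat.ofHom_id, Spec.map_id]

/-- `V_ℂ`. -/
noncomputable abbrev baseC (σ : F₀ →+* ℂ) (π : V ⟶ Spec (CommRingCat.of (𝓞 F₀))) : Scheme.{0} :=
  pullback π (specσ σ)

/-- The set of closed points of `V_ℂ` which lie on non-constant images of `𝔾_m`. -/
def gmLocus (σ : F₀ →+* ℂ) (π : V ⟶ Spec (CommRingCat.of (𝓞 F₀))) : Set (baseC σ π) :=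
  {x | ∃ p : Spec (CommRingCat.of ℂ) ⟶ baseC σ π, p ≫ pullback.snd _ _ = 𝟙 _ ∧
    p ≫ pullback.fst _ _ ∈ gmPoints σ π ∧ p (IsLocalRing.closedPoint ℂ) = x}

theorem GmStr_specσ (σ : F₀ →+* ℂ) : GmStr ≫ specσ σ = Spec.map (CommRingCat.ofHom
      ((LaurentPolynomial.C : ℂ →+* _).comp (σ.comp (algebraMap (𝓞 F₀) F₀)))) := by
  rw [← Spec.map_comp, ← CommRingCat.ofHom_comp]

/-- **The sweeping criterion.** -/
theorem blv_of_dense [NumberField F₀] (σ : F₀ →+* ℂ)
    (π : V ⟶ Spec (CommRingCat.of (𝓞 F₀))) [IsSeparated π] [LocallyOfFiniteType π] (i : V' ⟶ V)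
    [IsClosedImmersion i] (hd : Dense (gmLocus σ π)) : BLV σ π i := by
  by_cases hall : ∀ p ∈ gmPoints σ π, ∃ p', p' ≫ i = p
  · have h : ∀ p : Spec (CommRingCat.of ℂ) ⟶ V, p ≫ π = specσ σ → ∃ p', p' ≫ i = p := by
      intro p hp
      have hcl : IsClosed ((pullback.fst π (specσ σ)) ⁻¹' Set.range i) :=
        (Scheme.Hom.isClosedEmbedding i).isClosed_range.preimage
          (pullback.fst π (specσ σ)).continuous
      have huniv : (pullback.fst π (specσ σ)) ⁻¹' Set.range i = Set.univ := by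
        rw [← hcl.closure_eq, ← Set.univ_subset_iff, ← hd.closure_eq]
        apply closure_mono
        rintro _ ⟨p₁, -, hp₁, rfl⟩
        obtain ⟨p₂, hp₂⟩ := hall _ hp₁
        refine ⟨p₂ (IsLocalRing.closedPoint ℂ), ?_⟩
        have e1 : (p₂ ≫ i) (IsLocalRing.closedPoint ℂ) = i (p₂ (IsLocalRing.closedPoint ℂ)) :=
          Scheme.Hom.comp_apply _ _ _
        have e2 : (p₁ ≫ pullback.fst π (specσ σ)) (IsLocalRing.closedPoint ℂ) =
            (pullback.fst π (specσ σ)) (p₁ (IsLocalRing.closedPoint ℂ)) :=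
          Scheme.Hom.comp_apply _ _ _
        rw [hp₂] at e1
        exact e1.symm.trans e2
      rw [factors_iff_mem_range]
      let p' : Spec (CommRingCat.of ℂ) ⟶ pullback π (specσ σ) := pullback.lift p (𝟙 _) (by
        rw [hp, Category.id_comp])
      have hp' : p' ≫ pullback.fst _ _ = p := pullback.lift_fst _ _ _
      have h2 : p' (⊥ : PrimeSpectrum ℂ) ∈ (pullback.fst π (specσ σ)) ⁻¹' Set.range i := by
        rw [huniv]; trivial
      have h3 : (pullback.fst π (specσ σ)) (p' (⊥ : PrimeSpectrum ℂ)) ∈ Set.range i := h2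
      have h4 : (p' ≫ pullback.fst π (specσ σ)) (⊥ : PrimeSpectrum ℂ) =
          (pullback.fst π (specσ σ)) (p' (⊥ : PrimeSpectrum ℂ)) := Scheme.Hom.comp_apply _ _ _
      rw [hp'] at h4
      rw [h4]
      exact h3
    exact ⟨fun _ => condII_of_forall σ π i h, fun _ => condI_of_forall σ π i h⟩
  · push Not at hall
    obtain ⟨p, ⟨c, hc, ⟨w, hw⟩, u, v, huv⟩, hp⟩ := hall
    rw [GmStr_specσ] at hc
    have hw' : ¬ ∃ p', p' ≫ i = Spec.map (CommRingCat.ofHom (evL w)) ≫ c := by
      rintro ⟨p', hp'⟩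
      exact hp p' (by rw [hp']; exact hw)
    have hI : ¬ CondI σ π i := not_condI_of_curve σ π i c hc u v huv w hw'
    have hII : ¬ CondII π i := by
      let _ : Algebra F₀ ℂ := σ.toAlgebra
      exact not_condII_of_curve π i c hc u v huv w hw'
    exact ⟨fun h => absurd h hI, fun h => absurd h hII⟩

/-- The specialization `x ↦ a (u, x)` of a one-parameter family of endomorphisms. -/
noncomputable def slice (σ : F₀ →+* ℂ) (π : V ⟶ Spec (CommRingCat.of (𝓞 F₀)))
    (a : pullback (pullback.snd π (specσ σ)) GmStr ⟶ baseC σ π) (u : ℂˣ) :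
    baseC σ π ⟶ baseC σ π :=
  pullback.lift (𝟙 _) (pullback.snd π (specσ σ) ≫ GmPt u) (by
    rw [Category.id_comp, Category.assoc, GmPt_str, Category.comp_id]) ≫ a

/-- **Non-trivial one-parameter families of endomorphisms.** -/
theorem blv_of_family [NumberField F₀] (σ : F₀ →+* ℂ)
    (π : V ⟶ Spec (CommRingCat.of (𝓞 F₀))) [IsSeparated π] [LocallyOfFiniteType π] (i : V' ⟶ V)
    [IsClosedImmersion i] [IrreducibleSpace (baseC σ π)]
    (a : pullback (pullback.snd π (specσ σ)) GmStr ⟶ baseC σ π)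
    (ha : a ≫ pullback.snd π (specσ σ) = pullback.fst _ _ ≫ pullback.snd π (specσ σ))
    (h1 : slice σ π a 1 = 𝟙 _)
    (hne : ∃ u : ℂˣ, ∃ x : Spec (CommRingCat.of ℂ) ⟶ baseC σ π,
      x ≫ pullback.snd _ _ = 𝟙 _ ∧ x ≫ slice σ π a u ≠ x) : BLV σ π i := by
  apply blv_of_dense σ π i
  obtain ⟨u, x, hx, hxu⟩ := hne
  let f : baseC σ π ⟶ Spec (CommRingCat.of ℂ) := pullback.snd _ _
  have hY : (baseC σ π).IsSeparated := isSeparated_of_isSeparated f
  have hjac : JacobsonSpace (baseC σ π) := LocallyOfFiniteType.jacobsonSpace f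
  let ε := equalizer.ι (slice σ π a u) (𝟙 _)
  let O : Set (baseC σ π) := (Set.range ε)ᶜ
  have hO : IsOpen O := (Scheme.Hom.isClosedEmbedding ε).isClosed_range.isOpen_compl
  have hfix : ∀ p : Spec (CommRingCat.of ℂ) ⟶ baseC σ π,
      p (IsLocalRing.closedPoint ℂ) ∈ Set.range ε → p ≫ slice σ π a u = p := by
    intro p hp
    have h2 : p (⊥ : PrimeSpectrum ℂ) ∈ Set.range ε := by
      have : (⊥ : PrimeSpectrum ℂ) = IsLocalRing.closedPoint ℂ := Subsingleton.elim _ _
      rw [this]; exact hp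
    obtain ⟨p', hp'⟩ := (factors_iff_mem_range ε p).2 h2
    rw [← hp', Category.assoc, equalizer.condition, Category.comp_id]
  have hOne : O.Nonempty := ⟨x (IsLocalRing.closedPoint ℂ), fun h => hxu (hfix x h)⟩
  have hOd : Dense O := hO.dense hOne
  have hOd' : Dense (O ∩ closedPoints (baseC σ π)) := by
    rw [dense_iff_closure_eq, JacobsonSpace.closure_inter_closedPoints_eq_closure
      hO.isLocallyClosed, ← dense_iff_closure_eq]
    exact hOd
  refine hOd'.mono ?_
  rintro y ⟨hyO, hy⟩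
  let p : Spec (CommRingCat.of ℂ) ⟶ baseC σ π := pointOfClosedPoint f y hy
  have hp : p ≫ f = 𝟙 _ := pointOfClosedPoint_comp f y hy
  have hpy : p (IsLocalRing.closedPoint ℂ) = y := pointOfClosedPoint_apply f y hy _
  have hpu : p ≫ slice σ π a u ≠ p := by
    intro h
    apply hyO
    rw [← hpy]
    have h2 : (∃ p', p' ≫ ε = p) := ⟨equalizer.lift p (by rw [h, Category.comp_id]), by simp [ε]⟩
    have h3 := (factors_iff_mem_range ε p).1 h2
    have : (⊥ : PrimeSpectrum ℂ) = IsLocalRing.closedPoint ℂ := Subsingleton.elim _ _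
    rwa [this] at h3
  -- the orbit map
  let lam : Gm ⟶ pullback (pullback.snd π (specσ σ)) GmStr :=
    pullback.lift (GmStr ≫ p) (𝟙 Gm) (by
      rw [Category.assoc, show p ≫ pullback.snd π (specσ σ) = 𝟙 _ from hp, Category.comp_id,
        Category.id_comp])
  let mu : ℂˣ → (baseC σ π ⟶ pullback (pullback.snd π (specσ σ)) GmStr) := fun v =>
    pullback.lift (𝟙 _) (pullback.snd π (specσ σ) ≫ GmPt v) (by
      rw [Category.id_comp, Category.assoc, GmPt_str, Category.comp_id])
  let orb : Gm ⟶ baseC σ π := lam ≫ a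
  have horb : ∀ v : ℂˣ, GmPt v ≫ orb = p ≫ slice σ π a v := by
    intro v
    show GmPt v ≫ lam ≫ a = p ≫ mu v ≫ a
    suffices hlm : GmPt v ≫ lam = p ≫ mu v by
      rw [← Category.assoc, hlm, Category.assoc]
    simp only [lam, mu]
    apply pullback.hom_ext
    · simp only [Category.assoc, pullback.lift_fst, Category.comp_id]
      rw [← Category.assoc, GmPt_str, Category.id_comp]
    · simp only [Category.assoc, pullback.lift_snd, Category.comp_id]
      rw [← Category.assoc, show p ≫ pullback.snd π (specσ σ) = 𝟙 _ from hp, Category.id_comp]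
  have horbf : orb ≫ f = GmStr := by
    show (lam ≫ a) ≫ pullback.snd π (specσ σ) = GmStr
    rw [Category.assoc, ha, ← Category.assoc, pullback.lift_fst, Category.assoc,
      show p ≫ pullback.snd π (specσ σ) = 𝟙 _ from hp, Category.comp_id]
  refine ⟨p, hp, ⟨orb ≫ pullback.fst _ _, ?_, ⟨1, ?_⟩, 1, u, ?_⟩, hpy⟩
  · rw [Category.assoc, pullback.condition, ← Category.assoc]
    exact congrArg (· ≫ specσ σ) horbf
  · rw [← Category.assoc, horb, h1, Category.comp_id]
  · intro h
    apply hpu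
    have h2 : GmPt u ≫ orb = GmPt 1 ≫ orb := by
      apply pullback.hom_ext
      · rw [Category.assoc, Category.assoc]; exact h.symm
      · rw [Category.assoc, Category.assoc]
        show GmPt u ≫ orb ≫ f = GmPt 1 ≫ orb ≫ f
        rw [horbf, GmPt_str, GmPt_str]
    rw [horb, horb, h1, Category.comp_id] at h2
    exact h2

end Pool.Agent.Work.MP_e97a4d_nt
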